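import Pool.Agent.Run7.h45.Semi
import Mathlib.GroupTheory.SpecificGroups.Alternating
import Mathlib.GroupTheory.Perm.Support

/-!
# Zero-sum functions on coset spaces
-/

set_option autoImplicit false
set_option linter.unusedSectionVars false

open scoped Classical BigOperators

noncomputable section

namespace Run7.h45

open Pool.Agent.Y63.NV Pool.Agent.N85.WM

/-- the additive group of the functions `f : X → ℤ/q` with `∑ f x = 0` -/
def zs (q : ℕ) (X : Type) [Finite X] : AddSubgroup (X → ZMod q) where
  carrier := {f | ∑ᶠ x, f x = 0}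
  zero_mem' := by
    change ∑ᶠ x : X, (0 : ZMod q) = 0
    exact finsum_zero
  add_mem' := by
    intro f g hf hg
    change ∑ᶠ x : X, (f x + g x) = 0
    rw [finsum_add_distrib (Set.toFinite _) (Set.toFinite _)]
    change ∑ᶠ x : X, f x = 0 at hf
    change ∑ᶠ x : X, g x = 0 at hg
    rw [hf, hg, add_zero]
  neg_mem' := by
    intro f hf
    change ∑ᶠ x : X, (- f x) = 0
    change ∑ᶠ x : X, f x = 0 at hf
    rw [finsum_neg_distrib, hf, neg_zero]

theorem mem_zs {q : ℕ} {X : Type} [Fintype X] (f : X → ZMod q) :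
    f ∈ zs q X ↔ ∑ x, f x = 0 := by
  change ∑ᶠ x : X, f x = 0 ↔ _
  rw [finsum_eq_sum_of_fintype]

/-- the group of the zero-sum functions, written multiplicatively -/
def ZS (q : ℕ) (X : Type) [Finite X] : Type := Multiplicative (zs q X)

instance grpZSv (q : ℕ) (X : Type) [Finite X] : CommGroup (ZS q X) :=
  (Multiplicative.commGroup : CommGroup (Multiplicative (zs q X)))

/-- an element of `ZS q X` as a function -/
def ZS.val {q : ℕ} {X : Type} [Finite X] (f : ZS q X) : X → ZMod q := (f : zs q X).1

/-- a zero-sum function as an element of `ZS q X` -/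
def ZS.mk {q : ℕ} {X : Type} [Finite X] (f : X → ZMod q) (hf : f ∈ zs q X) : ZS q X :=
  (⟨f, hf⟩ : zs q X)

theorem ZS.ext {q : ℕ} {X : Type} [Finite X] {f g : ZS q X} (h : f.val = g.val) : f = g :=
  Subtype.ext h

theorem ZS.sum {q : ℕ} {X : Type} [Finite X] (f : ZS q X) : f.val ∈ zs q X := (f : zs q X).2

theorem ZS.val_mul {q : ℕ} {X : Type} [Finite X] (f g : ZS q X) :
    (f * g).val = f.val + g.val := rfl

section act

theorem zs_perm {q : ℕ} {L X : Type} [Group L] [Finite X] [MulAction L X] (l : L)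
    {f : X → ZMod q} (hf : f ∈ zs q X) : (fun x => f (l • x)) ∈ zs q X := by
  change ∑ᶠ x : X, f (l • x) = 0
  change ∑ᶠ x : X, f x = 0 at hf
  rw [← hf]
  exact finsum_comp_equiv (MulAction.toPerm l)

/-- the translate `x ↦ f (l⁻¹ x)` of a zero-sum function `f` on an `L`-set -/
def zsSm {q : ℕ} {L X : Type} [Group L] [Finite X] [MulAction L X] (l : L) (f : ZS q X) :
    ZS q X :=
  ZS.mk (fun x => f.val (l⁻¹ • x)) (zs_perm l⁻¹ f.sum)

theorem zsSm_one {q : ℕ} {L X : Type} [Group L] [Finite X] [MulAction L X] (f : ZS q X) :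
    zsSm (1 : L) f = f := by
  apply ZS.ext
  funext x
  change f.val ((1 : L)⁻¹ • x) = f.val x
  rw [inv_one, one_smul]

theorem zsSm_mul {q : ℕ} {L X : Type} [Group L] [Finite X] [MulAction L X] (l m : L)
    (f : ZS q X) : zsSm (l * m) f = zsSm l (zsSm m f) := by
  apply ZS.ext
  funext x
  change f.val ((l * m)⁻¹ • x) = f.val (m⁻¹ • l⁻¹ • x)
  rw [mul_inv_rev, mul_smul]

theorem zsSm_map {q : ℕ} {L X : Type} [Group L] [Finite X] [MulAction L X] (l : L)
    (f g : ZS q X) : zsSm l (f * g) = zsSm l f * zsSm l g := rfl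

theorem zsSm_inv {q : ℕ} {L X : Type} [Group L] [Finite X] [MulAction L X] (l : L)
    (f : ZS q X) : zsSm l⁻¹ (zsSm l f) = f := by
  rw [← zsSm_mul, inv_mul_cancel, zsSm_one]

theorem zsSm_inv' {q : ℕ} {L X : Type} [Group L] [Finite X] [MulAction L X] (l : L)
    (f : ZS q X) : zsSm l (zsSm l⁻¹ f) = f := by
  rw [← zsSm_mul, mul_inv_cancel, zsSm_one]

/-- the translation by `l` as an automorphism -/
def zsEq (q : ℕ) {L : Type} (X : Type) [Group L] [Finite X] [MulAction L X] (l : L) :
    MulAut (ZS q X) where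
  toFun := zsSm l
  invFun := zsSm l⁻¹
  left_inv := zsSm_inv l
  right_inv := zsSm_inv' l
  map_mul' := zsSm_map l

theorem zsEq_one (q : ℕ) {L : Type} (X : Type) [Group L] [Finite X] [MulAction L X] :
    zsEq q X (1 : L) = 1 := MulEquiv.ext zsSm_one

theorem zsEq_mul (q : ℕ) {L : Type} (X : Type) [Group L] [Finite X] [MulAction L X] (l m : L) :
    zsEq q X (l * m) = zsEq q X l * zsEq q X m := MulEquiv.ext (zsSm_mul l m)

/-- The group `L` acts on the zero-sum functions on the `L`-set `X`:
`(l f) x = f (l⁻¹ x)`. -/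
def zsAct (q : ℕ) (L X : Type) [Group L] [Finite X] [MulAction L X] : L →* MulAut (ZS q X) where
  toFun := zsEq q X
  map_one' := zsEq_one q X
  map_mul' := zsEq_mul q X

end act

/-- For a subgroup `H` of the finite group `L`, the group of the zero-sum functions
`L/H → ℤ/q`, extended by `L`. -/
def ZSGrp (q : ℕ) (L : Type) [Group L] [Finite L] (H : Subgroup L) : Type :=
  ZS q (L ⧸ H) ⋊[zsAct q L (L ⧸ H)] L

instance grpZS (q : ℕ) (L : Type) [Group L] [Finite L] (H : Subgroup L) : Group (ZSGrp q L H) :=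
  (SemidirectProduct.instGroup : Group (ZS q (L ⧸ H) ⋊[zsAct q L (L ⧸ H)] L))

section

variable {q : ℕ} {X : Type} [Finite X]

instance fin_zs [NeZero q] : Finite (ZS q X) :=
  inferInstanceAs (Finite (zs q X))

theorem card_zs [NeZero q] : Nat.card (ZS q X) ∣ q ^ Nat.card X := by
  have h1 : Nat.card (ZS q X) = Nat.card (zs q X) := rfl
  rw [h1]
  refine (AddSubgroup.card_addSubgroup_dvd_card (zs q X)).trans ?_
  have f1 : Fintype X := Fintype.ofFinite X
  rw [Nat.card_eq_fintype_card, Fintype.card_fun, ZMod.card, Nat.card_eq_fintype_card]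

instance finZS [NeZero q] (L : Type) [Group L] [Finite L] (H : Subgroup L) :
    Finite (ZSGrp q L H) :=
  inferInstanceAs (Finite (ZS q (L ⧸ H) ⋊[zsAct q L (L ⧸ H)] L))

/-- the difference of two delta functions -/
def dd (q : ℕ) (x y : X) : ZS q X :=
  ZS.mk (Pi.single x 1 - Pi.single y 1) (by
    have f1 : Fintype X := Fintype.ofFinite X
    rw [mem_zs]
    simp only [Pi.sub_apply, Finset.sum_sub_distrib, Finset.sum_pi_single', Finset.mem_univ,
      if_true, sub_self])

/-- the evaluation character -/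
def evChar [NeZero q] (x : X) : ZS q X →* ℂ where
  toFun f := ZMod.stdAddChar (f.val x)
  map_one' := by
    change ZMod.stdAddChar (0 : ZMod q) = 1
    rw [AddChar.map_zero_eq_one]
  map_mul' f g := by
    rw [← AddChar.map_add_eq_mul]
    rfl

theorem evChar_inj [NeZero q] [Fact (1 < q)] (hX : 3 ≤ Nat.card X) (x y : X)
    (h : ∀ f : ZS q X, evChar x f = evChar y f) : x = y := by
  by_contra hxy
  have f1 : Fintype X := Fintype.ofFinite X
  obtain ⟨z, hz⟩ : ∃ z, z ∉ ({x, y} : Finset X) := by
    by_contra h1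
    push Not at h1
    have h2 : (Finset.univ : Finset X) ⊆ {x, y} := fun z _ => h1 z
    have h3 := Finset.card_le_card h2
    rw [Finset.card_univ, ← Nat.card_eq_fintype_card] at h3
    have h4 : ({x, y} : Finset X).card ≤ 2 := Finset.card_le_two
    omega
  have hzx : z ≠ x := fun h => hz (by rw [h]; exact Finset.mem_insert_self _ _)
  have hzy : z ≠ y := fun h => hz (by
    rw [h]; exact Finset.mem_insert_of_mem (Finset.mem_singleton_self _))
  have h1 := ZMod.injective_stdAddChar (h (dd q x z))
  change (Pi.single x 1 - Pi.single z 1 : X → ZMod q) x =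
    (Pi.single x 1 - Pi.single z 1 : X → ZMod q) y at h1
  rw [Pi.sub_apply, Pi.sub_apply, Pi.single_eq_same, Pi.single_eq_of_ne hzx.symm,
    Pi.single_eq_of_ne (fun h => hxy h.symm), Pi.single_eq_of_ne hzy.symm] at h1
  simp only [sub_zero] at h1
  exact one_ne_zero h1

theorem evChar_act [NeZero q] {L : Type} [Group L] [MulAction L X] (l : L) (x : X)
    (f : ZS q X) : evChar x (zsAct q L X l f) = evChar (l⁻¹ • x) f := rfl

end

/-- The blocks of a subgroup `G` of index at least `3` in `L` are realised in `ZSGrp q L G`. -/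
theorem real_zs {p : ℕ} [Fact p.Prime] {F : Type} [Field F] [IsAlgClosed F] [CharP F p]
    (red : integralClosure ℤ ℂ →+* F) {q : ℕ} (hq : 2 ≤ q) (hpq : ¬ p ∣ q) {G L : Type} [Group G]
    [Finite G] [Group L] [Finite L] (j : G →* L) (hj : Function.Injective j)
    (h3 : 3 ≤ Nat.card (L ⧸ j.range)) (B : (G → F) → F) (hB : IsBlock B) :
    ∃ B' : (ZSGrp q L j.range → F) → F, IsBlock B' ∧ numIrrBlock B' = numIrrBlock B ∧
      numWts p red B' = numWts p red B := by
  have : NeZero q := ⟨by omega⟩
  have : Fact (1 < q) := ⟨by omega⟩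
  refine real_semi (zsAct q L (L ⧸ j.range)) red ?_ j hj
    (evChar (q := q) (((1 : L) : L ⧸ j.range))) (fun l => ?_) B hB
  · intro hd
    exact hpq ((Fact.out : p.Prime).dvd_of_dvd_pow (hd.trans (card_zs (q := q) (X := L ⧸ j.range))))
  · have h1 : (∀ v, evChar (q := q) (((1 : L) : L ⧸ j.range)) (zsAct q L (L ⧸ j.range) l v) =
        evChar (q := q) (((1 : L) : L ⧸ j.range)) v) ↔
        l⁻¹ • (((1 : L) : L ⧸ j.range)) = (((1 : L) : L ⧸ j.range)) := by
      constructor
      · intro h2
        exact evChar_inj (q := q) h3 _ _ fun f => by rw [← evChar_act]; exact h2 f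
      · intro h2 v
        rw [evChar_act, h2]
    rw [h1]
    have h2 : l⁻¹ • (((1 : L) : L ⧸ j.range)) = ((l⁻¹ : L) : L ⧸ j.range) := by
      change ((l⁻¹ * 1 : L) : L ⧸ j.range) = _
      rw [mul_one]
    rw [h2, QuotientGroup.eq, inv_inv, mul_one]
    rfl

/-- The congruence passes from `ZSGrp q L H` to `H`, if the index of `H` is at least `3`. -/
theorem lw_zs {p : ℕ} [Fact p.Prime] {F : Type} [Field F] [IsAlgClosed F] [CharP F p]
    (red : integralClosure ℤ ℂ →+* F) {q : ℕ} (hq : 2 ≤ q) (hpq : ¬ p ∣ q) {G L : Type} [Group G]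
    [Finite G] [Group L] [Finite L] (j : G →* L) (hj : Function.Injective j)
    (h3 : 3 ≤ Nat.card (L ⧸ j.range)) (h : LWmod p red (ZSGrp q L j.range)) :
    LWmod p red G := by
  intro B hB
  obtain ⟨B', h1, h2, h3⟩ := real_zs red hq hpq j hj h3 B hB
  rw [← h2, ← h3]
  exact h B' h1

theorem emb_three {G L : Type} [Group G] [Finite G] [Group L] [Finite L]
    (k : G × Multiplicative (ZMod 3) →* L) (hk : Function.Injective k) :
    ∃ j : G →* L, Function.Injective j ∧ 3 ≤ Nat.card (L ⧸ j.range) := by
  refine ⟨k.comp (MonoidHom.inl _ _), hk.comp (fun a b h => (Prod.ext_iff.mp h).1), ?_⟩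
  have h1 : Nat.card (k.comp (MonoidHom.inl G (Multiplicative (ZMod 3)))).range = Nat.card G :=
    Nat.card_congr (MonoidHom.ofInjective (f := k.comp (MonoidHom.inl _ _))
      (hk.comp (fun a b h => (Prod.ext_iff.mp h).1))).toEquiv.symm
  have h2 : Nat.card k.range = Nat.card G * 3 := by
    rw [Nat.card_congr (MonoidHom.ofInjective hk).toEquiv.symm, Nat.card_prod]
    congr 1
    change Nat.card (ZMod 3) = 3
    simp
  have h3 : Nat.card k.range ≤ Nat.card L := Subgroup.card_le_card_group _
  have h4 := Subgroup.card_eq_card_quotient_mul_card_subgroup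
    (k.comp (MonoidHom.inl G (Multiplicative (ZMod 3)))).range
  rw [h1] at h4
  have h5 : 0 < Nat.card G := Nat.card_pos
  by_contra h6
  push Not at h6
  have h7 : Nat.card (L ⧸ (k.comp (MonoidHom.inl G (Multiplicative (ZMod 3)))).range) * Nat.card G
      ≤ 2 * Nat.card G := Nat.mul_le_mul_right _ (by omega)
  omega

/-- The congruence for all the groups `ZSGrp q L H`, where `L` is such that every finite group
embeds into some `L`, gives it for all finite groups. -/
theorem lw_family {p : ℕ} [Fact p.Prime] {F : Type} [Field F] [IsAlgClosed F] [CharP F p]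
    (red : integralClosure ℤ ℂ →+* F) {q : ℕ} (hq : 2 ≤ q) (hpq : ¬ p ∣ q) {I : Type}
    (L : I → Type) [∀ i, Group (L i)] [∀ i, Finite (L i)]
    (hL : ∀ (G : Type) [Group G] [Finite G], ∃ i, ∃ j : G →* L i, Function.Injective j)
    (h : ∀ i, ∀ H : Subgroup (L i), LWmod p red (ZSGrp q (L i) H)) (G : Type) [Group G]
    [Finite G] : LWmod p red G := by
  have : Finite (Multiplicative (ZMod 3)) := inferInstanceAs (Finite (ZMod 3))
  obtain ⟨i, k, hk⟩ := hL (G × Multiplicative (ZMod 3))
  obtain ⟨j, hj, h3⟩ := emb_three k hk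
  exact lw_zs red hq hpq j hj h3 (h i _)

/-! ## perfect groups -/

section perf

variable {q : ℕ} [NeZero q] {L : Type} [Group L] [Finite L] (H : Subgroup L)

theorem zs_prod {X : Type} [Fintype X] (x₀ : X) (f : ZS q X) :
    f = ∏ x, (dd q x x₀) ^ (f.val x).val := by
  have hv : ∀ (s : Finset X) (g : X → ZS q X), (∏ x ∈ s, g x).val = ∑ x ∈ s, (g x).val := by
    intro s g
    induction s using Finset.induction_on with
    | empty => rfl
    | insert a s ha ih => rw [Finset.prod_insert ha, Finset.sum_insert ha, ZS.val_mul, ih]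
  have hp : ∀ (g : ZS q X) (k : ℕ), (g ^ k).val = k • g.val := by
    intro g k
    induction k with
    | zero => rw [pow_zero, zero_smul]; rfl
    | succ k ih => rw [pow_succ, ZS.val_mul, ih, succ_nsmul]
  apply ZS.ext
  rw [hv]
  funext y
  rw [Finset.sum_apply]
  have h1 : ∀ x, ((dd q x x₀) ^ (f.val x).val).val y =
      f.val x * (Pi.single x 1 : X → ZMod q) y - f.val x * (Pi.single x₀ 1 : X → ZMod q) y := by
    intro x
    rw [hp]
    change ((f.val x).val • (Pi.single x 1 - Pi.single x₀ 1 : X → ZMod q)) y = _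
    rw [Pi.smul_apply, Pi.sub_apply, nsmul_eq_mul, ZMod.natCast_val, ZMod.cast_id', id, mul_sub]
  simp_rw [h1]
  rw [Finset.sum_sub_distrib, ← Finset.sum_mul, (mem_zs _).mp f.sum, zero_mul, sub_zero]
  simp [Pi.single_apply]

/-- if `L` is perfect and transitive on `X`, then the group is perfect -/
theorem perfect_zs' {X : Type} [Finite X] [MulAction L X] [MulAction.IsPretransitive L X] (x₀ : X)
    (hL : commutator L = ⊤) : commutator (ZS q X ⋊[zsAct q L X] L) = ⊤ := by
  have f1 : Fintype X := Fintype.ofFinite _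
  -- perfectness and homomorphisms to commutative groups
  let π : ZS q X ⋊[zsAct q L X] L →*
    Abelianization (ZS q X ⋊[zsAct q L X] L) := Abelianization.of
  have hker : ∀ {A : Type} [CommGroup A] (β : L →* A) (l : L), β l = 1 := by
    intro A _ β l
    have h1 : l ∈ commutator L := by rw [hL]; trivial
    exact Abelianization.commutator_subset_ker β h1
  have hinr : ∀ l : L, π (SemidirectProduct.inr l) = 1 := fun l =>
    hker (π.comp SemidirectProduct.inr) l
  have hact : ∀ (l : L) (v : ZS q X),
      π (SemidirectProduct.inl (zsAct q L X l v)) = π (SemidirectProduct.inl v) := by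
    intro l v
    rw [SemidirectProduct.inl_aut, map_mul, map_mul, hinr, hinr, one_mul, mul_one]
  -- the values on the differences
  have hdd : ∀ l : L, π (SemidirectProduct.inl (dd q (l • x₀) x₀)) = 1 := by
    let β : L →* Abelianization (ZS q X ⋊[zsAct q L X] L) :=
      { toFun := fun l => π (SemidirectProduct.inl (dd q (l • x₀) x₀))
        map_one' := by
          have h1 : dd q ((1 : L) • x₀) x₀ = 1 := by
            apply ZS.ext
            change (Pi.single ((1 : L) • x₀) 1 - Pi.single x₀ 1 : X → ZMod q) = 0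
            rw [one_smul, sub_self]
          rw [h1, map_one, map_one]
        map_mul' := by
          intro l m
          have h1 : dd q ((l * m) • x₀) x₀ =
              zsAct q L X l (dd q (m • x₀) x₀) * dd q (l • x₀) x₀ := by
            apply ZS.ext
            funext x
            change (Pi.single ((l * m) • x₀) 1 - Pi.single x₀ 1 : X → ZMod q) x =
              (Pi.single (m • x₀) 1 - Pi.single x₀ 1 : X → ZMod q) (l⁻¹ • x) +
              (Pi.single (l • x₀) 1 - Pi.single x₀ 1 : X → ZMod q) x
            have h2 : ∀ y : X, (Pi.single y 1 : X → ZMod q) (l⁻¹ • x) =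
                (Pi.single (l • y) 1 : X → ZMod q) x := by
              intro y
              rw [Pi.single_apply, Pi.single_apply, inv_smul_eq_iff]
            simp only [Pi.sub_apply]
            rw [h2, h2, mul_smul]
            ring
          rw [h1, map_mul, map_mul, hact, mul_comm] }
    exact fun l => hker β l
  have hdd' : ∀ x : X, π (SemidirectProduct.inl (dd q x x₀)) = 1 := by
    intro x
    obtain ⟨l, rfl⟩ := MulAction.exists_smul_eq L x₀ x
    exact hdd l
  have hinl : ∀ v : ZS q X, π (SemidirectProduct.inl v) = 1 := by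
    intro v
    change (π.comp SemidirectProduct.inl) v = 1
    rw [zs_prod x₀ v, map_prod]
    refine Finset.prod_eq_one fun x _ => ?_
    rw [map_pow]
    change π (SemidirectProduct.inl (dd q x x₀)) ^ _ = 1
    rw [hdd', one_pow]
  rw [eq_top_iff]
  intro y _
  have h1 : π y = 1 := by
    rw [← SemidirectProduct.inl_left_mul_inr_right y, map_mul, hinl, hinr, one_mul]
  exact (QuotientGroup.eq_one_iff y).mp h1

/-- if `L` is perfect, then so is `ZSGrp q L H` -/
theorem perfect_zs (hL : commutator L = ⊤) : commutator (ZSGrp q L H) = ⊤ :=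
  perfect_zs' (((1 : L) : L ⧸ H)) hL

end perf

/-! ## alternating groups -/

/-- every finite group embeds into all large alternating groups -/
theorem emb_alt (G : Type) [Group G] [Finite G] : ∃ n₀ : ℕ, ∀ n, n₀ ≤ n →
    ∃ j : G →* alternatingGroup (Fin n), Function.Injective j := by
  have f1 : Fintype G := Fintype.ofFinite G
  refine ⟨Fintype.card G + Fintype.card G, fun n hn => ?_⟩
  obtain ⟨k, rfl⟩ := Nat.exists_eq_add_of_le hn
  let W := (G ⊕ G) ⊕ Fin k
  let j₀ : G →* Equiv.Perm W :=
    { toFun := fun g => Equiv.sumCongr (Equiv.sumCongr (Equiv.mulLeft g) (Equiv.mulLeft g))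
        (Equiv.refl (Fin k))
      map_one' := by
        ext t
        rcases t with (a | a) | e <;> simp
      map_mul' := fun g h => by
        ext t
        rcases t with (a | a) | e <;> simp [mul_assoc] }
  have hj₀ : Function.Injective j₀ := by
    intro a b hab
    have h1 := congrArg (fun σ : Equiv.Perm W => σ (Sum.inl (Sum.inl 1))) hab
    change (Sum.inl (Sum.inl (a * 1)) : W) = Sum.inl (Sum.inl (b * 1)) at h1
    rw [mul_one, mul_one] at h1
    exact Sum.inl_injective (Sum.inl_injective h1)
  have hs : ∀ g, Equiv.Perm.sign (j₀ g) = 1 := by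
    intro g
    change Equiv.Perm.sign (Equiv.Perm.sumCongr (Equiv.Perm.sumCongr (Equiv.mulLeft g)
      (Equiv.mulLeft g)) 1) = 1
    rw [Equiv.Perm.sign_sumCongr, Equiv.Perm.sign_sumCongr, Equiv.Perm.sign_one, mul_one,
      Int.units_mul_self]
  let e : W ≃ Fin (Fintype.card G + Fintype.card G + k) := Fintype.equivFinOfCardEq (by
    simp [W])
  let j₁ : G →* Equiv.Perm (Fin (Fintype.card G + Fintype.card G + k)) :=
    (e.permCongrHom).toMonoidHom.comp j₀
  have hj₁ : Function.Injective j₁ := e.permCongrHom.injective.comp hj₀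
  refine ⟨j₁.codRestrict (alternatingGroup (Fin (Fintype.card G + Fintype.card G + k)))
    (fun g => ?_), fun a b hab => hj₁ (congrArg Subtype.val hab)⟩
  rw [Equiv.Perm.mem_alternatingGroup]
  change Equiv.Perm.sign (e.permCongr (j₀ g)) = 1
  rw [Equiv.Perm.sign_permCongr, hs]

end Run7.h45
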