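import Pool.Agent.Run7.h45.Mat
import Pool.Agent.Run7.h45.Perf

/-!
# Universal families for the blockwise weight conjecture
-/

set_option autoImplicit false
set_option linter.unusedSectionVars false

open scoped Classical BigOperators

noncomputable section

namespace Run7.h45

open Pool.Agent.Y63.NV Pool.Agent.N85.WM

/-- The blocks of `G` are realised in `Γ`: for every block `B` of `G` there is a block `B'` of `Γ`
with `l(B') = l(B)` and `w(B') = w(B)`. -/
def Realised (p : ℕ) {F : Type} [Field F] (red : integralClosure ℤ ℂ →+* F) (G Γ : Type) [Group G]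
    [Group Γ] : Prop :=
  ∀ B : (G → F) → F, IsBlock B → ∃ B' : (Γ → F) → F, IsBlock B' ∧
    numIrrBlock B' = numIrrBlock B ∧ numWts p red B' = numWts p red B

theorem real_all {p : ℕ} [Fact p.Prime] {F : Type} [Field F] [IsAlgClosed F] [CharP F p]
    (red : integralClosure ℤ ℂ →+* F) {q : ℕ} (hq : 2 ≤ q) (hpq : ¬ p ∣ q) (G : Type) [Group G]
    [Finite G] : ∃ n₀ : ℕ, ∀ n, n₀ ≤ n → Realised p red G (MatGrp q n) := by
  obtain ⟨n₀, hn₀⟩ := frucht G
  refine ⟨n₀, fun n hn B hB => ?_⟩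
  obtain ⟨j, R, hj, hR⟩ := hn₀ n hn
  exact real_mat red hq hpq j R hj hR B hB

theorem bawc_iff_mat {p : ℕ} [Fact p.Prime] {F : Type} [Field F] [IsAlgClosed F] [CharP F p]
    (red : integralClosure ℤ ℂ →+* F) {q : ℕ} (hq : 2 ≤ q) (hpq : ¬ p ∣ q) (N : Set ℕ)
    (hN : N.Infinite) :
    (∀ (G : Type) [Group G] [Finite G], BAWC p red G) ↔ ∀ n ∈ N, LWmod p red (MatGrp q n) := by
  have : NeZero q := ⟨by omega⟩
  constructor
  · intro h n _ B hB
    have h2 : numIrrBlock B = numWts p red B := h (MatGrp q n) B hB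
    rw [h2]
  · intro h G _ _
    refine bawc_of_modp lw' ww' red (fun _ _ => True) (fun _ _ _ _ => trivial)
      (fun H _ _ _ => ?_) G trivial
    obtain ⟨n₀, hn₀⟩ := lw_mat red hq hpq H
    obtain ⟨n, hn, hlt⟩ := hN.exists_gt n₀
    exact hn₀ n hlt.le (h n hn)

theorem bawc_iff_family {p : ℕ} [Fact p.Prime] {F : Type} [Field F] [IsAlgClosed F] [CharP F p]
    (red : integralClosure ℤ ℂ →+* F) {q : ℕ} (hq : 2 ≤ q) (hpq : ¬ p ∣ q) {I : Type}
    (L : I → Type) [∀ i, Group (L i)] [∀ i, Finite (L i)]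
    (hL : ∀ (G : Type) [Group G] [Finite G], ∃ i, ∃ j : G →* L i, Function.Injective j) :
    (∀ (G : Type) [Group G] [Finite G], BAWC p red G) ↔
      ∀ i, ∀ H : Subgroup (L i), LWmod p red (ZSGrp q (L i) H) := by
  have : NeZero q := ⟨by omega⟩
  constructor
  · intro h i H B hB
    have h2 : numIrrBlock B = numWts p red B := h (ZSGrp q (L i) H) B hB
    rw [h2]
  · intro h G _ _
    exact bawc_of_modp lw' ww' red (fun _ _ => True) (fun _ _ _ _ => trivial)
      (fun H _ _ _ => lw_family red hq hpq L hL h H) G trivial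

theorem bawc_iff_alt {p : ℕ} [Fact p.Prime] {F : Type} [Field F] [IsAlgClosed F] [CharP F p]
    (red : integralClosure ℤ ℂ →+* F) {q : ℕ} (hq : 2 ≤ q) (hpq : ¬ p ∣ q) (N : Set ℕ)
    (hN : N.Infinite) :
    (∀ (G : Type) [Group G] [Finite G], BAWC p red G) ↔
      ∀ n ∈ N, 5 ≤ n → ∀ H : Subgroup (alternatingGroup (Fin n)),
        LWmod p red (ZSGrp q (alternatingGroup (Fin n)) H) := by
  have h1 := bawc_iff_family red hq hpq (I := {n : ℕ // n ∈ N ∧ 5 ≤ n})
    (fun i => alternatingGroup (Fin i.1)) (fun G _ _ => by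
      obtain ⟨n₀, hn₀⟩ := emb_alt G
      obtain ⟨n, hn, hlt⟩ := hN.exists_gt (max n₀ 5)
      exact ⟨⟨n, hn, (le_max_right _ _).trans hlt.le⟩, hn₀ n ((le_max_left _ _).trans hlt.le)⟩)
  rw [h1]
  exact ⟨fun h n hn h5 => h ⟨n, hn, h5⟩, fun h i => h i.1 i.2.1 i.2.2⟩

theorem perfect_alt {q : ℕ} [NeZero q] {n : ℕ} (hn : 5 ≤ n)
    (H : Subgroup (alternatingGroup (Fin n))) :
    commutator (ZSGrp q (alternatingGroup (Fin n)) H) = ⊤ :=
  perfect_zs H (commutator_alternatingGroup_eq_top (by simpa using hn))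

end Run7.h45
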