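import Pool.Agent.Run7.h45.PV3
import Pool.Agent.Run7.h45.Univ

/-!
# The blockwise weight conjecture and perfect primitive groups
-/

set_option autoImplicit false
set_option linter.unusedSectionVars false

open scoped Classical BigOperators

noncomputable section

namespace Run7.h45.PV

open Pool.Agent.Y63.NV Pool.Agent.N85.WM

/-- the congruences modulo `p` for the perfect primitive groups give the weight conjecture -/
theorem bawc_prim {W : Type} [CommGroup W] {e : ℕ} (S : Seed W e) [Finite W] [NeZero e] {q d : ℕ}
    (hW : Nat.card W = q ^ d) {p : ℕ} [hp : Fact p.Prime] {F : Type} [Field F] [IsAlgClosed F]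
    [CharP F p] (red : integralClosure ℤ ℂ →+* F) (hpq : ¬ p ∣ q) :
    (∀ (G : Type) [Group G] [Finite G], BAWC p red G) ↔
      ∀ (H : Type) [Group H] [Finite H], PP q H → LWmod p red H := by
  constructor
  · intro h H _ _ _ B hB
    have h2 : numIrrBlock B = numWts p red B := h H B hB
    rw [h2]
  · intro h G _ _
    refine bawc_of_modp lw' ww' red (fun _ _ => True) (fun _ _ _ _ => trivial)
      (fun H _ _ _ => ?_) G trivial
    obtain ⟨V, L, i1, i2, i3, i4, φ, j, θ, hj, hst, hPP, ⟨k, hV⟩, -⟩ := one_fam S hW H
    exact lw_semi φ red (fun hd => hpq (hp.out.dvd_of_dvd_pow (by rw [hV] at hd; exact hd))) j hj θ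
      hst (h _ hPP)

end Run7.h45.PV
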