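import Pool.Agent.Run7.h45.Graph

/-!
# Direct powers of finite groups as automorphism groups of small digraphs
-/

set_option autoImplicit false

open scoped Classical BigOperators

noncomputable section

namespace Run7.h45

section gad

variable (ι G : Type) [Group G] (m : ℕ)

/-- the vertices: for every `i : ι` the elements of `G` and the arcs, and a chain of `m` further
vertices -/
abbrev PT : Type := (ι × G) ⊕ ((ι × G × G) ⊕ Fin m)

variable {ι G m}

/-- `ι → G` acts on the vertices -/
def pA : (ι → G) →* Equiv.Perm (PT ι G m) where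
  toFun g :=
    { toFun := Sum.map (fun t => (t.1, g t.1 * t.2)) (Sum.map (fun t => (t.1, g t.1 * t.2.1, t.2.2))
        id)
      invFun := Sum.map (fun t => (t.1, (g t.1)⁻¹ * t.2))
        (Sum.map (fun t => (t.1, (g t.1)⁻¹ * t.2.1, t.2.2)) id)
      left_inv := by
        rintro (⟨i, a⟩ | ⟨i, a, s⟩ | e) <;> simp
      right_inv := by
        rintro (⟨i, a⟩ | ⟨i, a, s⟩ | e) <;> simp }
  map_one' := by
    apply Equiv.ext
    rintro (⟨i, a⟩ | ⟨i, a, s⟩ | e) <;> simp
  map_mul' g h := by
    apply Equiv.ext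
    rintro (⟨i, a⟩ | ⟨i, a, s⟩ | e) <;> simp [mul_assoc]

theorem pA_l (g : ι → G) (i : ι) (a : G) :
    (pA g : Equiv.Perm (PT ι G m)) (Sum.inl (i, a)) = Sum.inl (i, g i * a) := rfl

theorem pA_m (g : ι → G) (i : ι) (a s : G) :
    (pA g : Equiv.Perm (PT ι G m)) (Sum.inr (Sum.inl (i, a, s))) =
      Sum.inr (Sum.inl (i, g i * a, s)) := rfl

theorem pA_r (g : ι → G) (e : Fin m) :
    (pA g : Equiv.Perm (PT ι G m)) (Sum.inr (Sum.inr e)) = Sum.inr (Sum.inr e) := rfl

/-- the digraph -/
def pR (lab : ι × G → Fin m) : PT ι G m → PT ι G m → Prop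
  | Sum.inr (Sum.inr e), Sum.inr (Sum.inr e') => e ≤ e'
  | Sum.inr (Sum.inr e), Sum.inr (Sum.inl (i, _, s)) => e = lab (i, s)
  | Sum.inl t, Sum.inr (Sum.inl (i, b, _)) => t = (i, b)
  | Sum.inr (Sum.inl (i, a, s)), Sum.inl t => t = (i, a * s)
  | _, _ => False

/-- the automorphism group of the digraph is `ι → G` -/
theorem p_aut {lab : ι × G → Fin m} (hlab : Function.Injective lab) (π : Equiv.Perm (PT ι G m)) :
    (∀ t t', pR lab (π t) (π t') ↔ pR lab t t') ↔ ∃ g, pA g = π := by
  constructor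
  · intro h
    -- the chain is preserved
    have hE : ∀ e : Fin m, ∃ e' : Fin m, π (Sum.inr (Sum.inr e)) = Sum.inr (Sum.inr e') := by
      intro e
      have h1 : pR lab (π (Sum.inr (Sum.inr e))) (π (Sum.inr (Sum.inr e))) := by
        rw [h]; exact le_refl e
      rcases hπ : π (Sum.inr (Sum.inr e)) with a | ⟨a, s⟩ | e'
      · rw [hπ] at h1; exact h1.elim
      · rw [hπ] at h1; exact h1.elim
      · exact ⟨e', rfl⟩
    choose f hf using hE
    have hid : ∀ e, f e = e := fin_id f fun a b => by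
      have h1 := h (Sum.inr (Sum.inr a)) (Sum.inr (Sum.inr b))
      rw [hf, hf] at h1
      exact h1
    have hE' : ∀ e : Fin m, π (Sum.inr (Sum.inr e)) = Sum.inr (Sum.inr e) := fun e => by
      rw [hf, hid]
    -- the arcs
    have hA : ∀ i a s, ∃ b, π (Sum.inr (Sum.inl (i, a, s))) = Sum.inr (Sum.inl (i, b, s)) := by
      intro i a s
      have h1 : pR lab (π (Sum.inr (Sum.inr (lab (i, s))))) (π (Sum.inr (Sum.inl (i, a, s)))) := by
        rw [h]; exact rfl
      rw [hE'] at h1
      have h2 : ¬ pR lab (π (Sum.inr (Sum.inl (i, a, s)))) (π (Sum.inr (Sum.inl (i, a, s)))) := by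
        rw [h]; exact fun h => h
      rcases hπ : π (Sum.inr (Sum.inl (i, a, s))) with b | ⟨i', b, s'⟩ | e'
      · rw [hπ] at h1; exact h1.elim
      · rw [hπ] at h1
        have h3 : lab (i, s) = lab (i', s') := h1
        have h4 := hlab h3
        rw [Prod.mk.injEq] at h4
        obtain ⟨rfl, rfl⟩ := h4
        exact ⟨b, rfl⟩
      · rw [hπ] at h2; exact (h2 (le_refl e')).elim
    -- the elements
    have hG : ∀ t : ι × G, ∃ t' : ι × G, π (Sum.inl t) = Sum.inl t' := by
      intro a
      have h2 : ¬ pR lab (π (Sum.inl a)) (π (Sum.inl a)) := by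
        rw [h]; exact fun h => h
      rcases hπ : π (Sum.inl a) with b | ⟨i', b, s'⟩ | e'
      · exact ⟨b, rfl⟩
      · exfalso
        have h1 : pR lab (π (Sum.inr (Sum.inr (lab (i', s'))))) (π (Sum.inl a)) := by
          rw [hE', hπ]; exact rfl
        rw [h] at h1
        exact h1
      · rw [hπ] at h2; exact (h2 (le_refl e')).elim
    choose v hv using hG
    have hA' : ∀ i a s, (v (i, a)).1 = i ∧
        π (Sum.inr (Sum.inl (i, a, s))) = Sum.inr (Sum.inl (i, (v (i, a)).2, s)) := by
      intro i a s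
      obtain ⟨b, hb⟩ := hA i a s
      have h1 : pR lab (π (Sum.inl (i, a))) (π (Sum.inr (Sum.inl (i, a, s)))) := by
        rw [h]; exact rfl
      rw [hv, hb] at h1
      have h3 : v (i, a) = (i, b) := h1
      rw [hb, h3]
      exact ⟨rfl, rfl⟩
    have hmul : ∀ i a s, (v (i, a * s)).2 = (v (i, a)).2 * s := by
      intro i a s
      have h1 : pR lab (π (Sum.inr (Sum.inl (i, a, s)))) (π (Sum.inl (i, a * s))) := by
        rw [h]; exact rfl
      rw [hv, (hA' i a s).2] at h1
      have h3 : v (i, a * s) = (i, (v (i, a)).2 * s) := h1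
      rw [h3]
    refine ⟨fun i => (v (i, 1)).2, ?_⟩
    apply Equiv.ext
    rintro (⟨i, a⟩ | ⟨i, a, s⟩ | e)
    · rw [pA_l, hv]
      have h1 := hmul i 1 a
      rw [one_mul] at h1
      rw [← h1]
      exact congrArg Sum.inl (Prod.ext (hA' i a 1).1.symm rfl)
    · rw [pA_m, (hA' i a s).2]
      have h1 := hmul i 1 a
      rw [one_mul] at h1
      rw [h1]
    · rw [pA_r, hE']
  · rintro ⟨g, rfl⟩ t t'
    rcases t with ⟨i, a⟩ | ⟨i, a, s⟩ | e <;> rcases t' with ⟨i', a'⟩ | ⟨i', a', s'⟩ | e'
    · exact Iff.rfl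
    · change (i, g i * a) = (i', g i' * a') ↔ (i, a) = (i', a')
      rw [Prod.mk.injEq, Prod.mk.injEq]
      constructor
      · rintro ⟨rfl, h⟩
        exact ⟨rfl, mul_left_cancel h⟩
      · rintro ⟨rfl, rfl⟩
        exact ⟨rfl, rfl⟩
    · exact Iff.rfl
    · change (i', g i' * a') = (i, g i * a * s) ↔ (i', a') = (i, a * s)
      rw [Prod.mk.injEq, Prod.mk.injEq, mul_assoc]
      constructor
      · rintro ⟨rfl, h⟩
        exact ⟨rfl, mul_left_cancel h⟩
      · rintro ⟨rfl, rfl⟩
        exact ⟨rfl, rfl⟩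
    · exact Iff.rfl
    · exact Iff.rfl
    · exact Iff.rfl
    · exact Iff.rfl
    · exact Iff.rfl

theorem pA_inj : Function.Injective (pA : (ι → G) →* Equiv.Perm (PT ι G m)) := by
  intro g h hgh
  funext i
  have h1 := congrFun (congrArg DFunLike.coe hgh) (Sum.inl (i, 1))
  rw [pA_l, pA_l, mul_one, mul_one] at h1
  exact (Prod.ext_iff.mp (Sum.inl_injective h1)).2

/-- The direct power `G^k` is the automorphism group of a digraph on `n` points, if `n` is at least
`k` times a constant. -/
theorem frucht_pow (G : Type) [Group G] [Finite G] : ∃ c : ℕ, 0 < c ∧ ∀ k n, c * k ≤ n →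
    ∃ (j : (Fin k → G) →* Equiv.Perm (Fin n)) (R : Fin n → Fin n → Prop), Function.Injective j ∧
      ∀ π : Equiv.Perm (Fin n), (∀ a b, R (π a) (π b) ↔ R a b) ↔ ∃ g, j g = π := by
  have : Fintype G := Fintype.ofFinite G
  have hG : 0 < Fintype.card G := Fintype.card_pos
  refine ⟨Fintype.card G + Fintype.card G * Fintype.card G + Fintype.card G, by omega,
    fun k n hn => ?_⟩
  have hn' : k * Fintype.card G + k * (Fintype.card G * Fintype.card G) + k * Fintype.card G ≤ n :=
    le_trans (le_of_eq (by ring)) hn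
  obtain ⟨m, rfl⟩ : ∃ m, n = k * Fintype.card G + (k * (Fintype.card G * Fintype.card G) + m) :=
    ⟨n - k * Fintype.card G - k * (Fintype.card G * Fintype.card G), by omega⟩
  have hm : k * Fintype.card G ≤ m := by omega
  have hcard : Fintype.card (Fin k × G) = k * Fintype.card G := by simp
  obtain ⟨lab, hlab⟩ : ∃ lab : Fin k × G → Fin m, Function.Injective lab :=
    ⟨fun g => Fin.castLE (hcard.le.trans hm) (Fintype.equivFin (Fin k × G) g), fun a b hab =>
      (Fintype.equivFin (Fin k × G)).injective (Fin.castLE_injective _ hab)⟩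
  let e : PT (Fin k) G m ≃ Fin (k * Fintype.card G +
      (k * (Fintype.card G * Fintype.card G) + m)) :=
    Fintype.equivFinOfCardEq (by simp)
  refine ⟨(e.permCongrHom.toMonoidHom).comp pA, fun a b => pR lab (e.symm a) (e.symm b), ?_, ?_⟩
  · intro g h hgh
    exact pA_inj (e.permCongrHom.injective hgh)
  · intro π
    have h1 := p_aut hlab (e.permCongrHom.symm π)
    have h2 : ∀ t, e.permCongrHom.symm π t = e.symm (π (e t)) := fun t => rfl
    constructor
    · intro h
      obtain ⟨g, hg⟩ := h1.1 (fun t t' => by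
        rw [h2, h2]
        have h3 : pR lab (e.symm (π (e t))) (e.symm (π (e t'))) ↔
          pR lab (e.symm (e t)) (e.symm (e t')) := h (e t) (e t')
        rw [e.symm_apply_apply, e.symm_apply_apply] at h3
        exact h3)
      refine ⟨g, ?_⟩
      change e.permCongrHom (pA g) = π
      rw [hg]
      exact MulEquiv.apply_symm_apply _ _
    · rintro ⟨g, hg⟩
      have h3 : pA g = e.permCongrHom.symm π := by
        rw [← hg]
        exact (MulEquiv.symm_apply_apply _ _).symm
      intro a b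
      have h4 := h1.2 ⟨g, h3⟩ (e.symm a) (e.symm b)
      rw [h2, h2, e.apply_symm_apply, e.apply_symm_apply] at h4
      exact h4

end gad

end Run7.h45
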