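import Mathlib

/-!
# Finite groups as automorphism groups of finite digraphs with loops
-/

set_option autoImplicit false

open scoped Classical BigOperators

noncomputable section

namespace Run7.h45

section gad

variable (G : Type) [Group G] (k : ℕ)

/-- the vertices: the elements of `G`, the arcs, and a chain of `k` further vertices -/
abbrev GT : Type := G ⊕ ((G × G) ⊕ Fin k)

variable {G k}

/-- `G` acts on the vertices -/
def gA : G →* Equiv.Perm (GT G k) where
  toFun g := Equiv.sumCongr (Equiv.mulLeft g)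
    (Equiv.sumCongr (Equiv.prodCongr (Equiv.mulLeft g) (Equiv.refl G)) (Equiv.refl (Fin k)))
  map_one' := by
    ext t
    rcases t with a | ⟨a, s⟩ | e <;> simp
  map_mul' g h := by
    ext t
    rcases t with a | ⟨a, s⟩ | e <;> simp [mul_assoc]

/-- the digraph -/
def gR (lab : G → Fin k) : GT G k → GT G k → Prop
  | Sum.inr (Sum.inr e), Sum.inr (Sum.inr e') => e ≤ e'
  | Sum.inr (Sum.inr e), Sum.inr (Sum.inl (_, s)) => e = lab s
  | Sum.inl a, Sum.inr (Sum.inl (b, _)) => a = b
  | Sum.inr (Sum.inl (a, s)), Sum.inl b => b = a * s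
  | _, _ => False

theorem fin_id {k : ℕ} (f : Fin k → Fin k) (hf : ∀ a b, f a ≤ f b ↔ a ≤ b) : ∀ a, f a = a := by
  have h1 : StrictMono f := fun a b hab => by
    rw [lt_iff_not_ge, hf]
    exact not_le_of_gt hab
  exact fun a => le_antisymm (h1.le_id a) (h1.id_le a)

/-- the automorphism group of the digraph is `G` -/
theorem g_aut {lab : G → Fin k} (hlab : Function.Injective lab) (π : Equiv.Perm (GT G k)) :
    (∀ t t', gR lab (π t) (π t') ↔ gR lab t t') ↔ ∃ g, gA g = π := by
  constructor
  · intro h
    -- the chain is preserved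
    have hE : ∀ e : Fin k, ∃ e' : Fin k, π (Sum.inr (Sum.inr e)) = Sum.inr (Sum.inr e') := by
      intro e
      have h1 : gR lab (π (Sum.inr (Sum.inr e))) (π (Sum.inr (Sum.inr e))) := by
        rw [h]; exact le_refl e
      rcases hπ : π (Sum.inr (Sum.inr e)) with a | ⟨a, s⟩ | e'
      · rw [hπ] at h1; exact h1.elim
      · rw [hπ] at h1; exact h1.elim
      · exact ⟨e', rfl⟩
    choose f hf using hE
    have hid : ∀ e, f e = e := fin_id f fun a b => by
      have h1 := h (Sum.inr (Sum.inr a)) (Sum.inr (Sum.inr b))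
      rw [hf, hf] at h1
      exact h1
    have hE' : ∀ e : Fin k, π (Sum.inr (Sum.inr e)) = Sum.inr (Sum.inr e) := fun e => by
      rw [hf, hid]
    have hloop : ∀ t : GT G k, gR lab t t ↔ ∃ e, t = Sum.inr (Sum.inr e) := by
      intro t
      rcases t with a | ⟨a, s⟩ | e
      · exact ⟨fun h => h.elim, fun ⟨e, he⟩ => by cases he⟩
      · exact ⟨fun h => h.elim, fun ⟨e, he⟩ => by cases he⟩
      · exact ⟨fun _ => ⟨e, rfl⟩, fun _ => le_refl e⟩
    -- the arcs
    have hA : ∀ a s, ∃ b, π (Sum.inr (Sum.inl (a, s))) = Sum.inr (Sum.inl (b, s)) := by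
      intro a s
      have h1 : gR lab (π (Sum.inr (Sum.inr (lab s)))) (π (Sum.inr (Sum.inl (a, s)))) := by
        rw [h]; exact rfl
      rw [hE'] at h1
      have h2 : ¬ gR lab (π (Sum.inr (Sum.inl (a, s)))) (π (Sum.inr (Sum.inl (a, s)))) := by
        rw [h]; exact fun h => h
      rcases hπ : π (Sum.inr (Sum.inl (a, s))) with b | ⟨b, s'⟩ | e'
      · rw [hπ] at h1; exact h1.elim
      · rw [hπ] at h1
        have h3 : lab s = lab s' := h1
        rw [← hlab h3]
        exact ⟨b, rfl⟩
      · rw [hπ] at h2; exact (h2 (le_refl e')).elim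
    -- the elements
    have hG : ∀ a : G, ∃ b : G, π (Sum.inl a) = Sum.inl b := by
      intro a
      have h2 : ¬ gR lab (π (Sum.inl a)) (π (Sum.inl a)) := by
        rw [h]; exact fun h => h
      rcases hπ : π (Sum.inl a) with b | ⟨b, s'⟩ | e'
      · exact ⟨b, rfl⟩
      · exfalso
        have h1 : gR lab (π (Sum.inr (Sum.inr (lab s')))) (π (Sum.inl a)) := by
          rw [hE', hπ]; exact rfl
        rw [h] at h1
        exact h1
      · rw [hπ] at h2; exact (h2 (le_refl e')).elim
    choose u hu using hG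
    have hA' : ∀ a s, π (Sum.inr (Sum.inl (a, s))) = Sum.inr (Sum.inl (u a, s)) := by
      intro a s
      obtain ⟨b, hb⟩ := hA a s
      have h1 : gR lab (π (Sum.inl a)) (π (Sum.inr (Sum.inl (a, s)))) := by
        rw [h]; exact rfl
      rw [hu, hb] at h1
      have h3 : u a = b := h1
      rw [hb, h3]
    have hmul : ∀ a s, u (a * s) = u a * s := by
      intro a s
      have h1 : gR lab (π (Sum.inr (Sum.inl (a, s)))) (π (Sum.inl (a * s))) := by
        rw [h]; exact rfl
      rw [hu, hA'] at h1
      exact h1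
    refine ⟨u 1, ?_⟩
    ext t
    rcases t with a | ⟨a, s⟩ | e
    · rw [hu]
      have h1 := hmul 1 a
      rw [one_mul] at h1
      rw [h1]
      rfl
    · rw [hA']
      have h1 := hmul 1 a
      rw [one_mul] at h1
      rw [h1]
      rfl
    · rw [hE']
      rfl
  · rintro ⟨g, rfl⟩ t t'
    rcases t with a | ⟨a, s⟩ | e <;> rcases t' with a' | ⟨a', s'⟩ | e'
    · exact Iff.rfl
    · change g * a = g * a' ↔ a = a'
      exact mul_right_inj g
    · exact Iff.rfl
    · change g * a' = g * a * s ↔ a' = a * s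
      rw [mul_assoc]
      exact mul_right_inj g
    · exact Iff.rfl
    · exact Iff.rfl
    · exact Iff.rfl
    · exact Iff.rfl
    · exact Iff.rfl

theorem gA_inj : Function.Injective (gA : G →* Equiv.Perm (GT G k)) := by
  intro g h hgh
  have h1 := congrFun (congrArg DFunLike.coe hgh) (Sum.inl 1)
  change (Sum.inl (g * 1) : GT G k) = Sum.inl (h * 1) at h1
  rw [mul_one, mul_one] at h1
  exact Sum.inl_injective h1

/-- For all large `n` the group `G` is the automorphism group of a digraph on `n` points. -/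
theorem frucht (G : Type) [Group G] [Finite G] : ∃ n₀ : ℕ, ∀ n, n₀ ≤ n →
    ∃ (j : G →* Equiv.Perm (Fin n)) (R : Fin n → Fin n → Prop), Function.Injective j ∧
      ∀ π : Equiv.Perm (Fin n), (∀ a b, R (π a) (π b) ↔ R a b) ↔ ∃ g, j g = π := by
  have : Fintype G := Fintype.ofFinite G
  refine ⟨Fintype.card G + Fintype.card G * Fintype.card G + Fintype.card G, fun n hn => ?_⟩
  obtain ⟨k, rfl⟩ : ∃ k, n = Fintype.card G + (Fintype.card G * Fintype.card G + k) :=
    ⟨n - Fintype.card G - Fintype.card G * Fintype.card G, by omega⟩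
  have hk : Fintype.card G ≤ k := by omega
  obtain ⟨lab, hlab⟩ : ∃ lab : G → Fin k, Function.Injective lab :=
    ⟨fun g => Fin.castLE hk (Fintype.equivFin G g), fun a b hab =>
      (Fintype.equivFin G).injective (Fin.castLE_injective hk hab)⟩
  let e : GT G k ≃ Fin (Fintype.card G + (Fintype.card G * Fintype.card G + k)) :=
    Fintype.equivFinOfCardEq (by simp)
  refine ⟨(e.permCongrHom.toMonoidHom).comp gA, fun a b => gR lab (e.symm a) (e.symm b), ?_, ?_⟩
  · intro g h hgh
    exact gA_inj (e.permCongrHom.injective hgh)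
  · intro π
    have h1 := g_aut hlab (e.permCongrHom.symm π)
    have h2 : ∀ t, e.permCongrHom.symm π t = e.symm (π (e t)) := fun t => rfl
    constructor
    · intro h
      obtain ⟨g, hg⟩ := h1.1 (fun t t' => by
        rw [h2, h2]
        have h3 : gR lab (e.symm (π (e t))) (e.symm (π (e t'))) ↔
          gR lab (e.symm (e t)) (e.symm (e t')) := h (e t) (e t')
        rw [e.symm_apply_apply, e.symm_apply_apply] at h3
        exact h3)
      refine ⟨g, ?_⟩
      change e.permCongrHom (gA g) = π
      rw [hg]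
      exact MulEquiv.apply_symm_apply _ _
    · rintro ⟨g, hg⟩
      have h3 : gA g = e.permCongrHom.symm π := by
        rw [← hg]
        exact (MulEquiv.symm_apply_apply _ _).symm
      intro a b
      have h4 := h1.2 ⟨g, h3⟩ (e.symm a) (e.symm b)
      rw [h2, h2, e.apply_symm_apply, e.apply_symm_apply] at h4
      exact h4

end gad

end Run7.h45
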