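import Pool.Agent.Run7.h45.Semi
import Pool.Agent.Run7.h45.Graph

/-!
# The groups `M_n(ℤ/q) ⋊ S_n`
-/

set_option autoImplicit false
set_option linter.unusedSectionVars false

open scoped Classical BigOperators

noncomputable section

namespace Run7.h45

open Pool.Agent.Y63.NV Pool.Agent.N85.WM

/-- The symmetric group `S_n` acts on the additive group of the `n × n` matrices over `ℤ/q` by
simultaneous permutations of the rows and the columns: `(σ v) a b = v (σ⁻¹ a) (σ⁻¹ b)`. -/
def matPerm (q n : ℕ) :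
    Equiv.Perm (Fin n) →* MulAut (Multiplicative (Matrix (Fin n) (Fin n) (ZMod q))) where
  toFun σ :=
    { toFun := fun v => Multiplicative.ofAdd (fun a b => v.toAdd (σ⁻¹ a) (σ⁻¹ b))
      invFun := fun v => Multiplicative.ofAdd (fun a b => v.toAdd (σ a) (σ b))
      left_inv := fun v => by
        apply Multiplicative.toAdd.injective
        funext a b
        exact congrArg₂ v.toAdd (σ.symm_apply_apply a) (σ.symm_apply_apply b)
      right_inv := fun v => by
        apply Multiplicative.toAdd.injective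
        funext a b
        exact congrArg₂ v.toAdd (σ.apply_symm_apply a) (σ.apply_symm_apply b)
      map_mul' := fun v w => rfl }
  map_one' := by
    apply MulEquiv.ext
    intro v
    rfl
  map_mul' σ τ := by
    apply MulEquiv.ext
    intro v
    apply Multiplicative.toAdd.injective
    funext a b
    change v.toAdd ((σ * τ)⁻¹ a) ((σ * τ)⁻¹ b) = v.toAdd (τ⁻¹ (σ⁻¹ a)) (τ⁻¹ (σ⁻¹ b))
    rw [mul_inv_rev]
    rfl

/-- The group `M_n(ℤ/q) ⋊ S_n`. -/
abbrev MatGrp (q n : ℕ) : Type :=
  Multiplicative (Matrix (Fin n) (Fin n) (ZMod q)) ⋊[matPerm q n] Equiv.Perm (Fin n)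

section

variable {q n : ℕ} [NeZero q]

instance fin_mat : Finite (Multiplicative (Matrix (Fin n) (Fin n) (ZMod q))) :=
  inferInstanceAs (Finite (Fin n → Fin n → ZMod q))

theorem card_mat : Nat.card (Multiplicative (Matrix (Fin n) (Fin n) (ZMod q))) = q ^ (n * n) := by
  have h1 : Nat.card (Multiplicative (Matrix (Fin n) (Fin n) (ZMod q))) =
      Nat.card (Fin n → Fin n → ZMod q) := rfl
  rw [h1, Nat.card_eq_fintype_card]
  simp [pow_mul]

/-- the character of the matrices attached to a matrix -/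
def matChar (κ : Fin n → Fin n → ZMod q) :
    Multiplicative (Matrix (Fin n) (Fin n) (ZMod q)) →* ℂ where
  toFun v := ZMod.stdAddChar (∑ a, ∑ b, κ a b * v.toAdd a b)
  map_one' := by
    have h1 : ∑ a, ∑ b, κ a b * (1 : Multiplicative (Matrix (Fin n) (Fin n) (ZMod q))).toAdd a b = 0 := by
      refine Finset.sum_eq_zero fun a _ => Finset.sum_eq_zero fun b _ => ?_
      change κ a b * 0 = 0
      rw [mul_zero]
    rw [h1, AddChar.map_zero_eq_one]
  map_mul' v w := by
    rw [← AddChar.map_add_eq_mul]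
    congr 1
    rw [← Finset.sum_add_distrib]
    refine Finset.sum_congr rfl fun a _ => ?_
    rw [← Finset.sum_add_distrib]
    refine Finset.sum_congr rfl fun b _ => ?_
    change κ a b * (v.toAdd a b + w.toAdd a b) = _
    rw [mul_add]

theorem matChar_stab (κ : Fin n → Fin n → ZMod q) (σ : Equiv.Perm (Fin n)) :
    (∀ v, matChar κ (matPerm q n σ v) = matChar κ v) ↔ ∀ a b, κ (σ a) (σ b) = κ a b := by
  have h1 : ∀ v : Multiplicative (Matrix (Fin n) (Fin n) (ZMod q)),
      ∑ a, ∑ b, κ a b * (matPerm q n σ v).toAdd a b = ∑ a, ∑ b, κ (σ a) (σ b) * v.toAdd a b := by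
    intro v
    refine Fintype.sum_equiv σ⁻¹ _ _ fun a => ?_
    refine Fintype.sum_equiv σ⁻¹ _ _ fun b => ?_
    change κ a b * v.toAdd (σ.symm a) (σ.symm b) =
      κ (σ (σ.symm a)) (σ (σ.symm b)) * v.toAdd (σ.symm a) (σ.symm b)
    rw [σ.apply_symm_apply, σ.apply_symm_apply]
  constructor
  · intro h a b
    have h2 := h (Multiplicative.ofAdd (Matrix.single a b 1))
    have h3 := ZMod.injective_stdAddChar h2
    rw [h1] at h3
    have h4 : ∀ κ' : Fin n → Fin n → ZMod q, ∑ x, ∑ y,
        κ' x y * (Multiplicative.ofAdd (Matrix.single a b (1 : ZMod q))).toAdd x y = κ' a b := by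
      intro κ'
      rw [Finset.sum_eq_single a, Finset.sum_eq_single b]
      · rw [toAdd_ofAdd, Matrix.single_apply_same, mul_one]
      · intro y _ hy
        rw [toAdd_ofAdd, Matrix.single_apply_of_ne _ _ _ _ _ (by
          rintro ⟨-, h5⟩; exact hy h5.symm), mul_zero]
      · intro h5; exact absurd (Finset.mem_univ _) h5
      · intro x _ hx
        refine Finset.sum_eq_zero fun y _ => ?_
        rw [toAdd_ofAdd, Matrix.single_apply_of_ne _ _ _ _ _ (by
          rintro ⟨h5, -⟩; exact hx h5.symm), mul_zero]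
      · intro h5; exact absurd (Finset.mem_univ _) h5
    rw [h4 (fun x y => κ (σ x) (σ y)), h4] at h3
    exact h3
  · intro h v
    change ZMod.stdAddChar _ = ZMod.stdAddChar _
    rw [h1]
    simp_rw [h]

end

/-- **The blocks of the finite groups are realised in the family.** -/
theorem real_mat {p : ℕ} [Fact p.Prime] {F : Type} [Field F] [IsAlgClosed F] [CharP F p]
    (red : integralClosure ℤ ℂ →+* F) {q : ℕ} (hq : 2 ≤ q) (hpq : ¬ p ∣ q) {G : Type} [Group G]
    [Finite G] {n : ℕ} (j : G →* Equiv.Perm (Fin n)) (R : Fin n → Fin n → Prop)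
    (hj : Function.Injective j)
    (hR : ∀ σ : Equiv.Perm (Fin n), (∀ a b, R (σ a) (σ b) ↔ R a b) ↔ ∃ g, j g = σ)
    (B : (G → F) → F) (hB : IsBlock B) :
    ∃ B' : (MatGrp q n → F) → F, IsBlock B' ∧ numIrrBlock B' = numIrrBlock B ∧
      numWts p red B' = numWts p red B := by
  have : NeZero q := ⟨by omega⟩
  have : Fact (1 < q) := ⟨by omega⟩
  let κ : Fin n → Fin n → ZMod q := fun a b => if R a b then 1 else 0
  refine real_semi (matPerm q n) red ?_ j hj (matChar κ) (fun σ => ?_) B hB
  · rw [card_mat]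
    exact fun h => hpq ((Fact.out : p.Prime).dvd_of_dvd_pow h)
  · rw [matChar_stab, ← hR]
    refine forall_congr' fun a => forall_congr' fun b => ?_
    change (if R (σ a) (σ b) then (1 : ZMod q) else 0) = (if R a b then 1 else 0) ↔ _
    by_cases h1 : R (σ a) (σ b) <;> by_cases h2 : R a b <;> simp [h1, h2]

/-- **The congruence for one group of the family gives it for all small groups.** -/
theorem lw_mat {p : ℕ} [Fact p.Prime] {F : Type} [Field F] [IsAlgClosed F] [CharP F p]
    (red : integralClosure ℤ ℂ →+* F) {q : ℕ} (hq : 2 ≤ q) (hpq : ¬ p ∣ q) (G : Type) [Group G]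
    [Finite G] : ∃ n₀ : ℕ, ∀ n, n₀ ≤ n → LWmod p red (MatGrp q n) → LWmod p red G := by
  obtain ⟨n₀, hn₀⟩ := frucht G
  refine ⟨n₀, fun n hn h => ?_⟩
  obtain ⟨j, R, hj, hR⟩ := hn₀ n hn
  have : NeZero q := ⟨by omega⟩
  have : Fact (1 < q) := ⟨by omega⟩
  let κ : Fin n → Fin n → ZMod q := fun a b => if R a b then 1 else 0
  refine lw_semi (matPerm q n) red ?_ j hj (matChar κ) (fun σ => ?_) h
  · rw [card_mat]
    exact fun h => hpq ((Fact.out : p.Prime).dvd_of_dvd_pow h)
  · rw [matChar_stab, ← hR]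
    refine forall_congr' fun a => forall_congr' fun b => ?_
    change (if R (σ a) (σ b) then (1 : ZMod q) else 0) = (if R a b then 1 else 0) ↔ _
    by_cases h1 : R (σ a) (σ b) <;> by_cases h2 : R a b <;> simp [h1, h2]

end Run7.h45
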