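import Pool.Agent.Run7.h45.Pow
import Pool.Agent.Run7.h45.Graph2
import Pool.Agent.Run7.h45.Mat

/-!
# The growth of the quotients of `l(B)` and `w(B)`
-/

set_option autoImplicit false
set_option linter.unusedSectionVars false

open scoped Classical BigOperators
open Filter

noncomputable section

namespace Run7.h45

open Pool.Agent.Y63.NV Pool.Agent.N85.WM

/-- For all blocks `B` of `G`, the numbers `l(B)` and `w(B)` differ at most by the factor `C`. -/
def Within (p : ℕ) {F : Type} [Field F] (red : integralClosure ℤ ℂ →+* F) (G : Type) [Group G]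
    (C : ℝ) : Prop :=
  ∀ B : (G → F) → F, IsBlock B →
    (numIrrBlock B : ℝ) ≤ C * numWts p red B ∧ (numWts p red B : ℝ) ≤ C * numIrrBlock B

theorem within_of_eq {p : ℕ} {F : Type} [Field F] (red : integralClosure ℤ ℂ →+* F) {G : Type}
    [Group G] {C : ℝ} (hC : 1 ≤ C) (h : BAWC p red G) : Within p red G C := by
  intro B hB
  have h1 : numIrrBlock B = numWts p red B := h B hB
  rw [h1]
  have h2 : (0 : ℝ) ≤ numWts p red B := Nat.cast_nonneg _
  constructor <;> nlinarith

/-- an elementary estimate -/
theorem grow_arith {l w c : ℕ} (hc : 0 < c) (hlw : l < w)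
    (h : ∀ ε : ℝ, 0 < ε → ∃ᶠ n : ℕ in atTop, ∀ k : ℕ, c * k ≤ n →
      (w : ℝ) ^ k ≤ Real.exp (ε * n) * (l : ℝ) ^ k) : False := by
  have hw : 0 < w := by omega
  rcases Nat.eq_zero_or_pos l with rfl | hl
  · obtain ⟨n, hn, h1⟩ := ((h 1 one_pos).and_eventually (eventually_ge_atTop c)).exists
    have h2 := hn 1 (by omega)
    simp only [pow_one, Nat.cast_zero, mul_zero] at h2
    have : (0 : ℝ) < w := by exact_mod_cast hw
    linarith
  · have hl' : (0 : ℝ) < l := by exact_mod_cast hl
    have hw' : (0 : ℝ) < w := by exact_mod_cast hw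
    have hc' : (0 : ℝ) < c := by exact_mod_cast hc
    set δ : ℝ := Real.log w - Real.log l with hδ
    have hδ0 : 0 < δ := by
      have : Real.log l < Real.log w := Real.log_lt_log hl' (by exact_mod_cast hlw)
      linarith
    obtain ⟨n, hn, h1⟩ := ((h (δ / (4 * c)) (by positivity)).and_eventually
      (eventually_ge_atTop (2 * c))).exists
    set k : ℕ := n / c with hk
    have hkn : c * k ≤ n := Nat.mul_div_le n c
    have h2 := hn k hkn
    have h3 : k * δ ≤ δ / (4 * c) * n := by
      have h4 := Real.log_le_log (by positivity) h2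
      rw [Real.log_pow, Real.log_mul (Real.exp_pos _).ne' (by positivity), Real.log_exp,
        Real.log_pow] at h4
      rw [hδ]
      linarith
    have h5 : n < c * (k + 1) := Nat.lt_mul_div_succ n hc
    have h6 : (n : ℝ) ≤ 2 * (c * k) := by
      have : n ≤ 2 * (c * k) := by
        have h7 : c * (k + 1) = c * k + c := by ring
        omega
      exact_mod_cast this
    have h7 : (0 : ℝ) < n := by
      have : 0 < n := by omega
      exact_mod_cast this
    have h8 : δ / (4 * c) * n ≤ δ / 2 * k := by
      calc δ / (4 * c) * n ≤ δ / (4 * c) * (2 * (c * k)) :=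
            mul_le_mul_of_nonneg_left h6 (by positivity)
        _ = δ / 2 * k := by field_simp; ring
    have h9 : (0 : ℝ) < k := by
      have : 0 < k := Nat.div_pos (by omega) hc
      exact_mod_cast this
    have h10 : (k : ℝ) * δ ≤ δ / 2 * k := h3.trans h8
    nlinarith [mul_pos h9 hδ0]

/-- **All or nothing.** The numbers `l(B)` and `w(B)` agree for all blocks of all finite groups, if
for every `ε > 0` there are infinitely many `n` such that they differ at most by the factor
`exp (ε n)` for the blocks of `M_n(ℤ/q) ⋊ S_n`. -/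
theorem bawc_iff_within {p : ℕ} [Fact p.Prime] {F : Type} [Field F] [IsAlgClosed F] [CharP F p]
    (red : integralClosure ℤ ℂ →+* F) {q : ℕ} (hq : 2 ≤ q) (hpq : ¬ p ∣ q) :
    (∀ (G : Type) [Group G] [Finite G], BAWC p red G) ↔
      ∀ ε : ℝ, 0 < ε → ∃ᶠ n : ℕ in atTop, Within p red (MatGrp q n) (Real.exp (ε * n)) := by
  have : NeZero q := ⟨by omega⟩
  constructor
  · intro h ε hε
    refine Frequently.of_forall fun n => within_of_eq red ?_ (h (MatGrp q n))
    exact Real.one_le_exp (by positivity)
  · intro h G _ _ B hB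
    change numIrrBlock B = numWts p red B
    obtain ⟨c, hc, hG⟩ := frucht_pow G
    have key : ∀ ε : ℝ, 0 < ε → ∃ᶠ n : ℕ in atTop, ∀ k : ℕ, c * k ≤ n →
        (numIrrBlock B : ℝ) ^ k ≤ Real.exp (ε * n) * (numWts p red B : ℝ) ^ k ∧
        (numWts p red B : ℝ) ^ k ≤ Real.exp (ε * n) * (numIrrBlock B : ℝ) ^ k := by
      intro ε hε
      refine (h ε hε).mono fun n hn k hk => ?_
      obtain ⟨j, R, hj, hR⟩ := hG k n hk
      have h1 : ∀ B : ((Fin k → G) → F) → F, IsBlock B →
          (numIrrBlock B : ℝ) ≤ Real.exp (ε * n) * numWts p red B ∧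
          (numWts p red B : ℝ) ≤ Real.exp (ε * n) * numIrrBlock B := by
        intro B₁ hB₁
        obtain ⟨B', hB', e1, e2⟩ := real_mat red hq hpq j R hj hR B₁ hB₁
        rw [← e1, ← e2]
        exact hn B' hB'
      have h2 := pow_le red (ι := Fin k) (Real.exp (ε * n)) (fun B₁ hB₁ => (h1 B₁ hB₁).1)
        (fun B₁ hB₁ => (h1 B₁ hB₁).2) hB
      rwa [Fintype.card_fin] at h2
    rcases lt_trichotomy (numIrrBlock B) (numWts p red B) with hlt | heq | hgt
    · exact (grow_arith hc hlt fun ε hε => (key ε hε).mono fun n hn k hk => (hn k hk).2).elim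
    · exact heq
    · exact (grow_arith hc hgt fun ε hε => (key ε hε).mono fun n hn k hk => (hn k hk).1).elim

end Run7.h45
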