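import Pool.Agent.N19.RB.Par

/-!
# Brauer correspondents in direct powers
-/

set_option autoImplicit false
set_option linter.unusedSectionVars false

open scoped Classical BigOperators

noncomputable section

namespace Run7.h45

open Pool.Agent.H254R3.IN Pool.Agent.Q259.BW Pool.Agent.N19.RB Pool.Agent.Q288.MB

section norm

variable {ι G : Type} [Group G]

theorem mem_piS' {D : Subgroup G} {x : ι → G} : (x ∈ piS fun _ : ι => D) ↔ ∀ i, x i ∈ D := by
  unfold piS
  rw [Subgroup.mem_pi]
  exact ⟨fun h i => h i (Set.mem_univ i), fun h i _ => h i⟩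

theorem mem_normPi {D : Subgroup G} {x : ι → G} :
    x ∈ Subgroup.normalizer (piS fun _ : ι => D : Set (ι → G)) ↔
      ∀ i, x i ∈ Subgroup.normalizer (D : Set G) := by
  rw [Subgroup.mem_normalizer_iff]
  constructor
  · intro h i
    rw [Subgroup.mem_normalizer_iff]
    intro d
    have h1 := h (Function.update 1 i d)
    rw [mem_piS', mem_piS'] at h1
    constructor
    · intro hd
      have h2 := h1.mp (fun k => by
        by_cases hk : k = i
        · subst hk
          rw [Function.update_self]
          exact hd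
        · rw [Function.update_of_ne hk]
          exact D.one_mem) i
      simp only [Pi.mul_apply, Pi.inv_apply, Function.update_self] at h2
      exact h2
    · intro hd
      have h2 := h1.mpr (fun k => by
        simp only [Pi.mul_apply, Pi.inv_apply]
        by_cases hk : k = i
        · subst hk
          rw [Function.update_self]
          exact hd
        · rw [Function.update_of_ne hk]
          simp) i
      simp only [Function.update_self] at h2
      exact h2
  · intro h y
    rw [mem_piS', mem_piS']
    constructor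
    · intro h1 i
      exact (Subgroup.mem_normalizer_iff.mp (h i) _).mp (h1 i)
    · intro h1 i
      exact (Subgroup.mem_normalizer_iff.mp (h i) _).mpr (h1 i)

/-- the normalizer of a direct power -/
def normPi (ι : Type) {G : Type} [Group G] (D : Subgroup G) :
    Subgroup.normalizer (piS fun _ : ι => D : Set (ι → G)) ≃*
      (ι → Subgroup.normalizer (D : Set G)) where
  toFun x := fun i => ⟨x.1 i, mem_normPi.mp x.2 i⟩
  invFun y := ⟨fun i => (y i : G), mem_normPi.mpr fun i => (y i).2⟩
  left_inv _ := rfl
  right_inv _ := rfl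
  map_mul' _ _ := rfl

end norm

section pow

variable {ι G : Type} [Group G] [Fintype ι] [Fintype G] {O : ValuationSubring ℂ} {p : ℕ}
  [hp : Fact p.Prime]

/-- the data for the direct power -/
def powDat (ι : Type) [Fintype ι] {G : Type} [Group G] (D : Subgroup G) (B : Set (G → ℂ))
    (b : Set (Subgroup.normalizer (D : Set G) → ℂ)) : Dat where
  G := ι → G
  D := piS fun _ : ι => D
  B := Tens fun _ : ι => B
  b := pull (normPi ι D) (Tens fun _ : ι => b)

theorem powDat_comap (D : Subgroup G) :
    (piS fun _ : ι => D.subgroupOf (Subgroup.normalizer (D : Set G))).comap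
      (normPi ι D).toMonoidHom =
      (piS fun _ : ι => D).subgroupOf (Subgroup.normalizer
        (piS fun _ : ι => D : Set (ι → G))) := by
  ext x
  rw [Subgroup.mem_comap, Subgroup.mem_subgroupOf, mem_piS, mem_piS]
  rfl

theorem pi_brauer {D : Subgroup G} {B : Set (G → ℂ)}
    {b : Set (Subgroup.normalizer (D : Set G) → ℂ)} (hB : IsBlock O B)
    (hb : IsBrauerCorrespondent p O D B b) :
    IsBrauerCorrespondent p O (piS fun _ : ι => D) (Tens fun _ : ι => B)
      (pull (normPi ι D) (Tens fun _ : ι => b)) := by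
  obtain ⟨b1, b2, b3⟩ := hb
  refine ⟨pull_block _ (Tens_block fun _ => b1), ?_, ?_⟩
  · have h1 := pull_defect (normPi ι D) (Tens_irr fun _ => b1.irr)
      (Tens_defect (K := fun _ : ι => Subgroup.normalizer (D : Set G)) (fun _ => b1) fun _ => b2)
    rw [powDat_comap] at h1
    exact h1
  · rintro χ ⟨ψ, hψ, rfl⟩ θ ⟨τ, hτ, hθ⟩ x
    have hLO : ∀ i, L (Subgroup.normalizer (D : Set G)).subtype (τ i) (x i) ∈ O ∧
        red O (omega (ψ i) (x i)) =
          red O (L (Subgroup.normalizer (D : Set G)).subtype (τ i) (x i)) := by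
      intro i
      have h1 := b3 (ψ i) (hψ i) (τ i) (hτ i) (x i)
      rw [sum_eq_L] at h1
      exact red_congr ((hB.irr _ (hψ i)).omega_mem O _) h1
    have e1 : L (pm fun _ : ι => ((Subgroup.normalizer (D : Set G)).subtype : _ → G))
        (tens τ) x = ∏ i, L (Subgroup.normalizer (D : Set G)).subtype (τ i) (x i) :=
      L_tens (fun _ : ι => ((Subgroup.normalizer (D : Set G)).subtype : _ → G)) τ x
    have e2 : L (pm fun _ : ι => ((Subgroup.normalizer (D : Set G)).subtype : _ → G))
        (tens τ) x = L (Subgroup.normalizer (piS fun _ : ι => D : Set (ι → G))).subtype θ x := by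
      rw [← hθ]
      unfold L
      simp only [map_one]
      congr 1
      exact Fintype.sum_equiv (normPi ι D).symm.toEquiv _ _ fun w => rfl
    rw [sum_eq_L, ← e2, e1, ← red_eq_iff ((tens_irr fun i => hB.irr _ (hψ i)).omega_mem O x)
      (prod_mem fun i _ => (hLO i).1), omega_tens fun i => hB.irr _ (hψ i),
      red_prod _ fun i => (hB.irr _ (hψ i)).omega_mem O _, red_prod _ fun i => (hLO i).1]
    exact Finset.prod_congr rfl fun i _ => (hLO i).2

theorem powDat_brauer {D : Subgroup G} {B : Set (G → ℂ)}
    {b : Set (Subgroup.normalizer (D : Set G) → ℂ)} (h : Dat.IsBrauer p O ⟨G, D, B, b⟩) :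
    (powDat ι D B b).IsBrauer p O := by
  have hB : IsBlock O B := h.block
  have hD : IsDefectGroup p O B D := h.defect
  exact ⟨inferInstanceAs (Finite (ι → G)), Tens_block fun _ => hB, Tens_defect (fun _ => hB)
    fun _ => hD, pi_brauer hB h.brauer⟩

theorem powDat_ht0 (hpO : (p : ℂ) ∈ O.nonunits) {D : Subgroup G} {B : Set (G → ℂ)}
    {b : Set (Subgroup.normalizer (D : Set G) → ℂ)} (h : Dat.IsBrauer p O ⟨G, D, B, b⟩) :
    Nat.card ((powDat ι D B b).ht0 p) = Nat.card (Irr0 p D B) ^ Fintype.card ι := by
  have hB : IsBlock O B := h.block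
  have h1 : Irr0 p (piS fun _ : ι => D) (Tens fun _ : ι => B) = Tens fun _ : ι => Irr0 p D B :=
    irr0_Tens hpO (fun _ => hB) fun _ => h.defect
  change Nat.card (Irr0 p (piS fun _ : ι => D) (Tens fun _ : ι => B)) = _
  rw [h1, card_Tens fun _ => fun θ hθ => hB.irr θ hθ.1, Finset.prod_const, Finset.card_univ]

theorem powDat_ht0' (hpO : (p : ℂ) ∈ O.nonunits) {D : Subgroup G} {B : Set (G → ℂ)}
    {b : Set (Subgroup.normalizer (D : Set G) → ℂ)} (h : Dat.IsBrauer p O ⟨G, D, B, b⟩) :
    Nat.card ((powDat ι D B b).ht0' p) =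
      Nat.card (Irr0 p (D.subgroupOf (Subgroup.normalizer (D : Set G))) b) ^ Fintype.card ι := by
  have hb : IsBlock O b := h.brauer.1
  have h1 : Irr0 p ((piS fun _ : ι => D).subgroupOf (Subgroup.normalizer
        (piS fun _ : ι => D : Set (ι → G)))) (pull (normPi ι D) (Tens fun _ : ι => b)) =
      pull (normPi ι D)
      (Tens fun _ : ι => Irr0 p (D.subgroupOf (Subgroup.normalizer (D : Set G))) b) := by
    rw [← irr0_Tens (K := fun _ : ι => Subgroup.normalizer (D : Set G)) hpO (fun _ => hb)
      fun _ => h.brauer.2.1, ← irr0_pull, powDat_comap]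
  change Nat.card (Irr0 p ((piS fun _ : ι => D).subgroupOf (Subgroup.normalizer
        (piS fun _ : ι => D : Set (ι → G)))) (pull (normPi ι D) (Tens fun _ : ι => b))) = _
  rw [h1, card_pull, card_Tens fun _ => fun θ hθ => hb.irr θ hθ.1, Finset.prod_const,
    Finset.card_univ]

/-- the defect group of the direct power -/
def piSMul (n : ℕ) {G : Type} [Group G] (D : Subgroup G) :
    (piS fun _ : Fin n => D) ≃* (Fin n → D) where
  toFun x := fun i => ⟨x.1 i, mem_piS'.mp x.2 i⟩
  invFun y := ⟨fun i => (y i : G), mem_piS'.mpr fun i => (y i).2⟩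
  left_inv _ := rfl
  right_inv _ := rfl
  map_mul' _ _ := rfl

end pow

end Run7.h45
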