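import Pool.Agent.Run7.h45.UpB
import Pool.Agent.Run7.h45.PiB
import Pool.Agent.Run7.h45.Grow
import Pool.Agent.Run7.h45.Perf

/-!
# Universal families for the Alperin–McKay conjecture
-/

set_option autoImplicit false
set_option linter.unusedSectionVars false

open scoped Classical BigOperators
open Filter

noncomputable section

namespace Run7.h45

open Pool.Agent.H254R3.IN (IsIrr IsBlock IsDefectGroup IsBrauerCorrespondent)
open Pool.Agent.Q259.BW (Irr0 Dat)
open Pool.Agent.N19.RB (PowClosed piS)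

/-- For all `p`-blocks `B` of `G` with a defect group `D` in the class `C` and Brauer correspondent
`b` in `N_G(D)`, the numbers `|Irr₀(B)|` and `|Irr₀(b)|` differ at most by the factor `K`. -/
def AMWithin (p : ℕ) (O : ValuationSubring ℂ) (C : (D : Type) → Group D → Prop) (G : Type)
    [Group G] (K : ℝ) : Prop :=
  ∀ (D : Subgroup G) (B : Set (G → ℂ)) (b : Set (Subgroup.normalizer (D : Set G) → ℂ)),
    IsBlock O B → IsDefectGroup p O B D → IsBrauerCorrespondent p O D B b → C D inferInstance →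
    (Nat.card (Irr0 p D B) : ℝ) ≤
        K * Nat.card (Irr0 p (D.subgroupOf (Subgroup.normalizer (D : Set G))) b) ∧
      (Nat.card (Irr0 p (D.subgroupOf (Subgroup.normalizer (D : Set G))) b) : ℝ) ≤
        K * Nat.card (Irr0 p D B)

section transfer

variable {O : ValuationSubring ℂ} {p : ℕ} [hp : Fact p.Prime]

/-- the blocks of a stabilizer and their Brauer correspondents are realised in the semidirect
product -/
theorem dat_semi (hpO : (p : ℂ) ∈ O.nonunits) {V L G : Type} [CommGroup V] [Group L] [Group G]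
    (φ : L →* MulAut V) [Finite V] [Finite L] [Finite G] (hV : ¬ p ∣ Nat.card V)
    (j : G →* L) (hj : Function.Injective j) (θ : V →* ℂ)
    (hst : ∀ l : L, (∀ v, θ (φ l v) = θ v) ↔ ∃ g, j g = l) {D : Subgroup G} {B : Set (G → ℂ)}
    {b : Set (Subgroup.normalizer (D : Set G) → ℂ)} (h : Dat.IsBrauer p O ⟨G, D, B, b⟩) :
    ∃ (D' : Subgroup (V ⋊[φ] L)) (B' : Set (V ⋊[φ] L → ℂ))
      (b' : Set (Subgroup.normalizer (D' : Set (V ⋊[φ] L)) → ℂ)),
      Dat.IsBrauer p O ⟨V ⋊[φ] L, D', B', b'⟩ ∧ Nonempty (D ≃* D') ∧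
      Nat.card (Irr0 p D' B') = Nat.card (Irr0 p D B) ∧
      Nat.card (Irr0 p (D'.subgroupOf (Subgroup.normalizer (D' : Set (V ⋊[φ] L)))) b') =
        Nat.card (Irr0 p (D.subgroupOf (Subgroup.normalizer (D : Set G))) b) := by
  have f1 : Fintype V := Fintype.ofFinite V
  have f2 : Fintype (V ⋊[φ] L) := Fintype.ofFinite _
  have f3 : Fintype G := Fintype.ofFinite G
  have hS := semi_stab φ j hj θ hst
  exact ⟨_, _, _, upDat_brauer hpO hV hS h,
    ⟨D.equivMapOfInjective _ fun a b h => CD.j_inj h⟩, upDat_ht0 hV hS h, upDat_ht0' hV hS h⟩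

theorem dat_mat (hpO : (p : ℂ) ∈ O.nonunits) {q : ℕ} (hq : 2 ≤ q) (hpq : ¬ p ∣ q) {G : Type}
    [Group G] [Finite G] {n : ℕ} (j : G →* Equiv.Perm (Fin n)) (R : Fin n → Fin n → Prop)
    (hj : Function.Injective j)
    (hR : ∀ σ : Equiv.Perm (Fin n), (∀ a b, R (σ a) (σ b) ↔ R a b) ↔ ∃ g, j g = σ)
    {D : Subgroup G} {B : Set (G → ℂ)}
    {b : Set (Subgroup.normalizer (D : Set G) → ℂ)} (h : Dat.IsBrauer p O ⟨G, D, B, b⟩) :
    ∃ (D' : Subgroup (MatGrp q n)) (B' : Set (MatGrp q n → ℂ))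
      (b' : Set (Subgroup.normalizer (D' : Set (MatGrp q n)) → ℂ)),
      Dat.IsBrauer p O ⟨MatGrp q n, D', B', b'⟩ ∧ Nonempty (D ≃* D') ∧
      Nat.card (Irr0 p D' B') = Nat.card (Irr0 p D B) ∧
      Nat.card (Irr0 p (D'.subgroupOf (Subgroup.normalizer (D' : Set (MatGrp q n)))) b') =
        Nat.card (Irr0 p (D.subgroupOf (Subgroup.normalizer (D : Set G))) b) := by
  have : NeZero q := ⟨by omega⟩
  have : Fact (1 < q) := ⟨by omega⟩
  let κ : Fin n → Fin n → ZMod q := fun a b => if R a b then 1 else 0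
  refine dat_semi hpO (matPerm q n) ?_ j hj (matChar κ) (fun σ => ?_) h
  · rw [card_mat]
    exact fun h => hpq ((Fact.out : p.Prime).dvd_of_dvd_pow h)
  · rw [matChar_stab, ← hR]
    refine forall_congr' fun a => forall_congr' fun b => ?_
    change (if R (σ a) (σ b) then (1 : ZMod q) else 0) = (if R a b then 1 else 0) ↔ _
    by_cases h1 : R (σ a) (σ b) <;> by_cases h2 : R a b <;> simp [h1, h2]

theorem zs_stab {q : ℕ} (hq : 2 ≤ q) {G L : Type} [Group G]
    [Finite G] [Group L] [Finite L] (j : G →* L) (h3 : 3 ≤ Nat.card (L ⧸ j.range)) [NeZero q]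
    (l : L) : (∀ v, evChar (q := q) (((1 : L) : L ⧸ j.range)) (zsAct q L (L ⧸ j.range) l v) =
        evChar (q := q) (((1 : L) : L ⧸ j.range)) v) ↔ ∃ g, j g = l := by
  have : Fact (1 < q) := ⟨by omega⟩
  have h1 : (∀ v, evChar (q := q) (((1 : L) : L ⧸ j.range)) (zsAct q L (L ⧸ j.range) l v) =
        evChar (q := q) (((1 : L) : L ⧸ j.range)) v) ↔
        l⁻¹ • (((1 : L) : L ⧸ j.range)) = (((1 : L) : L ⧸ j.range)) := by
    constructor
    · intro h2
      exact evChar_inj (q := q) h3 _ _ fun f => by rw [← evChar_act]; exact h2 f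
    · intro h2 v
      rw [evChar_act, h2]
  rw [h1]
  have h2 : l⁻¹ • (((1 : L) : L ⧸ j.range)) = ((l⁻¹ : L) : L ⧸ j.range) := by
    change ((l⁻¹ * 1 : L) : L ⧸ j.range) = _
    rw [mul_one]
  rw [h2, QuotientGroup.eq, inv_inv, mul_one]
  rfl

theorem dat_zs (hpO : (p : ℂ) ∈ O.nonunits) {q : ℕ} (hq : 2 ≤ q) (hpq : ¬ p ∣ q) {G L : Type}
    [Group G] [Finite G] [Group L] [Finite L] (j : G →* L) (hj : Function.Injective j)
    (h3 : 3 ≤ Nat.card (L ⧸ j.range)) {D : Subgroup G} {B : Set (G → ℂ)}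
    {b : Set (Subgroup.normalizer (D : Set G) → ℂ)} (h : Dat.IsBrauer p O ⟨G, D, B, b⟩) :
    ∃ (D' : Subgroup (ZSGrp q L j.range)) (B' : Set (ZSGrp q L j.range → ℂ))
      (b' : Set (Subgroup.normalizer (D' : Set (ZSGrp q L j.range)) → ℂ)),
      Dat.IsBrauer p O ⟨ZSGrp q L j.range, D', B', b'⟩ ∧ Nonempty (D ≃* D') ∧
      Nat.card (Irr0 p D' B') = Nat.card (Irr0 p D B) ∧
      Nat.card (Irr0 p (D'.subgroupOf (Subgroup.normalizer
        (D' : Set (ZSGrp q L j.range)))) b') =
        Nat.card (Irr0 p (D.subgroupOf (Subgroup.normalizer (D : Set G))) b) := by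
  have : NeZero q := ⟨by omega⟩
  refine dat_semi hpO (zsAct q L (L ⧸ j.range)) ?_ j hj
    (evChar (q := q) (((1 : L) : L ⧸ j.range))) (zs_stab hq j h3) h
  intro hd
  exact hpq ((Fact.out : p.Prime).dvd_of_dvd_pow (hd.trans (card_zs (q := q) (X := L ⧸ j.range))))

end transfer

section alt

/-- large powers of a finite group embed into small alternating groups -/
theorem emb_alt_pow (G : Type) [Group G] [Finite G] : ∃ c : ℕ, 0 < c ∧ ∀ k n, c * (k + 1) ≤ n →
    ∃ j : (Fin k → G) →* alternatingGroup (Fin n), Function.Injective j ∧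
      3 ≤ Nat.card (alternatingGroup (Fin n) ⧸ j.range) := by
  have : Finite (Multiplicative (ZMod 3)) := inferInstanceAs (Finite (ZMod 3))
  have f1 : Fintype (G × Multiplicative (ZMod 3)) := Fintype.ofFinite _
  refine ⟨Fintype.card (G × Multiplicative (ZMod 3)) + Fintype.card (G × Multiplicative (ZMod 3)),
    by have := Fintype.card_pos (α := G × Multiplicative (ZMod 3)); omega, fun k n hn => ?_⟩
  -- the embedding of `H ^ (k + 1)`
  have key : ∃ j : (Fin (k + 1) → G × Multiplicative (ZMod 3)) →* alternatingGroup (Fin n),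
      Function.Injective j := by
    obtain ⟨m, rfl⟩ := Nat.exists_eq_add_of_le hn
    let H := G × Multiplicative (ZMod 3)
    let W := ((Fin (k + 1) × H) ⊕ (Fin (k + 1) × H)) ⊕ Fin m
    let t : (Fin (k + 1) → H) →* Equiv.Perm (Fin (k + 1) × H) :=
      { toFun := fun g =>
          { toFun := fun x => (x.1, g x.1 * x.2)
            invFun := fun x => (x.1, (g x.1)⁻¹ * x.2)
            left_inv := fun x => Prod.ext rfl (inv_mul_cancel_left _ _)
            right_inv := fun x => Prod.ext rfl (mul_inv_cancel_left _ _) }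
        map_one' := by
          apply Equiv.ext
          rintro ⟨i, a⟩
          simp
        map_mul' := fun g h => by
          apply Equiv.ext
          rintro ⟨i, a⟩
          simp [mul_assoc] }
    have ht : Function.Injective t := by
      intro a b hab
      funext i
      have h1 := congrArg (fun σ : Equiv.Perm (Fin (k + 1) × H) => (σ (i, 1)).2) hab
      change a i * 1 = b i * 1 at h1
      rwa [mul_one, mul_one] at h1
    let j₀ : (Fin (k + 1) → H) →* Equiv.Perm W :=
      { toFun := fun g => Equiv.sumCongr (Equiv.sumCongr (t g) (t g)) (Equiv.refl (Fin m))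
        map_one' := by
          rw [map_one]
          apply Equiv.ext
          rintro ((a | a) | e) <;> rfl
        map_mul' := fun g h => by
          rw [map_mul]
          apply Equiv.ext
          rintro ((a | a) | e) <;> rfl }
    have hj₀ : Function.Injective j₀ := by
      intro a b hab
      apply ht
      apply Equiv.ext
      intro x
      have h1 := congrArg (fun σ : Equiv.Perm W => σ (Sum.inl (Sum.inl x))) hab
      change (Sum.inl (Sum.inl (t a x)) : W) = Sum.inl (Sum.inl (t b x)) at h1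
      exact Sum.inl_injective (Sum.inl_injective h1)
    have hs : ∀ g, Equiv.Perm.sign (j₀ g) = 1 := by
      intro g
      have e1 := Equiv.Perm.sign_sumCongr (t g) (t g)
      have e2 := Equiv.Perm.sign_sumCongr (Equiv.Perm.sumCongr (t g) (t g))
        (1 : Equiv.Perm (Fin m))
      rw [e1, Equiv.Perm.sign_one, mul_one, Int.units_mul_self] at e2
      have e3 : ∀ (i1 i2 : DecidableEq W) (τ : Equiv.Perm W), @Equiv.Perm.sign W i1 _ τ =
          @Equiv.Perm.sign W i2 _ τ := by
        intro i1 i2 τ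
        rw [Subsingleton.elim i1 i2]
      exact (e3 _ _ _).trans e2
    let e : W ≃ Fin ((Fintype.card H + Fintype.card H) * (k + 1) + m) :=
      Fintype.equivFinOfCardEq (by
        simp only [W, Fintype.card_sum, Fintype.card_prod, Fintype.card_fin]
        ring)
    let j₁ : (Fin (k + 1) → H) →*
        Equiv.Perm (Fin ((Fintype.card H + Fintype.card H) * (k + 1) + m)) :=
      (e.permCongrHom).toMonoidHom.comp j₀
    have hj₁ : Function.Injective j₁ := e.permCongrHom.injective.comp hj₀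
    refine ⟨j₁.codRestrict (alternatingGroup _) (fun g => ?_),
      fun a b hab => hj₁ (congrArg Subtype.val hab)⟩
    rw [Equiv.Perm.mem_alternatingGroup]
    change Equiv.Perm.sign (e.permCongr (j₀ g)) = 1
    rw [Equiv.Perm.sign_permCongr, hs]
  obtain ⟨j, hj⟩ := key
  let i : (Fin k → G) × Multiplicative (ZMod 3) →* (Fin (k + 1) → G × Multiplicative (ZMod 3)) :=
    { toFun := fun x => Fin.cons (1, x.2) fun a => (x.1 a, 1)
      map_one' := by
        funext a
        refine Fin.cases ?_ (fun a => ?_) a <;> rfl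
      map_mul' := fun x y => by
        funext a
        refine Fin.cases ?_ (fun a => ?_) a
        · change ((1 : G), x.2 * y.2) = (1 * 1, x.2 * y.2)
          rw [one_mul]
        · change (x.1 a * y.1 a, (1 : Multiplicative (ZMod 3))) = (x.1 a * y.1 a, 1 * 1)
          rw [one_mul] }
  have hi : Function.Injective i := by
    rintro ⟨a, s⟩ ⟨b, t⟩ h
    have h0 : ((1 : G), s) = (1, t) := congrFun h 0
    have h1 : ∀ x, (a x, (1 : Multiplicative (ZMod 3))) = (b x, 1) := fun x => congrFun h x.succ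
    ext1
    · funext x
      exact (Prod.ext_iff.mp (h1 x)).1
    · exact (Prod.ext_iff.mp h0).2
  exact emb_three (j.comp i) (hj.comp hi)

end alt

section main

variable {O : ValuationSubring ℂ} {p : ℕ} [hp : Fact p.Prime]


/-- the basic argument -/
theorem am_core (hpO : (p : ℂ) ∈ O.nonunits) {C : (D : Type) → Group D → Prop}
    (hC : PowClosed C) {X : Dat} (hX : X.IsBrauer p O) (hCX : C X.D inferInstance) {c : ℕ}
    (hc : 0 < c) (h : ∀ ε : ℝ, 0 < ε → ∃ᶠ n : ℕ in atTop, ∀ k : ℕ, c * k ≤ n →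
      AMWithin p O C (Fin k → X.G) (Real.exp (ε * n))) :
    Nat.card (X.ht0 p) = Nat.card (X.ht0' p) := by
  obtain ⟨G, D, B, b⟩ := X
  have hfin : Finite G := hX.fin
  have f1 : Fintype G := Fintype.ofFinite G
  change Nat.card (Irr0 p D B) = Nat.card (Irr0 p (D.subgroupOf (Subgroup.normalizer (D : Set G))) b)
  have key : ∀ ε : ℝ, 0 < ε → ∃ᶠ n : ℕ in atTop, ∀ k : ℕ, c * k ≤ n →
      (Nat.card (Irr0 p D B) : ℝ) ^ k ≤ Real.exp (ε * n) *
        (Nat.card (Irr0 p (D.subgroupOf (Subgroup.normalizer (D : Set G))) b) : ℝ) ^ k ∧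
      (Nat.card (Irr0 p (D.subgroupOf (Subgroup.normalizer (D : Set G))) b) : ℝ) ^ k ≤
        Real.exp (ε * n) * (Nat.card (Irr0 p D B) : ℝ) ^ k := by
    intro ε hε
    refine (h ε hε).mono fun n hn k hk => ?_
    have hY := powDat_brauer (ι := Fin k) hX
    have h1 := hn k hk _ _ _ hY.block hY.defect hY.brauer
      (hC.1 _ _ ⟨(piSMul k D).symm⟩ (hC.2 _ k hCX))
    have e1 := powDat_ht0 (ι := Fin k) hpO hX
    have e2 := powDat_ht0' (ι := Fin k) hpO hX
    rw [Fintype.card_fin] at e1 e2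
    have e3 : (Nat.card ((powDat (Fin k) D B b).ht0 p) : ℝ) ≤
          Real.exp (ε * n) * Nat.card ((powDat (Fin k) D B b).ht0' p) ∧
        (Nat.card ((powDat (Fin k) D B b).ht0' p) : ℝ) ≤
          Real.exp (ε * n) * Nat.card ((powDat (Fin k) D B b).ht0 p) := h1
    rw [e1, e2] at e3
    push_cast at e3
    exact e3
  rcases lt_trichotomy (Nat.card (Irr0 p D B))
    (Nat.card (Irr0 p (D.subgroupOf (Subgroup.normalizer (D : Set G))) b)) with hlt | heq | hgt
  · exact (grow_arith hc hlt fun ε hε => (key ε hε).mono fun n hn k hk => (hn k hk).2).elim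
  · exact heq
  · exact (grow_arith hc hgt fun ε hε => (key ε hε).mono fun n hn k hk => (hn k hk).1).elim

theorem amw_of_eq {C : (D : Type) → Group D → Prop}
    (h : ∀ X : Dat, X.IsBrauer p O → C X.D inferInstance →
      Nat.card (X.ht0 p) = Nat.card (X.ht0' p)) (G : Type) [Group G] [Finite G] {K : ℝ}
    (hK : 1 ≤ K) : AMWithin p O C G K := by
  intro D B b h1 h2 h3 h4
  have h5 : Nat.card (Irr0 p D B) =
      Nat.card (Irr0 p (D.subgroupOf (Subgroup.normalizer (D : Set G))) b) :=
    h ⟨G, D, B, b⟩ ⟨‹_›, h1, h2, h3⟩ h4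
  rw [h5]
  have h6 : (0 : ℝ) ≤ Nat.card (Irr0 p (D.subgroupOf (Subgroup.normalizer (D : Set G))) b) :=
    Nat.cast_nonneg _
  constructor <;> nlinarith

/-- **All or nothing for the Alperin–McKay conjecture.** -/
theorem am_iff_mat (hpO : (p : ℂ) ∈ O.nonunits) {q : ℕ} (hq : 2 ≤ q) (hpq : ¬ p ∣ q)
    {C : (D : Type) → Group D → Prop} (hC : PowClosed C) :
    (∀ X : Dat, X.IsBrauer p O → C X.D inferInstance →
      Nat.card (X.ht0 p) = Nat.card (X.ht0' p)) ↔
      ∀ ε : ℝ, 0 < ε → ∃ᶠ n : ℕ in atTop, AMWithin p O C (MatGrp q n) (Real.exp (ε * n)) := by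
  have : NeZero q := ⟨by omega⟩
  constructor
  · intro h ε hε
    exact Frequently.of_forall fun n => amw_of_eq h _ (Real.one_le_exp (by positivity))
  · intro h X hX hCX
    have hfin := hX.fin
    obtain ⟨c, hc, hG⟩ := frucht_pow X.G
    refine am_core hpO hC hX hCX hc fun ε hε => (h ε hε).mono fun n hn k hk => ?_
    obtain ⟨j, R, hj, hR⟩ := hG k n hk
    intro D B b h1 h2 h3 h4
    obtain ⟨D', B', b', h5, ⟨e⟩, h6, h7⟩ := dat_mat hpO hq hpq j R hj hR
      (D := D) (B := B) (b := b) ⟨inferInstanceAs (Finite (Fin k → X.G)), h1, h2, h3⟩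
    rw [← h6, ← h7]
    exact hn D' B' b' h5.block h5.defect h5.brauer (hC.1 _ _ ⟨e⟩ h4)

/-- **The Alperin–McKay conjecture and extensions of modules by alternating groups.** -/
theorem am_iff_alt (hpO : (p : ℂ) ∈ O.nonunits) {q : ℕ} (hq : 2 ≤ q) (hpq : ¬ p ∣ q)
    {C : (D : Type) → Group D → Prop} (hC : PowClosed C) :
    (∀ X : Dat, X.IsBrauer p O → C X.D inferInstance →
      Nat.card (X.ht0 p) = Nat.card (X.ht0' p)) ↔
      ∀ ε : ℝ, 0 < ε → ∃ᶠ n : ℕ in atTop, ∀ H : Subgroup (alternatingGroup (Fin n)),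
        AMWithin p O C (ZSGrp q (alternatingGroup (Fin n)) H) (Real.exp (ε * n)) := by
  have : NeZero q := ⟨by omega⟩
  constructor
  · intro h ε hε
    exact Frequently.of_forall fun n H => amw_of_eq h _ (Real.one_le_exp (by positivity))
  · intro h X hX hCX
    have hfin := hX.fin
    obtain ⟨c, hc, hG⟩ := emb_alt_pow X.G
    refine am_core hpO hC hX hCX (c := 2 * c) (by omega) fun ε hε =>
      ((h ε hε).and_eventually (eventually_ge_atTop (2 * c))).mono fun n hn k hk => ?_
    obtain ⟨hn, hn2⟩ := hn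
    obtain ⟨j, hj, h3'⟩ := hG k n (by nlinarith)
    intro D B b h1 h2 h3 h4
    obtain ⟨D', B', b', h5, ⟨e⟩, h6, h7⟩ := dat_zs hpO hq hpq j hj h3'
      (D := D) (B := B) (b := b) ⟨inferInstanceAs (Finite (Fin k → X.G)), h1, h2, h3⟩
    rw [← h6, ← h7]
    exact hn _ D' B' b' h5.block h5.defect h5.brauer (hC.1 _ _ ⟨e⟩ h4)

end main

end Run7.h45
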