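import Pool.Agent.Run7.h45.UpG
import Pool.Agent.N19.RB.Amn

/-!
# Universal families for the Alperin–McKay–Navarro conjecture
-/

set_option autoImplicit false
set_option linter.unusedSectionVars false

open scoped Classical BigOperators
open Filter

noncomputable section

namespace Run7.h45

open Pool.Agent.H254R3.IN (IsIrr IsBlock IsDefectGroup IsBrauerCorrespondent)
open Pool.Agent.Q259.BW (Irr0 Dat pull fx_pull card_pull irr0_pull num_of_bij)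
open Pool.Agent.Q259
open Pool.Agent.Q90.WR (FixedBy)
open Pool.Agent.N19.RB
open Pool.Agent.Q288.MB (gal gal_irr mem_gal)

section fx

variable {J C M : Type} [Group J] [CommGroup C] [Group M] {D : CD J C M}
  [Fintype J] [Fintype C] [Fintype M] {η : C →* ℂ}

theorem CD.fix_iff (hS : D.Stab η) (σ : ℂ ≃+* ℂ) (hη : ∀ v, σ (η v) = η v) {χ : J → ℂ}
    (h : IsIrr χ) (hne : D.T η χ ≠ 0) : FixedBy σ χ ↔ FixedBy σ (D.T η χ) := by
  constructor
  · intro h1 m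
    have h2 : (fun x => σ (χ x)) = χ := funext h1
    have h3 := D.T_gal σ hη χ
    rw [h2] at h3
    exact (congrFun h3 m).symm
  · intro h1 x
    have h3 := D.T_gal σ hη χ
    have h4 : (fun m => σ (D.T η χ m)) = D.T η χ := funext h1
    rw [h4] at h3
    have h5 := D.T_inj hS (irr_gal h σ) h h3 (by rw [h3]; exact hne)
    exact congrFun h5 x

theorem CD.up_fx (hS : D.Stab η) (hη : ∀ (σ : ℂ ≃+* ℂ) (v : C), σ (η v) = η v)
    {A : Set (M → ℂ)} (hA : ∀ ψ ∈ A, IsIrr ψ) (S : Set (ℂ ≃+* ℂ)) :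
    BW.Fx S (D.up η A) = D.up η (BW.Fx S A) := by
  ext χ
  constructor
  · rintro ⟨h1, h2⟩
    exact ⟨h1.1, h1.2, fun σ hσ => (D.fix_iff hS σ (hη σ) h1.1 (D.up_ne hA h1)).mp (h2 σ hσ)⟩
  · rintro ⟨h1, h2, h3⟩
    exact ⟨⟨h1, h2⟩, fun σ hσ => (D.fix_iff hS σ (hη σ) h1 (D.up_ne hA ⟨h1, h2⟩)).mpr (h3 σ hσ)⟩

theorem CD.up_fx_card (hS : D.Stab η) (hη : ∀ (σ : ℂ ≃+* ℂ) (v : C), σ (η v) = η v)
    {A : Set (M → ℂ)} (hA : ∀ ψ ∈ A, IsIrr ψ) (S : Set (ℂ ≃+* ℂ)) :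
    Nat.card (BW.Fx S (D.up η A)) = Nat.card (BW.Fx S A) := by
  rw [D.up_fx hS hη hA S]
  exact D.up_card hS fun ψ hψ => hA ψ hψ.1

end fx

section tens

variable {ι G : Type} [Fintype ι] [Group G] [Fintype G]

theorem fx_Tens {A : Set (G → ℂ)} (hA : ∀ ψ ∈ A, IsIrr ψ) (S : Set (ℂ ≃+* ℂ)) :
    BW.Fx S (Tens fun _ : ι => A) = Tens fun _ : ι => BW.Fx S A := by
  ext χ
  constructor
  · rintro ⟨⟨θ, hθ, rfl⟩, h⟩
    refine ⟨θ, fun i => ⟨hθ i, fun σ hσ x => ?_⟩, rfl⟩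
    have h1 : tens (fun i x => σ (θ i x)) = tens θ := by
      funext g
      rw [← h σ hσ g]
      exact (map_prod σ _ _).symm
    have h2 := tens_inj (fun i => irr_gal (hA _ (hθ i)) σ) (fun i => hA _ (hθ i)) h1
    exact congrFun (congrFun h2 i) x
  · rintro ⟨θ, hθ, rfl⟩
    refine ⟨⟨θ, fun i => (hθ i).1, rfl⟩, fun σ hσ g => ?_⟩
    unfold tens
    rw [map_prod]
    exact Finset.prod_congr rfl fun i _ => (hθ i).2 σ hσ (g i)

theorem fx_Tens_card {A : Set (G → ℂ)} (hA : ∀ ψ ∈ A, IsIrr ψ) (S : Set (ℂ ≃+* ℂ)) :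
    Nat.card (BW.Fx S (Tens fun _ : ι => A)) = Nat.card (BW.Fx S A) ^ Fintype.card ι := by
  rw [fx_Tens hA S, card_Tens fun _ => fun θ hθ => hA θ hθ.1, Finset.prod_const, Finset.card_univ]

theorem gal_Tens {B : Set (G → ℂ)} (σ : ℂ ≃+* ℂ) (h : gal σ B = B) :
    gal σ (Tens fun _ : ι => B) = Tens fun _ : ι => B := by
  ext χ
  constructor
  · rintro ⟨_, ⟨θ, hθ, rfl⟩, rfl⟩
    refine ⟨fun i x => σ (θ i x), fun i => ?_, funext fun g => map_prod σ _ _⟩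
    change (fun x => σ (θ i x)) ∈ B
    rw [← h]
    exact ⟨_, hθ i, rfl⟩
  · rintro ⟨θ, hθ, rfl⟩
    have h1 : ∀ i, ∃ ψ ∈ B, θ i = fun g => σ (ψ g) := fun i => by
      have h2 := hθ i
      change θ i ∈ B at h2
      rw [← h] at h2
      exact h2
    choose ψ hψ hψ' using h1
    refine ⟨tens ψ, ⟨ψ, hψ, rfl⟩, funext fun g => ?_⟩
    unfold tens
    rw [map_prod]
    exact Finset.prod_congr rfl fun i _ => by rw [hψ' i]

variable {O : ValuationSubring ℂ} {p : ℕ} [hp : Fact p.Prime]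

theorem powDat_fx (hpO : (p : ℂ) ∈ O.nonunits) {D : Subgroup G} {B : Set (G → ℂ)}
    {b : Set (Subgroup.normalizer (D : Set G) → ℂ)} (h : Dat.IsBrauer p O ⟨G, D, B, b⟩)
    (S : Set (ℂ ≃+* ℂ)) :
    Nat.card (BW.Fx S ((powDat ι D B b).ht0 p)) = Nat.card (BW.Fx S (Irr0 p D B)) ^ Fintype.card ι := by
  have hB : IsBlock O B := h.block
  have h1 : Irr0 p (piS fun _ : ι => D) (Tens fun _ : ι => B) = Tens fun _ : ι => Irr0 p D B :=
    irr0_Tens hpO (fun _ => hB) fun _ => h.defect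
  have h2 := fx_Tens_card (ι := ι) (A := Irr0 p D B) (fun ψ hψ => hB.irr _ hψ.1) S
  rw [← h1] at h2
  exact h2

theorem powDat_fx' (hpO : (p : ℂ) ∈ O.nonunits) {D : Subgroup G} {B : Set (G → ℂ)}
    {b : Set (Subgroup.normalizer (D : Set G) → ℂ)} (h : Dat.IsBrauer p O ⟨G, D, B, b⟩)
    (S : Set (ℂ ≃+* ℂ)) :
    Nat.card (BW.Fx S ((powDat ι D B b).ht0' p)) =
      Nat.card (BW.Fx S (Irr0 p (D.subgroupOf (Subgroup.normalizer (D : Set G))) b)) ^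
        Fintype.card ι := by
  have hb : IsBlock O b := h.brauer.1
  have h1 : Irr0 p ((piS fun _ : ι => D).subgroupOf (Subgroup.normalizer
        (piS fun _ : ι => D : Set (ι → G)))) (pull (normPi ι D) (Tens fun _ : ι => b)) =
      pull (normPi ι D)
      (Tens fun _ : ι => Irr0 p (D.subgroupOf (Subgroup.normalizer (D : Set G))) b) := by
    rw [← irr0_Tens (K := fun _ : ι => Subgroup.normalizer (D : Set G)) hpO (fun _ => hb)
      fun _ => h.brauer.2.1, ← irr0_pull, powDat_comap]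
  change Nat.card (BW.Fx S (Irr0 p ((piS fun _ : ι => D).subgroupOf (Subgroup.normalizer
        (piS fun _ : ι => D : Set (ι → G)))) (pull (normPi ι D) (Tens fun _ : ι => b)))) = _
  rw [h1, fx_pull, card_pull]
  exact fx_Tens_card (fun ψ hψ => hb.irr _ hψ.1) S

end tens

section pindex

variable {p : ℕ} [hp : Fact p.Prime]

theorem hg_mono {G Γ : Type} (hd : Nat.card G ∣ Nat.card Γ) {σ : ℂ ≃+* ℂ} (h : σ ∈ HG p Γ) :
    σ ∈ HG p G := by
  obtain ⟨e, he⟩ := h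
  exact ⟨e, fun ξ hξ => he ξ (root_dvd (Nat.ordCompl_dvd_ordCompl_of_dvd hd p) hξ)⟩

theorem hg_lift {G Γ : Type} (hG : Nat.card G ≠ 0) (hΓ : Nat.card Γ ≠ 0)
    (hd : Nat.card G ∣ Nat.card Γ) {τ : ℂ ≃+* ℂ} (h : τ ∈ HG p G) :
    ∃ κ ∈ HG p Γ, ∀ ξ : ℂ, ξ ^ Nat.card G = 1 → κ ξ = τ ξ := by
  obtain ⟨e, he⟩ := h
  have hr : p.Coprime (ordCompl[p] (Nat.card Γ)) := Nat.coprime_ordCompl hp.out hΓ
  have hm : p.Coprime (ordCompl[p] (Nat.card G)) := Nat.coprime_ordCompl hp.out hG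
  have i1 : NeZero (ordCompl[p] (Nat.card Γ)) := ⟨(Nat.ordCompl_pos p hΓ).ne'⟩
  have i2 : NeZero (p ^ (Nat.card G).factorization p) := ⟨pow_ne_zero _ hp.out.ne_zero⟩
  obtain ⟨κ, k1, k2⟩ := exists_ex (a := p ^ (Nat.card G).factorization p)
    (b := ordCompl[p] (Nat.card Γ)) (Nat.Coprime.pow_left _ hr)
    (ex (p ^ (Nat.card G).factorization p) τ)
    (ZMod.unitOfCoprime (p ^ e) (Nat.Coprime.pow_left _ hr))
  have k3 : ∀ ξ : ℂ, ξ ^ (ordCompl[p] (Nat.card Γ)) = 1 → κ ξ = ξ ^ p ^ e := by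
    intro ξ hξ
    rw [ex_spec κ hξ, k2, ZMod.coe_unitOfCoprime, ZMod.val_natCast]
    exact pow_modEq hξ (Nat.mod_modEq _ _)
  refine ⟨κ, ⟨e, k3⟩, fun ξ hξ => ?_⟩
  have h1 := fix_mul (a := p ^ (Nat.card G).factorization p) (b := ordCompl[p] (Nat.card G))
    (Nat.Coprime.pow_left _ hm) (ρ := τ⁻¹ * κ) (fun ξ hξ => by
      change τ⁻¹ (κ ξ) = ξ
      rw [ex_eq_iff.mp k1 ξ hξ]
      exact τ.symm_apply_apply ξ) (fun ξ hξ => by
      change τ⁻¹ (κ ξ) = ξ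
      rw [k3 ξ (root_dvd (Nat.ordCompl_dvd_ordCompl_of_dvd hd p) hξ), ← he ξ hξ]
      exact τ.symm_apply_apply ξ) (ξ := ξ) (by
      rw [Nat.ordProj_mul_ordCompl_eq_self]
      exact hξ)
  have h2 : τ ((τ⁻¹ * κ) ξ) = κ ξ := τ.apply_symm_apply _
  rw [← h2, h1]

theorem pindex_mem {G : Type} {L : Subgroup (ℂ ≃+* ℂ)} (hL : PIndex p G L)
    {α β : ℂ ≃+* ℂ} (hα : α ∈ L) (h : ∀ ξ : ℂ, ξ ^ Nat.card G = 1 → β ξ = α ξ) : β ∈ L := by
  have h1 : α⁻¹ * β ∈ L := hL.fix _ fun ξ hξ => by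
    change α⁻¹ (β ξ) = ξ
    rw [h ξ hξ]
    exact α.symm_apply_apply ξ
  have h2 := L.mul_mem hα h1
  rwa [mul_inv_cancel_left] at h2

/-- the group `L` for a group with larger order -/
theorem pindex_lift {G Γ : Type} (hG : Nat.card G ≠ 0) (hΓ : Nat.card Γ ≠ 0)
    (hd : Nat.card G ∣ Nat.card Γ) {L : Subgroup (ℂ ≃+* ℂ)} (hL : PIndex p G L) :
    ∃ L' : Subgroup (ℂ ≃+* ℂ), PIndex p Γ L' ∧ ∀ (H : Type) [Group H] [Finite H],
      Nat.card H ∣ Nat.card G → ∀ A : Set (H → ℂ), (∀ θ ∈ A, IsIrr θ) →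
        BW.Fx (L' : Set (ℂ ≃+* ℂ)) A = BW.Fx (L : Set (ℂ ≃+* ℂ)) A := by
  have hr : p.Coprime (ordCompl[p] (Nat.card Γ)) := Nat.coprime_ordCompl hp.out hΓ
  have iG : NeZero (Nat.card G) := ⟨hG⟩
  refine ⟨L ⊓ Hs p _ hr, ⟨fun σ hσ => hσ.2, ?_, ?_, ?_⟩, ?_⟩
  · intro σ hσ
    refine ⟨hL.fix σ fun ξ hξ => hσ ξ (root_dvd hd hξ), 0, fun ξ hξ => ?_⟩
    rw [pow_zero, pow_one]
    exact hσ ξ (root_dvd (Nat.ordCompl_dvd _ _) hξ)
  · obtain ⟨N, hN⟩ := hL.pow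
    exact ⟨N, fun σ hσ => ⟨hN σ (hg_mono hd hσ), (Hs p _ hr).pow_mem hσ _⟩⟩
  · intro hp2
    obtain ⟨τ₀, h1, h2⟩ := hL.cyclic hp2
    obtain ⟨τ, h3, h4⟩ := hg_lift hG hΓ hd h1
    refine ⟨τ, h3, fun σ hσ => ?_⟩
    obtain ⟨j, hj⟩ := h2 σ (hg_mono hd hσ)
    refine ⟨j, pindex_mem hL hj (ex_eq_iff.mp ?_),
      (Hs p _ hr).mul_mem ((Hs p _ hr).pow_mem h3 _) hσ⟩
    rw [map_mul, map_mul, map_pow, map_pow, ex_eq_iff.mpr h4]
  · intro H _ _ hH A hA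
    refine fx_eq hA (N := Nat.card G) hH (fun δ hδ => ?_) fun κ hκ => ⟨κ, hκ.1, rfl⟩
    obtain ⟨κ, k1, k2⟩ := hg_lift hG hΓ hd (hL.le hδ)
    exact ⟨κ, ⟨pindex_mem hL hδ k2, k1⟩, ex_eq_iff.mpr k2⟩

end pindex

section transfer

variable {O : ValuationSubring ℂ} {p : ℕ} [hp : Fact p.Prime]

theorem dat_semi_fx (hpO : (p : ℂ) ∈ O.nonunits) {V L G : Type} [CommGroup V] [Group L] [Group G]
    (φ : L →* MulAut V) [Finite V] [Finite L] [Finite G] (hV : ¬ p ∣ Nat.card V)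
    (j : G →* L) (hj : Function.Injective j) (θ : V →* ℂ)
    (hθ : ∀ (σ : ℂ ≃+* ℂ) (v : V), σ (θ v) = θ v)
    (hst : ∀ l : L, (∀ v, θ (φ l v) = θ v) ↔ ∃ g, j g = l) {D : Subgroup G} {B : Set (G → ℂ)}
    {b : Set (Subgroup.normalizer (D : Set G) → ℂ)} (h : Dat.IsBrauer p O ⟨G, D, B, b⟩)
    (hg : ∀ σ : ℂ ≃+* ℂ, gal σ B = B) :
    ∃ (D' : Subgroup (V ⋊[φ] L)) (B' : Set (V ⋊[φ] L → ℂ))
      (b' : Set (Subgroup.normalizer (D' : Set (V ⋊[φ] L)) → ℂ)),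
      Dat.IsBrauer p O ⟨V ⋊[φ] L, D', B', b'⟩ ∧ (∀ σ : ℂ ≃+* ℂ, gal σ B' = B') ∧
      Nonempty (D ≃* D') ∧
      (∀ S : Set (ℂ ≃+* ℂ), Nat.card (BW.Fx S (Irr0 p D' B')) = Nat.card (BW.Fx S (Irr0 p D B))) ∧
      ∀ S : Set (ℂ ≃+* ℂ),
      Nat.card (BW.Fx S (Irr0 p (D'.subgroupOf (Subgroup.normalizer (D' : Set (V ⋊[φ] L)))) b')) =
        Nat.card (BW.Fx S (Irr0 p (D.subgroupOf (Subgroup.normalizer (D : Set G))) b)) := by
  have f1 : Fintype V := Fintype.ofFinite V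
  have f2 : Fintype (V ⋊[φ] L) := Fintype.ofFinite _
  have f3 : Fintype G := Fintype.ofFinite G
  have hS := semi_stab φ j hj θ hst
  have hQ : IsPGroup p D := (Pool.Agent.Q259.BW.isDefectGroup_iff.mp h.defect).choose_spec.2.1
  have hfc : ¬ p ∣ Nat.card ((semiCD φ j hj).fix D) :=
    fun h => hV (h.trans (Subgroup.card_subgroup_dvd_card _))
  have hS' := (semiCD φ j hj).sub_stab hV
    (rfl : D.map (semiCD φ j hj).j = D.map (semiCD φ j hj).j) (hQ.map _) hS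
  refine ⟨_, _, _, upDat_brauer hpO hV hS h, fun σ => ?_,
    ⟨D.equivMapOfInjective _ fun a b h => CD.j_inj h⟩, fun S => ?_, fun S => ?_⟩
  · exact (CD.up_gal σ (hθ σ) B).trans (by rw [hg σ])
  · have h1 : Irr0 p (D.map (semiCD φ j hj).j) ((semiCD φ j hj).up θ B) =
        (semiCD φ j hj).up θ (Irr0 p D B) := CD.up_irr0 hV hS h.block.irr D
    have h2 := (semiCD φ j hj).up_fx_card hS hθ (A := Irr0 p D B)
      (fun ψ hψ => h.block.irr _ hψ.1) S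
    rw [← h1] at h2
    exact h2
  · have h1 := CD.up_irr0 hfc hS' h.brauer.1.irr (D.subgroupOf (Subgroup.normalizer (D : Set G)))
    rw [(semiCD φ j hj).sub_map rfl] at h1
    have h2 := CD.up_fx_card hS' (fun σ v => hθ σ v)
      (A := Irr0 p (D.subgroupOf (Subgroup.normalizer (D : Set G))) b)
      (fun ψ hψ => h.brauer.1.irr _ hψ.1) S
    rw [← h1] at h2
    exact h2

end transfer

section main

variable {O : ValuationSubring ℂ} {p : ℕ} [hp : Fact p.Prime]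

/-- For the `p`-blocks `B` of `G` with defect group `D` in `C` which are equal to all their Galois
conjugates, their Brauer correspondents `b` and all `L` with `PIndex p G L`: the numbers of the
characters fixed by `L` in `Irr₀(B)` and `Irr₀(b)` differ at most by the factor `K`. -/
def AMNWithin (p : ℕ) (O : ValuationSubring ℂ) (C : (D : Type) → Group D → Prop) (G : Type)
    [Group G] (K : ℝ) : Prop :=
  ∀ (D : Subgroup G) (B : Set (G → ℂ)) (b : Set (Subgroup.normalizer (D : Set G) → ℂ)),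
    IsBlock O B → IsDefectGroup p O B D → IsBrauerCorrespondent p O D B b → C D inferInstance →
    (∀ σ : ℂ ≃+* ℂ, gal σ B = B) → ∀ L : Subgroup (ℂ ≃+* ℂ), PIndex p G L →
    (Nat.card (BW.Fx (L : Set (ℂ ≃+* ℂ)) (Irr0 p D B)) : ℝ) ≤
        K * Nat.card (BW.Fx (L : Set (ℂ ≃+* ℂ))
          (Irr0 p (D.subgroupOf (Subgroup.normalizer (D : Set G))) b)) ∧
      (Nat.card (BW.Fx (L : Set (ℂ ≃+* ℂ))
          (Irr0 p (D.subgroupOf (Subgroup.normalizer (D : Set G))) b)) : ℝ) ≤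
        K * Nat.card (BW.Fx (L : Set (ℂ ≃+* ℂ)) (Irr0 p D B))

theorem amnw_of_amn {C : (D : Type) → Group D → Prop}
    (h : ∀ X : Dat, X.IsBrauer p O → C X.D inferInstance → AMN p X) (G : Type) [Group G]
    [Finite G] {K : ℝ} (hK : 1 ≤ K) : AMNWithin p O C G K := by
  intro D B b h1 h2 h3 h4 h5 L hL
  have h6 : AMN p ⟨G, D, B, b⟩ := h ⟨G, D, B, b⟩ ⟨‹_›, h1, h2, h3⟩ h4
  have h7 := num_of_bij h6 (Δ := (L : Set (ℂ ≃+* ℂ))) fun σ hσ => ⟨hL.le hσ, h5 σ⟩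
  have h8 : Nat.card (BW.Fx (L : Set (ℂ ≃+* ℂ)) (Irr0 p D B)) = Nat.card (BW.Fx (L : Set (ℂ ≃+* ℂ))
          (Irr0 p (D.subgroupOf (Subgroup.normalizer (D : Set G))) b)) := h7
  rw [h8]
  have h9 : (0 : ℝ) ≤ Nat.card (BW.Fx (L : Set (ℂ ≃+* ℂ))
          (Irr0 p (D.subgroupOf (Subgroup.normalizer (D : Set G))) b)) := Nat.cast_nonneg _
  constructor <;> nlinarith

theorem eq_of_grow {x y c : ℕ} (hc : 0 < c) (key : ∀ ε : ℝ, 0 < ε → ∃ᶠ n : ℕ in atTop,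
    ∀ k : ℕ, c * k ≤ n → (x : ℝ) ^ k ≤ Real.exp (ε * n) * (y : ℝ) ^ k ∧
      (y : ℝ) ^ k ≤ Real.exp (ε * n) * (x : ℝ) ^ k) : x = y := by
  rcases lt_trichotomy x y with hlt | heq | hgt
  · exact (grow_arith hc hlt fun ε hε => (key ε hε).mono fun n hn k hk => (hn k hk).2).elim
  · exact heq
  · exact (grow_arith hc hgt fun ε hε => (key ε hε).mono fun n hn k hk => (hn k hk).1).elim

/-- the step from `G` to a semidirect product -/
theorem amn_step (hpO : (p : ℂ) ∈ O.nonunits) {C : (D : Type) → Group D → Prop}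
    (hC : PowClosed C) {X : Dat} (hX : X.IsBrauer p O) (hCX : C X.D inferInstance)
    (hg : ∀ σ : ℂ ≃+* ℂ, gal σ X.B = X.B) {L : Subgroup (ℂ ≃+* ℂ)} (hL : PIndex p X.G L)
    {V M : Type} [CommGroup V] [Group M] (φ : M →* MulAut V) [Finite V] [Finite M]
    (hV : ¬ p ∣ Nat.card V) (k : ℕ) (j : (Fin k → X.G) →* M) (hj : Function.Injective j)
    (θ : V →* ℂ) (hθ : ∀ (σ : ℂ ≃+* ℂ) (v : V), σ (θ v) = θ v)
    (hst : ∀ l : M, (∀ v, θ (φ l v) = θ v) ↔ ∃ g, j g = l) {K : ℝ} (hK : 1 ≤ K)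
    (h : AMNWithin p O C (V ⋊[φ] M) K) :
    (Nat.card (BW.Fx (L : Set (ℂ ≃+* ℂ)) (X.ht0 p)) : ℝ) ^ k ≤
        K * (Nat.card (BW.Fx (L : Set (ℂ ≃+* ℂ)) (X.ht0' p)) : ℝ) ^ k ∧
      (Nat.card (BW.Fx (L : Set (ℂ ≃+* ℂ)) (X.ht0' p)) : ℝ) ^ k ≤
        K * (Nat.card (BW.Fx (L : Set (ℂ ≃+* ℂ)) (X.ht0 p)) : ℝ) ^ k := by
  rcases Nat.eq_zero_or_pos k with rfl | hk
  · simp [hK]
  obtain ⟨G, D, B, b⟩ := X
  have hfin : Finite G := hX.fin
  have f1 : Fintype G := Fintype.ofFinite G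
  have hY := powDat_brauer (ι := Fin k) hX
  have hYg : ∀ σ : ℂ ≃+* ℂ, gal σ (Tens fun _ : Fin k => B) = Tens fun _ : Fin k => B :=
    fun σ => gal_Tens σ (hg σ)
  obtain ⟨D', B', b', h5, h6, ⟨e⟩, h7, h8⟩ := dat_semi_fx hpO φ hV j hj θ hθ hst
    (D := piS fun _ : Fin k => D) (B := Tens fun _ : Fin k => B)
    (b := pull (normPi (Fin k) D) (Tens fun _ : Fin k => b)) hY hYg
  have hdv : Nat.card G ∣ Nat.card (V ⋊[φ] M) := by
    have e1 : Nat.card G ∣ Nat.card (Fin k → G) := by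
      rw [Nat.card_fun, Nat.card_fin]
      exact dvd_pow_self _ hk.ne'
    have e2 : Nat.card (Fin k → G) ∣ Nat.card M := Subgroup.card_dvd_of_injective j hj
    have e3 : Nat.card M ∣ Nat.card (V ⋊[φ] M) :=
      Subgroup.card_dvd_of_injective SemidirectProduct.inr SemidirectProduct.inr_injective
    exact (e1.trans e2).trans e3
  obtain ⟨L', l1, l2⟩ := pindex_lift (p := p) (G := G) (Γ := V ⋊[φ] M) Nat.card_pos.ne'
    Nat.card_pos.ne' hdv hL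
  have h9 := h D' B' b' h5.block h5.defect h5.brauer
    (hC.1 _ _ ⟨e⟩ (hC.1 _ _ ⟨(piSMul k D).symm⟩ (hC.2 _ k hCX))) h6 L' l1
  rw [h7, h8] at h9
  have e1 : Nat.card (BW.Fx (L' : Set (ℂ ≃+* ℂ)) (Irr0 p (piS fun _ : Fin k => D)
      (Tens fun _ : Fin k => B))) = Nat.card (BW.Fx (L : Set (ℂ ≃+* ℂ)) (Irr0 p D B)) ^ k := by
    have h10 := powDat_fx (ι := Fin k) hpO hX (L' : Set (ℂ ≃+* ℂ))
    rw [l2 G dvd_rfl _ fun ψ hψ => hX.block.irr _ hψ.1, Fintype.card_fin] at h10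
    exact h10
  have e2 : Nat.card (BW.Fx (L' : Set (ℂ ≃+* ℂ)) (Irr0 p ((piS fun _ : Fin k => D).subgroupOf
      (Subgroup.normalizer (piS fun _ : Fin k => D : Set (Fin k → G))))
      (pull (normPi (Fin k) D) (Tens fun _ : Fin k => b)))) =
      Nat.card (BW.Fx (L : Set (ℂ ≃+* ℂ))
        (Irr0 p (D.subgroupOf (Subgroup.normalizer (D : Set G))) b)) ^ k := by
    have h10 := powDat_fx' (ι := Fin k) hpO hX (L' : Set (ℂ ≃+* ℂ))
    rw [l2 _ (Subgroup.card_subgroup_dvd_card _) _ fun ψ hψ => hX.brauer.1.irr _ hψ.1,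
      Fintype.card_fin] at h10
    exact h10
  rw [e1, e2] at h9
  push_cast at h9
  exact h9

/-- **All or nothing for the Alperin–McKay–Navarro conjecture.** -/
theorem amn_iff_mat (hpO : (p : ℂ) ∈ O.nonunits) (hp2 : p ≠ 2)
    {C : (D : Type) → Group D → Prop} (hC : ElClosed p C) :
    (∀ X : Dat, X.IsBrauer p O → C X.D inferInstance → AMN p X) ↔
      ∀ ε : ℝ, 0 < ε → ∃ᶠ n : ℕ in atTop, AMNWithin p O C (MatGrp 2 n) (Real.exp (ε * n)) := by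
  have : Fact (1 < 2) := ⟨by omega⟩
  have h2p : ¬ p ∣ 2 := fun h => hp2 ((Nat.prime_dvd_prime_iff_eq hp.out Nat.prime_two).mp h)
  constructor
  · intro h ε hε
    exact Frequently.of_forall fun n => amnw_of_amn h _ (Real.one_le_exp (by positivity))
  · intro h
    refine amn_reduction hpO hC fun X hX hCX hg L hL => ?_
    have hfin := hX.fin
    obtain ⟨c, hc, hG⟩ := frucht_pow X.G
    refine eq_of_grow hc fun ε hε => (h ε hε).mono fun n hn k hk => ?_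
    obtain ⟨j, R, hj, hR⟩ := hG k n hk
    let κ : Fin n → Fin n → ZMod 2 := fun a b => if R a b then 1 else 0
    refine amn_step hpO hC.1 hX hCX hg hL (matPerm 2 n) ?_ k j hj (matChar κ)
      (fun σ v => std_two σ _) (fun σ => ?_) (Real.one_le_exp (by positivity)) hn
    · rw [card_mat]
      exact fun h => h2p ((Fact.out : p.Prime).dvd_of_dvd_pow h)
    · rw [matChar_stab, ← hR]
      refine forall_congr' fun a => forall_congr' fun b => ?_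
      change (if R (σ a) (σ b) then (1 : ZMod 2) else 0) = (if R a b then 1 else 0) ↔ _
      by_cases h1 : R (σ a) (σ b) <;> by_cases h2 : R a b <;> simp [h1, h2]

/-- **The Alperin–McKay–Navarro conjecture and extensions of modules by alternating groups.** -/
theorem amn_iff_alt (hpO : (p : ℂ) ∈ O.nonunits) (hp2 : p ≠ 2)
    {C : (D : Type) → Group D → Prop} (hC : ElClosed p C) :
    (∀ X : Dat, X.IsBrauer p O → C X.D inferInstance → AMN p X) ↔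
      ∀ ε : ℝ, 0 < ε → ∃ᶠ n : ℕ in atTop, ∀ H : Subgroup (alternatingGroup (Fin n)),
        AMNWithin p O C (ZSGrp 2 (alternatingGroup (Fin n)) H) (Real.exp (ε * n)) := by
  have h2p : ¬ p ∣ 2 := fun h => hp2 ((Nat.prime_dvd_prime_iff_eq hp.out Nat.prime_two).mp h)
  constructor
  · intro h ε hε
    exact Frequently.of_forall fun n H => amnw_of_amn h _ (Real.one_le_exp (by positivity))
  · intro h
    refine amn_reduction hpO hC fun X hX hCX hg L hL => ?_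
    have hfin := hX.fin
    obtain ⟨c, hc, hG⟩ := emb_alt_pow X.G
    refine eq_of_grow (c := 2 * c) (by omega) fun ε hε =>
      ((h ε hε).and_eventually (eventually_ge_atTop (2 * c))).mono fun n hn k hk => ?_
    obtain ⟨hn, hn2⟩ := hn
    obtain ⟨j, hj, h3'⟩ := hG k n (by nlinarith)
    refine amn_step hpO hC.1 hX hCX hg hL
      (zsAct 2 (alternatingGroup (Fin n)) (alternatingGroup (Fin n) ⧸ j.range)) ?_ k j hj
      (evChar (q := 2) (((1 : alternatingGroup (Fin n)) : alternatingGroup (Fin n) ⧸ j.range)))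
      (fun σ v => std_two σ _) (zs_stab (q := 2) le_rfl j h3')
      (Real.one_le_exp (by positivity)) (hn j.range)
    intro hd
    exact h2p ((Fact.out : p.Prime).dvd_of_dvd_pow (hd.trans
      (card_zs (q := 2) (X := alternatingGroup (Fin n) ⧸ j.range))))

end main

end Run7.h45
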