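import Pool.Agent.Run7.h45.Cor
import Pool.Agent.N85.WM.Modp

/-!
# The block of `J` determined by a block of `M`
-/

set_option autoImplicit false

open scoped Classical BigOperators

noncomputable section

namespace Run7.h45

open Pool.Agent.Y63.NV Pool.Agent.N85.WM

section ind

variable {J C M : Type} [Group J] [CommGroup C] [Group M] {D : CD J C M} {K : Type} [Field K]

/-- the function on the stabilizer with a given transform -/
def CD.ext (D : CD J C M) (η : C →* K) (z : M → K) (y : J) : K :=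
  if h : ∃ s : C × M, y = D.i s.1 * D.j s.2 then η h.choose.1⁻¹ * z h.choose.2 else 0

theorem CD.ext_st (η : C →* K) (z : M → K) (v : C) (m : M) :
    D.ext η z (D.i v * D.j m) = η v⁻¹ * z m := by
  have h : ∃ s : C × M, D.i v * D.j m = D.i s.1 * D.j s.2 := ⟨(v, m), rfl⟩
  unfold CD.ext
  rw [dif_pos h]
  obtain ⟨h1, h2⟩ := D.ij_inj h.choose_spec
  rw [← h1, ← h2]

theorem CD.ext_out (η : C →* K) (z : M → K) {y : J} (h : ¬ ∃ v m, y = D.i v * D.j m) :
    D.ext η z y = 0 := by
  unfold CD.ext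
  rw [dif_neg]
  rintro ⟨s, hs⟩
  exact h ⟨s.1, s.2, hs⟩

theorem CD.ext_conj {η : C →* K} (hS : D.Stab η) {z : M → K} (hz : IsClassFun z) {x : J}
    (hx : x ∈ D.stS η) (y : J) : D.ext η z (x * y * x⁻¹) = D.ext η z y := by
  obtain ⟨a, b, rfl⟩ := (hS x).1 hx
  by_cases hy : ∃ v m, y = D.i v * D.j m
  · obtain ⟨v, m, rfl⟩ := hy
    have h1 : D.i a * D.j b * (D.i v * D.j m) * (D.i a * D.j b)⁻¹ =
        D.i (a * D.c (D.j b) v * (D.c (D.j (b * m * b⁻¹)) a)⁻¹) * D.j (b * m * b⁻¹) := by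
      rw [map_mul, map_mul, map_inv, D.hc, D.hc, map_mul, map_mul, map_inv]
      group
    rw [h1, D.ext_st, D.ext_st, hz]
    congr 1
    have h2 : (a * D.c (D.j b) v * (D.c (D.j (b * m * b⁻¹)) a)⁻¹)⁻¹ =
        a⁻¹ * D.c (D.j b) v⁻¹ * D.c (D.j (b * m * b⁻¹)) a := by
      rw [mul_inv_rev, mul_inv_rev, inv_inv, map_inv, mul_comm, mul_comm a⁻¹]
    rw [h2, map_mul η, map_mul η, D.st_j hS, D.st_j hS]
    have h3 : η a⁻¹ * η a = 1 := by rw [← map_mul, inv_mul_cancel, map_one]
    linear_combination (η v⁻¹) * h3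
  · rw [D.ext_out η z hy, D.ext_out]
    intro h
    apply hy
    rw [← hS] at h ⊢
    have h1 : (D.i a * D.j b) * y * (D.i a * D.j b)⁻¹ ∈ D.stS η := h
    have h2 := (D.stS η).mul_mem ((D.stS η).mul_mem ((D.stS η).inv_mem hx) h1) hx
    have h3 : (D.i a * D.j b)⁻¹ * ((D.i a * D.j b) * y * (D.i a * D.j b)⁻¹) * (D.i a * D.j b) = y := by
      group
    rw [h3] at h2
    exact h2

variable [Fintype J] [Fintype C] [Fintype M]

/-- the class function of `J` with a given transform -/
def CD.ind (D : CD J C M) (η : C →* K) (z : M → K) (y : J) : K :=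
  (Fintype.card C : K)⁻¹ * ∑ q : J ⧸ D.stS η, D.ext η z (q.out⁻¹ * y * q.out)

omit [Fintype M] in
theorem CD.ind_class {η : C →* K} (hS : D.Stab η) {z : M → K} (hz : IsClassFun z) :
    IsClassFun (D.ind η z) := by
  intro g y
  unfold CD.ind
  congr 1
  refine Fintype.sum_equiv (MulAction.toPerm g⁻¹) _ _ fun q => ?_
  have h1 : (MulAction.toPerm g⁻¹) q = g⁻¹ • q := rfl
  rw [h1]
  have h2 : ((g⁻¹ * q.out : J) : J ⧸ D.stS η) = g⁻¹ • q := by
    conv_rhs => rw [← QuotientGroup.out_eq' q]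
    rfl
  have h3 : ((g⁻¹ * q.out : J) : J ⧸ D.stS η) = (((g⁻¹ • q).out : J) : J ⧸ D.stS η) := by
    rw [h2]; exact (QuotientGroup.out_eq' _).symm
  rw [QuotientGroup.eq] at h3
  -- the two representatives differ by an element of the stabilizer
  set t : J := (g⁻¹ * q.out)⁻¹ * (g⁻¹ • q).out with ht
  have h4 : (g⁻¹ • q).out = g⁻¹ * q.out * t := by rw [ht]; group
  rw [h4]
  have h5 : (g⁻¹ * q.out * t)⁻¹ * y * (g⁻¹ * q.out * t) =
      t⁻¹ * (q.out⁻¹ * (g * y * g⁻¹) * q.out) * t⁻¹⁻¹ := by group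
  rw [h5, D.ext_conj hS hz ((D.stS η).inv_mem h3)]

omit [Fintype J] [Fintype M] in
theorem hom_sum_ne {η η' : C →* K} (h : η ≠ η') : ∑ v, η v * η' v⁻¹ = 0 := by
  have h1 : η * hinv η' ≠ 1 := by
    intro h2
    apply h
    ext v
    have h3 : η v * η' v⁻¹ = 1 := DFunLike.congr_fun h2 v
    have h4 : η' v⁻¹ * η' v = 1 := by rw [← map_mul, inv_mul_cancel, map_one]
    calc η v = η v * (η' v⁻¹ * η' v) := by rw [h4, mul_one]
      _ = η v * η' v⁻¹ * η' v := by ring
      _ = η' v := by rw [h3, one_mul]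
  have h2 := sum_hom_units_eq_zero (η * hinv η') h1
  exact h2

omit [Fintype J] [Fintype M] in
theorem hom_sum_eq (η : C →* K) : ∑ v, η v * η v⁻¹ = Fintype.card C := by
  have h1 : ∀ v, η v * η v⁻¹ = 1 := fun v => by rw [← map_mul, mul_inv_cancel, map_one]
  rw [Finset.sum_congr rfl fun v _ => h1 v, Finset.sum_const, Finset.card_univ, nsmul_eq_mul,
    mul_one]

omit [Fintype M] in
/-- the transform is surjective on class functions -/
theorem CD.tf_ind (hC : (Fintype.card C : K) ≠ 0) {η : C →* K} (hS : D.Stab η) {z : M → K}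
    (hz : IsClassFun z) : D.tf η (D.ind η z) = z := by
  funext m
  unfold CD.tf CD.ind
  have h1 : ∑ v, η v * ((Fintype.card C : K)⁻¹ *
      ∑ q : J ⧸ D.stS η, D.ext η z (q.out⁻¹ * (D.i v * D.j m) * q.out)) =
      (Fintype.card C : K)⁻¹ * ∑ q : J ⧸ D.stS η, ∑ v, η v *
        D.ext η z (q.out⁻¹ * (D.i v * D.j m) * q.out) := by
    rw [Finset.sum_comm, Finset.mul_sum]
    refine Finset.sum_congr rfl fun v _ => ?_
    rw [← Finset.mul_sum]
    ring
  rw [h1, Finset.sum_eq_single (QuotientGroup.mk (1 : J))]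
  · have hx : (QuotientGroup.mk (s := D.stS η) (1 : J)).out ∈ D.stS η := by
      have h2 := QuotientGroup.mk_out_eq_mul (D.stS η) (1 : J)
      obtain ⟨h, h3⟩ := h2
      rw [h3, one_mul]
      exact h.2
    have h2 : ∀ v, D.ext η z ((QuotientGroup.mk (s := D.stS η) (1 : J)).out⁻¹ *
        (D.i v * D.j m) * (QuotientGroup.mk (s := D.stS η) (1 : J)).out) = η v⁻¹ * z m := by
      intro v
      have h3 := D.ext_conj hS hz ((D.stS η).inv_mem hx) (D.i v * D.j m)
      rw [inv_inv] at h3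
      rw [h3, D.ext_st]
    simp_rw [h2, ← mul_assoc]
    rw [← Finset.sum_mul, hom_sum_eq, ← mul_assoc, inv_mul_cancel₀ hC, one_mul]
  · intro q _ hq
    have hx : q.out ∉ D.stS η := by
      intro h
      apply hq
      rw [← QuotientGroup.out_eq' q]
      change ((q.out : J) : J ⧸ D.stS η) = ((1 : J) : J ⧸ D.stS η)
      rw [QuotientGroup.eq, mul_one]
      exact (D.stS η).inv_mem h
    set x : J := q.out
    by_cases hm : ∃ u n, x⁻¹ * D.j m * x = D.i u * D.j n
    · obtain ⟨u, n, h2⟩ := hm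
      have h3 : ∀ v, D.ext η z (x⁻¹ * (D.i v * D.j m) * x) =
          (η.comp (D.c x⁻¹).toMonoidHom) v⁻¹ * (η u⁻¹ * z n) := by
        intro v
        have h4 : x⁻¹ * (D.i v * D.j m) * x = D.i (D.c x⁻¹ v * u) * D.j n := by
          rw [map_mul, D.hc, mul_assoc _ (D.i u), ← h2]
          group
        rw [h4, D.ext_st]
        have h5 : (D.c x⁻¹ v * u)⁻¹ = D.c x⁻¹ v⁻¹ * u⁻¹ := by
          have h6 : D.c x⁻¹ v⁻¹ = (D.c x⁻¹ v)⁻¹ := map_inv (D.c x⁻¹) v
          rw [mul_inv_rev, h6, mul_comm]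
        rw [h5, map_mul, mul_assoc]
        rfl
      simp_rw [h3, ← mul_assoc]
      rw [← Finset.sum_mul, ← Finset.sum_mul, hom_sum_ne, zero_mul, zero_mul]
      intro h4
      apply hx
      have h5 : x⁻¹ ∈ D.stS η := fun v => (DFunLike.congr_fun h4 v).symm
      have h6 := (D.stS η).inv_mem h5
      rwa [inv_inv] at h6
    · refine Finset.sum_eq_zero fun v _ => ?_
      rw [D.ext_out, mul_zero]
      rintro ⟨u, n, h2⟩
      apply hm
      refine ⟨(D.c x⁻¹ v)⁻¹ * u, n, ?_⟩
      rw [map_mul, map_inv, D.hc, mul_assoc _ (D.i u), ← h2]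
      group
  · intro h
    exact absurd (Finset.mem_univ _) h

/-- the induced class function annihilates the traces without isotypic part -/
theorem CD.ind_zero (hC : (Fintype.card C : K) ≠ 0) {η : C →* K} (hS : D.Stab η) (z : M → K)
    {φ : J → K} (hφ : IsClassFun φ) (h : D.T η φ = 0) (x : J) :
    ∑ y, D.ind η z y * φ (y * x) = 0 := by
  have h0 : ∀ w : J, ∑ v, η v⁻¹ * φ (D.i v * w) = 0 := by
    intro w
    by_cases hw : ∃ v m, w = D.i v * D.j m
    · obtain ⟨a, b, rfl⟩ := hw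
      have h1 : D.tf (hinv η) φ b = 0 := by
        have h2 := congrFun h b
        unfold CD.T at h2
        rcases mul_eq_zero.mp h2 with h3 | h3
        · exact absurd h3 (inv_ne_zero hC)
        · exact h3
      unfold CD.tf at h1
      have h2 : ∑ v, η v⁻¹ * φ (D.i v * (D.i a * D.j b)) =
          η a * ∑ v, (hinv η) v * φ (D.i v * D.j b) := by
        rw [Finset.mul_sum]
        refine Fintype.sum_equiv (Equiv.mulRight a) _ _ fun v => ?_
        rw [Equiv.coe_mulRight, hinv_apply, ← mul_assoc, ← mul_assoc, ← map_mul, mul_inv_rev,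
          ← map_mul, mul_inv_cancel_left]
      rw [h2, h1, mul_zero]
    · have h1 := D.vanish (hinv η) hφ (y := w) (by
        intro h2
        apply hw
        exact (D.stab_hinv hS w).1 h2)
      exact h1
  have h1 : ∀ w : J, ∑ y, D.ext η z y * φ (y * w) = 0 := by
    intro w
    rw [D.sum_stab]
    · refine Finset.sum_eq_zero fun n _ => ?_
      have h2 : ∑ v, D.ext η z (D.i v * D.j n) * φ (D.i v * D.j n * w) =
          z n * ∑ v, η v⁻¹ * φ (D.i v * (D.j n * w)) := by
        rw [Finset.mul_sum]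
        refine Finset.sum_congr rfl fun v _ => ?_
        rw [D.ext_st, mul_assoc (D.i v)]
        ring
      rw [h2, h0, mul_zero]
    · intro y hy
      rw [D.ext_out η z hy, zero_mul]
  unfold CD.ind
  simp_rw [mul_assoc]
  rw [← Finset.mul_sum]
  have h2 : ∑ y, (∑ q : J ⧸ D.stS η, D.ext η z (q.out⁻¹ * (y * q.out))) * φ (y * x) =
      ∑ q : J ⧸ D.stS η, ∑ y, D.ext η z y * φ (y * (q.out⁻¹ * x * q.out)) := by
    simp_rw [Finset.sum_mul]
    rw [Finset.sum_comm]
    refine Finset.sum_congr rfl fun q _ => ?_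
    refine Fintype.sum_equiv (MulAut.conj q.out⁻¹).toEquiv _ _ fun y => ?_
    have h3 : (MulAut.conj q.out⁻¹).toEquiv y = q.out⁻¹ * (y * q.out) := by
      change q.out⁻¹ * y * q.out⁻¹⁻¹ = _
      rw [inv_inv, mul_assoc]
    rw [h3]
    congr 1
    rw [← hφ q.out⁻¹ (y * x)]
    congr 1
    group
  rw [h2]
  rw [Finset.sum_eq_zero fun q _ => h1 _, mul_zero]

end ind

section blk

variable {J C M : Type} [Group J] [CommGroup C] [Group M] {D : CD J C M} {F : Type} [Field F]
  [Fintype J] [Fintype C] [Fintype M]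

/-- the block of `J` corresponding to the block `B` of `M` -/
def CD.blk (D : CD J C M) (η : C →* F) (B : (M → F) → F) : (J → F) → F := fun z => B (D.tf η z)

theorem CD.tf_conv' {η : C →* F} (hS : D.Stab η) (f : J → F) {g : J → F} (hg : IsClassFun g) :
    D.tf η (conv f g) = conv (D.tf η f) (D.tf η g) := by
  funext m
  have h1 := D.tf_conv hS f hg m
  unfold conv
  rw [finsum_eq_sum_of_fintype, ← h1]
  unfold CD.tf
  refine Finset.sum_congr rfl fun v _ => ?_
  change η v * (∑ᶠ y, f y * g (y⁻¹ * (D.i v * D.j m))) = _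
  rw [finsum_eq_sum_of_fintype]

theorem CD.blk_block {η : C →* F} (hS : D.Stab η) {B : (M → F) → F} (hB : IsBlock B) :
    IsBlock (D.blk η B) := by
  refine ⟨fun f g hf hg => ?_, fun a f hf => ?_, ?_, fun f g hf hg => ?_⟩
  · have h1 : D.tf η (f + g) = D.tf η f + D.tf η g := by
      funext m
      unfold CD.tf
      rw [Pi.add_apply, ← Finset.sum_add_distrib]
      exact Finset.sum_congr rfl fun v _ => by rw [Pi.add_apply, mul_add]
    unfold CD.blk
    rw [h1, hB.add _ _ (D.tf_class hS hf) (D.tf_class hS hg)]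
  · have h1 : D.tf η (a • f) = a • D.tf η f := by
      funext m
      unfold CD.tf
      rw [Pi.smul_apply, smul_eq_mul, Finset.mul_sum]
      exact Finset.sum_congr rfl fun v _ => by rw [Pi.smul_apply, smul_eq_mul]; ring
    unfold CD.blk
    rw [h1, hB.smul _ _ (D.tf_class hS hf)]
  · unfold CD.blk
    refine Eq.trans (congrArg B ?_) hB.one
    funext m
    unfold CD.tf
    by_cases hm : m = 1
    · subst hm
      rw [Finset.sum_eq_single (1 : C)]
      · simp
      · intro v _ hv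
        rw [Pi.single_eq_of_ne, mul_zero]
        intro h
        apply hv
        rw [map_one, mul_one] at h
        exact D.i_inj (h.trans (map_one _).symm)
      · intro h
        exact absurd (Finset.mem_univ _) h
    · rw [Pi.single_eq_of_ne hm]
      refine Finset.sum_eq_zero fun v _ => ?_
      rw [Pi.single_eq_of_ne, mul_zero]
      intro h
      apply hm
      have h1 : D.i v * D.j m = D.i 1 * D.j 1 := by rw [h, map_one, map_one, mul_one]
      exact (D.ij_inj h1).2
  · unfold CD.blk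
    rw [D.tf_conv' hS f hg, hB.mul _ _ (D.tf_class hS hf) (D.tf_class hS hg)]

/-- the Clifford correspondence for a block -/
theorem CD.numIrr_blk [IsAlgClosed F] (hC : (Fintype.card C : F) ≠ 0) {η : C →* F}
    (hS : D.Stab η) {B : (M → F) → F} (hB : IsBlock B) :
    numIrrBlock (D.blk η B) = numIrrBlock B := by
  have hne : ∀ φ : J → F, IsIrrTrace φ → (∀ f : J → F, IsClassFun f → ∀ x : J,
      ∑ᶠ g : J, f g * φ (g * x) = D.blk η B f * φ x) → D.T η φ ≠ 0 := by
    intro φ hφ h h0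
    have h1 : IsClassFun (Pi.single (1 : M) (1 : F)) := Pool.Agent.Y63.NV.B286.single_class
    obtain ⟨x, hx⟩ := (schur' F J φ hφ).1
    have h2 := h (D.ind η (Pi.single 1 1)) (D.ind_class hS h1) x
    rw [finsum_eq_sum_of_fintype, D.ind_zero hC hS _ (irrT_class hφ) h0] at h2
    unfold CD.blk at h2
    rw [D.tf_ind hC hS h1, hB.one, one_mul] at h2
    exact hx h2.symm
  unfold numIrrBlock
  refine Nat.card_eq_of_bijective (fun φ => ⟨D.T η φ.1, D.T_irr hC hS φ.2.1 (hne _ φ.2.1 φ.2.2),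
    fun f hf m => ?_⟩) ⟨?_, ?_⟩
  · rw [finsum_eq_sum_of_fintype]
    have h1 := φ.2.2 (D.ind η f) (D.ind_class hS hf)
    have h2 : D.blk η B (D.ind η f) = B f := by
      unfold CD.blk
      rw [D.tf_ind hC hS hf]
    have h3 := D.T_central hS (f := D.ind η f) (irrT_class φ.2.1) (a := B f) (fun x => by
      rw [← h2, ← h1 x, finsum_eq_sum_of_fintype]) m
    rw [D.tf_ind hC hS hf] at h3
    exact h3
  · rintro ⟨φ, h1, h2⟩ ⟨φ', h1', h2'⟩ h
    have h3 : D.T η φ = D.T η φ' := congrArg Subtype.val h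
    exact Subtype.ext (D.T_inj hS h1 h1' h3 (hne φ h1 h2))
  · rintro ⟨ψ, h1, h2⟩
    obtain ⟨φ, h3, h4⟩ := D.T_surj hC hS h1
    refine ⟨⟨φ, h3, fun f hf x => ?_⟩, Subtype.ext h4⟩
    obtain ⟨-, b, hb, hb2⟩ := schur' F J φ h3
    have h5 := D.T_central hS (f := f) (irrT_class h3) (a := b f) (fun x => by
      rw [← hb2 f hf x, finsum_eq_sum_of_fintype])
    obtain ⟨m, hm⟩ := (schur' F M ψ h1).1
    have h6 := h5 m
    rw [h4] at h6
    have h7 := h2 (D.tf η f) (D.tf_class hS hf) m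
    rw [finsum_eq_sum_of_fintype, h6] at h7
    have h8 : b f = B (D.tf η f) := mul_right_cancel₀ hm h7
    rw [hb2 f hf x, h8]
    rfl

end blk

end Run7.h45
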