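import Pool.Agent.Run7.h45.Den3
import Mathlib.LinearAlgebra.FreeModule.Finite.Matrix
import Mathlib.Algebra.MonoidAlgebra.Basic

/-!
# The number of all blocks, and the comparison of the numbers
-/

set_option autoImplicit false
set_option linter.unusedSectionVars false

open scoped Classical BigOperators
open Filter

noncomputable section

namespace Run7.h45

open Pool.Agent.Y63.NV Pool.Agent.N85.WM

section fin

variable {F : Type} [Field F] {G : Type} [Group G] [Finite G]

theorem center_class {z : MonoidAlgebra F G} (hz : z ∈ Subalgebra.center F (MonoidAlgebra F G)) :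
    IsClassFun (fun g => z.coeff g) := by
  intro g x
  have h1 := (Subalgebra.mem_center_iff.1 hz) (MonoidAlgebra.single g 1)
  have h2 := congrArg (fun w : MonoidAlgebra F G => w.coeff (g * x)) h1
  simp only [MonoidAlgebra.coeff_single_mul_apply, MonoidAlgebra.coeff_mul_single_apply, one_mul,
    mul_one, inv_mul_cancel_left] at h2
  exact h2.symm

theorem coeff_conv (z w : MonoidAlgebra F G) :
    (fun g => (z * w).coeff g) = conv (fun g => z.coeff g) (fun g => w.coeff g) := by
  have : Fintype G := Fintype.ofFinite G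
  funext x
  unfold conv
  rw [finsum_eq_sum_of_fintype, MonoidAlgebra.coeff_mul_apply_left, Finsupp.sum_fintype]
  intro i
  rw [zero_mul]

/-- a block as an algebra homomorphism -/
def toHom {B : (G → F) → F} (hB : IsBlock B) :
    Subalgebra.center F (MonoidAlgebra F G) →ₐ[F] F :=
  AlgHom.ofLinearMap
    { toFun := fun z => B fun g => z.1.coeff g
      map_add' := fun z w => by
        rw [← hB.add _ _ (center_class z.2) (center_class w.2)]
        rfl
      map_smul' := fun a z => by
        rw [RingHom.id_apply, smul_eq_mul, ← hB.smul _ _ (center_class z.2)]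
        rfl }
    (by
      refine Eq.trans (congrArg B ?_) hB.one
      funext g
      change (1 : MonoidAlgebra F G).coeff g = _
      rw [MonoidAlgebra.one_def, MonoidAlgebra.coeff_single]
      by_cases hg : g = 1
      · subst hg; simp
      · simp [hg, Ne.symm hg])
    (fun z w => by
      change B (fun g => (z.1 * w.1).coeff g) = _
      rw [coeff_conv, hB.mul _ _ (center_class z.2) (center_class w.2)]
      rfl)

theorem toHom_inj {B B' : (G → F) → F} (hB : IsBlock B) (hB' : IsBlock B')
    (h : toHom hB = toHom hB') {f : G → F} (hf : IsClassFun f) : B f = B' f := by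
  have : Fintype G := Fintype.ofFinite G
  let z : MonoidAlgebra F G := MonoidAlgebra.ofCoeff (Finsupp.equivFunOnFinite.symm f)
  have hz : ∀ g, z.coeff g = f g := fun g => rfl
  have hc : z ∈ Subalgebra.center F (MonoidAlgebra F G) := by
    rw [Subalgebra.mem_center_iff]
    intro w
    induction w using MonoidAlgebra.induction_linear with
    | zero => simp
    | add a b ha hb => rw [add_mul, mul_add, ha, hb]
    | single g r =>
      apply MonoidAlgebra.coeff_injective
      ext x
      rw [MonoidAlgebra.coeff_single_mul_apply, MonoidAlgebra.coeff_mul_single_apply, hz, hz,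
        mul_comm]
      congr 1
      have h1 := hf g (g⁻¹ * x)
      rw [mul_inv_cancel_left] at h1
      exact h1.symm
  exact DFunLike.congr_fun h ⟨z, hc⟩

/-- **The number of blocks is at most the order of the group.** -/
theorem blocks_card (P : ((G → F) → F) → Prop) :
    (BlocksWith (F := F) G P).Finite ∧ (BlocksWith (F := F) G P).ncard ≤ Nat.card G := by
  have f3 : Fintype G := Fintype.ofFinite G
  let φ : BlocksWith (F := F) G P → (Subalgebra.center F (MonoidAlgebra F G) →ₐ[F] F) :=
    fun β => toHom β.2.choose_spec.1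
  have hφ : Function.Injective φ := by
    intro β β' h
    apply Subtype.ext
    funext f
    rw [β.2.choose_spec.2.2 f, β'.2.choose_spec.2.2 f]
    exact toHom_inj _ _ h f.2
  have e : MonoidAlgebra F G ≃ₗ[F] (G →₀ F) :=
    { toFun := fun z => z.coeff
      invFun := fun z => MonoidAlgebra.ofCoeff z
      left_inv := fun z => rfl
      right_inv := fun z => rfl
      map_add' := fun _ _ => rfl
      map_smul' := fun _ _ => rfl }
  have hfd : Module.Finite F (MonoidAlgebra F G) := Module.Finite.equiv e.symm
  have hfd' : Module.Finite F (Subalgebra.center F (MonoidAlgebra F G)) :=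
    Module.Finite.of_injective (Subalgebra.center F (MonoidAlgebra F G)).val.toLinearMap
      Subtype.val_injective
  have h1 : Nat.card (Subalgebra.center F (MonoidAlgebra F G) →ₐ[F] F) ≤ Nat.card G := by
    refine (card_algHom_le_finrank F _ F).trans ?_
    refine (LinearMap.finrank_le_finrank_of_injective
      (f := (Subalgebra.center F (MonoidAlgebra F G)).val.toLinearMap)
      Subtype.val_injective).trans ?_
    rw [LinearEquiv.finrank_eq e, Module.finrank_finsupp_self, Nat.card_eq_fintype_card]
  have hfin : Finite (BlocksWith (F := F) G P) := Finite.of_injective φ hφ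
  refine ⟨Set.toFinite _, le_trans ?_ h1⟩
  rw [← Nat.card_coe_set_eq]
  exact Nat.card_le_card_of_injective φ hφ

end fin

section arith

/-- comparison of the numbers -/
theorem dens_nat {q : ℕ} (hq : 2 ≤ q) {f b : ℕ → ℕ}
    (hb : ∀ n, b n ≤ q ^ (n * n) * n.factorial)
    {C n₀ : ℕ} (hf : ∀ n, n₀ ≤ n → q ^ (n * n - C * n * Nat.log 2 n) ≤ f n) :
    ∃ C' : ℕ, ∀ n, n₀ ≤ n → 0 < n → b n ≤ f n * n ^ (C' * n) := by
  obtain ⟨s, hs⟩ : ∃ s, q ≤ 2 ^ s := ⟨q, Nat.lt_two_pow_self.le⟩
  refine ⟨s * C + 1, fun n hn h0 => ?_⟩
  let l := Nat.log 2 n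
  have hl : 2 ^ l ≤ n := Nat.pow_log_le_self 2 (by omega)
  have h1 : q ^ (C * n * l) ≤ n ^ (s * C * n) := by
    calc q ^ (C * n * l) ≤ (2 ^ s) ^ (C * n * l) := Nat.pow_le_pow_left hs _
      _ = (2 ^ l) ^ (s * C * n) := by
          rw [← pow_mul, ← pow_mul]
          congr 1
          ring
      _ ≤ n ^ (s * C * n) := Nat.pow_le_pow_left hl _
  have h2 : q ^ (n * n) ≤ f n * n ^ (s * C * n) := by
    calc q ^ (n * n) ≤ q ^ ((n * n - C * n * l) + C * n * l) :=
          Nat.pow_le_pow_right (by omega) (by omega)
      _ = q ^ (n * n - C * n * l) * q ^ (C * n * l) := pow_add _ _ _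
      _ ≤ f n * n ^ (s * C * n) := Nat.mul_le_mul (hf n hn) h1
  calc b n ≤ q ^ (n * n) * n.factorial := hb n
    _ ≤ (f n * n ^ (s * C * n)) * n ^ n := Nat.mul_le_mul h2 (Nat.factorial_le_pow n)
    _ = f n * n ^ ((s * C + 1) * n) := by
        rw [mul_assoc, ← pow_add]
        congr 2
        ring

end arith

theorem card_matgrp (q n : ℕ) [NeZero q] :
    Nat.card (MatGrp q n) = q ^ (n * n) * n.factorial := by
  rw [Nat.card_congr SemidirectProduct.equivProd, Nat.card_prod, card_mat,
    Nat.card_eq_fintype_card, Fintype.card_perm, Fintype.card_fin]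

/-- the principal block -/
theorem principal_block {F : Type} [Field F] (G : Type) [Group G] [Fintype G] :
    IsBlock (fun f : G → F => ∑ g, f g) := by
  refine ⟨fun f g _ _ => Finset.sum_add_distrib, fun a f _ => ?_, ?_, fun f g _ _ => ?_⟩
  · simp only [Pi.smul_apply, smul_eq_mul]
    exact (Finset.mul_sum _ _ _).symm
  · rw [Finset.sum_eq_single (1 : G)]
    · exact Pi.single_eq_same _ _
    · intro b _ hb
      exact Pi.single_eq_of_ne hb _
    · intro h
      exact absurd (Finset.mem_univ _) h
  · unfold conv
    simp_rw [finsum_eq_sum_of_fintype]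
    rw [Finset.sum_comm, Finset.sum_mul]
    refine Finset.sum_congr rfl fun y _ => ?_
    rw [← Finset.mul_sum]
    congr 1
    exact Fintype.sum_equiv (Equiv.mulLeft y⁻¹) _ _ fun x => rfl

theorem blocks_pos {F : Type} [Field F] (G : Type) [Group G] [Finite G] :
    0 < (BlocksWith (F := F) G fun _ => True).ncard := by
  have : Fintype G := Fintype.ofFinite G
  rw [Set.ncard_pos (blocks_card _).1]
  exact ⟨fun f => ∑ g, f.1 g, fun f => ∑ g, f g, principal_block G, trivial, fun _ => rfl⟩

/-- **Density.** -/
theorem bawc_iff_dens {p : ℕ} [Fact p.Prime] {F : Type} [Field F] [IsAlgClosed F] [CharP F p]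
    (red : integralClosure ℤ ℂ →+* F) {q : ℕ} (hq : 2 ≤ q) (hpq : ¬ p ∣ q) :
    (∀ (G : Type) [Group G] [Finite G], BAWC p red G) ↔
      ∀ C : ℕ, ∃ᶠ n : ℕ in atTop,
        (BlocksWith (F := F) (MatGrp q n) fun B => numIrrBlock B ≠ numWts p red B).ncard *
          n ^ (C * n) < (BlocksWith (F := F) (MatGrp q n) fun _ => True).ncard := by
  have : NeZero q := ⟨by omega⟩
  constructor
  · intro h C
    refine Frequently.of_forall fun n => ?_
    have h1 : (BlocksWith (F := F) (MatGrp q n) fun B => numIrrBlock B ≠ numWts p red B) = ∅ := by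
      ext β
      simp only [Set.mem_empty_iff_false, iff_false]
      rintro ⟨B, hB, h2, -⟩
      exact h2 (h (MatGrp q n) B hB)
    rw [h1, Set.ncard_empty, zero_mul]
    exact blocks_pos _
  · intro h G _ _ B hB
    change numIrrBlock B = numWts p red B
    by_contra hne
    obtain ⟨C, n₀, h1⟩ := occ_mat (p := p) red hq hpq G
    have h2 : ∀ n, n₀ ≤ n → q ^ (n * n - C * n * Nat.log 2 n) ≤
        (BlocksWith (F := F) (MatGrp q n) fun B => numIrrBlock B ≠ numWts p red B).ncard := by
      intro n hn
      have h3 := encard_congr_of (S' := BlocksWith (F := F) (MatGrp q n)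
        fun B => numIrrBlock B ≠ numWts p red B) (by
          rintro β ⟨B', h2, ⟨h3, h4⟩, h5⟩
          exact ⟨B', h2, by change numIrrBlock B' ≠ numWts p red B'; rw [h3, h4]; exact hne, h5⟩)
        (h1 n hn B hB)
      rw [← (blocks_card _).1.cast_ncard_eq] at h3
      exact_mod_cast h3
    obtain ⟨C', h3⟩ := dens_nat hq
      (b := fun n => (BlocksWith (F := F) (MatGrp q n) fun _ => True).ncard)
      (fun n => (blocks_card _).2.trans (card_matgrp q n).le) h2
    obtain ⟨n, hn, h4, h5⟩ := ((h C').and_eventually ((eventually_ge_atTop n₀).and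
      (eventually_gt_atTop 0))).exists
    exact absurd (h3 n h4 h5) (not_le_of_gt hn)

end Run7.h45
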