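import Pool.Agent.Run7.h45.Rep

/-!
# Clifford theory over an abelian normal subgroup: induced representations
-/

set_option autoImplicit false

open scoped Classical BigOperators

noncomputable section

namespace Run7.h45

open Pool.Agent.Y63.NV

section ind

variable {J C M : Type} [Group J] [CommGroup C] [Group M] {D : CD J C M} {K : Type} [Field K]
  {U : Type} [AddCommGroup U] [Module K U]

/-- the stabilizer as a subgroup -/
def CD.stS (D : CD J C M) (η : C →* K) : Subgroup J where
  carrier := {y | ∀ v, η (D.c y v) = η v}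
  one_mem' := fun v => by rw [map_one, MulAut.one_apply]
  mul_mem' := fun {a b} ha hb v => D.st_mul ha hb v
  inv_mem' := fun {a} ha v => D.st_inv ha v

/-- the induced module: functions on `J` -/
def CD.indS (D : CD J C M) (η : C →* K) (σ : Representation K M U) : Submodule K (J → U) where
  carrier := {f | ∀ v m y, f (D.i v * D.j m * y) = η v • σ m (f y)}
  zero_mem' := fun v m y => by rw [Pi.zero_apply, Pi.zero_apply, map_zero, smul_zero]
  add_mem' := fun {a b} ha hb v m y => by
    rw [Pi.add_apply, Pi.add_apply, ha, hb, map_add, smul_add]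
  smul_mem' := fun c a ha v m y => by
    rw [Pi.smul_apply, Pi.smul_apply, ha, map_smul, smul_comm]

/-- the induced representation -/
def CD.indR (D : CD J C M) (η : C →* K) (σ : Representation K M U) :
    Representation K J (D.indS η σ) where
  toFun x :=
    { toFun := fun f => ⟨fun y => f.1 (y * x), fun v m y => by
        have h := f.2 v m (y * x)
        rw [← mul_assoc] at h
        exact h⟩
      map_add' := fun f g => rfl
      map_smul' := fun c f => rfl }
  map_one' := by
    ext f y
    change f.1 (y * 1) = f.1 y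
    rw [mul_one]
  map_mul' a b := by
    ext f y
    change f.1 (y * (a * b)) = f.1 (y * a * b)
    rw [mul_assoc]

theorem CD.indR_apply (η : C →* K) (σ : Representation K M U) (x : J) (f : D.indS η σ) (y : J) :
    (D.indR η σ x f).1 y = f.1 (y * x) := rfl

/-- the function supported on the stabilizer with value `u` at `1` -/
def CD.fu (D : CD J C M) (η : C →* K) (σ : Representation K M U) (u : U) (y : J) : U :=
  if h : ∃ s : C × M, y = D.i s.1 * D.j s.2 then η h.choose.1 • σ h.choose.2 u else 0

theorem CD.fu_st (η : C →* K) (σ : Representation K M U) (u : U) (v : C) (m : M) :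
    D.fu η σ u (D.i v * D.j m) = η v • σ m u := by
  have h : ∃ s : C × M, D.i v * D.j m = D.i s.1 * D.j s.2 := ⟨(v, m), rfl⟩
  unfold CD.fu
  rw [dif_pos h]
  obtain ⟨h1, h2⟩ := D.ij_inj h.choose_spec
  rw [← h1, ← h2]

theorem CD.fu_out (η : C →* K) (σ : Representation K M U) (u : U) {y : J}
    (h : ¬ ∃ v m, y = D.i v * D.j m) : D.fu η σ u y = 0 := by
  unfold CD.fu
  rw [dif_neg]
  rintro ⟨s, hs⟩
  exact h ⟨s.1, s.2, hs⟩

theorem CD.ij_mul (v v' : C) (m m' : M) :
    D.i v * D.j m * (D.i v' * D.j m') = D.i (v * D.c (D.j m) v') * D.j (m * m') := by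
  rw [map_mul, map_mul, D.hc]
  group

theorem CD.fu_mem {η : C →* K} (hS : D.Stab η) (σ : Representation K M U) (u : U) :
    D.fu η σ u ∈ D.indS η σ := by
  intro v m y
  by_cases hy : ∃ v m, y = D.i v * D.j m
  · obtain ⟨v', m', rfl⟩ := hy
    rw [D.ij_mul, D.fu_st, D.fu_st, map_mul, map_mul, D.st_j hS, map_smul, smul_smul]
    rfl
  · rw [D.fu_out η σ u hy, D.fu_out, map_zero, smul_zero]
    rintro ⟨v', m', h⟩
    apply hy
    refine ⟨D.c (D.j m⁻¹) (v⁻¹ * v'), m⁻¹ * m', ?_⟩
    rw [D.hc, map_mul, map_mul, map_inv, map_inv]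
    have h1 : y = (D.i v * D.j m)⁻¹ * (D.i v' * D.j m') := by
      rw [← h]; group
    rw [h1]
    group

variable [Fintype C]

/-- elements of the isotypic part of the induced module -/
theorem CD.iso_fu {η : C →* K} (hS : D.Stab η) (σ : Representation K M U)
    {f : D.indS η σ} (hf : f ∈ D.isoS η (D.indR η σ)) :
    f = ⟨D.fu η σ (f.1 1), D.fu_mem hS σ _⟩ := by
  apply Subtype.ext
  funext y
  change f.1 y = D.fu η σ (f.1 1) y
  by_cases hy : ∃ v m, y = D.i v * D.j m
  · obtain ⟨v, m, rfl⟩ := hy
    rw [D.fu_st]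
    have h1 := f.2 v m 1
    rwa [mul_one] at h1
  · rw [D.fu_out η σ _ hy]
    rw [← hS y] at hy
    push Not at hy
    obtain ⟨v, hv⟩ := hy
    have h1 : f.1 (y * D.i v) = η v • f.1 y := by
      have h2 := congrArg (fun g => g.1 y) (hf v)
      exact h2
    have h2 : f.1 (y * D.i v) = η (D.c y v) • f.1 y := by
      have h3 := f.2 (D.c y v) 1 y
      rw [map_one, mul_one, map_one, Module.End.one_apply, ← D.mul_i] at h3
      exact h3
    have h3 : (η (D.c y v) - η v) • f.1 y = 0 := by rw [sub_smul, ← h2, h1, sub_self]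
    rcases smul_eq_zero.mp h3 with h4 | h4
    · exact absurd (sub_eq_zero.mp h4) hv
    · exact h4

theorem CD.fu_iso {η : C →* K} (hS : D.Stab η) (σ : Representation K M U) (u : U) :
    (⟨D.fu η σ u, D.fu_mem hS σ u⟩ : D.indS η σ) ∈ D.isoS η (D.indR η σ) := by
  intro v
  apply Subtype.ext
  funext y
  change D.fu η σ u (y * D.i v) = η v • D.fu η σ u y
  by_cases hy : ∃ v m, y = D.i v * D.j m
  · obtain ⟨w, m, rfl⟩ := hy
    have h1 : D.i w * D.j m * D.i v = D.i (D.c (D.j m) v * w) * D.j m := by
      rw [mul_comm (D.c (D.j m) v) w, map_mul, D.hc]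
      group
    rw [h1, D.fu_st, D.fu_st, map_mul, D.st_j hS, mul_smul]
  · rw [D.fu_out η σ u hy, D.fu_out, smul_zero]
    rintro ⟨w, m, h⟩
    apply hy
    refine ⟨(D.c (D.j m) v)⁻¹ * w, m, ?_⟩
    rw [mul_comm, map_mul, map_inv, D.hc]
    have h1 : y = D.i w * D.j m * (D.i v)⁻¹ := by rw [← h]; group
    rw [h1]
    group

/-- the isotypic part of the induced module -/
def CD.indE {η : C →* K} (hS : D.Stab η) (σ : Representation K M U) :
    U ≃ₗ[K] D.isoS η (D.indR η σ) where
  toFun u := ⟨⟨D.fu η σ u, D.fu_mem hS σ u⟩, D.fu_iso hS σ u⟩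
  map_add' a b := by
    apply Subtype.ext
    apply Subtype.ext
    funext y
    change D.fu η σ (a + b) y = D.fu η σ a y + D.fu η σ b y
    unfold CD.fu
    split_ifs
    · rw [map_add, smul_add]
    · rw [add_zero]
  map_smul' c a := by
    apply Subtype.ext
    apply Subtype.ext
    funext y
    change D.fu η σ (c • a) y = c • D.fu η σ a y
    unfold CD.fu
    split_ifs
    · rw [map_smul, smul_comm]
    · rw [smul_zero]
  invFun f := f.1.1 1
  left_inv u := by
    change D.fu η σ u 1 = u
    have h1 := D.fu_st η σ u 1 1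
    rwa [map_one, map_one, mul_one, map_one, map_one, one_smul] at h1
  right_inv f := by
    apply Subtype.ext
    exact (D.iso_fu hS σ f.2).symm

theorem CD.indE_act {η : C →* K} (hS : D.Stab η) (σ : Representation K M U) (m : M) (u : U) :
    D.isoR hS (D.indR η σ) m (D.indE hS σ u) = D.indE hS σ (σ m u) := by
  apply (D.indE hS σ).symm.injective
  rw [LinearEquiv.symm_apply_apply]
  change D.fu η σ u (1 * D.j m) = σ m u
  have h1 := D.fu_st η σ u 1 m
  rwa [map_one, map_one, one_smul] at h1

theorem CD.ind_char [FiniteDimensional K U] {η : C →* K} (hS : D.Stab η)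
    (σ : Representation K M U) (m : M) :
    LinearMap.trace K _ (D.isoR hS (D.indR η σ) m) = σ.character m := by
  have h1 : D.isoR hS (D.indR η σ) m = (D.indE hS σ).conj (σ m) := by
    ext f
    rw [LinearEquiv.conj_apply_apply, ← D.indE_act, LinearEquiv.apply_symm_apply]
  unfold Representation.character
  rw [h1]
  exact LinearMap.trace_conj' (N := D.isoS η (D.indR η σ)) (σ m) (D.indE hS σ)

/-- the induced representation is irreducible -/
theorem CD.indR_irr [Finite J] (hC : (Fintype.card C : K) ≠ 0) {η : C →* K} (hS : D.Stab η)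
    {σ : Representation K M U} (hσ : σ.IsIrreducible) : (D.indR η σ).IsIrreducible := by
  refine irr_of _ ?_ ?_
  · obtain ⟨u, hu⟩ := irr_ne hσ
    refine ⟨((D.indE hS σ u : D.isoS η (D.indR η σ)) : D.indS η σ), fun h => hu ?_⟩
    have h1 : D.indE hS σ u = 0 := Subtype.ext h
    exact (LinearEquiv.map_eq_zero_iff _).mp h1
  · intro X hX hX0
    -- the vectors `u` such that `fu u ∈ X`
    let Y : Submodule K U := X.comap ((D.isoS η (D.indR η σ)).subtype ∘ₗ (D.indE hS σ).toLinearMap)
    have hY : ∀ u, u ∈ Y := by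
      refine irr_use hσ Y (fun m u hu => ?_) ?_
      · change ((D.indE hS σ (σ m u) : D.isoS η (D.indR η σ)) : D.indS η σ) ∈ X
        rw [← D.indE_act]
        exact hX _ _ hu
      · obtain ⟨f, hf, hf0⟩ := hX0
        obtain ⟨y, hy⟩ : ∃ y, f.1 y ≠ 0 := by
          by_contra hcon
          push Not at hcon
          exact hf0 (Subtype.ext (funext hcon))
        refine ⟨f.1 y, ?_, hy⟩
        -- translate and project
        let g : D.indS η σ := D.indR η σ y f
        have hg : g ∈ X := hX y f hf
        have h1 : D.prj η (D.indR η σ) g ∈ X := by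
          unfold CD.prj
          rw [LinearMap.smul_apply, LinearMap.sum_apply]
          refine Submodule.smul_mem _ _ (Submodule.sum_mem _ fun v _ => ?_)
          rw [LinearMap.smul_apply]
          exact Submodule.smul_mem _ _ (hX _ _ hg)
        have h2 := D.iso_fu hS σ (D.prj_mem η (D.indR η σ) g)
        have h3 : (D.prj η (D.indR η σ) g).1 1 = f.1 y := by
          unfold CD.prj
          rw [LinearMap.smul_apply, LinearMap.sum_apply]
          have h4 : ∀ v, ((η v⁻¹ • D.indR η σ (D.i v)) g).1 1 = f.1 y := by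
            intro v
            rw [LinearMap.smul_apply]
            change η v⁻¹ • f.1 (1 * D.i v * y) = f.1 y
            have h5 := f.2 v 1 y
            rw [map_one, mul_one, map_one, Module.End.one_apply] at h5
            rw [one_mul, h5, smul_smul, ← map_mul, inv_mul_cancel, map_one, one_smul]
          have h6 : (∑ v, (η v⁻¹ • D.indR η σ (D.i v)) g).1 1 = (Fintype.card C : K) • f.1 y := by
            rw [AddSubmonoidClass.coe_finsetSum, Finset.sum_apply,
              Finset.sum_congr rfl fun v _ => h4 v, Finset.sum_const, Finset.card_univ,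
              Nat.cast_smul_eq_nsmul K]
          change (Fintype.card C : K)⁻¹ • (∑ v, (η v⁻¹ • D.indR η σ (D.i v)) g).1 1 = f.1 y
          rw [h6, smul_smul, inv_mul_cancel₀ hC, one_smul]
        rw [h3] at h2
        change (⟨D.fu η σ (f.1 y), D.fu_mem hS σ _⟩ : D.indS η σ) ∈ X
        rw [← h2]
        exact h1
    intro f
    -- decompose `f` over the cosets
    have hfq : Fintype (Quotient (QuotientGroup.rightRel (D.stS η))) :=
      Fintype.ofFinite _
    have hdec : f = ∑ q : Quotient (QuotientGroup.rightRel (D.stS η)),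
        D.indR η σ q.out⁻¹ ((D.indE hS σ (f.1 q.out) : D.isoS η (D.indR η σ)) : D.indS η σ) := by
      apply Subtype.ext
      funext y
      rw [AddSubmonoidClass.coe_finsetSum, Finset.sum_apply]
      have hout : ∀ q : Quotient (QuotientGroup.rightRel (D.stS η)),
          (∃ v m, y * q.out⁻¹ = D.i v * D.j m) ↔ q = Quotient.mk _ y := by
        intro q
        rw [← hS]
        have h1 : (QuotientGroup.rightRel (D.stS η)) q.out y ↔ y * q.out⁻¹ ∈ D.stS η :=
          QuotientGroup.rightRel_apply
        have h2 : (∀ v, η (D.c (y * q.out⁻¹) v) = η v) ↔ y * q.out⁻¹ ∈ D.stS η := Iff.rfl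
        rw [h2, ← h1, ← Quotient.eq (r := QuotientGroup.rightRel (D.stS η)), Quotient.out_eq]
      rw [Finset.sum_eq_single (Quotient.mk _ y)]
      · obtain ⟨v, m, h1⟩ := (hout (Quotient.mk _ y)).2 rfl
        set x : J := (Quotient.mk (QuotientGroup.rightRel (D.stS η)) y).out with hx
        change f.1 y = D.fu η σ (f.1 x) (y * x⁻¹)
        rw [h1, D.fu_st, ← f.2, ← h1]
        group
      · intro q _ hq
        exact D.fu_out η σ _ fun h => hq ((hout q).1 h)
      · intro h
        exact absurd (Finset.mem_univ _) h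
    rw [hdec]
    exact Submodule.sum_mem _ fun q _ => hX _ _ (hY _)

end ind

section corr

variable {J C M : Type} [Group J] [CommGroup C] [Group M] {D : CD J C M} {K : Type} [Field K]
  [Fintype C] [Finite J]

/-- every irreducible trace of `M` is the isotypic part of one of `J` -/
theorem CD.T_surj (hC : (Fintype.card C : K) ≠ 0) {η : C →* K} (hS : D.Stab η) {ψ : M → K}
    (hψ : IsIrrTrace ψ) : ∃ φ : J → K, IsIrrTrace φ ∧ D.T η φ = ψ := by
  obtain ⟨U, _, _, _, σ, hσ, rfl⟩ := hψ
  have hfd : FiniteDimensional K (J → U) := inferInstance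
  refine ⟨(D.indR η σ).character, ⟨D.indS η σ, inferInstance, inferInstance, inferInstance,
    D.indR η σ, D.indR_irr hC hS hσ, rfl⟩, ?_⟩
  funext m
  rw [← D.ind_char hS σ m]
  exact (D.isoR_char hC hS (D.indR η σ) m).symm

end corr

end Run7.h45
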