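import Pool.Agent.Run7.h45.Orb2

/-!
# Every weight of the block comes from `G`
-/

set_option autoImplicit false
set_option linter.unusedSectionVars false

open scoped Classical BigOperators

noncomputable section

namespace Run7.h45

open Pool.Agent.Y63.NV Pool.Agent.N85.WM
open Pool.Agent.Y63.AWC (IsIrreducibleCharacter)
open Pool.Agent.Y930.NV (Cf om irr_one_ne irr_Cf)

variable {Γ V G : Type} [Group Γ] [CommGroup V] [Group G] {D : CD Γ V G}
  [Finite Γ] [Fintype V] {P : Subgroup Γ}

/-- extension by zero of a function on `V` -/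
def CD.xV (D : CD Γ V G) {K : Type} [Field K] (f : V → K) (y : Γ) : K :=
  if h : ∃ u, y = D.i u then f h.choose else 0

theorem CD.xV_i {K : Type} [Field K] (f : V → K) (u : V) : D.xV f (D.i u) = f u := by
  have h : ∃ w, D.i u = D.i w := ⟨u, rfl⟩
  unfold CD.xV
  rw [dif_pos h, ← D.i_inj h.choose_spec]

theorem CD.xV_out {K : Type} [Field K] (f : V → K) {y : Γ} (h : ¬ ∃ u, y = D.i u) :
    D.xV f y = 0 := by
  unfold CD.xV
  rw [dif_neg h]

theorem CD.xV_class {K : Type} [Field K] {f : V → K} (hf : ∀ y u, f (D.c y u) = f u) :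
    IsClassFun (D.xV f) := by
  intro g y
  by_cases hy : ∃ u, y = D.i u
  · obtain ⟨u, rfl⟩ := hy
    rw [← D.hc, D.xV_i, D.xV_i, hf]
  · rw [D.xV_out f hy, D.xV_out]
    rintro ⟨u, hu⟩
    apply hy
    refine ⟨D.c g⁻¹ u, ?_⟩
    rw [D.hc, ← hu]
    group

/-- a `p`-subgroup of the stabilizer is conjugate to a subgroup of `G` -/
theorem CD.sylow {p : ℕ} [Fact p.Prime] (hV : ¬ p ∣ Nat.card V) (hPp : IsPGroup p P)
    {θ : V →* ℂ} (hS : D.Stab θ) {y : Γ} (hy : ∀ u ∈ P, ∀ v, θ (D.c (y * u * y⁻¹) v) = θ v) :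
    ∃ v : V, ∃ Q : Subgroup G, P = Q.map (D.cj (y⁻¹ * D.i v)).j := by
  have : Fintype P := Fintype.ofFinite P
  have hex : ∀ u : P, ∃ s : V × G, y * u * y⁻¹ = D.i s.1 * D.j s.2 := by
    intro u
    obtain ⟨v, m, h⟩ := (hS _).1 (hy u u.2)
    exact ⟨(v, m), h⟩
  choose s hs using hex
  let a : P →* MulAut V := (D.c.comp (MulAut.conj y).toMonoidHom).comp P.subtype
  have ha : ∀ u : P, ∀ v, a u v = D.c (D.j (s u).2) v := by
    intro u v
    change D.c (y * u * y⁻¹) v = _
    rw [hs u, map_mul, MulAut.mul_apply, D.c_i]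
  have hco : ∀ u w : P, (s (u * w)).1 = (s u).1 * a u (s w).1 := by
    intro u w
    have h1 : D.i (s (u * w)).1 * D.j (s (u * w)).2 =
        D.i ((s u).1 * a u (s w).1) * D.j ((s u).2 * (s w).2) := by
      rw [ha, ← hs (u * w)]
      have h2 : y * ((u * w : P) : Γ) * y⁻¹ = (y * u * y⁻¹) * (y * w * y⁻¹) := by
        rw [Subgroup.coe_mul]; group
      rw [h2, hs u, hs w, D.ij_mul]
    exact (D.ij_inj h1).1
  obtain ⟨v, hv⟩ := cocycle (coprime_pg hV hPp) a (fun u => (s u).1) hco
  have hj : ∀ u : P, (u : Γ) = (D.cj (y⁻¹ * D.i v)).j (s u).2 := by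
    intro u
    have h1 : D.i v⁻¹ * (y * u * y⁻¹) * D.i v = D.j (s u).2 := by
      rw [hs u, hv u, ha, map_mul, map_inv, map_inv, D.hc]
      group
    rw [D.cj_j, ← h1, map_inv]
    group
  refine ⟨v, P.comap (D.cj (y⁻¹ * D.i v)).j, ?_⟩
  apply le_antisymm
  · intro u hu
    refine ⟨(s ⟨u, hu⟩).2, ?_, (hj ⟨u, hu⟩).symm⟩
    change (D.cj (y⁻¹ * D.i v)).j (s ⟨u, hu⟩).2 ∈ P
    rw [← hj ⟨u, hu⟩]
    exact hu
  · rintro _ ⟨q, hq, rfl⟩
    exact hq

/-- every weight in the block lies over a conjugate of `θ` -/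
theorem CD.exist {p : ℕ} [Fact p.Prime] {F : Type} [Field F] [CharP F p]
    (red : integralClosure ℤ ℂ →+* F) (hV : ¬ p ∣ Nat.card V) (hPp : IsPGroup p P)
    {θ : V →* ℂ} (hS : D.Stab θ) {χ : Subgroup.normalizer (P : Set Γ) → ℂ}
    (hχ : IsWt p (P.subgroupOf (Subgroup.normalizer (P : Set Γ))) χ)
    (hB : ∀ f : V → F, (∀ y u, f (D.c y u) = f u) →
      centralValue red χ (fun y => D.xV f y) = ∑ v, f v * redH red θ v) :
    ∃ (x : Γ) (Q : Subgroup G) (hP : P = Q.map (D.cj x).j), D.TT θ x Q P hP χ ≠ 0 := by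
  have hVF : (Fintype.card V : F) ≠ 0 := by
    rw [← Nat.card_eq_fintype_card]
    intro h
    exact hV ((CharP.cast_eq_zero_iff F p _).mp h)
  have : Fintype P := Fintype.ofFinite P
  have : Fintype (Subgroup.normalizer (P : Set Γ)) := Fintype.ofFinite _
  obtain ⟨η, hη⟩ := dual_complete (fun u : D.cP P => χ (D.iP P u)) (by
    rw [map_one]; exact irr_one_ne hχ.irr)
  have hη' : D.S P χ η ≠ 0 := hη
  let a : P →* MulAut V := D.c.comp P.subtype
  have hfx : Fx a = D.cP P := by
    ext v
    constructor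
    · intro h u hu
      exact h ⟨u, hu⟩
    · intro h u
      exact h u.1 u.2
  obtain ⟨θ', h1, h2⟩ := hom_extend (coprime_pg hV hPp) a
    (η.comp (Subgroup.inclusion hfx.le))
  have h2' : ∀ u : D.cP P, θ' u = η u := by
    intro u
    rw [h2 u (by rw [hfx]; exact u.2)]
    rfl
  -- compare with `θ`
  have h3 : ∀ f : V → F, (∀ y u, f (D.c y u) = f u) →
      ∑ v, f v * redH red θ' v = ∑ v, f v * redH red θ v := by
    intro f hf
    rw [← hB f hf]
    have hn : (P.subgroupOf (Subgroup.normalizer (P : Set Γ))).Normal :=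
      Subgroup.normal_in_normalizer
    have hpg : IsPGroup p (P.subgroupOf (Subgroup.normalizer (P : Set Γ))) := hPp.comap_subtype
    have hzc : IsClassFun (fun y : Subgroup.normalizer (P : Set Γ) => D.xV f y) :=
      fun g x => D.xV_class hf g x
    have hmem : ∀ y : Subgroup.normalizer (P : Set Γ),
        y ∈ Subgroup.centralizer ((P.subgroupOf (Subgroup.normalizer (P : Set Γ)) :
          Subgroup (Subgroup.normalizer (P : Set Γ))) : Set (Subgroup.normalizer (P : Set Γ))) ↔
          ∀ u ∈ P, u * (y : Γ) = y * u := by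
      intro y
      rw [Subgroup.mem_centralizer_iff]
      constructor
      · intro h u hu
        exact congrArg Subtype.val (h ⟨u, Subgroup.le_normalizer hu⟩ hu)
      · intro h u hu
        exact Subtype.ext (h u hu)
    have hcc : IsClassFun (cut (fun y : Subgroup.normalizer (P : Set Γ) => D.xV f y)
        (Subgroup.centralizer ((P.subgroupOf (Subgroup.normalizer (P : Set Γ)) :
          Subgroup (Subgroup.normalizer (P : Set Γ))) :
            Set (Subgroup.normalizer (P : Set Γ))))) := by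
      intro g x
      unfold cut
      have e : g * x * g⁻¹ ∈ Subgroup.centralizer ((P.subgroupOf (Subgroup.normalizer (P : Set Γ)) :
          Subgroup (Subgroup.normalizer (P : Set Γ))) :
            Set (Subgroup.normalizer (P : Set Γ))) ↔
          x ∈ Subgroup.centralizer ((P.subgroupOf (Subgroup.normalizer (P : Set Γ)) :
          Subgroup (Subgroup.normalizer (P : Set Γ))) :
            Set (Subgroup.normalizer (P : Set Γ))) := by
        rw [hmem, hmem]
        have hg := Subgroup.mem_normalizer_iff.mp g.2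
        constructor
        · intro h u hu
          have h4 := h _ ((hg u).1 hu)
          have e1 : (g : Γ) * u * (g : Γ)⁻¹ * ((g * x * g⁻¹ : Subgroup.normalizer (P : Set Γ)) : Γ) =
              g * (u * x) * (g : Γ)⁻¹ := by
            simp only [Subgroup.coe_mul, Subgroup.coe_inv]; group
          have e2 : ((g * x * g⁻¹ : Subgroup.normalizer (P : Set Γ)) : Γ) * ((g : Γ) * u * (g : Γ)⁻¹) =
              g * (x * u) * (g : Γ)⁻¹ := by
            simp only [Subgroup.coe_mul, Subgroup.coe_inv]; group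
          rw [e1, e2] at h4
          exact mul_left_cancel (mul_right_cancel h4)
        · intro h u hu
          have h4 := h _ (norm_conj_mem g.2 hu)
          simp only [Subgroup.coe_mul, Subgroup.coe_inv]
          have e1 : u * ((g : Γ) * x * (g : Γ)⁻¹) = g * ((g : Γ)⁻¹ * u * g * x) * (g : Γ)⁻¹ := by
            group
          have e2 : (g : Γ) * x * (g : Γ)⁻¹ * u = g * (x * ((g : Γ)⁻¹ * u * g)) * (g : Γ)⁻¹ := by
            group
          rw [e1, e2, h4]
      simp only [e]
      split_ifs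
      · exact hzc g x
      · rfl
    rw [← cutw' p F red _ _ (fun y : Subgroup.normalizer (P : Set Γ) => D.xV f y) χ hn hpg hzc hχ,
      D.cv_S red hχ.irr hη' hcc]
    · have e1 : ∀ u : D.cP P, cut (fun y : Subgroup.normalizer (P : Set Γ) => D.xV f y)
          (Subgroup.centralizer ((P.subgroupOf (Subgroup.normalizer (P : Set Γ)) :
          Subgroup (Subgroup.normalizer (P : Set Γ))) :
            Set (Subgroup.normalizer (P : Set Γ)))) (D.iP P u) * redH red η u =
          f u * redH red θ' u := by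
        intro u
        have e2 : redH red η u = redH red θ' u := by
          change redC red (η u) = redC red (θ' u)
          rw [h2']
        rw [e2]
        congr 1
        unfold cut
        rw [if_pos]
        · exact D.xV_i f u
        · rw [hmem]
          intro w hw
          exact D.c_eq_iff.1 (u.2 w hw)
      rw [Finset.sum_congr rfl fun u _ => e1 u]
      let _ : MulAction P V := MulAction.compHom V a
      have hact : ∀ (q : P) (v : V), q • v = D.c q v := fun q v => rfl
      rw [B930.sum_fixed (p := p) (Q := P) (Y := V) hPp (fun v => f v * redH red θ' v) (by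
        intro q v
        rw [hact, hf]
        congr 1
        exact congrArg (redC red) (h1 q v))]
      refine (Finset.sum_subtype _ (fun v => ?_) _)
      rw [B930.mem_fx]
      constructor
      · intro h q hq
        exact h ⟨q, hq⟩
      · intro h q
        exact h q.1 q.2
    · intro y hy
      unfold cut
      by_cases h4 : y ∈ Subgroup.centralizer ((P.subgroupOf (Subgroup.normalizer (P : Set Γ)) :
          Subgroup (Subgroup.normalizer (P : Set Γ))) : Set (Subgroup.normalizer (P : Set Γ)))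
      · rw [if_pos h4]
        refine D.xV_out f ?_
        rintro ⟨v, hv⟩
        apply hy
        rw [hmem] at h4
        refine ⟨⟨v, fun u hu => ?_⟩, Subtype.ext hv⟩
        rw [D.c_eq_iff, ← hv]
        exact h4 u hu
      · rw [if_neg h4]
  obtain ⟨y, hy⟩ := sep hVF D.c (redH red θ) (redH red θ') h3
  have h4 : ∀ v, θ' v = θ (D.c y v) := fun v => redH_inj red hV (hy v)
  have h5 : ∀ u ∈ P, ∀ v, θ (D.c (y * u * y⁻¹) v) = θ v := by
    intro u hu v
    have h6 := h1 ⟨u, hu⟩ (D.c y⁻¹ v)
    change θ' (D.c u (D.c y⁻¹ v)) = θ' (D.c y⁻¹ v) at h6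
    rw [h4, h4] at h6
    rw [map_mul, map_mul, MulAut.mul_apply, MulAut.mul_apply, h6, ← MulAut.mul_apply, ← map_mul,
      mul_inv_cancel, map_one, MulAut.one_apply]
  obtain ⟨v, Q, hQ⟩ := D.sylow hV hPp hS h5
  refine ⟨y⁻¹ * D.i v, Q, hQ, ?_⟩
  rw [D.TT_ne_iff hV hPp hS hχ.irr]
  have h6 : D.et θ (y⁻¹ * D.i v) P = η := by
    ext u
    rw [D.et_apply, ← h2' u, h4]
    congr 1
    have h7 : (y⁻¹ * D.i v)⁻¹ = D.i v⁻¹ * y := by rw [map_inv]; group
    rw [h7, map_mul, MulAut.mul_apply, D.c_i]
  rw [h6]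
  exact hη'

end Run7.h45
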