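import Pool.Agent.Y63.KR.Basic

/-!
# Alternating sums over normal chains of `p`-subgroups
-/

set_option autoImplicit false
set_option linter.unusedSectionVars false

open scoped Classical BigOperators

noncomputable section

namespace Run7.h45

open Pool.Agent.Y63.KR

section nch

variable {G : Type} [Group G]

/-- the members of the chain are normal in its largest member -/
def Nch (σ : Set (Subgroup G)) : Prop := ∀ P ∈ σ, P ≤ chainStabilizer σ

theorem conjSub_of_mem {x : G} {P : Subgroup G} (h : x ∈ P) : conjSub x P = P :=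
  conjSub_eq_iff.2 (Subgroup.le_normalizer h)

theorem conjSub_inf (x : G) (P Q : Subgroup G) : conjSub x (P ⊓ Q) = conjSub x P ⊓ conjSub x Q := by
  ext y
  rw [mem_conjSub, Subgroup.mem_inf, Subgroup.mem_inf, mem_conjSub, mem_conjSub]

theorem conjSub_image_mul (g h : G) (σ : Set (Subgroup G)) :
    conjSub (g * h) '' σ = conjSub g '' (conjSub h '' σ) := by
  rw [← Set.image_comp]
  congr 1
  exact funext fun P => conjSub_mul g h P

theorem conjSub_image_one (σ : Set (Subgroup G)) : conjSub (1 : G) '' σ = σ := by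
  have : (conjSub (1 : G)) = id := funext conjSub_one
  rw [this, Set.image_id]

theorem conjSub_le_iff {g : G} {P Q : Subgroup G} : conjSub g P ≤ conjSub g Q ↔ P ≤ Q := by
  refine ⟨fun h => ?_, conjSub_le⟩
  have h1 := conjSub_le (g := g⁻¹) h
  rwa [conjSub_inv_conjSub, conjSub_inv_conjSub] at h1

theorem Nch_conj {σ : Set (Subgroup G)} (g : G) : Nch (conjSub g '' σ) ↔ Nch σ := by
  unfold Nch
  rw [chainStabilizer_conj]
  constructor
  · intro h P hP
    exact conjSub_le_iff.1 (h _ ⟨P, hP, rfl⟩)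
  · rintro h _ ⟨P, hP, rfl⟩
    exact conjSub_le (h P hP)

/-- the least member which is not normal in the chain -/
def IsVio (σ : Set (Subgroup G)) (P : Subgroup G) : Prop :=
  P ∈ σ ∧ ¬ P ≤ chainStabilizer σ ∧ ∀ Q ∈ σ, ¬ Q ≤ chainStabilizer σ → P ≤ Q

theorem IsVio.unique {σ : Set (Subgroup G)} {P P' : Subgroup G} (h : IsVio σ P) (h' : IsVio σ P') :
    P = P' := le_antisymm (h.2.2 _ h'.1 h'.2.1) (h'.2.2 _ h.1 h.2.1)

def vio (σ : Set (Subgroup G)) : Subgroup G := if h : ∃ P, IsVio σ P then h.choose else ⊥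

theorem vio_eq {σ : Set (Subgroup G)} {P : Subgroup G} (h : IsVio σ P) : vio σ = P := by
  have h1 : ∃ P, IsVio σ P := ⟨P, h⟩
  unfold vio
  rw [dif_pos h1]
  exact h1.choose_spec.unique h

theorem IsVio.conj {σ : Set (Subgroup G)} {P : Subgroup G} (h : IsVio σ P) (g : G) :
    IsVio (conjSub g '' σ) (conjSub g P) := by
  unfold IsVio
  rw [chainStabilizer_conj]
  refine ⟨⟨P, h.1, rfl⟩, fun h1 => h.2.1 (conjSub_le_iff.1 h1), ?_⟩
  rintro _ ⟨Q, hQ, rfl⟩ h1
  exact conjSub_le (h.2.2 Q hQ fun h2 => h1 (conjSub_le h2))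

theorem exists_vio [Finite G] {p : ℕ} {σ : Set (Subgroup G)} (hσ : IsPChain p σ) (h : ¬ Nch σ) :
    ∃ P, IsVio σ P := by
  have hne : {P ∈ σ | ¬ P ≤ chainStabilizer σ}.Nonempty := by
    unfold Nch at h
    push Not at h
    obtain ⟨P, h1, h2⟩ := h
    exact ⟨P, h1, h2⟩
  obtain ⟨M, hM⟩ := (Set.toFinite {P ∈ σ | ¬ P ≤ chainStabilizer σ}).exists_minimal hne
  refine ⟨M, hM.1.1, hM.1.2, fun Q hQ hQ' => ?_⟩
  rcases hσ.chain.total hM.1.1 hQ with h1 | h1
  · exact h1
  · exact hM.2 ⟨hQ, hQ'⟩ h1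

/-- the member to be inserted or removed -/
def rm (σ : Set (Subgroup G)) : Subgroup G := vio σ ⊓ chainStabilizer σ

def tog (σ : Set (Subgroup G)) : Set (Subgroup G) := if rm σ ∈ σ then σ \ {rm σ} else insert (rm σ) σ

theorem rm_conj [Finite G] {p : ℕ} {σ : Set (Subgroup G)} (hσ : IsPChain p σ) (h : ¬ Nch σ) (g : G) :
    rm (conjSub g '' σ) = conjSub g (rm σ) := by
  obtain ⟨P, hP⟩ := exists_vio hσ h
  unfold rm
  rw [vio_eq (hP.conj g), vio_eq hP, chainStabilizer_conj, conjSub_inf]

theorem tog_conj [Finite G] {p : ℕ} {σ : Set (Subgroup G)} (hσ : IsPChain p σ) (h : ¬ Nch σ) (g : G) :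
    tog (conjSub g '' σ) = conjSub g '' tog σ := by
  unfold tog
  rw [rm_conj hσ h g]
  by_cases h1 : rm σ ∈ σ
  · rw [if_pos h1, if_pos ⟨_, h1, rfl⟩, Set.image_sdiff (conjSub_injective g), Set.image_singleton]
  · rw [if_neg h1, if_neg, Set.image_insert_eq]
    rintro ⟨Q, hQ, hQ'⟩
    exact h1 (conjSub_injective g hQ' ▸ hQ)

theorem conj_stab {σ : Set (Subgroup G)} {x : G} (hx : x ∈ chainStabilizer σ) {P : Subgroup G}
    (hP : P ∈ σ) : conjSub x P = P := mem_chainStabilizer.1 hx P hP

/-- the normalizer condition -/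
theorem exists_norm [Finite G] {p : ℕ} [Fact p.Prime] {R R' : Subgroup G} (hR' : IsPGroup p R')
    (h : R < R') : ∃ x ∈ R', x ∉ R ∧ conjSub x R = R := by
  have hnil : Group.IsNilpotent R' := hR'.isNilpotent
  have h1 : R.subgroupOf R' < ⊤ := by
    rw [lt_top_iff_ne_top]
    intro h2
    rw [Subgroup.subgroupOf_eq_top] at h2
    exact absurd h2 (not_le_of_gt h)
  have h2 := Group.normalizerCondition_of_isNilpotent (R.subgroupOf R') h1
  obtain ⟨x, hx, hx'⟩ := SetLike.exists_of_lt h2
  refine ⟨x, x.2, fun h3 => hx' h3, ?_⟩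
  rw [conjSub_eq_iff, Subgroup.mem_normalizer_iff]
  rw [Subgroup.mem_normalizer_iff] at hx
  intro y
  constructor
  · intro hy
    exact (hx ⟨y, h.le hy⟩).1 hy
  · intro hy
    have h3 : (x : G) * y * (x : G)⁻¹ ∈ R' := h.le hy
    have h4 : y ∈ R' := by
      have h5 := R'.mul_mem (R'.mul_mem (R'.inv_mem x.2) h3) x.2
      have h6 : (x : G)⁻¹ * (x * y * (x : G)⁻¹) * x = y := by group
      rwa [h6] at h5
    exact (hx ⟨y, h4⟩).2 hy

/-- the properties of the toggled chain -/
theorem tog_spec [Finite G] {p : ℕ} [Fact p.Prime] {σ : Set (Subgroup G)} (hσ : IsPChain p σ)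
    (h : ¬ Nch σ) : IsPChain p (tog σ) ∧ chainStabilizer (tog σ) = chainStabilizer σ ∧
      ¬ Nch (tog σ) ∧ tog (tog σ) = σ ∧
      ((-1 : ℤ) ^ (tog σ).ncard = - (-1) ^ σ.ncard) := by
  obtain ⟨P, hP⟩ := exists_vio hσ h
  set S := chainStabilizer σ with hS
  obtain ⟨R, hR⟩ : ∃ R, R = P ⊓ S := ⟨_, rfl⟩
  have hrm : rm σ = R := by
    unfold rm
    rw [vio_eq hP, hR]
  have hRP : R ≤ P := hR ▸ inf_le_left
  have hRS : R ≤ S := hR ▸ inf_le_right
  have hRne : R ≠ P := by
    intro h1
    exact hP.2.1 (h1 ▸ hRS)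
  have hdich : ∀ Q ∈ σ, Q ≤ R ∨ P ≤ Q := by
    intro Q hQ
    by_cases h1 : Q ≤ S
    · rcases hσ.chain.total hQ hP.1 with h2 | h2
      · exact Or.inl (hR ▸ le_inf h2 h1)
      · exact Or.inr h2
    · exact Or.inr (hP.2.2 Q hQ h1)
  have hbot : R ≠ ⊥ := by
    obtain ⟨x, hx, hx'⟩ := SetLike.not_le_iff_exists.1 hP.2.1
    rw [mem_chainStabilizer] at hx'
    push Not at hx'
    obtain ⟨Q, hQ, hQ'⟩ := hx'
    rcases hdich Q hQ with h1 | h1
    · intro h2
      exact hσ.ne_bot Q hQ (le_bot_iff.1 (h2 ▸ h1))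
    · exact absurd (conjSub_of_mem (h1 hx)) hQ'
  have hSR : ∀ x ∈ S, conjSub x R = R := by
    intro x hx
    rw [hR, conjSub_inf, conj_stab hx hP.1, conjSub_of_mem hx]
  have hPR : P ≠ R := Ne.symm hRne
  by_cases hmem : R ∈ σ
  · have htog : tog σ = σ \ {R} := by
      unfold tog
      rw [hrm, if_pos hmem]
    have hch : IsPChain p (σ \ {R}) :=
      ⟨hσ.chain.mono Set.sdiff_subset, fun Q hQ => hσ.isPGroup Q hQ.1, fun Q hQ => hσ.ne_bot Q hQ.1⟩
    have hle : S ≤ chainStabilizer (σ \ {R}) := fun x hx =>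
      mem_chainStabilizer.2 fun Q hQ => conj_stab hx hQ.1
    have hPm : P ∈ σ \ {R} := ⟨hP.1, hPR⟩
    have hR' : P ⊓ chainStabilizer (σ \ {R}) = R := by
      by_contra hne
      have h1 : R < P ⊓ chainStabilizer (σ \ {R}) :=
        lt_of_le_of_ne (hR.le.trans (inf_le_inf_left P hle)) (Ne.symm hne)
      have h2 : IsPGroup p (P ⊓ chainStabilizer (σ \ {R}) : Subgroup G) :=
        (hσ.isPGroup P hP.1).to_le inf_le_left
      obtain ⟨x, hx, hx', hx''⟩ := exists_norm h2 h1
      apply hx'
      rw [hR]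
      refine ⟨hx.1, ?_⟩
      change x ∈ S
      rw [hS, mem_chainStabilizer]
      intro Q hQ
      by_cases h3 : Q = R
      · rw [h3, hx'']
      · exact conj_stab hx.2 ⟨hQ, h3⟩
    have hst : chainStabilizer (σ \ {R}) = S := by
      refine le_antisymm (fun x hx => ?_) hle
      rw [hS, mem_chainStabilizer]
      intro Q hQ
      by_cases h3 : Q = R
      · rw [h3]
        have h4 : conjSub x (P ⊓ chainStabilizer (σ \ {R})) = P ⊓ chainStabilizer (σ \ {R}) := by
          rw [conjSub_inf, conj_stab hx hPm, conjSub_of_mem hx]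
        rwa [hR'] at h4
      · exact conj_stab hx ⟨hQ, h3⟩
    have hvio : IsVio (σ \ {R}) P := by
      refine ⟨hPm, ?_, ?_⟩
      · rw [hst]
        exact hP.2.1
      · intro Q hQ h1
        rw [hst] at h1
        exact hP.2.2 Q hQ.1 h1
    have hrm' : rm (σ \ {R}) = R := by
      unfold rm
      rw [vio_eq hvio, hst, hR]
    rw [htog]
    refine ⟨hch, hst, fun h1 => hvio.2.1 (h1 P hPm), ?_, ?_⟩
    · unfold tog
      rw [hrm', if_neg (fun h1 => h1.2 rfl), Set.insert_sdiff_singleton, Set.insert_eq_of_mem hmem]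
    · have h1 := Set.ncard_sdiff_singleton_add_one hmem (Set.toFinite σ)
      rw [← h1, pow_succ]
      ring
  · have htog : tog σ = insert R σ := by
      unfold tog
      rw [hrm, if_neg hmem]
    have hch : IsPChain p (insert R σ) := by
      refine ⟨?_, ?_, ?_⟩
      · refine hσ.chain.insert fun Q hQ _ => ?_
        rcases hdich Q hQ with h1 | h1
        · exact Or.inr h1
        · exact Or.inl (hRP.trans h1)
      · rintro Q (rfl | hQ)
        · exact (hσ.isPGroup P hP.1).to_le hRP
        · exact hσ.isPGroup Q hQ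
      · rintro Q (rfl | hQ)
        · exact hbot
        · exact hσ.ne_bot Q hQ
    have hst : chainStabilizer (insert R σ) = S := by
      refine le_antisymm (fun x hx => ?_) fun x hx => ?_
      · rw [hS, mem_chainStabilizer]
        exact fun Q hQ => conj_stab hx (Or.inr hQ)
      · rw [mem_chainStabilizer]
        rintro Q (rfl | hQ)
        · exact hSR x hx
        · exact conj_stab hx hQ
    have hvio : IsVio (insert R σ) P := by
      refine ⟨Or.inr hP.1, ?_, ?_⟩
      · rw [hst]
        exact hP.2.1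
      · rintro Q (rfl | hQ) h1
        · rw [hst] at h1
          exact absurd hRS h1
        · rw [hst] at h1
          exact hP.2.2 Q hQ h1
    have hrm' : rm (insert R σ) = R := by
      unfold rm
      rw [vio_eq hvio, hst, hR]
    rw [htog]
    refine ⟨hch, hst, fun h1 => hvio.2.1 (h1 P (Or.inr hP.1)), ?_, ?_⟩
    · unfold tog
      rw [hrm', if_pos (Set.mem_insert _ _), Set.insert_sdiff_of_mem _ (Set.mem_singleton R)]
      exact Set.sdiff_singleton_eq_self hmem
    · rw [Set.ncard_insert_of_notMem hmem (Set.toFinite σ), pow_succ]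
      ring

/-- **alternating sums over normal chains** -/
theorem alt_normal [Finite G] (p : ℕ) [Fact p.Prime] (f : Subgroup G → ℤ)
    (hf : ∀ (g : G) (H : Subgroup G), f (conjSub g H) = f H) :
    alternatingSum p G f = ∑ᶠ c : {c : Quotient (chainSetoid p G) // Nch c.out.1},
      (-1) ^ c.1.out.1.ncard * f (chainStabilizer c.1.out.1) := by
  have f1 : Finite {σ : Set (Subgroup G) // IsPChain p σ} := inferInstance
  have f2 : Fintype (Quotient (chainSetoid p G)) := Fintype.ofFinite _
  let F : Quotient (chainSetoid p G) → ℤ := fun c =>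
    (-1) ^ c.out.1.ncard * f (chainStabilizer c.out.1)
  have hsplit : ∑ c, F c = ∑ c ∈ Finset.univ.filter (fun c => Nch c.out.1), F c +
      ∑ c ∈ Finset.univ.filter (fun c => ¬ Nch c.out.1), F c :=
    (Finset.sum_filter_add_sum_filter_not _ _ _).symm
  have hz : ∑ c ∈ Finset.univ.filter (fun c : Quotient (chainSetoid p G) => ¬ Nch c.out.1),
      F c = 0 := by
    have hex : ∀ c ∈ Finset.univ.filter (fun c : Quotient (chainSetoid p G) => ¬ Nch c.out.1),
        ∃ (c' : Quotient (chainSetoid p G)) (g : G), c'.out.1 = conjSub g '' tog c.out.1 := by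
      intro c hc
      have h1 := tog_spec c.out.2 (Finset.mem_filter.mp hc).2
      obtain ⟨g, hg⟩ := Quotient.mk_out (s := chainSetoid p G) ⟨tog c.out.1, h1.1⟩
      refine ⟨Quotient.mk _ ⟨tog c.out.1, h1.1⟩, g⁻¹, ?_⟩
      have hg' : tog c.out.1 = conjSub g '' (Quotient.out (Quotient.mk (chainSetoid p G)
        ⟨tog c.out.1, h1.1⟩)).1 := hg
      conv_rhs => rw [hg']
      rw [← conjSub_image_mul, inv_mul_cancel, conjSub_image_one]
    choose T g hT using hex
    have hneg : ∀ c hc, F c + F (T c hc) = 0 := by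
      intro c hc
      have h1 := tog_spec c.out.2 (Finset.mem_filter.mp hc).2
      change (-1) ^ c.out.1.ncard * f (chainStabilizer c.out.1) +
        (-1) ^ (T c hc).out.1.ncard * f (chainStabilizer (T c hc).out.1) = 0
      rw [hT, ncard_conj, chainStabilizer_conj, hf, h1.2.1, h1.2.2.2.2]
      ring
    refine Finset.sum_involution T hneg ?_ ?_ ?_
    · intro c hc hne h1
      have h2 := hneg c hc
      rw [h1] at h2
      exact hne (by omega)
    · intro c hc
      have h1 := tog_spec c.out.2 (Finset.mem_filter.mp hc).2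
      refine Finset.mem_filter.mpr ⟨Finset.mem_univ _, ?_⟩
      rw [hT, Nch_conj]
      exact h1.2.2.1
    · intro c hc
      have h1 := tog_spec c.out.2 (Finset.mem_filter.mp hc).2
      have hc' : T c hc ∈ Finset.univ.filter
          (fun c : Quotient (chainSetoid p G) => ¬ Nch c.out.1) := by
        refine Finset.mem_filter.mpr ⟨Finset.mem_univ _, ?_⟩
        rw [hT, Nch_conj]
        exact h1.2.2.1
      have h2 : (T (T c hc) hc').out.1 = conjSub (g (T c hc) hc' * g c hc) '' c.out.1 := by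
        rw [hT (T c hc) hc', conjSub_image_mul]
        congr 1
        have h3 : tog (conjSub (g c hc) '' tog c.out.1) = conjSub (g c hc) '' tog (tog c.out.1) :=
          tog_conj h1.1 h1.2.2.1 _
        rw [h1.2.2.2.1] at h3
        rw [← h3, ← hT]
      have h4 : Quotient.mk (chainSetoid p G) c.out =
          Quotient.mk (chainSetoid p G) (T (T c hc) hc').out := Quotient.sound ⟨_, h2⟩
      have h5 := (Quotient.out_eq c).symm.trans (h4.trans (Quotient.out_eq (T (T c hc) hc')))
      exact h5.symm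
  unfold alternatingSum
  rw [finsum_eq_sum_of_fintype]
  change ∑ c, F c = _
  rw [hsplit, hz, add_zero]
  have f3 : Fintype {c : Quotient (chainSetoid p G) // Nch c.out.1} := Fintype.ofFinite _
  rw [finsum_eq_sum_of_fintype]
  exact Finset.sum_subtype (p := fun c : Quotient (chainSetoid p G) => Nch c.out.1) _
    (by intro c; simp) F

end nch

end Run7.h45
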