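import Pool.Agent.Run7.h45.Ch9

/-!
# Dade's ordinary conjecture in universal families
-/

set_option autoImplicit false
set_option linter.unusedSectionVars false

open scoped Classical BigOperators
open Filter

noncomputable section

namespace Run7.h45

open Pool.Agent.Y63.KR
open Pool.Agent.H254R3.IN (IsIrr IsBlock IsDefectGroup)
open Pool.Agent.Q90.WR (IndS AdmB blkDef blkAlt bxS blkDefT blkAltT blkDef_parity blkAlt_parity)
open Pool.Agent.N22.DD (Wt Wt_prod Wt_one Wt_sum fac_prod)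

variable {p : ℕ} [hp : Fact p.Prime] {O : ValuationSubring ℂ}

/-- the values of `Ψ` at the blocks of `Γ` with nontrivial defect groups -/
abbrev InG (p : ℕ) (O : ValuationSubring ℂ) (Γ : Type) [Group Γ] (Ψ : Set (Γ → ℂ) → Prop) : Prop :=
  ∀ B : Set (Γ → ℂ), AdmB p O Γ B → Ψ B

/-! ### no positive values -/

theorem dade_nonpos_mat (hpO : (p : ℂ) ∈ O.nonunits) {q : ℕ} (hq : 2 ≤ q) (hpq : ¬ p ∣ q)
    {N : Set ℕ} (hN : N.Infinite) :
    (∀ (G : Type) [Group G] (B : Set (G → ℂ)), AdmB p O G B → ∀ d, blkDef p O d B = 0) ↔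
      ∀ n ∈ N, InG p O (MatGrp q n) fun B => ∀ d, blkDef p O d B ≤ 0 := by
  constructor
  · exact fun h n _ B hB d => (h _ B hB d).le
  · intro h
    refine Pool.Agent.N22.DD.dade_of_nonpos (C := AllD p O) (fun _ _ _ hB => hB) allD_sq
      fun G _ B hB d => ?_
    obtain ⟨n, hn, B', h1, h2, -⟩ := real_mat_all hpO hq hpq hB hN
    rw [← h2]
    exact h n hn B' h1 d

theorem dade_nonpos_alt (hpO : (p : ℂ) ∈ O.nonunits) {q : ℕ} (hq : 2 ≤ q) (hpq : ¬ p ∣ q)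
    {N : Set ℕ} (hN : N.Infinite) :
    (∀ (G : Type) [Group G] (B : Set (G → ℂ)), AdmB p O G B → ∀ d, blkDef p O d B = 0) ↔
      ∀ n ∈ N, 5 ≤ n → ∀ H : Subgroup (alternatingGroup (Fin n)),
        InG p O (ZSGrp q (alternatingGroup (Fin n)) H) fun B => ∀ d, blkDef p O d B ≤ 0 := by
  constructor
  · exact fun h n _ _ H B hB d => (h _ B hB d).le
  · intro h
    refine Pool.Agent.N22.DD.dade_of_nonpos (C := AllD p O) (fun _ _ _ hB => hB) allD_sq
      fun G _ B hB d => ?_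
    obtain ⟨n, hn, h5, H, B', h1, h2, -⟩ := real_alt_all hpO hq hpq hB hN
    rw [← h2]
    exact h n hn h5 H B' h1 d

theorem kr_nonpos_mat (hpO : (p : ℂ) ∈ O.nonunits) {q : ℕ} (hq : 2 ≤ q) (hpq : ¬ p ∣ q)
    {N : Set ℕ} (hN : N.Infinite) :
    (∀ (G : Type) [Group G] (B : Set (G → ℂ)), AdmB p O G B → blkAlt p O B = 0) ↔
      ∀ n ∈ N, InG p O (MatGrp q n) fun B => blkAlt p O B ≤ 0 := by
  constructor
  · exact fun h n _ B hB => (h _ B hB).le
  · intro h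
    refine Pool.Agent.N22.DD.kr_of_nonpos (C := AllD p O) (fun _ _ _ hB => hB) allD_sq
      fun G _ B hB => ?_
    obtain ⟨n, hn, B', h1, -, h2⟩ := real_mat_all hpO hq hpq hB hN
    rw [← h2]
    exact h n hn B' h1

theorem kr_nonpos_alt (hpO : (p : ℂ) ∈ O.nonunits) {q : ℕ} (hq : 2 ≤ q) (hpq : ¬ p ∣ q)
    {N : Set ℕ} (hN : N.Infinite) :
    (∀ (G : Type) [Group G] (B : Set (G → ℂ)), AdmB p O G B → blkAlt p O B = 0) ↔
      ∀ n ∈ N, 5 ≤ n → ∀ H : Subgroup (alternatingGroup (Fin n)),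
        InG p O (ZSGrp q (alternatingGroup (Fin n)) H) fun B => blkAlt p O B ≤ 0 := by
  constructor
  · exact fun h n _ _ H B hB => (h _ B hB).le
  · intro h
    refine Pool.Agent.N22.DD.kr_of_nonpos (C := AllD p O) (fun _ _ _ hB => hB) allD_sq
      fun G _ B hB => ?_
    obtain ⟨n, hn, h5, H, B', h1, -, h2⟩ := real_alt_all hpO hq hpq hB hN
    rw [← h2]
    exact h n hn h5 H B' h1

/-! ### parities -/

/-- parities of the sums decide, for all groups -/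
theorem dade_of_even (hp2 : p ≠ 2) (hpO : (p : ℂ) ∈ O.nonunits)
    (h : ∀ (G : Type) [Group G] (B : Set (G → ℂ)), AdmB p O G B → ∀ d, (2 : ℤ) ∣ blkDef p O d B)
    (G : Type) [Group G] (B : Set (G → ℂ)) (hB : AdmB p O G B) (d : ℕ) : blkDef p O d B = 0 := by
  have := hB.fin
  refine (Pool.Agent.Q90.WR.bd_one hp2 hpO G B (hB.good hpO)).mpr (fun j d => ?_) d
  have hj := hB.wrN hp2 hpO j
  have := hj.fin
  exact (blkDef_parity d _).mpr (h _ _ hj d)

theorem kr_of_even (hp2 : p ≠ 2) (hpO : (p : ℂ) ∈ O.nonunits)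
    (h : ∀ (G : Type) [Group G] (B : Set (G → ℂ)), AdmB p O G B → (2 : ℤ) ∣ blkAlt p O B)
    (G : Type) [Group G] (B : Set (G → ℂ)) (hB : AdmB p O G B) : blkAlt p O B = 0 := by
  have := hB.fin
  refine (Pool.Agent.Q90.WR.ba_one hp2 hpO G B (hB.good hpO)).mpr (fun j => ?_)
  have hj := hB.wrN hp2 hpO j
  have := hj.fin
  exact (blkAlt_parity _).mpr (h _ _ hj)

theorem dade_even_mat (hp2 : p ≠ 2) (hpO : (p : ℂ) ∈ O.nonunits) {q : ℕ} (hq : 2 ≤ q)
    (hpq : ¬ p ∣ q) {N : Set ℕ} (hN : N.Infinite) :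
    (∀ (G : Type) [Group G] (B : Set (G → ℂ)), AdmB p O G B → ∀ d, blkDef p O d B = 0) ↔
      ∀ n ∈ N, InG p O (MatGrp q n) fun B => ∀ d, Even (blkDefT p O d B) := by
  constructor
  · intro h n _ B hB d
    have := hB.fin
    rw [blkDef_parity, h _ B hB d]
    exact dvd_zero _
  · intro h
    refine dade_of_even hp2 hpO fun G _ B hB d => ?_
    obtain ⟨n, hn, B', h1, h2, -⟩ := real_mat_all hpO hq hpq hB hN
    have := h1.fin
    rw [← h2, ← blkDef_parity]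
    exact h n hn B' h1 d

theorem dade_even_alt (hp2 : p ≠ 2) (hpO : (p : ℂ) ∈ O.nonunits) {q : ℕ} (hq : 2 ≤ q)
    (hpq : ¬ p ∣ q) {N : Set ℕ} (hN : N.Infinite) :
    (∀ (G : Type) [Group G] (B : Set (G → ℂ)), AdmB p O G B → ∀ d, blkDef p O d B = 0) ↔
      ∀ n ∈ N, 5 ≤ n → ∀ H : Subgroup (alternatingGroup (Fin n)),
        InG p O (ZSGrp q (alternatingGroup (Fin n)) H) fun B => ∀ d, Even (blkDefT p O d B) := by
  constructor
  · intro h n _ _ H B hB d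
    have := hB.fin
    rw [blkDef_parity, h _ B hB d]
    exact dvd_zero _
  · intro h
    refine dade_of_even hp2 hpO fun G _ B hB d => ?_
    obtain ⟨n, hn, h5, H, B', h1, h2, -⟩ := real_alt_all hpO hq hpq hB hN
    have := h1.fin
    rw [← h2, ← blkDef_parity]
    exact h n hn h5 H B' h1 d

theorem kr_even_mat (hp2 : p ≠ 2) (hpO : (p : ℂ) ∈ O.nonunits) {q : ℕ} (hq : 2 ≤ q)
    (hpq : ¬ p ∣ q) {N : Set ℕ} (hN : N.Infinite) :
    (∀ (G : Type) [Group G] (B : Set (G → ℂ)), AdmB p O G B → blkAlt p O B = 0) ↔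
      ∀ n ∈ N, InG p O (MatGrp q n) fun B => Even (blkAltT p O B) := by
  constructor
  · intro h n _ B hB
    have := hB.fin
    rw [blkAlt_parity, h _ B hB]
    exact dvd_zero _
  · intro h
    refine kr_of_even hp2 hpO fun G _ B hB => ?_
    obtain ⟨n, hn, B', h1, -, h2⟩ := real_mat_all hpO hq hpq hB hN
    have := h1.fin
    rw [← h2, ← blkAlt_parity]
    exact h n hn B' h1

theorem kr_even_alt (hp2 : p ≠ 2) (hpO : (p : ℂ) ∈ O.nonunits) {q : ℕ} (hq : 2 ≤ q)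
    (hpq : ¬ p ∣ q) {N : Set ℕ} (hN : N.Infinite) :
    (∀ (G : Type) [Group G] (B : Set (G → ℂ)), AdmB p O G B → blkAlt p O B = 0) ↔
      ∀ n ∈ N, 5 ≤ n → ∀ H : Subgroup (alternatingGroup (Fin n)),
        InG p O (ZSGrp q (alternatingGroup (Fin n)) H) fun B => Even (blkAltT p O B) := by
  constructor
  · intro h n _ _ H B hB
    have := hB.fin
    rw [blkAlt_parity, h _ B hB]
    exact dvd_zero _
  · intro h
    refine kr_of_even hp2 hpO fun G _ B hB => ?_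
    obtain ⟨n, hn, h5, H, B', h1, -, h2⟩ := real_alt_all hpO hq hpq hB hN
    have := h1.fin
    rw [← h2, ← blkAlt_parity]
    exact h n hn h5 H B' h1

/-! ### growth -/

/-- the sum of the squares is at most one, if the growth is subexponential -/
theorem dade_grow_mat (hpO : (p : ℂ) ∈ O.nonunits) {q : ℕ} (hq : 2 ≤ q) (hpq : ¬ p ∣ q)
    (h : ∀ ε : ℝ, 0 < ε → ∃ᶠ n : ℕ in atTop, InG p O (MatGrp q n) fun B =>
      ∀ d, (blkDef p O d B : ℝ) ≤ Real.exp (ε * n)) (G : Type) [Group G] (B : Set (G → ℂ))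
    (hB : AdmB p O G B) :
    ∑ d ∈ Finset.range ((Nat.card G).factorization p + 1), blkDef p O d B ^ 2 ≤ 1 := by
  have := hB.fin
  obtain ⟨c, hc, hG⟩ := real_mat_pow hpO hq hpq G
  refine sq_of_wt hB fun t ht => wt_core hB hc (fun ε hε => (h ε hε).mono
    fun n hn m hm hmn H _ A hA he d => ?_) ht
  obtain ⟨B', h1, h2, -⟩ := hG _ n hmn H A hA he
  rw [← h2]
  exact hn B' h1 d

theorem dade_grow_alt (hpO : (p : ℂ) ∈ O.nonunits) {q : ℕ} (hq : 2 ≤ q) (hpq : ¬ p ∣ q)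
    (h : ∀ ε : ℝ, 0 < ε → ∃ᶠ n : ℕ in atTop, ∀ H : Subgroup (alternatingGroup (Fin n)),
      InG p O (ZSGrp q (alternatingGroup (Fin n)) H) fun B =>
        ∀ d, (blkDef p O d B : ℝ) ≤ Real.exp (ε * n)) (G : Type) [Group G] (B : Set (G → ℂ))
    (hB : AdmB p O G B) :
    ∑ d ∈ Finset.range ((Nat.card G).factorization p + 1), blkDef p O d B ^ 2 ≤ 1 := by
  have := hB.fin
  obtain ⟨c, hc, hG⟩ := real_alt_pow hpO hq hpq G
  refine sq_of_wt hB fun t ht => wt_core hB hc (fun ε hε =>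
    ((h ε hε).and_eventually (eventually_ge_atTop 5)).mono
      fun n hn m hm hmn H _ A hA he d => ?_) ht
  obtain ⟨K, B', h1, h2, -⟩ := hG _ n Nat.one_le_two_pow hn.2 hmn H A hA he
  rw [← h2]
  exact hn.1 K B' h1 d

theorem grow_of_sq {G : Type} [Group G] {B : Set (G → ℂ)} (hB : AdmB p O G B)
    (h : ∑ d ∈ Finset.range ((Nat.card G).factorization p + 1), blkDef p O d B ^ 2 ≤ 1)
    {x : ℝ} (hx : 1 ≤ x) (d : ℕ) : (blkDef p O d B : ℝ) ≤ x :=
  (def_le_one hB h d).trans hx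

/-- `|S(B)| ≤ 1`, if the growth is subexponential -/
theorem kr_core {G : Type} [Group G] {B : Set (G → ℂ)} (hB : AdmB p O G B) {c : ℕ} (hc : 0 < c)
    (h : ∀ ε : ℝ, 0 < ε → ∃ᶠ n : ℕ in atTop, ∀ m : ℕ, 1 ≤ m → c * 2 ^ m ≤ n →
      ∀ (H : Type) [Group H] (A : Set (H → ℂ)), AdmB p O H A → Nonempty (H ≃* (Fin (2 ^ m) → G)) →
        (blkAlt p O A : ℝ) ≤ Real.exp (ε * n)) : |blkAlt p O B| ≤ 1 := by
  have := hB.fin
  have := Fintype.ofFinite G
  have key : |(blkAlt p O B : ℝ)| ≤ 1 := by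
    refine grow2 hc (abs_nonneg _) 0 fun ε hε => (h ε hε).mono fun n hn m hm hmn => ?_
    obtain ⟨H, i, A, h1, ⟨e⟩, h3⟩ := exists_pow hB m
    have h4 := hn m hm hmn H A h1 ⟨e⟩
    have := h1.fin
    have := Fintype.ofFinite H
    have e1 := h3 1
    rw [Wt_one, Wt_one] at e1
    have e2 : blkAlt p O A = blkAlt p O B ^ (2 ^ m) := by exact_mod_cast e1
    have e3 : |(blkAlt p O B : ℝ)| ^ (2 ^ m) = (blkAlt p O A : ℝ) := by
      rw [e2, Even.pow_abs ((Nat.even_pow' (by omega)).mpr even_two)]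
      push_cast
      rfl
    rw [e3, mul_zero, zero_add, Nat.cast_one, mul_one]
    have h5 := Real.exp_pos (ε * n)
    linarith
  exact_mod_cast key

theorem kr_grow_mat (hpO : (p : ℂ) ∈ O.nonunits) {q : ℕ} (hq : 2 ≤ q) (hpq : ¬ p ∣ q)
    (h : ∀ ε : ℝ, 0 < ε → ∃ᶠ n : ℕ in atTop, InG p O (MatGrp q n) fun B =>
      (blkAlt p O B : ℝ) ≤ Real.exp (ε * n)) (G : Type) [Group G] (B : Set (G → ℂ))
    (hB : AdmB p O G B) : |blkAlt p O B| ≤ 1 := by
  have := hB.fin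
  obtain ⟨c, hc, hG⟩ := real_mat_pow hpO hq hpq G
  refine kr_core hB hc (fun ε hε => (h ε hε).mono fun n hn m hm hmn H _ A hA he => ?_)
  obtain ⟨B', h1, -, h2⟩ := hG _ n hmn H A hA he
  rw [← h2]
  exact hn B' h1

theorem kr_grow_alt (hpO : (p : ℂ) ∈ O.nonunits) {q : ℕ} (hq : 2 ≤ q) (hpq : ¬ p ∣ q)
    (h : ∀ ε : ℝ, 0 < ε → ∃ᶠ n : ℕ in atTop, ∀ H : Subgroup (alternatingGroup (Fin n)),
      InG p O (ZSGrp q (alternatingGroup (Fin n)) H) fun B =>
        (blkAlt p O B : ℝ) ≤ Real.exp (ε * n)) (G : Type) [Group G] (B : Set (G → ℂ))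
    (hB : AdmB p O G B) : |blkAlt p O B| ≤ 1 := by
  have := hB.fin
  obtain ⟨c, hc, hG⟩ := real_alt_pow hpO hq hpq G
  refine kr_core hB hc (fun ε hε => ((h ε hε).and_eventually (eventually_ge_atTop 5)).mono
    fun n hn m hm hmn H _ A hA he => ?_)
  obtain ⟨K, B', h1, -, h2⟩ := hG _ n Nat.one_le_two_pow hn.2 hmn H A hA he
  rw [← h2]
  exact hn.1 K B' h1

end Run7.h45
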