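import Pool.Agent.Run7.h45.Orb

/-!
# Weights and conjugates of the data
-/

set_option autoImplicit false
set_option linter.unusedSectionVars false

open scoped Classical BigOperators

noncomputable section

namespace Run7.h45

open Pool.Agent.Y63.NV Pool.Agent.N85.WM
open Pool.Agent.Y63.AWC (IsIrreducibleCharacter)
open Pool.Agent.Y930.NV (Cf om irr_one_ne irr_Cf)

variable {Γ V G : Type} [Group Γ] [CommGroup V] [Group G] {D : CD Γ V G}
  [Finite Γ] [Fintype V] {P : Subgroup Γ}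

/-- the isotypic part of `χ` with respect to the conjugate data -/
def CD.TT (D : CD Γ V G) (θ : V →* ℂ) (x : Γ) (Q : Subgroup G) (P : Subgroup Γ)
    (hP : P = Q.map (D.cj x).j) (χ : Subgroup.normalizer (P : Set Γ) → ℂ) :
    Subgroup.normalizer (Q : Set G) → ℂ :=
  ((D.cj x).sub Q P hP).T ((D.cj x).rh Q θ) χ

theorem CD.c_cP {x : Γ} {Q : Subgroup G} (hP : P = Q.map (D.cj x).j) {v : V} :
    v ∈ (D.cj x).fix Q ↔ D.c x v ∈ D.cP P := by
  rw [(D.cj x).mem_fix_iff hP, D.mem_cP]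
  refine forall_congr' fun y => imp_congr_right fun _ => ?_
  rw [D.cj_c]
  constructor
  · intro h
    rw [← MulAut.mul_apply, ← map_mul]
    have h2 : y * x = x * (x⁻¹ * y * x) := by group
    rw [h2, map_mul, MulAut.mul_apply, h]
  · intro h
    rw [← MulAut.mul_apply, ← map_mul] at h
    have h2 : x⁻¹ * y * x = x⁻¹ * (y * x) := by group
    rw [h2, map_mul, MulAut.mul_apply, h, ← MulAut.mul_apply, ← map_mul, inv_mul_cancel, map_one,
      MulAut.one_apply]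

/-- the homomorphism on `C_V(P)` -/
def CD.et (D : CD Γ V G) (θ : V →* ℂ) (x : Γ) (P : Subgroup Γ) : D.cP P →* ℂ :=
  (θ.comp (D.c x⁻¹).toMonoidHom).comp (D.cP P).subtype

theorem CD.et_apply (θ : V →* ℂ) (x : Γ) (u : D.cP P) : D.et θ x P u = θ (D.c x⁻¹ u) := rfl

theorem CD.TT_one (θ : V →* ℂ) {x : Γ} {Q : Subgroup G} (hP : P = Q.map (D.cj x).j)
    (χ : Subgroup.normalizer (P : Set Γ) → ℂ) :
    D.TT θ x Q P hP χ 1 = (Fintype.card ((D.cj x).fix Q) : ℂ)⁻¹ * D.S P χ (D.et θ x P) := by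
  unfold CD.TT CD.T CD.tf CD.S
  congr 1
  let E : (D.cj x).fix Q ≃ D.cP P :=
    { toFun := fun v => ⟨D.c x v, (D.c_cP hP).1 v.2⟩
      invFun := fun u => ⟨D.c x⁻¹ u, (D.c_cP hP).2 (by
        rw [← MulAut.mul_apply, ← map_mul, mul_inv_cancel, map_one, MulAut.one_apply]; exact u.2)⟩
      left_inv := fun v => by
        apply Subtype.ext
        change D.c x⁻¹ (D.c x v) = v
        rw [← MulAut.mul_apply, ← map_mul, inv_mul_cancel, map_one, MulAut.one_apply]
      right_inv := fun v => by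
        apply Subtype.ext
        change D.c x (D.c x⁻¹ v) = v
        rw [← MulAut.mul_apply, ← map_mul, mul_inv_cancel, map_one, MulAut.one_apply] }
  refine Fintype.sum_equiv E _ _ fun v => ?_
  have h1 : D.et θ x P (E v)⁻¹ = θ v⁻¹ := by
    rw [CD.et_apply]
    congr 1
    change D.c x⁻¹ (D.c x v)⁻¹ = (v : V)⁻¹
    have h2 : (D.c x v)⁻¹ = D.c x (v : V)⁻¹ := (map_inv (D.c x) (v : V)).symm
    rw [h2, ← MulAut.mul_apply, ← map_mul, inv_mul_cancel, map_one, MulAut.one_apply]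
  rw [h1]
  congr 1
  rw [map_one, mul_one]
  congr 1
  apply Subtype.ext
  change x * D.i v * x⁻¹ = D.i (D.c x v)
  rw [D.hc]

/-- the action of the normalizer on `C_V(P)` -/
def CD.aN (D : CD Γ V G) (P : Subgroup Γ) : Subgroup.normalizer (P : Set Γ) →* MulAut (D.cP P) where
  toFun := fun y =>
    { toFun := fun v => ⟨D.c (y : Γ) (v : V), D.cP_c y.2 v.2⟩
      invFun := fun v => ⟨D.c ((y : Γ)⁻¹) (v : V), D.cP_c (y⁻¹).2 v.2⟩
      left_inv := fun v => by
        apply Subtype.ext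
        change D.c ((y : Γ)⁻¹) (D.c (y : Γ) (v : V)) = v
        rw [← MulAut.mul_apply, ← map_mul, inv_mul_cancel, map_one, MulAut.one_apply]
      right_inv := fun v => by
        apply Subtype.ext
        change D.c (y : Γ) (D.c ((y : Γ)⁻¹) (v : V)) = v
        rw [← MulAut.mul_apply, ← map_mul, mul_inv_cancel, map_one, MulAut.one_apply]
      map_mul' := fun v w => Subtype.ext (map_mul (D.c (y : Γ)) (v : V) (w : V)) }
  map_one' := by
    apply MulEquiv.ext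
    intro v
    apply Subtype.ext
    change D.c 1 (v : V) = (v : V)
    rw [map_one, MulAut.one_apply]
  map_mul' := fun y z => by
    apply MulEquiv.ext
    intro v
    apply Subtype.ext
    change D.c ((y : Γ) * z) (v : V) = D.c (y : Γ) (D.c (z : Γ) (v : V))
    rw [map_mul, MulAut.mul_apply]

theorem CD.iP_conj (y : Subgroup.normalizer (P : Set Γ)) (u : D.cP P) :
    y * D.iP P u * y⁻¹ = D.iP P (D.aN P y u) := by
  apply Subtype.ext
  change (y : Γ) * D.i u * (y : Γ)⁻¹ = D.i (D.c (y : Γ) u)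
  rw [D.hc]

theorem CD.iP_inj {u w : D.cP P} (h : D.iP P u = D.iP P w) : u = w :=
  Subtype.ext (D.i_inj (congrArg Subtype.val h))

/-- extension by zero of a function on `C_V(P)` -/
def CD.xt (D : CD Γ V G) (P : Subgroup Γ) {K : Type} [Field K] (f : D.cP P → K)
    (y : Subgroup.normalizer (P : Set Γ)) : K :=
  if h : ∃ u, y = D.iP P u then f h.choose else 0

theorem CD.xt_iP {K : Type} [Field K] (f : D.cP P → K) (u : D.cP P) :
    D.xt P f (D.iP P u) = f u := by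
  have h : ∃ w, D.iP P u = D.iP P w := ⟨u, rfl⟩
  unfold CD.xt
  rw [dif_pos h]
  rw [← D.iP_inj h.choose_spec]

theorem CD.xt_out {K : Type} [Field K] (f : D.cP P → K) {y : Subgroup.normalizer (P : Set Γ)}
    (h : ¬ ∃ u, y = D.iP P u) : D.xt P f y = 0 := by
  unfold CD.xt
  rw [dif_neg h]

theorem CD.xt_class {K : Type} [Field K] {f : D.cP P → K} (hf : ∀ y u, f (D.aN P y u) = f u) :
    IsClassFun (D.xt P f) := by
  intro g y
  by_cases hy : ∃ u, y = D.iP P u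
  · obtain ⟨u, rfl⟩ := hy
    rw [D.iP_conj, D.xt_iP, D.xt_iP, hf]
  · rw [D.xt_out f hy, D.xt_out]
    rintro ⟨u, hu⟩
    apply hy
    refine ⟨D.aN P g⁻¹ u, ?_⟩
    rw [← D.iP_conj, ← hu]
    group

/-- two homomorphisms below `χ` are conjugate -/
theorem CD.S_conj {χ : Subgroup.normalizer (P : Set Γ) → ℂ} (hχ : IsIrreducibleCharacter χ)
    {η η' : D.cP P →* ℂ} (h : D.S P χ η ≠ 0) (h' : D.S P χ η' ≠ 0) :
    ∃ y : Subgroup.normalizer (P : Set Γ), ∀ u, η' u = η (D.aN P y u) := by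
  have : Fintype (Subgroup.normalizer (P : Set Γ)) := Fintype.ofFinite _
  refine sep (by exact_mod_cast Fintype.card_ne_zero) (D.aN P) η η' fun f hf => ?_
  have h1 : Cf (D.xt P f) := D.xt_class hf
  have h2 := D.om_S hχ h h1 fun y hy => D.xt_out f hy
  have h3 := D.om_S hχ h' h1 fun y hy => D.xt_out f hy
  simp_rw [D.xt_iP] at h2 h3
  rw [← h2, ← h3]

theorem CD.TT_irr {p : ℕ} [Fact p.Prime] (hV : ¬ p ∣ Nat.card V) (hPp : IsPGroup p P)
    {θ : V →* ℂ} (hS : D.Stab θ) {χ : Subgroup.normalizer (P : Set Γ) → ℂ}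
    (hχ : IsIrreducibleCharacter χ) {x : Γ} {Q : Subgroup G} (hP : P = Q.map (D.cj x).j)
    (hne : D.TT θ x Q P hP χ ≠ 0) : IsIrreducibleCharacter (D.TT θ x Q P hP χ) :=
  CD.T_irr cardC_ne ((D.cj x).sub_stab hV hP hPp (D.cj_stab hS x)) hχ hne

theorem CD.TT_ne_iff {p : ℕ} [Fact p.Prime] (hV : ¬ p ∣ Nat.card V) (hPp : IsPGroup p P)
    {θ : V →* ℂ} (hS : D.Stab θ) {χ : Subgroup.normalizer (P : Set Γ) → ℂ}
    (hχ : IsIrreducibleCharacter χ) {x : Γ} {Q : Subgroup G} (hP : P = Q.map (D.cj x).j) :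
    D.TT θ x Q P hP χ ≠ 0 ↔ D.S P χ (D.et θ x P) ≠ 0 := by
  have : Finite G := Finite.of_injective D.j fun a b h => D.j_inj h
  have : Fintype (Subgroup.normalizer (Q : Set G)) := Fintype.ofFinite _
  have h1 := D.TT_one θ hP χ
  constructor
  · intro h h2
    have h3 := D.TT_irr hV hPp hS hχ hP h
    rw [h2, mul_zero] at h1
    exact irr_one_ne h3 h1
  · intro h h2
    rw [h2] at h1
    rcases mul_eq_zero.mp h1.symm with h3 | h3
    · exact absurd h3 (inv_ne_zero cardC_ne)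
    · exact h h3

/-- the orders -/
theorem CD.card_map {x : Γ} {Q : Subgroup G} (hP : P = Q.map (D.cj x).j) :
    Nat.card P = Nat.card Q := by
  subst hP
  exact Subgroup.card_map_of_injective fun a b h => CD.j_inj h

/-- the conjugates of `θ` below `χ` form one orbit -/
theorem CD.dbl {p : ℕ} [Fact p.Prime] (hV : ¬ p ∣ Nat.card V) (hPp : IsPGroup p P)
    {θ : V →* ℂ} (hS : D.Stab θ) {χ : Subgroup.normalizer (P : Set Γ) → ℂ}
    (hχ : IsIrreducibleCharacter χ) {x x' : Γ} {Q Q' : Subgroup G} (hP : P = Q.map (D.cj x).j)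
    (hP' : P = Q'.map (D.cj x').j) (h : D.TT θ x Q P hP χ ≠ 0) (h' : D.TT θ x' Q' P hP' χ ≠ 0) :
    ∃ n ∈ Subgroup.normalizer (P : Set Γ), ∃ g : G, x' = n * x * D.j g ∧
      Q = Q'.map (MulAut.conj g).toMonoidHom := by
  have hG : Finite G := Finite.of_injective D.j fun a b h => D.j_inj h
  rw [D.TT_ne_iff hV hPp hS hχ] at h h'
  obtain ⟨y, hy⟩ := D.S_conj hχ h h'
  have e1 : θ.comp (D.c x'⁻¹).toMonoidHom = θ.comp (D.c (x⁻¹ * y)).toMonoidHom := by
    refine D.inv_ext hV hPp (P := P) ?_ ?_ ?_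
    · intro u hu v
      change θ (D.c x'⁻¹ (D.c u v)) = θ (D.c x'⁻¹ v)
      obtain ⟨q, hq, hu'⟩ : u ∈ Q'.map (D.cj x').j := hP' ▸ hu
      have h2 : x'⁻¹ * u = D.j q * x'⁻¹ := by rw [← hu', D.cj_j]; group
      rw [← MulAut.mul_apply, ← map_mul, h2, map_mul, MulAut.mul_apply, D.st_j hS]
    · intro u hu v
      change θ (D.c (x⁻¹ * y) (D.c u v)) = θ (D.c (x⁻¹ * y) v)
      have h3 : (y : Γ) * u * (y : Γ)⁻¹ ∈ P := (Subgroup.mem_normalizer_iff.mp y.2 u).1 hu
      obtain ⟨q, hq, hu'⟩ : (y : Γ) * u * (y : Γ)⁻¹ ∈ Q.map (D.cj x).j := by rw [← hP]; exact h3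
      have h2 : x⁻¹ * y * u = D.j q * (x⁻¹ * y) := by
        have h4 : (y : Γ) * u = x * D.j q * x⁻¹ * y := by
          rw [← D.cj_j, hu']; group
        rw [mul_assoc, h4]; group
      rw [← MulAut.mul_apply, ← map_mul, h2, map_mul, MulAut.mul_apply, D.st_j hS]
    · intro v hv
      have h2 := hy ⟨v, hv⟩
      rw [CD.et_apply, CD.et_apply] at h2
      change θ (D.c x'⁻¹ v) = θ (D.c (x⁻¹ * y) v)
      rw [map_mul, MulAut.mul_apply]
      exact h2
  have e2 : ∀ v, θ (D.c (x⁻¹ * y * x') v) = θ v := by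
    intro v
    have h2 := DFunLike.congr_fun e1 (D.c x' v)
    change θ (D.c x'⁻¹ (D.c x' v)) = θ (D.c (x⁻¹ * y) (D.c x' v)) at h2
    rw [← MulAut.mul_apply, ← map_mul, inv_mul_cancel, map_one, MulAut.one_apply,
      ← MulAut.mul_apply, ← map_mul] at h2
    exact h2.symm
  obtain ⟨v, g, e3⟩ := (hS _).1 e2
  have e4 := D.conj_sub (Q := Q) (Q' := Q'.map (MulAut.conj g).toMonoidHom) (v := v) (by
    rintro _ ⟨q, hq, rfl⟩
    have h2 : x' * D.j q * x'⁻¹ ∈ P := by rw [hP']; exact ⟨q, hq, rfl⟩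
    have h3 : (y : Γ) * (x' * D.j q * x'⁻¹) * (y : Γ)⁻¹ ∈ P :=
      (Subgroup.mem_normalizer_iff.mp y.2 _).1 h2
    obtain ⟨r, hr, h4⟩ : (y : Γ) * (x' * D.j q * x'⁻¹) * (y : Γ)⁻¹ ∈ Q.map (D.cj x).j := by
      rw [← hP]; exact h3
    refine ⟨r, hr, ?_⟩
    change D.i v * D.j (g * q * g⁻¹) * (D.i v)⁻¹ = D.j r
    have h5 : D.i v * D.j (g * q * g⁻¹) * (D.i v)⁻¹ =
        (D.i v * D.j g) * D.j q * (D.i v * D.j g)⁻¹ := by
      rw [map_mul, map_mul, map_inv]; group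
    rw [h5, ← e3]
    rw [D.cj_j] at h4
    have h6 : D.j r = x⁻¹ * (x * D.j r * x⁻¹) * x := by group
    rw [h6, h4]
    group)
  have e5 : Q'.map (MulAut.conj g).toMonoidHom = Q := by
    refine Subgroup.eq_of_le_of_card_ge (fun q hq => e4.1 q hq) ?_
    rw [Subgroup.card_map_of_injective (MulAut.conj g).injective, ← D.card_map hP, ← D.card_map hP']
  have e6 : v ∈ (D.cj x).fix Q := by
    rw [D.cj_fix]
    have h8 := e4.2
    rwa [e5] at h8
  have e7 : D.i (D.c x v) ∈ Subgroup.normalizer (P : Set Γ) := D.iP_norm ((D.c_cP hP).1 e6)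
  refine ⟨(y : Γ)⁻¹ * D.i (D.c x v), Subgroup.mul_mem _ (Subgroup.inv_mem _ y.2) e7, g, ?_, e5.symm⟩
  rw [D.hc]
  have h2 : x' = (y : Γ)⁻¹ * x * (x⁻¹ * y * x') := by group
  rw [h2, e3]
  group

end Run7.h45
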