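import Pool.Agent.Run7.h45.UpB
import Pool.Agent.Run7.h45.Orb2
import Pool.Agent.Q90.WR.Bcl

/-!
# Subgroups between a `p`-subgroup and its normalizer, under the Clifford correspondence
-/

set_option autoImplicit false
set_option linter.unusedSectionVars false

open scoped Classical BigOperators

noncomputable section

namespace Run7.h45

open Pool.Agent.H254R3.IN (IsIrr IsBlock IsDefectGroup omega blockCoeff Om IsCl
  RF red rep Om_blockCoeff blockCoeff_cl blockCoeff_mem eq_of_Om Om_ind ind_cl ind_mem red_Om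
  red_one red_zero red_mul red_eq_zero red_eq_zero_iff red_eq_iff nonunits_mem charP_RF red_sum
  red_natCast red_nat_eq_zero_iff red_inv mem_of_isIntegral nat_inv_mem red_congr lam_zero
  sum_classes mk_eq_iff rep_mk mk_rep)
open Pool.Agent.Q259.BW (L sum_eq_L)
open Pool.Agent.Q90.WR (IndS)

section loc

variable {Γ V G : Type} [Group Γ] [CommGroup V] [Group G]

/-- the subgroup `N` of `Γ` between `P` and its normalizer, and the subgroup `M` of `G` -/
structure Loc (D : CD Γ V G) (Q : Subgroup G) (P : Subgroup Γ) (M : Subgroup G) (N : Subgroup Γ) :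
    Prop where
  hP : P = Q.map D.j
  PN : P ≤ N
  NP : N ≤ Subgroup.normalizer (P : Set Γ)
  iN : ∀ v ∈ D.fix Q, D.i v ∈ N
  jN : ∀ m ∈ M, D.j m ∈ N
  back : ∀ v m, D.i v * D.j m ∈ N → v ∈ D.fix Q ∧ m ∈ M

variable {D : CD Γ V G} {Q : Subgroup G} {P : Subgroup Γ} {M : Subgroup G} {N : Subgroup Γ}

theorem Loc.QM (h : Loc D Q P M N) : Q ≤ M := by
  intro q hq
  refine (h.back 1 q ?_).2
  rw [map_one, one_mul]
  apply h.PN
  rw [h.hP]
  exact ⟨q, hq, rfl⟩

theorem Loc.MQ (h : Loc D Q P M N) : M ≤ Subgroup.normalizer (Q : Set G) := by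
  intro m hm
  have h1 := Subgroup.mem_normalizer_iff.1 (h.NP (h.jN m hm))
  rw [Subgroup.mem_normalizer_iff]
  intro q
  have h2 := h1 (D.j q)
  rw [← map_mul, ← map_inv, ← map_mul, h.hP] at h2
  constructor
  · intro hq
    obtain ⟨r, hr, h3⟩ := h2.1 ⟨q, hq, rfl⟩
    rwa [D.j_inj h3] at hr
  · intro hq
    obtain ⟨r, hr, h3⟩ := h2.2 ⟨_, hq, rfl⟩
    rwa [D.j_inj h3] at hr

/-- the data for `N` -/
def Loc.cd (h : Loc D Q P M N) : CD ↥N ↥(D.fix Q) ↥M where
  i := (D.i.comp (D.fix Q).subtype).codRestrict _ fun v => h.iN v v.2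
  j := (D.j.comp M.subtype).codRestrict _ fun m => h.jN m m.2
  c :=
    { toFun := fun y =>
        { toFun := fun v => ⟨D.c y v, D.c_fix h.hP (h.NP y.2) v.2⟩
          invFun := fun v => ⟨D.c ((y : Γ)⁻¹) (v : V), D.c_fix h.hP (h.NP (y⁻¹).2) v.2⟩
          left_inv := fun v => by
            apply Subtype.ext
            change D.c ((y : Γ)⁻¹) (D.c y v) = v
            rw [← MulAut.mul_apply, ← map_mul, inv_mul_cancel, map_one, MulAut.one_apply]
          right_inv := fun v => by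
            apply Subtype.ext
            change D.c y (D.c ((y : Γ)⁻¹) v) = v
            rw [← MulAut.mul_apply, ← map_mul, mul_inv_cancel, map_one, MulAut.one_apply]
          map_mul' := fun v w => Subtype.ext (map_mul (D.c (y : Γ)) (v : V) (w : V)) }
      map_one' := by
        apply MulEquiv.ext
        intro v
        apply Subtype.ext
        change D.c 1 (v : V) = (v : V)
        rw [map_one, MulAut.one_apply]
      map_mul' := fun y z => by
        apply MulEquiv.ext
        intro v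
        apply Subtype.ext
        change D.c ((y : Γ) * z) (v : V) = D.c (y : Γ) (D.c (z : Γ) (v : V))
        rw [map_mul, MulAut.mul_apply] }
  hc y v := Subtype.ext (D.hc y v)
  uniq v m h' := by
    obtain ⟨h1, h2⟩ := D.uniq v m (congrArg Subtype.val h')
    exact ⟨Subtype.ext h1, Subtype.ext h2⟩

theorem Loc.stab [Finite Γ] [Finite V] {p : ℕ} [Fact p.Prime] (h : Loc D Q P M N)
    (hV : ¬ p ∣ Nat.card V) (hPp : IsPGroup p P) {K : Type} [Field K] {θ : V →* K}
    (hS : D.Stab θ) : h.cd.Stab (D.rh Q θ) := by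
  intro y
  constructor
  · intro h0
    have h1 : θ.comp (D.c (y : Γ)).toMonoidHom = θ := by
      refine D.inv_ext hV hPp (P := P) ?_ (D.inv_of_stab hS h.hP) ?_
      · intro u hu v
        change θ (D.c y (D.c u v)) = θ (D.c y v)
        have h2 : (y : Γ) * u = (y * u * (y : Γ)⁻¹) * y := by group
        rw [← MulAut.mul_apply, ← map_mul, h2, map_mul, MulAut.mul_apply]
        exact D.inv_of_stab hS h.hP _ ((Subgroup.mem_normalizer_iff.mp (h.NP y.2) u).1 hu) _
      · intro v hv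
        exact h0 ⟨v, (D.mem_fix_iff h.hP).2 hv⟩
    obtain ⟨v, m, h2⟩ := (hS (y : Γ)).1 (fun v => DFunLike.congr_fun h1 v)
    obtain ⟨h3, h4⟩ := h.back v m (h2 ▸ y.2)
    exact ⟨⟨v, h3⟩, ⟨m, h4⟩, Subtype.ext h2⟩
  · rintro ⟨v, m, rfl⟩ w
    exact (hS _).2 ⟨v, m, rfl⟩ w

theorem Loc.pQ (h : Loc D Q P M N) {p : ℕ} (hPp : IsPGroup p P) : IsPGroup p Q := by
  have h1 : IsPGroup p (Q.map D.j) := h.hP ▸ hPp
  exact IsPGroup.of_equiv h1 (Q.equivMapOfInjective D.j fun a b h => D.j_inj h).symm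

theorem Loc.normal (h : Loc D Q P M N) : (Q.subgroupOf M).Normal := by
  refine ⟨fun q hq m => ?_⟩
  exact (Subgroup.mem_normalizer_iff.1 (h.MQ m.2) _).1 hq

theorem Loc.hfc [Finite V] (_h : Loc D Q P M N) {p : ℕ} (hV : ¬ p ∣ Nat.card V) :
    ¬ p ∣ Nat.card (D.fix Q) := fun h => hV (h.trans (Subgroup.card_subgroup_dvd_card _))

variable [Fintype Γ] [Fintype V] [Fintype G] {θ : V →* ℂ} {O : ValuationSubring ℂ} {p : ℕ}
  [hp : Fact p.Prime]

/-- **central characters of corresponding characters of `N` and `M`** -/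
theorem Loc.Om_star (h : Loc D Q P M N) (hpO : (p : ℂ) ∈ O.nonunits) (hV : ¬ p ∣ Nat.card V)
    (hPp : IsPGroup p P) (hS : D.Stab θ) {τ : N → ℂ} (hτ : IsIrr τ)
    (hne : h.cd.T (D.rh Q θ) τ ≠ 0) {f : Γ → ℂ} (hf : IsCl f) (hfO : ∀ g, f g ∈ O) :
    red O (Om (fun y : N => f y) τ) =
      red O (Om (fun m : M => D.tf θ f m) (h.cd.T (D.rh Q θ) τ)) := by
  have hQ := h.pQ hPp
  have hS' := h.stab hV hPp hS
  have hn := h.normal
  have hpg : IsPGroup p (Q.subgroupOf M) := hQ.comap_subtype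
  have hcl2 : IsCl (fun y : N => f y) := fun g y => hf (g : Γ) (y : Γ)
  have hτi : IsIrr (h.cd.T (D.rh Q θ) τ) := CD.T_irr cardC_ne hS' hτ hne
  have e2 := CD.Om_tf hS' hτ hne hcl2
  have hO1 := D.tf_mem (η := θ) f hfO
  have hO2 := h.cd.tf_mem (η := D.rh Q θ) (fun y : N => f y) (fun y => hfO y)
  have hcl3 : IsCl (fun m : M => D.tf θ f m) := fun g y => D.tf_cl hS hf (g : G) (y : G)
  have hcl4 := CD.tf_cl hS' hcl2
  have m1 := (red_Om hτi hcl3 fun m => hO1 m).1
  have m3 := (red_Om hτi hcl4 hO2).1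
  have key : red O (Om (fun m : M => D.tf θ f m) (h.cd.T (D.rh Q θ) τ)) =
      red O (Om (h.cd.tf (D.rh Q θ) (fun y : N => f y)) (h.cd.T (D.rh Q θ) τ)) := by
    rw [← sub_eq_zero, ← Pool.Agent.H254R3.IN.red_sub m1 m3, ← Pool.Agent.H254R3.IN.Om_sub]
    refine Om_vanish hpO hn hpg hτi (fun g y => ?_) (fun m =>
      Pool.Agent.H254R3.IN.sub_mem' (hO1 _) (hO2 _)) ?_
    · rw [hcl4 g y]
      congr 1
      exact hcl3 g y
    · intro m hm
      have r1 := red_tf (D := D) (η := θ) f hfO (m : G)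
      have r2 := red_tf (D := h.cd) (η := D.rh Q θ) (fun y : N => f y) (fun y => hfO y) m
      rw [Pool.Agent.H254R3.IN.red_sub (hO1 _) (hO2 _), r1, r2, sub_eq_zero]
      have hSF : D.Stab (redH (redO O) θ) := by
        have := charP_RF hpO
        exact stab_redH (redO O) hV hS
      have := charP_RF hpO
      refine D.sum_fix hQ hSF (z := fun g => red O (f g)) (fun g y => ?_) (m := (m : G)) ?_
      · change red O (f (g * y * g⁻¹)) = red O (f y)
        rw [hf y g]
      · intro q hq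
        exact congrArg Subtype.val (Subgroup.mem_centralizer_iff.1 hm ⟨q, h.QM hq⟩ hq)
  rw [e2, key]

end loc

section ind

variable {G : Type} [Group G] [Fintype G] {O : ValuationSubring ℂ}

theorem L_eq_Om {N : Subgroup G} (τ : N → ℂ) (x : G) :
    L N.subtype τ x = Om (fun y : N => Pool.Agent.H254R3.IN.ind x (y : G)) τ := by
  unfold L Om
  congr 1
  refine Finset.sum_congr rfl fun y _ => ?_
  change (if IsConj x (y : G) then τ y else 0) = (if IsConj x (y : G) then (1 : ℂ) else 0) * τ y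
  split_ifs <;> ring

/-- block induction and class functions -/
theorem mem_IndS_iff {B : Set (G → ℂ)} (hB : IsBlock O B) {χ : G → ℂ} (hχ : χ ∈ B)
    {N : Subgroup G} {τ : N → ℂ} (hτ : IsIrr τ) :
    τ ∈ IndS O B (Subtype.val : N → G) ↔ ∀ f : G → ℂ, IsCl f → (∀ g, f g ∈ O) →
      red O (Om f χ) = red O (Om (fun y : N => f y) τ) := by
  constructor
  · intro h f hf hfO
    exact (brauer_Om (hB.irr _ hχ) (fun x => h.2 χ hχ x) hf hfO).2
  · intro h
    refine ⟨hτ, fun ψ hψ x => ?_⟩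
    have h1 := h _ (ind_cl x) (ind_mem O x)
    have hc : IsCl (fun y : N => Pool.Agent.H254R3.IN.ind x (y : G)) := fun g y =>
      ind_cl x (g : G) (y : G)
    have h2 := (red_Om hτ hc fun y => ind_mem O x _).1
    have h3 : ∑ᶠ y : {y : N // IsConj x (y : G)}, τ y / τ 1 =
        Om (fun y : N => Pool.Agent.H254R3.IN.ind x (y : G)) τ := by
      rw [← L_eq_Om]
      exact sum_eq_L τ x
    rw [h3, ← red_eq_iff ((hB.irr _ hψ).omega_mem O x) h2, ← h1, Om_ind (hB.irr _ hχ)]
    exact (hB.red_eq hχ hψ x).symm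

end ind

end Run7.h45
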