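import Pool.Agent.Run7.h45.Ch2
import Pool.Agent.Run7.h45.Ex

/-!
# Characters of subgroups between a `p`-subgroup and its normalizer, and homomorphisms of `V`
-/

set_option autoImplicit false
set_option linter.unusedSectionVars false

open scoped Classical BigOperators

noncomputable section

namespace Run7.h45

open Pool.Agent.Y63.NV Pool.Agent.N85.WM
open Pool.Agent.Y63.AWC (IsIrreducibleCharacter)
open Pool.Agent.Y930.NV (Cf om R Cf_out Cf_expand mk_out Cf_ind om_sum om_int ind_cast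
  redC_sum redC_mul redC_of irr_one_ne irr_Cf)

variable {Γ V G : Type} [Group Γ] [CommGroup V] [Group G]

/-- the subgroup `N` between `P` and its normalizer contains `C_V(P)` -/
structure NPs (D : CD Γ V G) (P N : Subgroup Γ) : Prop where
  PN : P ≤ N
  NP : N ≤ Subgroup.normalizer (P : Set Γ)
  iN : ∀ v ∈ D.cP P, D.i v ∈ N

variable {D : CD Γ V G} {P N : Subgroup Γ}

/-- the embedding of `C_V(P)` -/
def NPs.i (h : NPs D P N) : D.cP P →* N :=
  (D.i.comp (D.cP P).subtype).codRestrict _ fun v => h.iN v v.2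

theorem NPs.i_coe (h : NPs D P N) (v : D.cP P) : ((h.i v : N) : Γ) = D.i v := rfl

theorem NPs.i_inj (h : NPs D P N) {u w : D.cP P} (he : h.i u = h.i w) : u = w :=
  Subtype.ext (D.i_inj (congrArg Subtype.val he))

variable [Finite Γ] [Fintype V]

/-- the Fourier coefficient of `χ` -/
def NPs.S (h : NPs D P N) (χ : N → ℂ) (η : D.cP P →* ℂ) : ℂ := ∑ u, η u⁻¹ * χ (h.i u)

theorem NPs.sum_supp (h : NPs D P N) [Fintype N] {K : Type} [Field K]
    (k : N → K) (h0 : ∀ y, (¬ ∃ u, y = h.i u) → k y = 0) :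
    ∑ y, k y = ∑ u, k (h.i u) := by
  have he : Function.Injective h.i := fun a b hab => h.i_inj hab
  rw [← Finset.sum_image (s := Finset.univ) (g := h.i) (f := k) (fun a _ b _ hab => he hab)]
  symm
  refine Finset.sum_subset (Finset.subset_univ _) fun y _ hy => h0 y ?_
  rintro ⟨u, rfl⟩
  exact hy (Finset.mem_image.mpr ⟨u, Finset.mem_univ _, rfl⟩)

theorem NPs.om_S (h : NPs D P N) [Fintype N]
    {χ : N → ℂ} (hχ : IsIrreducibleCharacter χ) {η : D.cP P →* ℂ}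
    (hne : h.S χ η ≠ 0) {f : N → ℂ} (hf : Cf f)
    (h0 : ∀ y, (¬ ∃ u, y = h.i u) → f y = 0) : om χ f = ∑ u, f (h.i u) * η u := by
  refine mul_right_cancel₀ hne ?_
  have h1 : om χ f * h.S χ η = ∑ w, η w⁻¹ * ∑ u, f (h.i u) * χ (h.i u * h.i w) := by
    unfold NPs.S
    rw [Finset.mul_sum]
    refine Finset.sum_congr rfl fun w _ => ?_
    rw [mul_left_comm, ← irr_act hχ hf, h.sum_supp]
    intro y hy
    rw [h0 y hy, zero_mul]
  rw [h1]
  simp_rw [Finset.mul_sum]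
  rw [Finset.sum_comm, Finset.sum_mul]
  refine Finset.sum_congr rfl fun u _ => ?_
  unfold NPs.S
  rw [Finset.mul_sum]
  refine Fintype.sum_equiv (Equiv.mulLeft u) _ _ fun w => ?_
  rw [Equiv.coe_mulLeft, mul_inv_rev, map_mul η, ← map_mul]
  have h2 : η u * η u⁻¹ = 1 := by rw [← map_mul, mul_inv_cancel, map_one]
  linear_combination (-(η w⁻¹ * f (h.i u) * χ (h.i (u * w)))) * h2

variable {Q : Subgroup G} {M : Subgroup G} {x : Γ}

theorem Loc.nps (h : Loc (D.cj x) Q P M N) : NPs D P N where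
  PN := h.PN
  NP := h.NP
  iN := by
    intro v hv
    have h1 : D.c x⁻¹ v ∈ (D.cj x).fix Q := by
      rw [D.c_cP h.hP, ← MulAut.mul_apply, ← map_mul, mul_inv_cancel, map_one, MulAut.one_apply]
      exact hv
    have h2 := h.iN _ h1
    rw [D.cj_i, ← D.hc, ← MulAut.mul_apply, ← map_mul, mul_inv_cancel, map_one,
      MulAut.one_apply] at h2
    exact h2

/-- the isotypic part of `χ` with respect to the conjugate data -/
def Loc.TT (h : Loc (D.cj x) Q P M N) (θ : V →* ℂ) (χ : N → ℂ) : M → ℂ :=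
  h.cd.T ((D.cj x).rh Q θ) χ

theorem Loc.TT_one (h : Loc (D.cj x) Q P M N) (h' : NPs D P N) (θ : V →* ℂ) (χ : N → ℂ) :
    h.TT θ χ 1 = (Fintype.card ((D.cj x).fix Q) : ℂ)⁻¹ * h'.S χ (D.et θ x P) := by
  unfold Loc.TT CD.T CD.tf NPs.S
  congr 1
  let E : (D.cj x).fix Q ≃ D.cP P :=
    { toFun := fun v => ⟨D.c x v, (D.c_cP h.hP).1 v.2⟩
      invFun := fun u => ⟨D.c x⁻¹ u, (D.c_cP h.hP).2 (by
        rw [← MulAut.mul_apply, ← map_mul, mul_inv_cancel, map_one, MulAut.one_apply]; exact u.2)⟩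
      left_inv := fun v => by
        apply Subtype.ext
        change D.c x⁻¹ (D.c x v) = v
        rw [← MulAut.mul_apply, ← map_mul, inv_mul_cancel, map_one, MulAut.one_apply]
      right_inv := fun v => by
        apply Subtype.ext
        change D.c x (D.c x⁻¹ v) = v
        rw [← MulAut.mul_apply, ← map_mul, mul_inv_cancel, map_one, MulAut.one_apply] }
  refine Fintype.sum_equiv E _ _ fun v => ?_
  have h1 : D.et θ x P (E v)⁻¹ = θ v⁻¹ := by
    rw [CD.et_apply]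
    congr 1
    change D.c x⁻¹ (D.c x v)⁻¹ = (v : V)⁻¹
    have h2 : (D.c x v)⁻¹ = D.c x (v : V)⁻¹ := (map_inv (D.c x) (v : V)).symm
    rw [h2, ← MulAut.mul_apply, ← map_mul, inv_mul_cancel, map_one, MulAut.one_apply]
  rw [h1]
  congr 1
  rw [map_one, mul_one]
  congr 1
  apply Subtype.ext
  change x * D.i v * x⁻¹ = D.i (D.c x v)
  rw [D.hc]

/-- the action of `N` on `C_V(P)` -/
def NPs.aN (h : NPs D P N) : N →* MulAut (D.cP P) where
  toFun := fun y =>
    { toFun := fun v => ⟨D.c (y : Γ) (v : V), D.cP_c (h.NP y.2) v.2⟩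
      invFun := fun v => ⟨D.c ((y : Γ)⁻¹) (v : V), D.cP_c (h.NP (y⁻¹).2) v.2⟩
      left_inv := fun v => by
        apply Subtype.ext
        change D.c ((y : Γ)⁻¹) (D.c (y : Γ) (v : V)) = v
        rw [← MulAut.mul_apply, ← map_mul, inv_mul_cancel, map_one, MulAut.one_apply]
      right_inv := fun v => by
        apply Subtype.ext
        change D.c (y : Γ) (D.c ((y : Γ)⁻¹) (v : V)) = v
        rw [← MulAut.mul_apply, ← map_mul, mul_inv_cancel, map_one, MulAut.one_apply]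
      map_mul' := fun v w => Subtype.ext (map_mul (D.c (y : Γ)) (v : V) (w : V)) }
  map_one' := by
    apply MulEquiv.ext
    intro v
    apply Subtype.ext
    change D.c 1 (v : V) = (v : V)
    rw [map_one, MulAut.one_apply]
  map_mul' := fun y z => by
    apply MulEquiv.ext
    intro v
    apply Subtype.ext
    change D.c ((y : Γ) * z) (v : V) = D.c (y : Γ) (D.c (z : Γ) (v : V))
    rw [map_mul, MulAut.mul_apply]

theorem NPs.i_conj (h : NPs D P N) (y : N) (u : D.cP P) : y * h.i u * y⁻¹ = h.i (h.aN y u) := by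
  apply Subtype.ext
  change (y : Γ) * D.i u * (y : Γ)⁻¹ = D.i (D.c (y : Γ) u)
  rw [D.hc]

/-- extension by zero of a function on `C_V(P)` -/
def NPs.xt (h : NPs D P N) {K : Type} [Field K] (f : D.cP P → K) (y : N) : K :=
  if h' : ∃ u, y = h.i u then f h'.choose else 0

theorem NPs.xt_i (h : NPs D P N) {K : Type} [Field K] (f : D.cP P → K) (u : D.cP P) :
    h.xt f (h.i u) = f u := by
  have h' : ∃ w, h.i u = h.i w := ⟨u, rfl⟩
  unfold NPs.xt
  rw [dif_pos h']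
  rw [← h.i_inj h'.choose_spec]

theorem NPs.xt_out (h : NPs D P N) {K : Type} [Field K] (f : D.cP P → K) {y : N}
    (h' : ¬ ∃ u, y = h.i u) : h.xt f y = 0 := by
  unfold NPs.xt
  rw [dif_neg h']

theorem NPs.xt_class (h : NPs D P N) {K : Type} [Field K] {f : D.cP P → K}
    (hf : ∀ y u, f (h.aN y u) = f u) : IsClassFun (h.xt f) := by
  intro g y
  by_cases hy : ∃ u, y = h.i u
  · obtain ⟨u, rfl⟩ := hy
    rw [h.i_conj, h.xt_i, h.xt_i, hf]
  · rw [h.xt_out f hy, h.xt_out]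
    rintro ⟨u, hu⟩
    apply hy
    refine ⟨h.aN g⁻¹ u, ?_⟩
    rw [← h.i_conj, ← hu]
    group

/-- two homomorphisms below `χ` are conjugate -/
theorem NPs.S_conj (h : NPs D P N) {χ : N → ℂ} (hχ : IsIrreducibleCharacter χ)
    {η η' : D.cP P →* ℂ} (h1 : h.S χ η ≠ 0) (h1' : h.S χ η' ≠ 0) :
    ∃ y : N, ∀ u, η' u = η (h.aN y u) := by
  have : Fintype N := Fintype.ofFinite _
  refine sep (by exact_mod_cast Fintype.card_ne_zero) h.aN η η' fun f hf => ?_
  have h2 : Cf (h.xt f) := h.xt_class hf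
  have h3 := h.om_S hχ h1 h2 fun y hy => h.xt_out f hy
  have h4 := h.om_S hχ h1' h2 fun y hy => h.xt_out f hy
  simp_rw [h.xt_i] at h3 h4
  rw [← h3, ← h4]

section

variable {p : ℕ} [Fact p.Prime]

theorem Loc.TT_irr (h : Loc (D.cj x) Q P M N) (hV : ¬ p ∣ Nat.card V) (hPp : IsPGroup p P)
    {θ : V →* ℂ} (hS : D.Stab θ) {χ : N → ℂ} (hχ : IsIrreducibleCharacter χ)
    (hne : h.TT θ χ ≠ 0) : IsIrreducibleCharacter (h.TT θ χ) :=
  CD.T_irr cardC_ne (h.stab hV hPp (D.cj_stab hS x)) hχ hne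

theorem Loc.TT_ne_iff (h : Loc (D.cj x) Q P M N) (h' : NPs D P N) (hV : ¬ p ∣ Nat.card V)
    (hPp : IsPGroup p P) {θ : V →* ℂ} (hS : D.Stab θ) {χ : N → ℂ}
    (hχ : IsIrreducibleCharacter χ) : h.TT θ χ ≠ 0 ↔ h'.S χ (D.et θ x P) ≠ 0 := by
  have : Finite G := Finite.of_injective D.j fun a b h => D.j_inj h
  have : Fintype M := Fintype.ofFinite _
  have h1 := h.TT_one h' θ χ
  constructor
  · intro h0 h2
    have h3 := h.TT_irr hV hPp hS hχ h0
    rw [h2, mul_zero] at h1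
    exact irr_one_ne h3 h1
  · intro h0 h2
    rw [h2] at h1
    rcases mul_eq_zero.mp h1.symm with h3 | h3
    · exact absurd h3 (inv_ne_zero cardC_ne)
    · exact h0 h3

/-- the conjugates of `θ` below `χ` form one orbit -/
theorem NPs.dbl (hN : NPs D P N) (hV : ¬ p ∣ Nat.card V) (hPp : IsPGroup p P)
    {θ : V →* ℂ} (hS : D.Stab θ) {χ : N → ℂ} (hχ : IsIrreducibleCharacter χ) {x x' : Γ}
    {Q Q' : Subgroup G} (hP : P = Q.map (D.cj x).j) (hP' : P = Q'.map (D.cj x').j)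
    (h : hN.S χ (D.et θ x P) ≠ 0) (h' : hN.S χ (D.et θ x' P) ≠ 0) :
    ∃ n ∈ N, ∃ g : G, x' = n * x * D.j g ∧ Q = Q'.map (MulAut.conj g).toMonoidHom := by
  have hG : Finite G := Finite.of_injective D.j fun a b h => D.j_inj h
  obtain ⟨y, hy⟩ := hN.S_conj hχ h h'
  have e1 : θ.comp (D.c x'⁻¹).toMonoidHom = θ.comp (D.c (x⁻¹ * y)).toMonoidHom := by
    refine D.inv_ext hV hPp (P := P) ?_ ?_ ?_
    · intro u hu v
      change θ (D.c x'⁻¹ (D.c u v)) = θ (D.c x'⁻¹ v)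
      obtain ⟨q, hq, hu'⟩ : u ∈ Q'.map (D.cj x').j := hP' ▸ hu
      have h2 : x'⁻¹ * u = D.j q * x'⁻¹ := by rw [← hu', D.cj_j]; group
      rw [← MulAut.mul_apply, ← map_mul, h2, map_mul, MulAut.mul_apply, D.st_j hS]
    · intro u hu v
      change θ (D.c (x⁻¹ * y) (D.c u v)) = θ (D.c (x⁻¹ * y) v)
      have h3 : (y : Γ) * u * (y : Γ)⁻¹ ∈ P := (Subgroup.mem_normalizer_iff.mp (hN.NP y.2) u).1 hu
      obtain ⟨q, hq, hu'⟩ : (y : Γ) * u * (y : Γ)⁻¹ ∈ Q.map (D.cj x).j := by rw [← hP]; exact h3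
      have h2 : x⁻¹ * y * u = D.j q * (x⁻¹ * y) := by
        have h4 : (y : Γ) * u = x * D.j q * x⁻¹ * y := by
          rw [← D.cj_j, hu']; group
        rw [mul_assoc, h4]; group
      rw [← MulAut.mul_apply, ← map_mul, h2, map_mul, MulAut.mul_apply, D.st_j hS]
    · intro v hv
      have h2 := hy ⟨v, hv⟩
      rw [CD.et_apply, CD.et_apply] at h2
      change θ (D.c x'⁻¹ v) = θ (D.c (x⁻¹ * y) v)
      rw [map_mul, MulAut.mul_apply]
      exact h2
  have e2 : ∀ v, θ (D.c (x⁻¹ * y * x') v) = θ v := by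
    intro v
    have h2 := DFunLike.congr_fun e1 (D.c x' v)
    change θ (D.c x'⁻¹ (D.c x' v)) = θ (D.c (x⁻¹ * y) (D.c x' v)) at h2
    rw [← MulAut.mul_apply, ← map_mul, inv_mul_cancel, map_one, MulAut.one_apply,
      ← MulAut.mul_apply, ← map_mul] at h2
    exact h2.symm
  obtain ⟨v, g, e3⟩ := (hS _).1 e2
  have e4 := D.conj_sub (Q := Q) (Q' := Q'.map (MulAut.conj g).toMonoidHom) (v := v) (by
    rintro _ ⟨q, hq, rfl⟩
    have h2 : x' * D.j q * x'⁻¹ ∈ P := by rw [hP']; exact ⟨q, hq, rfl⟩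
    have h3 : (y : Γ) * (x' * D.j q * x'⁻¹) * (y : Γ)⁻¹ ∈ P :=
      (Subgroup.mem_normalizer_iff.mp (hN.NP y.2) _).1 h2
    obtain ⟨r, hr, h4⟩ : (y : Γ) * (x' * D.j q * x'⁻¹) * (y : Γ)⁻¹ ∈ Q.map (D.cj x).j := by
      rw [← hP]; exact h3
    refine ⟨r, hr, ?_⟩
    change D.i v * D.j (g * q * g⁻¹) * (D.i v)⁻¹ = D.j r
    have h5 : D.i v * D.j (g * q * g⁻¹) * (D.i v)⁻¹ =
        (D.i v * D.j g) * D.j q * (D.i v * D.j g)⁻¹ := by
      rw [map_mul, map_mul, map_inv]; group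
    rw [h5, ← e3]
    rw [D.cj_j] at h4
    have h6 : D.j r = x⁻¹ * (x * D.j r * x⁻¹) * x := by group
    rw [h6, h4]
    group)
  have e5 : Q'.map (MulAut.conj g).toMonoidHom = Q := by
    refine Subgroup.eq_of_le_of_card_ge (fun q hq => e4.1 q hq) ?_
    rw [Subgroup.card_map_of_injective (MulAut.conj g).injective, ← D.card_map hP, ← D.card_map hP']
  have e6 : v ∈ (D.cj x).fix Q := by
    rw [D.cj_fix]
    have h8 := e4.2
    rwa [e5] at h8
  have e7 : D.i (D.c x v) ∈ N := hN.iN _ ((D.c_cP hP).1 e6)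
  refine ⟨(y : Γ)⁻¹ * D.i (D.c x v), Subgroup.mul_mem _ (Subgroup.inv_mem _ y.2) e7, g, ?_, e5.symm⟩
  rw [D.hc]
  have h2 : x' = (y : Γ)⁻¹ * x * (x⁻¹ * y * x') := by group
  rw [h2, e3]
  group

end

end Run7.h45
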