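import Pool.Agent.Run7.h45.Ch3

/-!
# Every character of the block comes from `G`
-/

set_option autoImplicit false
set_option linter.unusedSectionVars false

open scoped Classical BigOperators

noncomputable section

namespace Run7.h45

open Pool.Agent.H254R3.IN (IsIrr IsBlock Om IsCl RF red red_Om red_mul red_sum red_zero charP_RF
  red_sub red_of_mem)
open Pool.Agent.Y930.NV (irr_one_ne)
open Pool.Agent.Y63.NV (IsClassFun)

variable {Γ V G : Type} [Group Γ] [CommGroup V] [Group G] {D : CD Γ V G} {P N : Subgroup Γ}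
  [Finite Γ] [Fintype V] {p : ℕ} [Fact p.Prime] {O : ValuationSubring ℂ}

theorem exists_lift (a : RF O) : ∃ z : ℂ, z ∈ O ∧ red O z = a := by
  obtain ⟨z, hz⟩ := IsLocalRing.residue_surjective a
  exact ⟨z, z.2, by rw [red_of_mem z.2]; exact hz⟩

/-- cutting a class function to the centralizer of a normal `p`-subgroup -/
theorem Om_cut {N : Type} [Group N] [Fintype N] (hpO : (p : ℂ) ∈ O.nonunits) {R : Subgroup N}
    (hn : R.Normal) (hR : IsPGroup p R) {χ : N → ℂ} (hχ : IsIrr χ) {g : N → ℂ} (hg : IsCl g)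
    (hgO : ∀ y, g y ∈ O) :
    IsCl (fun y : N => if y ∈ Subgroup.centralizer (R : Set N) then g y else 0) ∧
    (∀ y, (fun y : N => if y ∈ Subgroup.centralizer (R : Set N) then g y else 0) y ∈ O) ∧
    red O (Om g χ) =
      red O (Om (fun y : N => if y ∈ Subgroup.centralizer (R : Set N) then g y else 0) χ) := by
  have hnc : (Subgroup.centralizer (R : Set N)).Normal := Subgroup.normal_centralizer
  have h1 : IsCl (fun y : N => if y ∈ Subgroup.centralizer (R : Set N) then g y else 0) := by
    intro y x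
    have e : x * y * x⁻¹ ∈ Subgroup.centralizer (R : Set N) ↔ y ∈ Subgroup.centralizer (R : Set N) :=
      (hnc.mem_comm_iff (a := x * y) (b := x⁻¹)).trans (by rw [inv_mul_cancel_left])
    change (if _ then _ else _) = if _ then _ else _
    simp only [e]
    split_ifs
    · exact hg y x
    · rfl
  have h2 : ∀ y, (fun y : N => if y ∈ Subgroup.centralizer (R : Set N) then g y else 0) y ∈ O := by
    intro y
    change (if _ then _ else _) ∈ O
    split_ifs
    · exact hgO y
    · exact O.zero_mem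
  refine ⟨h1, h2, ?_⟩
  rw [← sub_eq_zero, ← red_sub (red_Om hχ hg hgO).1 (red_Om hχ h1 h2).1,
    ← Pool.Agent.H254R3.IN.Om_sub]
  refine Om_vanish hpO hn hR hχ (fun y x => ?_) (fun y =>
    Pool.Agent.H254R3.IN.sub_mem' (hgO y) (h2 y)) ?_
  · have e1 := hg y x
    have e2 := h1 y x
    change g (x * y * x⁻¹) - (fun y : N => if y ∈ Subgroup.centralizer (R : Set N) then g y else 0)
      (x * y * x⁻¹) = _
    rw [e1, e2]
  · intro y hy
    change red O (g y - if y ∈ Subgroup.centralizer (R : Set N) then g y else 0) = 0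
    rw [if_pos hy, sub_self, red_zero]

/-- every character of the block lies over a conjugate of `θ` -/
theorem NPs.exist (hN : NPs D P N) (hpO : (p : ℂ) ∈ O.nonunits) (hV : ¬ p ∣ Nat.card V)
    (hPp : IsPGroup p P) {θ : V →* ℂ} (hS : D.Stab θ) [Fintype N] {χ : N → ℂ} (hχ : IsIrr χ)
    (hB : ∀ f : V → ℂ, (∀ y u, f (D.c y u) = f u) → (∀ v, f v ∈ O) →
      red O (Om (fun y : N => D.xV f y) χ) = red O (∑ v, f v * θ v)) :
    ∃ (x : Γ) (Q : Subgroup G), P = Q.map (D.cj x).j ∧ hN.S χ (D.et θ x P) ≠ 0 := by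
  have hch := charP_RF hpO
  have hVF : (Fintype.card V : RF O) ≠ 0 := by
    rw [← Nat.card_eq_fintype_card]
    intro h
    exact hV ((CharP.cast_eq_zero_iff (RF O) p _).mp h)
  have : Fintype P := Fintype.ofFinite P
  obtain ⟨η, hη⟩ := dual_complete (fun u : D.cP P => χ (hN.i u)) (by
    rw [map_one]; exact irr_one_ne hχ)
  have hη' : hN.S χ η ≠ 0 := hη
  let a : P →* MulAut V := D.c.comp P.subtype
  have hfx : Fx a = D.cP P := by
    ext v
    constructor
    · intro h u hu
      exact h ⟨u, hu⟩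
    · intro h u
      exact h u.1 u.2
  obtain ⟨θ', h1, h2⟩ := hom_extend (coprime_pg hV hPp) a
    (η.comp (Subgroup.inclusion hfx.le))
  have h2' : ∀ u : D.cP P, θ' u = η u := by
    intro u
    rw [h2 u (by rw [hfx]; exact u.2)]
    rfl
  -- compare with `θ`
  have h3 : ∀ f : V → RF O, (∀ y u, f (D.c y u) = f u) →
      ∑ v, f v * redH (redO O) θ' v = ∑ v, f v * redH (redO O) θ v := by
    intro f hf
    choose ℓ hℓ using fun a : RF O => exists_lift a
    have hf' : ∀ y u, ℓ (f (D.c y u)) = ℓ (f u) := fun y u => by rw [hf]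
    have e0 : ∑ v, f v * redH (redO O) θ v = red O (∑ v, ℓ (f v) * θ v) := by
      rw [red_sum _ _ fun v _ => O.mul_mem _ _ (hℓ _).1 (hom_mem θ v)]
      exact Finset.sum_congr rfl fun v _ => by
        rw [red_mul (hℓ _).1 (hom_mem θ v), (hℓ _).2, redH_O]
    rw [e0, ← hB (fun v => ℓ (f v)) hf' fun v => (hℓ _).1]
    have hn : (P.subgroupOf N).Normal := by
      refine ⟨fun u hu y => ?_⟩
      exact (Subgroup.mem_normalizer_iff.1 (hN.NP y.2) _).1 hu
    have hpg : IsPGroup p (P.subgroupOf N) := hPp.comap_subtype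
    have hgc : IsCl (fun y : N => D.xV (fun v => ℓ (f v)) y) := fun g y => by
      have h4 : IsClassFun (D.xV (fun v => ℓ (f v))) := D.xV_class hf'
      exact h4 (y : Γ) (g : Γ)
    have hgO : ∀ y : N, D.xV (fun v => ℓ (f v)) (y : Γ) ∈ O := by
      intro y
      unfold CD.xV
      split_ifs
      · exact (hℓ _).1
      · exact O.zero_mem
    obtain ⟨k1, k2, k3⟩ := Om_cut hpO hn hpg hχ hgc hgO
    rw [k3]
    have hmem : ∀ y : N, y ∈ Subgroup.centralizer ((P.subgroupOf N : Subgroup N) : Set N) ↔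
          ∀ u ∈ P, u * (y : Γ) = y * u := by
      intro y
      rw [Subgroup.mem_centralizer_iff]
      constructor
      · intro h u hu
        exact congrArg Subtype.val (h ⟨u, hN.PN hu⟩ hu)
      · intro h u hu
        exact Subtype.ext (h u hu)
    have h5 := hN.om_S hχ hη' (f := fun y : N => if y ∈ Subgroup.centralizer
      ((P.subgroupOf N : Subgroup N) : Set N) then D.xV (fun v => ℓ (f v)) (y : Γ) else 0)
      (fun g y => k1 y g) (by
        intro y hy
        change (if _ then _ else _) = _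
        by_cases h4 : y ∈ Subgroup.centralizer ((P.subgroupOf N : Subgroup N) : Set N)
        · rw [if_pos h4]
          refine D.xV_out _ ?_
          rintro ⟨v, hv⟩
          apply hy
          rw [hmem] at h4
          refine ⟨⟨v, fun u hu => ?_⟩, Subtype.ext hv⟩
          rw [D.c_eq_iff, ← hv]
          exact h4 u hu
        · rw [if_neg h4])
    change Om _ χ = _ at h5
    rw [h5]
    have e1 : ∀ u : D.cP P, (if hN.i u ∈ Subgroup.centralizer
        ((P.subgroupOf N : Subgroup N) : Set N) then D.xV (fun v => ℓ (f v)) (hN.i u : Γ) else 0) *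
        η u = ℓ (f u) * η u := by
      intro u
      rw [if_pos]
      · congr 1
        exact D.xV_i _ _
      · rw [hmem]
        intro w hw
        exact D.c_eq_iff.1 (u.2 w hw)
    rw [Finset.sum_congr rfl fun u _ => e1 u,
      red_sum _ _ fun u _ => O.mul_mem _ _ (hℓ _).1 (hom_mem η u)]
    have e2 : ∀ u : D.cP P, red O (ℓ (f u) * η u) = f u * redH (redO O) θ' u := by
      intro u
      rw [red_mul (hℓ _).1 (hom_mem η u), (hℓ _).2, redH_O, h2']
    rw [Finset.sum_congr rfl fun u _ => e2 u]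
    let _ : MulAction P V := MulAction.compHom V a
    have hact : ∀ (q : P) (v : V), q • v = D.c q v := fun q v => rfl
    rw [Pool.Agent.Y63.NV.B930.sum_fixed (p := p) (Q := P) (Y := V) hPp (fun v => f v * redH (redO O) θ' v) (by
      intro q v
      rw [hact, hf, redH_O, redH_O]
      congr 1
      exact congrArg (red O) (h1 q v))]
    refine (Finset.sum_subtype _ (fun v => ?_) _)
    rw [Pool.Agent.Y63.NV.B930.mem_fx]
    constructor
    · intro h q hq
      exact h ⟨q, hq⟩
    · intro h q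
      exact h q.1 q.2
  obtain ⟨y, hy⟩ := sep hVF D.c (redH (redO O) θ) (redH (redO O) θ') h3
  have h4 : ∀ v, θ' v = θ (D.c y v) := fun v => redH_inj (redO O) hV (hy v)
  have h5 : ∀ u ∈ P, ∀ v, θ (D.c (y * u * y⁻¹) v) = θ v := by
    intro u hu v
    have h6 := h1 ⟨u, hu⟩ (D.c y⁻¹ v)
    change θ' (D.c u (D.c y⁻¹ v)) = θ' (D.c y⁻¹ v) at h6
    rw [h4, h4] at h6
    rw [map_mul, map_mul, MulAut.mul_apply, MulAut.mul_apply, h6, ← MulAut.mul_apply, ← map_mul,
      mul_inv_cancel, map_one, MulAut.one_apply]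
  obtain ⟨v, Q, hQ⟩ := D.sylow hV hPp hS h5
  refine ⟨y⁻¹ * D.i v, Q, hQ, ?_⟩
  have h6 : D.et θ (y⁻¹ * D.i v) P = η := by
    ext u
    rw [D.et_apply, ← h2' u, h4]
    congr 1
    have h7 : (y⁻¹ * D.i v)⁻¹ = D.i v⁻¹ * y := by rw [map_inv]; group
    rw [h7, map_mul, MulAut.mul_apply, D.c_i]
  rw [h6]
  exact hη'

end Run7.h45
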