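import Pool.Agent.Run7.h45.Ch1
import Pool.Agent.Run7.h45.Ch4

/-!
# Normal chains of the stabilizer and of the whole group
-/

set_option autoImplicit false
set_option linter.unusedSectionVars false

open scoped Classical BigOperators

noncomputable section

namespace Run7.h45

open Pool.Agent.Y63.KR

section one

variable {G : Type} [Group G] [Finite G] {p : ℕ} [Fact p.Prime] {σ : Set (Subgroup G)}

theorem sSup_cases (hσ : IsPChain p σ) : σ = ∅ ∨ sSup σ ∈ σ := by
  rcases Set.eq_empty_or_nonempty σ with h | h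
  · exact Or.inl h
  · right
    obtain ⟨M, hM⟩ := (Set.toFinite σ).exists_maximal h
    have hgr : IsGreatest σ M := by
      refine ⟨hM.1, fun P hP => ?_⟩
      rcases hσ.chain.total hP hM.1 with h1 | h1
      · exact h1
      · exact hM.2 hP h1
    rw [hgr.isLUB.sSup_eq]
    exact hM.1

theorem sSup_pgroup (hσ : IsPChain p σ) : IsPGroup p (sSup σ : Subgroup G) := by
  rcases sSup_cases hσ with h | h
  · rw [h, sSup_empty]
    exact IsPGroup.of_bot
  · exact hσ.isPGroup _ h

theorem sSup_le_stab (hN : Nch σ) : sSup σ ≤ chainStabilizer σ := sSup_le hN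

theorem stab_le_norm (hσ : IsPChain p σ) :
    chainStabilizer σ ≤ Subgroup.normalizer ((sSup σ : Subgroup G) : Set G) := by
  intro x hx
  rcases sSup_cases hσ with h | h
  · rw [h, sSup_empty, Subgroup.mem_normalizer_iff]
    intro y
    rw [Subgroup.mem_bot, Subgroup.mem_bot]
    constructor
    · rintro rfl
      group
    · intro h1
      have h2 : y = x⁻¹ * (x * y * x⁻¹) * x := by group
      rw [h2, h1]
      group
  · rw [← conjSub_eq_iff]
    exact mem_chainStabilizer.1 hx _ h

/-- a set stabilizer of a chain stabilizes its members -/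
theorem stab_of_image (hσ : IsPChain p σ) {g : G} (h : conjSub g '' σ = σ) :
    g ∈ chainStabilizer σ := by
  rw [mem_chainStabilizer]
  intro P hP
  have hgP : conjSub g P ∈ σ := by
    rw [← h]
    exact ⟨P, hP, rfl⟩
  have hcard : Nat.card (conjSub g P) = Nat.card P :=
    Nat.card_congr (Subgroup.equivMapOfInjective _ _ (MulAut.conj g).injective).toEquiv.symm
  rcases hσ.chain.total hgP hP with h4 | h4
  · exact Subgroup.eq_of_le_of_card_ge h4 hcard.ge
  · exact (Subgroup.eq_of_le_of_card_ge h4 hcard.le).symm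

theorem image_of_stab {g : G} (h : g ∈ chainStabilizer σ) : conjSub g '' σ = σ := by
  ext P
  constructor
  · rintro ⟨Q, hQ, rfl⟩
    rw [mem_chainStabilizer.1 h Q hQ]
    exact hQ
  · intro hP
    exact ⟨P, hP, mem_chainStabilizer.1 h P hP⟩

end one

section two

variable {Γ V G : Type} [Group Γ] [CommGroup V] [Group G] {D : CD Γ V G} [Finite Γ]
  {p : ℕ} [Fact p.Prime]

/-- the image of a chain -/
def CD.im (D : CD Γ V G) (τ : Set (Subgroup G)) : Set (Subgroup Γ) := (fun Q => Q.map D.j) '' τ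

theorem map_inj_j : Function.Injective (fun Q : Subgroup G => Q.map D.j) :=
  Subgroup.map_injective fun a b h => D.j_inj h

theorem CD.im_inj {τ τ' : Set (Subgroup G)} (h : D.im τ = D.im τ') : τ = τ' :=
  Set.image_injective.2 map_inj_j h

theorem CD.im_sSup (τ : Set (Subgroup G)) : sSup (D.im τ) = (sSup τ).map D.j := by
  unfold CD.im
  rw [sSup_image, (Subgroup.gc_map_comap D.j).l_sSup]

theorem CD.im_ncard (τ : Set (Subgroup G)) : (D.im τ).ncard = τ.ncard :=
  Set.ncard_image_of_injective τ map_inj_j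

theorem CD.im_chain {τ : Set (Subgroup G)} (h : IsPChain p τ) : IsPChain p (D.im τ) := by
  refine ⟨?_, ?_, ?_⟩
  · rintro _ ⟨P, hP, rfl⟩ _ ⟨Q, hQ, rfl⟩ _
    rcases h.chain.total hP hQ with h1 | h1
    · exact Or.inl (Subgroup.map_mono h1)
    · exact Or.inr (Subgroup.map_mono h1)
  · rintro _ ⟨P, hP, rfl⟩
    exact (h.isPGroup P hP).map _
  · rintro _ ⟨P, hP, rfl⟩ h1
    apply h.ne_bot P hP
    have h2 : P.map D.j = (⊥ : Subgroup G).map D.j := by rw [Subgroup.map_bot]; exact h1
    exact map_inj_j h2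

theorem CD.im_stab {τ : Set (Subgroup G)} {m : G} (h : m ∈ chainStabilizer τ) :
    D.j m ∈ chainStabilizer (D.im τ) := by
  rw [mem_chainStabilizer] at h ⊢
  rintro _ ⟨P, hP, rfl⟩
  rw [conjSub_eq_iff]
  exact D.j_norm rfl (conjSub_eq_iff.1 (h P hP))

theorem CD.im_Nch {τ : Set (Subgroup G)} (h : Nch τ) : Nch (D.im τ) := by
  rintro _ ⟨P, hP, rfl⟩ _ ⟨q, hq, rfl⟩
  exact D.im_stab (h P hP hq)

theorem CD.im_cj (x : Γ) (τ : Set (Subgroup G)) : (D.cj x).im τ = conjSub x '' D.im τ := by
  unfold CD.im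
  rw [← Set.image_comp]
  congr 1
  funext Q
  change Q.map ((MulAut.conj x).toMonoidHom.comp D.j) = (Q.map D.j).map _
  rw [Subgroup.map_map]

theorem map_conjSub (g : G) (Q : Subgroup G) : (conjSub g Q).map D.j = conjSub (D.j g) (Q.map D.j) := by
  unfold conjSub
  rw [Subgroup.map_map, Subgroup.map_map]
  congr 1
  ext q
  change D.j (g * q * g⁻¹) = D.j g * D.j q * (D.j g)⁻¹
  rw [map_mul, map_mul, map_inv]

theorem CD.im_conj (g : G) (τ : Set (Subgroup G)) :
    D.im (conjSub g '' τ) = conjSub (D.j g) '' D.im τ := by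
  unfold CD.im
  rw [← Set.image_comp, ← Set.image_comp]
  congr 1
  funext Q
  exact map_conjSub g Q

theorem CD.im_le {τ : Set (Subgroup G)} {v : V} (hv : v ∈ D.fix (sSup τ)) :
    D.i v ∈ chainStabilizer (D.im τ) := by
  rw [mem_chainStabilizer]
  rintro _ ⟨P, hP, rfl⟩
  rw [conjSub_eq_iff]
  exact D.i_norm rfl fun q hq => hv q (le_sSup hP hq)

/-- the local data of a chain -/
theorem CD.loc {τ : Set (Subgroup G)} (hτ : IsPChain p τ) (hN : Nch τ) :
    Loc D (sSup τ) (sSup (D.im τ)) (chainStabilizer τ) (chainStabilizer (D.im τ)) where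
  hP := D.im_sSup τ
  PN := sSup_le_stab (D.im_Nch hN)
  NP := stab_le_norm (D.im_chain hτ)
  iN := fun v hv => D.im_le hv
  jN := fun m hm => D.im_stab hm
  back := by
    intro v m hvm
    have hG : Finite G := Finite.of_injective D.j fun a b h => D.j_inj h
    rw [mem_chainStabilizer] at hvm
    have key : ∀ R ∈ τ, conjSub m R = R ∧ v ∈ D.fix R := by
      intro R hR
      have h1 : conjSub (D.i v * D.j m) (R.map D.j) = R.map D.j := hvm _ ⟨R, hR, rfl⟩
      have h3 := D.conj_sub (Q := R) (Q' := R.map (MulAut.conj m).toMonoidHom) (v := v) (by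
        rintro _ ⟨q, hq, rfl⟩
        have h2 : (D.i v * D.j m) * D.j q * (D.i v * D.j m)⁻¹ ∈ R.map D.j := by
          rw [← h1]
          exact conj_mem_conjSub ⟨q, hq, rfl⟩
        obtain ⟨r, hr, h4⟩ := h2
        refine ⟨r, hr, ?_⟩
        change D.i v * D.j (m * q * m⁻¹) * (D.i v)⁻¹ = D.j r
        rw [h4, map_mul, map_mul, map_inv]
        group)
      have h4 : R.map (MulAut.conj m).toMonoidHom = R := by
        refine Subgroup.eq_of_le_of_card_ge (fun q hq => h3.1 q hq) ?_
        rw [Subgroup.card_map_of_injective (MulAut.conj m).injective]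
      refine ⟨h4, ?_⟩
      have h5 := h3.2
      rwa [h4] at h5
    refine ⟨?_, mem_chainStabilizer.2 fun R hR => (key R hR).1⟩
    rcases sSup_cases hτ with h | h
    · intro q hq
      rw [h, sSup_empty, Subgroup.mem_bot] at hq
      rw [hq, map_one, map_one, MulAut.one_apply]
    · exact (key _ h).2

/-- `N` contains `C_V(P)` -/
theorem nps_of_chain {σ : Set (Subgroup Γ)} (hσ : IsPChain p σ) (hN : Nch σ) :
    NPs D (sSup σ) (chainStabilizer σ) where
  PN := sSup_le_stab hN
  NP := stab_le_norm hσ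
  iN := by
    intro v hv
    rw [mem_chainStabilizer]
    intro P hP
    rw [conjSub_eq_iff]
    have h1 : ∀ u ∈ P, D.i v * u * (D.i v)⁻¹ = u := by
      intro u hu
      rw [← D.c_eq_iff.1 (hv u (le_sSup hP hu)), mul_inv_cancel_right]
    rw [Subgroup.mem_normalizer_iff]
    intro u
    constructor
    · intro hu
      have h2 := h1 u hu
      rw [h2]
      exact hu
    · intro hu
      have h2 := h1 _ hu
      have h3 : D.i v * u * (D.i v)⁻¹ = u := mul_left_cancel (mul_right_cancel h2)
      rwa [h3] at hu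

/-- the chain of preimages -/
theorem exists_chain {σ : Set (Subgroup Γ)} (hσ : IsPChain p σ) (hN : Nch σ) {Q : Subgroup G}
    (hP : sSup σ = Q.map D.j) : ∃ τ : Set (Subgroup G), IsPChain p τ ∧ Nch τ ∧ σ = D.im τ := by
  have hinj : Function.Injective D.j := fun a b h => D.j_inj h
  have h1 : ∀ P ∈ σ, (P.comap D.j).map D.j = P := by
    intro P hPσ
    rw [Subgroup.map_comap_eq]
    refine inf_eq_right.2 ((le_sSup hPσ).trans ?_)
    rw [hP]
    exact Subgroup.map_le_range _ _
  have himg : σ = D.im ((fun P => P.comap D.j) '' σ) := by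
    unfold CD.im
    rw [← Set.image_comp]
    ext P
    constructor
    · intro h
      exact ⟨P, h, h1 P h⟩
    · rintro ⟨P', h, rfl⟩
      change (P'.comap D.j).map D.j ∈ σ
      rw [h1 P' h]
      exact h
  refine ⟨(fun P => P.comap D.j) '' σ, ⟨?_, ?_, ?_⟩, ?_, himg⟩
  · rintro _ ⟨P, hP', rfl⟩ _ ⟨P'', hP'', rfl⟩ _
    rcases hσ.chain.total hP' hP'' with h | h
    · exact Or.inl (Subgroup.comap_mono h)
    · exact Or.inr (Subgroup.comap_mono h)
  · rintro _ ⟨P, hP', rfl⟩
    exact (hσ.isPGroup P hP').comap_of_injective _ hinj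
  · rintro _ ⟨P, hP', rfl⟩ h2
    apply hσ.ne_bot P hP'
    have h2' : P.comap D.j = ⊥ := h2
    rw [← h1 P hP', h2', Subgroup.map_bot]
  · rintro _ ⟨P, hP', rfl⟩ r hr
    have h2 := hN P hP' hr
    rw [mem_chainStabilizer] at h2 ⊢
    rintro _ ⟨P'', hP'', rfl⟩
    have h3 := h2 P'' hP''
    have h4 : (conjSub r (P''.comap D.j)).map D.j = (P''.comap D.j).map D.j := by
      rw [map_conjSub, h1 P'' hP'']
      exact h3
    exact Subgroup.map_injective hinj h4

end two

end Run7.h45
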