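import Pool.Agent.Run7.h45.Ex

/-!
# Counting weights
-/

set_option autoImplicit false
set_option linter.unusedSectionVars false

open scoped Classical BigOperators

noncomputable section

namespace Run7.h45

open Pool.Agent.Y63.NV Pool.Agent.N85.WM
open Pool.Agent.Y63.AWC (IsIrreducibleCharacter pSubgroupSetoid)
open Pool.Agent.Y930.NV (Cf om irr_one_ne irr_Cf)

variable {Γ V G : Type} [Group Γ] [CommGroup V] [Group G] {D : CD Γ V G}
  [Finite Γ] [Fintype V]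

theorem irr1 {A : Type} [Group A] {χ : A → ℂ} (h : IsIrreducibleCharacter χ) : χ 1 ≠ 0 := by
  obtain ⟨V, _, _, _, ρ, hr, rfl⟩ := h
  have hnt := Pool.Agent.Y63.AWC.irr_nontrivial ρ hr
  rw [ρ.char_one]
  exact_mod_cast (Module.finrank_pos (R := ℂ) (M := V)).ne'

theorem CD.TT_gen (θ : V →* ℂ) (hS : D.Stab θ) {P : Subgroup Γ} {Q : Subgroup G} {x x' n : Γ}
    {g : G} (hn : n ∈ Subgroup.normalizer (P : Set Γ)) (hg : g ∈ Subgroup.normalizer (Q : Set G))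
    (hx : x' = n * x * D.j g) (hP : P = Q.map (D.cj x).j) (hP' : P = Q.map (D.cj x').j)
    {χ : Subgroup.normalizer (P : Set Γ) → ℂ} (hχ : IsClassFun χ)
    (m : Subgroup.normalizer (Q : Set G)) :
    D.TT θ x' Q P hP' χ m = D.TT θ x Q P hP χ (⟨g, hg⟩ * m * ⟨g, hg⟩⁻¹) := by
  have h0 : ∀ y : Γ, (D.cj y).fix Q = D.fix Q := fun y => D.cj_fix Q y
  have hc : ∀ v ∈ D.fix Q, D.c (D.j g) v ∈ D.fix Q := fun v hv =>
    D.c_fix rfl (D.j_norm rfl hg) hv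
  have hc' : ∀ v ∈ D.fix Q, D.c (D.j g)⁻¹ v ∈ D.fix Q := fun v hv => by
    rw [← map_inv D.j]
    exact D.c_fix rfl (D.j_norm rfl (Subgroup.inv_mem _ hg)) hv
  let E : (D.cj x').fix Q ≃ (D.cj x).fix Q :=
    { toFun := fun v => ⟨D.c (D.j g) v, by rw [h0]; exact hc _ (by rw [← h0 x']; exact v.2)⟩
      invFun := fun v => ⟨D.c (D.j g)⁻¹ v, by rw [h0]; exact hc' _ (by rw [← h0 x]; exact v.2)⟩
      left_inv := fun v => by
        apply Subtype.ext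
        change D.c (D.j g)⁻¹ (D.c (D.j g) v) = v
        rw [← MulAut.mul_apply, ← map_mul, inv_mul_cancel, map_one, MulAut.one_apply]
      right_inv := fun v => by
        apply Subtype.ext
        change D.c (D.j g) (D.c (D.j g)⁻¹ v) = v
        rw [← MulAut.mul_apply, ← map_mul, mul_inv_cancel, map_one, MulAut.one_apply] }
  unfold CD.TT CD.T CD.tf
  rw [Fintype.card_congr E]
  congr 1
  refine Fintype.sum_equiv E _ _ fun v => ?_
  have h1 : (hinv ((D.cj x).rh Q θ)) (E v) = (hinv ((D.cj x').rh Q θ)) v := by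
    rw [hinv_apply, hinv_apply]
    change θ (D.c (D.j g) v)⁻¹ = θ (v : V)⁻¹
    have h2 : (D.c (D.j g) (v : V))⁻¹ = D.c (D.j g) (v : V)⁻¹ := (map_inv _ _).symm
    rw [h2, D.st_j hS]
  rw [h1]
  congr 1
  rw [← hχ ⟨n, hn⟩ (((D.cj x).sub Q P hP).i (E v) * _)]
  congr 1
  apply Subtype.ext
  have h5 : ∀ w : V, x' * D.i w * x'⁻¹ * (x' * D.j m * x'⁻¹) =
      n * (x * D.i (D.c (D.j g) w) * x⁻¹ * (x * D.j (g * m * g⁻¹) * x⁻¹)) * n⁻¹ := by
    intro w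
    rw [hx, D.hc, map_mul, map_mul, map_inv]
    group
  exact h5 v

/-- the relation between the weights of `Γ` and those of `G` -/
def RR {p : ℕ} (D : CD Γ V G) (θ : V →* ℂ) (y : YS p Γ) (y' : YS p G) : Prop :=
  ∃ (x : Γ) (hP : y.1.out.1 = y'.1.out.1.map (D.cj x).j),
    y'.2.1 = D.TT θ x y'.1.out.1 y.1.out.1 hP y.2.1

section

variable {p : ℕ} [Fact p.Prime] {F : Type} [Field F] [CharP F p]
  (red : integralClosure ℤ ℂ →+* F) {θ : V →* ℂ}

theorem rr_cv [Finite G] (hV : ¬ p ∣ Nat.card V) (hS : D.Stab θ) {y : YS p Γ} {y' : YS p G}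
    (h : RR D θ y y') {z : Γ → F} (hz : IsClassFun z) :
    cvS red y z = cvS red y' (D.tf (redH red θ) z) := by
  obtain ⟨x, hP, h1⟩ := h
  have hne : D.TT θ x y'.1.out.1 y.1.out.1 hP y.2.1 ≠ 0 := by
    rw [← h1]
    intro h2
    exact irr1 y'.2.2.irr (congrFun h2 1)
  have h2 := CD.cv_star (D := D.cj x) red hV hP y.1.out.2 (D.cj_stab hS x) y.2.2 hne hz
  change centralValue red y.2.1 (fun x => z x) = _
  rw [h2, D.cj_tf _ hz x]
  change centralValue red (D.TT θ x y'.1.out.1 y.1.out.1 hP y.2.1) _ = centralValue red y'.2.1 _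
  rw [← h1]

/-- the value at the functions supported on `V` -/
theorem blk_xV [Finite G] {B : (G → F) → F} (hB : IsBlock B) (η : V →* F) (f : V → F) :
    D.blk η B (D.xV f) = ∑ v, f v * η v := by
  have h1 : D.tf η (D.xV f) = (∑ v, f v * η v) • (Pi.single (1 : G) (1 : F)) := by
    funext m
    unfold CD.tf
    rw [Pi.smul_apply, smul_eq_mul]
    by_cases hm : m = 1
    · subst hm
      rw [Pi.single_eq_same, mul_one]
      refine Finset.sum_congr rfl fun v _ => ?_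
      rw [map_one, mul_one, D.xV_i, mul_comm]
    · rw [Pi.single_eq_of_ne hm, mul_zero]
      refine Finset.sum_eq_zero fun v _ => ?_
      rw [D.xV_out, mul_zero]
      rintro ⟨u, hu⟩
      apply hm
      have h2 : D.i v * D.j m = D.i u * D.j 1 := by rw [hu, map_one, mul_one]
      exact (D.ij_inj h2).2
  unfold CD.blk
  rw [h1, hB.smul _ _ Pool.Agent.Y63.NV.B286.single_class, hB.one, mul_one]

theorem conj_class {A : Type} [Group A] {q q' : Quotient (pSubgroupSetoid p A)}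
    (h : ∃ g : A, q'.out.1 = q.out.1.map (MulAut.conj g).toMonoidHom) : q = q' := by
  rw [← Quotient.out_eq q, ← Quotient.out_eq q']
  exact Quotient.sound h

theorem rr_right (hV : ¬ p ∣ Nat.card V) (hS : D.Stab θ) {y : YS p Γ} {y₁ y₂ : YS p G}
    (h₁ : RR D θ y y₁) (h₂ : RR D θ y y₂) : y₁ = y₂ := by
  obtain ⟨x₁, hP₁, e₁⟩ := h₁
  obtain ⟨x₂, hP₂, e₂⟩ := h₂
  have hne₁ : D.TT θ x₁ y₁.1.out.1 y.1.out.1 hP₁ y.2.1 ≠ 0 := by
    rw [← e₁]
    intro h2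
    exact irr1 y₁.2.2.irr (congrFun h2 1)
  have hne₂ : D.TT θ x₂ y₂.1.out.1 y.1.out.1 hP₂ y.2.1 ≠ 0 := by
    rw [← e₂]
    intro h2
    exact irr1 y₂.2.2.irr (congrFun h2 1)
  obtain ⟨n, hn, g, hx, hQ⟩ := D.dbl hV y.1.out.2 hS y.2.2.irr hP₁ hP₂ hne₁ hne₂
  have hc : y₂.1 = y₁.1 := conj_class ⟨g, hQ⟩
  obtain ⟨c₁, ψ₁, w₁⟩ := y₁
  obtain ⟨c₂, ψ₂, w₂⟩ := y₂
  simp only at hc
  subst hc
  have hg : g ∈ Subgroup.normalizer ((c₂.out.1 : Subgroup G) : Set G) := by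
    rw [Subgroup.mem_normalizer_iff]
    simp only at hQ
    intro q
    constructor
    · intro hq
      rw [hQ]
      exact ⟨q, hq, rfl⟩
    · intro hq
      rw [hQ] at hq
      obtain ⟨r, hr, h7⟩ := hq
      have h8 : g * r * g⁻¹ = g * q * g⁻¹ := h7
      rw [← mul_left_cancel (mul_right_cancel h8)]
      exact hr
  have h3 : ψ₁ = ψ₂ := by
    simp only at e₁ e₂
    funext m
    rw [e₂, D.TT_gen θ hS hn hg hx hP₁ hP₂ (irrT_class (K := ℂ) y.2.2.irr), ← e₁]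
    exact (irrT_class (K := ℂ) w₁.irr _ _).symm
  subst h3
  rfl

theorem rr_left (hV : ¬ p ∣ Nat.card V) (hS : D.Stab θ) {y₁ y₂ : YS p Γ} {y' : YS p G}
    (h₁ : RR D θ y₁ y') (h₂ : RR D θ y₂ y') : y₁ = y₂ := by
  obtain ⟨x₁, hP₁, e₁⟩ := h₁
  obtain ⟨x₂, hP₂, e₂⟩ := h₂
  have hc : y₁.1 = y₂.1 := by
    refine conj_class ⟨x₂ * x₁⁻¹, ?_⟩
    rw [hP₁, hP₂, Subgroup.map_map]
    congr 1
    ext q
    change x₂ * D.j q * x₂⁻¹ = x₂ * x₁⁻¹ * (x₁ * D.j q * x₁⁻¹) * (x₂ * x₁⁻¹)⁻¹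
    group
  obtain ⟨c₁, χ₁, w₁⟩ := y₁
  obtain ⟨c₂, χ₂, w₂⟩ := y₂
  simp only at hc
  subst hc
  simp only at e₁ e₂ hP₁ hP₂
  have hn : x₂ * x₁⁻¹ ∈ Subgroup.normalizer ((c₁.out.1 : Subgroup Γ) : Set Γ) := by
    have h1 : c₁.out.1.map (MulAut.conj (x₂ * x₁⁻¹)).toMonoidHom = c₁.out.1 := by
      conv_lhs => rw [hP₁]
      conv_rhs => rw [hP₂]
      rw [Subgroup.map_map]
      congr 1
      ext q
      change x₂ * x₁⁻¹ * (x₁ * D.j q * x₁⁻¹) * (x₂ * x₁⁻¹)⁻¹ = x₂ * D.j q * x₂⁻¹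
      group
    rw [Subgroup.mem_normalizer_iff]
    intro q
    constructor
    · intro hq
      rw [← h1]
      exact ⟨q, hq, rfl⟩
    · intro hq
      rw [← h1] at hq
      obtain ⟨r, hr, h7⟩ := hq
      have h8 : x₂ * x₁⁻¹ * r * (x₂ * x₁⁻¹)⁻¹ = x₂ * x₁⁻¹ * q * (x₂ * x₁⁻¹)⁻¹ := h7
      rw [← mul_left_cancel (mul_right_cancel h8)]
      exact hr
  have h2 : D.TT θ x₂ y'.1.out.1 c₁.out.1 hP₂ χ₂ = D.TT θ x₁ y'.1.out.1 c₁.out.1 hP₁ χ₂ := by
    funext m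
    rw [D.TT_gen θ hS (g := 1) hn (Subgroup.one_mem _) (by rw [map_one]; group) hP₁ hP₂
      (irrT_class (K := ℂ) w₂.irr)]
    congr 1
    apply Subtype.ext
    change 1 * (m : G) * 1⁻¹ = m
    group
  have hne : D.TT θ x₁ y'.1.out.1 c₁.out.1 hP₁ χ₁ ≠ 0 := by
    rw [← e₁]
    intro h2
    exact irr1 y'.2.2.irr (congrFun h2 1)
  have hG : Finite G := Finite.of_injective D.j fun a b h => D.j_inj h
  have f1 : Fintype (Subgroup.normalizer ((c₁.out.1 : Subgroup Γ) : Set Γ)) := Fintype.ofFinite _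
  have f2 : Fintype (Subgroup.normalizer ((y'.1.out.1 : Subgroup G) : Set G)) := Fintype.ofFinite _
  have h3 : χ₁ = χ₂ := by
    refine CD.T_inj ((D.cj x₁).sub_stab hV hP₁ c₁.out.2 (D.cj_stab hS x₁)) w₁.irr w₂.irr ?_ hne
    change D.TT θ x₁ y'.1.out.1 c₁.out.1 hP₁ χ₁ = D.TT θ x₁ y'.1.out.1 c₁.out.1 hP₁ χ₂
    rw [← h2, ← e₁, ← e₂]
  subst h3
  rfl

theorem rr_ex_left [Finite G] (hV : ¬ p ∣ Nat.card V) (hS : D.Stab θ) (y' : YS p G) :
    ∃ y : YS p Γ, RR D θ y y' := by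
  obtain ⟨c', ψ, w⟩ := y'
  have hp0 : IsPGroup p (c'.out.1.map D.j) := c'.out.2.map _
  let c : Quotient (pSubgroupSetoid p Γ) := Quotient.mk _ ⟨c'.out.1.map D.j, hp0⟩
  obtain ⟨g, hg⟩ : ∃ g : Γ, c'.out.1.map D.j = c.out.1.map (MulAut.conj g).toMonoidHom :=
    Quotient.mk_out (s := pSubgroupSetoid p Γ) ⟨c'.out.1.map D.j, hp0⟩
  have hP : c.out.1 = c'.out.1.map (D.cj g⁻¹).j := by
    have h1 : (D.cj g⁻¹).j = (MulAut.conj g⁻¹).toMonoidHom.comp D.j := rfl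
    rw [h1, ← Subgroup.map_map, hg, Subgroup.map_map]
    have h2 : (MulAut.conj g⁻¹).toMonoidHom.comp (MulAut.conj g).toMonoidHom = MonoidHom.id Γ := by
      ext q
      change g⁻¹ * (g * q * g⁻¹) * g⁻¹⁻¹ = q
      group
    rw [h2, Subgroup.map_id]
  have f1 : Fintype (Subgroup.normalizer ((c.out.1 : Subgroup Γ) : Set Γ)) := Fintype.ofFinite _
  have f2 : Fintype (Subgroup.normalizer ((c'.out.1 : Subgroup G) : Set G)) := Fintype.ofFinite _
  have hfc : ¬ p ∣ Nat.card ((D.cj g⁻¹).fix c'.out.1) :=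
    fun h => hV (h.trans (Subgroup.card_subgroup_dvd_card _))
  obtain ⟨χ, h1, h2⟩ := wt_surj hfc ((D.cj g⁻¹).sub_stab hV hP c.out.2 (D.cj_stab hS g⁻¹))
    ((D.cj g⁻¹).sub_nrm hP) w
  exact ⟨⟨c, χ, h1⟩, g⁻¹, hP, h2.symm⟩

theorem rr_ex_right [Finite G] (hV : ¬ p ∣ Nat.card V) (hS : D.Stab θ) {B : (G → F) → F}
    (hB : IsBlock B) (y : YS p Γ) (hy : BEq (cvS red y) (D.blk (redH red θ) B)) :
    ∃ y' : YS p G, RR D θ y y' := by
  obtain ⟨x, Q, hP, hne⟩ := D.exist red hV y.1.out.2 hS y.2.2 (fun f hf => by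
    rw [← blk_xV (D := D) hB (redH red θ) f]
    exact hy (D.xV f) (D.xV_class hf))
  have hQ : IsPGroup p Q := by
    have h1 : IsPGroup p (Q.map (D.cj x).j) := hP ▸ y.1.out.2
    exact IsPGroup.of_equiv h1 (Q.equivMapOfInjective (D.cj x).j fun a b h => CD.j_inj h).symm
  let c' : Quotient (pSubgroupSetoid p G) := Quotient.mk _ ⟨Q, hQ⟩
  obtain ⟨g, hg⟩ : ∃ g : G, Q = c'.out.1.map (MulAut.conj g).toMonoidHom :=
    Quotient.mk_out (s := pSubgroupSetoid p G) ⟨Q, hQ⟩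
  have hP' : y.1.out.1 = c'.out.1.map (D.cj (x * D.j g)).j := by
    rw [hP, hg, Subgroup.map_map]
    congr 1
    ext q
    change x * D.j (g * q * g⁻¹) * x⁻¹ = x * D.j g * D.j q * (x * D.j g)⁻¹
    rw [map_mul, map_mul, map_inv]
    group
  have hne' : D.TT θ (x * D.j g) c'.out.1 y.1.out.1 hP' y.2.1 ≠ 0 := by
    rw [D.TT_ne_iff hV y.1.out.2 hS y.2.2.irr] at hne ⊢
    have h1 : D.et θ (x * D.j g) y.1.out.1 = D.et θ x y.1.out.1 := by
      ext u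
      rw [D.et_apply, D.et_apply, mul_inv_rev, map_mul, MulAut.mul_apply, ← map_inv D.j,
        D.st_j hS]
    rw [h1]
    exact hne
  have f1 : Fintype (Subgroup.normalizer ((y.1.out.1 : Subgroup Γ) : Set Γ)) := Fintype.ofFinite _
  have f2 : Fintype (Subgroup.normalizer ((c'.out.1 : Subgroup G) : Set G)) := Fintype.ofFinite _
  have hfc : ¬ p ∣ Nat.card ((D.cj (x * D.j g)).fix c'.out.1) :=
    fun h => hV (h.trans (Subgroup.card_subgroup_dvd_card _))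
  have hw := wt_T hfc ((D.cj (x * D.j g)).sub_stab hV hP' y.1.out.2 (D.cj_stab hS _))
    ((D.cj (x * D.j g)).sub_nrm hP') y.2.2 hne'
  exact ⟨⟨c', _, hw⟩, x * D.j g, hP', rfl⟩

theorem card_rel {X Y : Type} (r : X → Y → Prop) (h1 : ∀ x, ∃ y, r x y) (h2 : ∀ y, ∃ x, r x y)
    (h3 : ∀ x y y', r x y → r x y' → y = y') (h4 : ∀ x x' y, r x y → r x' y → x = x') :
    Nat.card X = Nat.card Y := by
  choose f hf using h1
  refine Nat.card_eq_of_bijective f ⟨fun a b hab => ?_, fun y => ?_⟩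
  · exact h4 a b (f a) (hf a) (by rw [hab]; exact hf b)
  · obtain ⟨x, hx⟩ := h2 y
    exact ⟨x, h3 x _ _ (hf x) hx⟩

/-- **the weights of the corresponding blocks** -/
theorem CD.numWts_blk [IsAlgClosed F] [Finite G] (hV : ¬ p ∣ Nat.card V) (hS : D.Stab θ)
    {B : (G → F) → F} (hB : IsBlock B) :
    numWts p red (D.blk (redH red θ) B) = numWts p red B := by
  have hVF : (Fintype.card V : F) ≠ 0 := by
    rw [← Nat.card_eq_fintype_card]
    intro h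
    exact hV ((CharP.cast_eq_zero_iff F p _).mp h)
  have fΓ : Fintype Γ := Fintype.ofFinite Γ
  have fG : Fintype G := Fintype.ofFinite G
  have hSF := stab_redH red hV hS
  rw [numWts_eq, numWts_eq]
  refine card_rel (fun y y' => RR D θ y.1 y'.1) ?_ ?_ ?_ ?_
  · rintro ⟨y, hy⟩
    obtain ⟨y', h⟩ := rr_ex_right red hV hS hB y hy
    refine ⟨⟨y', fun f hf => ?_⟩, h⟩
    have h1 := hy (D.ind (redH red θ) f) (D.ind_class hSF hf)
    rw [rr_cv red hV hS h (D.ind_class hSF hf)] at h1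
    unfold CD.blk at h1
    rwa [D.tf_ind hVF hSF hf] at h1
  · rintro ⟨y', hy'⟩
    obtain ⟨y, h⟩ := rr_ex_left hV hS y'
    refine ⟨⟨y, fun z hz => ?_⟩, h⟩
    rw [rr_cv red hV hS h hz]
    exact hy' _ (D.tf_class hSF hz)
  · intro y y₁ y₂ h1 h2
    exact Subtype.ext (rr_right hV hS h1 h2)
  · intro y₁ y₂ y' h1 h2
    exact Subtype.ext (rr_left hV hS h1 h2)

end

end Run7.h45
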