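import Pool.Agent.Run7.h45.Ch5
import Pool.Agent.Run7.h45.Cnt

/-!
# Counting characters of the stabilizers of normal chains
-/

set_option autoImplicit false
set_option linter.unusedSectionVars false

open scoped Classical BigOperators

noncomputable section

namespace Run7.h45

open Pool.Agent.Y63.KR
open Pool.Agent.H254R3.IN (IsIrr)
open Pool.Agent.Y63.NV (IsClassFun)

variable {Γ V G : Type} [Group Γ] [CommGroup V] [Group G] {D : CD Γ V G} [Finite Γ] [Fintype V]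

theorem Loc.TT_gen {θ : V →* ℂ} (hS : D.Stab θ) {P N : Subgroup Γ} {Q M : Subgroup G}
    {x x' n : Γ} {g : G} (h : Loc (D.cj x) Q P M N) (h' : Loc (D.cj x') Q P M N) (hn : n ∈ N)
    (hg : g ∈ M) (hx : x' = n * x * D.j g) {χ : N → ℂ} (hχ : IsClassFun χ) (m : M) :
    h'.TT θ χ m = h.TT θ χ (⟨g, hg⟩ * m * ⟨g, hg⟩⁻¹) := by
  have h0 : ∀ y : Γ, (D.cj y).fix Q = D.fix Q := fun y => D.cj_fix Q y
  have hgn : g ∈ Subgroup.normalizer (Q : Set G) := h.MQ hg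
  have hc : ∀ v ∈ D.fix Q, D.c (D.j g) v ∈ D.fix Q := fun v hv =>
    D.c_fix rfl (D.j_norm rfl hgn) hv
  have hc' : ∀ v ∈ D.fix Q, D.c (D.j g)⁻¹ v ∈ D.fix Q := fun v hv => by
    rw [← map_inv D.j]
    exact D.c_fix rfl (D.j_norm rfl (Subgroup.inv_mem _ hgn)) hv
  let E : (D.cj x').fix Q ≃ (D.cj x).fix Q :=
    { toFun := fun v => ⟨D.c (D.j g) v, by rw [h0]; exact hc _ (by rw [← h0 x']; exact v.2)⟩
      invFun := fun v => ⟨D.c (D.j g)⁻¹ v, by rw [h0]; exact hc' _ (by rw [← h0 x]; exact v.2)⟩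
      left_inv := fun v => by
        apply Subtype.ext
        change D.c (D.j g)⁻¹ (D.c (D.j g) v) = v
        rw [← MulAut.mul_apply, ← map_mul, inv_mul_cancel, map_one, MulAut.one_apply]
      right_inv := fun v => by
        apply Subtype.ext
        change D.c (D.j g) (D.c (D.j g)⁻¹ v) = v
        rw [← MulAut.mul_apply, ← map_mul, mul_inv_cancel, map_one, MulAut.one_apply] }
  unfold Loc.TT CD.T CD.tf
  rw [Fintype.card_congr E]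
  congr 1
  refine Fintype.sum_equiv E _ _ fun v => ?_
  have h1 : (hinv ((D.cj x).rh Q θ)) (E v) = (hinv ((D.cj x').rh Q θ)) v := by
    rw [hinv_apply, hinv_apply]
    change θ (D.c (D.j g) v)⁻¹ = θ (v : V)⁻¹
    have h2 : (D.c (D.j g) (v : V))⁻¹ = D.c (D.j g) (v : V)⁻¹ := (map_inv _ _).symm
    rw [h2, D.st_j hS]
  rw [h1]
  congr 1
  rw [← hχ ⟨n, hn⟩ (h.cd.i (E v) * _)]
  congr 1
  apply Subtype.ext
  have h5 : ∀ w : V, x' * D.i w * x'⁻¹ * (x' * D.j m * x'⁻¹) =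
      n * (x * D.i (D.c (D.j g) w) * x⁻¹ * (x * D.j (g * m * g⁻¹) * x⁻¹)) * n⁻¹ := by
    intro w
    rw [hx, D.hc, map_mul, map_mul, map_inv]
    group
  exact h5 v

variable {p : ℕ} [Fact p.Prime]

theorem CD.loc' {x : Γ} {τ : Set (Subgroup G)} {σ : Set (Subgroup Γ)} (he : σ = (D.cj x).im τ)
    (hτ : IsPChain p τ) (hN : Nch τ) :
    Loc (D.cj x) (sSup τ) (sSup σ) (chainStabilizer τ) (chainStabilizer σ) := by
  subst he
  exact (D.cj x).loc hτ hN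

/-- comparison of properties of characters of stabilizers of chains -/
structure Cmp (p : ℕ) [Fact p.Prime] (D : CD Γ V G) (θ : V →* ℂ)
    (ΦΓ : ∀ σ : Set (Subgroup Γ), (chainStabilizer σ → ℂ) → Prop)
    (ΦG : ∀ σ : Set (Subgroup G), (chainStabilizer σ → ℂ) → Prop) : Prop where
  ex : ∀ (σ : Set (Subgroup Γ)) (hσ : IsPChain p σ) (hN : Nch σ) (χ : chainStabilizer σ → ℂ),
    IsIrr χ → ΦΓ σ χ → ∃ (x : Γ) (Q : Subgroup G), sSup σ = Q.map (D.cj x).j ∧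
      (nps_of_chain (D := D) hσ hN).S χ (D.et θ x (sSup σ)) ≠ 0
  iff : ∀ (x : Γ) (τ : Set (Subgroup G)) (hτ : IsPChain p τ) (hN : Nch τ) (σ : Set (Subgroup Γ))
    (he : σ = (D.cj x).im τ) (χ : chainStabilizer σ → ℂ), IsIrr χ →
      (D.loc' he hτ hN).TT θ χ ≠ 0 → (ΦΓ σ χ ↔ ΦG τ ((D.loc' he hτ hN).TT θ χ))

/-- the characters with the property `Φ` of the stabilizers of normal chains -/
abbrev YC (p : ℕ) (H : Type) [Group H]
    (Φ : ∀ σ : Set (Subgroup H), (chainStabilizer σ → ℂ) → Prop) : Type :=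
  Σ c : {c : Quotient (chainSetoid p H) // Nch c.out.1},
    {χ : chainStabilizer c.1.out.1 → ℂ // IsIrr χ ∧ Φ c.1.out.1 χ}

section rel

variable {ΦΓ : ∀ σ : Set (Subgroup Γ), (chainStabilizer σ → ℂ) → Prop}
  {ΦG : ∀ σ : Set (Subgroup G), (chainStabilizer σ → ℂ) → Prop} {θ : V →* ℂ}

/-- the relation -/
def RC (D : CD Γ V G) (θ : V →* ℂ) (y : YC p Γ ΦΓ) (y' : YC p G ΦG) : Prop :=
  ∃ (x : Γ) (he : y.1.1.out.1 = (D.cj x).im y'.1.1.out.1),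
    y'.2.1 = (D.loc' he y'.1.1.out.2 y'.1.2).TT θ y.2.1

theorem RC.ncard {y : YC p Γ ΦΓ} {y' : YC p G ΦG} (h : RC D θ y y') :
    y.1.1.out.1.ncard = y'.1.1.out.1.ncard := by
  obtain ⟨x, he, -⟩ := h
  rw [he, CD.im_ncard]

theorem cls_eq {H : Type} [Group H] {c c' : {c : Quotient (chainSetoid p H) // Nch c.out.1}}
    (h : ∃ g : H, c'.1.out.1 = conjSub g '' c.1.out.1) : c = c' := by
  apply Subtype.ext
  rw [← Quotient.out_eq c.1, ← Quotient.out_eq c'.1]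
  exact Quotient.sound h

theorem rc_right (hV : ¬ p ∣ Nat.card V) (hS : D.Stab θ) {y : YC p Γ ΦΓ} {y₁ y₂ : YC p G ΦG}
    (h₁ : RC D θ y y₁) (h₂ : RC D θ y y₂) : y₁ = y₂ := by
  obtain ⟨x₁, e₁, f₁⟩ := h₁
  obtain ⟨x₂, e₂, f₂⟩ := h₂
  obtain ⟨c₁, ψ₁, w₁⟩ := y₁
  obtain ⟨c₂, ψ₂, w₂⟩ := y₂
  obtain ⟨c, χ, w⟩ := y
  simp only at e₁ e₂ f₁ f₂
  have hG : Finite G := Finite.of_injective D.j fun a b h => D.j_inj h
  have hP := sSup_pgroup c.1.out.2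
  have hN := nps_of_chain (D := D) c.1.out.2 c.2
  have hne₁ := irr_ne0 w₁.1
  have hne₂ := irr_ne0 w₂.1
  rw [f₁] at hne₁
  rw [f₂] at hne₂
  rw [(D.loc' e₁ c₁.1.out.2 c₁.2).TT_ne_iff hN hV hP hS w.1] at hne₁
  rw [(D.loc' e₂ c₂.1.out.2 c₂.2).TT_ne_iff hN hV hP hS w.1] at hne₂
  obtain ⟨n, hn, g, hx, hQ⟩ := hN.dbl hV hP hS w.1 (D.loc' e₁ c₁.1.out.2 c₁.2).hP
    (D.loc' e₂ c₂.1.out.2 c₂.2).hP hne₁ hne₂
  -- the chains are conjugate
  have hch : c₁.1.out.1 = conjSub g '' c₂.1.out.1 := by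
    apply (D.cj x₁).im_inj
    rw [← e₁, D.im_cj, D.im_conj, ← conjSub_image_mul, ← image_of_stab (inv_mem hn), e₂, D.im_cj,
      ← conjSub_image_mul, hx]
    congr 2
    group
  have hc : c₂ = c₁ := cls_eq ⟨g, hch⟩
  subst hc
  have hg : g ∈ chainStabilizer c₂.1.out.1 := stab_of_image c₂.1.out.2 hch.symm
  have h3 : ψ₁ = ψ₂ := by
    funext m
    rw [f₂, (D.loc' e₁ c₂.1.out.2 c₂.2).TT_gen hS (D.loc' e₂ c₂.1.out.2 c₂.2) hn hg hx
      (irrT_class (K := ℂ) w.1), ← f₁]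
    exact (irrT_class (K := ℂ) w₁.1 _ _).symm
  subst h3
  rfl

theorem rc_left (hV : ¬ p ∣ Nat.card V) (hS : D.Stab θ) {y₁ y₂ : YC p Γ ΦΓ} {y' : YC p G ΦG}
    (h₁ : RC D θ y₁ y') (h₂ : RC D θ y₂ y') : y₁ = y₂ := by
  obtain ⟨x₁, e₁, f₁⟩ := h₁
  obtain ⟨x₂, e₂, f₂⟩ := h₂
  obtain ⟨c₁, χ₁, w₁⟩ := y₁
  obtain ⟨c₂, χ₂, w₂⟩ := y₂
  obtain ⟨c, ψ, w⟩ := y'
  simp only at e₁ e₂ f₁ f₂
  have hc0 : c₂.1.out.1 = conjSub (x₂ * x₁⁻¹) '' c₁.1.out.1 := by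
    rw [e₁, e₂, D.im_cj, D.im_cj, ← conjSub_image_mul]
    congr 2
    group
  have hc : c₁ = c₂ := cls_eq ⟨_, hc0⟩
  subst hc
  have hn : x₂ * x₁⁻¹ ∈ chainStabilizer c₁.1.out.1 := stab_of_image c₁.1.out.2 hc0.symm
  have h2 : (D.loc' e₂ c.1.out.2 c.2).TT θ χ₂ = (D.loc' e₁ c.1.out.2 c.2).TT θ χ₂ := by
    funext m
    rw [(D.loc' e₁ c.1.out.2 c.2).TT_gen hS (D.loc' e₂ c.1.out.2 c.2) (g := 1) hn
      (Subgroup.one_mem _) (by rw [map_one]; group) (irrT_class (K := ℂ) w₂.1)]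
    congr 1
    apply Subtype.ext
    change 1 * (m : G) * 1⁻¹ = m
    group
  have hne : (D.loc' e₁ c.1.out.2 c.2).TT θ χ₁ ≠ 0 := by
    rw [← f₁]
    exact irr_ne0 w.1
  have hG : Finite G := Finite.of_injective D.j fun a b h => D.j_inj h
  have k1 : Fintype (chainStabilizer c₁.1.out.1) := Fintype.ofFinite _
  have k2 : Fintype (chainStabilizer c.1.out.1) := Fintype.ofFinite _
  have h3 : χ₁ = χ₂ := by
    refine CD.T_inj ((D.loc' e₁ c.1.out.2 c.2).stab hV (sSup_pgroup c₁.1.out.2)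
      (D.cj_stab hS x₁)) w₁.1 w₂.1 ?_ hne
    change (D.loc' e₁ c.1.out.2 c.2).TT θ χ₁ = (D.loc' e₁ c.1.out.2 c.2).TT θ χ₂
    rw [← h2, ← f₁, ← f₂]
  subst h3
  rfl

theorem rc_ex_left (hV : ¬ p ∣ Nat.card V) (hS : D.Stab θ) (hC : Cmp p D θ ΦΓ ΦG)
    (y' : YC p G ΦG) : ∃ y : YC p Γ ΦΓ, RC D θ y y' := by
  obtain ⟨c', ψ, w⟩ := y'
  have hG : Finite G := Finite.of_injective D.j fun a b h => D.j_inj h
  have hch := D.im_chain c'.1.out.2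
  have hN0 := D.im_Nch c'.2
  let c : Quotient (chainSetoid p Γ) := Quotient.mk _ ⟨D.im c'.1.out.1, hch⟩
  obtain ⟨g, hg⟩ := Quotient.mk_out (s := chainSetoid p Γ) ⟨D.im c'.1.out.1, hch⟩
  have hg' : D.im c'.1.out.1 = conjSub g '' c.out.1 := hg
  have he : c.out.1 = (D.cj g⁻¹).im c'.1.out.1 := by
    rw [D.im_cj, hg', ← conjSub_image_mul, inv_mul_cancel, conjSub_image_one]
  have hN : Nch c.out.1 := by
    rw [he, D.im_cj, Nch_conj]
    exact hN0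
  have k1 : Fintype (chainStabilizer c.out.1) := Fintype.ofFinite _
  have k2 : Fintype (chainStabilizer c'.1.out.1) := Fintype.ofFinite _
  let hL := D.loc' he c'.1.out.2 c'.2
  obtain ⟨χ, h1, h2⟩ := CD.T_surj cardC_ne (hL.stab hV (sSup_pgroup c.out.2)
    (D.cj_stab hS g⁻¹)) w.1
  have h3 : hL.TT θ χ = ψ := h2
  have hne : hL.TT θ χ ≠ 0 := by
    rw [h3]
    exact irr_ne0 w.1
  refine ⟨⟨⟨c, hN⟩, χ, h1, (hC.iff g⁻¹ _ c'.1.out.2 c'.2 _ he χ h1 hne).2 ?_⟩, g⁻¹, he, h3.symm⟩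
  change ΦG c'.1.out.1 (hL.TT θ χ)
  rw [h3]
  exact w.2

theorem rc_ex_right (hV : ¬ p ∣ Nat.card V) (hS : D.Stab θ) (hC : Cmp p D θ ΦΓ ΦG)
    (y : YC p Γ ΦΓ) : ∃ y' : YC p G ΦG, RC D θ y y' := by
  obtain ⟨c, χ, w⟩ := y
  have hG : Finite G := Finite.of_injective D.j fun a b h => D.j_inj h
  obtain ⟨x, Q, hP, hne⟩ := hC.ex _ c.1.out.2 c.2 χ w.1 w.2
  obtain ⟨τ, t1, t2, t3⟩ := exists_chain (D := D.cj x) c.1.out.2 c.2 hP
  let c' : Quotient (chainSetoid p G) := Quotient.mk _ ⟨τ, t1⟩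
  obtain ⟨g, hg⟩ := Quotient.mk_out (s := chainSetoid p G) ⟨τ, t1⟩
  have hg' : τ = conjSub g '' c'.out.1 := hg
  have he : c.1.out.1 = (D.cj (x * D.j g)).im c'.out.1 := by
    rw [t3, D.im_cj, hg', D.im_conj, D.im_cj, ← conjSub_image_mul]
  have hN : Nch c'.out.1 := by
    rw [← Nch_conj g, ← hg']
    exact t2
  let hL := D.loc' he c'.out.2 hN
  have hne' : hL.TT θ χ ≠ 0 := by
    rw [hL.TT_ne_iff (nps_of_chain (D := D) c.1.out.2 c.2) hV (sSup_pgroup c.1.out.2) hS w.1]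
    have h1 : D.et θ (x * D.j g) (sSup c.1.out.1) = D.et θ x (sSup c.1.out.1) := by
      ext u
      rw [D.et_apply, D.et_apply, mul_inv_rev, map_mul, MulAut.mul_apply, ← map_inv D.j,
        D.st_j hS]
    rw [h1]
    exact hne
  have hirr : IsIrr (hL.TT θ χ) := hL.TT_irr hV (sSup_pgroup c.1.out.2) hS w.1 hne'
  exact ⟨⟨⟨c', hN⟩, hL.TT θ χ, hirr, (hC.iff _ _ c'.out.2 hN _ he χ w.1 hne').1 w.2⟩,
    x * D.j g, he, rfl⟩

theorem finite_irr {H : Type} [Group H] [Finite H] (Ψ : (H → ℂ) → Prop) :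
    Finite {χ : H → ℂ // IsIrr χ ∧ Ψ χ} := by
  have : Fintype H := Fintype.ofFinite H
  have h1 : ((Pool.Agent.Helper884.IC.Irr H : Finset (H → ℂ)) : Set (H → ℂ)).Finite := Finset.finite_toSet _
  exact (h1.subset (t := {χ | IsIrr χ ∧ Ψ χ}) fun χ h =>
    Pool.Agent.H254R3.IN.mem_Irr.2 h.1).to_subtype

theorem sum_YC {H : Type} [Group H] [Finite H]
    (Φ : ∀ σ : Set (Subgroup H), (chainStabilizer σ → ℂ) → Prop) [Fintype (YC p H Φ)] :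
    ∑ᶠ c : {c : Quotient (chainSetoid p H) // Nch c.out.1}, (-1) ^ c.1.out.1.ncard *
      (Nat.card {χ : chainStabilizer c.1.out.1 → ℂ // IsIrr χ ∧ Φ c.1.out.1 χ} : ℤ) =
    ∑ y : YC p H Φ, (-1) ^ y.1.1.out.1.ncard := by
  have k1 : Fintype {c : Quotient (chainSetoid p H) // Nch c.out.1} := Fintype.ofFinite _
  have k2 : ∀ c : {c : Quotient (chainSetoid p H) // Nch c.out.1},
      Finite {χ : chainStabilizer c.1.out.1 → ℂ // IsIrr χ ∧ Φ c.1.out.1 χ} := fun c =>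
    finite_irr _
  have k3 : ∀ c : {c : Quotient (chainSetoid p H) // Nch c.out.1},
      Fintype {χ : chainStabilizer c.1.out.1 → ℂ // IsIrr χ ∧ Φ c.1.out.1 χ} := fun c =>
    Fintype.ofFinite _
  rw [finsum_eq_sum_of_fintype]
  have h1 : ∑ y : YC p H Φ, ((-1) ^ y.1.1.out.1.ncard : ℤ) =
      ∑ c : {c : Quotient (chainSetoid p H) // Nch c.out.1},
        ∑ _χ : {χ : chainStabilizer c.1.out.1 → ℂ // IsIrr χ ∧ Φ c.1.out.1 χ},
          ((-1) ^ c.1.out.1.ncard : ℤ) := by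
    rw [← Fintype.sum_sigma']
    exact Finset.sum_congr (by ext; simp) fun _ _ => rfl
  rw [h1]
  refine Finset.sum_congr rfl fun c _ => ?_
  rw [Finset.sum_const, Finset.card_univ, nsmul_eq_mul, Nat.card_eq_fintype_card, mul_comm]

/-- **chain sums correspond** -/
theorem chain_sum_eq (hV : ¬ p ∣ Nat.card V) (hS : D.Stab θ) (hC : Cmp p D θ ΦΓ ΦG) :
    ∑ᶠ c : {c : Quotient (chainSetoid p Γ) // Nch c.out.1}, (-1) ^ c.1.out.1.ncard *
      (Nat.card {χ : chainStabilizer c.1.out.1 → ℂ // IsIrr χ ∧ ΦΓ c.1.out.1 χ} : ℤ) =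
    ∑ᶠ c : {c : Quotient (chainSetoid p G) // Nch c.out.1}, (-1) ^ c.1.out.1.ncard *
      (Nat.card {χ : chainStabilizer c.1.out.1 → ℂ // IsIrr χ ∧ ΦG c.1.out.1 χ} : ℤ) := by
  have hG : Finite G := Finite.of_injective D.j fun a b h => D.j_inj h
  have k1 : ∀ c : {c : Quotient (chainSetoid p Γ) // Nch c.out.1},
      Finite {χ : chainStabilizer c.1.out.1 → ℂ // IsIrr χ ∧ ΦΓ c.1.out.1 χ} := fun c =>
    finite_irr _
  have k2 : ∀ c : {c : Quotient (chainSetoid p G) // Nch c.out.1},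
      Finite {χ : chainStabilizer c.1.out.1 → ℂ // IsIrr χ ∧ ΦG c.1.out.1 χ} := fun c =>
    finite_irr _
  have f1 : Fintype (YC p Γ ΦΓ) := Fintype.ofFinite _
  have f2 : Fintype (YC p G ΦG) := Fintype.ofFinite _
  rw [sum_YC ΦΓ, sum_YC ΦG]
  choose f hf using rc_ex_right (ΦΓ := ΦΓ) (ΦG := ΦG) hV hS hC
  have hbij : Function.Bijective f := by
    refine ⟨fun a b hab => ?_, fun y' => ?_⟩
    · exact rc_left hV hS (hf a) (by rw [hab]; exact hf b)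
    · obtain ⟨y, hy⟩ := rc_ex_left hV hS hC y'
      exact ⟨y, rc_right hV hS (hf y) hy⟩
  rw [← Function.Bijective.sum_comp hbij]
  exact Finset.sum_congr rfl fun y _ => by rw [(hf y).ncard]

end rel

end Run7.h45
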