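import Pool.Agent.Run7.h45.Ch6

/-!
# Blockwise alternating sums under the Clifford correspondence
-/

set_option autoImplicit false
set_option linter.unusedSectionVars false

open scoped Classical BigOperators

noncomputable section

namespace Run7.h45

open Pool.Agent.Y63.KR
open Pool.Agent.H254R3.IN (IsIrr IsBlock Om IsCl RF red)
open Pool.Agent.Q90.WR (IndS anum anum_congr IndS_congr IndS_irr blkDef blkAlt bw bw_conj bw_coeff
  bw_eval conjEquiv)

variable {Γ V G : Type} [Group Γ] [CommGroup V] [Group G] {D : CD Γ V G} [Finite Γ] [Fintype V]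
  {p : ℕ} [Fact p.Prime] {O : ValuationSubring ℂ} {θ : V →* ℂ} {B : Set (G → ℂ)}

/-- the transform of a function supported on `V` -/
theorem Om_xV [Fintype G] {ψ : G → ℂ} (hψ : IsIrr ψ) (f : V → ℂ) :
    Om (D.tf θ (D.xV f)) ψ = ∑ v, f v * θ v := by
  have h1 : D.tf θ (D.xV f) = fun m => if m = 1 then ∑ v, f v * θ v else 0 := by
    funext m
    unfold CD.tf
    split_ifs with hm
    · subst hm
      refine Finset.sum_congr rfl fun v _ => ?_
      rw [map_one, mul_one, D.xV_i, mul_comm]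
    · refine Finset.sum_eq_zero fun v _ => ?_
      rw [D.xV_out, mul_zero]
      rintro ⟨u, hu⟩
      apply hm
      have h2 : D.i v * D.j m = D.i u * D.j 1 := by rw [hu, map_one, mul_one]
      exact (D.ij_inj h2).2
  rw [h1]
  unfold Om
  rw [Finset.sum_eq_single (1 : G)]
  · change (if (1 : G) = 1 then _ else _) * _ / _ = _
    rw [if_pos rfl, mul_div_assoc, div_self (irr1 hψ), mul_one]
  · intro b _ hb
    change (if b = 1 then _ else _) * _ = _
    rw [if_neg hb, zero_mul]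
  · intro h
    exact absurd (Finset.mem_univ _) h

theorem xV_mem {f : V → ℂ} (hf : ∀ v, f v ∈ O) (y : Γ) : D.xV f y ∈ O := by
  unfold CD.xV
  split_ifs
  · exact hf _
  · exact O.zero_mem

/-- **characters of stabilizers of chains whose block induces to a given block** -/
theorem cmp_blk (hpO : (p : ℂ) ∈ O.nonunits) (hV : ¬ p ∣ Nat.card V) (hS : D.Stab θ)
    (hB : IsBlock O B)
    (ΔΓ : ∀ σ : Set (Subgroup Γ), (chainStabilizer σ → ℂ) → Prop)
    (ΔG : ∀ σ : Set (Subgroup G), (chainStabilizer σ → ℂ) → Prop)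
    (hΔ : ∀ (x : Γ) (τ : Set (Subgroup G)) (hτ : IsPChain p τ) (hN : Nch τ)
      (σ : Set (Subgroup Γ)) (he : σ = (D.cj x).im τ) (χ : chainStabilizer σ → ℂ), IsIrr χ →
      (D.loc' he hτ hN).TT θ χ ≠ 0 → (ΔΓ σ χ ↔ ΔG τ ((D.loc' he hτ hN).TT θ χ))) :
    Cmp p D θ
      (fun σ χ => χ ∈ IndS O (D.up θ B) (Subtype.val : chainStabilizer σ → Γ) ∧ ΔΓ σ χ)
      (fun τ ψ => ψ ∈ IndS O B (Subtype.val : chainStabilizer τ → G) ∧ ΔG τ ψ) := by
  have hG : Finite G := Finite.of_injective D.j fun a b h => D.j_inj h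
  have k1 : Fintype G := Fintype.ofFinite _
  have k2 : Fintype Γ := Fintype.ofFinite _
  have hU := D.up_block hpO hV hS hB
  obtain ⟨χ₁, hχ₁⟩ := hU.nonempty
  have hne₁ := D.up_ne hB.irr hχ₁
  refine ⟨?_, ?_⟩
  · intro σ hσ hN χ hχ h
    refine (nps_of_chain (D := D) hσ hN).exist hpO hV (sSup_pgroup hσ) hS hχ ?_
    intro f hf hfO
    have hcl : IsCl (D.xV f) := fun g y => D.xV_class hf y g
    have h2 := (mem_IndS_iff hU hχ₁ hχ).1 h.1 (D.xV f) hcl fun y => xV_mem hfO y
    rw [← h2, D.Om_tf hS hχ₁.1 hne₁ hcl, Om_xV (hB.irr _ hχ₁.2)]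
  · intro x τ hτ hN σ he χ hχ hne
    refine and_congr ?_ (hΔ x τ hτ hN σ he χ hχ hne)
    have hPp : IsPGroup p (sSup σ : Subgroup Γ) := by
      rw [he]
      exact sSup_pgroup ((D.cj x).im_chain hτ)
    have hL := D.loc' he hτ hN
    have hirr := hL.TT_irr hV hPp hS hχ hne
    have key : ∀ f : Γ → ℂ, IsCl f → (∀ g, f g ∈ O) →
        red O (Om (fun y : chainStabilizer σ => f y) χ) =
        red O (Om (fun m : chainStabilizer τ => D.tf θ f m) (hL.TT θ χ)) := by
      intro f hf hfO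
      have h1 := hL.Om_star hpO hV hPp (D.cj_stab hS x) hχ hne hf hfO
      rw [D.cj_tf θ (fun g y => hf y g) x] at h1
      exact h1
    rw [mem_IndS_iff hU hχ₁ hχ, mem_IndS_iff hB hχ₁.2 hirr]
    constructor
    · intro h f hf hfO
      have h1 := h (D.ind θ f) (D.ind_cl' hS hf) (D.ind_mem' hpO hV f hfO)
      rw [key _ (D.ind_cl' hS hf) (D.ind_mem' hpO hV f hfO),
        D.tf_ind cardC_ne hS (fun g y => hf y g),
        D.Om_tf hS hχ₁.1 hne₁ (D.ind_cl' hS hf), D.tf_ind cardC_ne hS (fun g y => hf y g)] at h1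
      exact h1
    · intro h f hf hfO
      rw [key f hf hfO, D.Om_tf hS hχ₁.1 hne₁ hf]
      exact h _ (D.tf_cl hS hf) (D.tf_mem f hfO)

/-- the condition on the defect -/
def dfc (p d : ℕ) {H : Type} [Group H] (χ : H → ℂ) : Prop :=
  ∃ n : ℕ, χ 1 = (n : ℂ) ∧ n.factorization p + d = (Nat.card H).factorization p

theorem Loc.dfc_iff {Q : Subgroup G} {P : Subgroup Γ} {M : Subgroup G} {N : Subgroup Γ} {x : Γ}
    (h : Loc (D.cj x) Q P M N) (hV : ¬ p ∣ Nat.card V) (hPp : IsPGroup p P) (hS : D.Stab θ)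
    {χ : N → ℂ} (hχ : IsIrr χ) (hne : h.TT θ χ ≠ 0) (d : ℕ) :
    dfc p d χ ↔ dfc p d (h.TT θ χ) := by
  have hG : Finite G := Finite.of_injective D.j fun a b h => D.j_inj h
  have k3 : Fintype N := Fintype.ofFinite _
  have k4 : Fintype M := Fintype.ofFinite _
  have hS' := h.stab hV hPp (D.cj_stab hS x)
  have hi := h.TT_irr hV hPp hS hχ hne
  obtain ⟨a, ha⟩ := deg_nat (irr_iff.mp hχ)
  obtain ⟨b, hb⟩ := deg_nat (irr_iff.mp hi)
  have ha0 : a ≠ 0 := by
    rintro rfl
    exact irr1 hχ (by rw [ha, Nat.cast_zero])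
  have hb0 : b ≠ 0 := by
    rintro rfl
    exact irr1 hi (by rw [hb, Nat.cast_zero])
  have h2 : χ 1 * (Nat.card ((D.cj x).fix Q) * Nat.card M : ℂ) = Nat.card N * h.TT θ χ 1 :=
    deg_T hS' hχ hne
  rw [ha, hb] at h2
  have h3 : a * (Nat.card ((D.cj x).fix Q) * Nat.card M) = Nat.card N * b := by exact_mod_cast h2
  have hJ : Nat.card N ≠ 0 := Nat.card_pos.ne'
  have hCc : Nat.card ((D.cj x).fix Q) ≠ 0 := Nat.card_pos.ne'
  have hM : Nat.card M ≠ 0 := Nat.card_pos.ne'
  have h4 := congrArg (fun n => n.factorization p) h3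
  simp only [Nat.factorization_mul ha0 (mul_ne_zero hCc hM), Nat.factorization_mul hCc hM,
    Nat.factorization_mul hJ hb0, Finsupp.add_apply,
    Nat.factorization_eq_zero_of_not_dvd (h.hfc hV), zero_add] at h4
  unfold dfc
  rw [ha, hb]
  constructor
  · rintro ⟨n, h5, h6⟩
    have h7 : n = a := by exact_mod_cast h5.symm
    subst h7
    exact ⟨b, rfl, by omega⟩
  · rintro ⟨n, h5, h6⟩
    have h7 : n = b := by exact_mod_cast h5.symm
    subst h7
    exact ⟨a, rfl, by omega⟩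

section sums

variable {H : Type} [Group H] [Finite H] {A : Set (H → ℂ)}

theorem blkDef_norm (d : ℕ) (A : Set (H → ℂ)) : blkDef p O d A =
    ∑ᶠ c : {c : Quotient (chainSetoid p H) // Nch c.out.1}, (-1) ^ c.1.out.1.ncard *
      (Nat.card {χ : chainStabilizer c.1.out.1 → ℂ // IsIrr χ ∧
        (χ ∈ IndS O A (Subtype.val : chainStabilizer c.1.out.1 → H) ∧ dfc p d χ)} : ℤ) := by
  have := Fintype.ofFinite H
  unfold blkDef
  rw [alt_normal p _ fun g K => by
    have h1 := congrArg (fun P : Polynomial ℚ => P.coeff d)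
      (bw_conj (p := p) (O := O) (B := A) g K)
    simp only [bw_coeff] at h1
    exact_mod_cast h1]
  refine finsum_congr fun c => ?_
  congr 2
  unfold anum
  exact Nat.card_congr (Equiv.subtypeEquivRight fun χ =>
    ⟨fun h => ⟨h.1.1, h.1, h.2⟩, fun h => h.2⟩)

theorem blkAlt_norm (A : Set (H → ℂ)) : blkAlt p O A =
    ∑ᶠ c : {c : Quotient (chainSetoid p H) // Nch c.out.1}, (-1) ^ c.1.out.1.ncard *
      (Nat.card {χ : chainStabilizer c.1.out.1 → ℂ // IsIrr χ ∧
        (χ ∈ IndS O A (Subtype.val : chainStabilizer c.1.out.1 → H) ∧ True)} : ℤ) := by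
  have := Fintype.ofFinite H
  unfold blkAlt
  rw [alt_normal p _ fun g K => by
    have h1 := congrArg (fun P : Polynomial ℚ => P.eval 1)
      (bw_conj (p := p) (O := O) (B := A) g K)
    simp only [bw_eval] at h1
    exact_mod_cast h1]
  refine finsum_congr fun c => ?_
  congr 2
  exact Nat.card_congr (Equiv.subtypeEquivRight fun χ =>
    ⟨fun h => ⟨h.1, h, trivial⟩, fun h => h.2.1⟩)

end sums

/-- **Dade's sums correspond** -/
theorem blkDef_up (hpO : (p : ℂ) ∈ O.nonunits) (hV : ¬ p ∣ Nat.card V) (hS : D.Stab θ)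
    (hB : IsBlock O B) (d : ℕ) : blkDef p O d (D.up θ B) = blkDef p O d B := by
  have hG : Finite G := Finite.of_injective D.j fun a b h => D.j_inj h
  rw [blkDef_norm, blkDef_norm]
  refine chain_sum_eq hV hS (cmp_blk hpO hV hS hB (fun σ χ => dfc p d χ) (fun τ ψ => dfc p d ψ) ?_)
  intro x τ hτ hN σ he χ hχ hne
  refine (D.loc' he hτ hN).dfc_iff hV ?_ hS hχ hne d
  rw [he]
  exact sSup_pgroup ((D.cj x).im_chain hτ)

/-- **the sums over all characters correspond** -/
theorem blkAlt_up (hpO : (p : ℂ) ∈ O.nonunits) (hV : ¬ p ∣ Nat.card V) (hS : D.Stab θ)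
    (hB : IsBlock O B) : blkAlt p O (D.up θ B) = blkAlt p O B := by
  have hG : Finite G := Finite.of_injective D.j fun a b h => D.j_inj h
  rw [blkAlt_norm, blkAlt_norm]
  exact chain_sum_eq hV hS (cmp_blk hpO hV hS hB (fun _ _ => True) (fun _ _ => True)
    fun _ _ _ _ _ _ _ _ _ => Iff.rfl)

end Run7.h45
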