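import Pool.Agent.Run7.h45.Ch7
import Pool.Agent.Run7.h45.AmG
import Pool.Agent.Run7.h45.Univ
import Pool.Agent.Run7.h45.Grow
import Pool.Agent.N22.DD.Cla

/-!
# Blockwise alternating sums in universal families
-/

set_option autoImplicit false
set_option linter.unusedSectionVars false

open scoped Classical BigOperators
open Filter

noncomputable section

namespace Run7.h45

open Pool.Agent.Y63.KR
open Pool.Agent.H254R3.IN (IsIrr IsBlock IsDefectGroup)
open Pool.Agent.Q90.WR (IndS AdmB blkDef blkAlt bxS blkDefT blkAltT)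
open Pool.Agent.N22.DD (Wt Wt_prod Wt_one Wt_sum fac_prod)

variable {p : ℕ} [hp : Fact p.Prime] {O : ValuationSubring ℂ}

/-- `O_p(V ⋊ L) = 1` for a faithful action on a `p'`-group -/
theorem semi_core {V L : Type} [CommGroup V] [Group L] (φ : L →* MulAut V) [Finite V] [Finite L]
    (hφ : Function.Injective φ) (hV : ¬ p ∣ Nat.card V) (P : Subgroup (V ⋊[φ] L)) (hn : P.Normal)
    (hP : IsPGroup p P) : P = ⊥ := by
  -- elements of `P` in `V` are trivial
  have h1 : ∀ v : V, (SemidirectProduct.inl v : V ⋊[φ] L) ∈ P → v = 1 := by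
    intro v hv
    obtain ⟨k, hk⟩ := hP ⟨_, hv⟩
    have h2 : v ^ p ^ k = 1 := by
      have h3 := congrArg Subtype.val hk
      change (SemidirectProduct.inl v : V ⋊[φ] L) ^ p ^ k = 1 at h3
      rw [← map_pow, ← map_one (SemidirectProduct.inl : V →* V ⋊[φ] L)] at h3
      exact SemidirectProduct.inl_injective h3
    have h4 : orderOf v ∣ p ^ k := orderOf_dvd_of_pow_eq_one h2
    have h5 : orderOf v ∣ Nat.card V := orderOf_dvd_natCard v
    have h6 : (p ^ k).Coprime (Nat.card V) :=
      Nat.Coprime.pow_left _ ((Nat.Prime.coprime_iff_not_dvd hp.out).mpr hV)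
    exact orderOf_eq_one_iff.1 (Nat.eq_one_of_dvd_coprimes h6 h4 h5)
  rw [Subgroup.eq_bot_iff_forall]
  intro x hx
  have h2 : x.right = 1 := by
    apply hφ
    rw [map_one]
    apply MulEquiv.ext
    intro v
    rw [MulAut.one_apply]
    have h3 : x * SemidirectProduct.inl v * x⁻¹ * (SemidirectProduct.inl v)⁻¹ ∈ P := by
      have h4 : x * SemidirectProduct.inl v * x⁻¹ * (SemidirectProduct.inl v)⁻¹ =
          x * (SemidirectProduct.inl v * x⁻¹ * (SemidirectProduct.inl v)⁻¹) := by group
      rw [h4]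
      exact P.mul_mem hx (hn.conj_mem _ (P.inv_mem hx) _)
    have h5 : x * SemidirectProduct.inl v * x⁻¹ * (SemidirectProduct.inl v)⁻¹ =
        SemidirectProduct.inl (φ x.right v * v⁻¹) := by
      ext
      · simp only [SemidirectProduct.mul_left, SemidirectProduct.mul_right,
          SemidirectProduct.left_inl, SemidirectProduct.right_inl, SemidirectProduct.inv_left,
          SemidirectProduct.inv_right, mul_one, ← map_inv, map_mul]
        simp only [← MulAut.mul_apply, ← map_mul, mul_inv_cancel, map_one, MulAut.one_apply]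
        rw [mul_comm x.left, mul_assoc (φ x.right v), mul_inv_cancel, mul_one]
      · simp
    rw [h5] at h3
    exact (mul_inv_eq_one.1 (h1 _ h3))
  have h3 : x = SemidirectProduct.inl x.left := by
    ext
    · simp
    · simp [h2]
  rw [h3] at hx ⊢
  rw [h1 _ hx, map_one]

/-- The pair `(G, B)` is realised in `Γ`. -/
def RealD (p : ℕ) (O : ValuationSubring ℂ) (G : Type) [Group G] (B : Set (G → ℂ)) (Γ : Type)
    [Group Γ] : Prop :=
  ∃ B' : Set (Γ → ℂ), AdmB p O Γ B' ∧ (∀ d, blkDef p O d B' = blkDef p O d B) ∧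
    blkAlt p O B' = blkAlt p O B

theorem realD_semi (hpO : (p : ℂ) ∈ O.nonunits) {V L G : Type} [CommGroup V] [Group L] [Group G]
    (φ : L →* MulAut V) [Finite V] [Finite L] [Finite G] (hV : ¬ p ∣ Nat.card V)
    (hφ : Function.Injective φ)
    (j : G →* L) (hj : Function.Injective j) (θ : V →* ℂ)
    (hst : ∀ l : L, (∀ v, θ (φ l v) = θ v) ↔ ∃ g, j g = l) {B : Set (G → ℂ)}
    (hB : AdmB p O G B) : RealD p O G B (V ⋊[φ] L) := by
  have f1 : Fintype V := Fintype.ofFinite V
  have f2 : Fintype (V ⋊[φ] L) := Fintype.ofFinite _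
  have f3 : Fintype G := Fintype.ofFinite G
  have hS := semi_stab φ j hj θ hst
  obtain ⟨Q, hQ, hne⟩ := hB.defect
  refine ⟨(semiCD φ j hj).up θ B, ⟨inferInstance, fun P hn hP => semi_core φ hφ hV P hn hP,
    CD.up_block hpO hV hS hB.block, _, CD.up_defect hpO hV hS hB.block hQ, ?_⟩,
    fun d => blkDef_up hpO hV hS hB.block d, blkAlt_up hpO hV hS hB.block⟩
  intro h
  apply hne
  have h2 : Q.map (semiCD φ j hj).j = (⊥ : Subgroup G).map (semiCD φ j hj).j := by
    rw [Subgroup.map_bot]; exact h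
  exact Subgroup.map_injective (fun a b h => CD.j_inj h) h2

theorem matPerm_inj {q n : ℕ} (hq : 2 ≤ q) : Function.Injective (matPerm q n) := by
  have : NeZero q := ⟨by omega⟩
  have : Fact (1 < q) := ⟨by omega⟩
  rw [injective_iff_map_eq_one]
  intro σ hσ
  ext a
  have h1 := (matChar_stab (fun x y : Fin n => if x = a ∧ y = a then (1 : ZMod q) else 0) σ).1
    (fun v => by rw [hσ, MulAut.one_apply]) a a
  by_contra hne
  have h2 : ¬ (σ a = a) := fun h => hne (by rw [h]; rfl)
  simp [h2] at h1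

theorem realD_mat (hpO : (p : ℂ) ∈ O.nonunits) {q : ℕ} (hq : 2 ≤ q) (hpq : ¬ p ∣ q) {G : Type}
    [Group G] [Finite G] {n : ℕ} (j : G →* Equiv.Perm (Fin n)) (R : Fin n → Fin n → Prop)
    (hj : Function.Injective j)
    (hR : ∀ σ : Equiv.Perm (Fin n), (∀ a b, R (σ a) (σ b) ↔ R a b) ↔ ∃ g, j g = σ)
    {B : Set (G → ℂ)} (hB : AdmB p O G B) : RealD p O G B (MatGrp q n) := by
  have : NeZero q := ⟨by omega⟩
  have : Fact (1 < q) := ⟨by omega⟩
  let κ : Fin n → Fin n → ZMod q := fun a b => if R a b then 1 else 0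
  refine realD_semi hpO (matPerm q n) ?_ (matPerm_inj hq) j hj (matChar κ) (fun σ => ?_) hB
  · rw [card_mat]
    exact fun h => hpq ((Fact.out : p.Prime).dvd_of_dvd_pow h)
  · rw [matChar_stab, ← hR]
    refine forall_congr' fun a => forall_congr' fun b => ?_
    change (if R (σ a) (σ b) then (1 : ZMod q) else 0) = (if R a b then 1 else 0) ↔ _
    by_cases h1 : R (σ a) (σ b) <;> by_cases h2 : R a b <;> simp [h1, h2]

theorem realD_zs (hpO : (p : ℂ) ∈ O.nonunits) {q : ℕ} (hq : 2 ≤ q) (hpq : ¬ p ∣ q) {G : Type}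
    [Group G] [Finite G] {n : ℕ} (hn : 5 ≤ n) (j : G →* alternatingGroup (Fin n))
    (hj : Function.Injective j) (h3 : 3 ≤ Nat.card (alternatingGroup (Fin n) ⧸ j.range))
    {B : Set (G → ℂ)} (hB : AdmB p O G B) :
    RealD p O G B (ZSGrp q (alternatingGroup (Fin n)) j.range) := by
  have : NeZero q := ⟨by omega⟩
  have hst := zs_stab hq j h3
  have hS : IsSimpleGroup (alternatingGroup (Fin n)) :=
    alternatingGroup.isSimpleGroup (by simpa using hn)
  refine realD_semi hpO (zsAct q (alternatingGroup (Fin n)) (alternatingGroup (Fin n) ⧸ j.range))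
    ?_ ?_ j hj (evChar (q := q) (((1 : alternatingGroup (Fin n)) :
      alternatingGroup (Fin n) ⧸ j.range))) hst hB
  · intro hd
    exact hpq ((Fact.out : p.Prime).dvd_of_dvd_pow
      (hd.trans (card_zs (q := q) (X := alternatingGroup (Fin n) ⧸ j.range))))
  · rw [← MonoidHom.ker_eq_bot_iff]
    refine (MonoidHom.normal_ker (zsAct q (alternatingGroup (Fin n))
      (alternatingGroup (Fin n) ⧸ j.range))).eq_bot_or_eq_top.resolve_right fun htop => ?_
    have h4 : j.range = ⊤ := by
      rw [eq_top_iff]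
      intro l _
      have hl : l ∈ (zsAct q (alternatingGroup (Fin n))
        (alternatingGroup (Fin n) ⧸ j.range)).ker := by rw [htop]; trivial
      exact (hst l).1 fun v => by rw [MonoidHom.mem_ker.1 hl, MulAut.one_apply]
    rw [h4] at h3
    have h5 : Nat.card (alternatingGroup (Fin n) ⧸ (⊤ : Subgroup (alternatingGroup (Fin n)))) = 1 := by
      rw [← Subgroup.index_eq_card, Subgroup.index_top]
    omega

/-! ### powers -/

/-- `G^k × G^k ≅ G^{2k}` -/
def powSq (k : ℕ) (G : Type) [Group G] : ((Fin k → G) × (Fin k → G)) ≃* (Fin (k + k) → G) where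
  toFun x := fun i => Sum.elim x.1 x.2 (finSumFinEquiv.symm i)
  invFun f := (fun i => f (finSumFinEquiv (Sum.inl i)), fun i => f (finSumFinEquiv (Sum.inr i)))
  left_inv x := by
    refine Prod.ext ?_ ?_
    · funext i
      change Sum.elim x.1 x.2 (finSumFinEquiv.symm (finSumFinEquiv (Sum.inl i))) = _
      rw [Equiv.symm_apply_apply]
      rfl
    · funext i
      change Sum.elim x.1 x.2 (finSumFinEquiv.symm (finSumFinEquiv (Sum.inr i))) = _
      rw [Equiv.symm_apply_apply]
      rfl
  right_inv f := by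
    funext i
    obtain ⟨s, rfl⟩ := finSumFinEquiv.surjective i
    change Sum.elim (fun i => f (finSumFinEquiv (Sum.inl i)))
      (fun i => f (finSumFinEquiv (Sum.inr i))) (finSumFinEquiv.symm (finSumFinEquiv s)) = _
    rw [Equiv.symm_apply_apply]
    rcases s with a | b <;> rfl
  map_mul' x y := by
    funext i
    obtain ⟨s, rfl⟩ := finSumFinEquiv.surjective i
    change Sum.elim (x * y).1 (x * y).2 (finSumFinEquiv.symm (finSumFinEquiv s)) =
      Sum.elim x.1 x.2 (finSumFinEquiv.symm (finSumFinEquiv s)) *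
        Sum.elim y.1 y.2 (finSumFinEquiv.symm (finSumFinEquiv s))
    rw [Equiv.symm_apply_apply]
    rcases s with a | b <;> rfl

/-- iterated squares -/
theorem exists_pow {G : Type} [Group G] {B : Set (G → ℂ)} (hB : AdmB p O G B) (m : ℕ) :
    ∃ (H : Type) (_ : Group H) (A : Set (H → ℂ)), AdmB p O H A ∧
      Nonempty (H ≃* (Fin (2 ^ m) → G)) ∧ ∀ t : ℂ, Wt p O t A = Wt p O t B ^ (2 ^ m) := by
  induction m with
  | zero =>
    refine ⟨G, inferInstance, B, hB, ⟨?_⟩, fun t => by rw [pow_zero, pow_one]⟩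
    exact (MulEquiv.funUnique (Fin 1) G).symm
  | succ m ih =>
    obtain ⟨H, i, A, h1, ⟨e⟩, h3⟩ := ih
    have := h1.fin
    have := Fintype.ofFinite H
    refine ⟨H × H, inferInstance, bxS A A, Pool.Agent.N22.DD.AdmB.prod h1 h1, ⟨?_⟩, fun t => ?_⟩
    · refine ((e.prodCongr e).trans (powSq (2 ^ m) G)).trans ?_
      have h4 : 2 ^ m + 2 ^ m = 2 ^ (m + 1) := by rw [pow_succ]; ring
      rw [h4]
    · rw [Wt_prod h1.block h1.block, h3, ← pow_add]
      congr 1
      rw [pow_succ]
      ring

end Run7.h45
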