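import Pool.Agent.Run7.h45.Ch8

/-!
# Dade's ordinary conjecture and the alternating sum of Knörr and Robinson in universal families
-/

set_option autoImplicit false
set_option linter.unusedSectionVars false

open scoped Classical BigOperators
open Filter

noncomputable section

namespace Run7.h45

open Pool.Agent.Y63.KR
open Pool.Agent.H254R3.IN (IsIrr IsBlock IsDefectGroup)
open Pool.Agent.Q90.WR (IndS AdmB blkDef blkAlt bxS blkDefT blkAltT blkDef_parity blkAlt_parity)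
open Pool.Agent.N22.DD (Wt Wt_prod Wt_one Wt_sum fac_prod)

/-- **growth of powers** -/
theorem grow2 {c : ℕ} (hc : 0 < c) {a : ℝ} (_ha : 0 ≤ a) (v : ℕ)
    (h : ∀ ε : ℝ, 0 < ε → ∃ᶠ n : ℕ in atTop, ∀ m : ℕ, 1 ≤ m → c * 2 ^ m ≤ n →
      a ^ (2 ^ m) ≤ 2 * ((2 ^ m * v + 1 : ℕ) : ℝ) * Real.exp (ε * n)) : a ≤ 1 := by
  by_contra hcon
  push Not at hcon
  have hL : 0 < Real.log a := Real.log_pos hcon
  set L := Real.log a with hLdef
  have hc' : (0 : ℝ) < c := by exact_mod_cast hc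
  obtain ⟨X, hX⟩ := exists_nat_ge (32 * ((v : ℝ) + 1) / L ^ 2)
  obtain ⟨n, hn, hn2⟩ := ((h (L / (4 * c)) (by positivity)).and_eventually
    (eventually_ge_atTop (c * (2 * (X + 2))))).exists
  set m := Nat.log 2 (n / c) with hm
  have h0 : n / c ≠ 0 := by
    have : 2 * (X + 2) ≤ n / c := (Nat.le_div_iff_mul_le hc).mpr (by rw [mul_comm]; exact hn2)
    omega
  have h1 : 2 ^ m ≤ n / c := Nat.pow_log_le_self 2 h0
  have h2 : n / c < 2 ^ (m + 1) := Nat.lt_pow_succ_log_self (by norm_num) _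
  have h3 : c * 2 ^ m ≤ n := by
    have := (Nat.le_div_iff_mul_le hc).mp h1
    rwa [mul_comm] at this
  have h4 : n < c * 2 ^ (m + 1) := by
    have := (Nat.div_lt_iff_lt_mul hc).mp h2
    rwa [mul_comm] at this
  have h5 : X + 2 ≤ 2 ^ m := by
    have h6 : 2 * (X + 2) ≤ n / c := (Nat.le_div_iff_mul_le hc).mpr (by rw [mul_comm]; exact hn2)
    have h7 : 2 ^ (m + 1) = 2 * 2 ^ m := by rw [pow_succ]; ring
    omega
  have hm1 : 1 ≤ m := by
    rcases Nat.eq_zero_or_pos m with h6 | h6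
    · rw [h6] at h5
      omega
    · exact h6
  have key := hn m hm1 h3
  set x : ℝ := (2 : ℝ) ^ m with hx
  have hxX : (X : ℝ) + 2 ≤ x := by
    rw [hx]
    exact_mod_cast h5
  have hx0 : 0 < x := by positivity
  have e1 : a ^ (2 ^ m) = Real.exp (L * x) := by
    rw [hLdef, hx, mul_comm, ← Real.log_rpow (by linarith), Real.exp_log (Real.rpow_pos_of_pos
      (by linarith) _)]
    have : ((2 : ℝ) ^ m) = ((2 ^ m : ℕ) : ℝ) := by push_cast; rfl
    rw [this, Real.rpow_natCast]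
  have e2 : Real.exp (L / (4 * c) * n) ≤ Real.exp (L * x / 2) := by
    apply Real.exp_le_exp.mpr
    have h6 : (n : ℝ) ≤ c * (2 * x) := by
      have h7 : (n : ℝ) ≤ ((c * 2 ^ (m + 1) : ℕ) : ℝ) := by exact_mod_cast h4.le
      refine h7.trans (le_of_eq ?_)
      rw [hx]
      push_cast
      rw [pow_succ]
      ring
    have h8 : L / (4 * c) * n ≤ L / (4 * c) * (c * (2 * x)) :=
      mul_le_mul_of_nonneg_left h6 (by positivity)
    refine h8.trans (le_of_eq ?_)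
    field_simp
    ring
  have e3 : Real.exp (L * x) = Real.exp (L * x / 2) * Real.exp (L * x / 2) := by
    rw [← Real.exp_add]
    congr 1
    ring
  have e4 : Real.exp (L * x / 2) = Real.exp (L * x / 4) * Real.exp (L * x / 4) := by
    rw [← Real.exp_add]
    congr 1
    ring
  have e5 : L * x / 4 + 1 ≤ Real.exp (L * x / 4) := Real.add_one_le_exp _
  have hpos : 0 < Real.exp (L * x / 2) := Real.exp_pos _
  rw [e1, e3] at key
  have e6 : Real.exp (L * x / 2) * Real.exp (L * x / 2) ≤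
      2 * ((2 ^ m * v + 1 : ℕ) : ℝ) * Real.exp (L * x / 2) :=
    key.trans (mul_le_mul_of_nonneg_left e2 (by positivity))
  have e7 : Real.exp (L * x / 2) ≤ 2 * ((2 ^ m * v + 1 : ℕ) : ℝ) := le_of_mul_le_mul_right e6 hpos
  have e8 : ((2 ^ m * v + 1 : ℕ) : ℝ) = x * v + 1 := by push_cast; rfl
  rw [e8, e4] at e7
  have e9 : 0 ≤ L * x / 4 := by positivity
  have e10 : (L * x / 4 + 1) * (L * x / 4 + 1) ≤ Real.exp (L * x / 4) * Real.exp (L * x / 4) :=
    mul_le_mul e5 e5 (by linarith) (Real.exp_pos _).le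
  have e11 : 32 * ((v : ℝ) + 1) ≤ L ^ 2 * x := by
    rw [div_le_iff₀ (by positivity)] at hX
    have h6 : (X : ℝ) * L ^ 2 ≤ x * L ^ 2 := mul_le_mul_of_nonneg_right (by linarith) (by positivity)
    linarith
  have e12 : 32 * ((v : ℝ) + 1) * x ≤ L ^ 2 * x * x := mul_le_mul_of_nonneg_right e11 hx0.le
  have e13 : (2 : ℝ) ≤ x := by
    have : (0 : ℝ) ≤ X := Nat.cast_nonneg _
    linarith
  nlinarith

variable {p : ℕ} [hp : Fact p.Prime] {O : ValuationSubring ℂ}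

/-- the class of all pairs -/
abbrev AllD (p : ℕ) (O : ValuationSubring ℂ) : Pool.Agent.N22.DD.Cl := fun G _ B => AdmB p O G B

theorem allD_sq : Pool.Agent.N22.DD.SqC (AllD p O) := fun G _ B hB => by
  have := hB.fin
  have := Fintype.ofFinite G
  exact Pool.Agent.N22.DD.AdmB.prod hB hB

theorem allD_wr (hp2 : p ≠ 2) (hpO : (p : ℂ) ∈ O.nonunits) : Pool.Agent.N22.DD.WrC (AllD p O) :=
  fun _ _ _ hB => hB.wr hp2 hpO

/-- the basic argument for growth -/
theorem wt_core {G : Type} [Group G] {B : Set (G → ℂ)} (hB : AdmB p O G B) {c : ℕ} (hc : 0 < c)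
    (h : ∀ ε : ℝ, 0 < ε → ∃ᶠ n : ℕ in atTop, ∀ m : ℕ, 1 ≤ m → c * 2 ^ m ≤ n →
      ∀ (H : Type) [Group H] (A : Set (H → ℂ)), AdmB p O H A → Nonempty (H ≃* (Fin (2 ^ m) → G)) →
        ∀ d, (blkDef p O d A : ℝ) ≤ Real.exp (ε * n)) {t : ℂ} (ht : ‖t‖ = 1) :
    ‖Wt p O t B‖ ≤ 1 := by
  have := hB.fin
  refine grow2 hc (norm_nonneg _) ((Nat.card G).factorization p) fun ε hε =>
    (h ε hε).mono fun n hn m hm hmn => ?_
  obtain ⟨H, i, A, h1, ⟨e⟩, h3⟩ := exists_pow hB m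
  have h4 := hn m hm hmn H A h1 ⟨e⟩
  have := h1.fin
  have := Fintype.ofFinite H
  have h5 : Nat.card H = Nat.card G ^ (2 ^ m) := by
    rw [Nat.card_congr e.toEquiv, Nat.card_fun, Nat.card_fin]
  have h6 : (Nat.card H).factorization p = 2 ^ m * (Nat.card G).factorization p := by
    rw [h5, Nat.factorization_pow]
    rfl
  have hA : 0 ≤ blkAlt p O A := by
    have e1 := h3 1
    rw [Wt_one] at e1
    have := Fintype.ofFinite G
    rw [Wt_one] at e1
    have e2 : blkAlt p O A = blkAlt p O B ^ (2 ^ m) := by exact_mod_cast e1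
    rw [e2]
    exact Even.pow_nonneg ((Nat.even_pow' (by omega)).mpr even_two) _
  have h7 := Pool.Agent.N22.DD.norm_Wt_le (p := p) (O := O) (B := A) ht h4 (Real.exp_pos _).le hA
  rw [h3, norm_pow, h6] at h7
  exact h7

theorem sq_of_wt {G : Type} [Group G] {B : Set (G → ℂ)} (hB : AdmB p O G B)
    (h : ∀ t : ℂ, ‖t‖ = 1 → ‖Wt p O t B‖ ≤ 1) :
    ∑ d ∈ Finset.range ((Nat.card G).factorization p + 1), blkDef p O d B ^ 2 ≤ 1 := by
  have := hB.fin
  obtain ⟨z, hz, h1⟩ := Pool.Agent.N22.DD.parseval (fun d => blkDef p O d B)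
    (Nat.succ_pos ((Nat.card G).factorization p))
  rw [← Wt_sum] at h1
  have h2 := h z hz
  have h3 : ‖Wt p O z B‖ ^ 2 ≤ 1 := pow_le_one₀ (norm_nonneg _) h2
  exact_mod_cast h1.trans h3

theorem def_le_one {G : Type} [Group G] {B : Set (G → ℂ)} (hB : AdmB p O G B)
    (h : ∑ d ∈ Finset.range ((Nat.card G).factorization p + 1), blkDef p O d B ^ 2 ≤ 1) (d : ℕ) :
    (blkDef p O d B : ℝ) ≤ 1 := by
  have := hB.fin
  have h1 := (Pool.Agent.N22.DD.single_of_sq h).1 d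
  have h2 : (|blkDef p O d B| : ℝ) ≤ 1 := by exact_mod_cast h1
  exact (le_abs_self _).trans h2

/-- for odd primes -/
theorem dade_of_one (hp2 : p ≠ 2) (hpO : (p : ℂ) ∈ O.nonunits)
    (h : ∀ (G : Type) [Group G] (B : Set (G → ℂ)), AdmB p O G B → ∀ d, (blkDef p O d B : ℝ) ≤ 1) :
    ∀ (G : Type) [Group G] (B : Set (G → ℂ)), AdmB p O G B → ∀ d, blkDef p O d B = 0 :=
  Pool.Agent.N22.DD.dade_of_sub hp2 hpO (C := AllD p O) (fun _ _ _ hB => hB) allD_sq
    (allD_wr hp2 hpO) fun ε hε => ⟨1, fun G _ B hB d => by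
      have := hB.fin
      rw [one_mul]
      refine (h G B hB d).trans (Real.one_le_rpow ?_ hε.le)
      exact_mod_cast Nat.card_pos (α := G)⟩

theorem kr_of_one (hp2 : p ≠ 2) (hpO : (p : ℂ) ∈ O.nonunits)
    (h : ∀ (G : Type) [Group G] (B : Set (G → ℂ)), AdmB p O G B → (blkAlt p O B : ℝ) ≤ 1) :
    ∀ (G : Type) [Group G] (B : Set (G → ℂ)), AdmB p O G B → blkAlt p O B = 0 :=
  Pool.Agent.N22.DD.kr_of_sub hp2 hpO (C := AllD p O) (fun _ _ _ hB => hB) allD_sq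
    (allD_wr hp2 hpO) fun ε hε => ⟨1, fun G _ B hB => by
      have := hB.fin
      rw [one_mul]
      refine (h G B hB).trans (Real.one_le_rpow ?_ hε.le)
      exact_mod_cast Nat.card_pos (α := G)⟩

/-! ### the families -/

/-- every pair is realised in the universal family -/
theorem real_mat_all (hpO : (p : ℂ) ∈ O.nonunits) {q : ℕ} (hq : 2 ≤ q) (hpq : ¬ p ∣ q) {G : Type}
    [Group G] {B : Set (G → ℂ)} (hB : AdmB p O G B) {N : Set ℕ} (hN : N.Infinite) :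
    ∃ n ∈ N, RealD p O G B (MatGrp q n) := by
  have := hB.fin
  obtain ⟨n₀, hG⟩ := frucht G
  obtain ⟨n, hn, hlt⟩ := hN.exists_gt n₀
  obtain ⟨j, R, hj, hR⟩ := hG n hlt.le
  exact ⟨n, hn, realD_mat hpO hq hpq j R hj hR hB⟩

theorem real_alt_all (hpO : (p : ℂ) ∈ O.nonunits) {q : ℕ} (hq : 2 ≤ q) (hpq : ¬ p ∣ q) {G : Type}
    [Group G] {B : Set (G → ℂ)} (hB : AdmB p O G B) {N : Set ℕ} (hN : N.Infinite) :
    ∃ n ∈ N, 5 ≤ n ∧ ∃ H : Subgroup (alternatingGroup (Fin n)),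
      RealD p O G B (ZSGrp q (alternatingGroup (Fin n)) H) := by
  have := hB.fin
  have : Finite (Multiplicative (ZMod 3)) := inferInstanceAs (Finite (ZMod 3))
  obtain ⟨n₀, hn₀⟩ := emb_alt (G × Multiplicative (ZMod 3))
  obtain ⟨n, hn, hlt⟩ := hN.exists_gt (max n₀ 5)
  obtain ⟨k, hk⟩ := hn₀ n ((le_max_left _ _).trans hlt.le)
  obtain ⟨j, hj, h3⟩ := emb_three k hk
  have h5 : 5 ≤ n := (le_max_right _ _).trans hlt.le
  exact ⟨n, hn, h5, _, realD_zs hpO hq hpq h5 j hj h3 hB⟩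

theorem real_mat_pow (hpO : (p : ℂ) ∈ O.nonunits) {q : ℕ} (hq : 2 ≤ q) (hpq : ¬ p ∣ q) (G : Type)
    [Group G] [Finite G] : ∃ c : ℕ, 0 < c ∧ ∀ k n, c * k ≤ n → ∀ (H : Type) [Group H]
      (A : Set (H → ℂ)), AdmB p O H A → Nonempty (H ≃* (Fin k → G)) →
        RealD p O H A (MatGrp q n) := by
  obtain ⟨c, hc, hG⟩ := frucht_pow G
  refine ⟨c, hc, fun k n hk H _ A hA he => ?_⟩
  obtain ⟨e⟩ := he
  have := hA.fin
  obtain ⟨j, R, hj, hR⟩ := hG k n hk
  refine realD_mat hpO hq hpq (j.comp e.toMonoidHom) R (hj.comp e.injective) (fun σ => ?_) hA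
  rw [hR σ]
  constructor
  · rintro ⟨g, rfl⟩
    exact ⟨e.symm g, by simp⟩
  · rintro ⟨g, rfl⟩
    exact ⟨e g, rfl⟩

theorem real_alt_pow (hpO : (p : ℂ) ∈ O.nonunits) {q : ℕ} (hq : 2 ≤ q) (hpq : ¬ p ∣ q) (G : Type)
    [Group G] [Finite G] : ∃ c : ℕ, 0 < c ∧ ∀ k n, 1 ≤ k → 5 ≤ n → c * k ≤ n → ∀ (H : Type) [Group H]
      (A : Set (H → ℂ)), AdmB p O H A → Nonempty (H ≃* (Fin k → G)) →
        ∃ K : Subgroup (alternatingGroup (Fin n)),
          RealD p O H A (ZSGrp q (alternatingGroup (Fin n)) K) := by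
  obtain ⟨c, hc, hG⟩ := emb_alt_pow G
  refine ⟨2 * c, by omega, fun k n hk1 h5 hk H _ A hA he => ?_⟩
  obtain ⟨e⟩ := he
  have := hA.fin
  obtain ⟨j, hj, h3⟩ := hG k n (by nlinarith)
  have hr : (j.comp e.toMonoidHom).range = j.range := by
    ext x
    constructor
    · rintro ⟨g, rfl⟩
      exact ⟨e g, rfl⟩
    · rintro ⟨g, rfl⟩
      exact ⟨e.symm g, by simp⟩
  exact ⟨_, realD_zs hpO hq hpq h5 (j.comp e.toMonoidHom) (hj.comp e.injective)
    (by rw [hr]; exact h3) hA⟩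

end Run7.h45
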