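import Mathlib
import Pool.Agent.Y63.NV.Defs

/-!
# Clifford theory over an abelian normal subgroup with a complement in the stabilizer

Fourier analysis of functions on a finite group `J` along an abelian normal subgroup `C`.
-/

set_option autoImplicit false

open scoped Classical BigOperators

noncomputable section

namespace Run7.h45

open Pool.Agent.Y63.NV

/-- an abelian normal subgroup `C` of `J` and a subgroup `M` with `C ∩ M = 1` -/
structure CD (J C M : Type) [Group J] [CommGroup C] [Group M] where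
  i : C →* J
  j : M →* J
  c : J →* MulAut C
  hc : ∀ y v, i (c y v) = y * i v * y⁻¹
  uniq : ∀ v m, i v = j m → v = 1 ∧ m = 1

section

variable {J C M : Type} [Group J] [CommGroup C] [Group M] (D : CD J C M) {K : Type} [Field K]

/-- `C M` is the stabilizer of `η` in `J` -/
def CD.Stab (η : C →* K) : Prop := ∀ y : J, (∀ v, η (D.c y v) = η v) ↔ ∃ v m, y = D.i v * D.j m

/-- the Fourier transform along `C`, at `η` -/
def CD.tf [Fintype C] (η : C →* K) (f : J → K) (m : M) : K := ∑ v, η v * f (D.i v * D.j m)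

/-- the inverse of a homomorphism -/
def hinv (η : C →* K) : C →* K := η.comp invMonoidHom

theorem hinv_apply (η : C →* K) (v : C) : hinv η v = η v⁻¹ := rfl

variable {D}

theorem CD.i_inj {v w : C} (h : D.i v = D.i w) : v = w := by
  have h1 := (D.uniq (v * w⁻¹) 1 (by rw [map_mul, map_inv, h, mul_inv_cancel, map_one])).1
  exact mul_inv_eq_one.mp h1

theorem CD.j_inj {m n : M} (h : D.j m = D.j n) : m = n := by
  have h1 := (D.uniq 1 (m * n⁻¹) (by rw [map_mul, map_inv, h, mul_inv_cancel, map_one])).2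
  exact mul_inv_eq_one.mp h1

theorem CD.ij_inj {v v' : C} {m m' : M} (h : D.i v * D.j m = D.i v' * D.j m') :
    v = v' ∧ m = m' := by
  have h1 : D.i (v'⁻¹ * v) = D.j (m' * m⁻¹) := by
    rw [map_mul, map_mul, map_inv, map_inv]
    calc (D.i v')⁻¹ * D.i v = (D.i v')⁻¹ * (D.i v * D.j m) * (D.j m)⁻¹ := by group
      _ = (D.i v')⁻¹ * (D.i v' * D.j m') * (D.j m)⁻¹ := by rw [h]
      _ = D.j m' * (D.j m)⁻¹ := by group
  obtain ⟨h2, h3⟩ := D.uniq _ _ h1
  exact ⟨(inv_mul_eq_one.mp h2).symm, (mul_inv_eq_one.mp h3).symm⟩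

theorem CD.c_i (v w : C) : D.c (D.i v) w = w := by
  apply D.i_inj
  rw [D.hc, ← map_inv, ← map_mul, ← map_mul]
  congr 1
  rw [mul_comm v w, mul_assoc, mul_inv_cancel, mul_one]

/-- moving an element of `C` to the left -/
theorem CD.mul_i (y : J) (v : C) : y * D.i v = D.i (D.c y v) * y := by
  rw [D.hc]; group

theorem CD.conj_i (y : J) (v : C) : D.i (D.c y v) = y * D.i v * y⁻¹ := D.hc y v

theorem CD.st_j {η : C →* K} (hS : D.Stab η) (m : M) (v : C) : η (D.c (D.j m) v) = η v :=
  (hS (D.j m)).2 ⟨1, m, by rw [map_one, one_mul]⟩ v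

theorem CD.st_mul {η : C →* K} {y z : J} (hy : ∀ v, η (D.c y v) = η v)
    (hz : ∀ v, η (D.c z v) = η v) (v : C) : η (D.c (y * z) v) = η v := by
  rw [map_mul, MulAut.mul_apply, hy, hz]

theorem CD.st_inv {η : C →* K} {y : J} (hy : ∀ v, η (D.c y v) = η v) (v : C) :
    η (D.c y⁻¹ v) = η v := by
  rw [← hy (D.c y⁻¹ v), ← MulAut.mul_apply, ← map_mul, mul_inv_cancel, map_one, MulAut.one_apply]

theorem hom_ne (η : C →* K) (v : C) : η v ≠ 0 := by
  intro h
  have h1 : η (v * v⁻¹) = 0 := by rw [map_mul, h, zero_mul]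
  rw [mul_inv_cancel, map_one] at h1
  exact one_ne_zero h1

/-- the Fourier coefficients of a class function vanish outside the stabilizer -/
theorem CD.vanish [Fintype C] (η : C →* K) {g : J → K} (hg : IsClassFun g) {y : J}
    (hy : ¬ ∀ v, η (D.c y v) = η v) : ∑ v, η v * g (D.i v * y) = 0 := by
  push Not at hy
  obtain ⟨u, hu⟩ := hy
  let t : C := u * (D.c y u)⁻¹
  have ht : ∀ v, g (D.i v * y) = g (D.i (v * t) * y) := by
    intro v
    have h1 : D.i (v * t) * y = D.i u * (D.i v * y) * (D.i u)⁻¹ := by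
      have h2 : y * (D.i u)⁻¹ = (D.i (D.c y u))⁻¹ * y := by
        rw [← map_inv, D.mul_i, map_inv, map_inv]
      have h3 : D.i (v * t) = D.i u * D.i v * (D.i (D.c y u))⁻¹ := by
        rw [← map_inv, ← map_mul, ← map_mul]
        congr 1
        change v * (u * (D.c y u)⁻¹) = _
        rw [← mul_assoc, mul_comm v u]
      calc D.i (v * t) * y = D.i u * D.i v * ((D.i (D.c y u))⁻¹ * y) := by rw [h3]; group
        _ = D.i u * (D.i v * y) * (D.i u)⁻¹ := by rw [← h2]; group
    rw [h1, hg]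
  have h3 : η t * ∑ v, η v * g (D.i v * y) = ∑ v, η v * g (D.i v * y) := by
    rw [Finset.mul_sum]
    refine Fintype.sum_equiv (Equiv.mulRight t) _ _ fun v => ?_
    have h6 : η (v * t) = η v * η t := map_mul η v t
    rw [Equiv.coe_mulRight, ← ht, h6]
    ring
  have h4 : η t ≠ 1 := by
    intro h
    apply hu
    have h5 : η u = η t * η (D.c y u) := by
      rw [← map_mul]
      congr 1
      change u = u * (D.c y u)⁻¹ * D.c y u
      rw [inv_mul_cancel_right]
    rw [h5, h, one_mul]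
  have h5 : (η t - 1) * ∑ v, η v * g (D.i v * y) = 0 := by rw [sub_mul, h3, one_mul, sub_self]
  rcases mul_eq_zero.mp h5 with h6 | h6
  · exact absurd (sub_eq_zero.mp h6) h4
  · exact h6

/-- sums over the stabilizer -/
theorem CD.sum_stab [Fintype J] [Fintype C] [Fintype M] (h : J → K)
    (h0 : ∀ y, (¬ ∃ v m, y = D.i v * D.j m) → h y = 0) :
    ∑ y, h y = ∑ m, ∑ v, h (D.i v * D.j m) := by
  have h1 : ∑ m, ∑ v, h (D.i v * D.j m) = ∑ s : M × C, h (D.i s.2 * D.j s.1) := by
    rw [Fintype.sum_prod_type]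
  rw [h1]
  symm
  let e : M × C → J := fun s => D.i s.2 * D.j s.1
  have he : Function.Injective e := by
    rintro ⟨m, v⟩ ⟨m', v'⟩ h2
    obtain ⟨h3, h4⟩ := D.ij_inj h2
    exact Prod.ext h4 h3
  change ∑ s, h (e s) = _
  rw [← Finset.sum_image (s := Finset.univ) (g := e) (f := h) (fun a _ b _ hab => he hab)]
  refine Finset.sum_subset (Finset.subset_univ _) fun y _ hy => h0 y ?_
  rintro ⟨v, m, rfl⟩
  exact hy (Finset.mem_image.mpr ⟨(m, v), Finset.mem_univ _, rfl⟩)

/-- the transform of a class function is a class function -/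
theorem CD.tf_class [Fintype C] {η : C →* K} (hS : D.Stab η) {f : J → K} (hf : IsClassFun f) :
    IsClassFun (D.tf η f) := by
  intro n m
  unfold CD.tf
  refine Fintype.sum_equiv (D.c (D.j n⁻¹)).toEquiv _ _ fun v => ?_
  have h1 : η ((D.c (D.j n⁻¹)).toEquiv v) = η v := D.st_j hS _ _
  rw [h1]
  congr 1
  have h2 := hf (D.j n⁻¹) (D.i v * D.j (n * m * n⁻¹))
  rw [← h2]
  congr 1
  change _ = D.i (D.c (D.j n⁻¹) v) * D.j m
  rw [D.hc, map_mul, map_mul, map_inv]
  group

/-- the transform of a convolution -/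
theorem CD.tf_conv [Fintype J] [Fintype C] [Fintype M] {η : C →* K} (hS : D.Stab η)
    (f : J → K) {g : J → K} (hg : IsClassFun g) (m : M) :
    ∑ v, η v * (∑ y, f y * g (y⁻¹ * (D.i v * D.j m))) =
      ∑ n, D.tf η f n * D.tf η g (n⁻¹ * m) := by
  have h1 : ∑ v, η v * (∑ y, f y * g (y⁻¹ * (D.i v * D.j m))) =
      ∑ y, f y * ∑ v, η v * g (y⁻¹ * (D.i v * D.j m)) := by
    simp_rw [Finset.mul_sum]
    rw [Finset.sum_comm]
    exact Finset.sum_congr rfl fun y _ => Finset.sum_congr rfl fun v _ => by ring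
  rw [h1, D.sum_stab]
  · refine Finset.sum_congr rfl fun n _ => ?_
    unfold CD.tf
    rw [Finset.sum_mul]
    refine Finset.sum_congr rfl fun u _ => ?_
    have h2 : ∑ v, η v * g ((D.i u * D.j n)⁻¹ * (D.i v * D.j m)) =
        η u * ∑ w, η w * g (D.i w * D.j (n⁻¹ * m)) := by
      rw [Finset.mul_sum]
      symm
      refine Fintype.sum_equiv ((D.c (D.j n)).toEquiv.trans (Equiv.mulLeft u)) _ _ fun w => ?_
      have h3 : ((D.c (D.j n)).toEquiv.trans (Equiv.mulLeft u)) w = u * D.c (D.j n) w := rfl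
      have h4 : η (u * D.c (D.j n) w) = η u * η w := by
        rw [map_mul η, D.st_j hS]
      rw [h3, h4, mul_assoc]
      congr 3
      rw [map_mul, map_mul, D.hc, map_inv]
      group
    rw [h2]
    ring
  · intro y hy
    rw [← hS y] at hy
    have h2 : ∑ v, η v * g (y⁻¹ * (D.i v * D.j m)) =
        ∑ w, (η.comp (D.c y).toMonoidHom) w * g (D.i w * (y⁻¹ * D.j m)) := by
      symm
      refine Fintype.sum_equiv (D.c y).toEquiv _ _ fun w => ?_
      have h3 : (D.c y).toEquiv w = D.c y w := rfl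
      rw [h3, D.hc]
      change η (D.c y w) * _ = _
      congr 2
      group
    rw [h2, D.vanish _ hg, mul_zero]
    intro h3
    apply hy
    have h4 : ∀ v, η (D.c (D.j m * y⁻¹) v) = η v := by
      intro v
      have h5 := h3 (D.c y⁻¹ v)
      have h6 : ∀ w : C, (η.comp (D.c y).toMonoidHom) w = η (D.c y w) := fun _ => rfl
      rw [h6, h6] at h5
      have h7 : D.c y (D.c (y⁻¹ * D.j m) (D.c y⁻¹ v)) = D.c (D.j m * y⁻¹) v := by
        rw [← MulAut.mul_apply, ← MulAut.mul_apply, ← map_mul, ← map_mul]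
        congr 2
        group
      have h8 : D.c y (D.c y⁻¹ v) = v := by
        rw [← MulAut.mul_apply, ← map_mul, mul_inv_cancel, map_one, MulAut.one_apply]
      rw [h7, h8] at h5
      exact h5
    have h5 : ∀ v, η (D.c (y⁻¹) v) = η v := by
      intro v
      have h6 := D.st_j hS m (D.c y⁻¹ v)
      rw [← MulAut.mul_apply, ← map_mul, h4] at h6
      exact h6.symm
    intro v
    have h6 := D.st_inv h5 v
    rwa [inv_inv] at h6

theorem CD.stab_hinv {η : C →* K} (hS : D.Stab η) : D.Stab (hinv η) := by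
  intro y
  rw [← hS y]
  constructor
  · intro h v
    have h1 := h v⁻¹
    have h2 : D.c y v⁻¹ = (D.c y v)⁻¹ := map_inv _ _
    rw [hinv_apply, hinv_apply, h2, inv_inv, inv_inv] at h1
    exact h1
  · intro h v
    have h2 : (D.c y v)⁻¹ = D.c y v⁻¹ := (map_inv _ _).symm
    rw [hinv_apply, hinv_apply, h2, h]

theorem hinv_hinv (η : C →* K) : hinv (hinv η) = η := by
  ext v
  rw [hinv_apply, hinv_apply, inv_inv]

/-- the transform and the action of functions -/
theorem CD.tf_act [Fintype J] [Fintype C] [Fintype M] {η : C →* K} (hS : D.Stab η)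
    (f : J → K) {φ : J → K} (hφ : IsClassFun φ) (m : M) :
    ∑ v, η v⁻¹ * (∑ y, f y * φ (y * (D.i v * D.j m))) =
      ∑ n, D.tf η f n * D.tf (hinv η) φ (n * m) := by
  have h1 := D.tf_conv (D.stab_hinv hS) (fun y => f y⁻¹) hφ m
  have h2 : ∀ x : J, ∑ y, f y⁻¹ * φ (y⁻¹ * x) = ∑ y, f y * φ (y * x) := fun x =>
    Fintype.sum_equiv (Equiv.inv J) _ _ fun y => rfl
  simp_rw [h2] at h1
  simp_rw [← hinv_apply]
  rw [h1]
  refine Fintype.sum_equiv (Equiv.inv M) _ _ fun n => ?_
  rw [Equiv.inv_apply]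
  congr 1
  unfold CD.tf
  refine Fintype.sum_equiv ((Equiv.inv C).trans (D.c (D.j n⁻¹)).toEquiv) _ _ fun v => ?_
  have h3 : ((Equiv.inv C).trans (D.c (D.j n⁻¹)).toEquiv) v = D.c (D.j n⁻¹) v⁻¹ := rfl
  rw [h3, D.st_j hS, hinv_apply]
  congr 2
  rw [D.hc, map_inv, map_inv]
  group

end

end Run7.h45
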