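import Pool.Agent.Run7.h45.Cx

/-!
# Coprime action on an abelian group
-/

set_option autoImplicit false
set_option linter.unusedSectionVars false

open scoped Classical BigOperators

noncomputable section

namespace Run7.h45

open Pool.Agent.Y63.NV Pool.Agent.N85.WM

theorem exists_inv_mod {a n : ℕ} (h : Nat.Coprime a n) (hn : 0 < n) : ∃ k, a * k ≡ 1 [MOD n] := by
  rcases Nat.lt_or_ge 1 n with h1 | h1
  · obtain ⟨k, -, hk⟩ := Nat.exists_mul_mod_eq_one_of_coprime h h1
    refine ⟨k, ?_⟩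
    unfold Nat.ModEq
    rw [hk, Nat.mod_eq_of_lt h1]
  · have : n = 1 := by omega
    subst this
    exact ⟨0, Nat.modEq_one⟩

section act

variable {P V K : Type} [Group P] [Fintype P] [CommGroup V] [Fintype V] [Field K]

/-- the fixed points -/
def Fx (a : P →* MulAut V) : Subgroup V where
  carrier := {v | ∀ u, a u v = v}
  one_mem' := fun u => map_one _
  mul_mem' := fun {x y} hx hy u => by rw [map_mul, hx u, hy u]
  inv_mem' := fun {x} hx u => by rw [map_inv, hx u]

theorem mem_Fx {a : P →* MulAut V} {v : V} : v ∈ Fx a ↔ ∀ u, a u v = v := Iff.rfl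

/-- the norm -/
def nm (a : P →* MulAut V) : V →* Fx a where
  toFun v := ⟨∏ u, a u v, fun w => by
    rw [map_prod]
    refine Fintype.prod_equiv (Equiv.mulLeft w) _ _ fun u => ?_
    rw [Equiv.coe_mulLeft, map_mul, MulAut.mul_apply]⟩
  map_one' := by
    apply Subtype.ext
    change ∏ u, a u 1 = 1
    exact Finset.prod_eq_one fun u _ => map_one _
  map_mul' x y := by
    apply Subtype.ext
    change ∏ u, a u (x * y) = (∏ u, a u x) * ∏ u, a u y
    rw [← Finset.prod_mul_distrib]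
    exact Finset.prod_congr rfl fun u _ => map_mul _ _ _

theorem nm_coe (a : P →* MulAut V) (v : V) : (nm a v : V) = ∏ u, a u v := rfl

theorem hom_nm (a : P →* MulAut V) {θ : V →* K} (hθ : ∀ u v, θ (a u v) = θ v) (v : V) :
    θ (nm a v) = θ v ^ Fintype.card P := by
  rw [nm_coe, map_prod, Finset.prod_congr rfl fun u _ => hθ u v, Finset.prod_const,
    Finset.card_univ]

/-- an invariant homomorphism is determined by its restriction to the fixed points -/
theorem hom_ext_fx (hco : Nat.Coprime (Fintype.card P) (Fintype.card V)) (a : P →* MulAut V)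
    {θ θ' : V →* K} (hθ : ∀ u v, θ (a u v) = θ v) (hθ' : ∀ u v, θ' (a u v) = θ' v)
    (h : ∀ v ∈ Fx a, θ v = θ' v) : θ = θ' := by
  ext v
  have h1 : θ v ^ Fintype.card P = θ' v ^ Fintype.card P := by
    rw [← hom_nm a hθ, ← hom_nm a hθ']
    exact h _ (nm a v).2
  obtain ⟨k, hk⟩ := exists_inv_mod hco Fintype.card_pos
  have h2 : ∀ θ : V →* K, θ v ^ (Fintype.card P * k) = θ v := by
    intro θ
    have h3 : θ v ^ Fintype.card V = 1 := by rw [← map_pow, pow_card_eq_one, map_one]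
    rw [pow_eq_pow_of_modEq hk h3, pow_one]
  rw [← h2 θ, ← h2 θ', pow_mul, pow_mul, h1]

/-- extension of homomorphisms from the fixed points -/
theorem hom_extend (hco : Nat.Coprime (Fintype.card P) (Fintype.card V)) (a : P →* MulAut V)
    (η : Fx a →* K) : ∃ θ : V →* K, (∀ u v, θ (a u v) = θ v) ∧ ∀ v (hv : v ∈ Fx a), θ v = η ⟨v, hv⟩ := by
  obtain ⟨k, hk⟩ := exists_inv_mod hco Fintype.card_pos
  refine ⟨(powMonoidHom k).comp (η.comp (nm a)), fun u v => ?_, fun v hv => ?_⟩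
  · change η (nm a (a u v)) ^ k = η (nm a v) ^ k
    have h1 : nm a (a u v) = nm a v := by
      apply Subtype.ext
      rw [nm_coe, nm_coe]
      refine Fintype.prod_equiv (Equiv.mulRight u) _ _ fun w => ?_
      rw [Equiv.coe_mulRight, map_mul, MulAut.mul_apply]
    rw [h1]
  · change η (nm a v) ^ k = η ⟨v, hv⟩
    have h1 : nm a v = ⟨v, hv⟩ ^ Fintype.card P := by
      apply Subtype.ext
      rw [nm_coe, Finset.prod_congr rfl fun u _ => hv u, Finset.prod_const, Finset.card_univ]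
      rfl
    have h3 : (⟨v, hv⟩ : Fx a) ^ Fintype.card V = 1 := by
      apply Subtype.ext
      exact pow_card_eq_one
    rw [← map_pow, h1, ← pow_mul, pow_eq_pow_of_modEq hk h3, pow_one]

/-- cocycles are coboundaries -/
theorem cocycle (hco : Nat.Coprime (Fintype.card P) (Fintype.card V)) (a : P →* MulAut V)
    (f : P → V) (hf : ∀ u w, f (u * w) = f u * a u (f w)) : ∃ v, ∀ u, f u = v * (a u v)⁻¹ := by
  obtain ⟨k, hk⟩ := exists_inv_mod hco Fintype.card_pos
  obtain ⟨w, hw⟩ : ∃ w, w = ∏ u, f u := ⟨_, rfl⟩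
  have h1 : ∀ u, f u ^ Fintype.card P * a u w = w := by
    intro u
    have h2 : w = ∏ x, f (u * x) :=
      hw.trans (Fintype.prod_equiv (Equiv.mulLeft u) _ _ fun x => rfl).symm
    conv_rhs => rw [h2]
    rw [Finset.prod_congr rfl fun x _ => hf u x, Finset.prod_mul_distrib, Finset.prod_const,
      Finset.card_univ, ← map_prod, ← hw]
  refine ⟨w ^ k, fun u => ?_⟩
  have h2 : f u ^ Fintype.card P = w * (a u w)⁻¹ := eq_mul_inv_of_mul_eq (h1 u)
  have h3 : f u ^ (Fintype.card P * k) = f u := by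
    rw [pow_eq_pow_of_modEq hk (pow_card_eq_one (x := f u)), pow_one]
  rw [← h3, pow_mul, h2, mul_pow, map_pow, inv_pow]

end act

section sep

/-- separation of the orbits of homomorphisms -/
theorem sep {J V K : Type} [Group J] [Finite J] [CommGroup V] [Fintype V] [Field K]
    (hV : (Fintype.card V : K) ≠ 0) (c : J →* MulAut V) (θ η : V →* K)
    (h : ∀ f : V → K, (∀ y v, f (c y v) = f v) → ∑ v, f v * η v = ∑ v, f v * θ v) :
    ∃ y, ∀ v, η v = θ (c y v) := by
  by_contra hcon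
  push Not at hcon
  let O : Set (V →* K) := Set.range fun y : J => θ.comp (c y).toMonoidHom
  have hO : O.Finite := Set.finite_range _
  let S : Finset (V →* K) := hO.toFinset
  have hS : ∀ ζ, ζ ∈ S ↔ ∃ y : J, θ.comp (c y).toMonoidHom = ζ := fun ζ => by
    rw [Set.Finite.mem_toFinset]; rfl
  have h1 := h (fun v => ∑ ζ ∈ S, ζ v⁻¹) (by
    intro y v
    refine Finset.sum_bij (fun ζ _ => ζ.comp (c y).toMonoidHom) ?_ ?_ ?_ ?_
    · intro ζ hζ
      obtain ⟨x, rfl⟩ := (hS ζ).1 hζ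
      refine (hS _).2 ⟨x * y, ?_⟩
      ext v
      change θ (c (x * y) v) = θ (c x (c y v))
      rw [map_mul, MulAut.mul_apply]
    · intro ζ _ ζ' _ h2
      ext v
      have h3 := DFunLike.congr_fun h2 (c y⁻¹ v)
      change ζ (c y (c y⁻¹ v)) = ζ' (c y (c y⁻¹ v)) at h3
      rw [← MulAut.mul_apply, ← map_mul, mul_inv_cancel, map_one, MulAut.one_apply] at h3
      exact h3
    · intro ζ hζ
      obtain ⟨x, rfl⟩ := (hS ζ).1 hζ
      refine ⟨θ.comp (c (x * y⁻¹)).toMonoidHom, (hS _).2 ⟨_, rfl⟩, ?_⟩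
      ext v
      change θ (c (x * y⁻¹) (c y v)) = θ (c x v)
      rw [← MulAut.mul_apply, ← map_mul, inv_mul_cancel_right]
    · intro ζ _
      change ζ (c y v)⁻¹ = ζ (c y v⁻¹)
      rw [map_inv (c y)])
  have h2 : ∀ ζ' : V →* K, ∑ v, (∑ ζ ∈ S, ζ v⁻¹) * ζ' v =
      if ζ' ∈ S then (Fintype.card V : K) else 0 := by
    intro ζ'
    simp_rw [Finset.sum_mul]
    rw [Finset.sum_comm]
    have h3 : ∀ ζ ∈ S, ∑ v, ζ v⁻¹ * ζ' v = if ζ = ζ' then (Fintype.card V : K) else 0 := by
      intro ζ _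
      by_cases h4 : ζ = ζ'
      · subst h4
        rw [if_pos rfl, ← hom_sum_eq ζ]
        exact Finset.sum_congr rfl fun v _ => mul_comm _ _
      · rw [if_neg h4, ← hom_sum_ne (Ne.symm h4)]
        exact Finset.sum_congr rfl fun v _ => mul_comm _ _
    rw [Finset.sum_congr rfl h3, Finset.sum_ite_eq' S ζ']
  rw [h2, h2, if_neg, if_pos] at h1
  · exact hV h1.symm
  · refine (hS _).2 ⟨1, ?_⟩
    ext v
    change θ (c 1 v) = θ v
    rw [map_one, MulAut.one_apply]
  · intro h3
    obtain ⟨y, hy⟩ := (hS _).1 h3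
    obtain ⟨v, hv⟩ := hcon y
    apply hv
    rw [← hy]
    rfl

/-- completeness of the characters of an abelian group -/
theorem dual_complete {V : Type} [CommGroup V] [Fintype V] (g : V → ℂ) (hg : g 1 ≠ 0) :
    ∃ η : V →* ℂ, ∑ v, η v⁻¹ * g v ≠ 0 := by
  by_contra hcon
  push Not at hcon
  have : Finite (V →* ℂˣ) := by
    obtain ⟨e⟩ := CommGroup.monoidHom_mulEquiv_of_hasEnoughRootsOfUnity V ℂ
    exact Finite.of_equiv V e.symm.toEquiv
  have : Fintype (V →* ℂˣ) := Fintype.ofFinite _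
  have h1 : ∑ φ : V →* ℂˣ, ∑ v, ((φ v⁻¹ : ℂˣ) : ℂ) * g v = 0 :=
    Finset.sum_eq_zero fun φ _ => hcon ((Units.coeHom ℂ).comp φ)
  rw [Finset.sum_comm, Finset.sum_eq_single (1 : V)] at h1
  · rw [inv_one] at h1
    simp only [map_one, Units.val_one, one_mul, Finset.sum_const, Finset.card_univ,
      nsmul_eq_mul] at h1
    rcases mul_eq_zero.mp h1 with h2 | h2
    · have : (Fintype.card (V →* ℂˣ) : ℂ) ≠ 0 := by exact_mod_cast Fintype.card_ne_zero
      exact this h2
    · exact hg h2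
  · intro v _ hv
    rw [← Finset.sum_mul]
    obtain ⟨ψ, hψ⟩ := CommGroup.exists_apply_ne_one_of_hasEnoughRootsOfUnity V ℂ
      (inv_ne_one.mpr hv)
    have h2 : ((ψ v⁻¹ : ℂˣ) : ℂ) * ∑ φ : V →* ℂˣ, ((φ v⁻¹ : ℂˣ) : ℂ) =
        ∑ φ : V →* ℂˣ, ((φ v⁻¹ : ℂˣ) : ℂ) := by
      rw [Finset.mul_sum]
      refine Fintype.sum_equiv (Equiv.mulLeft ψ) _ _ fun φ => ?_
      rw [Equiv.coe_mulLeft, MonoidHom.mul_apply, Units.val_mul]
    have h3 : (((ψ v⁻¹ : ℂˣ) : ℂ) - 1) * ∑ φ : V →* ℂˣ, ((φ v⁻¹ : ℂˣ) : ℂ) = 0 := by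
      rw [sub_mul, h2, one_mul, sub_self]
    rcases mul_eq_zero.mp h3 with h4 | h4
    · exact absurd (Units.ext (sub_eq_zero.mp h4)) hψ
    · rw [h4, zero_mul]
  · intro h
    exact absurd (Finset.mem_univ _) h

end sep

section red

variable {F : Type} [Field F] {p : ℕ} [Fact p.Prime] [CharP F p]
  (red : integralClosure ℤ ℂ →+* F)

/-- the reduction is injective on the roots of unity of order prime to `p` -/
theorem redC_root {n : ℕ} (hn : ¬ p ∣ n) {ζ : ℂ} (hζ : ζ ^ n = 1) (h : redC red ζ = 1) : ζ = 1 := by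
  by_contra hne
  have hn0 : 0 < n := by
    rcases Nat.eq_zero_or_pos n with h0 | h0
    · exact absurd (h0 ▸ dvd_zero p) hn
    · exact h0
  have h1 : ∑ k ∈ Finset.range n, ζ ^ k = 0 := by
    have h2 := mul_geom_sum ζ n
    rw [hζ, sub_self] at h2
    rcases mul_eq_zero.mp h2 with h3 | h3
    · exact absurd (sub_eq_zero.mp h3) hne
    · exact h3
  have hi : IsIntegral ℤ ζ := IsIntegral.of_pow hn0 (by rw [hζ]; exact isIntegral_one)
  have h2 : ∀ k : ℕ, redC red (ζ ^ k) = 1 := by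
    intro k
    induction k with
    | zero => rw [pow_zero]; exact Pool.Agent.Y930.NV.redC_one red
    | succ k ih =>
      rw [pow_succ, Pool.Agent.Y930.NV.redC_mul red (hi.pow k) hi, ih, h, one_mul]
  have h3 := congrArg (redC red) h1
  rw [Pool.Agent.Y930.NV.redC_sum red _ _ fun k _ => hi.pow k, Finset.sum_congr rfl fun k _ => h2 k,
    Finset.sum_const, Finset.card_range, nsmul_eq_mul, mul_one,
    Pool.Agent.Y930.NV.redC_zero red] at h3
  exact hn ((CharP.cast_eq_zero_iff F p n).mp h3)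

theorem redH_inj {V : Type} [CommGroup V] [Finite V] (hV : ¬ p ∣ Nat.card V) {θ θ' : V →* ℂ}
    {v w : V} (h : redH red θ v = redH red θ' w) : θ v = θ' w := by
  have h1 : redC red (θ v) = redC red (θ' w) := h
  have h2 : redC red (θ v * θ' w⁻¹) = 1 := by
    rw [Pool.Agent.Y930.NV.redC_mul red (hom_int θ v) (hom_int θ' _), h1,
      ← Pool.Agent.Y930.NV.redC_mul red (hom_int θ' w) (hom_int θ' _), ← map_mul, mul_inv_cancel,
      map_one]
    exact Pool.Agent.Y930.NV.redC_one red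
  have h3 : (θ v * θ' w⁻¹) ^ Nat.card V = 1 := by
    rw [mul_pow, ← map_pow, ← map_pow, pow_card_eq_one', pow_card_eq_one', map_one, map_one,
      one_mul]
  have h4 := redC_root red hV h3 h2
  have h5 : θ' w⁻¹ * θ' w = 1 := by rw [← map_mul, inv_mul_cancel, map_one]
  calc θ v = θ v * (θ' w⁻¹ * θ' w) := by rw [h5, mul_one]
    _ = θ v * θ' w⁻¹ * θ' w := by ring
    _ = θ' w := by rw [h4, one_mul]

theorem stab_redH {J V G : Type} [Group J] [CommGroup V] [Group G] [Finite V] {D : CD J V G}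
    (hV : ¬ p ∣ Nat.card V) {θ : V →* ℂ} (hS : D.Stab θ) : D.Stab (redH red θ) := by
  intro y
  rw [← hS y]
  constructor
  · intro h v
    exact redH_inj red hV (h v)
  · intro h v
    exact congrArg (redC red) (h v)

end red

end Run7.h45
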