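import Pool.Agent.Run7.h45.Ind

/-!
# The Clifford correspondence
-/

set_option autoImplicit false

open scoped Classical BigOperators

noncomputable section

namespace Run7.h45

open Pool.Agent.Y63.NV

variable {J C M : Type} [Group J] [CommGroup C] [Group M] {D : CD J C M} {K : Type} [Field K]

theorem irrT_class {G : Type} [Group G] {φ : G → K} (h : IsIrrTrace φ) : IsClassFun φ := by
  obtain ⟨V, _, _, _, ρ, _, rfl⟩ := h
  exact fun g x => ρ.char_conj x g

variable [Fintype J] [Fintype C] [Fintype M]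

/-- the action of a function on the isotypic part -/
theorem CD.T_act {η : C →* K} (hS : D.Stab η) (f : J → K) {φ : J → K} (hφ : IsClassFun φ)
    {φ' : J → K} (h : ∀ x, ∑ y, f y * φ (y * x) = φ' x) (m : M) :
    ∑ n, D.tf η f n * D.T η φ (n * m) = D.T η φ' m := by
  unfold CD.T
  have h1 := D.tf_act hS f hφ m
  simp_rw [h] at h1
  have h2 : ∑ n, D.tf η f n * ((Fintype.card C : K)⁻¹ * D.tf (hinv η) φ (n * m)) =
      (Fintype.card C : K)⁻¹ * ∑ n, D.tf η f n * D.tf (hinv η) φ (n * m) := by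
    rw [Finset.mul_sum]
    exact Finset.sum_congr rfl fun n _ => by ring
  rw [h2, ← h1]
  rfl

omit [Fintype J] [Fintype M] in
theorem CD.T_smul (η : C →* K) (a : K) (φ : J → K) (m : M) :
    D.T η (fun x => a * φ x) m = a * D.T η φ m := by
  unfold CD.T CD.tf
  rw [mul_left_comm a, Finset.mul_sum (a := a)]
  congr 1
  exact Finset.sum_congr rfl fun v _ => by ring

omit [Fintype J] [Fintype M] in
theorem CD.T_zero (η : C →* K) (m : M) : D.T η (fun _ => (0 : K)) m = 0 := by
  unfold CD.T CD.tf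
  simp

/-- the Clifford correspondence is injective -/
theorem CD.T_inj [IsAlgClosed K] {η : C →* K} (hS : D.Stab η) {φ φ' : J → K} (h1 : IsIrrTrace φ)
    (h2 : IsIrrTrace φ') (h : D.T η φ = D.T η φ') (hne : D.T η φ ≠ 0) : φ = φ' := by
  by_contra hcon
  apply hne
  obtain ⟨V, _, _, _, ρ, hρ, hφ⟩ := h1
  obtain ⟨x, hx1, W, _, _, _, σ, _, hφ', hx2⟩ :=
    Pool.Agent.Y914.NV.pairK ρ hρ φ' h2 (fun hh => hcon (hφ.trans hh.symm))
  obtain ⟨a, ha⟩ := Pool.Agent.Y914.NV.expand x
  have e1 : ∀ y, ∑ g, a g * φ (g * y) = φ y := by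
    intro y
    have h3 : LinearMap.trace K V (ρ.asAlgebraHom x * ρ y) = φ y := by
      rw [hx1, one_mul, hφ]; rfl
    rw [← h3, ha, map_sum, Finset.sum_mul, map_sum]
    refine Finset.sum_congr rfl fun g _ => ?_
    rw [Representation.asAlgebraHom_single, smul_mul_assoc, ← map_mul, map_smul, smul_eq_mul, hφ]
    rfl
  have e2 : ∀ y, ∑ g, a g * φ' (g * y) = 0 := by
    intro y
    have h3 : LinearMap.trace K W (σ.asAlgebraHom x * σ y) = 0 := by
      rw [hx2, zero_mul, map_zero]
    rw [← h3, ha, map_sum, Finset.sum_mul, map_sum]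
    refine Finset.sum_congr rfl fun g _ => ?_
    rw [Representation.asAlgebraHom_single, smul_mul_assoc, ← map_mul, map_smul, smul_eq_mul, hφ']
    rfl
  have hc1 : IsClassFun φ := irrT_class ⟨V, _, _, ‹_›, ρ, hρ, hφ⟩
  funext m
  have e3 := D.T_act hS a hc1 e1 m
  have e4 := D.T_act hS a (irrT_class h2) e2 m
  rw [← e3, h, e4, D.T_zero]
  rfl

/-- the central characters -/
theorem CD.T_central {η : C →* K} (hS : D.Stab η) {f : J → K} {φ : J → K} (hφ : IsClassFun φ)
    {a : K} (h : ∀ x, ∑ y, f y * φ (y * x) = a * φ x) (m : M) :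
    ∑ n, D.tf η f n * D.T η φ (n * m) = a * D.T η φ m := by
  rw [D.T_act hS f hφ h, D.T_smul]

end Run7.h45
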