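import Pool.Agent.Run7.h45.Blk

/-!
# The Clifford correspondence for complex characters
-/

set_option autoImplicit false
set_option linter.unusedSectionVars false

open scoped Classical BigOperators

noncomputable section

namespace Run7.h45

open Pool.Agent.Y63.NV Pool.Agent.N85.WM
open Pool.Agent.Y63.AWC (IsIrreducibleCharacter)
open Pool.Agent.Y930.NV (Cf om ind cv R Cf_out Cf_expand mk_out Cf_ind om_sum om_int ind_cast
  centralValue_eq redC_sum redC_mul redC_of irr_one_ne irr_Cf)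

section one

variable {J : Type} [Group J] [Fintype J]

theorem irr_act {χ : J → ℂ} (h : IsIrreducibleCharacter χ) {f : J → ℂ} (hf : Cf f) (x : J) :
    ∑ y, f y * χ (y * x) = om χ f * χ x := by
  obtain ⟨V, _, _, _, ρ, hr, rfl⟩ := h
  have h1 := Pool.Agent.Y930.NV.Tp_eq ρ hr f hf
  have h2 : LinearMap.trace ℂ V (Pool.Agent.Y930.NV.Tp ρ f * ρ x) = om ρ.character f * ρ.character x := by
    rw [h1, smul_mul_assoc, one_mul, map_smul, smul_eq_mul]
    rfl
  rw [← h2]
  unfold Pool.Agent.Y930.NV.Tp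
  rw [Finset.sum_mul, map_sum]
  refine Finset.sum_congr rfl fun y _ => ?_
  rw [smul_mul_assoc, map_smul, smul_eq_mul, ← map_mul]
  rfl

theorem irr_norm {χ : J → ℂ} (h : IsIrreducibleCharacter χ) :
    ∑ y, χ y⁻¹ * χ y = Nat.card J := by
  have h1 := Pool.Agent.Helper884.IC.B_irr (chi := χ) (psi := χ) h h
  rw [if_pos rfl] at h1
  unfold Pool.Agent.Helper884.IC.B at h1
  have h0 : (Nat.card J : ℂ) ≠ 0 := by exact_mod_cast Nat.card_pos.ne'
  rw [inv_mul_eq_iff_eq_mul₀ h0, mul_one] at h1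
  rw [← h1]
  exact Finset.sum_congr rfl fun y _ => mul_comm _ _

omit [Fintype J] in
theorem irr_toT {χ : J → ℂ} (h : IsIrreducibleCharacter χ) : IsIrrTrace χ := h

end one

section corr

variable {J C M : Type} [Group J] [CommGroup C] [Group M] {D : CD J C M}
  [Fintype J] [Fintype C] [Fintype M] {η : C →* ℂ}

theorem cardC_ne : (Fintype.card C : ℂ) ≠ 0 := by exact_mod_cast Fintype.card_ne_zero

theorem om_tf (hS : D.Stab η) {χ : J → ℂ} (h : IsIrreducibleCharacter χ) (hne : D.T η χ ≠ 0)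
    {f : J → ℂ} (hf : Cf f) : om χ f = om (D.T η χ) (D.tf η f) := by
  have h1 : IsIrreducibleCharacter (D.T η χ) := D.T_irr cardC_ne hS h hne
  have h2 := D.T_central hS (f := f) (irrT_class (K := ℂ) h) (a := om χ f) (irr_act h hf) 1
  have h3 := irr_one_ne h1
  unfold om at h2 ⊢
  rw [eq_div_iff h3, ← h2]
  exact Finset.sum_congr rfl fun n _ => by rw [mul_one]

/-- the degrees -/
theorem deg_T (hS : D.Stab η) {χ : J → ℂ} (h : IsIrreducibleCharacter χ) (hne : D.T η χ ≠ 0) :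
    χ 1 * (Nat.card C * Nat.card M : ℂ) = Nat.card J * D.T η χ 1 := by
  have h1 : IsIrreducibleCharacter (D.T η χ) := D.T_irr cardC_ne hS h hne
  have hc := irr_Cf h
  have hf : Cf (fun y => χ y⁻¹) := fun g x => by
    change χ (g * x * g⁻¹)⁻¹ = χ x⁻¹
    rw [← hc g x⁻¹]
    congr 1
    group
  have h2 := om_tf hS h hne hf
  have h3 : ∀ n, D.tf η (fun y => χ y⁻¹) n = Nat.card C * D.T η χ n⁻¹ := by
    intro n
    unfold CD.T CD.tf
    rw [Nat.card_eq_fintype_card, mul_inv_cancel_left₀ cardC_ne]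
    refine Fintype.sum_equiv (Equiv.inv C) _ _ fun v => ?_
    rw [Equiv.inv_apply, hinv_apply, inv_inv]
    congr 1
    have h4 := hc (D.i v)⁻¹ ((D.j n)⁻¹ * (D.i v)⁻¹)
    have h5 : (D.i v)⁻¹ * ((D.j n)⁻¹ * (D.i v)⁻¹) * (D.i v)⁻¹⁻¹ = D.i v⁻¹ * D.j n⁻¹ := by
      rw [map_inv, map_inv]
      group
    rw [h5] at h4
    change χ (D.i v * D.j n)⁻¹ = _
    rw [h4, mul_inv_rev]
  unfold om at h2
  have h5 : ∑ g, D.tf η (fun y => χ y⁻¹) g * D.T η χ g = Nat.card C * Nat.card M := by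
    simp_rw [h3, mul_assoc]
    rw [← Finset.mul_sum, irr_norm h1]
  rw [irr_norm h, h5, div_eq_div_iff (irr_one_ne h) (irr_one_ne h1)] at h2
  rw [h2]
  ring

/-- a normal subgroup of `J` contained in `M` and centralising `C` -/
structure Nrm (D : CD J C M) (QJ : Subgroup J) (QM : Subgroup M) : Prop where
  nor : QJ.Normal
  mem : ∀ x : J, x ∈ QJ ↔ ∃ q ∈ QM, x = D.j q
  cen : ∀ q ∈ QM, ∀ v, D.j q * D.i v = D.i v * D.j q

variable {QJ : Subgroup J} {QM : Subgroup M}

theorem infl_T (hQ : Nrm D QJ QM) {χ : J → ℂ} (h : ∀ q ∈ QJ, ∀ x, χ (q * x) = χ x) :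
    ∀ q ∈ QM, ∀ m, D.T η χ (q * m) = D.T η χ m := by
  intro q hq m
  unfold CD.T CD.tf
  congr 1
  refine Finset.sum_congr rfl fun v _ => ?_
  congr 1
  rw [map_mul, ← mul_assoc, ← hQ.cen q hq, mul_assoc]
  exact h _ ((hQ.mem _).mpr ⟨q, hq, rfl⟩) _

theorem infl_of_T (hS : D.Stab η) (hQ : Nrm D QJ QM) {χ : J → ℂ} (h : IsIrreducibleCharacter χ)
    (hne : D.T η χ ≠ 0) (h2 : ∀ q ∈ QM, ∀ m, D.T η χ (q * m) = D.T η χ m) :
    ∀ q ∈ QJ, ∀ x, χ (q * x) = χ x := by
  have hn := hQ.nor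
  have hf : Cf (fun y : J => if y ∈ QJ then (1 : ℂ) else 0) := by
    intro g x
    have h3 : g * x * g⁻¹ ∈ QJ ↔ x ∈ QJ := by
      constructor
      · intro h4
        have h5 := hn.conj_mem _ h4 g⁻¹
        have h6 : g⁻¹ * (g * x * g⁻¹) * g⁻¹⁻¹ = x := by group
        rwa [h6] at h5
      · intro h4
        exact hn.conj_mem _ h4 g
    simp only [h3]
  have h3 := irr_act h hf
  have h4 : ∀ m, ∑ n, D.tf η (fun y : J => if y ∈ QJ then (1 : ℂ) else 0) n * D.T η χ (n * m) =
      om χ (fun y : J => if y ∈ QJ then (1 : ℂ) else 0) * D.T η χ m :=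
    D.T_central hS (irrT_class (K := ℂ) h) h3
  have h5 : ∀ n, D.tf η (fun y : J => if y ∈ QJ then (1 : ℂ) else 0) n =
      if n ∈ QM then 1 else 0 := by
    intro n
    unfold CD.tf
    rw [Finset.sum_eq_single (1 : C)]
    · rw [map_one, one_mul, map_one, one_mul]
      have : D.j n ∈ QJ ↔ n ∈ QM := by
        rw [hQ.mem]
        constructor
        · rintro ⟨q, hq, h6⟩
          rw [D.j_inj h6]; exact hq
        · intro h6
          exact ⟨n, h6, rfl⟩
      simp only [this]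
    · intro v _ hv
      have h6 : D.i v * D.j n ∉ QJ := by
        intro h6
        obtain ⟨q, -, h7⟩ := (hQ.mem _).mp h6
        apply hv
        have h8 : D.i v * D.j n = D.i 1 * D.j q := by rw [h7, map_one, one_mul]
        exact (D.ij_inj h8).1
      change η v * (if D.i v * D.j n ∈ QJ then (1 : ℂ) else 0) = 0
      rw [if_neg h6, mul_zero]
    · intro h6
      exact absurd (Finset.mem_univ _) h6
  obtain ⟨m, hm⟩ : ∃ m, D.T η χ m ≠ 0 := by
    by_contra hcon
    push Not at hcon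
    exact hne (funext hcon)
  have h6 := h4 m
  have h7 : ∑ n, D.tf η (fun y : J => if y ∈ QJ then (1 : ℂ) else 0) n * D.T η χ (n * m) =
      (Finset.univ.filter fun n : M => n ∈ QM).card * D.T η χ m := by
    have h8 : ∀ n, D.tf η (fun y : J => if y ∈ QJ then (1 : ℂ) else 0) n * D.T η χ (n * m) =
        if n ∈ QM then D.T η χ m else 0 := by
      intro n
      rw [h5]
      by_cases hn : n ∈ QM
      · rw [if_pos hn, if_pos hn, one_mul, h2 n hn]
      · rw [if_neg hn, if_neg hn, zero_mul]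
    rw [Finset.sum_congr rfl fun n _ => h8 n, ← Finset.sum_filter, Finset.sum_const, nsmul_eq_mul]
  rw [h7] at h6
  have h8 := mul_right_cancel₀ hm h6
  have h9 : ((Finset.univ.filter fun n : M => n ∈ QM).card : ℂ) ≠ 0 := by
    have : 0 < (Finset.univ.filter fun n : M => n ∈ QM).card :=
      Finset.card_pos.mpr ⟨1, by simp [QM.one_mem]⟩
    exact_mod_cast this.ne'
  rw [h8] at h9
  intro q hq x
  refine mul_left_cancel₀ h9 ?_
  rw [← h3, ← h3]
  refine Fintype.sum_equiv (Equiv.mulRight q) _ _ fun y => ?_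
  rw [Equiv.coe_mulRight, mul_assoc]
  have h10 : y * q ∈ QJ ↔ y ∈ QJ := QJ.mul_mem_cancel_right hq
  simp only [h10]

omit [Fintype J] [Fintype M] in
/-- the orders -/
theorem nrm_card [Finite M] (hQ : Nrm D QJ QM) : Nat.card QJ = Nat.card QM := by
  symm
  refine Nat.card_eq_of_bijective (fun q : QM => (⟨D.j q, (hQ.mem _).mpr ⟨q, q.2, rfl⟩⟩ : QJ))
    ⟨?_, ?_⟩
  · intro a b hab
    exact Subtype.ext (D.j_inj (congrArg Subtype.val hab))
  · rintro ⟨x, hx⟩
    obtain ⟨q, hq, rfl⟩ := (hQ.mem x).mp hx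
    exact ⟨⟨q, hq⟩, rfl⟩

theorem deg_nat {G : Type} [Group G] {χ : G → ℂ} (h : IsIrreducibleCharacter χ) :
    ∃ n : ℕ, χ 1 = n := by
  obtain ⟨V, _, _, _, ρ, hr, rfl⟩ := h
  exact ⟨Module.finrank ℂ V, ρ.char_one⟩

theorem dz_iff {p : ℕ} [Fact p.Prime] (hp : ¬ p ∣ Nat.card C) (hS : D.Stab η)
    (hQ : Nrm D QJ QM) {χ : J → ℂ} (h : IsIrreducibleCharacter χ) (hne : D.T η χ ≠ 0) :
    (∃ n : ℕ, χ 1 = (n : ℂ) ∧ n.factorization p + (Nat.card QJ).factorization p =
      (Nat.card J).factorization p) ↔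
    ∃ n : ℕ, D.T η χ 1 = (n : ℂ) ∧ n.factorization p + (Nat.card QM).factorization p =
      (Nat.card M).factorization p := by
  have h1 : IsIrreducibleCharacter (D.T η χ) := D.T_irr cardC_ne hS h hne
  obtain ⟨a, ha⟩ := deg_nat h
  obtain ⟨b, hb⟩ := deg_nat h1
  have ha0 : a ≠ 0 := by
    rintro rfl
    exact irr_one_ne h (by rw [ha, Nat.cast_zero])
  have hb0 : b ≠ 0 := by
    rintro rfl
    exact irr_one_ne h1 (by rw [hb, Nat.cast_zero])
  have h2 := deg_T hS h hne
  rw [ha, hb] at h2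
  have h3 : a * (Nat.card C * Nat.card M) = Nat.card J * b := by exact_mod_cast h2
  have hJ : Nat.card J ≠ 0 := Nat.card_pos.ne'
  have hCc : Nat.card C ≠ 0 := Nat.card_pos.ne'
  have hM : Nat.card M ≠ 0 := Nat.card_pos.ne'
  have h4 := congrArg (fun n => n.factorization p) h3
  simp only [Nat.factorization_mul ha0 (mul_ne_zero hCc hM), Nat.factorization_mul hCc hM,
    Nat.factorization_mul hJ hb0, Finsupp.add_apply, Nat.factorization_eq_zero_of_not_dvd hp,
    zero_add] at h4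
  have h5 := nrm_card hQ
  rw [h5]
  constructor
  · rintro ⟨n, hn1, hn2⟩
    have : n = a := by
      rw [ha] at hn1; exact_mod_cast hn1.symm
    subst this
    exact ⟨b, hb, by omega⟩
  · rintro ⟨n, hn1, hn2⟩
    have : n = b := by
      rw [hb] at hn1; exact_mod_cast hn1.symm
    subst this
    exact ⟨a, ha, by omega⟩

theorem wt_T {p : ℕ} [Fact p.Prime] (hp : ¬ p ∣ Nat.card C) (hS : D.Stab η)
    (hQ : Nrm D QJ QM) {χ : J → ℂ} (h : IsWt p QJ χ) (hne : D.T η χ ≠ 0) :
    IsWt p QM (D.T η χ) :=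
  ⟨D.T_irr cardC_ne hS h.irr hne, infl_T hQ h.inflated, (dz_iff hp hS hQ h.irr hne).mp h.defectZero⟩

theorem wt_surj {p : ℕ} [Fact p.Prime] (hp : ¬ p ∣ Nat.card C) (hS : D.Stab η)
    (hQ : Nrm D QJ QM) {ψ : M → ℂ} (h : IsWt p QM ψ) : ∃ χ, IsWt p QJ χ ∧ D.T η χ = ψ := by
  obtain ⟨χ, h1, h2⟩ := D.T_surj cardC_ne hS h.irr
  have hne : D.T η χ ≠ 0 := by
    rw [h2]
    intro h3
    exact irr_one_ne h.irr (congrFun h3 1)
  refine ⟨χ, ⟨h1, infl_of_T hS hQ h1 hne (by rw [h2]; exact h.inflated),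
    (dz_iff hp hS hQ h1 hne).mpr (by rw [h2]; exact h.defectZero)⟩, h2⟩

theorem wt_inj {p : ℕ} (hS : D.Stab η) {χ χ' : J → ℂ} (h : IsWt p QJ χ) (h' : IsWt p QJ χ')
    (he : D.T η χ = D.T η χ') (hne : D.T η χ ≠ 0) : χ = χ' :=
  D.T_inj hS h.irr h'.irr he hne

/-! ### the central characters -/

section red

variable {F : Type} [Field F] (red : integralClosure ℤ ℂ →+* F)

/-- the values of a homomorphism are integral -/
theorem hom_int {C : Type} [CommGroup C] [Finite C] (η : C →* ℂ) (v : C) : IsIntegral ℤ (η v) := by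
  refine IsIntegral.of_pow (n := Nat.card C) Nat.card_pos ?_
  rw [← map_pow, pow_card_eq_one', map_one]
  exact isIntegral_one

/-- the reduction of a homomorphism -/
def redH {C : Type} [CommGroup C] [Finite C] (red : integralClosure ℤ ℂ →+* F) (η : C →* ℂ) :
    C →* F where
  toFun v := redC red (η v)
  map_one' := by rw [map_one, Pool.Agent.Y930.NV.redC_one]
  map_mul' a b := by rw [map_mul, redC_mul red (hom_int η a) (hom_int η b)]

theorem cv_eq' {G : Type} [Group G] [Fintype G] {χ : G → ℂ} (h : IsIrreducibleCharacter χ)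
    (f : G → F) : centralValue red χ f = ∑ C : ConjClasses G, f C.out * R red χ (ind ℤ C) :=
  (centralValue_eq red h f).trans (Finset.sum_congr (by ext; simp) fun _ _ => rfl)

theorem redC_tf (η : C →* ℂ) (K : ConjClasses J) (m : M) :
    redC red (D.tf η (ind ℂ K) m) = D.tf (redH red η) (ind F K) m := by
  unfold CD.tf
  have h1 : ∀ v, IsIntegral ℤ (ind ℂ K (D.i v * D.j m)) := by
    intro v
    unfold ind
    split_ifs
    · exact isIntegral_one
    · exact isIntegral_zero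
  rw [redC_sum red _ _ fun v _ => (hom_int η v).mul (h1 v)]
  refine Finset.sum_congr rfl fun v _ => ?_
  rw [redC_mul red (hom_int η v) (h1 v)]
  congr 1
  unfold ind
  split_ifs
  · exact Pool.Agent.Y930.NV.redC_one red
  · exact Pool.Agent.Y930.NV.redC_zero red

theorem cv_T (hS : D.Stab η) {χ : J → ℂ} (h : IsIrreducibleCharacter χ)
    (hne : D.T η χ ≠ 0) {f : J → F} (hf : IsClassFun f) :
    centralValue red χ f = centralValue red (D.T η χ) (D.tf (redH red η) f) := by
  have h1 : IsIrreducibleCharacter (D.T η χ) := D.T_irr cardC_ne hS h hne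
  rw [cv_eq' red h, cv_eq' red h1]
  -- one class
  have key : ∀ K : ConjClasses J, R red χ (ind ℤ K) =
      ∑ c : ConjClasses M, D.tf (redH red η) (ind F K) c.out * R red (D.T η χ) (ind ℤ c) := by
    intro K
    unfold R
    rw [ind_cast, om_tf hS h hne (Cf_ind ℂ K)]
    have h2 : Cf (D.tf η (ind ℂ K)) := D.tf_class hS (Cf_ind ℂ K)
    have h3 : D.tf η (ind ℂ K) = fun m => ∑ c : ConjClasses M,
        D.tf η (ind ℂ K) c.out * (fun g => ((ind ℤ c g : ℤ) : ℂ)) m := by
      funext m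
      refine (Cf_expand h2 m).trans (Finset.sum_congr (by ext; simp) fun c _ => ?_)
      rw [ind_cast]
    have h4 : ∀ c : ConjClasses M, IsIntegral ℤ (D.tf η (ind ℂ K) c.out) := by
      intro c
      unfold CD.tf
      refine IsIntegral.sum _ fun v _ => (hom_int η v).mul ?_
      unfold ind
      split_ifs
      · exact isIntegral_one
      · exact isIntegral_zero
    conv_lhs => rw [h3]
    rw [om_sum (D.T η χ) Finset.univ (fun c : ConjClasses M => D.tf η (ind ℂ K) c.out)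
      (fun (c : ConjClasses M) (g : M) => ((ind ℤ c g : ℤ) : ℂ)),
      redC_sum red _ _ (fun c _ => (h4 c).mul (om_int h1 (Cf_ind ℤ c)))]
    refine Finset.sum_congr rfl fun c _ => ?_
    rw [redC_mul red (h4 c) (om_int h1 (Cf_ind ℤ c)), redC_tf]
  simp_rw [key, Finset.mul_sum]
  rw [Finset.sum_comm]
  refine Finset.sum_congr rfl fun c _ => ?_
  simp_rw [← mul_assoc]
  rw [← Finset.sum_mul]
  congr 1
  -- the transform of `f`
  unfold CD.tf
  simp_rw [Finset.mul_sum]
  rw [Finset.sum_comm]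
  refine Finset.sum_congr (by ext; simp) fun v _ => ?_
  rw [Cf_expand hf (D.i v * D.j c.out), Finset.mul_sum]
  exact Finset.sum_congr (by ext; simp) fun K _ => by ring

end red

end corr

end Run7.h45
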