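import Pool.Agent.Run7.h45.Graph

/-!
# Many matrices with a given stabilizer in the symmetric group
-/

set_option autoImplicit false
set_option linter.unusedSectionVars false

open scoped Classical BigOperators

noncomputable section

namespace Run7.h45

section den

variable {G : Type} [Group G] {k w q : ℕ}

/-- the points: those of `GT G k` and `w` further points -/
abbrev HT (G : Type) (k w : ℕ) : Type := GT G k ⊕ Fin w

/-- `G` acts on the points -/
def hA : G →* Equiv.Perm (HT G k w) where
  toFun g := Equiv.sumCongr (gA g) (Equiv.refl (Fin w))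
  map_one' := by
    rw [map_one]
    apply Equiv.ext
    rintro (t | x) <;> rfl
  map_mul' g h := by
    rw [map_mul]
    apply Equiv.ext
    rintro (t | x) <;> rfl

/-- the truth value of `P` in `ℤ/q` -/
def tv (q : ℕ) (P : Prop) : ZMod q := if P then 1 else 0

/-- the matrix -/
def hK (lab : G → Fin k) (sig : Fin w → Finset (Fin k))
    (T : {p : Fin w × Fin w // p.1 ≠ p.2} → ZMod q) : HT G k w → HT G k w → ZMod q
  | Sum.inl t, Sum.inl t' => tv q (gR lab t t')
  | Sum.inl (Sum.inr (Sum.inr e)), Sum.inr x => tv q (e ∈ sig x)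
  | Sum.inr x, Sum.inr y => if h : x ≠ y then T ⟨(x, y), h⟩ else 0
  | _, _ => 0

theorem hA_inj : Function.Injective (hA : G →* Equiv.Perm (HT G k w)) := by
  intro g h hgh
  apply gA_inj (G := G) (k := k)
  apply Equiv.ext
  intro t
  have h1 := congrFun (congrArg DFunLike.coe hgh) (Sum.inl t)
  exact Sum.inl_injective h1

variable [Fact (1 < q)] {lab : G → Fin k} {sig : Fin w → Finset (Fin k)}

theorem tv_true {P : Prop} (h : P) : tv q P ≠ 0 := by
  unfold tv
  rw [if_pos h]
  exact one_ne_zero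

theorem tv_iff {P Q : Prop} (h : tv q P = tv q Q) : P ↔ Q := by
  unfold tv at h
  by_cases h1 : P <;> by_cases h2 : Q <;> simp_all

theorem hK_main (hlab : Function.Injective lab) (hsig : Function.Injective sig)
    (hs2 : ∀ x, 2 ≤ (sig x).card) (T T' : {p : Fin w × Fin w // p.1 ≠ p.2} → ZMod q)
    (π : Equiv.Perm (HT G k w)) (h : ∀ a b, hK lab sig T (π a) (π b) = hK lab sig T' a b)
    [Finite G] : (∃ g, hA g = π) ∧ T = T' := by
  -- the chain is preserved
  have hloop : ∀ (T : {p : Fin w × Fin w // p.1 ≠ p.2} → ZMod q) (t : HT G k w),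
      hK lab sig T t t ≠ 0 → ∃ e, t = Sum.inl (Sum.inr (Sum.inr e)) := by
    intro T t ht
    rcases t with (a | ⟨a, s⟩ | e) | x
    · exact (ht (if_neg fun h : False => h)).elim
    · exact (ht (if_neg fun h : False => h)).elim
    · exact ⟨e, rfl⟩
    · exact (ht (dif_neg fun h => h rfl)).elim
  have hchain : ∀ (T : {p : Fin w × Fin w // p.1 ≠ p.2} → ZMod q) (e e' : Fin k),
      hK lab sig T (Sum.inl (Sum.inr (Sum.inr e))) (Sum.inl (Sum.inr (Sum.inr e'))) =
        tv q (e ≤ e') := fun T e e' => rfl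
  have hE : ∀ e : Fin k, ∃ e' : Fin k,
      π (Sum.inl (Sum.inr (Sum.inr e))) = Sum.inl (Sum.inr (Sum.inr e')) := by
    intro e
    apply hloop T
    rw [h, hchain]
    exact tv_true le_rfl
  choose f hf using hE
  have hid : ∀ e, f e = e := fin_id f fun a b => by
    have h1 := h (Sum.inl (Sum.inr (Sum.inr a))) (Sum.inl (Sum.inr (Sum.inr b)))
    rw [hf, hf, hchain, hchain] at h1
    exact tv_iff h1
  have hE' : ∀ e : Fin k, π (Sum.inl (Sum.inr (Sum.inr e))) = Sum.inl (Sum.inr (Sum.inr e)) :=
    fun e => by rw [hf, hid]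
  -- the further points
  have hW : ∀ x : Fin w, π (Sum.inr x) = Sum.inr x := by
    intro x
    have h1 : ∀ e, hK lab sig T (Sum.inl (Sum.inr (Sum.inr e))) (π (Sum.inr x)) =
        tv q (e ∈ sig x) := by
      intro e
      have h2 := h (Sum.inl (Sum.inr (Sum.inr e))) (Sum.inr x)
      rw [hE'] at h2
      exact h2
    have h0 : ¬ ∃ e, π (Sum.inr x) = Sum.inl (Sum.inr (Sum.inr e)) := by
      rintro ⟨e, he⟩
      have h2 := h (Sum.inr x) (Sum.inr x)
      rw [he, hchain] at h2
      have h3 : hK (G := G) lab sig T' (Sum.inr x) (Sum.inr x) = 0 := dif_neg fun h => h rfl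
      rw [h3] at h2
      exact tv_true le_rfl h2
    have h2 := hs2 x
    rcases hπ : π (Sum.inr x) with (a | ⟨a, s⟩ | e) | y
    · exfalso
      have h3 : sig x = ∅ := by
        ext e
        have h4 := h1 e
        rw [hπ] at h4
        have h5 : tv q False = tv q (e ∈ sig x) := h4
        have h6 := tv_iff h5
        simpa using h6
      rw [h3, Finset.card_empty] at h2
      omega
    · exfalso
      have h3 : sig x = {lab s} := by
        ext e
        have h4 := h1 e
        rw [hπ] at h4
        have h5 : tv q (e = lab s) = tv q (e ∈ sig x) := h4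
        have h6 := tv_iff h5
        rw [Finset.mem_singleton]
        exact h6.symm
      rw [h3, Finset.card_singleton] at h2
      omega
    · exact (h0 ⟨e, hπ⟩).elim
    · congr 1
      apply hsig
      ext e
      have h4 := h1 e
      rw [hπ] at h4
      have h5 : tv q (e ∈ sig y) = tv q (e ∈ sig x) := h4
      exact tv_iff h5
  constructor
  · have hm : Set.MapsTo π (Set.range (Sum.inl : GT G k → HT G k w)) (Set.range Sum.inl) := by
      rintro _ ⟨t, rfl⟩
      rcases hπ : π (Sum.inl t) with t' | x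
      · exact ⟨t', rfl⟩
      · have h1 := hW x
        rw [← hπ] at h1
        have h2 := π.injective h1
        exact absurd h2 (by rw [hπ]; exact Sum.inr_ne_inl)
    obtain ⟨⟨π₁, π₂⟩, h1⟩ := Equiv.Perm.mem_sumCongrHom_range_of_perm_mapsTo_inl hm
    have h2 : ∀ t, π (Sum.inl t) = Sum.inl (π₁ t) := fun t => by rw [← h1]; rfl
    obtain ⟨g, hg⟩ := (g_aut hlab π₁).1 fun t t' => by
      have h3 := h (Sum.inl t) (Sum.inl t')
      rw [h2, h2] at h3
      exact tv_iff h3
    refine ⟨g, Equiv.ext ?_⟩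
    rintro (t | x)
    · rw [h2, ← hg]
      rfl
    · rw [hW]
      rfl
  · funext ⟨⟨x, y⟩, hxy⟩
    have h1 := h (Sum.inr x) (Sum.inr y)
    rw [hW, hW] at h1
    have h2 : ∀ T : {p : Fin w × Fin w // p.1 ≠ p.2} → ZMod q,
        hK (G := G) (k := k) lab sig T (Sum.inr x) (Sum.inr y) = T ⟨(x, y), hxy⟩ :=
      fun T => dif_pos hxy
    rw [h2, h2] at h1
    exact h1

theorem hK_aut (hlab : Function.Injective lab)
    (T : {p : Fin w × Fin w // p.1 ≠ p.2} → ZMod q) (g : G) (a b : HT G k w) :
    hK lab sig T (hA g a) (hA g b) = hK lab sig T a b := by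
  rcases a with t | x <;> rcases b with t' | y
  · have h1 := (g_aut hlab (gA g)).2 ⟨g, rfl⟩ t t'
    change tv q (gR lab (gA g t) (gA g t')) = tv q (gR lab t t')
    rw [propext h1]
  · rcases t with a | ⟨a, s⟩ | e <;> rfl
  · rfl
  · rfl

end den

section count

/-- there are enough subsets -/
theorem exists_sig {k₀ w : ℕ} (h : w ≤ 2 ^ k₀) : ∃ sig : Fin w → Finset (Fin (k₀ + 2)),
    Function.Injective sig ∧ ∀ x, 2 ≤ (sig x).card := by
  let f : Finset (Fin k₀) → Finset (Fin (k₀ + 2)) := fun s =>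
    (s.map (Fin.castAddEmb 2)) ∪ {Fin.natAdd k₀ 0, Fin.natAdd k₀ 1}
  have hf : Function.Injective f := by
    intro s t hst
    ext a
    have h1 : ∀ s : Finset (Fin k₀), Fin.castAdd 2 a ∈ f s ↔ a ∈ s := by
      intro s
      simp only [f, Finset.mem_union, Finset.mem_map, Fin.castAddEmb_apply, Finset.mem_insert,
        Finset.mem_singleton]
      constructor
      · rintro (⟨b, hb, hb'⟩ | hb | hb)
        · rwa [← Fin.castAdd_injective _ _ hb']
        · exfalso
          have h2 := congrArg Fin.val hb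
          have h3 := a.2
          simp at h2
          omega
        · exfalso
          have h2 := congrArg Fin.val hb
          have h3 := a.2
          simp at h2
          omega
      · exact fun hb => Or.inl ⟨a, hb, rfl⟩
    rw [← h1 s, ← h1 t, hst]
  have h2 : ∀ s, 2 ≤ (f s).card := by
    intro s
    have h3 : ({Fin.natAdd k₀ 0, Fin.natAdd k₀ 1} : Finset (Fin (k₀ + 2))) ⊆ f s :=
      Finset.subset_union_right
    have h4 : ({Fin.natAdd k₀ 0, Fin.natAdd k₀ 1} : Finset (Fin (k₀ + 2))).card = 2 := by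
      apply Finset.card_pair
      intro h5
      have h6 := Fin.natAdd_injective _ _ h5
      exact absurd h6 (by decide)
    have h5 := Finset.card_le_card h3
    rw [h4] at h5
    exact h5
  have h3 : Fintype.card (Finset (Fin k₀)) = 2 ^ k₀ := by simp
  let e : Finset (Fin k₀) ≃ Fin (2 ^ k₀) := Fintype.equivFinOfCardEq h3
  refine ⟨fun x => f (e.symm (Fin.castLE h x)), fun x y hxy => ?_, fun x => h2 _⟩
  exact Fin.castLE_injective h (e.symm.injective (hf hxy))

theorem card_off (w : ℕ) : Fintype.card {p : Fin w × Fin w // p.1 ≠ p.2} = w * w - w := by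
  have h1 := Finset.offDiag_card (Finset.univ : Finset (Fin w))
  rw [Finset.card_univ, Fintype.card_fin] at h1
  rw [← h1, Fintype.card_subtype]
  congr 1
  ext x
  simp [Finset.mem_offDiag]

/-- **Many matrices with a given stabilizer.** For every finite group `G` there is `C` such that for
all large `n` and all `q ≥ 2` the group `G` embeds in `S_n` in such a way that the image is the
stabilizer of at least `q ^ (n² - C n log₂ n)` matrices in `M_n(ℤ/q)` in different orbits. -/
theorem many (G : Type) [Group G] [Finite G] : ∃ C n₀ : ℕ, ∀ n, n₀ ≤ n → ∀ q : ℕ, 2 ≤ q →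
    ∃ (j : G →* Equiv.Perm (Fin n)) (T : Type) (_ : Fintype T) (κ : T → Fin n → Fin n → ZMod q),
      Function.Injective j ∧
      (∀ (t : T) (σ : Equiv.Perm (Fin n)), (∀ a b, κ t (σ a) (σ b) = κ t a b) ↔ ∃ g, j g = σ) ∧
      (∀ (t t' : T) (σ : Equiv.Perm (Fin n)), (∀ a b, κ t (σ a) (σ b) = κ t' a b) → t = t') ∧
      q ^ (n * n - C * n * Nat.log 2 n) ≤ Fintype.card T := by
  have : Fintype G := Fintype.ofFinite G
  let m := Fintype.card G
  let c := m + (m * m + (m + 3))
  refine ⟨2 * c + 3, 2 ^ (c + 1) + 2, fun n hn q hq => ?_⟩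
  have : Fact (1 < q) := ⟨by omega⟩
  have hNZ : NeZero q := ⟨by omega⟩
  let l := Nat.log 2 n
  have hpos : 0 < 2 ^ (c + 1) := by positivity
  have hn0 : n ≠ 0 := by omega
  have hl1 : 2 ^ l ≤ n := Nat.pow_log_le_self 2 hn0
  have hl2 : n < 2 ^ (l + 1) := Nat.lt_pow_succ_log_self (by norm_num) n
  have hlc : c + 1 ≤ l := by
    apply (Nat.le_log_iff_pow_le (by norm_num) hn0).2
    omega
  have hll : 2 * l ≤ 2 ^ l := by
    have h1 : ∀ a : ℕ, 2 * (a + 1) ≤ 2 ^ (a + 1) := by
      intro a
      induction a with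
      | zero => norm_num
      | succ a ih => rw [pow_succ]; omega
    obtain ⟨a, ha⟩ : ∃ a, l = a + 1 := ⟨l - 1, by omega⟩
    rw [ha]
    exact h1 a
  -- the sizes
  let k₀ := m + (l + 1)
  let s := m + (m * m + (k₀ + 2))
  have hs : s = c + l := by
    simp only [s, c, k₀]
    ring
  have hsn : s ≤ n := by omega
  obtain ⟨w, hw⟩ : ∃ w, n = s + w := ⟨n - s, by omega⟩
  have hw2 : w ≤ 2 ^ k₀ := by
    have h1 : 2 ^ (l + 1) ≤ 2 ^ k₀ := Nat.pow_le_pow_right (by norm_num) (by omega)
    omega
  obtain ⟨sig, hsig, hs2⟩ := exists_sig hw2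
  obtain ⟨lab, hlab⟩ : ∃ lab : G → Fin (k₀ + 2), Function.Injective lab :=
    ⟨fun g => Fin.castLE (by omega : m ≤ k₀ + 2) (Fintype.equivFin G g), fun a b hab =>
      (Fintype.equivFin G).injective (Fin.castLE_injective _ hab)⟩
  let e : HT G (k₀ + 2) w ≃ Fin n :=
    Fintype.equivFinOfCardEq (by
      simp only [HT, GT, Fintype.card_sum, Fintype.card_prod, Fintype.card_fin]
      rw [hw])
  let j : G →* Equiv.Perm (Fin n) := (e.permCongrHom.toMonoidHom).comp hA
  let κ : ({p : Fin w × Fin w // p.1 ≠ p.2} → ZMod q) → Fin n → Fin n → ZMod q :=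
    fun T a b => hK lab sig T (e.symm a) (e.symm b)
  have key : ∀ (T T' : {p : Fin w × Fin w // p.1 ≠ p.2} → ZMod q) (σ : Equiv.Perm (Fin n)),
      (∀ a b, κ T (σ a) (σ b) = κ T' a b) → (∃ g, j g = σ) ∧ T = T' := by
    intro T T' σ h
    have h1 := hK_main hlab hsig hs2 T T' (e.permCongrHom.symm σ) fun t t' => by
      have h3 : hK lab sig T (e.symm (σ (e t))) (e.symm (σ (e t'))) =
          hK lab sig T' (e.symm (e t)) (e.symm (e t')) := h (e t) (e t')
      rw [e.symm_apply_apply, e.symm_apply_apply] at h3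
      exact h3
    obtain ⟨⟨g, hg⟩, h2⟩ := h1
    refine ⟨⟨g, ?_⟩, h2⟩
    change e.permCongrHom (hA g) = σ
    rw [hg]
    exact MulEquiv.apply_symm_apply _ _
  refine ⟨j, _, inferInstance, κ, fun g h hgh => hA_inj (e.permCongrHom.injective hgh),
    fun T σ => ⟨fun h => (key T T σ h).1, ?_⟩, fun T T' σ h => (key T T' σ h).2, ?_⟩
  · rintro ⟨g, rfl⟩ a b
    change hK lab sig T (e.symm (e (hA g (e.symm a)))) (e.symm (e (hA g (e.symm b)))) =
      hK lab sig T (e.symm a) (e.symm b)
    rw [e.symm_apply_apply, e.symm_apply_apply]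
    exact hK_aut hlab T g _ _
  · rw [Fintype.card_fun, card_off, ZMod.card]
    refine Nat.pow_le_pow_right (by omega) ?_
    change n * n - (2 * c + 3) * n * l ≤ w * w - w
    have h1 : n * n ≤ (w * w - w) + (2 * s + 1) * n := by
      have h2 : w ≤ w * w := by
        rcases Nat.eq_zero_or_pos w with h3 | h3
        · rw [h3]
        · exact Nat.le_mul_of_pos_left w h3
      obtain ⟨d, hd⟩ := Nat.exists_eq_add_of_le h2
      have h3 : w * w - w = d := by omega
      rw [h3, hw]
      nlinarith [Nat.zero_le (s * s), Nat.zero_le (s * w)]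
    have h2 : (2 * s + 1) * n ≤ (2 * c + 3) * n * l := by
      have h3 : 2 * s + 1 ≤ (2 * c + 3) * l := by
        rw [hs]
        nlinarith
      calc (2 * s + 1) * n ≤ ((2 * c + 3) * l) * n := Nat.mul_le_mul_right n h3
        _ = (2 * c + 3) * n * l := by ring
    omega

end count

end Run7.h45
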