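import Pool.Agent.Run7.h45.UpD
import Pool.Agent.N19.RB.Par

/-!
# Brauer correspondents under the Clifford correspondence
-/

set_option autoImplicit false
set_option linter.unusedSectionVars false

open scoped Classical BigOperators

noncomputable section

namespace Run7.h45

open Pool.Agent.H254R3.IN (IsIrr IsBlock IsDefectGroup IsBrauerCorrespondent omega blockCoeff Om IsCl
  RF red rep Om_blockCoeff blockCoeff_cl blockCoeff_mem eq_of_Om Om_ind ind_cl ind_mem red_Om
  red_one red_zero red_mul red_eq_zero red_eq_zero_iff red_eq_iff nonunits_mem charP_RF red_sum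
  red_natCast red_nat_eq_zero_iff red_inv mem_of_isIntegral nat_inv_mem red_congr lam_zero
  sum_classes mk_eq_iff rep_mk mk_rep)
open Pool.Agent.Q259.BW (isDefectGroup_iff Irr0 card_mul_relIndex L sum_eq_L Dat)

section gen

variable {G : Type} [Group G] [Fintype G] {O : ValuationSubring ℂ} {p : ℕ} [hp : Fact p.Prime]

theorem cl_expand {f : G → ℂ} (hf : IsCl f) (g : G) :
    f g = ∑ K : ConjClasses G, f (rep K) * Pool.Agent.H254R3.IN.ind (rep K) g := by
  rw [Finset.sum_eq_single (ConjClasses.mk g)]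
  · unfold Pool.Agent.H254R3.IN.ind
    rw [if_pos (rep_mk g), mul_one]
    exact (hf.isConj (rep_mk g)).symm
  · intro K _ hK
    unfold Pool.Agent.H254R3.IN.ind
    rw [if_neg, mul_zero]
    intro h
    exact hK ((mk_eq_iff g K).mpr h).symm
  · intro h
    exact absurd (Finset.mem_univ _) h

/-- the Brauer correspondence for class functions -/
theorem brauer_Om {N : Subgroup G} {χ : G → ℂ} (hχ : IsIrr χ) {θ : N → ℂ}
    (h : ∀ x : G, omega χ x - ∑ᶠ y : {y : N // IsConj x (y : G)}, θ y / θ 1 ∈ O.nonunits)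
    {f : G → ℂ} (hf : IsCl f) (hfO : ∀ g, f g ∈ O) :
    Om (fun y : N => f y) θ ∈ O ∧ red O (Om f χ) = red O (Om (fun y : N => f y) θ) := by
  have h1 : ∀ x, L N.subtype θ x ∈ O ∧ red O (omega χ x) = red O (L N.subtype θ x) := by
    intro x
    have h2 := h x
    rw [sum_eq_L] at h2
    exact red_congr (hχ.omega_mem O x) h2
  have h2 : Om (fun y : N => f y) θ = ∑ K : ConjClasses G, f (rep K) * L N.subtype θ (rep K) := by
    unfold Om L
    simp_rw [← mul_div_assoc]
    rw [← Finset.sum_div]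
    congr 1
    simp_rw [Finset.mul_sum]
    rw [Finset.sum_comm]
    refine Finset.sum_congr rfl fun y _ => ?_
    rw [cl_expand hf (y : G), Finset.sum_mul]
    refine Finset.sum_congr rfl fun K _ => ?_
    unfold Pool.Agent.H254R3.IN.ind
    change _ = f (rep K) * (if IsConj (rep K) (y : G) then θ y else 0)
    split_ifs <;> ring
  have h3 : Om (fun y : N => f y) θ ∈ O := by
    rw [h2]
    exact sum_mem fun K _ => O.mul_mem _ _ (hfO _) (h1 _).1
  refine ⟨h3, ?_⟩
  rw [(red_Om hχ hf hfO).2, h2, red_sum _ _ fun K _ => O.mul_mem _ _ (hfO _) (h1 _).1]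
  exact Finset.sum_congr rfl fun K _ => by rw [red_mul (hfO _) (h1 _).1, (h1 _).2]

theorem Om_vanish (hpO : (p : ℂ) ∈ O.nonunits) {Q : Subgroup G} (hn : Q.Normal)
    (hQ : IsPGroup p Q) {θ : G → ℂ} (hθ : IsIrr θ) {f : G → ℂ} (hf : IsCl f) (hfO : ∀ g, f g ∈ O)
    (h0 : ∀ m ∈ Subgroup.centralizer (Q : Set G), red O (f m) = 0) : red O (Om f θ) = 0 := by
  rw [(red_Om hθ hf hfO).2]
  refine Finset.sum_eq_zero fun K _ => ?_
  by_cases hK : rep K ∈ Subgroup.centralizer (Q : Set G)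
  · rw [h0 _ hK, zero_mul]
  · rw [lam_zero hpO hQ hθ hK, mul_zero]

end gen

section up

variable {Γ V G : Type} [Group Γ] [CommGroup V] [Group G] {D : CD Γ V G}
  [Fintype Γ] [Fintype V] [Fintype G] {θ : V →* ℂ} {O : ValuationSubring ℂ} {p : ℕ}
  [hp : Fact p.Prime]

theorem CD.sub_map {Q : Subgroup G} {P : Subgroup Γ} (hP : P = Q.map D.j) :
    (Q.subgroupOf (Subgroup.normalizer (Q : Set G))).map (D.sub Q P hP).j =
      P.subgroupOf (Subgroup.normalizer (P : Set Γ)) := by
  ext x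
  rw [(D.sub_nrm hP).mem x]
  constructor
  · rintro ⟨q, hq, rfl⟩
    exact ⟨q, hq, rfl⟩
  · rintro ⟨q, hq, rfl⟩
    exact ⟨q, hq, rfl⟩

/-- **Brauer correspondents correspond** -/
theorem CD.up_brauer (hpO : (p : ℂ) ∈ O.nonunits) (hV : ¬ p ∣ Nat.card V) (hS : D.Stab θ)
    {B : Set (G → ℂ)} (hB : IsBlock O B) {Q : Subgroup G} (hQ : IsPGroup p Q)
    {b : Set (Subgroup.normalizer (Q : Set G) → ℂ)} (hb : IsBrauerCorrespondent p O Q B b)
    {P : Subgroup Γ} (hP : P = Q.map D.j) :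
    IsBrauerCorrespondent p O P (D.up θ B) ((D.sub Q P hP).up (D.rh Q θ) b) := by
  have hPp : IsPGroup p P := hP ▸ hQ.map _
  have hS' := D.sub_stab hV hP hPp hS
  have hfc : ¬ p ∣ Nat.card (D.fix Q) := fun h => hV (h.trans (Subgroup.card_subgroup_dvd_card _))
  obtain ⟨b1, b2, b3⟩ := hb
  refine ⟨CD.up_block hpO hfc hS' b1, ?_, ?_⟩
  · have h1 := CD.up_defect hpO hfc hS' b1 b2
    rwa [D.sub_map hP] at h1
  · intro χ hχ τ hτ x
    have hn : (Q.subgroupOf (Subgroup.normalizer (Q : Set G))).Normal :=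
      Subgroup.normal_in_normalizer
    have hpg : IsPGroup p (Q.subgroupOf (Subgroup.normalizer (Q : Set G))) := hQ.comap_subtype
    set f : Γ → ℂ := Pool.Agent.H254R3.IN.ind x with hf
    have hcf : IsCl f := ind_cl x
    have hfO : ∀ g, f g ∈ O := ind_mem O x
    have hcl2 : IsCl (fun y : Subgroup.normalizer (P : Set Γ) => f y) := fun g y =>
      hcf (g : Γ) (y : Γ)
    -- the sum in the definition
    have e1 : ∑ᶠ y : {y : Subgroup.normalizer (P : Set Γ) // IsConj x (y : Γ)}, τ y / τ 1 =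
        Om (fun y : Subgroup.normalizer (P : Set Γ) => f y) τ := by
      rw [sum_eq_L]
      unfold L Om
      congr 1
      refine Finset.sum_congr rfl fun y _ => ?_
      change (if IsConj x (y : Γ) then τ y else 0) = (if IsConj x (y : Γ) then (1 : ℂ) else 0) * τ y
      split_ifs <;> ring
    have hτi := b1.irr _ hτ.2
    have hne := CD.up_ne b1.irr hτ
    have e2 := CD.Om_tf hS' hτ.1 hne hcl2
    have e3 := D.Om_tf hS hχ.1 (D.up_ne hB.irr hχ) hcf
    have hO1 := D.tf_mem (η := θ) f hfO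
    have hO2 := (D.sub Q P hP).tf_mem (η := D.rh Q θ)
      (fun y : Subgroup.normalizer (P : Set Γ) => f y) (fun y => hfO y)
    obtain ⟨m1, m2⟩ := brauer_Om (hB.irr _ hχ.2) (b3 _ hχ.2 _ hτ.2) (D.tf_cl hS hcf) hO1
    have hcl3 : IsCl (fun m : Subgroup.normalizer (Q : Set G) => D.tf θ f m) := fun g y =>
      D.tf_cl hS hcf (g : G) (y : G)
    have hcl4 := CD.tf_cl hS' hcl2
    have m3 := (red_Om hτi hcl4 hO2).1
    have key : red O (Om (fun m : Subgroup.normalizer (Q : Set G) => D.tf θ f m)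
        ((D.sub Q P hP).T (D.rh Q θ) τ)) =
        red O (Om ((D.sub Q P hP).tf (D.rh Q θ)
          (fun y : Subgroup.normalizer (P : Set Γ) => f y)) ((D.sub Q P hP).T (D.rh Q θ) τ)) := by
      rw [← sub_eq_zero, ← Pool.Agent.H254R3.IN.red_sub m1 m3, ← Pool.Agent.H254R3.IN.Om_sub]
      refine Om_vanish hpO hn hpg hτi (fun g y => ?_) (fun m =>
        Pool.Agent.H254R3.IN.sub_mem' (hO1 _) (hO2 _)) ?_
      · change D.tf θ f _ - _ = D.tf θ f _ - _
        rw [hcl4 g y]
        congr 1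
        exact hcl3 g y
      · intro m hm
        have r1 := red_tf (D := D) (η := θ) f hfO (m : G)
        have r2 := red_tf (D := D.sub Q P hP) (η := D.rh Q θ)
          (fun y : Subgroup.normalizer (P : Set Γ) => f y) (fun y => hfO y) m
        rw [Pool.Agent.H254R3.IN.red_sub (hO1 _) (hO2 _), r1, r2, sub_eq_zero]
        have hSF : D.Stab (redH (redO O) θ) := by
          have := charP_RF hpO
          exact stab_redH (redO O) hV hS
        have := charP_RF hpO
        refine D.sum_fix hQ hSF (z := fun g => red O (f g)) (fun g y => ?_) (m := (m : G)) ?_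
        · change red O (f (g * y * g⁻¹)) = red O (f y)
          rw [hcf y g]
        · intro q hq
          exact congrArg Subtype.val (Subgroup.mem_centralizer_iff.1 hm
            ⟨q, Subgroup.le_normalizer hq⟩ hq)
    rw [e1, ← red_eq_iff (hχ.1.omega_mem O x) (by rw [e2]; exact m3), ← Om_ind hχ.1, e2, ← key,
      ← m2, ← e3]

/-- the data for `Γ` -/
def upDat (D : CD Γ V G) (θ : V →* ℂ) (Q : Subgroup G) (B : Set (G → ℂ))
    (b : Set (Subgroup.normalizer (Q : Set G) → ℂ)) : Dat where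
  G := Γ
  D := Q.map D.j
  B := D.up θ B
  b := (D.sub Q (Q.map D.j) rfl).up (D.rh Q θ) b

theorem upDat_brauer (hpO : (p : ℂ) ∈ O.nonunits) (hV : ¬ p ∣ Nat.card V) (hS : D.Stab θ)
    {B : Set (G → ℂ)} {Q : Subgroup G} {b : Set (Subgroup.normalizer (Q : Set G) → ℂ)}
    (h : Dat.IsBrauer p O ⟨G, Q, B, b⟩) : (upDat D θ Q B b).IsBrauer p O := by
  have hQ : IsPGroup p Q := (isDefectGroup_iff.mp h.defect).choose_spec.2.1
  exact ⟨inferInstanceAs (Finite Γ), D.up_block hpO hV hS h.block,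
    D.up_defect hpO hV hS h.block h.defect, D.up_brauer hpO hV hS h.block hQ h.brauer rfl⟩

theorem upDat_ht0 (hV : ¬ p ∣ Nat.card V) (hS : D.Stab θ) {B : Set (G → ℂ)} {Q : Subgroup G}
    {b : Set (Subgroup.normalizer (Q : Set G) → ℂ)} (h : Dat.IsBrauer p O ⟨G, Q, B, b⟩) :
    Nat.card ((upDat D θ Q B b).ht0 p) = Nat.card (Irr0 p Q B) := by
  have h1 : (upDat D θ Q B b).ht0 p = D.up θ (Irr0 p Q B) := D.up_irr0 hV hS h.block.irr Q
  rw [h1]
  exact D.up_card hS fun ψ hψ => h.block.irr _ hψ.1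

theorem upDat_ht0' (hV : ¬ p ∣ Nat.card V) (hS : D.Stab θ) {B : Set (G → ℂ)} {Q : Subgroup G}
    {b : Set (Subgroup.normalizer (Q : Set G) → ℂ)} (h : Dat.IsBrauer p O ⟨G, Q, B, b⟩) :
    Nat.card ((upDat D θ Q B b).ht0' p) =
      Nat.card (Irr0 p (Q.subgroupOf (Subgroup.normalizer (Q : Set G))) b) := by
  have hQ : IsPGroup p Q := (isDefectGroup_iff.mp h.defect).choose_spec.2.1
  have hfc : ¬ p ∣ Nat.card (D.fix Q) := fun h => hV (h.trans (Subgroup.card_subgroup_dvd_card _))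
  have hS' := D.sub_stab hV (rfl : Q.map D.j = Q.map D.j) (hQ.map _) hS
  have h1 : (upDat D θ Q B b).ht0' p = (D.sub Q (Q.map D.j) rfl).up (D.rh Q θ)
      (Irr0 p (Q.subgroupOf (Subgroup.normalizer (Q : Set G))) b) := by
    rw [← CD.up_irr0 hfc hS' h.brauer.1.irr, D.sub_map rfl]
    rfl
  rw [h1]
  exact CD.up_card hS' fun ψ hψ => h.brauer.1.irr _ hψ.1

end up

end Run7.h45
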