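import Pool.Agent.Run7.h45.Den1
import Pool.Agent.Run7.h45.Univ
import Pool.Agent.Run7.h45.UpB

/-!
# Blocks above different orbits of linear characters are different
-/

set_option autoImplicit false
set_option linter.unusedSectionVars false

open scoped Classical BigOperators
open Filter

noncomputable section

namespace Run7.h45

open Pool.Agent.Y63.NV Pool.Agent.N85.WM

/-- the characters attached to two matrices are conjugate if and only if the matrices are -/
theorem matChar_conj {q n : ℕ} [NeZero q] (κ κ' : Fin n → Fin n → ZMod q)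
    (σ : Equiv.Perm (Fin n)) :
    (∀ v, matChar κ (matPerm q n σ v) = matChar κ' v) ↔ ∀ a b, κ (σ a) (σ b) = κ' a b := by
  have h1 : ∀ v : Multiplicative (Matrix (Fin n) (Fin n) (ZMod q)),
      ∑ a, ∑ b, κ a b * (matPerm q n σ v).toAdd a b = ∑ a, ∑ b, κ (σ a) (σ b) * v.toAdd a b := by
    intro v
    refine Fintype.sum_equiv σ⁻¹ _ _ fun a => ?_
    refine Fintype.sum_equiv σ⁻¹ _ _ fun b => ?_
    change κ a b * v.toAdd (σ.symm a) (σ.symm b) =
      κ (σ (σ.symm a)) (σ (σ.symm b)) * v.toAdd (σ.symm a) (σ.symm b)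
    rw [σ.apply_symm_apply, σ.apply_symm_apply]
  constructor
  · intro h a b
    have h2 := h (Multiplicative.ofAdd (Matrix.single a b 1))
    have h3 := ZMod.injective_stdAddChar h2
    rw [h1] at h3
    have h4 : ∀ κ' : Fin n → Fin n → ZMod q, ∑ x, ∑ y,
        κ' x y * (Multiplicative.ofAdd (Matrix.single a b (1 : ZMod q))).toAdd x y = κ' a b := by
      intro κ'
      rw [Finset.sum_eq_single a, Finset.sum_eq_single b]
      · rw [toAdd_ofAdd, Matrix.single_apply_same, mul_one]
      · intro y _ hy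
        rw [toAdd_ofAdd, Matrix.single_apply_of_ne _ _ _ _ _ (by
          rintro ⟨-, h5⟩; exact hy h5.symm), mul_zero]
      · intro h5; exact absurd (Finset.mem_univ _) h5
      · intro x _ hx
        refine Finset.sum_eq_zero fun y _ => ?_
        rw [toAdd_ofAdd, Matrix.single_apply_of_ne _ _ _ _ _ (by
          rintro ⟨h5, -⟩; exact hx h5.symm), mul_zero]
      · intro h5; exact absurd (Finset.mem_univ _) h5
    rw [h4 (fun x y => κ (σ x) (σ y)), h4 κ'] at h3
    exact h3
  · intro h v
    change ZMod.stdAddChar _ = ZMod.stdAddChar _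
    rw [h1]
    simp_rw [h]

section sep

variable {Γ V G : Type} [Group Γ] [CommGroup V] [Group G] {D : CD Γ V G} [Finite Γ] [Fintype V]

/-- blocks over different orbits are different -/
theorem blk_sep {F : Type} [Field F] (hV : (Fintype.card V : F) ≠ 0) {θ θ' : V →* F}
    {B B' : (G → F) → F} (hB : IsBlock B) (hB' : IsBlock B')
    (h : ∀ f, IsClassFun f → D.blk θ B f = D.blk θ' B' f) : ∃ y, ∀ v, θ' v = θ (D.c y v) := by
  have hG : Finite G := Finite.of_injective D.j fun a b h => D.j_inj h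
  refine sep hV D.c θ θ' fun f hf => ?_
  rw [← blk_xV (D := D) hB' θ' f, ← blk_xV (D := D) hB θ f]
  exact (h _ (D.xV_class hf)).symm

open Pool.Agent.H254R3.IN (IsIrr IsBlock Om IsCl) in
/-- the transform of a function supported on `V` -/
theorem Om_xVd [Fintype G] {θ : V →* ℂ} {ψ : G → ℂ} (hψ : IsIrr ψ) (f : V → ℂ) :
    Om (D.tf θ (D.xV f)) ψ = ∑ v, f v * θ v := by
  have h1 : D.tf θ (D.xV f) = fun m => if m = 1 then ∑ v, f v * θ v else 0 := by
    funext m
    unfold CD.tf
    split_ifs with hm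
    · subst hm
      refine Finset.sum_congr rfl fun v _ => ?_
      rw [map_one, mul_one, D.xV_i, mul_comm]
    · refine Finset.sum_eq_zero fun v _ => ?_
      rw [D.xV_out, mul_zero]
      rintro ⟨u, hu⟩
      apply hm
      have h2 : D.i v * D.j m = D.i u * D.j 1 := by rw [hu, map_one, mul_one]
      exact (D.ij_inj h2).2
  rw [h1]
  unfold Om
  rw [Finset.sum_eq_single (1 : G)]
  · change (if (1 : G) = 1 then _ else _) * _ / _ = _
    rw [if_pos rfl, mul_div_assoc, div_self (irr1 hψ), mul_one]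
  · intro b _ hb
    change (if b = 1 then _ else _) * _ = _
    rw [if_neg hb, zero_mul]
  · intro h
    exact absurd (Finset.mem_univ _) h

open Pool.Agent.H254R3.IN (IsIrr IsBlock Om IsCl) in
/-- the same for the sets of characters -/
theorem up_sep {θ θ' : V →* ℂ} (hS : D.Stab θ) (hS' : D.Stab θ') {A A' : Set (G → ℂ)}
    (hA : ∀ ψ ∈ A, IsIrr ψ) (hA' : ∀ ψ ∈ A', IsIrr ψ) {χ : Γ → ℂ} (h : χ ∈ D.up θ A)
    (h' : χ ∈ D.up θ' A') : ∃ y, ∀ v, θ' v = θ (D.c y v) := by
  have hG : Finite G := Finite.of_injective D.j fun a b h => D.j_inj h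
  have k1 : Fintype G := Fintype.ofFinite _
  have k2 : Fintype Γ := Fintype.ofFinite _
  refine sep cardC_ne D.c θ θ' fun f hf => ?_
  have hcl : IsCl (D.xV f) := fun g y => D.xV_class hf y g
  have e1 := Om_xVd (D := D) (θ := θ) (hA _ h.2) f
  have e2 := Om_xVd (D := D) (θ := θ') (hA' _ h'.2) f
  rw [← e1, ← e2, ← D.Om_tf hS h.1 (D.up_ne hA h) hcl, ← D.Om_tf hS' h'.1 (D.up_ne hA' h') hcl]

end sep

end Run7.h45
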