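import Pool.Agent.Run7.h45.Den2

/-!
# The number of blocks with given invariants, and the weight conjecture
-/

set_option autoImplicit false
set_option linter.unusedSectionVars false

open scoped Classical BigOperators
open Filter

noncomputable section

namespace Run7.h45

open Pool.Agent.Y63.NV Pool.Agent.N85.WM

/-- many linear characters with the same stabilizer -/
theorem many_mat (G : Type) [Group G] [Finite G] : ∃ C n₀ : ℕ, ∀ n, n₀ ≤ n → ∀ q : ℕ, 2 ≤ q →
    ∃ (j : G →* Equiv.Perm (Fin n)) (T : Type) (_ : Fintype T) (κ : T → Fin n → Fin n → ZMod q),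
      Function.Injective j ∧
      (∀ (_ : NeZero q) (t : T) (σ : Equiv.Perm (Fin n)),
        (∀ v, matChar (κ t) (matPerm q n σ v) = matChar (κ t) v) ↔ ∃ g, j g = σ) ∧
      (∀ (_ : NeZero q) (t t' : T) (σ : Equiv.Perm (Fin n)),
        (∀ v, matChar (κ t') v = matChar (κ t) (matPerm q n σ v)) → t = t') ∧
      q ^ (n * n - C * n * Nat.log 2 n) ≤ Fintype.card T := by
  obtain ⟨C, n₀, h⟩ := many G
  refine ⟨C, n₀, fun n hn q hq => ?_⟩
  obtain ⟨j, T, fT, κ, h1, h2, h3, h4⟩ := h n hn q hq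
  refine ⟨j, T, fT, κ, h1, fun _ t σ => ?_, fun _ t t' σ h5 => ?_, h4⟩
  · rw [matChar_conj, h2]
  · exact h3 t t' σ ((matChar_conj (κ t) (κ t') σ).1 fun v => (h5 v).symm)

theorem encard_of_inj {T X : Type} [Fintype T] (f : T → X) (hf : Function.Injective f) {S : Set X}
    (h : ∀ t, f t ∈ S) {m : ℕ} (hm : m ≤ Fintype.card T) : (m : ℕ∞) ≤ S.encard := by
  have h1 : (Set.range f).encard = Fintype.card T := by
    rw [← Set.image_univ, hf.encard_image, Set.encard_univ, ENat.card_eq_coe_fintype_card]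
  calc (m : ℕ∞) ≤ (Fintype.card T : ℕ∞) := by exact_mod_cast hm
    _ = (Set.range f).encard := h1.symm
    _ ≤ S.encard := Set.encard_le_encard (by rintro _ ⟨t, rfl⟩; exact h t)

theorem encard_congr_of {X : Type} {S S' : Set X} (h : S ⊆ S') {a : ℕ∞} (ha : a ≤ S.encard) :
    a ≤ S'.encard := ha.trans (Set.encard_le_encard h)

/-- The blocks `B` of `G` with the property `P`. A block is given by its central character, an
algebra homomorphism from the centre of `F[G]` to `F`. -/
def BlocksWith {F : Type} [Field F] (G : Type) [Group G] (P : ((G → F) → F) → Prop) :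
    Set ({f : G → F // IsClassFun f} → F) :=
  {β | ∃ B : (G → F) → F, IsBlock B ∧ P B ∧ ∀ f, β f = B f.1}

/-- **Every block occurs often.** -/
theorem occ_mat {p : ℕ} [Fact p.Prime] {F : Type} [Field F] [IsAlgClosed F] [CharP F p]
    (red : integralClosure ℤ ℂ →+* F) {q : ℕ} (hq : 2 ≤ q) (hpq : ¬ p ∣ q) (G : Type) [Group G]
    [Finite G] : ∃ C n₀ : ℕ, ∀ n, n₀ ≤ n → ∀ B : (G → F) → F, IsBlock B →
      ((q ^ (n * n - C * n * Nat.log 2 n) : ℕ) : ℕ∞) ≤ (BlocksWith (F := F) (MatGrp q n)
        fun B' => numIrrBlock B' = numIrrBlock B ∧ numWts p red B' = numWts p red B).encard := by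
  have : NeZero q := ⟨by omega⟩
  obtain ⟨C, n₀, h⟩ := many_mat G
  refine ⟨C, n₀, fun n hn B hB => ?_⟩
  obtain ⟨j, T, fT, κ, hj, h2, h3, h4⟩ := h n hn q hq
  let V := Multiplicative (Matrix (Fin n) (Fin n) (ZMod q))
  have f1 : Fintype V := Fintype.ofFinite V
  have f2 : Fintype (MatGrp q n) := Fintype.ofFinite _
  have f3 : Fintype G := Fintype.ofFinite G
  have hV : ¬ p ∣ Nat.card V := by
    change ¬ p ∣ Nat.card (Multiplicative (Matrix (Fin n) (Fin n) (ZMod q)))
    rw [card_mat]
    exact fun h => hpq ((Fact.out : p.Prime).dvd_of_dvd_pow h)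
  have hVF : (Fintype.card V : F) ≠ 0 := by
    rw [← Nat.card_eq_fintype_card]
    intro h
    exact hV ((CharP.cast_eq_zero_iff F p _).mp h)
  have hS : ∀ t, (semiCD (matPerm q n) j hj).Stab (matChar (κ t)) := fun t =>
    semi_stab (matPerm q n) j hj (matChar (κ t)) (h2 inferInstance t)
  have hSF := fun t => stab_redH red hV (hS t)
  refine encard_of_inj (fun t f => (semiCD (matPerm q n) j hj).blk (redH red (matChar (κ t))) B f.1)
    (fun t t' he => ?_) (fun t => ?_) h4
  · obtain ⟨y, hy⟩ := blk_sep (D := semiCD (matPerm q n) j hj) hVF hB hB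
      fun f hf => congrFun he ⟨f, hf⟩
    exact h3 inferInstance t t' y.right fun v => redH_inj red hV (hy v)
  · exact ⟨_, CD.blk_block (hSF t) hB, ⟨CD.numIrr_blk hVF (hSF t) hB,
      CD.numWts_blk red hV (hS t) hB⟩, fun f => rfl⟩

/-- **Density.** -/
theorem bawc_iff_density {p : ℕ} [Fact p.Prime] {F : Type} [Field F] [IsAlgClosed F] [CharP F p]
    (red : integralClosure ℤ ℂ →+* F) {q : ℕ} (hq : 2 ≤ q) (hpq : ¬ p ∣ q) :
    (∀ (G : Type) [Group G] [Finite G], BAWC p red G) ↔
      ∀ C : ℕ, ∃ᶠ n : ℕ in atTop, (BlocksWith (F := F) (MatGrp q n)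
        fun B => numIrrBlock B ≠ numWts p red B).encard <
          ((q ^ (n * n - C * n * Nat.log 2 n) : ℕ) : ℕ∞) := by
  have : NeZero q := ⟨by omega⟩
  constructor
  · intro h C
    refine Frequently.of_forall fun n => ?_
    have h1 : (BlocksWith (F := F) (MatGrp q n) fun B => numIrrBlock B ≠ numWts p red B) = ∅ := by
      ext β
      simp only [Set.mem_empty_iff_false, iff_false]
      rintro ⟨B, hB, h2, -⟩
      exact h2 (h (MatGrp q n) B hB)
    rw [h1, Set.encard_empty]
    have h2 : 0 < q ^ (n * n - C * n * Nat.log 2 n) := Nat.pow_pos (by omega)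
    exact_mod_cast h2
  · intro h G _ _ B hB
    change numIrrBlock B = numWts p red B
    by_contra hne
    obtain ⟨C, n₀, h1⟩ := occ_mat (p := p) red hq hpq G
    obtain ⟨n, hn, hlt⟩ := ((h C).and_eventually (eventually_ge_atTop n₀)).exists
    refine absurd (encard_congr_of ?_ (h1 n hlt B hB)) (not_le_of_gt hn)
    rintro β ⟨B', h2, ⟨h3, h4⟩, h5⟩
    exact ⟨B', h2, by change numIrrBlock B' ≠ numWts p red B'; rw [h3, h4]; exact hne, h5⟩

end Run7.h45
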