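import Pool.Agent.Run7.h45.AmG
import Pool.Agent.Q288.MB.Gal

/-!
# Galois conjugate characters and the Clifford correspondence
-/

set_option autoImplicit false
set_option linter.unusedSectionVars false

open scoped Classical BigOperators
open Filter

noncomputable section

namespace Run7.h45

open Pool.Agent.H254R3.IN (IsIrr IsBlock IsDefectGroup IsBrauerCorrespondent)
open Pool.Agent.Q259.BW (Irr0 Dat)
open Pool.Agent.N19.RB (PowClosed piS numCh)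
open Pool.Agent.Q288.MB (gal gal_irr mem_gal)

section gal

variable {J C M : Type} [Group J] [CommGroup C] [Group M] {D : CD J C M}
  [Fintype J] [Fintype C] [Fintype M] {η : C →* ℂ}

omit [Fintype J] [Fintype M] in
theorem CD.T_gal (σ : ℂ ≃+* ℂ) (hη : ∀ v, σ (η v) = η v) (χ : J → ℂ) :
    D.T η (fun x => σ (χ x)) = fun m => σ (D.T η χ m) := by
  funext m
  unfold CD.T CD.tf
  rw [map_mul, map_inv₀, map_natCast, map_sum]
  congr 1
  refine Finset.sum_congr rfl fun v _ => ?_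
  rw [map_mul, hinv_apply, hη]

theorem irr_gal {G : Type} [Group G] [Fintype G] {χ : G → ℂ} (h : IsIrr χ) (σ : ℂ ≃+* ℂ) :
    IsIrr (fun x => σ (χ x)) :=
  gal_irr (σ := σ) (B := {χ | IsIrr χ}) (fun _ h => h) _ ⟨χ, h, rfl⟩

theorem CD.up_gal (σ : ℂ ≃+* ℂ) (hη : ∀ v, σ (η v) = η v) (A : Set (M → ℂ)) :
    gal σ (D.up η A) = D.up η (gal σ A) := by
  ext χ
  constructor
  · rintro ⟨ψ, ⟨h1, h2⟩, rfl⟩
    refine ⟨irr_gal h1 σ, ?_⟩
    rw [D.T_gal σ hη]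
    exact ⟨_, h2, rfl⟩
  · rintro ⟨h1, ψ, h2, h3⟩
    have hs : ∀ x, σ (σ.symm x) = x := fun x => σ.apply_symm_apply x
    have hs' : ∀ x, σ.symm (σ x) = x := fun x => σ.symm_apply_apply x
    refine ⟨fun x => σ.symm (χ x), ⟨irr_gal h1 σ.symm, ?_⟩, funext fun x => (hs _).symm⟩
    rw [D.T_gal σ.symm (fun v => by rw [← hη v, hs', hη v]), h3]
    have h4 : (fun m => σ.symm (σ (ψ m))) = ψ := funext fun m => hs' _
    change (fun m => σ.symm (σ (ψ m))) ∈ A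
    rw [h4]
    exact h2

/-- the numbers of Galois conjugates -/
theorem CD.up_numCh (hS : D.Stab η) (hη : ∀ (σ : ℂ ≃+* ℂ) (v : C), σ (η v) = η v)
    {χ : J → ℂ} (h : IsIrr χ) (hne : D.T η χ ≠ 0) : numCh (D.T η χ) = numCh χ := by
  unfold numCh
  have h1 : {ψ : M → ℂ | ∃ σ : ℂ ≃+* ℂ, ψ = fun g => σ (D.T η χ g)} =
      (D.T η) '' {ψ : J → ℂ | ∃ σ : ℂ ≃+* ℂ, ψ = fun g => σ (χ g)} := by
    ext ψ
    constructor
    · rintro ⟨σ, rfl⟩
      exact ⟨_, ⟨σ, rfl⟩, D.T_gal σ (hη σ) χ⟩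
    · rintro ⟨_, ⟨σ, rfl⟩, rfl⟩
      exact ⟨σ, D.T_gal σ (hη σ) χ⟩
  rw [h1]
  refine Set.InjOn.ncard_image ?_
  rintro _ ⟨σ, rfl⟩ _ ⟨τ, rfl⟩ he
  refine D.T_inj hS (irr_gal h σ) (irr_gal h τ) he ?_
  rw [D.T_gal σ (hη σ)]
  intro h0
  apply hne
  funext m
  have h2 := congrFun h0 m
  exact (map_eq_zero σ).mp h2

theorem CD.up_odd (hS : D.Stab η) (hη : ∀ (σ : ℂ ≃+* ℂ) (v : C), σ (η v) = η v)
    {A : Set (M → ℂ)} (hA : ∀ ψ ∈ A, IsIrr ψ) :
    Nat.card {χ // χ ∈ D.up η A ∧ Odd (numCh χ)} = Nat.card {ψ // ψ ∈ A ∧ Odd (numCh ψ)} := by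
  have h1 : {χ | χ ∈ D.up η A ∧ Odd (numCh χ)} = D.up η {ψ | ψ ∈ A ∧ Odd (numCh ψ)} := by
    ext χ
    constructor
    · rintro ⟨h1, h2⟩
      refine ⟨h1.1, h1.2, ?_⟩
      rw [D.up_numCh hS hη h1.1 (D.up_ne hA h1)]
      exact h2
    · rintro ⟨h1, h2, h3⟩
      refine ⟨⟨h1, h2⟩, ?_⟩
      rw [← D.up_numCh hS hη h1 (D.up_ne hA ⟨h1, h2⟩)]
      exact h3
  have h2 := D.up_card hS (A := {ψ | ψ ∈ A ∧ Odd (numCh ψ)}) fun ψ hψ => hA ψ hψ.1
  rw [← h1] at h2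
  exact h2

end gal

section transfer

variable {O : ValuationSubring ℂ} {p : ℕ} [hp : Fact p.Prime]

theorem dat_semi' (hpO : (p : ℂ) ∈ O.nonunits) {V L G : Type} [CommGroup V] [Group L] [Group G]
    (φ : L →* MulAut V) [Finite V] [Finite L] [Finite G] (hV : ¬ p ∣ Nat.card V)
    (j : G →* L) (hj : Function.Injective j) (θ : V →* ℂ)
    (hθ : ∀ (σ : ℂ ≃+* ℂ) (v : V), σ (θ v) = θ v)
    (hst : ∀ l : L, (∀ v, θ (φ l v) = θ v) ↔ ∃ g, j g = l) {D : Subgroup G} {B : Set (G → ℂ)}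
    {b : Set (Subgroup.normalizer (D : Set G) → ℂ)} (h : Dat.IsBrauer p O ⟨G, D, B, b⟩)
    (hg : ∀ σ : ℂ ≃+* ℂ, gal σ B = B) :
    ∃ (D' : Subgroup (V ⋊[φ] L)) (B' : Set (V ⋊[φ] L → ℂ))
      (b' : Set (Subgroup.normalizer (D' : Set (V ⋊[φ] L)) → ℂ)),
      Dat.IsBrauer p O ⟨V ⋊[φ] L, D', B', b'⟩ ∧ (∀ σ : ℂ ≃+* ℂ, gal σ B' = B') ∧
      Nonempty (D ≃* D') ∧
      Nat.card {χ // χ ∈ Irr0 p D' B' ∧ Odd (numCh χ)} =
        Nat.card {χ // χ ∈ Irr0 p D B ∧ Odd (numCh χ)} ∧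
      Nat.card {χ // χ ∈ Irr0 p (D'.subgroupOf (Subgroup.normalizer (D' : Set (V ⋊[φ] L)))) b' ∧
          Odd (numCh χ)} =
        Nat.card {χ // χ ∈ Irr0 p (D.subgroupOf (Subgroup.normalizer (D : Set G))) b ∧
          Odd (numCh χ)} := by
  have f1 : Fintype V := Fintype.ofFinite V
  have f2 : Fintype (V ⋊[φ] L) := Fintype.ofFinite _
  have f3 : Fintype G := Fintype.ofFinite G
  have hS := semi_stab φ j hj θ hst
  have hQ : IsPGroup p D := (Pool.Agent.Q259.BW.isDefectGroup_iff.mp h.defect).choose_spec.2.1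
  have hfc : ¬ p ∣ Nat.card ((semiCD φ j hj).fix D) :=
    fun h => hV (h.trans (Subgroup.card_subgroup_dvd_card _))
  have hS' := (semiCD φ j hj).sub_stab hV
    (rfl : D.map (semiCD φ j hj).j = D.map (semiCD φ j hj).j) (hQ.map _) hS
  refine ⟨_, _, _, upDat_brauer hpO hV hS h, fun σ => ?_,
    ⟨D.equivMapOfInjective _ fun a b h => CD.j_inj h⟩, ?_, ?_⟩
  · exact (CD.up_gal σ (hθ σ) B).trans (by rw [hg σ])
  · have h1 : Irr0 p (D.map (semiCD φ j hj).j) ((semiCD φ j hj).up θ B) =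
        (semiCD φ j hj).up θ (Irr0 p D B) := CD.up_irr0 hV hS h.block.irr D
    have h2 := (semiCD φ j hj).up_odd hS hθ (A := Irr0 p D B) fun ψ hψ => h.block.irr _ hψ.1
    rw [← h1] at h2
    exact h2
  · have h1 := CD.up_irr0 hfc hS' h.brauer.1.irr (D.subgroupOf (Subgroup.normalizer (D : Set G)))
    rw [(semiCD φ j hj).sub_map rfl] at h1
    have h2 := CD.up_odd hS' (fun σ v => hθ σ v)
      (A := Irr0 p (D.subgroupOf (Subgroup.normalizer (D : Set G))) b)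
      fun ψ hψ => h.brauer.1.irr _ hψ.1
    rw [← h1] at h2
    exact h2

theorem std_two (σ : ℂ ≃+* ℂ) (x : ZMod 2) : σ (ZMod.stdAddChar x) = ZMod.stdAddChar x := by
  have h1 : (ZMod.stdAddChar x : ℂ) ^ 2 = 1 := by
    rw [← AddChar.map_nsmul_eq_pow]
    have h2 : 2 • x = 0 := by
      fin_cases x <;> rfl
    rw [h2, AddChar.map_zero_eq_one]
  have h3 : ((ZMod.stdAddChar x : ℂ) - 1) * ((ZMod.stdAddChar x : ℂ) + 1) = 0 := by
    linear_combination h1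
  have h4 : (ZMod.stdAddChar x : ℂ) = 1 ∨ (ZMod.stdAddChar x : ℂ) = -1 := by
    rcases mul_eq_zero.mp h3 with h | h
    · exact Or.inl (sub_eq_zero.mp h)
    · exact Or.inr (eq_neg_of_add_eq_zero_left h)
  rcases h4 with h | h
  · rw [h, map_one]
  · rw [h, map_neg, map_one]

theorem dat_mat' (hpO : (p : ℂ) ∈ O.nonunits) (hp2 : p ≠ 2) {G : Type}
    [Group G] [Finite G] {n : ℕ} (j : G →* Equiv.Perm (Fin n)) (R : Fin n → Fin n → Prop)
    (hj : Function.Injective j)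
    (hR : ∀ σ : Equiv.Perm (Fin n), (∀ a b, R (σ a) (σ b) ↔ R a b) ↔ ∃ g, j g = σ)
    {D : Subgroup G} {B : Set (G → ℂ)}
    {b : Set (Subgroup.normalizer (D : Set G) → ℂ)} (h : Dat.IsBrauer p O ⟨G, D, B, b⟩)
    (hg : ∀ σ : ℂ ≃+* ℂ, gal σ B = B) :
    ∃ (D' : Subgroup (MatGrp 2 n)) (B' : Set (MatGrp 2 n → ℂ))
      (b' : Set (Subgroup.normalizer (D' : Set (MatGrp 2 n)) → ℂ)),
      Dat.IsBrauer p O ⟨MatGrp 2 n, D', B', b'⟩ ∧ (∀ σ : ℂ ≃+* ℂ, gal σ B' = B') ∧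
      Nonempty (D ≃* D') ∧
      Nat.card {χ // χ ∈ Irr0 p D' B' ∧ Odd (numCh χ)} =
        Nat.card {χ // χ ∈ Irr0 p D B ∧ Odd (numCh χ)} ∧
      Nat.card {χ // χ ∈ Irr0 p (D'.subgroupOf (Subgroup.normalizer (D' : Set (MatGrp 2 n)))) b' ∧
          Odd (numCh χ)} =
        Nat.card {χ // χ ∈ Irr0 p (D.subgroupOf (Subgroup.normalizer (D : Set G))) b ∧
          Odd (numCh χ)} := by
  have : Fact (1 < 2) := ⟨by omega⟩
  let κ : Fin n → Fin n → ZMod 2 := fun a b => if R a b then 1 else 0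
  have h2p : ¬ p ∣ 2 := fun h => hp2 ((Nat.prime_dvd_prime_iff_eq hp.out Nat.prime_two).mp h)
  refine dat_semi' hpO (matPerm 2 n) ?_ j hj (matChar κ) (fun σ v => std_two σ _) (fun σ => ?_) h hg
  · rw [card_mat]
    exact fun h => h2p ((Fact.out : p.Prime).dvd_of_dvd_pow h)
  · rw [matChar_stab, ← hR]
    refine forall_congr' fun a => forall_congr' fun b => ?_
    change (if R (σ a) (σ b) then (1 : ZMod 2) else 0) = (if R a b then 1 else 0) ↔ _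
    by_cases h1 : R (σ a) (σ b) <;> by_cases h2 : R a b <;> simp [h1, h2]

theorem dat_zs' (hpO : (p : ℂ) ∈ O.nonunits) (hp2 : p ≠ 2) {G L : Type}
    [Group G] [Finite G] [Group L] [Finite L] (j : G →* L) (hj : Function.Injective j)
    (h3 : 3 ≤ Nat.card (L ⧸ j.range)) {D : Subgroup G} {B : Set (G → ℂ)}
    {b : Set (Subgroup.normalizer (D : Set G) → ℂ)} (h : Dat.IsBrauer p O ⟨G, D, B, b⟩)
    (hg : ∀ σ : ℂ ≃+* ℂ, gal σ B = B) :
    ∃ (D' : Subgroup (ZSGrp 2 L j.range)) (B' : Set (ZSGrp 2 L j.range → ℂ))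
      (b' : Set (Subgroup.normalizer (D' : Set (ZSGrp 2 L j.range)) → ℂ)),
      Dat.IsBrauer p O ⟨ZSGrp 2 L j.range, D', B', b'⟩ ∧ (∀ σ : ℂ ≃+* ℂ, gal σ B' = B') ∧
      Nonempty (D ≃* D') ∧
      Nat.card {χ // χ ∈ Irr0 p D' B' ∧ Odd (numCh χ)} =
        Nat.card {χ // χ ∈ Irr0 p D B ∧ Odd (numCh χ)} ∧
      Nat.card {χ // χ ∈ Irr0 p (D'.subgroupOf (Subgroup.normalizer
          (D' : Set (ZSGrp 2 L j.range)))) b' ∧ Odd (numCh χ)} =
        Nat.card {χ // χ ∈ Irr0 p (D.subgroupOf (Subgroup.normalizer (D : Set G))) b ∧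
          Odd (numCh χ)} := by
  have h2p : ¬ p ∣ 2 := fun h => hp2 ((Nat.prime_dvd_prime_iff_eq hp.out Nat.prime_two).mp h)
  refine dat_semi' hpO (zsAct 2 L (L ⧸ j.range)) ?_ j hj
    (evChar (q := 2) (((1 : L) : L ⧸ j.range))) (fun σ v => std_two σ _)
    (zs_stab (q := 2) le_rfl j h3) h hg
  intro hd
  exact h2p ((Fact.out : p.Prime).dvd_of_dvd_pow (hd.trans (card_zs (q := 2) (X := L ⧸ j.range))))

end transfer

section main

variable {O : ValuationSubring ℂ} {p : ℕ} [hp : Fact p.Prime]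

/-- For the `p`-blocks `B` of `G` with defect group `D` in `C` which are equal to all their Galois
conjugates, and their Brauer correspondents `b`: the numbers of characters with an odd number of
Galois conjugates in `Irr₀(B)` and `Irr₀(b)` are congruent modulo `2`. -/
def AMParity (p : ℕ) (O : ValuationSubring ℂ) (C : (D : Type) → Group D → Prop) (G : Type)
    [Group G] : Prop :=
  ∀ (D : Subgroup G) (B : Set (G → ℂ)) (b : Set (Subgroup.normalizer (D : Set G) → ℂ)),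
    IsBlock O B → IsDefectGroup p O B D → IsBrauerCorrespondent p O D B b → C D inferInstance →
    (∀ σ : ℂ ≃+* ℂ, gal σ B = B) →
    Nat.card {χ // χ ∈ Irr0 p D B ∧ Odd (numCh χ)} ≡
      Nat.card {χ // χ ∈ Irr0 p (D.subgroupOf (Subgroup.normalizer (D : Set G))) b ∧
        Odd (numCh χ)} [MOD 2]

theorem parity_of_am (hpO : (p : ℂ) ∈ O.nonunits) {C : (D : Type) → Group D → Prop}
    (h : ∀ X : Dat, X.IsBrauer p O → C X.D inferInstance →
      Nat.card (X.ht0 p) = Nat.card (X.ht0' p)) (G : Type) [Group G] [Finite G] :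
    AMParity p O C G := by
  intro D B b h1 h2 h3 h4 h5
  have hX : Dat.IsBrauer p O ⟨G, D, B, b⟩ := ⟨‹_›, h1, h2, h3⟩
  have h6 := h _ hX h4
  have h7 := Pool.Agent.N19.RB.odd_parity
    (Pool.Agent.Q259.BW.finite_of_irr (Pool.Agent.Q259.BW.ht0_irr hX))
    (Pool.Agent.N19.RB.stable_irr0 (p := p) (D := D) h5)
  have h8 := Pool.Agent.N19.RB.odd_parity
    (Pool.Agent.Q259.BW.finite_of_irr (Pool.Agent.Q259.BW.ht0'_irr hX))
    (Pool.Agent.N19.RB.stable_irr0 (p := p)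
      (D := (Dat.DN ⟨G, D, B, b⟩)) (Pool.Agent.N19.RB.stable_b hpO hX h5))
  have h9 : Nat.card (Dat.ht0 p ⟨G, D, B, b⟩) ≡ Nat.card (Dat.ht0' p ⟨G, D, B, b⟩) [MOD 2] := by
    rw [h6]
  exact (h7.symm.trans h9).trans h8

/-- **Parity decides, in the universal family.** -/
theorem am_odd_mat (hpO : (p : ℂ) ∈ O.nonunits) (hp2 : p ≠ 2)
    {C : (D : Type) → Group D → Prop} (hC : PowClosed C) (N : Set ℕ) (hN : N.Infinite) :
    (∀ X : Dat, X.IsBrauer p O → C X.D inferInstance →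
      Nat.card (X.ht0 p) = Nat.card (X.ht0' p)) ↔ ∀ n ∈ N, AMParity p O C (MatGrp 2 n) := by
  constructor
  · exact fun h n _ => parity_of_am hpO h _
  · intro h X hX hCX
    refine Pool.Agent.N19.RB.odd_criterion hp2 hpO hC (fun Y hY hCY hg => ?_) X hX hCX
    obtain ⟨G, D, B, b⟩ := Y
    have hfin : Finite G := hY.fin
    obtain ⟨n₀, hG⟩ := frucht G
    obtain ⟨n, hn, hlt⟩ := hN.exists_gt n₀
    obtain ⟨j, R, hj, hR⟩ := hG n hlt.le
    obtain ⟨D', B', b', h5, h6, ⟨e⟩, h7, h8⟩ := dat_mat' hpO hp2 j R hj hR hY hg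
    have h9 := h n hn D' B' b' h5.block h5.defect h5.brauer (hC.1 _ _ ⟨e⟩ hCY) h6
    rw [h7, h8] at h9
    exact h9

theorem am_odd_alt (hpO : (p : ℂ) ∈ O.nonunits) (hp2 : p ≠ 2)
    {C : (D : Type) → Group D → Prop} (hC : PowClosed C) (N : Set ℕ) (hN : N.Infinite) :
    (∀ X : Dat, X.IsBrauer p O → C X.D inferInstance →
      Nat.card (X.ht0 p) = Nat.card (X.ht0' p)) ↔ ∀ n ∈ N, 5 ≤ n →
        ∀ H : Subgroup (alternatingGroup (Fin n)),
          AMParity p O C (ZSGrp 2 (alternatingGroup (Fin n)) H) := by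
  constructor
  · exact fun h n _ _ H => parity_of_am hpO h _
  · intro h X hX hCX
    refine Pool.Agent.N19.RB.odd_criterion hp2 hpO hC (fun Y hY hCY hg => ?_) X hX hCX
    obtain ⟨G, D, B, b⟩ := Y
    have hfin : Finite G := hY.fin
    have : Finite (Multiplicative (ZMod 3)) := inferInstanceAs (Finite (ZMod 3))
    obtain ⟨n₀, hn₀⟩ := emb_alt (G × Multiplicative (ZMod 3))
    obtain ⟨n, hn, hlt⟩ := hN.exists_gt (max n₀ 5)
    obtain ⟨k, hk⟩ := hn₀ n ((le_max_left _ _).trans hlt.le)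
    obtain ⟨j, hj, h3⟩ := emb_three k hk
    obtain ⟨D', B', b', h5, h6, ⟨e⟩, h7, h8⟩ := dat_zs' hpO hp2 j hj h3 hY hg
    have h9 := h n hn ((le_max_right _ _).trans hlt.le) _ D' B' b' h5.block h5.defect h5.brauer
      (hC.1 _ _ ⟨e⟩ hCY) h6
    rw [h7, h8] at h9
    exact h9

end main

end Run7.h45
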