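import Pool.Agent.Results.MP_0c8ca5_al.CommutatorCongruence
import Pool.Agent.Run7.h45.Univ

/-!
# Navarro's blockwise conjecture in universal families
-/

set_option autoImplicit false
set_option linter.unusedSectionVars false

open scoped Classical

noncomputable section

namespace Run7.h45

open Pool.Agent.Y63.NV
open Pool.Agent.Results.MP_0c8ca5_al.CommutatorCongruence

variable {p : ℕ} [Fact p.Prime] {F : Type} [Field F] [IsAlgClosed F] [CharP F p]

/-- Navarro's equality for all pairs, and the weight conjecture for all groups -/
theorem nav_iff_bawc (red : integralClosure ℤ ℂ →+* F) :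
    Navarro p red (fun _ _ => True) (fun _ _ _ => True) (fun a b => a = b) ↔
      ∀ (G : Type) [Group G] [Finite G], BAWC p red G := by
  have hX : Closed p (fun (G : Type) [Group G] => True) :=
    ⟨fun _ _ _ _ _ _ => trivial, fun _ _ _ _ => trivial, fun _ _ _ _ _ _ => trivial⟩
  constructor
  · intro h G _ _ B hB
    have h3 := h G ⊤ trivial (pgroup_top p G) trivial (up B)
      (up_block hB) (up_inv B)
    rw [sum_up p red hB, numIBr_eq] at h3
    exact h3
  · intro hall Γ _ _ G _ _ hG _ B hB hI
    have hstr := (block_strong (p := p) red (fun (G : Type) [Group G] => True) hX).1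
      (fun H _ _ _ _ => (theta_iff p F red H ⊤).2
        ((bawc_iff p red).1 (hall H)))
    exact hstr Γ G G le_rfl trivial hG B hB hI

end Run7.h45
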