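import Pool.Agent.Run7.h45.Den4
import Pool.Agent.Run7.h45.Nav

/-!
# Density for Navarro's blockwise conjecture
-/

set_option autoImplicit false
set_option linter.unusedSectionVars false

open scoped Classical BigOperators
open Filter

noncomputable section

namespace Run7.h45

open Pool.Agent.Y63.NV Pool.Agent.N85.WM
open Pool.Agent.Results.MP_0c8ca5_al.CommutatorCongruence

/-- blocks of `G` and of the subgroup `G` of `G` -/
theorem up_ncard {F : Type} [Field F] {G : Type} [Group G] [Finite G]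
    {P : ((G → F) → F) → Prop} {P' : (((⊤ : Subgroup G) → F) → F) → Prop}
    (h : ∀ B, IsBlock B → P B → P' (up B)) :
    (BlocksWith (F := F) G P).ncard ≤ (BlocksWith (F := F) (⊤ : Subgroup G) P').ncard := by
  let Φ : ({f : G → F // IsClassFun f} → F) → ({f : (⊤ : Subgroup G) → F // IsClassFun f} → F) :=
    fun β f => β ⟨fun x => f.1 ⟨x, trivial⟩, fun g x => f.2 ⟨g, trivial⟩ ⟨x, trivial⟩⟩
  refine Set.ncard_le_ncard_of_injOn Φ ?_ ?_ (blocks_card _).1
  · rintro β ⟨B, h1, h2, h3⟩
    exact ⟨up B, up_block h1, h B h1 h2, fun f => h3 _⟩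
  · intro β _ β' _ he
    funext f
    exact congrFun he ⟨fun x => f.1 x, fun g x => f.2 g x⟩

/-- **Density.** -/
theorem nav_iff_dens {p : ℕ} [Fact p.Prime] {F : Type} [Field F] [IsAlgClosed F] [CharP F p]
    (red : integralClosure ℤ ℂ →+* F) {q : ℕ} (hq : 2 ≤ q) (hpq : ¬ p ∣ q) :
    Navarro p red (fun _ _ => True) (fun _ _ _ => True) (fun a b => a = b) ↔
      ∀ C : ℕ, ∃ᶠ n : ℕ in atTop,
        (BlocksWith (F := F) (⊤ : Subgroup (MatGrp q n)) fun B => IsInvBlock ⊤ B ∧
          numIBr ⊤ B ≠ navarroSum p red ⊤ B).ncard * n ^ (C * n) <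
          (BlocksWith (F := F) (⊤ : Subgroup (MatGrp q n)) fun _ => True).ncard := by
  have : NeZero q := ⟨by omega⟩
  constructor
  · intro h C
    refine Frequently.of_forall fun n => ?_
    have h1 : (BlocksWith (F := F) (⊤ : Subgroup (MatGrp q n)) fun B => IsInvBlock ⊤ B ∧
          numIBr ⊤ B ≠ navarroSum p red ⊤ B) = ∅ := by
      ext β
      simp only [Set.mem_empty_iff_false, iff_false]
      rintro ⟨B, hB, ⟨h2, h3⟩, -⟩
      exact h3 (h (MatGrp q n) ⊤ trivial (pgroup_top p _) trivial B hB h2)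
    rw [h1, Set.ncard_empty, zero_mul]
    exact blocks_pos _
  · intro h
    rw [nav_iff_bawc]
    intro G _ _ B hB
    change numIrrBlock B = numWts p red B
    by_contra hne
    obtain ⟨C, n₀, h1⟩ := occ_mat (p := p) red hq hpq G
    have h2 : ∀ n, n₀ ≤ n → q ^ (n * n - C * n * Nat.log 2 n) ≤
        (BlocksWith (F := F) (⊤ : Subgroup (MatGrp q n)) fun B => IsInvBlock ⊤ B ∧
          numIBr ⊤ B ≠ navarroSum p red ⊤ B).ncard := by
      intro n hn
      have h3 := h1 n hn B hB
      rw [← (blocks_card _).1.cast_ncard_eq] at h3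
      refine le_trans (by exact_mod_cast h3) (up_ncard fun B' h4 h5 => ⟨up_inv B', ?_⟩)
      rw [sum_up p red h4, numIBr_eq]
      change numIrrBlock B' ≠ numWts p red B'
      rw [h5.1, h5.2]
      exact hne
    obtain ⟨C', h3⟩ := dens_nat hq
      (b := fun n => (BlocksWith (F := F) (⊤ : Subgroup (MatGrp q n)) fun _ => True).ncard)
      (fun n => (blocks_card _).2.trans (by
        rw [Nat.card_congr (Subgroup.topEquiv (G := MatGrp q n)).toEquiv]
        exact (card_matgrp q n).le)) h2
    obtain ⟨n, hn, h4, h5⟩ := ((h C').and_eventually ((eventually_ge_atTop n₀).and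
      (eventually_gt_atTop 0))).exists
    exact absurd (h3 n h4 h5) (not_le_of_gt hn)

end Run7.h45
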