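import Pool.Agent.Run7.h45.Cnt

/-!
# Defect groups of blocks, in terms of central characters
-/

set_option autoImplicit false
set_option linter.unusedSectionVars false

open scoped Classical BigOperators

noncomputable section

namespace Run7.h45

open Pool.Agent.Y63.NV Pool.Agent.N85.WM

section defs

variable {F : Type} [Field F] {G : Type} [Group G]

/-- `Br_P(b) ≠ 0` for the idempotent `b` of the block with central character `B`: the homomorphism
`B` vanishes on the kernel of the Brauer homomorphism `Br_P : Z(F[G]) → F[C_G(P)]`, that is, on the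
class functions which vanish on `C_G(P)`. -/
def BrNe (P : Subgroup G) (B : (G → F) → F) : Prop :=
  ∀ f : G → F, IsClassFun f → (∀ x ∈ Subgroup.centralizer (P : Set G), f x = 0) → B f = 0

/-- `D` is a defect group of the block `B`: a `p`-subgroup of maximal order with
`Br_D(b) ≠ 0`. -/
def IsDg (p : ℕ) (B : (G → F) → F) (D : Subgroup G) : Prop :=
  IsPGroup p D ∧ BrNe D B ∧ ∀ P : Subgroup G, IsPGroup p P → BrNe P B → Nat.card P ≤ Nat.card D

end defs

section br

variable {p : ℕ} [Fact p.Prime] {F : Type} [Field F] [CharP F p] {G : Type} [Group G] [Finite G]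

theorem br_conv {P : Subgroup G} (hP : IsPGroup p P) {f g : G → F} (hf : IsClassFun f)
    (hg : IsClassFun g) (h : (∀ x ∈ Subgroup.centralizer (P : Set G), f x = 0) ∨
      ∀ x ∈ Subgroup.centralizer (P : Set G), g x = 0) :
    ∀ x ∈ Subgroup.centralizer (P : Set G), conv f g x = 0 := by
  intro x hx
  have f1 : Fintype G := Fintype.ofFinite G
  unfold conv
  rw [finsum_eq_sum_of_fintype]
  let _ : MulAction P G := MulAction.compHom G ((MulAut.conj : G →* MulAut G).comp P.subtype)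
  have hact : ∀ (u : P) (y : G), u • y = u * y * (u : G)⁻¹ := fun u y => rfl
  rw [B930.sum_fixed (p := p) (Q := P) (Y := G) hP (fun y => f y * g (y⁻¹ * x)) (by
    intro u y
    rw [hact, hf u y]
    congr 1
    rw [← hg u (y⁻¹ * x)]
    congr 1
    have h1 : (u : G) * x = x * u := Subgroup.mem_centralizer_iff.1 hx u u.2
    calc (u * y * (u : G)⁻¹)⁻¹ * x = u * y⁻¹ * ((u : G)⁻¹ * x) := by group
      _ = u * y⁻¹ * (x * (u : G)⁻¹) := by
          congr 1
          rw [inv_mul_eq_iff_eq_mul, ← mul_assoc, h1, mul_inv_cancel_right]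
      _ = u * (y⁻¹ * x) * (u : G)⁻¹ := by group)]
  refine Finset.sum_eq_zero fun y hy => ?_
  rw [B930.mem_fx] at hy
  have hyc : y ∈ Subgroup.centralizer (P : Set G) := by
    rw [Subgroup.mem_centralizer_iff]
    intro u hu
    have h1 : u * y * u⁻¹ = y := hy ⟨u, hu⟩
    calc u * y = u * y * u⁻¹ * u := by group
      _ = y * u := by rw [h1]
  rcases h with h | h
  · rw [h y hyc, zero_mul]
  · rw [h _ (Subgroup.mul_mem _ (Subgroup.inv_mem _ hyc) hx), mul_zero]

/-- if `Br_Q(b) = 0` for all `Q` in a set of `p`-subgroups, then there is one element which shows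
this -/
theorem br_family {B : (G → F) → F} (hB : IsBlock B) (s : Finset (Subgroup G))
    (hs : ∀ Q ∈ s, IsPGroup p Q ∧ ¬ BrNe Q B) : ∃ z : G → F, IsClassFun z ∧ B z ≠ 0 ∧
      ∀ Q ∈ s, ∀ x ∈ Subgroup.centralizer (Q : Set G), z x = 0 := by
  induction s using Finset.induction_on with
  | empty =>
    refine ⟨Pi.single 1 1, Pool.Agent.Y63.NV.B286.single_class, ?_, by simp⟩
    rw [hB.one]
    exact one_ne_zero
  | insert Q s hQ ih =>
    obtain ⟨z, hz, h1, h2⟩ := ih fun R hR => hs R (Finset.mem_insert_of_mem hR)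
    obtain ⟨hQp, hQn⟩ := hs Q (Finset.mem_insert_self _ _)
    unfold BrNe at hQn
    push Not at hQn
    obtain ⟨f, hf, hf0, hfB⟩ := hQn
    refine ⟨conv f z, Pool.Agent.Y63.NV.B286.conv_class hf hz, ?_, ?_⟩
    · rw [hB.mul _ _ hf hz]
      exact mul_ne_zero hfB h1
    · intro R hR
      rcases Finset.mem_insert.1 hR with rfl | hR'
      · exact br_conv hQp hf hz (Or.inl hf0)
      · exact br_conv (hs R hR).1 hf hz (Or.inr (h2 R hR'))

end br

section transfer

variable {Γ V G : Type} [Group Γ] [CommGroup V] [Group G] {D : CD Γ V G}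
  {p : ℕ} [Fact p.Prime] {F : Type} [Field F] [CharP F p] (red : integralClosure ℤ ℂ →+* F)
  {θ : V →* ℂ}

/-- `Br` and the correspondence, one direction -/
theorem CD.br_up [Finite Γ] [Fintype V] [Finite G] (hV : ¬ p ∣ Nat.card V) (hS : D.Stab θ)
    {Q : Subgroup G} (hQ : IsPGroup p Q) {B : (G → F) → F} (h : BrNe Q B) :
    BrNe (Q.map D.j) (D.blk (redH red θ) B) := by
  intro f hf h0
  have hSF : D.Stab (redH red θ) := stab_redH red hV hS
  refine h _ (D.tf_class hSF hf) fun m hm => ?_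
  unfold CD.tf
  rw [D.sum_fix hQ hSF hf (fun q hq => Subgroup.mem_centralizer_iff.1 hm q hq)]
  refine Finset.sum_eq_zero fun v _ => ?_
  rw [h0, mul_zero]
  rw [Subgroup.mem_centralizer_iff]
  rintro _ ⟨q, hq, rfl⟩
  have h1 : D.j q * D.i v = D.i v * D.j q := D.c_eq_iff.1 (v.2 q hq)
  have h2 : D.j q * D.j m = D.j m * D.j q := by
    rw [← map_mul, ← map_mul, Subgroup.mem_centralizer_iff.1 hm q hq]
  rw [← mul_assoc, h1, mul_assoc, h2, mul_assoc]

/-- induced class functions vanish on the centralizer of `P` -/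
theorem CD.ind_van [Fintype Γ] [Fintype V] [Fintype G] (hV : ¬ p ∣ Nat.card V) (hS : D.Stab θ)
    {P : Subgroup Γ} (hP : IsPGroup p P) {z : G → F} (hz : IsClassFun z)
    (h0 : ∀ (Q : Subgroup G) (x : Γ), P = Q.map (D.cj x).j →
      ∀ m ∈ Subgroup.centralizer (Q : Set G), z m = 0) :
    ∀ y ∈ Subgroup.centralizer (P : Set Γ), D.ind (redH red θ) z y = 0 := by
  intro y hy
  have hSF : D.Stab (redH red θ) := stab_redH red hV hS
  unfold CD.ind
  rw [B930.sum_fixed (p := p) (Q := P) (Y := Γ ⧸ D.stS (redH red θ)) hP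
    (fun q => D.ext (redH red θ) z (q.out⁻¹ * y * q.out)) (by
    intro u q
    have h2 : ((u * q.out : Γ) : Γ ⧸ D.stS (redH red θ)) = u • q := by
      conv_rhs => rw [← QuotientGroup.out_eq' q]
      rfl
    have h3 : ((u * q.out : Γ) : Γ ⧸ D.stS (redH red θ)) =
        (((u • q).out : Γ) : Γ ⧸ D.stS (redH red θ)) := by
      rw [h2]; exact (QuotientGroup.out_eq' _).symm
    rw [QuotientGroup.eq] at h3
    set t : Γ := (u * q.out : Γ)⁻¹ * (u • q).out with ht
    have h4 : (u • q).out = u * q.out * t := by rw [ht]; group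
    have h6 : (u : Γ)⁻¹ * y * u = y := by
      rw [mul_assoc, ← Subgroup.mem_centralizer_iff.1 hy u u.2, ← mul_assoc, inv_mul_cancel,
        one_mul]
    have h5 : ((u • q).out)⁻¹ * y * (u • q).out =
        t⁻¹ * (q.out⁻¹ * y * q.out) * t⁻¹⁻¹ := by
      rw [h4]
      calc (u * q.out * t)⁻¹ * y * (u * q.out * t) =
          t⁻¹ * (q.out⁻¹ * ((u : Γ)⁻¹ * y * u) * q.out) * t⁻¹⁻¹ := by group
        _ = _ := by rw [h6]
    rw [h5, D.ext_conj hSF hz ((D.stS (redH red θ)).inv_mem h3)])]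
  rw [Finset.sum_eq_zero, mul_zero]
  intro q hq
  rw [B930.mem_fx] at hq
  -- `P` is conjugate to a subgroup of `G`
  have h1 : ∀ u ∈ P, ∀ v, θ (D.c (q.out⁻¹ * u * q.out⁻¹⁻¹) v) = θ v := by
    intro u hu
    have h2 : ((u * q.out : Γ) : Γ ⧸ D.stS (redH red θ)) = (q.out : Γ) := by
      have h3 := hq ⟨u, hu⟩
      conv_lhs at h3 => rw [← QuotientGroup.out_eq' q]
      conv_rhs at h3 => rw [← QuotientGroup.out_eq' q]
      exact h3
    have h3 := QuotientGroup.eq.1 h2.symm
    have h4 : (q.out)⁻¹ * (u * q.out) = q.out⁻¹ * u * q.out⁻¹⁻¹ := by group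
    rw [h4] at h3
    exact (hS _).2 ((hSF _).1 h3)
  obtain ⟨v, Q, hQ⟩ := D.sylow hV hP hS h1
  rw [inv_inv] at hQ
  have h2 : D.ext (redH red θ) z (q.out⁻¹ * y * q.out) =
      D.ext (redH red θ) z ((q.out * D.i v)⁻¹ * y * (q.out * D.i v)) := by
    have h3 : D.i v⁻¹ ∈ D.stS (redH red θ) := (hSF _).2 ⟨v⁻¹, 1, by rw [map_one, mul_one]⟩
    rw [← D.ext_conj hSF hz h3, map_inv]
    congr 1
    group
  rw [h2]
  set w : Γ := q.out * D.i v with hw
  by_cases h3 : ∃ a m, w⁻¹ * y * w = D.i a * D.j m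
  · obtain ⟨a, m, h4⟩ := h3
    rw [h4, D.ext_st, h0 Q w hQ, mul_zero]
    rw [Subgroup.mem_centralizer_iff]
    intro r hr
    have h5 : w * D.j r * w⁻¹ ∈ P := by rw [hQ]; exact ⟨r, hr, rfl⟩
    have h6 := Subgroup.mem_centralizer_iff.1 hy _ h5
    have h7 : D.j r * (D.i a * D.j m) = D.i a * D.j m * D.j r := by
      rw [← h4]
      calc D.j r * (w⁻¹ * y * w) = w⁻¹ * ((w * D.j r * w⁻¹) * y) * w := by group
        _ = w⁻¹ * (y * (w * D.j r * w⁻¹)) * w := by rw [h6]
        _ = w⁻¹ * y * w * D.j r := by group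
    have h8 : D.i (D.c (D.j r) a) * D.j (r * m) = D.i a * D.j (m * r) := by
      rw [D.hc, map_mul, map_mul]
      calc D.j r * D.i a * (D.j r)⁻¹ * (D.j r * D.j m) = D.j r * (D.i a * D.j m) := by group
        _ = D.i a * D.j m * D.j r := h7
        _ = _ := by group
    exact (D.ij_inj h8).2
  · exact D.ext_out _ z h3

/-- `Br` and the correspondence, the other direction -/
theorem CD.br_down [Finite Γ] [Fintype V] [Finite G] (hV : ¬ p ∣ Nat.card V) (hS : D.Stab θ)
    {P : Subgroup Γ} (hP : IsPGroup p P) {B : (G → F) → F} (hB : IsBlock B)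
    (h : BrNe P (D.blk (redH red θ) B)) :
    ∃ (Q : Subgroup G) (x : Γ), P = Q.map (D.cj x).j ∧ IsPGroup p Q ∧ BrNe Q B := by
  by_contra hcon
  push Not at hcon
  have f1 : Fintype Γ := Fintype.ofFinite Γ
  have f2 : Fintype G := Fintype.ofFinite G
  have f3 : Fintype (Subgroup G) := Fintype.ofFinite _
  have hSF : D.Stab (redH red θ) := stab_redH red hV hS
  have hVF : (Fintype.card V : F) ≠ 0 := by
    rw [← Nat.card_eq_fintype_card]
    intro h
    exact hV ((CharP.cast_eq_zero_iff F p _).mp h)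
  have hpQ : ∀ (Q : Subgroup G) (x : Γ), P = Q.map (D.cj x).j → IsPGroup p Q := by
    intro Q x hQ
    have h1 : IsPGroup p (Q.map (D.cj x).j) := hQ ▸ hP
    exact IsPGroup.of_equiv h1 (Q.equivMapOfInjective (D.cj x).j fun a b h => CD.j_inj h).symm
  obtain ⟨z, hz, h1, h2⟩ := br_family (p := p) hB
    (Finset.univ.filter fun Q : Subgroup G => ∃ x : Γ, P = Q.map (D.cj x).j) (by
    intro Q hQ
    rw [Finset.mem_filter] at hQ
    obtain ⟨-, x, hx⟩ := hQ
    exact ⟨hpQ Q x hx, hcon Q x hx (hpQ Q x hx)⟩)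
  apply h1
  have h3 := h (D.ind (redH red θ) z) (D.ind_class hSF hz)
    (D.ind_van red hV hS hP hz fun Q x hQ => h2 Q (by
      rw [Finset.mem_filter]
      exact ⟨Finset.mem_univ _, x, hQ⟩))
  unfold CD.blk at h3
  rwa [D.tf_ind hVF hSF hz] at h3

/-- **the defect groups of corresponding blocks** -/
theorem CD.dg_blk [Finite Γ] [Fintype V] [Finite G] (hV : ¬ p ∣ Nat.card V) (hS : D.Stab θ)
    {Q : Subgroup G} {B : (G → F) → F} (hB : IsBlock B) (h : IsDg p B Q) :
    IsDg p (D.blk (redH red θ) B) (Q.map D.j) := by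
  refine ⟨h.1.map _, D.br_up red hV hS h.1 h.2.1, fun P hP hPB => ?_⟩
  obtain ⟨R, x, hR, hRp, hRB⟩ := D.br_down red hV hS hP hB hPB
  rw [Subgroup.card_map_of_injective (fun a b h => D.j_inj h), CD.card_map hR]
  exact h.2.2 R hRp hRB

end transfer

end Run7.h45
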