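import Pool.Agent.Run7.h45.IN2

/-!
# The Moebius transform of the weighted squares
-/

set_option autoImplicit false
set_option linter.unusedSectionVars false
set_option linter.style.haveILetI false

open scoped BigOperators Classical ArithmeticFunction

noncomputable section

namespace Pool.Agent.Run7.h45.IA

open Pool.Agent.K3h83.IN
open Pool.Agent.Helper884 Pool.Agent.K3h3.KB Pool.Agent.K3h3.MK
open Pool.Agent.H254R3.IN (IsIrr mem_Irr)
open IC (Irr)

section alg

variable {R : Type} [CommRing R]

theorem nzd_unit (htf : ∀ (n : ℕ) (r : R), n ≠ 0 → (n : R) * r = 0 → r = 0) {u : R} {k : ℕ}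
    (hk : 0 < k) (hu : u ^ k = 1) {q : ℕ} (hq : 2 ≤ q) {x : R}
    (h : ((q : R) ^ 2 * u - 1) * x = 0) : x = 0 := by
  have h1 : (q : R) ^ 2 * u * x = x := by linear_combination h
  have h2 : ∀ i : ℕ, ((q : R) ^ 2 * u) ^ i * x = x := by
    intro i
    induction i with
    | zero => rw [pow_zero, one_mul]
    | succ i ih => rw [pow_succ, mul_assoc, h1, ih]
  have h3 := h2 k
  rw [mul_pow, hu, mul_one, ← pow_mul] at h3
  have h4 : 1 < q ^ (2 * k) := Nat.one_lt_pow (by omega) (by omega)
  apply htf (q ^ (2 * k) - 1) x (by omega)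
  rw [Nat.cast_sub h4.le, Nat.cast_pow, Nat.cast_one]
  linear_combination h3

/-- the weighted square -/
def fA (v : ℕ →* R) : ArithmeticFunction R :=
  ⟨fun n => if n = 0 then 0 else (n : R) ^ 2 * v n, if_pos rfl⟩

theorem fA_apply (v : ℕ →* R) {n : ℕ} (hn : n ≠ 0) : fA v n = (n : R) ^ 2 * v n := if_neg hn

theorem fA_mult (v : ℕ →* R) : (fA v).IsMultiplicative := by
  refine ⟨?_, ?_⟩
  · rw [fA_apply v one_ne_zero, Nat.cast_one, one_pow, one_mul, map_one]
  · intro m n _
    by_cases hm : m = 0
    · subst hm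
      rw [zero_mul]
      simp
    by_cases hn : n = 0
    · subst hn
      rw [mul_zero]
      simp
    rw [fA_apply v hm, fA_apply v hn, fA_apply v (mul_ne_zero hm hn), map_mul, Nat.cast_mul]
    ring

/-- its Moebius transform -/
def hA (v : ℕ →* R) : ArithmeticFunction R := fA v * (ArithmeticFunction.moebius : ArithmeticFunction R)

theorem hA_mult (v : ℕ →* R) : (hA v).IsMultiplicative :=
  (fA_mult v).mul ArithmeticFunction.isMultiplicative_moebius.intCast

theorem hA_sum (v : ℕ →* R) {n : ℕ} (hn : n ≠ 0) : ∑ e ∈ n.divisors, hA v e = (n : R) ^ 2 * v n := by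
  have h1 : hA v * (ArithmeticFunction.zeta : ArithmeticFunction R) = fA v := by
    unfold hA
    rw [mul_assoc, ArithmeticFunction.coe_moebius_mul_coe_zeta, mul_one]
  rw [← ArithmeticFunction.coe_mul_zeta_apply, h1, fA_apply v hn]

theorem hA_pow (v : ℕ →* R) {q a : ℕ} (hq : q.Prime) :
    hA v (q ^ (a + 1)) = ((q : R) ^ 2 * v q) ^ a * ((q : R) ^ 2 * v q - 1) := by
  have h1 := hA_sum v (pow_ne_zero (a + 1) hq.ne_zero)
  have h2 := hA_sum v (pow_ne_zero a hq.ne_zero)
  rw [Nat.sum_divisors_prime_pow hq] at h1 h2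
  rw [Finset.sum_range_succ, h2, map_pow v q (a + 1), map_pow v q a, Nat.cast_pow, Nat.cast_pow] at h1
  linear_combination h1

theorem hA_nzd (htf : ∀ (n : ℕ) (r : R), n ≠ 0 → (n : R) * r = 0 → r = 0) (v : ℕ →* R) {k : ℕ}
    (hk : 0 < k) {n : ℕ} (hn : n ≠ 0) (hv : ∀ q : ℕ, q.Prime → q ∣ n → v q ^ k = 1) {x : R}
    (h : hA v n * x = 0) : x = 0 := by
  rw [(hA_mult v).multiplicative_factorization _ hn] at h
  have key : ∀ (s : Finset ℕ), s ⊆ n.primeFactors → ∀ y : R,
      (∏ q ∈ s, hA v (q ^ n.factorization q)) * y = 0 → y = 0 := by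
    intro s
    induction s using Finset.induction_on with
    | empty =>
      intro _ y hy
      simpa using hy
    | insert q s hqs ih =>
      intro hs y hy
      rw [Finset.prod_insert hqs] at hy
      have hq := hs (Finset.mem_insert_self q s)
      have hqp : q.Prime := Nat.prime_of_mem_primeFactors hq
      have hqn : q ∣ n := Nat.dvd_of_mem_primeFactors hq
      apply ih (fun z hz => hs (Finset.mem_insert_of_mem hz)) y
      have hpos : 0 < n.factorization q := hqp.factorization_pos_of_dvd hn hqn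
      obtain ⟨a, ha⟩ : ∃ a, n.factorization q = a + 1 := ⟨n.factorization q - 1, by omega⟩
      rw [ha, hA_pow v hqp] at hy
      have hu := hv q hqp hqn
      have h5 : (q : R) ^ 2 * v q - 1 ≠ 0 ∨ True := Or.inr trivial
      -- cancel the power
      have h6 : ((q : R) ^ 2 * v q) ^ a * (((q : R) ^ 2 * v q - 1) *
          ((∏ q ∈ s, hA v (q ^ n.factorization q)) * y)) = 0 := by
        linear_combination hy
      have h7 : ((q : R) ^ 2 * v q - 1) * ((∏ q ∈ s, hA v (q ^ n.factorization q)) * y) = 0 := by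
        apply htf (q ^ (2 * a)) _ (pow_ne_zero _ hqp.ne_zero)
        have h8 : v q ^ a * v q ^ ((k - 1) * a) = 1 := by
          rw [← pow_add]
          have : a + (k - 1) * a = k * a := by
            obtain ⟨k', rfl⟩ : ∃ k', k = k' + 1 := ⟨k - 1, by omega⟩
            rw [Nat.add_sub_cancel]
            ring
          rw [this, pow_mul, hu, one_pow]
        have h9 := congrArg (fun z => v q ^ ((k - 1) * a) * z) h6
        simp only [mul_zero] at h9
        rw [Nat.cast_pow, pow_mul]
        rw [mul_pow] at h9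
        linear_combination h9 - ((q : R) ^ 2) ^ a * (((q : R) ^ 2 * v q - 1) *
          ((∏ q ∈ s, hA v (q ^ n.factorization q)) * y)) * h8
      exact nzd_unit htf hk hu hqp.two_le h7
  exact key n.primeFactors subset_rfl x (by
    rw [Finsupp.prod, Nat.support_factorization] at h
    exact h)

end alg

section cyc

/-- divisors of the orders of subgroups of a cyclic group -/
theorem mem_of_dvd {Q : Type} [Group Q] [Finite Q] {g : Q} (hg : ∀ x : Q, x ∈ Subgroup.zpowers g)
    (T : Subgroup Q) {e : ℕ} (he : e ∣ Nat.card Q) :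
    g ^ (Nat.card Q / e) ∈ T ↔ e ∣ Nat.card T := by
  haveI : IsCyclic Q := ⟨⟨g, hg⟩⟩
  haveI := Fintype.ofFinite Q
  have ho : orderOf g = Nat.card Q := orderOf_eq_card_of_forall_mem_zpowers hg
  have he0 : 0 < e := Nat.pos_of_dvd_of_pos he Nat.card_pos
  have hoe : orderOf (g ^ (Nat.card Q / e)) = e := by
    rw [orderOf_pow, ho]
    obtain ⟨c, hc⟩ := he
    have hc0 : 0 < c := by
      rcases Nat.eq_zero_or_pos c with h | h
      · rw [h, mul_zero] at hc
        exact absurd hc Nat.card_pos.ne'
      · exact h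
    rw [hc, Nat.mul_div_cancel_left _ he0, Nat.gcd_eq_right (Dvd.intro_left _ rfl),
      Nat.mul_div_cancel _ hc0]
  constructor
  · intro h
    rw [← hoe]
    exact Subgroup.orderOf_dvd_natCard T h
  · intro h
    have h1 : (g ^ (Nat.card Q / e)) ^ Nat.card T = 1 :=
      orderOf_dvd_iff_pow_eq_one.mp (by rw [hoe]; exact h)
    have h2 : (Finset.univ.filter fun x : Q => x ∈ T) ⊆
        Finset.univ.filter fun x : Q => x ^ Nat.card T = 1 := by
      intro x hx
      rw [Finset.mem_filter] at hx ⊢
      refine ⟨hx.1, ?_⟩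
      exact congrArg Subtype.val (pow_card_eq_one' (G := T) (x := ⟨x, hx.2⟩))
    have h3 : (Finset.univ.filter fun x : Q => x ^ Nat.card T = 1).card ≤
        (Finset.univ.filter fun x : Q => x ∈ T).card := by
      refine (IsCyclic.card_pow_eq_one_le Nat.card_pos).trans ?_
      rw [Nat.card_eq_fintype_card, Fintype.card_subtype]
    have h4 := Finset.eq_of_subset_of_card_le h2 h3
    have h5 : g ^ (Nat.card Q / e) ∈ Finset.univ.filter fun x : Q => x ^ Nat.card T = 1 :=
      Finset.mem_filter.mpr ⟨Finset.mem_univ _, h1⟩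
    rw [← h4] at h5
    exact (Finset.mem_filter.mp h5).2

end cyc

end Pool.Agent.Run7.h45.IA
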