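import Pool.Agent.Run7.h45.IA1

/-!
# Characters over a character of a normal subgroup with cyclic quotient
-/

set_option autoImplicit false
set_option linter.unusedSectionVars false
set_option linter.style.haveILetI false

open scoped BigOperators Classical

noncomputable section

namespace Pool.Agent.Run7.h45.IA

open Pool.Agent.K3h83.IN
open Pool.Agent.Helper884 Pool.Agent.K3h3.KB Pool.Agent.K3h3.MK
open Pool.Agent.H254R3.IN (IsIrr mem_Irr)
open Pool.Agent.Run7.h45.IN (wo_lin)
open IC (Irr)

theorem wt_comm {R : Type} [CommRing R] (w : ℕ →* R) (Q : Type) [CommGroup Q] [Finite Q] :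
    wt w Q = (Nat.card Q : R) := by
  haveI := Fintype.ofFinite Q
  rw [wt_eq, Finset.sum_congr rfl (g := fun _ => (1 : R)) fun χ hχ => by
    rw [ndeg_comm (mem_Irr.mp hχ), map_one], Finset.sum_const, nsmul_eq_mul, mul_one, card_Irr_comm]

/-- commutative groups -/
theorem wo_ab {R : Type} [CommRing R] (w : ℕ →* R) {S : Type} [CommGroup S] [Finite S]
    (A B : Subgroup S) (h : A ≤ B) (lam : A →* ℂˣ) :
    wo w (Subgroup.inclusion h) (fun a => ((lam a : ℂˣ) : ℂ)) = (A.relIndex B : R) := by
  obtain ⟨s, hs⟩ := MonoidHom.restrict_surjective (M := ℂ) A lam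
  have h1 : ∀ a : A, s a = lam a := fun a => DFunLike.congr_fun hs a
  have h2 := wo_lin w (Subgroup.inclusion h) (Subgroup.inclusion_injective h) inferInstance lam ⊤
    (fun x => ⟨fun _ l l' hl => ?_, fun _ => Subgroup.mem_top x⟩)
    ((Subgroup.topEquiv (G := B)).symm.toMonoidHom.comp (Subgroup.inclusion h)) (fun _ => rfl)
    ((s.comp B.subtype).comp (Subgroup.topEquiv (G := B)).toMonoidHom) (fun v => h1 v)
    ((QuotientGroup.mk' (A.subgroupOf B)).comp (Subgroup.topEquiv (G := B)).toMonoidHom)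
    ((QuotientGroup.mk'_surjective _).comp (Subgroup.topEquiv (G := B)).surjective) ?_
  · rw [h2, Subgroup.index_top, map_one, one_mul, wt_comm]
    rfl
  · have h3 : l = l' := by
      apply Subgroup.inclusion_injective h
      rw [← hl, mul_comm x, mul_inv_cancel_right]
    rw [h3]
  · ext x
    rw [MonoidHom.mem_ker]
    change (QuotientGroup.mk' (A.subgroupOf B)) (x : B) = 1 ↔ _
    rw [← MonoidHom.mem_ker, QuotientGroup.ker_mk', Subgroup.mem_subgroupOf]
    constructor
    · intro hx
      exact ⟨⟨_, hx⟩, rfl⟩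
    · rintro ⟨a, rfl⟩
      exact a.2

/-- **Invariant characters, cyclic quotient.** -/
theorem wo_cyc {R : Type} [CommRing R] (w : ℕ →* R) {K L Q : Type} [Group K] [Finite K] [Group L]
    [Finite L] [Group Q] [Finite Q] (hQ : IsCyclic Q) (j : K →* L) (hj : Function.Injective j)
    (θ : K → ℂ) (hθ : IsIrr θ) (hinv : ∀ x, fixes j θ x) (r : L →* Q) (hr : Function.Surjective r)
    (hrk : r.ker = j.range) : wo w j θ = w (ndeg θ) * (Nat.card Q : R) := by
  obtain ⟨S, iS, iF, q, lam, hq, hqc, -, hS⟩ := a_S3 K L Q j hj θ hθ hinv r hr hrk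
  have hc : ∀ a b : S, a * b = b * a := commutative_of_cyclic_center_quotient q hqc
  have h1 := hS R w ⊤ ((Subgroup.topEquiv (G := L)).symm.toMonoidHom.comp j) fun _ => rfl
  have h2 : wo w ((Subgroup.topEquiv (G := L)).symm.toMonoidHom.comp j) θ = wo w j θ :=
    wo_congr w (MulEquiv.refl K) Subgroup.topEquiv _ _ (fun _ => rfl) _ _ fun _ => rfl
  rw [← h2, h1]
  congr 1
  have h3 := @wo_ab R _ w S { iS with mul_comm := hc } iF q.ker ((⊤ : Subgroup L).map r |>.comap q)
    (kle q _) lam
  refine h3.trans ?_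
  have h4 : (⊤ : Subgroup L).map r = ⊤ := by
    rw [← MonoidHom.range_eq_map]
    exact MonoidHom.range_eq_top.mpr hr
  rw [h4, Subgroup.comap_top, Subgroup.relIndex_top_right, Subgroup.index_ker,
    MonoidHom.range_eq_top.mpr hq, Subgroup.card_top]

end Pool.Agent.Run7.h45.IA
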