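import Pool.Agent.Run7.h45.IA2

/-!
# The formula for the numbers of invariant characters
-/

set_option autoImplicit false
set_option linter.unusedSectionVars false
set_option linter.style.haveILetI false

open scoped BigOperators Classical

noncomputable section

namespace Pool.Agent.Run7.h45.IA

open Pool.Agent.K3h83.IN
open Pool.Agent.Helper884 Pool.Agent.K3h3.KB Pool.Agent.K3h3.MK
open Pool.Agent.H254R3.IN (IsIrr mem_Irr)
open IC (Irr)

section v

variable (p : ℕ) [hp : Fact p.Prime]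

theorem cl_pow {n : ℕ} (h : (n : ZMod p) ≠ 0) : cl p n ^ (p - 1) = 1 := by
  rw [cl_apply p h, MonoidAlgebra.single_pow, one_pow, ← pow_mul, mul_comm 2, pow_mul,
    ZMod.units_pow_card_sub_one_eq_one, one_pow]
  rfl

/-- the inverse class -/
def vv : ℕ →* RR p := cl p ^ (p - 2)

theorem vv_mul {n : ℕ} (h : (n : ZMod p) ≠ 0) : vv p n * cl p n = 1 := by
  have h1 : p - 2 + 1 = p - 1 := by
    have := hp.out.two_le
    omega
  change cl p n ^ (p - 2) * cl p n = 1
  rw [← pow_succ, h1, cl_pow p h]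

theorem vv_pow {n : ℕ} (h : (n : ZMod p) ≠ 0) : vv p n ^ (p - 1) = 1 := by
  change (cl p n ^ (p - 2)) ^ (p - 1) = 1
  rw [← pow_mul, mul_comm, pow_mul, cl_pow p h, one_pow]

theorem tfree (n : ℕ) (r : RR p) (hn : n ≠ 0) (h : (n : RR p) * r = 0) : r = 0 := by
  apply natCast_mul_inj p hn
  rw [h, mul_zero]

end v

section stab

variable {K L : Type} [Group K] [Finite K] [Group L] [Finite L]

/-- the stabilizer -/
def FX (j : K →* L) (hj : Function.Injective j) (hn : j.range.Normal) (θ : K → ℂ) : Subgroup L where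
  carrier := {x | fixes j θ x}
  one_mem' := by
    intro a b hab
    rw [one_mul, inv_one, mul_one] at hab
    rw [hj hab]
  mul_mem' := by
    intro x y hx hy a b hab
    obtain ⟨m, hm⟩ : y * j a * y⁻¹ ∈ j.range := hn.conj_mem _ ⟨a, rfl⟩ y
    have h1 := hy a m hm.symm
    rw [← h1]
    refine hx m b ?_
    rw [hm, ← hab]
    group
  inv_mem' := by
    intro x hx a b hab
    refine (hx b a ?_).symm
    rw [← hab]
    group

theorem mem_FX {j : K →* L} {hj : Function.Injective j} {hn : j.range.Normal} {θ : K → ℂ} {x : L} :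
    x ∈ FX j hj hn θ ↔ fixes j θ x := Iff.rfl

theorem class_fun {G : Type} [Group G] [Finite G] {χ : G → ℂ} (h : IsIrr χ) (x y : G) :
    χ (x * y * x⁻¹) = χ y := by
  obtain ⟨W, _, _, _, ρ, hρ, rfl⟩ := h
  exact Representation.char_conj ρ y x

theorem range_le {j : K →* L} {hj : Function.Injective j} {hn : j.range.Normal} {θ : K → ℂ}
    (hθ : IsIrr θ) : j.range ≤ FX j hj hn θ := by
  rintro _ ⟨k, rfl⟩ a b hab
  rw [← map_inv, ← map_mul, ← map_mul] at hab
  rw [← hj hab]
  exact class_fun hθ k a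

/-- the classes of the degrees of the characters fixed by `x` -/
def BB (p : ℕ) [Fact p.Prime] (j : K →* L) (x : L) : RR p :=
  letI := Fintype.ofFinite K
  ∑ θ ∈ (Irr K).filter (fun θ => fixes j θ x), cl p (ndeg θ)

theorem BB_eq (p : ℕ) [Fact p.Prime] [i : Fintype K] (j : K →* L) (x : L) :
    BB p j x = ∑ θ ∈ (Irr K).filter (fun θ => fixes j θ x), cl p (ndeg θ) := by
  unfold BB
  have h : Fintype.ofFinite K = i := Subsingleton.elim _ _
  rw [h]

theorem card_map_ker {L Q : Type} [Group L] [Group Q] (r : L →* Q) (H : Subgroup L) :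
    Nat.card H = Nat.card (H.map r) * Nat.card (r.ker ⊓ H : Subgroup L) := by
  have h1 := Subgroup.relIndex_mul_relIndex (⊥ : Subgroup L) (r.ker ⊓ H) H bot_le inf_le_right
  rw [Subgroup.relIndex_bot_left, Subgroup.relIndex_bot_left, Subgroup.inf_relIndex_right,
    Subgroup.relIndex_ker] at h1
  rw [← h1, mul_comm]

end stab

section main

variable {p : ℕ} [hp : Fact p.Prime] {K L Q : Type} [Group K] [Finite K] [Group L] [Finite L]
  [Group Q] [Finite Q]

theorem frat (r : L →* Q) (hr : Function.Surjective r) (hpQ : ¬ p ∣ Nat.card Q) (P : Sylow p L) :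
    (P : Subgroup L) ≤ r.ker ∧ (NN P).map r = ⊤ := by
  have h1 : (P : Subgroup L) ≤ r.ker := by
    intro x hx
    rw [MonoidHom.mem_ker]
    obtain ⟨k, hk⟩ := P.2 ⟨x, hx⟩
    have h2 : x ^ p ^ k = 1 := congrArg Subtype.val hk
    have h3 : (r x) ^ p ^ k = 1 := by rw [← map_pow, h2, map_one]
    have h4 : orderOf (r x) ∣ p ^ k := orderOf_dvd_of_pow_eq_one h3
    have h5 : orderOf (r x) ∣ Nat.card Q := orderOf_dvd_natCard _
    have h6 : Nat.Coprime (p ^ k) (Nat.card Q) :=
      Nat.Coprime.pow_left _ ((Nat.Prime.coprime_iff_not_dvd hp.out).mpr hpQ)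
    exact orderOf_eq_one_iff.mp (Nat.eq_one_of_dvd_coprimes h6 h4 h5)
  refine ⟨h1, ?_⟩
  have h2 := a_S5 p L Q r hr P
  have h3 : (P : Subgroup L).map r = ⊥ := by
    rw [Subgroup.map_eq_bot_iff]
    exact h1
  rw [h3] at h2
  have h4 : Subgroup.normalizer (((⊥ : Subgroup Q)) : Set Q) = ⊤ := by
    rw [Subgroup.normalizer_eq_top_iff]
    infer_instance
  rw [h4, Subgroup.comap_top] at h2
  have h5 : (r.ker ⊔ NN P).map r = ⊤ := by
    rw [← h2, ← MonoidHom.range_eq_map]
    exact MonoidHom.range_eq_top.mpr hr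
  rw [Subgroup.map_sup] at h5
  have h6 : r.ker.map r = ⊥ := by
    rw [Subgroup.map_eq_bot_iff]
  rwa [h6, bot_sup_eq] at h5

/-- **The characters over a character.** -/
theorem wo_stab (hQ : IsCyclic Q) (w : ℕ →* RR p) (j : K →* L) (hj : Function.Injective j)
    (hn : j.range.Normal) (r : L →* Q) (hrk : r.ker = j.range)
    {θ : K → ℂ} (hθ : IsIrr θ) :
    wo w j θ = w (FX j hj hn θ).index * (w (ndeg θ) * (Nat.card ((FX j hj hn θ).map r) : RR p)) := by
  set T := FX j hj hn θ with hT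
  have hjT : ∀ k, j k ∈ T := fun k => range_le hθ ⟨k, rfl⟩
  rw [a_S1 (RR p) w K L j hj hn θ hθ T (fun x => Iff.rfl) (j.codRestrict T hjT) fun _ => rfl]
  congr 1
  refine wo_cyc w (inferInstance : IsCyclic (T.map r)) (j.codRestrict T hjT) ?_ θ hθ ?_
    (r.subgroupMap T) (r.subgroupMap_surjective T) ?_
  · intro a b hab
    exact hj (congrArg Subtype.val hab)
  · intro x a b hab
    exact x.2 a b (congrArg Subtype.val hab)
  · ext x
    rw [MonoidHom.mem_ker]
    constructor
    · intro hx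
      have h1 : r x = 1 := congrArg Subtype.val hx
      have h2 : (x : L) ∈ r.ker := h1
      rw [hrk] at h2
      obtain ⟨k, hk⟩ := h2
      exact ⟨k, Subtype.ext hk⟩
    · rintro ⟨k, rfl⟩
      apply Subtype.ext
      have h2 : j k ∈ r.ker := by
        rw [hrk]
        exact ⟨k, rfl⟩
      exact h2

/-- **The formula.** -/
theorem formula (j : K →* L) (hj : Function.Injective j)
    (r : L →* Q) (hr : Function.Surjective r) (hrk : r.ker = j.range) (hpQ : ¬ p ∣ Nat.card Q)
    (P : Sylow p L) (l : L) (hl : ∀ x : Q, x ∈ Subgroup.zpowers (r l)) :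
    (Nat.card Q : RR p) * vv p (Nat.card Q) * wt (cl p) L =
      ∑ e ∈ (Nat.card Q).divisors, hA (vv p) e * BB p j (l ^ (Nat.card Q / e)) := by
  haveI := Fintype.ofFinite K
  have hQ : IsCyclic Q := ⟨⟨r l, hl⟩⟩
  have hn : j.range.Normal := by
    rw [← hrk]
    infer_instance
  obtain ⟨hP, hN⟩ := frat r hr hpQ P
  have e1 := a_S2 p K L j hj hn P
  have hker : ∀ θ, IsIrr θ → r.ker ≤ FX j hj hn θ := fun θ hθ => by
    rw [hrk]
    exact range_le hθ
  have h1 : (Irr K).filter (fun θ => ∀ x ∈ P, fixes j θ x) = Irr K := by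
    rw [Finset.filter_true_of_mem]
    intro θ hθ x hx
    exact hker θ (mem_Irr.mp hθ) (hP hx)
  rw [h1] at e1
  set c0 := Nat.card (r.ker ⊓ NN P : Subgroup L) with hc0
  have h2 : Nat.card (NN P) = c0 * Nat.card Q := by
    rw [card_map_ker r (NN P), hN, Subgroup.card_top, mul_comm]
  have h3 : ∀ θ ∈ Irr K, Nat.card {x : L // x ∈ NN P ∧ fixes j θ x} =
      c0 * Nat.card ((FX j hj hn θ).map r) := by
    intro θ hθ
    have h4 : Nat.card {x : L // x ∈ NN P ∧ fixes j θ x} =
      Nat.card (NN P ⊓ FX j hj hn θ : Subgroup L) := rfl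
    rw [h4, card_map_ker r]
    have h5 : r.ker ⊓ (NN P ⊓ FX j hj hn θ) = r.ker ⊓ NN P := by
      rw [← inf_assoc]
      exact inf_eq_left.mpr (inf_le_left.trans (hker θ (mem_Irr.mp hθ)))
    have h6 : (NN P ⊓ FX j hj hn θ).map r = (FX j hj hn θ).map r := by
      refine le_antisymm (Subgroup.map_mono inf_le_right) ?_
      rintro _ ⟨x, hx, rfl⟩
      have h7 : r x ∈ (NN P).map r := by
        rw [hN]
        trivial
      obtain ⟨n, hn1, hn2⟩ := h7
      refine ⟨n, ⟨hn1, ?_⟩, hn2⟩
      have h8 : x⁻¹ * n ∈ r.ker := by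
        rw [MonoidHom.mem_ker, map_mul, map_inv, hn2, inv_mul_cancel]
      have h9 := (FX j hj hn θ).mul_mem hx (hker θ (mem_Irr.mp hθ) h8)
      rwa [mul_inv_cancel_left] at h9
    rw [h5, h6, mul_comm]
  have h4 : ∀ θ ∈ Irr K, (FX j hj hn θ).index * Nat.card ((FX j hj hn θ).map r) = Nat.card Q := by
    intro θ hθ
    rw [← Subgroup.index_map_eq _ hr (hker θ (mem_Irr.mp hθ)), Subgroup.index_mul_card]
  have hm0 : (Nat.card Q : ZMod p) ≠ 0 := fun h => hpQ ((ZMod.natCast_eq_zero_iff _ _).mp h)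
  have e2 : (c0 : RR p) * ((Nat.card Q : RR p) * wt (cl p) L) = (c0 : RR p) *
      ∑ θ ∈ Irr K, (Nat.card ((FX j hj hn θ).map r) : RR p) ^ 2 *
        (cl p (FX j hj hn θ).index * cl p (ndeg θ)) := by
    rw [← mul_assoc, ← Nat.cast_mul, ← h2, e1, Finset.mul_sum]
    refine Finset.sum_congr rfl fun θ hθ => ?_
    rw [h3 θ hθ, wo_stab hQ (cl p) j hj hn r hrk (mem_Irr.mp hθ), Nat.cast_mul]
    ring
  have e3 := natCast_mul_inj p (by rw [hc0]; exact Nat.card_pos.ne') e2
  rw [mul_assoc, mul_left_comm, e3, Finset.mul_sum]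
  have e4 : ∀ θ ∈ Irr K, vv p (Nat.card Q) * ((Nat.card ((FX j hj hn θ).map r) : RR p) ^ 2 *
        (cl p (FX j hj hn θ).index * cl p (ndeg θ))) =
      ∑ e ∈ (Nat.card Q).divisors, hA (vv p) e *
        (if fixes j θ (l ^ (Nat.card Q / e)) then cl p (ndeg θ) else 0) := by
    intro θ hθ
    set t := Nat.card ((FX j hj hn θ).map r) with ht
    set i := (FX j hj hn θ).index with hi
    have hti : i * t = Nat.card Q := h4 θ hθ
    have hi0 : (i : ZMod p) ≠ 0 := by
      intro h
      apply hm0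
      rw [← hti, Nat.cast_mul, h, zero_mul]
    have ht0 : t ≠ 0 := by
      intro h
      rw [h, mul_zero] at hti
      exact Nat.card_pos.ne' hti.symm
    have h5 : ∑ e ∈ (Nat.card Q).divisors, hA (vv p) e *
        (if fixes j θ (l ^ (Nat.card Q / e)) then cl p (ndeg θ) else 0) =
        (∑ e ∈ t.divisors, hA (vv p) e) * cl p (ndeg θ) := by
      rw [Finset.sum_mul]
      have h6 : t.divisors = (Nat.card Q).divisors.filter
          (fun e => fixes j θ (l ^ (Nat.card Q / e))) := by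
        ext e
        rw [Finset.mem_filter, Nat.mem_divisors, Nat.mem_divisors]
        constructor
        · rintro ⟨h7, -⟩
          have h8 : e ∣ Nat.card Q := h7.trans (by rw [← hti]; exact Dvd.intro_left _ rfl)
          refine ⟨⟨h8, Nat.card_pos.ne'⟩, ?_⟩
          obtain ⟨x, hx1, hx2⟩ := (mem_of_dvd hl ((FX j hj hn θ).map r) h8).mpr h7
          rw [← map_pow] at hx2
          have h9 : x⁻¹ * l ^ (Nat.card Q / e) ∈ r.ker := by
            rw [MonoidHom.mem_ker, map_mul, map_inv, hx2, inv_mul_cancel]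
          have h10 := (FX j hj hn θ).mul_mem hx1 (hker θ (mem_Irr.mp hθ) h9)
          rw [mul_inv_cancel_left] at h10
          exact h10
        · rintro ⟨⟨h8, -⟩, h9⟩
          refine ⟨(mem_of_dvd hl ((FX j hj hn θ).map r) h8).mp ?_, ht0⟩
          rw [← map_pow]
          exact ⟨_, h9, rfl⟩
      rw [h6, Finset.sum_filter]
      refine Finset.sum_congr rfl fun e _ => ?_
      split_ifs
      · rfl
      · rw [mul_zero]
    rw [h5, hA_sum _ ht0, ← hti, map_mul]
    linear_combination ((t : RR p) ^ 2 * vv p t * cl p (ndeg θ)) * vv_mul p hi0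
  rw [Finset.sum_congr rfl e4, Finset.sum_comm]
  refine Finset.sum_congr rfl fun e _ => ?_
  rw [← Finset.mul_sum]
  congr 1
  rw [BB_eq, Finset.sum_filter]

end main

end Pool.Agent.Run7.h45.IA
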