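import Pool.Agent.Run7.h45.IA3

/-!
# Comparison of the numbers of invariant characters
-/

set_option autoImplicit false
set_option linter.unusedSectionVars false
set_option linter.style.haveILetI false

open scoped BigOperators Classical

noncomputable section

namespace Pool.Agent.Run7.h45.IA

open Pool.Agent.K3h83.IN
open Pool.Agent.Helper884 Pool.Agent.K3h3.KB Pool.Agent.K3h3.MK
open Pool.Agent.H254R3.IN (IsIrr mem_Irr)
open Pool.Agent.Run7.h45.IN (wt_inf)
open IC (Irr)

theorem orderOf_gen {Q : Type} [Group Q] [Finite Q] {g : Q} (hg : ∀ x : Q, x ∈ Subgroup.zpowers g)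
    {e : ℕ} (he : e ∣ Nat.card Q) : orderOf (g ^ (Nat.card Q / e)) = e := by
  haveI := Fintype.ofFinite Q
  have ho : orderOf g = Nat.card Q := orderOf_eq_card_of_forall_mem_zpowers hg
  have he0 : 0 < e := Nat.pos_of_dvd_of_pos he Nat.card_pos
  rw [orderOf_pow, ho]
  obtain ⟨c, hc⟩ := he
  have hc0 : 0 < c := by
    rcases Nat.eq_zero_or_pos c with h | h
    · rw [h, mul_zero] at hc
      exact absurd hc Nat.card_pos.ne'
    · exact h
  rw [hc, Nat.mul_div_cancel_left _ he0, Nat.gcd_eq_right (Dvd.intro_left _ rfl),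
    Nat.mul_div_cancel _ hc0]

section main

variable {p : ℕ} [hp : Fact p.Prime] {K L Q : Type} [Group K] [Finite K] [Group L] [Finite L]
  [Group Q] [Finite Q]

/-- the formula for the intermediate groups -/
theorem formula_sub (j : K →* L) (hj : Function.Injective j)
    (r : L →* Q) (hr : Function.Surjective r) (hrk : r.ker = j.range) (hpQ : ¬ p ∣ Nat.card Q)
    (l : L) (hl : ∀ x : Q, x ∈ Subgroup.zpowers (r l)) {d : ℕ} (hd : d ∣ Nat.card Q) :
    (d : RR p) * vv p d *
      wt (cl p) ((Subgroup.zpowers ((r l) ^ (Nat.card Q / d))).comap r : Subgroup L) =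
      ∑ e ∈ d.divisors, hA (vv p) e * BB p j (l ^ (Nat.card Q / e)) := by
  haveI := Fintype.ofFinite K
  set U := Subgroup.zpowers ((r l) ^ (Nat.card Q / d)) with hU
  have hcU : Nat.card U = d := by
    rw [hU, Nat.card_zpowers, orderOf_gen hl hd]
  have hjM : ∀ k, j k ∈ U.comap r := by
    intro k
    have h1 : j k ∈ r.ker := by
      rw [hrk]
      exact ⟨k, rfl⟩
    rw [Subgroup.mem_comap, MonoidHom.mem_ker.mp h1]
    exact U.one_mem
  have hl' : l ^ (Nat.card Q / d) ∈ U.comap r := by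
    rw [Subgroup.mem_comap, map_pow]
    exact Subgroup.mem_zpowers _
  obtain ⟨P⟩ : Nonempty (Sylow p (U.comap r)) := inferInstance
  have hd0 : 0 < d := Nat.pos_of_dvd_of_pos hd Nat.card_pos
  have h1 := formula (p := p) (j.codRestrict (U.comap r) hjM)
    (fun a b hab => hj (congrArg Subtype.val hab)) (r.subgroupComap U)
    (fun u => by
      obtain ⟨x, hx⟩ := hr u
      exact ⟨⟨x, by rw [Subgroup.mem_comap, hx]; exact u.2⟩, Subtype.ext hx⟩) ?_
    (by rw [hcU]; exact fun h => hpQ (h.trans hd)) P ⟨l ^ (Nat.card Q / d), hl'⟩ ?_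
  · rw [hcU] at h1
    rw [h1]
    refine Finset.sum_congr rfl fun e he => ?_
    congr 1
    rw [BB_eq, BB_eq]
    refine Finset.sum_congr (Finset.filter_congr fun θ _ => ?_) fun _ _ => rfl
    have hed : e ∣ d := (Nat.mem_divisors.mp he).1
    have h2 : ((⟨l ^ (Nat.card Q / d), hl'⟩ ^ (d / e) : (U.comap r : Subgroup L)) : L) =
        l ^ (Nat.card Q / e) := by
      rw [Subgroup.coe_pow, ← pow_mul]
      congr 1
      obtain ⟨c, hc⟩ := hd
      obtain ⟨b, rfl⟩ := hed
      have he0 : 0 < e := Nat.pos_of_mul_pos_right hd0 |> fun h => by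
        rcases Nat.eq_zero_or_pos e with h' | h'
        · rw [h', zero_mul] at hd0
          exact absurd hd0 (lt_irrefl 0)
        · exact h'
      rw [hc, Nat.mul_div_cancel_left _ hd0, Nat.mul_div_cancel_left _ he0, mul_assoc,
        Nat.mul_div_cancel_left _ he0, mul_comm]
    rw [← h2]
    constructor
    · intro h a b hab
      exact h a b (Subtype.ext hab)
    · intro h a b hab
      exact h a b (congrArg Subtype.val hab)
  · ext x
    rw [MonoidHom.mem_ker]
    constructor
    · intro hx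
      have h1 : r x = 1 := congrArg Subtype.val hx
      have h2 : (x : L) ∈ r.ker := h1
      rw [hrk] at h2
      obtain ⟨k, hk⟩ := h2
      exact ⟨k, Subtype.ext hk⟩
    · rintro ⟨k, rfl⟩
      apply Subtype.ext
      have h2 : j k ∈ r.ker := by
        rw [hrk]
        exact ⟨k, rfl⟩
      exact h2
  · rintro ⟨x, hx⟩
    obtain ⟨i, hi⟩ := Subgroup.mem_zpowers_iff.mp hx
    refine Subgroup.mem_zpowers_iff.mpr ⟨i, Subtype.ext ?_⟩
    rw [Subgroup.coe_zpow]
    change (r (l ^ (Nat.card Q / d))) ^ i = x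
    rw [map_pow]
    exact hi

/-- **Comparison.** -/
theorem compare {K₂ L₂ : Type} [Group K₂] [Finite K₂] [Group L₂] [Finite L₂]
    (j : K →* L) (hj : Function.Injective j)
    (r : L →* Q) (hr : Function.Surjective r) (hrk : r.ker = j.range) (hpQ : ¬ p ∣ Nat.card Q)
    (l : L) (hl : ∀ x : Q, x ∈ Subgroup.zpowers (r l))
    (j₂ : K₂ →* L₂) (hj₂ : Function.Injective j₂)
    (r₂ : L₂ →* Q) (hr₂ : Function.Surjective r₂) (hrk₂ : r₂.ker = j₂.range)
    (l₂ : L₂) (hl₂ : r₂ l₂ = r l)
    (hyp : ∀ U : Subgroup Q, wt (cl p) (U.comap r : Subgroup L) =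
      wt (cl p) (U.comap r₂ : Subgroup L₂)) :
    ∀ d : ℕ, d ∣ Nat.card Q → BB p j (l ^ (Nat.card Q / d)) = BB p j₂ (l₂ ^ (Nat.card Q / d)) := by
  intro d
  induction d using Nat.strong_induction_on with
  | _ d ih =>
    intro hd
    have h1 := formula_sub j hj r hr hrk hpQ l hl hd
    have h2 := formula_sub j₂ hj₂ r₂ hr₂ hrk₂ hpQ l₂ (by rw [hl₂]; exact hl) hd
    rw [hl₂, ← hyp, h1] at h2
    have hd0 : 0 < d := Nat.pos_of_dvd_of_pos hd Nat.card_pos
    rw [← Nat.insert_self_properDivisors hd0.ne', Finset.sum_insert Nat.self_notMem_properDivisors,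
      Finset.sum_insert Nat.self_notMem_properDivisors] at h2
    have h3 : ∑ e ∈ d.properDivisors, hA (vv p) e * BB p j (l ^ (Nat.card Q / e)) =
        ∑ e ∈ d.properDivisors, hA (vv p) e * BB p j₂ (l₂ ^ (Nat.card Q / e)) := by
      refine Finset.sum_congr rfl fun e he => ?_
      rw [Nat.mem_properDivisors] at he
      rw [ih e he.2 (he.1.trans hd)]
    rw [h3] at h2
    have h4 := add_right_cancel h2
    have h5 : hA (vv p) d * (BB p j (l ^ (Nat.card Q / d)) - BB p j₂ (l₂ ^ (Nat.card Q / d))) = 0 := by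
      rw [mul_sub, h4, sub_self]
    have hp1 : 0 < p - 1 := by
      have := hp.out.two_le
      omega
    refine sub_eq_zero.mp (hA_nzd (tfree p) (vv p) hp1 hd0.ne' (fun q hq hqd => ?_) h5)
    refine vv_pow p fun h => hpQ ?_
    rw [ZMod.natCast_eq_zero_iff] at h
    exact h.trans (hqd.trans hd)

end main

section fin

variable {p : ℕ} [hp : Fact p.Prime] {L : Type} [Group L] [Finite L]

/-- **Invariant characters.** -/
theorem inv_counts (K : Subgroup L) [K.Normal] (hK : ¬ p ∣ K.index) (P : Sylow p L) (l : L)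
    (hlP : l ∈ NN P) (hgen : K ⊔ Subgroup.zpowers l = ⊤)
    (hyp : ∀ (S : Subgroup L) (_ : S.Normal) (_ : IsCyclic (L ⧸ S)) (_ : ¬ p ∣ S.index)
      (hPS : (P : Subgroup L) ≤ S), wt (cl p) S = wt (cl p) (NN (P.subtype hPS))) :
    BB p K.subtype l = BB p ((K.subgroupOf (NN P)).subtype) ⟨l, hlP⟩ := by
  have hrk : (QuotientGroup.mk' K).ker = K.subtype.range := by
    rw [QuotientGroup.ker_mk', Subgroup.range_subtype]
  have hg : ∀ x : L ⧸ K, x ∈ Subgroup.zpowers (QuotientGroup.mk' K l) := by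
    have h1 : (K ⊔ Subgroup.zpowers l).map (QuotientGroup.mk' K) = ⊤ := by
      rw [hgen, ← MonoidHom.range_eq_map]
      exact MonoidHom.range_eq_top.mpr (QuotientGroup.mk'_surjective K)
    rw [Subgroup.map_sup, MonoidHom.map_zpowers] at h1
    have h2 : K.map (QuotientGroup.mk' K) = ⊥ := by
      rw [Subgroup.map_eq_bot_iff, QuotientGroup.ker_mk']
    rw [h2, bot_sup_eq] at h1
    intro x
    rw [h1]
    trivial
  have hcyc : IsCyclic (L ⧸ K) := ⟨⟨_, hg⟩⟩
  letI : CommGroup (L ⧸ K) := IsCyclic.commGroup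
  have hpQ : ¬ p ∣ Nat.card (L ⧸ K) := hK
  obtain ⟨hPk, hN⟩ := frat (QuotientGroup.mk' K) (QuotientGroup.mk'_surjective K) hpQ P
  have hr₂ : Function.Surjective ((QuotientGroup.mk' K).comp (NN P).subtype) := by
    intro x
    have h1 : x ∈ (NN P).map (QuotientGroup.mk' K) := by
      rw [hN]
      trivial
    obtain ⟨n, hn, hx⟩ := h1
    exact ⟨⟨n, hn⟩, hx⟩
  have hrk₂ : ((QuotientGroup.mk' K).comp (NN P).subtype).ker =
      (K.subgroupOf (NN P)).subtype.range := by
    rw [Subgroup.range_subtype]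
    ext x
    rw [MonoidHom.mem_ker, Subgroup.mem_subgroupOf]
    exact QuotientGroup.eq_one_iff _
  have h := compare (p := p) K.subtype K.subtype_injective (QuotientGroup.mk' K)
    (QuotientGroup.mk'_surjective K) hrk hpQ l hg (K.subgroupOf (NN P)).subtype
    (Subgroup.subtype_injective _) ((QuotientGroup.mk' K).comp (NN P).subtype) hr₂ hrk₂ ⟨l, hlP⟩ rfl
    (fun U => ?_) (Nat.card (L ⧸ K)) (dvd_refl _)
  · rw [Nat.div_self Nat.card_pos, pow_one, pow_one] at h
    exact h
  · have hPS : (P : Subgroup L) ≤ U.comap (QuotientGroup.mk' K) := by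
      intro x hx
      have h1 := hPk hx
      rw [MonoidHom.mem_ker] at h1
      rw [Subgroup.mem_comap, h1]
      exact U.one_mem
    have hU : U.Normal := inferInstance
    have hKS : K ≤ U.comap (QuotientGroup.mk' K) := by
      intro x hx
      rw [Subgroup.mem_comap, QuotientGroup.mk'_apply, (QuotientGroup.eq_one_iff x).mpr hx]
      exact U.one_mem
    rw [hyp (U.comap (QuotientGroup.mk' K)) inferInstance ?_ ?_ hPS, ← wt_inf P hPS]
    · refine wt_congr (cl p)
        { toFun := fun x => ⟨⟨x.1, x.2.2⟩, x.2.1⟩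
          invFun := fun y => ⟨y.1.1, y.2, y.1.2⟩
          left_inv := fun _ => rfl
          right_inv := fun _ => rfl
          map_mul' := fun _ _ => rfl }
    · refine isCyclic_of_surjective (QuotientGroup.map K (U.comap (QuotientGroup.mk' K))
        (MonoidHom.id L) hKS) fun x => ?_
      obtain ⟨y, rfl⟩ := QuotientGroup.mk'_surjective _ x
      exact ⟨QuotientGroup.mk' K y, rfl⟩
    · rw [Subgroup.index_comap_of_surjective _ (QuotientGroup.mk'_surjective K)]
      exact fun h => hpQ (h.trans (Subgroup.index_dvd_card U))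

end fin

end Pool.Agent.Run7.h45.IA
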