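import Pool.Agent.Run7.h45.IA4
import Pool.Agent.Q259.BW.Mark

/-!
# Equivariant bijections
-/

set_option autoImplicit false
set_option linter.unusedSectionVars false
set_option linter.style.haveILetI false

open scoped BigOperators Classical

noncomputable section

namespace Pool.Agent.Run7.h45.IA

open Pool.Agent.K3h83.IN
open Pool.Agent.Helper884 Pool.Agent.K3h3.KB Pool.Agent.K3h3.MK
open Pool.Agent.H254R3.IN (IsIrr mem_Irr)
open Pool.Agent.Run7.h45.IN (wt_inf)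
open Pool.Agent.Q259.BW (fxp iso_of_marks)
open IC (Irr)

section coe

variable {p : ℕ} [hp : Fact p.Prime]

theorem coeff_cl (n : ℕ) (c : (ZMod p)ˣ) :
    (cl p n).coeff c = if ((n : ZMod p)) ^ 2 = (c : ZMod p) then 1 else 0 := by
  by_cases h : (n : ZMod p) = 0
  · have h1 : cl p n = 0 := by
      change cls p n = 0
      unfold cls
      rw [dif_pos h]
    rw [h1, h, if_neg]
    · rfl
    · rw [zero_pow two_ne_zero]
      exact fun h2 => c.ne_zero h2.symm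
  · rw [cl_apply p h, MonoidAlgebra.coeff_single, Finsupp.single_apply]
    refine if_congr ?_ rfl rfl
    rw [Units.ext_iff, Units.val_pow_eq_pow_val, Units.val_mk0]

theorem coeff_BB {K L : Type} [Group K] [Finite K] [Group L] [Finite L] (j : K →* L) (x : L)
    (c : (ZMod p)ˣ) : (BB p j x).coeff c =
      ({ψ : K → ℂ | (IsIrr ψ ∧ ((ndeg ψ : ZMod p)) ^ 2 = (c : ZMod p)) ∧ fixes j ψ x}.ncard : ℤ) := by
  haveI := Fintype.ofFinite K
  rw [BB_eq, MonoidAlgebra.coeff_sum, Finsupp.finsetSum_apply, Finset.sum_congr rfl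
    (g := fun θ => if ((ndeg θ : ZMod p)) ^ 2 = (c : ZMod p) then (1 : ℤ) else 0)
    fun θ _ => coeff_cl _ _, Finset.sum_boole, Finset.filter_filter, Set.ncard_eq_toFinset_card _
    ((IC.irr_finite (G := K)).subset fun ψ hψ => hψ.1.1)]
  congr 2
  ext θ
  rw [Finset.mem_filter, Set.Finite.mem_toFinset, Set.mem_ofPred_eq, mem_Irr]
  tauto

end coe

section act

variable {L : Type} [Group L]

/-- the action of `N` on the functions on `H` by conjugation -/
@[instance_reducible] def cAct (N H : Subgroup L) (hH : ∀ n ∈ N, ∀ h ∈ H, n * h * n⁻¹ ∈ H) :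
    MulAction N (H → ℂ) where
  smul n ψ := fun h => ψ ⟨(n : L)⁻¹ * h * n, by
    have := hH (n : L)⁻¹ (N.inv_mem n.2) h h.2
    rwa [inv_inv] at this⟩
  one_smul ψ := funext fun h => congrArg ψ (Subtype.ext (by
    change ((1 : N) : L)⁻¹ * h * ((1 : N) : L) = h
    rw [Subgroup.coe_one]
    group))
  mul_smul n m ψ := funext fun h => congrArg ψ (Subtype.ext (by
    change ((n * m : N) : L)⁻¹ * h * ((n * m : N) : L) = (m : L)⁻¹ * ((n : L)⁻¹ * h * n) * m
    rw [Subgroup.coe_mul]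
    group))

theorem smul_eq_iff {N H : Subgroup L} (hH : ∀ n ∈ N, ∀ h ∈ H, n * h * n⁻¹ ∈ H) (n : N)
    (ψ χ : H → ℂ) : (cAct N H hH).smul n ψ = χ ↔ ∀ g h : H, (h : L) = n * g * (n : L)⁻¹ → χ h = ψ g := by
  constructor
  · rintro rfl g h hgh
    refine congrArg ψ (Subtype.ext ?_)
    change (n : L)⁻¹ * h * n = g
    rw [hgh]
    group
  · intro h1
    funext h
    refine (h1 _ h ?_).symm
    change (h : L) = n * ((n : L)⁻¹ * h * n) * (n : L)⁻¹
    group

end act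

section fixd

variable {p : ℕ} [hp : Fact p.Prime] {K L Q : Type} [Group K] [Finite K] [Group L] [Finite L]
  [Group Q] [Finite Q]

/-- fixed characters depend only on the image of the group in the cyclic quotient -/
theorem fix_iff (j : K →* L) (hj : Function.Injective j)
    (r : L →* Q) (hrk : r.ker = j.range) (l : L) (hl : ∀ x : Q, x ∈ Subgroup.zpowers (r l))
    (D : Set L) (U : Subgroup Q) (hU : ∀ u, u ∈ U ↔ ∃ x ∈ D, r x = u) {ψ : K → ℂ} (hψ : IsIrr ψ) :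
    (∀ x ∈ D, fixes j ψ x) ↔ fixes j ψ (l ^ (Nat.card Q / Nat.card U)) := by
  have hn : j.range.Normal := by
    rw [← hrk]
    infer_instance
  have hker : r.ker ≤ FX j hj hn ψ := by
    rw [hrk]
    exact range_le hψ
  have hdv : Nat.card U ∣ Nat.card Q := Subgroup.card_subgroup_dvd_card U
  have key : ∀ x y : L, r x = r y → x ∈ FX j hj hn ψ → y ∈ FX j hj hn ψ := by
    intro x y hxy hx
    have h9 : x⁻¹ * y ∈ r.ker := by
      rw [MonoidHom.mem_ker, map_mul, map_inv, hxy, inv_mul_cancel]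
    have h10 := (FX j hj hn ψ).mul_mem hx (hker h9)
    rwa [mul_inv_cancel_left] at h10
  have hg : (r l) ^ (Nat.card Q / Nat.card U) ∈ U := (mem_of_dvd hl U hdv).mpr (dvd_refl _)
  constructor
  · intro h
    obtain ⟨x, hx, hxu⟩ := (hU _).mp hg
    refine key x _ ?_ (h x hx)
    rw [hxu, map_pow]
  · intro h x hx
    have h1 : r x ∈ U := (hU _).mpr ⟨x, hx, rfl⟩
    have h2 : Subgroup.zpowers ((r l) ^ (Nat.card Q / Nat.card U)) = U := by
      refine Subgroup.eq_of_le_of_card_ge ?_ ?_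
      · rw [Subgroup.zpowers_le]
        exact hg
      · rw [Nat.card_zpowers, orderOf_gen hl hdv]
    rw [← h2] at h1
    obtain ⟨i, hi⟩ := Subgroup.mem_zpowers_iff.mp h1
    refine key ((l ^ (Nat.card Q / Nat.card U)) ^ i) x ?_ ((FX j hj hn ψ).zpow_mem h i)
    rw [map_zpow, map_pow, hi]

end fixd

section fin

variable {p : ℕ} [hp : Fact p.Prime] {L : Type} [Group L] [Finite L]

/-- **Equivariant bijections.** -/
theorem equi (K : Subgroup L) [K.Normal] (hK : ¬ p ∣ K.index) (hcyc : IsCyclic (L ⧸ K)) (P : Sylow p L)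
    (hyp : ∀ (S : Subgroup L) (_ : K ≤ S) (_ : S.Normal) (_ : IsCyclic (L ⧸ S)) (_ : ¬ p ∣ S.index)
      (hPS : (P : Subgroup L) ≤ S), wt (cl p) S = wt (cl p) (NN (P.subtype hPS))) :
    ∃ f : (K → ℂ) → ((K ⊓ NN P : Subgroup L) → ℂ),
      Set.BijOn f {ψ | IsIrr ψ ∧ (ndeg ψ : ZMod p) ≠ 0} {ψ | IsIrr ψ ∧ (ndeg ψ : ZMod p) ≠ 0} ∧
      (∀ ψ, IsIrr ψ → (ndeg ψ : ZMod p) ≠ 0 →
        ((ndeg (f ψ) : ZMod p)) ^ 2 = ((ndeg ψ : ZMod p)) ^ 2) ∧
      ∀ n ∈ NN P, ∀ ψ χ : K → ℂ, IsIrr ψ → (ndeg ψ : ZMod p) ≠ 0 →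
        (∀ g h : K, (h : L) = n * g * n⁻¹ → χ h = ψ g) →
        ∀ g h : (K ⊓ NN P : Subgroup L), (h : L) = n * g * n⁻¹ → f χ h = f ψ g := by
  haveI := Fintype.ofFinite K
  haveI := Fintype.ofFinite (K ⊓ NN P : Subgroup L)
  set K₂ : Subgroup L := K ⊓ NN P with hK₂
  have hrk : (QuotientGroup.mk' K).ker = K.subtype.range := by
    rw [QuotientGroup.ker_mk', Subgroup.range_subtype]
  letI : CommGroup (L ⧸ K) := IsCyclic.commGroup
  have hpQ : ¬ p ∣ Nat.card (L ⧸ K) := hK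
  obtain ⟨hPk, hN⟩ := frat (QuotientGroup.mk' K) (QuotientGroup.mk'_surjective K) hpQ P
  have hr₂ : Function.Surjective ((QuotientGroup.mk' K).comp (NN P).subtype) := by
    intro x
    have h1 : x ∈ (NN P).map (QuotientGroup.mk' K) := by
      rw [hN]
      trivial
    obtain ⟨n, hn, hx⟩ := h1
    exact ⟨⟨n, hn⟩, hx⟩
  obtain ⟨g, hg⟩ := hcyc.exists_generator
  obtain ⟨⟨l, hlP⟩, hlg⟩ := hr₂ g
  have hlg' : QuotientGroup.mk' K l = g := hlg
  have hl : ∀ x : L ⧸ K, x ∈ Subgroup.zpowers (QuotientGroup.mk' K l) := by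
    rw [hlg']
    exact hg
  let j₂ : K₂ →* NN P := Subgroup.inclusion inf_le_right
  have hj₂ : Function.Injective j₂ := Subgroup.inclusion_injective _
  have hrk₂ : ((QuotientGroup.mk' K).comp (NN P).subtype).ker = j₂.range := by
    ext x
    rw [MonoidHom.mem_ker]
    constructor
    · intro hx
      have h1 : (x : L) ∈ K := (QuotientGroup.eq_one_iff _).mp hx
      exact ⟨⟨x, h1, x.2⟩, rfl⟩
    · rintro ⟨k, rfl⟩
      exact (QuotientGroup.eq_one_iff _).mpr k.2.1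
  have hcmp := compare (p := p) K.subtype K.subtype_injective (QuotientGroup.mk' K)
    (QuotientGroup.mk'_surjective K) hrk hpQ l hl j₂ hj₂
    ((QuotientGroup.mk' K).comp (NN P).subtype) hr₂ hrk₂ ⟨l, hlP⟩ rfl (fun U => by
      have hPS : (P : Subgroup L) ≤ U.comap (QuotientGroup.mk' K) := by
        intro x hx
        have h1 := hPk hx
        rw [MonoidHom.mem_ker] at h1
        rw [Subgroup.mem_comap, h1]
        exact U.one_mem
      have hKS : K ≤ U.comap (QuotientGroup.mk' K) := by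
        intro x hx
        rw [Subgroup.mem_comap, QuotientGroup.mk'_apply, (QuotientGroup.eq_one_iff x).mpr hx]
        exact U.one_mem
      rw [hyp (U.comap (QuotientGroup.mk' K)) hKS inferInstance ?_ ?_ hPS, ← wt_inf P hPS]
      · refine wt_congr (cl p)
          { toFun := fun x => ⟨⟨x.1, x.2.2⟩, x.2.1⟩
            invFun := fun y => ⟨y.1.1, y.2, y.1.2⟩
            left_inv := fun _ => rfl
            right_inv := fun _ => rfl
            map_mul' := fun _ _ => rfl }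
      · refine isCyclic_of_surjective (QuotientGroup.map K (U.comap (QuotientGroup.mk' K))
          (MonoidHom.id L) hKS) fun x => ?_
        obtain ⟨y, rfl⟩ := QuotientGroup.mk'_surjective _ x
        exact ⟨QuotientGroup.mk' K y, rfl⟩
      · rw [Subgroup.index_comap_of_surjective _ (QuotientGroup.mk'_surjective K)]
        exact fun h => hpQ (h.trans (Subgroup.index_dvd_card U)))
  have hH : ∀ n ∈ NN P, ∀ h ∈ K, n * h * n⁻¹ ∈ K := fun n _ h hh =>
    (inferInstance : K.Normal).conj_mem h hh n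
  have hH₂ : ∀ n ∈ NN P, ∀ h ∈ K₂, n * h * n⁻¹ ∈ K₂ := fun n hn h hh =>
    ⟨hH n hn h hh.1, (NN P).mul_mem ((NN P).mul_mem hn hh.2) ((NN P).inv_mem hn)⟩
  -- the single classes
  have one : ∀ c : (ZMod p)ˣ, ∃ f : (K → ℂ) → (K₂ → ℂ),
      Set.BijOn f {ψ | IsIrr ψ ∧ ((ndeg ψ : ZMod p)) ^ 2 = (c : ZMod p)}
        {ψ | IsIrr ψ ∧ ((ndeg ψ : ZMod p)) ^ 2 = (c : ZMod p)} ∧
      ∀ n : NN P, ∀ ψ ∈ {ψ : K → ℂ | IsIrr ψ ∧ ((ndeg ψ : ZMod p)) ^ 2 = (c : ZMod p)},
        f ((cAct (NN P) K hH).smul n ψ) = (cAct (NN P) K₂ hH₂).smul n (f ψ) := by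
    intro c
    have stab : ∀ (H : Subgroup L) [Fintype H] (hHH : ∀ n ∈ NN P, ∀ h ∈ H, n * h * n⁻¹ ∈ H)
        (n : NN P) (ψ : H → ℂ), ψ ∈ {ψ : H → ℂ | IsIrr ψ ∧ ((ndeg ψ : ZMod p)) ^ 2 = (c : ZMod p)} →
        (cAct (NN P) H hHH).smul n ψ ∈
          {ψ : H → ℂ | IsIrr ψ ∧ ((ndeg ψ : ZMod p)) ^ 2 = (c : ZMod p)} := by
      intro H _ hHH n ψ hψ
      let e : H ≃* H :=
        { toFun := fun h => ⟨(n : L)⁻¹ * h * n, by
            have := hHH (n : L)⁻¹ ((NN P).inv_mem n.2) h h.2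
            rwa [inv_inv] at this⟩
          invFun := fun h => ⟨(n : L) * h * (n : L)⁻¹, hHH n n.2 h h.2⟩
          left_inv := fun h => Subtype.ext (by
            change (n : L) * ((n : L)⁻¹ * h * n) * (n : L)⁻¹ = h
            group)
          right_inv := fun h => Subtype.ext (by
            change (n : L)⁻¹ * ((n : L) * h * (n : L)⁻¹) * n = h
            group)
          map_mul' := fun a b => Subtype.ext (by
            change (n : L)⁻¹ * ((a * b : H) : L) * n = ((n : L)⁻¹ * a * n) * ((n : L)⁻¹ * b * n)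
            rw [Subgroup.coe_mul]
            group) }
      refine ⟨Pool.Agent.Q90.WR.irr_comp e hψ.1, ?_⟩
      have h1 : ndeg ((cAct (NN P) H hHH).smul n ψ) = ndeg ψ := by
        unfold ndeg
        have h2 : (cAct (NN P) H hHH).smul n ψ 1 = ψ 1 := congrArg ψ (map_one e)
        rw [h2]
      rw [h1]
      exact hψ.2
    have hm : ∀ D : Subgroup (NN P), (@fxp (NN P) (K → ℂ) _ (cAct (NN P) K hH)
          {ψ | IsIrr ψ ∧ ((ndeg ψ : ZMod p)) ^ 2 = (c : ZMod p)} D).ncard =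
        (@fxp (NN P) (K₂ → ℂ) _ (cAct (NN P) K₂ hH₂)
          {ψ | IsIrr ψ ∧ ((ndeg ψ : ZMod p)) ^ 2 = (c : ZMod p)} D).ncard := by
      intro D
      set U : Subgroup (L ⧸ K) := D.map ((QuotientGroup.mk' K).comp (NN P).subtype) with hU
      have h3 := hcmp (Nat.card U) (Subgroup.card_subgroup_dvd_card U)
      have h4 := congrArg (fun z : RR p => z.coeff c) h3
      simp only [coeff_BB] at h4
      have h5 := Int.natCast_inj.mp h4
      have e1 : @fxp (NN P) (K → ℂ) _ (cAct (NN P) K hH)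
          {ψ | IsIrr ψ ∧ ((ndeg ψ : ZMod p)) ^ 2 = (c : ZMod p)} D =
          {ψ : K → ℂ | (IsIrr ψ ∧ ((ndeg ψ : ZMod p)) ^ 2 = (c : ZMod p)) ∧
            fixes K.subtype ψ (l ^ (Nat.card (L ⧸ K) / Nat.card U))} := by
        ext ψ
        refine and_congr_right fun hψ => ?_
        rw [← fix_iff K.subtype K.subtype_injective (QuotientGroup.mk' K) hrk l hl
          ((fun x : NN P => (x : L)) '' (D : Set (NN P))) U (fun u => ?_) hψ.1]
        · constructor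
          · rintro h6 _ ⟨n, hn, rfl⟩ a b hab
            exact (smul_eq_iff hH n ψ ψ).mp (h6 n hn) a b hab.symm
          · intro h6 n hn
            exact (smul_eq_iff hH n ψ ψ).mpr fun a b hab => h6 n ⟨n, hn, rfl⟩ a b hab.symm
        · constructor
          · rintro ⟨n, hn, rfl⟩
            exact ⟨n, ⟨n, hn, rfl⟩, rfl⟩
          · rintro ⟨_, ⟨n, hn, rfl⟩, rfl⟩
            exact ⟨n, hn, rfl⟩
      have e2 : @fxp (NN P) (K₂ → ℂ) _ (cAct (NN P) K₂ hH₂)
          {ψ | IsIrr ψ ∧ ((ndeg ψ : ZMod p)) ^ 2 = (c : ZMod p)} D =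
          {ψ : K₂ → ℂ | (IsIrr ψ ∧ ((ndeg ψ : ZMod p)) ^ 2 = (c : ZMod p)) ∧
            fixes j₂ ψ ((⟨l, hlP⟩ : NN P) ^ (Nat.card (L ⧸ K) / Nat.card U))} := by
        ext ψ
        refine and_congr_right fun hψ => ?_
        rw [← fix_iff j₂ hj₂ ((QuotientGroup.mk' K).comp (NN P).subtype) hrk₂ ⟨l, hlP⟩ hl
          (D : Set (NN P)) U (fun u => ?_) hψ.1]
        · constructor
          · intro h6 n hn a b hab
            exact (smul_eq_iff hH₂ n ψ ψ).mp (h6 n hn) a b (congrArg Subtype.val hab).symm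
          · intro h6 n hn
            exact (smul_eq_iff hH₂ n ψ ψ).mpr fun a b hab => h6 n hn a b (Subtype.ext hab.symm)
        · exact Iff.rfl
      rw [e1, e2]
      exact h5
    obtain ⟨f, h1, h2⟩ := @iso_of_marks (NN P) (K → ℂ) (K₂ → ℂ) _ (cAct (NN P) K hH)
      (cAct (NN P) K₂ hH₂) _ {ψ | IsIrr ψ ∧ ((ndeg ψ : ZMod p)) ^ 2 = (c : ZMod p)}
      {ψ | IsIrr ψ ∧ ((ndeg ψ : ZMod p)) ^ 2 = (c : ZMod p)}
      ((IC.irr_finite (G := K)).subset fun ψ hψ => hψ.1)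
      ((IC.irr_finite (G := K₂)).subset fun ψ hψ => hψ.1) rfl
      (fun n ψ hψ => stab K hH n ψ hψ) (fun n ψ hψ => stab K₂ hH₂ n ψ hψ) hm inferInstance
    exact ⟨f, h1, fun n ψ hψ => h2 n ψ hψ⟩
  choose F hF1 hF2 using one
  -- all classes
  let cc : (K → ℂ) → (ZMod p)ˣ := fun ψ => if h : (ndeg ψ : ZMod p) = 0 then 1 else (Units.mk0 _ h) ^ 2
  have hcc : ∀ ψ : K → ℂ, (ndeg ψ : ZMod p) ≠ 0 → ((ndeg ψ : ZMod p)) ^ 2 = (cc ψ : ZMod p) := by
    intro ψ h
    simp only [cc, dif_neg h, Units.val_pow_eq_pow_val, Units.val_mk0]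
  have hcc' : ∀ (ψ : K → ℂ) (c : (ZMod p)ˣ), ((ndeg ψ : ZMod p)) ^ 2 = (c : ZMod p) → cc ψ = c := by
    intro ψ c h
    have h0 : (ndeg ψ : ZMod p) ≠ 0 := by
      intro h1
      rw [h1, zero_pow two_ne_zero] at h
      exact c.ne_zero h.symm
    apply Units.ext
    rw [← hcc ψ h0, h]
  have hne : ∀ {H : Type} [Group H] (ψ : H → ℂ) (c : (ZMod p)ˣ),
      ((ndeg ψ : ZMod p)) ^ 2 = (c : ZMod p) → (ndeg ψ : ZMod p) ≠ 0 := by
    intro H _ ψ c h h1
    rw [h1, zero_pow two_ne_zero] at h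
    exact c.ne_zero h.symm
  have hmem : ∀ ψ : K → ℂ, IsIrr ψ → (ndeg ψ : ZMod p) ≠ 0 →
      F (cc ψ) ψ ∈ {χ : K₂ → ℂ | IsIrr χ ∧ ((ndeg χ : ZMod p)) ^ 2 = (cc ψ : ZMod p)} := fun ψ h1 h2 =>
    (hF1 (cc ψ)).mapsTo ⟨h1, hcc ψ h2⟩
  refine ⟨fun ψ => F (cc ψ) ψ, ⟨?_, ?_, ?_⟩, ?_, ?_⟩
  · rintro ψ ⟨h1, h2⟩
    have h3 := hmem ψ h1 h2
    exact ⟨h3.1, hne _ _ h3.2⟩
  · rintro ψ ⟨h1, h2⟩ ψ' ⟨h1', h2'⟩ he
    have he' : F (cc ψ) ψ = F (cc ψ') ψ' := he
    have h3 := hmem ψ h1 h2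
    have h3' := hmem ψ' h1' h2'
    rw [he'] at h3
    have h4 : cc ψ = cc ψ' := Units.ext (h3.2.symm.trans h3'.2)
    rw [h4] at he'
    exact (hF1 (cc ψ')).injOn ⟨h1, by rw [hcc ψ h2, h4]⟩ ⟨h1', hcc ψ' h2'⟩ he'
  · rintro χ ⟨h1, h2⟩
    obtain ⟨ψ, ⟨h3, h4⟩, h5⟩ := (hF1 ((Units.mk0 _ h2) ^ 2)).surjOn
      (show χ ∈ {χ : K₂ → ℂ | IsIrr χ ∧ ((ndeg χ : ZMod p)) ^ 2 =
        (((Units.mk0 _ h2) ^ 2 : (ZMod p)ˣ) : ZMod p)} from ⟨h1, by
          rw [Units.val_pow_eq_pow_val, Units.val_mk0]⟩)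
    refine ⟨ψ, ⟨h3, hne _ _ h4⟩, ?_⟩
    change F (cc ψ) ψ = χ
    rw [hcc' ψ _ h4, h5]
  · intro ψ h1 h2
    rw [hcc ψ h2]
    exact (hmem ψ h1 h2).2
  · intro n hn ψ χ h1 h2 hχ
    have h3 : (cAct (NN P) K hH).smul ⟨n, hn⟩ ψ = χ := (smul_eq_iff hH ⟨n, hn⟩ ψ χ).mpr hχ
    have h4 := hF2 (cc ψ) ⟨n, hn⟩ ψ ⟨h1, hcc ψ h2⟩
    rw [h3] at h4
    have h5 : ndeg χ = ndeg ψ := by
      unfold ndeg
      rw [hχ 1 1 (by rw [Subgroup.coe_one]; group)]
    have h6 : cc χ = cc ψ := hcc' χ _ (by rw [h5, hcc ψ h2])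
    refine (smul_eq_iff hH₂ ⟨n, hn⟩ (F (cc ψ) ψ) (F (cc χ) χ)).mp ?_
    rw [h6]
    exact h4.symm

/-- the converse -/
theorem wt_of_BB (K : Subgroup L) [K.Normal] (hK : ¬ p ∣ K.index) (hcyc : IsCyclic (L ⧸ K))
    (P : Sylow p L) (hB : ∀ x : NN P, BB p K.subtype (x : L) =
      BB p (Subgroup.inclusion (inf_le_right : K ⊓ NN P ≤ NN P)) x)
    (M : Subgroup L) (hKM : K ≤ M) (R : Sylow p M) : wt (cl p) M = wt (cl p) (NN R) := by
  have hrk : (QuotientGroup.mk' K).ker = K.subtype.range := by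
    rw [QuotientGroup.ker_mk', Subgroup.range_subtype]
  have hpQ : ¬ p ∣ Nat.card (L ⧸ K) := hK
  obtain ⟨hPk, hN⟩ := frat (QuotientGroup.mk' K) (QuotientGroup.mk'_surjective K) hpQ P
  have hr₂ : Function.Surjective ((QuotientGroup.mk' K).comp (NN P).subtype) := by
    intro x
    have h1 : x ∈ (NN P).map (QuotientGroup.mk' K) := by
      rw [hN]
      trivial
    obtain ⟨n, hn, hx⟩ := h1
    exact ⟨⟨n, hn⟩, hx⟩
  obtain ⟨g, hg⟩ := hcyc.exists_generator
  obtain ⟨⟨l, hlP⟩, hlg⟩ := hr₂ g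
  have hlg' : QuotientGroup.mk' K l = g := hlg
  have hl : ∀ x : L ⧸ K, x ∈ Subgroup.zpowers (QuotientGroup.mk' K l) := by
    rw [hlg']
    exact hg
  have hrk₂ : ((QuotientGroup.mk' K).comp (NN P).subtype).ker =
      (Subgroup.inclusion (inf_le_right : K ⊓ NN P ≤ NN P)).range := by
    ext x
    rw [MonoidHom.mem_ker]
    constructor
    · intro hx
      have h1 : (x : L) ∈ K := (QuotientGroup.eq_one_iff _).mp hx
      exact ⟨⟨x, h1, x.2⟩, rfl⟩
    · rintro ⟨k, rfl⟩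
      exact (QuotientGroup.eq_one_iff _).mpr k.2.1
  set U : Subgroup (L ⧸ K) := M.map (QuotientGroup.mk' K) with hU
  have hMU : U.comap (QuotientGroup.mk' K) = M := by
    rw [hU, Subgroup.comap_map_eq, QuotientGroup.ker_mk']
    exact sup_eq_left.mpr hKM
  have hdv : Nat.card U ∣ Nat.card (L ⧸ K) := Subgroup.card_subgroup_dvd_card U
  have h2 : Subgroup.zpowers ((QuotientGroup.mk' K l) ^ (Nat.card (L ⧸ K) / Nat.card U)) = U := by
    refine Subgroup.eq_of_le_of_card_ge ?_ ?_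
    · rw [Subgroup.zpowers_le]
      exact (mem_of_dvd hl U hdv).mpr (dvd_refl _)
    · rw [Nat.card_zpowers, orderOf_gen hl hdv]
  have e1 := formula_sub (p := p) K.subtype K.subtype_injective (QuotientGroup.mk' K)
    (QuotientGroup.mk'_surjective K) hrk hpQ l hl hdv
  have e2 := formula_sub (p := p) (Subgroup.inclusion (inf_le_right : K ⊓ NN P ≤ NN P))
    (Subgroup.inclusion_injective _) ((QuotientGroup.mk' K).comp (NN P).subtype) hr₂ hrk₂ hpQ
    ⟨l, hlP⟩ hl hdv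
  have e3 : ((QuotientGroup.mk' K).comp (NN P).subtype) ⟨l, hlP⟩ = QuotientGroup.mk' K l := rfl
  rw [e3, h2] at e2
  rw [h2] at e1
  have e4 : ∑ e ∈ (Nat.card U).divisors, hA (vv p) e *
      BB p K.subtype (l ^ (Nat.card (L ⧸ K) / e)) = ∑ e ∈ (Nat.card U).divisors, hA (vv p) e *
      BB p (Subgroup.inclusion (inf_le_right : K ⊓ NN P ≤ NN P))
        ((⟨l, hlP⟩ : NN P) ^ (Nat.card (L ⧸ K) / e)) := by
    refine Finset.sum_congr rfl fun e _ => ?_
    rw [← hB]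
    rfl
  rw [e4, ← e2] at e1
  have hd0 : (Nat.card U : ZMod p) ≠ 0 := fun h =>
    hpQ (((ZMod.natCast_eq_zero_iff _ _).mp h).trans hdv)
  have e5 := congrArg (fun z => cl p (Nat.card U) * z) e1
  have e6 : (Nat.card U : RR p) * wt (cl p) (U.comap (QuotientGroup.mk' K) : Subgroup L) =
      (Nat.card U : RR p) *
        wt (cl p) (U.comap ((QuotientGroup.mk' K).comp (NN P).subtype) : Subgroup (NN P)) := by
    have h7 := vv_mul p hd0
    linear_combination e5 - (Nat.card U : RR p) *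
      (wt (cl p) (U.comap (QuotientGroup.mk' K) : Subgroup L) -
        wt (cl p) (U.comap ((QuotientGroup.mk' K).comp (NN P).subtype) : Subgroup (NN P))) * h7
  have e7 := natCast_mul_inj p Nat.card_pos.ne' e6
  have hPS : (P : Subgroup L) ≤ U.comap (QuotientGroup.mk' K) := by
    intro x hx
    have h1 := hPk hx
    rw [MonoidHom.mem_ker] at h1
    rw [Subgroup.mem_comap, h1]
    exact U.one_mem
  have e8 : wt (cl p) (U.comap ((QuotientGroup.mk' K).comp (NN P).subtype) : Subgroup (NN P)) =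
      wt (cl p) (U.comap (QuotientGroup.mk' K) ⊓ NN P : Subgroup L) :=
    wt_congr (cl p)
      { toFun := fun y => ⟨y.1.1, y.2, y.1.2⟩
        invFun := fun x => ⟨⟨x.1, x.2.2⟩, x.2.1⟩
        left_inv := fun _ => rfl
        right_inv := fun _ => rfl
        map_mul' := fun _ _ => rfl }
  rw [e8, wt_inf P hPS] at e7
  clear_value U
  subst hMU
  rw [e7]
  exact wt_NN (cl p) _ _

end fin

end Pool.Agent.Run7.h45.IA
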