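import Pool.Agent.K3h83.PI.Red

/-!
# Weighted numbers of characters of split extensions of abelian `p'`-groups, for the Sylow normalizers
-/

set_option autoImplicit false
set_option linter.unusedSectionVars false
set_option linter.style.haveILetI false

open scoped BigOperators Classical

noncomputable section

namespace Pool.Agent.Run7.h45.IN

open Pool.Agent.K3h83.IN
open Pool.Agent.Helper884 Pool.Agent.K3h3.KB Pool.Agent.K3h3.MK SemidirectProduct
open Pool.Agent.H254R3.IN (IsIrr mem_Irr)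
open Pool.Agent.Y62 (tw tw_irr)
open IC (Irr)

theorem tw_tw_inv {T : Type} [Group T] (μ : T →* ℂˣ) (χ : T → ℂ) : tw μ⁻¹ (tw μ χ) = χ := by
  funext g
  unfold tw
  rw [← mul_assoc, ← Units.val_mul, ← MonoidHom.mul_apply, inv_mul_cancel, MonoidHom.one_apply,
    Units.val_one, one_mul]

theorem tw_tw_inv' {T : Type} [Group T] (μ : T →* ℂˣ) (χ : T → ℂ) : tw μ (tw μ⁻¹ χ) = χ := by
  funext g
  unfold tw
  rw [← mul_assoc, ← Units.val_mul, ← MonoidHom.mul_apply, mul_inv_cancel, MonoidHom.one_apply,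
    Units.val_one, one_mul]

theorem ndeg_tw' {T : Type} [Group T] (μ : T →* ℂˣ) (χ : T → ℂ) : ndeg (tw μ χ) = ndeg χ := by
  unfold ndeg tw
  simp

theorem ov_tw {L T : Type} [Group L] [Finite L] [Group T] (j : L →* T) (μ : T →* ℂˣ) (θ : L → ℂ)
    (χ : T → ℂ) : ov j (fun l => ((μ (j l) : ℂˣ) : ℂ) * θ l) (tw μ χ) ↔ ov j θ χ := by
  haveI := Fintype.ofFinite L
  rw [ov_iff, ov_iff]
  have e : IC.B (fun l => tw μ χ (j l)) (fun l => ((μ (j l) : ℂˣ) : ℂ) * θ l) =
      IC.B (fun l => χ (j l)) θ := by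
    unfold IC.B tw
    congr 1
    refine Finset.sum_congr rfl fun l _ => ?_
    have h : ((μ (j l) : ℂˣ) : ℂ) * ((μ (j l⁻¹) : ℂˣ) : ℂ) = 1 := by
      rw [← Units.val_mul, ← map_mul, ← map_mul, mul_inv_cancel, map_one, map_one, Units.val_one]
    linear_combination (χ (j l) * θ l⁻¹) * h
  rw [e]

/-- twisting with a linear character -/
theorem wo_tw {R : Type} [CommRing R] (w : ℕ →* R) {L T : Type} [Group L] [Finite L] [Group T]
    [Finite T] (j : L →* T) (μ : T →* ℂˣ) (θ : L → ℂ) :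
    wo w j (fun l => ((μ (j l) : ℂˣ) : ℂ) * θ l) = wo w j θ := by
  haveI := Fintype.ofFinite T
  rw [wo_eq, wo_eq]
  symm
  refine Finset.sum_bij' (fun χ _ => tw μ χ) (fun χ _ => tw μ⁻¹ χ) ?_ ?_ ?_ ?_ ?_
  · intro χ hχ
    rw [Finset.mem_filter] at hχ ⊢
    exact ⟨mem_Irr.mpr (tw_irr μ (mem_Irr.mp hχ.1)), (ov_tw j μ θ χ).mpr hχ.2⟩
  · intro χ hχ
    rw [Finset.mem_filter] at hχ ⊢
    refine ⟨mem_Irr.mpr (tw_irr μ⁻¹ (mem_Irr.mp hχ.1)), ?_⟩
    rw [← ov_tw j μ, tw_tw_inv']
    exact hχ.2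
  · intro χ _
    exact tw_tw_inv μ χ
  · intro χ _
    exact tw_tw_inv' μ χ
  · intro χ _
    rw [ndeg_tw']

/-- the characters over a linear character which extends to its inertia group -/
theorem wo_lin {R : Type} [CommRing R] (w : ℕ →* R) {V G Q : Type} [CommGroup V] [Finite V] [Group G]
    [Finite G] [Group Q] [Finite Q] (j : V →* G) (hj : Function.Injective j) (hn : j.range.Normal)
    (θ : V →* ℂˣ) (T : Subgroup G) (hT : ∀ x, x ∈ T ↔ fixes j (fun v => ((θ v : ℂˣ) : ℂ)) x)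
    (jT : V →* T) (hjT : ∀ v, (jT v : G) = j v) (s : T →* ℂˣ) (hs : ∀ v, s (jT v) = θ v)
    (q : T →* Q) (hq : Function.Surjective q) (hk : q.ker = jT.range) :
    wo w j (fun v => ((θ v : ℂˣ) : ℂ)) = w T.index * wt w Q := by
  haveI := Fintype.ofFinite V
  rw [a_S1 R w V G j hj hn _ (lin_irr θ) T hT jT hjT]
  congr 1
  have h1 := wo_tw w jT s (fun _ : V => (1 : ℂ))
  have e : (fun v : V => ((s (jT v) : ℂˣ) : ℂ) * 1) = fun v => ((θ v : ℂˣ) : ℂ) := by
    funext v
    rw [hs, mul_one]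
  rw [e] at h1
  rw [h1]
  refine a_S8 R w V T Q jT (fun a b hab => hj ?_) q hq hk
  rw [← hjT, ← hjT, hab]

section sd

variable {V L : Type} [CommGroup V] [Group L] [Finite V] [Finite L] (φ : L →* MulAut V)

/-- the stabilizer of a linear character -/
def St (θ : V →* ℂˣ) : Subgroup L where
  carrier := {l | ∀ v, θ (φ l v) = θ v}
  mul_mem' := by
    intro a b ha hb v
    rw [map_mul, MulAut.mul_apply, ha, hb]
  one_mem' := by
    intro v
    rw [map_one, MulAut.one_apply]
  inv_mem' := by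
    intro a ha v
    have h := ha (φ a⁻¹ v)
    rw [← MulAut.mul_apply, ← map_mul, mul_inv_cancel, map_one, MulAut.one_apply] at h
    exact h.symm

variable {φ}

theorem mem_St {θ : V →* ℂˣ} {l : L} : l ∈ St φ θ ↔ ∀ v, θ (φ l v) = θ v := Iff.rfl

theorem conj_inl (x : V ⋊[φ] L) (v : V) : x * inl v * x⁻¹ = inl (φ x.right v) := by
  ext
  · rw [mul_left, mul_left, mul_right, left_inl, right_inl, mul_one, inv_left, left_inl,
      ← MulAut.mul_apply, ← map_mul, mul_inv_cancel, map_one, MulAut.one_apply,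
      mul_comm x.left, mul_assoc, mul_inv_cancel, mul_one]
  · simp

theorem fixes_inl (θ : V →* ℂˣ) (x : V ⋊[φ] L) :
    fixes (inl : V →* V ⋊[φ] L) (fun v => ((θ v : ℂˣ) : ℂ)) x ↔ x.right ∈ St φ θ := by
  constructor
  · intro h v
    exact Units.ext (h v (φ x.right v) (conj_inl x v))
  · intro h v v' hv
    rw [conj_inl] at hv
    rw [← inl_injective hv]
    exact congrArg _ (h v)

theorem inl_normal : (inl : V →* V ⋊[φ] L).range.Normal := by
  rw [range_inl_eq_ker_rightHom]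
  infer_instance

/-- the homomorphism into the inverse image of a subgroup -/
def jK (K : Subgroup L) : V →* (K.comap (rightHom : V ⋊[φ] L →* L) : Subgroup (V ⋊[φ] L)) :=
  inl.codRestrict _ fun v => by
    rw [Subgroup.mem_comap, rightHom_inl]
    exact K.one_mem

@[simp] theorem jK_coe (K : Subgroup L) (v : V) : (jK (φ := φ) K v : V ⋊[φ] L) = inl v := rfl

theorem jK_inj (K : Subgroup L) : Function.Injective (jK (φ := φ) K) := by
  intro a b h
  exact inl_injective (congrArg Subtype.val h)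

theorem jK_range (K : Subgroup L) :
    (jK (φ := φ) K).range = (inl : V →* V ⋊[φ] L).range.subgroupOf _ := by
  ext x
  rw [Subgroup.mem_subgroupOf]
  constructor
  · rintro ⟨l, rfl⟩
    exact ⟨l, rfl⟩
  · rintro ⟨l, hl⟩
    exact ⟨l, Subtype.ext hl⟩

theorem jK_normal (K : Subgroup L) : (jK (φ := φ) K).range.Normal := by
  rw [jK_range]
  exact (inl_normal (φ := φ)).subgroupOf _

/-- the extension of a linear character to its inertia group -/
def extC (θ : V →* ℂˣ) : ((St φ θ).comap (rightHom : V ⋊[φ] L →* L) : Subgroup (V ⋊[φ] L)) →* ℂˣ where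
  toFun x := θ x.1.left
  map_one' := by simp
  map_mul' := by
    rintro ⟨x, hx⟩ ⟨y, hy⟩
    change θ (x * y).left = _
    rw [mul_left, map_mul]
    congr 1
    exact hx y.left

theorem wo_H {R : Type} [CommRing R] (w : ℕ →* R) (θ : V →* ℂˣ) :
    wo w (inl : V →* V ⋊[φ] L) (fun v => ((θ v : ℂˣ) : ℂ)) =
      w ((St φ θ).comap (rightHom : V ⋊[φ] L →* L)).index * wt w (St φ θ) := by
  refine wo_lin w inl inl_injective inl_normal θ _ (fun x => ?_) (jK (St φ θ)) (fun _ => rfl)
    (extC θ) (fun v => rfl)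
    ((rightHom.comp (Subgroup.subtype _)).codRestrict (St φ θ) fun x => x.2) ?_ ?_
  · rw [fixes_inl]
    rfl
  · rintro ⟨l, hl⟩
    exact ⟨⟨inr l, by rw [Subgroup.mem_comap, rightHom_inr]; exact hl⟩,
      Subtype.ext (rightHom_inr (φ := φ) l)⟩
  · ext ⟨x, hx⟩
    constructor
    · intro h
      have h1 : x.right = 1 := congrArg Subtype.val h
      refine ⟨x.left, Subtype.ext ?_⟩
      ext
      · rfl
      · exact h1.symm
    · rintro ⟨v, hv⟩
      rw [← hv]
      exact Subtype.ext (rightHom_inl (φ := φ) v)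

theorem wo_K {R : Type} [CommRing R] (w : ℕ →* R) (K : Subgroup L) (θ : V →* ℂˣ) :
    wo w (jK (φ := φ) K) (fun v => ((θ v : ℂˣ) : ℂ)) =
      w (((St φ θ).comap (rightHom : V ⋊[φ] L →* L)).relIndex (K.comap rightHom)) *
        wt w (St φ θ ⊓ K : Subgroup L) := by
  set X : Subgroup (V ⋊[φ] L) := K.comap rightHom with hX
  set T : Subgroup X := ((St φ θ).comap (rightHom : V ⋊[φ] L →* L)).subgroupOf X with hT
  have hm : ∀ x : T, (x : X).1.right ∈ St φ θ := fun x => x.2
  have hmK : ∀ x : X, x.1.right ∈ K := fun x => x.2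
  refine wo_lin w (jK K) (jK_inj K) (jK_normal K) θ T (fun x => ?_)
    ((jK (φ := φ) K).codRestrict T fun v => ?_) (fun _ => rfl)
    ((extC θ).comp ((X.subtype.comp T.subtype).codRestrict _ hm)) (fun v => rfl)
    (((rightHom.comp X.subtype).comp T.subtype).codRestrict (St φ θ ⊓ K : Subgroup L)
      fun x => ⟨hm x, hmK x⟩) ?_ ?_
  · have h1 : fixes (jK (φ := φ) K) (fun v => ((θ v : ℂˣ) : ℂ)) x ↔
        fixes (inl : V →* V ⋊[φ] L) (fun v => ((θ v : ℂˣ) : ℂ)) x.1 := by
      constructor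
      · intro h v v' hv
        exact h v v' (Subtype.ext hv)
      · intro h v v' hv
        exact h v v' (congrArg Subtype.val hv)
    rw [h1, fixes_inl]
    rfl
  · change (jK (φ := φ) K v : V ⋊[φ] L) ∈ (St φ θ).comap rightHom
    rw [jK_coe, Subgroup.mem_comap, rightHom_inl]
    exact Subgroup.one_mem _
  · rintro ⟨l, hl, hlK⟩
    exact ⟨⟨⟨inr l, by rw [Subgroup.mem_comap, rightHom_inr]; exact hlK⟩,
      by change (inr l : V ⋊[φ] L) ∈ (St φ θ).comap rightHom
         rw [Subgroup.mem_comap, rightHom_inr]; exact hl⟩, Subtype.ext (rightHom_inr (φ := φ) l)⟩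
  · ext ⟨⟨x, hxX⟩, hx⟩
    constructor
    · intro h
      have h1 : x.right = 1 := congrArg Subtype.val h
      refine ⟨x.left, Subtype.ext (Subtype.ext ?_)⟩
      change inl x.left = x
      ext
      · rfl
      · exact h1.symm
    · rintro ⟨v, hv⟩
      rw [← hv]
      exact Subtype.ext (rightHom_inl (φ := φ) v)

variable {p : ℕ} [hp : Fact p.Prime]

/-- the number of the invariant linear characters -/
def nInv (φ : L →* MulAut V) : ℕ := Nat.card {θ : V →* ℂˣ // St φ θ = ⊤}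

theorem St_one : St φ (1 : V →* ℂˣ) = ⊤ := by
  rw [eq_top_iff]
  intro l _ v
  rfl

theorem nInv_pos : 0 < nInv φ := by
  haveI := Fintype.ofFinite V
  haveI : Nonempty {θ : V →* ℂˣ // St φ θ = ⊤} := ⟨⟨1, St_one⟩⟩
  unfold nInv
  haveI : Finite (V →* ℂˣ) := by
    apply Nat.finite_of_card_ne_zero
    rw [card_dual]
    exact Nat.card_pos.ne'
  exact Nat.card_pos

end sd

end Pool.Agent.Run7.h45.IN
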