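import Pool.Agent.Run7.h45.IN1

/-!
# The formula for split extensions of abelian `p'`-groups
-/

set_option autoImplicit false
set_option linter.unusedSectionVars false
set_option linter.style.haveILetI false

open scoped BigOperators Classical

noncomputable section

namespace Pool.Agent.Run7.h45.IN

open Pool.Agent.K3h83.IN
open Pool.Agent.Helper884 Pool.Agent.K3h3.KB Pool.Agent.K3h3.MK SemidirectProduct
open Pool.Agent.H254R3.IN (IsIrr mem_Irr)
open Pool.Agent.Y62 (tw tw_irr)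
open IC (Irr)

section sd

variable {V L : Type} [CommGroup V] [Group L] [Finite V] [Finite L] {φ : L →* MulAut V}
  {p : ℕ} [hp : Fact p.Prime]

theorem lin_inj : Function.Injective (fun (l : V →* ℂˣ) (v : V) => ((l v : ℂˣ) : ℂ)) := by
  intro l m h
  ext v
  exact congrFun h v

/-- the sums over the characters invariant under the Sylow subgroup -/
theorem sum_lin [Fintype V] {M : Type} [AddCommMonoid M] (F : (V → ℂ) → M)
    (R : Sylow p (V ⋊[φ] L)) (P : Subgroup L) (hP : P = (R : Subgroup (V ⋊[φ] L)).map rightHom) :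
    ∑ θ ∈ (Irr V).filter (fun θ => ∀ x ∈ R, fixes (inl : V →* V ⋊[φ] L) θ x), F θ =
      ∑ l ∈ Finset.univ.filter (fun l : V →* ℂˣ => P ≤ St φ l), F fun v => ((l v : ℂˣ) : ℂ) := by
  have e : (Irr V).filter (fun θ => ∀ x ∈ R, fixes (inl : V →* V ⋊[φ] L) θ x) =
      (Finset.univ.filter (fun l : V →* ℂˣ => P ≤ St φ l)).image fun l v => ((l v : ℂˣ) : ℂ) := by
    ext θ
    rw [Finset.mem_filter, Finset.mem_image]
    constructor
    · rintro ⟨h1, h2⟩
      obtain ⟨l, rfl⟩ := lin_of_comm (mem_Irr.mp h1)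
      refine ⟨l, Finset.mem_filter.mpr ⟨Finset.mem_univ _, ?_⟩, rfl⟩
      rw [hP]
      rintro _ ⟨x, hx, rfl⟩
      exact (fixes_inl l x).mp (h2 x hx)
    · rintro ⟨l, hl, rfl⟩
      refine ⟨mem_Irr.mpr (lin_irr l), fun x hx => (fixes_inl l x).mpr ?_⟩
      refine (Finset.mem_filter.mp hl).2 ?_
      rw [hP]
      exact ⟨x, hx, rfl⟩
  rw [e, Finset.sum_image fun a _ b _ h => lin_inj h]

/-- the intersection with the Sylow normalizer -/
theorem wt_inf (P : Sylow p L) {S : Subgroup L} (hPS : (P : Subgroup L) ≤ S) :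
    wt (cl p) (S ⊓ NN P : Subgroup L) = wt (cl p) (NN (P.subtype hPS)) := by
  refine wt_congr (cl p)
    { toFun := fun x => ⟨⟨x.1, x.2.1⟩, (mem_NN_subtype P hPS ⟨x.1, x.2.1⟩).mpr x.2.2⟩
      invFun := fun x => ⟨x.1.1, x.1.2, (mem_NN_subtype P hPS x.1).mp x.2⟩
      left_inv := fun _ => rfl
      right_inv := fun _ => rfl
      map_mul' := fun _ _ => rfl }

theorem rel_of_Q1 (P : Sylow p L) {S : Subgroup L} (hPS : (P : Subgroup L) ≤ S) (h : Q1 p S) :
    wt (cl p) S = wt (cl p) (S ⊓ NN P : Subgroup L) := by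
  rw [wt_inf P hPS]
  exact h _

theorem wt_top_inf (P : Sylow p L) {S : Subgroup L} (hS : S = ⊤) :
    wt (cl p) S - wt (cl p) (S ⊓ NN P : Subgroup L) = wt (cl p) L - wt (cl p) (NN P) := by
  subst hS
  rw [top_inf_eq]
  congr 1
  exact wt_congr (cl p) Subgroup.topEquiv

theorem sd_aux (R : Sylow p (V ⋊[φ] L)) (P : Sylow p L)
    (hP : (P : Subgroup L) = (R : Subgroup (V ⋊[φ] L)).map rightHom)
    (hNX : NN R ≤ (NN P).comap (rightHom : V ⋊[φ] L →* L))
    (hQ : ∀ K : Subgroup L, ¬ p ∣ K.index → K ≠ ⊤ → Q1 p K) :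
    wt (cl p) (V ⋊[φ] L) - wt (cl p) ((NN P).comap (rightHom : V ⋊[φ] L →* L)) =
      (nInv φ : RR p) * (wt (cl p) L - wt (cl p) (NN P)) := by
  haveI := Fintype.ofFinite V
  set X : Subgroup (V ⋊[φ] L) := (NN P).comap rightHom with hX
  have hRX : (R : Subgroup (V ⋊[φ] L)) ≤ X := Subgroup.le_normalizer.trans hNX
  have e1 := a_S2 p V (V ⋊[φ] L) inl inl_injective inl_normal R
  have e2 := a_S2 p V X (jK (NN P)) (jK_inj _) (jK_normal _) (R.subtype hRX)
  have hfix : ∀ (θ : V → ℂ) (x : X), fixes (jK (φ := φ) (NN P)) θ x ↔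
      fixes (inl : V →* V ⋊[φ] L) θ x.1 := by
    intro θ x
    constructor
    · intro h v v' hv
      exact h v v' (Subtype.ext hv)
    · intro h v v' hv
      exact h v v' (congrArg Subtype.val hv)
  have c0 : ∀ θ : V → ℂ, Nat.card {x : X // x ∈ NN (R.subtype hRX) ∧ fixes (jK (φ := φ) (NN P)) θ x} =
      Nat.card {x : V ⋊[φ] L // x ∈ NN R ∧ fixes (inl : V →* V ⋊[φ] L) θ x} := by
    intro θ
    refine Nat.card_congr
      { toFun := fun x => ⟨x.1.1, (mem_NN_subtype R hRX x.1).mp x.2.1, (hfix θ x.1).mp x.2.2⟩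
        invFun := fun x => ⟨⟨x.1, hNX x.2.1⟩, (mem_NN_subtype R hRX ⟨x.1, hNX x.2.1⟩).mpr x.2.1,
          (hfix θ ⟨x.1, hNX x.2.1⟩).mpr x.2.2⟩
        left_inv := fun _ => rfl
        right_inv := fun _ => rfl }
  have c1 : Nat.card (NN (R.subtype hRX)) = Nat.card (NN R) := by
    refine Nat.card_congr
      { toFun := fun x => ⟨x.1.1, (mem_NN_subtype R hRX x.1).mp x.2⟩
        invFun := fun x => ⟨⟨x.1, hNX x.2⟩, (mem_NN_subtype R hRX ⟨x.1, hNX x.2⟩).mpr x.2⟩
        left_inv := fun _ => rfl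
        right_inv := fun _ => rfl }
  have c2 : (Irr V).filter (fun θ => ∀ x ∈ R.subtype hRX, fixes (jK (φ := φ) (NN P)) θ x) =
      (Irr V).filter (fun θ => ∀ x ∈ R, fixes (inl : V →* V ⋊[φ] L) θ x) := by
    refine Finset.filter_congr fun θ _ => ?_
    constructor
    · intro H x hx
      exact (hfix θ ⟨x, hRX hx⟩).mp (H ⟨x, hRX hx⟩ hx)
    · intro H x hx
      exact (hfix θ x).mpr (H x hx)
  rw [c1, c2] at e2
  rw [sum_lin _ R P hP] at e1 e2
  have e3 : (Nat.card (NN R) : RR p) * (wt (cl p) (V ⋊[φ] L) - wt (cl p) X) =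
      (Nat.card (NN R) : RR p) * ((nInv φ : RR p) * (wt (cl p) L - wt (cl p) (NN P))) := by
    rw [mul_sub, e1, e2, ← Finset.sum_sub_distrib]
    have e4 : ∀ l ∈ Finset.univ.filter (fun l : V →* ℂˣ => (P : Subgroup L) ≤ St φ l),
        ((Nat.card {x : V ⋊[φ] L // x ∈ NN R ∧ fixes (inl : V →* V ⋊[φ] L)
            (fun v => ((l v : ℂˣ) : ℂ)) x} : RR p) *
            wo (cl p) (inl : V →* V ⋊[φ] L) (fun v => ((l v : ℂˣ) : ℂ)) -
          (Nat.card {x : X // x ∈ NN (R.subtype hRX) ∧ fixes (jK (φ := φ) (NN P))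
            (fun v => ((l v : ℂˣ) : ℂ)) x} : RR p) *
            wo (cl p) (jK (φ := φ) (NN P)) (fun v => ((l v : ℂˣ) : ℂ))) =
        if St φ l = ⊤ then (Nat.card (NN R) : RR p) * (wt (cl p) L - wt (cl p) (NN P)) else 0 := by
      intro l hl
      have hPS : (P : Subgroup L) ≤ St φ l := (Finset.mem_filter.mp hl).2
      have hRT : (R : Subgroup (V ⋊[φ] L)) ≤ (St φ l).comap rightHom := by
        rw [← Subgroup.map_le_iff_le_comap, ← hP]
        exact hPS
      rw [c0, ← mul_sub, wo_H, wo_K, cl_congr p (a_S6 p (V ⋊[φ] L) R _ X hRT hNX), ← mul_sub]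
      by_cases hS : St φ l = ⊤
      · rw [if_pos hS, wt_top_inf P hS]
        have h1 : ((St φ l).comap (rightHom : V ⋊[φ] L →* L)).relIndex X = 1 := by
          rw [hS, Subgroup.comap_top, Subgroup.relIndex_top_left]
        have h2 : Nat.card {x : V ⋊[φ] L // x ∈ NN R ∧ fixes (inl : V →* V ⋊[φ] L)
            (fun v => ((l v : ℂˣ) : ℂ)) x} = Nat.card (NN R) := by
          refine Nat.card_congr (Equiv.subtypeEquivRight fun x => ⟨fun h => h.1, fun h => ⟨h, ?_⟩⟩)
          rw [fixes_inl, hS]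
          trivial
        rw [h1, map_one, one_mul, h2]
      · rw [if_neg hS, rel_of_Q1 P hPS (hQ _ (fun h => ?_) hS), sub_self, mul_zero, mul_zero]
        exact P.not_dvd_index (h.trans (Subgroup.index_dvd_of_le hPS))
    rw [Finset.sum_congr rfl e4, ← Finset.sum_filter, Finset.sum_const, nsmul_eq_mul]
    have e5 : ((Finset.univ.filter (fun l : V →* ℂˣ => (P : Subgroup L) ≤ St φ l)).filter
        fun l => St φ l = ⊤).card = nInv φ := by
      unfold nInv
      rw [Nat.card_eq_fintype_card, Fintype.card_subtype]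
      congr 1
      ext l
      simp only [Finset.mem_filter, Finset.mem_univ, true_and]
      constructor
      · exact fun h => h.2
      · intro h
        exact ⟨by rw [h]; exact le_top, h⟩
    rw [e5]
    ring
  exact natCast_mul_inj p Nat.card_pos.ne' e3

theorem sd_local (hpV : ¬ p ∣ Nat.card V) (R : Sylow p (V ⋊[φ] L)) (X : Subgroup (V ⋊[φ] L))
    (hX : X = (rightHom : V ⋊[φ] L →* L).ker ⊔ NN R) : wt (cl p) X = wt (cl p) (NN R) := by
  have hNX : NN R ≤ X := by rw [hX]; exact le_sup_right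
  have hVX : (rightHom : V ⋊[φ] L →* L).ker ≤ X := by rw [hX]; exact le_sup_left
  have hRX : (R : Subgroup (V ⋊[φ] L)) ≤ X := Subgroup.le_normalizer.trans hNX
  rw [← wt_NN_sub R hNX]
  have hA : ((rightHom : V ⋊[φ] L →* L).ker.subgroupOf X).Normal := inferInstance
  have hcard : Nat.card ((rightHom : V ⋊[φ] L →* L).ker.subgroupOf X) = Nat.card V := by
    rw [Nat.card_congr (Subgroup.subgroupOfEquivOfLe hVX).toEquiv, ← range_inl_eq_ker_rightHom]
    exact Nat.card_congr (MonoidHom.ofInjective (inl_injective (φ := φ))).toEquiv.symm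
  refine D2 a_S2 a_S7 a_S8 (R.subtype hRX) ((rightHom : V ⋊[φ] L →* L).ker.subgroupOf X) hA ?_
    (by rw [hcard]; exact hpV) ?_
  · intro a ha b hb
    rw [Subgroup.mem_subgroupOf, ← range_inl_eq_ker_rightHom] at ha hb
    obtain ⟨u, hu⟩ := ha
    obtain ⟨v, hv⟩ := hb
    apply Subtype.ext
    rw [Subgroup.coe_mul, Subgroup.coe_mul, ← hu, ← hv, ← map_mul, ← map_mul, mul_comm]
  · have h1 : NN (R.subtype hRX) = (NN R).subgroupOf X := by
      ext x
      rw [Subgroup.mem_subgroupOf]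
      exact mem_NN_subtype R hRX x
    rw [h1, ← Subgroup.subgroupOf_sup hVX hNX, ← hX, Subgroup.subgroupOf_self]

/-- **The formula.** -/
theorem sd_formula (hpV : ¬ p ∣ Nat.card V) (R : Sylow p (V ⋊[φ] L)) (P : Sylow p L)
    (hQ : ∀ K : Subgroup L, ¬ p ∣ K.index → K ≠ ⊤ → Q1 p K) :
    wt (cl p) (V ⋊[φ] L) - wt (cl p) (NN R) =
      (nInv φ : RR p) * (wt (cl p) L - wt (cl p) (NN P)) := by
  set P' : Sylow p L := R.mapSurjective (rightHom_surjective (φ := φ)) with hP'
  have h1 : (P' : Subgroup L) = (R : Subgroup (V ⋊[φ] L)).map rightHom := rfl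
  have h5 := a_S5 p (V ⋊[φ] L) L rightHom rightHom_surjective R
  have hX : (NN P').comap (rightHom : V ⋊[φ] L →* L) = (rightHom : V ⋊[φ] L →* L).ker ⊔ NN R := h5
  have h2 := sd_aux R P' h1 (by rw [hX]; exact le_sup_right) hQ
  rw [← sd_local hpV R _ hX, wt_NN (cl p) P P']
  exact h2

end sd

end Pool.Agent.Run7.h45.IN
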