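import Pool.Agent.Run7.h45.IN2

/-!
# Affine groups over finite fields; split extensions of elementary abelian groups
-/

set_option autoImplicit false
set_option linter.unusedSectionVars false
set_option linter.style.haveILetI false

open scoped BigOperators Classical

noncomputable section

namespace Pool.Agent.Run7.h45.IN

open Pool.Agent.K3h83.IN
open Pool.Agent.Helper884 Pool.Agent.K3h3.KB Pool.Agent.K3h3.MK SemidirectProduct
open Pool.Agent.H254R3.IN (IsIrr mem_Irr)
open Pool.Agent.Y62 (tw tw_irr)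
open IC (Irr)

section congr

variable {p : ℕ} [hp : Fact p.Prime]

theorem del_congr {G H : Type} [Group G] [Group H] [Finite G] [Finite H] (e : G ≃* H)
    (P : Sylow p G) (R : Sylow p H) :
    wt (cl p) G - wt (cl p) (NN P) = wt (cl p) H - wt (cl p) (NN R) := by
  have h1 : (NN P).map e.toMonoidHom = NN (P.mapSurjective (f := e.toMonoidHom) e.surjective) :=
    Subgroup.map_equiv_normalizer_eq _ e
  rw [wt_NN (cl p) R (P.mapSurjective (f := e.toMonoidHom) e.surjective), ← h1, wt_congr (cl p) e,
    wt_congr (cl p) (e.subgroupMap (NN P))]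
  rfl

end congr

section frob

variable {A : Type} [Field A] [Fintype A]

theorem good_frobF (S : Subgroup Aˣ) : Good (uAct A S) (triv (Multiplicative A)) where
  irr := by
    rintro _ rfl
    have := lin_irr (G := Multiplicative A) 1
    simpa using this
  inv := by
    rintro _ rfl t
    rfl
  ext := by
    rintro _ rfl
    refine ⟨fun _ => 1, ?_, fun n => rfl⟩
    have := lin_irr (G := Multiplicative A ⋊[uAct A S] S) 1
    simpa using this
  free := by
    intro θ hθ hE t ht e
    apply hE
    obtain ⟨l, rfl⟩ := lin_of_comm hθ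
    have h1 : ((t : Aˣ) : A) - 1 ≠ 0 := by
      intro h
      apply ht
      apply Subtype.ext
      apply Units.ext
      exact sub_eq_zero.mp h
    have h2 : ∀ x : A, l (Multiplicative.ofAdd ((((t : Aˣ) : A) - 1) * x)) = 1 := by
      intro x
      have h3 := congrFun e (Multiplicative.ofAdd x)
      have h4 : l (Multiplicative.ofAdd x) =
          l (Multiplicative.ofAdd (((t : Aˣ) : A) * x)) := Units.ext h3
      have h5 : Multiplicative.ofAdd ((((t : Aˣ) : A) - 1) * x) =
          Multiplicative.ofAdd (((t : Aˣ) : A) * x) / Multiplicative.ofAdd x := by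
        rw [sub_mul, one_mul, ofAdd_sub]
      rw [h5, map_div, ← h4, div_self']
    funext g
    have h6 := h2 ((((t : Aˣ) : A) - 1)⁻¹ * Multiplicative.toAdd g)
    rw [← mul_assoc, mul_inv_cancel₀ h1, one_mul, ofAdd_toAdd] at h6
    rw [h6, Units.val_one]

theorem wt_frobF {R : Type} [CommRing R] (w : ℕ →* R) (S : Subgroup Aˣ) :
    (Nat.card S : R) * wt w (Multiplicative A ⋊[uAct A S] S) =
      ((Nat.card A - 1 : ℕ) : R) * w (Nat.card S) + (Nat.card S : R) ^ 2 := by
  have h1 := sum_irr_sd (good_frobF S) (fun n => w n)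
  rw [wt_eq, ← nsmul_eq_mul]
  rw [h1]
  have h2 : (Irr (Multiplicative A)).filter (· ∈ triv (Multiplicative A)) =
      {fun _ => 1} := by
    ext χ
    simp only [Finset.mem_filter, mem_Irr, Finset.mem_singleton]
    constructor
    · exact fun h => h.2
    · intro h
      exact ⟨(good_frobF S).irr χ h, h⟩
  have h3 : ((Irr (Multiplicative A)).filter
      (· ∉ triv (Multiplicative A))).card = Nat.card A - 1 := by
    have h4 := Finset.card_filter_add_card_filter_not (s := Irr (Multiplicative A))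
      (· ∈ triv (Multiplicative A))
    rw [h2, Finset.card_singleton, card_Irr_comm] at h4
    have h5 : Nat.card (Multiplicative A) = Nat.card A := rfl
    omega
  congr 1
  · have h6 : ∀ θ ∈ (Irr (Multiplicative A)).filter
        (· ∉ triv (Multiplicative A)), w (Nat.card S * ndeg θ) = w (Nat.card S) := by
      intro θ hθ
      rw [ndeg_comm (mem_Irr.mp (Finset.mem_filter.mp hθ).1), mul_one]
    rw [Finset.sum_congr rfl h6, Finset.sum_const, h3, nsmul_eq_mul]
  · rw [h2, Finset.sum_singleton]
    have h6 : ndeg (fun _ : Multiplicative A => (1 : ℂ)) = 1 := ndeg_eq (by simp)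
    rw [h6, map_one, nsmul_eq_mul, mul_one]
    push_cast
    rfl

theorem uAct_injective (S : Subgroup Aˣ) : Function.Injective (uAct A S) := by
  intro s t h
  have h1 := DFunLike.congr_fun h (Multiplicative.ofAdd (1 : A))
  apply Subtype.ext
  apply Units.ext
  have h2 : ((s : Aˣ) : A) * 1 = ((t : Aˣ) : A) * 1 := congrArg Multiplicative.toAdd h1
  rwa [mul_one, mul_one] at h2

end frob

/-- `H` is a split extension of a self-centralising elementary abelian normal `r`-subgroup by `L` -/
def Spl (r : ℕ) (H L : Type) [Group H] [Group L] : Prop :=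
  ∃ V K : Subgroup H, V.Normal ∧ (∀ v ∈ V, v ^ r = 1) ∧
    Subgroup.centralizer (V : Set H) = V ∧ V.IsComplement' K ∧ Nonempty (K ≃* L)

section spl

theorem spl_congr {r : ℕ} {H L L' : Type} [Group H] [Group L] [Group L'] (e : L ≃* L')
    (h : Spl r H L) : Spl r H L' := by
  obtain ⟨V, K, h1, h2, h3, h4, ⟨f⟩⟩ := h
  exact ⟨V, K, h1, h2, h3, h4, ⟨f.trans e⟩⟩

theorem spl_sd {r : ℕ} {V L : Type} [CommGroup V] [Group L] [Finite V] [Finite L]
    (φ : L →* MulAut V) (hφ : Function.Injective φ) (hr : ∀ v : V, v ^ r = 1) :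
    Spl r (V ⋊[φ] L) L := by
  refine ⟨(inl : V →* V ⋊[φ] L).range, (inr : L →* V ⋊[φ] L).range, inl_normal, ?_, ?_, ?_,
    ⟨(MonoidHom.ofInjective inr_injective).symm⟩⟩
  · rintro _ ⟨v, rfl⟩
    rw [← map_pow, hr, map_one]
  · ext x
    rw [Subgroup.mem_centralizer_iff]
    constructor
    · intro h
      have h1 : x.right = 1 := by
        apply hφ
        rw [map_one]
        ext v
        have h2 := h (inl v) ⟨v, rfl⟩
        have h3 : x * inl v * x⁻¹ = inl v := by rw [← h2, mul_inv_cancel_right]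
        rw [conj_inl] at h3
        exact inl_injective h3
      refine ⟨x.left, ?_⟩
      ext
      · rfl
      · exact h1.symm
    · rintro ⟨v, rfl⟩ _ ⟨u, rfl⟩
      rw [← map_mul, ← map_mul, mul_comm]
  · apply Subgroup.isComplement'_of_card_mul_and_disjoint
    · rw [SemidirectProduct.card,
        ← Nat.card_congr (MonoidHom.ofInjective (inl_injective (φ := φ))).toEquiv,
        ← Nat.card_congr (MonoidHom.ofInjective (inr_injective (φ := φ))).toEquiv]
    · rw [Subgroup.disjoint_def]
      rintro x ⟨v, rfl⟩ ⟨l, hl⟩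
      have h1 := congrArg SemidirectProduct.right hl
      rw [right_inr, right_inl] at h1
      rw [← hl, h1, map_one]

theorem spl_prod {r : ℕ} {G H L M : Type} [Group G] [Group H] [Group L] [Group M] [Finite G]
    [Finite H] (h : Spl r G L) (h' : Spl r H M) : Spl r (G × H) (L × M) := by
  obtain ⟨V, K, h1, h2, h3, h4, ⟨f⟩⟩ := h
  obtain ⟨V', K', h1', h2', h3', h4', ⟨f'⟩⟩ := h'
  refine ⟨V.prod V', K.prod K', inferInstance, ?_, ?_, ?_,
    ⟨(Subgroup.prodEquiv K K').trans (f.prodCongr f')⟩⟩
  · rintro ⟨x, y⟩ hxy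
    rw [Subgroup.mem_prod] at hxy
    exact Prod.ext (h2 x hxy.1) (h2' y hxy.2)
  · ext ⟨x, y⟩
    rw [Subgroup.mem_centralizer_iff, Subgroup.mem_prod]
    constructor
    · intro H0
      constructor
      · change x ∈ V
        rw [← h3, Subgroup.mem_centralizer_iff]
        intro v hv
        exact congrArg Prod.fst (H0 (v, 1) (Subgroup.mem_prod.mpr ⟨hv, V'.one_mem⟩))
      · change y ∈ V'
        rw [← h3', Subgroup.mem_centralizer_iff]
        intro v hv
        exact congrArg Prod.snd (H0 (1, v) (Subgroup.mem_prod.mpr ⟨V.one_mem, hv⟩))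
    · rintro ⟨hx, hy⟩ ⟨u, v⟩ huv
      obtain ⟨hu, hv⟩ := Subgroup.mem_prod.mp huv
      change x ∈ V at hx
      change y ∈ V' at hy
      rw [← h3, Subgroup.mem_centralizer_iff] at hx
      rw [← h3', Subgroup.mem_centralizer_iff] at hy
      exact Prod.ext (hx u hu) (hy v hv)
  · apply Subgroup.isComplement'_of_card_mul_and_disjoint
    · rw [Nat.card_congr (Subgroup.prodEquiv V V').toEquiv,
        Nat.card_congr (Subgroup.prodEquiv K K').toEquiv, Nat.card_prod, Nat.card_prod, Nat.card_prod,
        ← h4.card_mul_card, ← h4'.card_mul_card]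
      ring
    · rw [Subgroup.disjoint_def]
      rintro ⟨x, y⟩ hx hy
      rw [Subgroup.mem_prod] at hx hy
      exact Prod.ext (Subgroup.disjoint_def.mp h4.disjoint hx.1 hy.1)
        (Subgroup.disjoint_def.mp h4'.disjoint hx.2 hy.2)

/-- the regular action is faithful -/
theorem rAct_injective {G S : Type} [Group G] [Group S] [Nontrivial G] :
    Function.Injective (rAct G S) := by
  rw [injective_iff_map_eq_one]
  intro s hs
  obtain ⟨g, hg⟩ := exists_ne (1 : G)
  have h1 := congrFun (DFunLike.congr_fun hs (Pi.mulSingle 1 g)) s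
  rw [rAct_apply, inv_mul_cancel, Pi.mulSingle_eq_same, MulAut.one_apply] at h1
  by_contra hne
  rw [Pi.mulSingle_eq_of_ne hne] at h1
  exact hg h1

variable {p : ℕ} [hp : Fact p.Prime]

/-- **Affine groups over finite fields.** -/
theorem aff_of {r d k m : ℕ} [hr : Fact r.Prime] (hrp : r ≠ p) (hd : 0 < d) (hpd : ¬ p ∣ d)
    (hk' : r ^ m = 1 + d * k) (hk0 : k ≠ 0) :
    ∃ (H D : Type) (_ : Group H) (_ : Finite H) (_ : Group D), IsCyclic D ∧ Nat.card D = d ∧
      Spl r H D ∧ Nat.card H = (1 + d * k) * d ∧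
      ¬ p ∣ Nat.card H ∧ wt (cl p) H = (k : RR p) * cl p d + (d : RR p) := by
  have hmne : m ≠ 0 := by
    rintro rfl
    rw [pow_zero] at hk'
    have := Nat.mul_pos hd (Nat.pos_of_ne_zero hk0)
    omega
  let A := GaloisField r m
  haveI : Fintype A := Fintype.ofFinite A
  have hA : Nat.card A = r ^ m := GaloisField.card r m hmne
  have hu : Nat.card Aˣ = d * k := by
    rw [Nat.card_eq_fintype_card, Fintype.card_units, ← Nat.card_eq_fintype_card, hA, hk']
    omega
  obtain ⟨g, hg⟩ := IsCyclic.exists_ofOrder_eq_natCard (α := Aˣ)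
  let S : Subgroup Aˣ := Subgroup.zpowers (g ^ k)
  have hS : Nat.card S = d := by
    rw [Nat.card_zpowers, orderOf_pow' g hk0, hg, hu, Nat.gcd_eq_right (Dvd.intro_left d rfl),
      Nat.mul_div_cancel _ (Nat.pos_of_ne_zero hk0)]
  have hcard : Nat.card (Multiplicative A ⋊[uAct A S] S) = (1 + d * k) * d := by
    rw [SemidirectProduct.card, hS]
    congr 1
    rw [← hk', ← hA]
    rfl
  refine ⟨Multiplicative A ⋊[uAct A S] S, S, inferInstance, inferInstance, inferInstance,
    inferInstance, hS, ?_, hcard, ?_, ?_⟩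
  · refine spl_sd _ (uAct_injective S) fun v => ?_
    change Multiplicative.ofAdd (r • Multiplicative.toAdd v) = 1
    have : CharP A r := inferInstance
    rw [nsmul_eq_mul, CharP.cast_eq_zero, zero_mul, ofAdd_zero]
  · rw [hcard, ← hk']
    intro h
    rcases (Nat.Prime.dvd_mul hp.out).mp h with h | h
    · exact hrp ((Nat.prime_dvd_prime_iff_eq hp.out hr.out).mp (hp.out.dvd_of_dvd_pow h)).symm
    · exact hpd h
  · apply natCast_mul_inj p hd.ne'
    have h1 := wt_frobF (cl p) S
    rw [hS] at h1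
    rw [h1]
    have h2 : Nat.card A - 1 = d * k := by
      rw [hA]
      omega
    rw [h2]
    push_cast
    ring

theorem exists_aff {r d : ℕ} [hr : Fact r.Prime] (hrp : r ≠ p) (hd : 0 < d) (hrd : ¬ r ∣ d)
    (hpd : ¬ p ∣ d) (B : ℕ) : ∃ (H D : Type) (_ : Group H) (_ : Finite H) (_ : Group D) (k : ℕ),
      IsCyclic D ∧ Nat.card D = d ∧ Spl r H D ∧ B < k ∧ Nat.card H = (1 + d * k) * d ∧
      ¬ p ∣ Nat.card H ∧ wt (cl p) H = (k : RR p) * cl p d + (d : RR p) := by
  set m := d.totient * (d * (B + 1) + 1) with hm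
  have hcop : Nat.Coprime r d := (Nat.Prime.coprime_iff_not_dvd hr.out).mpr hrd
  have h1 : r ^ m ≡ 1 [MOD d] := by
    rw [hm, pow_mul]
    simpa using (Nat.ModEq.pow_totient hcop).pow (d * (B + 1) + 1)
  have hm0 : d * (B + 1) < m := by
    have h2 := Nat.totient_pos.mpr hd
    rw [hm]
    nlinarith
  have hlt : m < r ^ m := Nat.lt_pow_self hr.out.one_lt
  obtain ⟨k, hk⟩ := (Nat.modEq_iff_dvd' (by omega : 1 ≤ r ^ m)).mp h1.symm
  have hk' : r ^ m = 1 + d * k := by omega
  have hBk : B < k := by
    by_contra hcon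
    have : d * k ≤ d * B := Nat.mul_le_mul_left d (by omega)
    have h3 : d * (B + 1) = d * B + d := by ring
    omega
  obtain ⟨H, D, i1, i2, i3, h2, h3, h4, h5, h6, h7⟩ := aff_of (p := p) hrp hd hpd hk' (by omega)
  exact ⟨H, D, i1, i2, i3, k, h2, h3, h4, hBk, h5, h6, h7⟩

end spl

end Pool.Agent.Run7.h45.IN
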