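import Pool.Agent.Run7.h45.IN3
import Pool.Agent.K3h83.PI.Red

/-!
# One-sided bounds for one class of degrees decide
-/

set_option autoImplicit false
set_option linter.unusedSectionVars false
set_option linter.style.haveILetI false

open scoped BigOperators Classical

noncomputable section

namespace Pool.Agent.Run7.h45.IN

open Pool.Agent.K3h83.IN
open Pool.Agent.K3h83.PI (ClsP main3 idx)
open Pool.Agent.Helper884 Pool.Agent.K3h3.KB Pool.Agent.K3h3.MK SemidirectProduct
open Pool.Agent.H254R3.IN (IsIrr mem_Irr)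
open IC (Irr)

/-- the groups to which the reduction leads -/
structure Reduced (p : ℕ) (L : Type) [Group L] : Prop where
  cyc : IsCyclic (Subgroup.center L)
  cop : ¬ p ∣ Nat.card (Subgroup.center L)
  der : Subgroup.center L ≤ commutator L
  rad : ∀ N : Subgroup L, N.Normal → Group.IsSolvable N → N ≤ Subgroup.center L
  mono : ∀ N₁ N₂ : Subgroup L, N₁.Normal → N₂.Normal → N₁ ⊓ N₂ ≤ Subgroup.center L →
    N₁ ≤ Subgroup.center L ∨ N₂ ≤ Subgroup.center L
  syl : ∀ P : Sylow p L, ¬ IsCyclic P ∧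
    ∀ N : Subgroup L, N.Normal → ¬ N ≤ Subgroup.center L → N ⊔ NN P = ⊤

/-- the split extensions of self-centralising elementary abelian normal `r`-subgroups by products of a
reduced group of the class and a cyclic group of order prime to `p r` -/
def Fam (p r : ℕ) (C : ∀ (G : Type) [Group G], Prop) (H : Type) [Group H] : Prop :=
  ∃ (L D : Type) (_ : Group L) (_ : Group D), C L ∧ Reduced p L ∧ IsCyclic D ∧
    ¬ p ∣ Nat.card D ∧ ¬ r ∣ Nat.card D ∧ Spl r H (L × D)

section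

variable {p : ℕ} [hp : Fact p.Prime]

/-- augmentation -/
def aug (p : ℕ) [Fact p.Prime] : RR p →+* ℤ := (MonoidAlgebra.lift ℤ ℤ (ZMod p)ˣ 1).toRingHom

theorem aug_single (v : (ZMod p)ˣ) (a : ℤ) : aug p (MonoidAlgebra.single v a) = a := by
  unfold aug
  simp

theorem aug_wt (G : Type) [Group G] [Finite G] : aug p (wt (cl p) G) = Nat.card (X p G) := by
  rw [wt_cl, map_sum]
  simp_rw [aug_single]
  rw [Finset.sum_const, Finset.card_univ, nsmul_eq_mul, mul_one, Nat.card_eq_fintype_card]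

theorem aug_eq (x : RR p) : aug p x = ∑ v : (ZMod p)ˣ, x.coeff v := by
  have hx : x = ∑ u : (ZMod p)ˣ, MonoidAlgebra.single u (x.coeff u) := by
    ext v
    rw [MonoidAlgebra.coeff_sum, Finsupp.finsetSum_apply]
    simp_rw [MonoidAlgebra.coeff_single, Finsupp.single_apply]
    simp
  conv_lhs => rw [hx]
  rw [map_sum]
  simp_rw [aug_single]

/-- an integer in a given class modulo `p` and prime to `r` -/
theorem exists_rep' {r : ℕ} [hr : Fact r.Prime] (hrp : r ≠ p) (v : (ZMod p)ˣ) :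
    ∃ d : ℕ, 0 < d ∧ ¬ r ∣ d ∧ ¬ p ∣ d ∧ (d : ZMod p) = v := by
  haveI : NeZero p := ⟨hp.out.ne_zero⟩
  have hcop : Nat.Coprime p r := (Nat.coprime_primes hp.out hr.out).mpr (Ne.symm hrp)
  obtain ⟨d, h1, h2⟩ := Nat.chineseRemainder hcop (v : ZMod p).val 1
  have h3 : (d : ZMod p) = v := by
    rw [← ZMod.natCast_zmod_val (v : ZMod p)]
    exact (ZMod.natCast_eq_natCast_iff _ _ _).mpr h1
  have h4 : ¬ p ∣ d := by
    intro h
    rw [(ZMod.natCast_eq_zero_iff _ _).mpr h] at h3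
    exact v.ne_zero h3.symm
  refine ⟨d, Nat.pos_of_ne_zero fun h => h4 (by rw [h]; exact dvd_zero p), fun h => ?_, h4, h3⟩
  have h5 := (Nat.modEq_zero_iff_dvd.mpr h).symm.trans h2
  have h6 : r ∣ 1 := Nat.modEq_zero_iff_dvd.mp h5.symm
  exact hr.out.one_lt.ne' (Nat.dvd_one.mp h6)

variable {r : ℕ} [hr : Fact r.Prime] {C : ∀ (G : Type) [Group G], Prop}

/-- the coefficients of the products with affine groups -/
theorem coeff_aff {G H : Type} [Group G] [Finite G] [Group H] [Finite H] (P : Sylow p G)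
    (R : Sylow p (G × H)) (hH : ¬ p ∣ Nat.card H) {k d : ℕ} (u b : (ZMod p)ˣ)
    (hd : (d : ZMod p) = ((b * u⁻¹ : (ZMod p)ˣ) : ZMod p))
    (hw : wt (cl p) H = (k : RR p) * cl p d + (d : RR p)) :
    (wt (cl p) (G × H) - wt (cl p) (NN R)).coeff (b ^ 2) =
      (k : ℤ) * (wt (cl p) G - wt (cl p) (NN P)).coeff (u ^ 2) +
        (d : ℤ) * (wt (cl p) G - wt (cl p) (NN P)).coeff (b ^ 2) := by
  set D := wt (cl p) G - wt (cl p) (NN P) with hD
  have h : (d : ZMod p) ≠ 0 := by
    rw [hd]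
    exact Units.ne_zero _
  rw [del_prod (cl p) hH P, ← hD, hw, mul_add, MonoidAlgebra.coeff_add, Finsupp.add_apply]
  have e1 : (D * ((k : RR p) * cl p d)).coeff (b ^ 2) =
      (k : ℤ) * D.coeff (b ^ 2 * ((Units.mk0 (d : ZMod p) h) ^ 2)⁻¹) := by
    rw [mul_left_comm, coeff_natCast_mul, cl_apply p h, coeff_mul_single']
  have e2 : (D * (d : RR p)).coeff (b ^ 2) = (d : ℤ) * D.coeff (b ^ 2) := by
    rw [mul_comm, coeff_natCast_mul]
  have e3 : b ^ 2 * ((Units.mk0 (d : ZMod p) h) ^ 2)⁻¹ = u ^ 2 := by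
    have h1 : Units.mk0 (d : ZMod p) h = b * u⁻¹ := by
      ext
      rw [Units.val_mk0, hd]
    rw [h1, mul_pow, inv_pow, mul_inv, inv_inv, mul_inv_cancel_left]
  rw [e1, e2, e3]

/-- **One-sided bounds give inequalities.** -/
theorem coeff_le (hrp : r ≠ p) {G L : Type} [Group G] [Finite G] [Group L] (hS : Spl r G L)
    (hL : C L) (hR : Reduced p L) (b : (ZMod p)ˣ) (s : ℤ)
    (HU : ∀ ε : ℝ, 0 < ε → ∃ n₀ : ℕ, ∀ (H : Type) [Group H] [Finite H], Fam p r C H →
      n₀ ≤ Nat.card H → ∀ R : Sylow p H,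
        (((s * (wt (cl p) H - wt (cl p) (NN R)).coeff (b ^ 2) : ℤ)) : ℝ) ≤ ε * Nat.card H)
    (P : Sylow p G) (u : (ZMod p)ˣ) :
    s * (wt (cl p) G - wt (cl p) (NN P)).coeff (u ^ 2) ≤ 0 := by
  by_contra hcon
  push Not at hcon
  obtain ⟨d, hd, hrd, hpd, hdu⟩ := exists_rep' hrp (b * u⁻¹)
  set D := wt (cl p) G - wt (cl p) (NN P) with hD
  set x : ℤ := s * D.coeff (u ^ 2) with hx
  set y : ℤ := s * D.coeff (b ^ 2) with hy
  have hn : (0 : ℝ) < Nat.card G := by exact_mod_cast Nat.card_pos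
  have hd' : (0 : ℝ) < d := by exact_mod_cast hd
  obtain ⟨n₀, h0⟩ := HU (1 / (4 * Nat.card G * d ^ 2)) (by positivity)
  obtain ⟨H, D', _, _, _, k, hc, hD', hS', hk, hcard, hpH, hw⟩ :=
    exists_aff (p := p) hrp hd hrd hpd (n₀ + 4 * (1 + d * y.natAbs))
  have hF : Fam p r C (G × H) :=
    ⟨L, D', inferInstance, inferInstance, hL, hR, hc, by rw [hD']; exact hpd, by rw [hD']; exact hrd,
      spl_prod hS hS'⟩
  have hle : n₀ ≤ Nat.card (G × H) := by
    rw [Nat.card_prod, hcard]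
    have h1 : 1 ≤ Nat.card G := Nat.card_pos
    have h2 : n₀ ≤ k := by omega
    have h3 : k ≤ d * k := Nat.le_mul_of_pos_left k hd
    have h4 : 1 + d * k ≤ (1 + d * k) * d := Nat.le_mul_of_pos_right _ hd
    have h5 : (1 + d * k) * d ≤ Nat.card G * ((1 + d * k) * d) := Nat.le_mul_of_pos_left _ h1
    omega
  have h1 := h0 (G × H) hF hle default
  rw [coeff_aff P default hpH u b hdu hw, Nat.card_prod, hcard] at h1
  have e1 : s * ((k : ℤ) * D.coeff (u ^ 2) + (d : ℤ) * D.coeff (b ^ 2)) = k * x + d * y := by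
    rw [hx, hy]
    ring
  rw [← hD, e1] at h1
  push_cast at h1
  have e2 : (1 : ℝ) / (4 * Nat.card G * d ^ 2) * (Nat.card G * ((1 + d * k) * d)) =
      1 / (4 * d) + k / 4 := by
    field_simp
  rw [e2] at h1
  have e3 : (1 : ℝ) / (4 * d) ≤ 1 := by
    rw [div_le_one (by positivity)]
    have : (1 : ℝ) ≤ d := by exact_mod_cast hd
    linarith
  have h2 : (1 : ℝ) ≤ x := by exact_mod_cast hcon
  have h3 : -((y.natAbs : ℝ)) ≤ y := by
    have : -((y.natAbs : ℤ)) ≤ y := by
      rw [Int.natCast_natAbs]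
      exact neg_abs_le y
    exact_mod_cast this
  have h4 : (n₀ : ℝ) + 4 * (1 + d * y.natAbs) < k := by exact_mod_cast hk
  have h5 : (0 : ℝ) ≤ n₀ := by positivity
  have h6 : (k : ℝ) ≤ k * x := by
    have : (0 : ℝ) ≤ k := by positivity
    nlinarith
  have h7 : -((d : ℝ) * y.natAbs) ≤ d * y := by nlinarith
  have h8 : (0 : ℝ) ≤ (d : ℝ) * y.natAbs := by positivity
  linarith

/-- vanishing of an element of the group ring -/
theorem eq_of_coeff {G : Type} [Group G] [Finite G] (P : Sylow p G)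
    (h : ∀ u : (ZMod p)ˣ, (wt (cl p) G - wt (cl p) (NN P)).coeff (u ^ 2) = 0) :
    wt (cl p) G = wt (cl p) (NN P) := by
  rw [← sub_eq_zero]
  ext v
  change (wt (cl p) G - wt (cl p) (NN P)).coeff v = 0
  by_cases hv : ∃ u, u ^ 2 = v
  · obtain ⟨u, rfl⟩ := hv
    exact h u
  · push Not at hv
    have h1 := coeff_nonsq p G hv
    have h2 := coeff_nonsq p (NN P) hv
    have h3 : (wt (cl p) G - wt (cl p) (NN P)).coeff v =
      (wt (cl p) G).coeff v - (wt (cl p) (NN P)).coeff v := rfl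
    rw [h3, h1, h2, sub_zero]

/-- the numbers of characters of degree prime to `p` -/
theorem aug_del (hrp : r ≠ p) {G L : Type} [Group G] [Finite G] [Group L] (hS : Spl r G L)
    (hL : C L) (hR : Reduced p L)
    (HM : ∀ (H : Type) [Group H] [Finite H], Fam p r C H → ∀ R : Sylow p H,
      Nat.card (X p H) = Nat.card (X p (NN R))) (P : Sylow p G) :
    ∑ v : (ZMod p)ˣ, (wt (cl p) G - wt (cl p) (NN P)).coeff v = 0 := by
  rw [← aug_eq]
  obtain ⟨d, hd, hrd, hpd, -⟩ := exists_rep' (p := p) hrp 1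
  obtain ⟨H, D', _, _, _, k, hc, hD', hS', hk, hcard, hpH, hw⟩ :=
    exists_aff (p := p) hrp hd hrd hpd 0
  have hF : Fam p r C (G × H) :=
    ⟨L, D', inferInstance, inferInstance, hL, hR, hc, by rw [hD']; exact hpd, by rw [hD']; exact hrd,
      spl_prod hS hS'⟩
  have h1 := HM (G × H) hF default
  have h2 := congrArg (aug p) (del_prod (cl p) hpH P (default : Sylow p (G × H)))
  rw [map_sub, aug_wt, aug_wt, h1, sub_self, map_mul, aug_wt H] at h2
  rcases mul_eq_zero.mp h2.symm with h3 | h3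
  · exact h3
  · exfalso
    have h4 := congrArg (aug p) hw
    rw [aug_wt, h3] at h4
    have hdz : (d : ZMod p) ≠ 0 := fun h => hpd ((ZMod.natCast_eq_zero_iff _ _).mp h)
    rw [map_add, map_mul, map_natCast, map_natCast, cl_apply p hdz, aug_single] at h4
    omega

end

end Pool.Agent.Run7.h45.IN
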