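import Pool.Agent.Run7.h45.IN4

/-!
# The reduction
-/

set_option autoImplicit false
set_option linter.unusedSectionVars false
set_option linter.style.haveILetI false

open scoped BigOperators Classical commutatorElement

noncomputable section

namespace Pool.Agent.Run7.h45.IN

open Pool.Agent.K3h83.IN
open Pool.Agent.K3h83.PI (ClsP main3 idx)
open Pool.Agent.Helper884 Pool.Agent.K3h3.KB Pool.Agent.K3h3.MK SemidirectProduct
open Pool.Agent.H254R3.IN (IsIrr mem_Irr)
open IC (Irr)

section

variable {p : ℕ} [hp : Fact p.Prime]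

theorem sup_conj {G : Type} [Group G] [Finite G] (P P' : Sylow p G) {N : Subgroup G} (hN : N.Normal)
    (h : N ⊔ NN P = ⊤) : N ⊔ NN P' = ⊤ := by
  obtain ⟨g, rfl⟩ := MulAction.exists_smul_eq G P P'
  have h1 : (NN P).map (MulAut.conj g).toMonoidHom = NN (g • P) :=
    Subgroup.map_equiv_normalizer_eq (P : Subgroup G) (MulAut.conj g)
  have h2 : N.map (MulAut.conj g).toMonoidHom = N := by
    ext x
    constructor
    · rintro ⟨y, hy, rfl⟩
      exact hN.conj_mem y hy g
    · intro hx
      refine ⟨g⁻¹ * x * g, ?_, ?_⟩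
      · have := hN.conj_mem x hx g⁻¹
        rwa [inv_inv] at this
      · change g * (g⁻¹ * x * g) * g⁻¹ = x
        group
  rw [← h1, ← h2, ← Subgroup.map_sup, h, ← MonoidHom.range_eq_map]
  exact MonoidHom.range_eq_top.mpr (MulAut.conj g).surjective

theorem cyc_conj {G : Type} [Group G] [Finite G] (P P' : Sylow p G) (h : IsCyclic P') :
    IsCyclic P := by
  obtain ⟨g, rfl⟩ := MulAction.exists_smul_eq G P P'
  exact isCyclic_of_surjective (Sylow.equivSMul P g).symm (Sylow.equivSMul P g).symm.surjective

theorem center_lt {G : Type} [Group G] [Finite G] (hder : Subgroup.center G ≤ commutator G)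
    {K : Subgroup G} (hK : K ≠ ⊤) :
    (Subgroup.center K).index < (Subgroup.center G).index := by
  set X : Subgroup G := K ⊔ Subgroup.center G with hX
  have hZX : Subgroup.center G ≤ X := le_sup_right
  have hXt : X ≠ ⊤ := by
    intro h
    apply hK
    have h1 : commutator G ≤ K := by
      rw [commutator_eq_closure, Subgroup.closure_le]
      rintro _ ⟨a, b, rfl⟩
      have ha : a ∈ ((K ⊔ Subgroup.center G : Subgroup G) : Set G) := by rw [← hX, h]; trivial
      have hb : b ∈ ((K ⊔ Subgroup.center G : Subgroup G) : Set G) := by rw [← hX, h]; trivial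
      rw [Subgroup.mul_normal] at ha hb
      obtain ⟨k, hk, z, hz, rfl⟩ := Set.mem_mul.mp ha
      obtain ⟨l, hl, t, ht, rfl⟩ := Set.mem_mul.mp hb
      have hz' := Subgroup.mem_center_iff.mp hz
      have ht' := Subgroup.mem_center_iff.mp ht
      have e : ⁅k * z, l * t⁆ = ⁅k, l⁆ := by
        rw [commutatorElement_def, commutatorElement_def]
        have e1 : k * z * (l * t) = (k * l) * (z * t) := by
          rw [mul_assoc, ← mul_assoc z l t, ← hz' l, mul_assoc l z t, ← mul_assoc]
        have e2 : (k * z)⁻¹ * (l * t)⁻¹ = k⁻¹ * l⁻¹ * (z * t)⁻¹ := by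
          have e3 : (l * t) * (k * z) = (z * t) * (l * k) := by
            rw [ht' l, hz' k, mul_assoc t l, ← mul_assoc l z k, hz' l, mul_assoc z l k,
              ← mul_assoc t z, hz' t]
          rw [← mul_inv_rev, e3, mul_inv_rev, mul_inv_rev]
        rw [e1, mul_assoc, e2]
        have e4 : z * t * (k⁻¹ * l⁻¹ * (z * t)⁻¹) = k⁻¹ * l⁻¹ := by
          have hzt : z * t ∈ Subgroup.center G := mul_mem hz ht
          have h5 := Subgroup.mem_center_iff.mp hzt (k⁻¹ * l⁻¹ * (z * t)⁻¹)
          rw [← h5, inv_mul_cancel_right]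
        rw [mul_assoc, e4, ← mul_assoc]
      rw [e]
      exact Subgroup.mul_mem _ (K.mul_mem (K.mul_mem hk hl) (K.inv_mem hk)) (K.inv_mem hl)
    have h2 : Subgroup.center G ≤ K := hder.trans h1
    rw [hX, sup_eq_left.mpr h2] at h
    exact h
  have i1 : (Subgroup.center G).subgroupOf K ≤ Subgroup.center K := by
    intro x hx
    rw [Subgroup.mem_center_iff]
    intro y
    exact Subtype.ext (Subgroup.mem_center_iff.mp (Subgroup.mem_subgroupOf.mp hx) y)
  have i2 : (Subgroup.center K).index ≤ (Subgroup.center G).relIndex K := Subgroup.index_antitone i1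
  have i2' : (Subgroup.center G).relIndex X = (Subgroup.center G).relIndex K :=
    Subgroup.relIndex_sup_right _ _
  have i3 : (Subgroup.center G).relIndex X * X.index = (Subgroup.center G).index :=
    Subgroup.relIndex_mul_index hZX
  have i4 : 1 < X.index := by
    have : X.index ≠ 1 := fun h => hXt (Subgroup.index_eq_one.mp h)
    have h0 : X.index ≠ 0 := Subgroup.FiniteIndex.index_ne_zero
    omega
  have i5 : 0 < (Subgroup.center G).relIndex X := by
    apply Nat.pos_of_ne_zero
    intro h
    rw [h, zero_mul] at i3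
    exact (Subgroup.FiniteIndex.index_ne_zero (H := Subgroup.center G)) i3.symm
  rw [← i3]
  rw [← i2'] at i2
  nlinarith

variable {r : ℕ} [hr : Fact r.Prime] {C : ∀ (G : Type) [Group G], Prop}

instance : Nontrivial (Multiplicative (ZMod r)) := by
  haveI : Fact (1 < r) := ⟨hr.out.one_lt⟩
  exact inferInstanceAs (Nontrivial (ZMod r))

/-- **The reduction to split extensions of elementary abelian groups by reduced groups.** -/
theorem main_red (hrp : r ≠ p) (hC : ClsP p C)
    (hyp : ∀ (G L : Type) [Group G] [Finite G] [Group L] [Finite L], Spl r G L → C L → Reduced p L →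
      ∀ P : Sylow p G, wt (cl p) G = wt (cl p) (NN P)) :
    ∀ (G : Type) [Group G] [Finite G], C G → Q1 p G := by
  refine main3 a_S1 a_S2 a_S3 a_S4 a_S4a a_S5 a_S6 a_S7 a_S8 a_S9 a_S12 a_S14 a_S15 a_S16 a_S17
    a_G1 a_G2 a_G3 a_G4 a_G5 hC fun G _ _ hG P hP hI => ?_
  by_cases hc : IsCyclic P
  · have hdvd : p ∣ Nat.card G := by
      by_contra h
      exact hP.ne (NN_top_of_not_dvd P h)
    obtain ⟨Q, B, H, hPB, hQP, hB, hLC, hE1, hE2⟩ := a_C0 p G P hc hdvd
    have hZB : Subgroup.center G ≤ B := (le_NN_of_center P le_rfl).trans hPB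
    have hBt : B ≠ ⊤ := by
      intro h
      -- `Q` would be normal, so central
      have hQn : Q.Normal := by
        rw [← Subgroup.normalizer_eq_top_iff, ← hB, h]
      have hQc : Nat.card Q = p := by
        have h1 := hLC.cQ
        rw [← h1]
        refine Nat.card_congr (Subgroup.subgroupOfEquivOfLe ?_).toEquiv.symm
        exact hQP.trans (Subgroup.le_normalizer.trans hPB)
      have hQs : Group.IsSolvable Q := by
        have h1 : IsCyclic Q := isCyclic_of_prime_card hQc
        exact Group.isSolvable_of_comm fun x y => by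
          letI := h1.commGroup
          exact mul_comm x y
      exact hP.cop (by
        have := Subgroup.card_dvd_of_le (hP.rad Q hQn hQs)
        rwa [hQc] at this)
    rw [a_CN p B G _ _ H B.subtype hLC hE1, ← wt_NN_sub P hPB]
    exact hI B (hC.sub G B (idx P (Subgroup.le_normalizer.trans hPB)) hG) (index_center_lt hZB hBt) _
  · have hR : Reduced p G := ⟨hP.cyc, hP.cop, hP.der, hP.rad, hP.mono,
      fun P' => ⟨fun h => hc (cyc_conj P P' h), fun N hN hNc => sup_conj P P' hN (hP.sup N hN hNc)⟩⟩
    have hS : Spl r ((G → Multiplicative (ZMod r)) ⋊[rAct (Multiplicative (ZMod r)) G] G) G := by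
      refine spl_sd _ rAct_injective fun v => ?_
      funext g
      change Multiplicative.ofAdd (r • Multiplicative.toAdd (v g)) = 1
      rw [nsmul_eq_mul, CharP.cast_eq_zero, zero_mul, ofAdd_zero]
    have h1 := hyp _ G hS hG hR default
    have hpV : ¬ p ∣ Nat.card (G → Multiplicative (ZMod r)) := by
      haveI := Fintype.ofFinite G
      rw [Nat.card_fun]
      intro h
      have h2 := hp.out.dvd_of_dvd_pow h
      have h3 : Nat.card (Multiplicative (ZMod r)) = r := Nat.card_zmod r
      rw [h3] at h2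
      exact hrp ((Nat.prime_dvd_prime_iff_eq hp.out hr.out).mp h2).symm
    have h2 := sd_formula (φ := rAct (Multiplicative (ZMod r)) G) hpV default P
      fun K hK hKt => hI K (hC.sub G K hK hG) (center_lt hP.der hKt)
    rw [h1, sub_self] at h2
    rw [← sub_eq_zero]
    apply natCast_mul_inj p (nInv_pos (φ := rAct (Multiplicative (ZMod r)) G)).ne'
    rw [← h2, mul_zero]

/-- the equality for all groups of the class implies it for the split extensions -/
theorem spl_zero (hrp : r ≠ p) (hC : ClsP p C) (hQ : ∀ (G : Type) [Group G] [Finite G], C G → Q1 p G)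
    {H M : Type} [Group H] [Finite H] [Group M] (hM : C M) (hS : Spl r H M) (R : Sylow p H) :
    wt (cl p) H = wt (cl p) (NN R) := by
  obtain ⟨V, K, h1, h2, h3, h4, ⟨f⟩⟩ := hS
  haveI : Finite M := Finite.of_equiv K f.toEquiv
  have hK : C K := hC.iso M K ⟨f.symm⟩ hM
  letI : CommGroup V :=
    { (inferInstance : Group V) with
      mul_comm := fun a b => Subtype.ext (by
        have ha : (a : H) ∈ Subgroup.centralizer (V : Set H) := by rw [h3]; exact a.2
        exact (Subgroup.mem_centralizer_iff.mp ha b b.2).symm) }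
  have hpV : ¬ p ∣ Nat.card V := by
    have hV : IsPGroup r V := fun v => ⟨1, by
      rw [pow_one]
      exact Subtype.ext (by rw [Subgroup.coe_pow]; exact h2 v v.2)⟩
    obtain ⟨n, hn⟩ := IsPGroup.iff_card.mp hV
    rw [hn]
    intro h
    exact hrp ((Nat.prime_dvd_prime_iff_eq hp.out hr.out).mp (hp.out.dvd_of_dvd_pow h)).symm
  let φ : K →* MulAut V := (V.normalizerMonoidHom).comp (Subgroup.inclusion (V.normalizer_eq_top ▸ le_top))
  let e : V ⋊[φ] K ≃* H := SemidirectProduct.mulEquivSubgroup h4
  have h5 := sd_formula (φ := φ) hpV default (default : Sylow p K)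
    fun K' hK' _ => hQ K' (hC.sub K K' hK' hK)
  rw [hQ K hK default, sub_self, mul_zero] at h5
  rw [← sub_eq_zero, ← h5]
  exact (del_congr e default R).symm

theorem cls_prod (hC : ClsP p C) {L D : Type} [Group L] [Group D] [Finite L] [Finite D] (hL : C L)
    (hD : IsCyclic D) : C (L × D) := by
  letI := hD.commGroup
  have h1 : (MonoidHom.fst L D).ker ≤ Subgroup.center (L × D) := by
    rintro ⟨l, d⟩ h
    have h2 : l = 1 := h
    subst h2
    rw [Subgroup.mem_center_iff]
    rintro ⟨l', d'⟩
    exact Prod.ext (by simp) (hD.commGroup.mul_comm d' d)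
  refine hC.ext (L × D) (MonoidHom.fst L D).ker h1 ?_ ?_
  · have h2 : Function.Injective ((MonoidHom.snd L D).comp (MonoidHom.fst L D).ker.subtype) := by
      rintro ⟨⟨l, d⟩, h⟩ ⟨⟨l', d'⟩, h'⟩ h3
      have h4 : l = 1 := h
      have h5 : l' = 1 := h'
      have h6 : d = d' := h3
      subst h4 h5 h6
      rfl
    exact isCyclic_of_injective _ h2
  · exact hC.iso L _ ⟨(QuotientGroup.quotientKerEquivOfSurjective (MonoidHom.fst L D)
      fun l => ⟨(l, 1), rfl⟩).symm⟩ hL

theorem fam_zero (hrp : r ≠ p) (hC : ClsP p C) (hQ : ∀ (G : Type) [Group G] [Finite G], C G → Q1 p G)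
    {H : Type} [Group H] [Finite H] (hF : Fam p r C H) (R : Sylow p H) :
    wt (cl p) H = wt (cl p) (NN R) := by
  obtain ⟨L, D, _, _, hL, -, hD, -, -, hS⟩ := hF
  have hfin : Finite (L × D) := by
    obtain ⟨V, K, h1, h2, h3, h4, ⟨f⟩⟩ := id hS
    exact Finite.of_equiv K f.toEquiv
  haveI : Finite L := Finite.of_surjective (Prod.fst : L × D → L) fun l => ⟨(l, 1), rfl⟩
  haveI : Finite D := Finite.of_surjective (Prod.snd : L × D → D) fun d => ⟨(1, d), rfl⟩
  exact spl_zero hrp hC hQ (cls_prod hC hL hD) hS R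

end

end Pool.Agent.Run7.h45.IN
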