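import Pool.Agent.Run7.h45.IN5

/-!
# One congruence, for split extensions of elementary abelian `r`-groups
-/

set_option autoImplicit false
set_option linter.unusedSectionVars false
set_option linter.style.haveILetI false

open scoped BigOperators Classical

noncomputable section

namespace Pool.Agent.Run7.h45.IN

open Pool.Agent.K3h83.IN
open Pool.Agent.K3h83.PI (ClsP main3 idx)
open Pool.Agent.Helper884 Pool.Agent.K3h3.KB Pool.Agent.K3h3.MK SemidirectProduct
open Pool.Agent.H254R3.IN (IsIrr mem_Irr)
open IC (Irr)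

/-- `Spl` with nontrivial normal subgroup -/
def Spn (r : ℕ) (H L : Type) [Group H] [Group L] : Prop :=
  ∃ V K : Subgroup H, V ≠ ⊥ ∧ V.Normal ∧ (∀ v ∈ V, v ^ r = 1) ∧
    Subgroup.centralizer (V : Set H) = V ∧ V.IsComplement' K ∧ Nonempty (K ≃* L)

theorem Spn.spl {r : ℕ} {H L : Type} [Group H] [Group L] (h : Spn r H L) : Spl r H L := by
  obtain ⟨V, K, -, h⟩ := h
  exact ⟨V, K, h⟩

/-- if the normal subgroup is trivial then the group is trivial -/
theorem Spl.spn {r : ℕ} {H L : Type} [Group H] [Group L] [Nontrivial H] (h : Spl r H L) :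
    Spn r H L := by
  obtain ⟨V, K, h1, h2, h3, h4, h5⟩ := h
  refine ⟨V, K, ?_, h1, h2, h3, h4, h5⟩
  rintro rfl
  obtain ⟨x, hx⟩ := exists_ne (1 : H)
  have h6 : x ∈ Subgroup.centralizer (((⊥ : Subgroup H)) : Set H) := by
    rw [Subgroup.mem_centralizer_iff]
    intro y hy
    rw [Subgroup.coe_bot, Set.mem_singleton_iff] at hy
    rw [hy, one_mul, mul_one]
  rw [h3, Subgroup.mem_bot] at h6
  exact hx h6

section wr

variable {G S : Type} [Group G] [Group S]

theorem base_normal {V : Subgroup G} (hV : V.Normal) : (base (S := S) V).Normal := by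
  refine ⟨fun y hy x => ?_⟩
  rw [mem_base] at hy ⊢
  refine ⟨by rw [conj_right, hy.1]; group, fun i => ?_⟩
  rw [conj_left x y hy.1]
  exact hV.conj_mem _ (hy.2 _) _

/-- the complement -/
def comp (K : Subgroup G) : Subgroup (Wr G S) where
  carrier := {x | ∀ i, x.left i ∈ K}
  one_mem' := fun i => K.one_mem
  mul_mem' := by
    intro x y h1 h2 i
    rw [mul_left, Pi.mul_apply, rAct_apply]
    exact K.mul_mem (h1 i) (h2 _)
  inv_mem' := by
    intro x h i
    rw [inv_left, rAct_apply, Pi.inv_apply]
    exact K.inv_mem (h _)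

theorem mem_comp {K : Subgroup G} {x : Wr G S} : x ∈ comp K ↔ ∀ i, x.left i ∈ K := Iff.rfl

def compEquiv {L : Type} [Group L] {K : Subgroup G} (f : K ≃* L) :
    (comp K : Subgroup (Wr G S)) ≃* Wr L S where
  toFun x := ⟨fun i => f ⟨x.1.left i, x.2 i⟩, x.1.right⟩
  invFun y := ⟨⟨fun i => ((f.symm (y.left i) : K) : G), y.right⟩, fun i => (f.symm (y.left i)).2⟩
  left_inv x := by
    apply Subtype.ext
    ext i
    · simp
    · rfl
  right_inv y := by
    ext i
    · simp
    · rfl
  map_mul' x y := by
    ext i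
    · exact map_mul f ⟨x.1.left i, x.2 i⟩ ⟨y.1.left (x.1.right⁻¹ * i), y.2 _⟩
    · rfl

theorem card_comp [Finite G] [Finite S] (K : Subgroup G) :
    Nat.card (comp K : Subgroup (Wr G S)) = Nat.card K ^ Nat.card S * Nat.card S := by
  haveI := Fintype.ofFinite S
  rw [Nat.card_congr (compEquiv (S := S) (MulEquiv.refl K)).toEquiv, SemidirectProduct.card,
    Nat.card_fun]

theorem spn_wr {r : ℕ} {L : Type} [Group L] [Finite G] [Finite S] (h : Spn r G L) :
    Spn r (Wr G S) (Wr L S) := by
  obtain ⟨V, K, h0, h1, h2, h3, h4, ⟨f⟩⟩ := h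
  have hV1 : ∃ v ∈ V, v ≠ 1 := by
    by_contra hcon
    push Not at hcon
    exact h0 ((Subgroup.eq_bot_iff_forall V).mpr hcon)
  obtain ⟨v, hv, hv1⟩ := hV1
  refine ⟨base V, comp K, ?_, base_normal h1, ?_, ?_, ?_, ⟨compEquiv f⟩⟩
  · intro h
    have h5 : (inl (Pi.mulSingle 1 v) : Wr G S) ∈ base (S := S) V := by
      refine mem_base.mpr ⟨right_inl _, fun i => ?_⟩
      rw [left_inl]
      by_cases hi : i = 1
      · subst hi
        rw [Pi.mulSingle_eq_same]
        exact hv
      · rw [Pi.mulSingle_eq_of_ne hi]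
        exact V.one_mem
    rw [h, Subgroup.mem_bot] at h5
    have h6 := congrFun (congrArg SemidirectProduct.left h5) 1
    rw [left_inl, Pi.mulSingle_eq_same] at h6
    exact hv1 h6
  · intro x hx
    obtain ⟨hx1, hx2⟩ := mem_base.mp hx
    have h5 : x = inl x.left := by
      ext
      · rfl
      · exact hx1
    rw [h5, ← map_pow]
    have h6 : x.left ^ r = 1 := by
      funext i
      rw [Pi.pow_apply, h2 _ (hx2 i)]
      rfl
    rw [h6, map_one]
  · ext x
    rw [Subgroup.mem_centralizer_iff, mem_base]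
    have hs : ∀ (i : S) (u : G), u ∈ V → (inl (Pi.mulSingle i u) : Wr G S) ∈ base (S := S) V := by
      intro i u hu
      refine mem_base.mpr ⟨right_inl _, fun j => ?_⟩
      rw [left_inl]
      by_cases hi : j = i
      · subst hi
        rw [Pi.mulSingle_eq_same]
        exact hu
      · rw [Pi.mulSingle_eq_of_ne hi]
        exact V.one_mem
    constructor
    · intro H
      have hc : ∀ (i : S) (u : G), u ∈ V →
          x * inl (Pi.mulSingle i u) * x⁻¹ = inl (Pi.mulSingle i u) := by
        intro i u hu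
        rw [← H _ (hs i u hu), mul_inv_cancel_right]
      have hr1 : x.right = 1 := by
        have h5 := congrFun (congrArg SemidirectProduct.left (hc 1 v hv)) x.right
        rw [conj_left _ _ (right_inl _), left_inl, inv_mul_cancel, Pi.mulSingle_eq_same] at h5
        by_contra hne
        rw [Pi.mulSingle_eq_of_ne hne] at h5
        apply hv1
        have h6 : v = (x.left x.right)⁻¹ * (x.left x.right * v * (x.left x.right)⁻¹) *
          x.left x.right := by group
        rw [h6, h5]
        group
      refine ⟨hr1, fun i => ?_⟩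
      rw [← h3, Subgroup.mem_centralizer_iff]
      intro u hu
      have h5 := congrFun (congrArg SemidirectProduct.left (hc i u hu)) i
      rw [conj_left _ _ (right_inl _), left_inl, hr1, inv_one, one_mul, Pi.mulSingle_eq_same] at h5
      exact (mul_inv_eq_iff_eq_mul.mp h5).symm
    · rintro ⟨hx1, hx2⟩ y hy
      obtain ⟨hy1, hy2⟩ := mem_base.mp hy
      ext i
      · rw [mul_left, mul_left, Pi.mul_apply, Pi.mul_apply, rAct_apply, rAct_apply, hx1, hy1,
          inv_one, one_mul]
        have h5 := hx2 i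
        rw [← h3, Subgroup.mem_centralizer_iff] at h5
        exact h5 _ (hy2 i)
      · rw [mul_right, mul_right, hx1, hy1]
  · apply Subgroup.isComplement'_of_card_mul_and_disjoint
    · rw [card_base, card_comp, SemidirectProduct.card, Nat.card_fun, ← h4.card_mul_card, mul_pow]
      ring
    · rw [Subgroup.disjoint_def]
      intro x hx hy
      obtain ⟨hx1, hx2⟩ := mem_base.mp hx
      ext i
      · exact Subgroup.disjoint_def.mp h4.disjoint (hx2 i) (mem_comp.mp hy i)
      · exact hx1

end wr

end Pool.Agent.Run7.h45.IN
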