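import Pool.Agent.Run7.h45.IN6

/-!
# One congruence decides, for split extensions of elementary abelian `r`-groups
-/

set_option autoImplicit false
set_option linter.unusedSectionVars false
set_option linter.style.haveILetI false

open scoped BigOperators Classical

noncomputable section

namespace Pool.Agent.Run7.h45.IN

open Pool.Agent.K3h83.IN
open Pool.Agent.K3h83.PI (ClsP main3 idx)
open Pool.Agent.Helper884 Pool.Agent.K3h3.KB Pool.Agent.K3h3.MK SemidirectProduct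
open Pool.Agent.H254R3.IN (IsIrr mem_Irr)
open IC (Irr)

/-- `(R ^ s - 1) / (R - 1)` is prime to `q` if `q ∣ R - 1` and `q ∤ s` -/
theorem dvd_geom {q a s : ℕ} (hq : q.Prime) {R : ℤ} (hR : (q : ℤ) ∣ R - 1) (hs : ¬ q ∣ s)
    (h : ((q : ℤ) ^ (a + 1)) ∣ R ^ s - 1) : (q : ℤ) ^ (a + 1) ∣ R - 1 := by
  have h1 : (∑ i ∈ Finset.range s, R ^ i) * (R - 1) = R ^ s - 1 := geom_sum_mul R s
  have h2 : ¬ (q : ℤ) ∣ ∑ i ∈ Finset.range s, R ^ i := by
    intro h3
    have h4 : (q : ℤ) ∣ (∑ i ∈ Finset.range s, R ^ i) - s := by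
      have e : (∑ i ∈ Finset.range s, R ^ i) - s = ∑ i ∈ Finset.range s, (R ^ i - 1) := by
        rw [Finset.sum_sub_distrib]
        simp
      rw [e]
      refine Finset.dvd_sum fun i _ => ?_
      exact hR.trans (by simpa using sub_dvd_pow_sub_pow R 1 i)
    have h5 : (q : ℤ) ∣ s := by
      have := dvd_sub h3 h4
      simpa using this
    exact hs (by exact_mod_cast h5)
  rw [← h1] at h
  have hqp : Prime (q : ℤ) := Nat.prime_iff_prime_int.mp hq
  have hcop : IsCoprime ((q : ℤ) ^ (a + 1)) (∑ i ∈ Finset.range s, R ^ i) :=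
    IsCoprime.pow_left ((Prime.coprime_iff_not_dvd hqp).mpr h2)
  exact hcop.dvd_of_dvd_mul_left h

section

variable {p : ℕ} [hp : Fact p.Prime]

/-- divisors `d` of numbers `r ^ m - 1` in given classes modulo `p` with `(r ^ m - 1) / d` prime to `q` -/
theorem exists_div {q r : ℕ} (hq : q.Prime) (hr : r.Prime) (hqp : q ≠ p) (hqr : q ≠ r)
    (v : (ZMod p)ˣ) (B : ℕ) : ∃ d k m : ℕ, B < d ∧ ¬ p ∣ d ∧ (d : ZMod p) = v ∧
      r ^ m = 1 + d * k ∧ ¬ q ∣ k := by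
  haveI : NeZero p := ⟨hp.out.ne_zero⟩
  haveI : Fact q.Prime := ⟨hq⟩
  set m₀ := q * (q - 1) with hm₀
  have hm₀0 : 0 < m₀ := Nat.mul_pos hq.pos (Nat.sub_pos_of_lt hq.one_lt)
  have hR1 : 1 < r ^ m₀ := Nat.one_lt_pow hm₀0.ne' hr.one_lt
  have hN0 : r ^ m₀ - 1 ≠ 0 := by omega
  have hqN : q ∣ r ^ m₀ - 1 := by
    rw [← Nat.modEq_iff_dvd' hR1.le]
    have hcop : Nat.Coprime r q := (Nat.coprime_primes hr hq).mpr (Ne.symm hqr)
    have h1 := Nat.ModEq.pow_totient hcop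
    rw [Nat.totient_prime hq] at h1
    have h2 := (h1.pow q).symm
    rw [one_pow, ← pow_mul, mul_comm] at h2
    exact h2
  set a := padicValNat q (r ^ m₀ - 1) with ha
  have ha1 : q ^ a ∣ r ^ m₀ - 1 := pow_padicValNat_dvd
  have ha2 : ¬ q ^ (a + 1) ∣ r ^ m₀ - 1 := pow_succ_padicValNat_not_dvd hN0
  -- the prime
  have hqz : (q : ZMod p) ≠ 0 := by
    intro h0
    rw [ZMod.natCast_eq_zero_iff] at h0
    exact hqp ((Nat.prime_dvd_prime_iff_eq hp.out hq).mp h0).symm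
  set w : (ZMod p)ˣ := v * ((Units.mk0 (q : ZMod p) hqz) ^ a)⁻¹ with hw
  have hcpq : Nat.Coprime p (q ^ 2) :=
    Nat.Coprime.pow_right 2 ((Nat.coprime_primes hp.out hq).mpr (Ne.symm hqp))
  obtain ⟨x, hx1, hx2⟩ := Nat.chineseRemainder hcpq (w : ZMod p).val (1 + q)
  have hxw : (x : ZMod p) = w := by
    rw [← ZMod.natCast_zmod_val (w : ZMod p)]
    exact (ZMod.natCast_eq_natCast_iff _ _ _).mpr hx1
  have hxp : ¬ p ∣ x := by
    intro h
    rw [(ZMod.natCast_eq_zero_iff _ _).mpr h] at hxw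
    exact w.ne_zero hxw.symm
  have hxq : ¬ q ∣ x := by
    intro h
    have h1 : x ≡ 1 + q [MOD q] := hx2.of_dvd (dvd_pow_self q two_ne_zero)
    have h2 : q ∣ 1 + q := (Nat.ModEq.dvd_iff h1 dvd_rfl).mp h
    have h3 : q ∣ 1 := (Nat.dvd_add_left dvd_rfl).mp h2
    exact hq.one_lt.ne' (Nat.dvd_one.mp h3)
  have hcx : x.Coprime (p * q ^ 2) := by
    apply Nat.Coprime.mul_right
    · exact ((Nat.Prime.coprime_iff_not_dvd hp.out).mpr hxp).symm
    · exact Nat.Coprime.pow_right 2 ((Nat.Prime.coprime_iff_not_dvd hq).mpr hxq).symm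
  obtain ⟨l, hl1, hl, hlx⟩ := Nat.forall_exists_prime_gt_and_modEq (max B (max (max p r) (1 + q)))
    (q := p * q ^ 2) (a := x) (mul_ne_zero hp.out.ne_zero (pow_ne_zero 2 hq.ne_zero)) hcx
  have hlB : B < l := lt_of_le_of_lt (le_max_left _ _) hl1
  have hlpr : max p r < l := lt_of_le_of_lt ((le_max_left _ _).trans (le_max_right _ _)) hl1
  have hlp : p < l := lt_of_le_of_lt (le_max_left _ _) hlpr
  have hlr : r < l := lt_of_le_of_lt (le_max_right _ _) hlpr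
  have hlq : 1 + q < l := lt_of_le_of_lt ((le_max_right _ _).trans (le_max_right _ _)) hl1
  have hlw : (l : ZMod p) = w := by
    rw [← hxw]
    exact (ZMod.natCast_eq_natCast_iff _ _ _).mpr (hlx.of_dvd (dvd_mul_right _ _))
  have hl2 : l ≡ 1 + q [MOD q ^ 2] := (hlx.of_dvd (dvd_mul_left _ _)).trans hx2
  obtain ⟨j, hj⟩ := (Nat.modEq_iff_dvd' hlq.le).mp hl2.symm
  set s := 1 + q * j with hs
  have hls : l = 1 + q * s := by
    have : l = 1 + q + q ^ 2 * j := by omega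
    rw [this, hs]
    ring
  have hqs : ¬ q ∣ s := by
    intro h
    have h3 : q ∣ 1 := (Nat.dvd_add_left (dvd_mul_right q j)).mp h
    exact hq.one_lt.ne' (Nat.dvd_one.mp h3)
  have hm : m₀ * s = (q - 1) * (l - 1) := by
    rw [hls, hm₀, Nat.add_sub_cancel_left]
    ring
  have hRm : r ^ (m₀ * s) = (r ^ m₀) ^ s := pow_mul _ _ _
  have h1m : 1 ≤ r ^ (m₀ * s) := Nat.one_le_pow _ _ hr.pos
  -- `q ^ a` and `l` divide `r ^ m - 1`
  have hqd : q ^ a ∣ r ^ (m₀ * s) - 1 := by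
    rw [hRm]
    exact ha1.trans (by simpa using Nat.sub_dvd_pow_sub_pow (r ^ m₀) 1 s)
  have hld : l ∣ r ^ (m₀ * s) - 1 := by
    rw [← Nat.modEq_iff_dvd' h1m, hm]
    have hcop : Nat.Coprime r l := (Nat.coprime_primes hr hl).mpr hlr.ne
    have h1 := Nat.ModEq.pow_totient hcop
    rw [Nat.totient_prime hl] at h1
    have h2 := (h1.pow (q - 1)).symm
    rw [one_pow, ← pow_mul, mul_comm] at h2
    exact h2
  have hcql : Nat.Coprime (q ^ a) l :=
    Nat.Coprime.pow_left a ((Nat.coprime_primes hq hl).mpr (by omega))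
  obtain ⟨k, hk⟩ := hcql.mul_dvd_of_dvd_of_dvd hqd hld
  have hpd : ¬ p ∣ q ^ a * l := by
    intro h
    rcases (Nat.Prime.dvd_mul hp.out).mp h with h | h
    · exact hqp ((Nat.prime_dvd_prime_iff_eq hp.out hq).mp (hp.out.dvd_of_dvd_pow h)).symm
    · exact hlp.ne ((Nat.prime_dvd_prime_iff_eq hp.out hl).mp h)
  refine ⟨q ^ a * l, k, m₀ * s, ?_, hpd, ?_, by omega, ?_⟩
  · exact lt_of_lt_of_le hlB (Nat.le_mul_of_pos_left l (pow_pos hq.pos a))
  · rw [Nat.cast_mul, hlw, hw, Nat.cast_pow, Units.val_mul]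
    have h3 : (((Units.mk0 (q : ZMod p) hqz) ^ a : (ZMod p)ˣ) : ZMod p) = (q : ZMod p) ^ a := by
      rw [Units.val_pow_eq_pow_val, Units.val_mk0]
    rw [← h3, mul_left_comm, ← Units.val_mul, mul_inv_cancel, Units.val_one, mul_one]
  · intro h
    apply ha2
    have h4 : q ^ (a + 1) ∣ r ^ (m₀ * s) - 1 := by
      rw [hk, pow_succ]
      obtain ⟨k', rfl⟩ := h
      exact ⟨l * k', by ring⟩
    have h5 : ((q : ℤ) ^ (a + 1)) ∣ ((r : ℤ) ^ m₀) ^ s - 1 := by
      have h6 : (((q ^ (a + 1) : ℕ)) : ℤ) ∣ ((r ^ (m₀ * s) - 1 : ℕ) : ℤ) :=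
        Int.natCast_dvd_natCast.mpr h4
      rw [Nat.cast_sub h1m, hRm] at h6
      push_cast at h6
      exact h6
    have h7 := dvd_geom (a := a) hq (R := (r : ℤ) ^ m₀) (by
      have h8 : ((q : ℕ) : ℤ) ∣ ((r ^ m₀ - 1 : ℕ) : ℤ) := Int.natCast_dvd_natCast.mpr hqN
      rw [Nat.cast_sub hR1.le] at h8
      push_cast at h8
      exact h8) hqs h5
    have h9 : (((q ^ (a + 1) : ℕ)) : ℤ) ∣ ((r ^ m₀ - 1 : ℕ) : ℤ) := by
      rw [Nat.cast_sub hR1.le]
      push_cast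
      exact h7
    exact Int.natCast_dvd_natCast.mp h9

end

end Pool.Agent.Run7.h45.IN
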