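import Pool.Agent.Run7.h45.IN7

/-!
# One congruence decides, for split extensions of elementary abelian `r`-groups: the induction
-/

set_option autoImplicit false
set_option linter.unusedSectionVars false
set_option linter.style.haveILetI false

open scoped BigOperators Classical

noncomputable section

namespace Pool.Agent.Run7.h45.IN

open Pool.Agent.K3h83.IN
open Pool.Agent.K3h83.PI (ClsP main3 idx)
open Pool.Agent.Helper884 Pool.Agent.K3h3.KB Pool.Agent.K3h3.MK SemidirectProduct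
open Pool.Agent.H254R3.IN (IsIrr mem_Irr)
open IC (Irr)

/-- the split extensions of nontrivial self-centralising elementary abelian normal `r`-subgroups by
groups in the class -/
def FamW (r : ℕ) (C : ∀ (G : Type) [Group G], Prop) (H : Type) [Group H] : Prop :=
  ∃ (L : Type) (_ : Group L), C L ∧ Spn r H L

theorem spl_fin {r : ℕ} {H M : Type} [Group H] [Finite H] [Group M] (h : Spl r H M) : Finite M := by
  obtain ⟨V, K, h1, h2, h3, h4, ⟨f⟩⟩ := h
  exact Finite.of_equiv K f.toEquiv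

section

variable {p r : ℕ} [hp : Fact p.Prime] [hr : Fact r.Prime] {C : ∀ (G : Type) [Group G], Prop}

theorem famW_prod (hC : ClsP p C) {G H D : Type} [Group G] [Finite G] [Group H] [Finite H] [Group D]
    (hG : FamW r C G) (hS : Spl r H D) (hD : IsCyclic D) : FamW r C (G × H) := by
  obtain ⟨L, _, hL, hSG⟩ := hG
  haveI : Finite L := spl_fin hSG.spl
  haveI : Finite D := spl_fin hS
  haveI : Nontrivial G := by
    obtain ⟨V, K, h0, -⟩ := hSG
    by_contra hcon
    rw [not_nontrivial_iff_subsingleton] at hcon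
    exact h0 (Subsingleton.elim _ _)
  exact ⟨L × D, inferInstance, cls_prod hC hL hD, (spl_prod hSG.spl hS).spn⟩

/-- **The base step.** -/
theorem base_step' {q : ℕ} (hq : q.Prime) (hqp : q ≠ p) (hqr : q ≠ r) (hrp : r ≠ p) (hC : ClsP p C)
    (b : (ZMod p)ˣ) (n₀ : ℕ) {G : Type} [Group G] [Finite G] (hG : FamW r C G) (P : Sylow p G)
    (HH : ∀ (H : Type) [Group H] [Finite H], FamW r C H → n₀ ≤ Nat.card H → ∀ R : Sylow p H,
      (q : ℤ) ∣ (wt (cl p) H - wt (cl p) (NN R)).coeff (b ^ 2)) :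
    ((q ^ 1 : ℕ) : RR p) ∣ wt (cl p) G - wt (cl p) (NN P) := by
  set D := wt (cl p) G - wt (cl p) (NN P) with hD
  have hqz : Prime (q : ℤ) := Nat.prime_iff_prime_int.mp hq
  have hn : 1 ≤ Nat.card G := Nat.card_pos
  -- the coefficient at `b ^ 2`
  have hb : (q : ℤ) ∣ D.coeff (b ^ 2) := by
    have h1 : r ^ (n₀ + 1) = 1 + 1 * (r ^ (n₀ + 1) - 1) := by
      have := Nat.one_le_pow (n₀ + 1) r hr.out.pos
      omega
    have h2 : n₀ + 1 < r ^ (n₀ + 1) := Nat.lt_pow_self hr.out.one_lt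
    obtain ⟨H, E, _, _, _, hE, -, hS, hcard, hpH, hw⟩ := aff_of (p := p) hrp one_pos
      (fun h => hp.out.one_lt.ne' (Nat.dvd_one.mp h)) h1 (by omega)
    have h3 := HH (G × H) (famW_prod hC hG hS hE) (by
      rw [Nat.card_prod, hcard]
      have : 1 + 1 * (r ^ (n₀ + 1) - 1) ≤ Nat.card G * ((1 + 1 * (r ^ (n₀ + 1) - 1)) * 1) := by
        rw [mul_one]
        exact Nat.le_mul_of_pos_left _ hn
      omega) default
    rw [coeff_aff P default hpH b b (by simp) hw, ← hD, ← add_mul] at h3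
    have h4 : ((r ^ (n₀ + 1) - 1 : ℕ) : ℤ) + ((1 : ℕ) : ℤ) = (r : ℤ) ^ (n₀ + 1) := by
      rw [← Nat.cast_add]
      have : r ^ (n₀ + 1) - 1 + 1 = r ^ (n₀ + 1) := by omega
      rw [this, Nat.cast_pow]
    rw [h4] at h3
    rcases hqz.dvd_or_dvd h3 with h5 | h5
    · exfalso
      have h6 : (q : ℤ) ∣ r := hqz.dvd_of_dvd_pow h5
      exact hqr ((Nat.prime_dvd_prime_iff_eq hq hr.out).mp (by exact_mod_cast h6))
    · exact h5
  rw [pow_one]
  apply dvd_of_coeff
  intro v
  by_cases hv : ∃ u, u ^ 2 = v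
  · obtain ⟨u, rfl⟩ := hv
    obtain ⟨d, k, m, hBd, hpd, hdv, hk, hqk⟩ := exists_div (p := p) hq hr.out hqp hqr (b * u⁻¹) n₀
    have hk0 : k ≠ 0 := by
      rintro rfl
      exact hqk (dvd_zero q)
    obtain ⟨H, E, _, _, _, hE, -, hS, hcard, hpH, hw⟩ := aff_of (p := p) hrp (by omega) hpd hk hk0
    have h3 := HH (G × H) (famW_prod hC hG hS hE) (by
      rw [Nat.card_prod, hcard]
      have h1 : d ≤ (1 + d * k) * d := Nat.le_mul_of_pos_left _ (by omega)
      have h2 : (1 + d * k) * d ≤ Nat.card G * ((1 + d * k) * d) := Nat.le_mul_of_pos_left _ hn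
      omega) default
    rw [coeff_aff P default hpH u b hdv hw, ← hD] at h3
    have h4 : (q : ℤ) ∣ (k : ℤ) * D.coeff (u ^ 2) := (dvd_add_left (Dvd.dvd.mul_left hb _)).mp h3
    rcases hqz.dvd_or_dvd h4 with h5 | h5
    · exact absurd (by exact_mod_cast h5) hqk
    · exact h5
  · push Not at hv
    have h1 := coeff_nonsq p G hv
    have h2 := coeff_nonsq p (NN P) hv
    have h3 : D.coeff v = (wt (cl p) G).coeff v - (wt (cl p) (NN P)).coeff v := rfl
    rw [h3, h1, h2, sub_zero]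
    exact dvd_zero _

/-- **The congruences.** -/
theorem main_cong {q : ℕ} (hq : q.Prime) (hqp : q ≠ p) (hqr : q ≠ r) (hrp : r ≠ p)
    (h2 : ¬ q ∣ (p - 1) / 2) (hC : ClsP p C) {S : Type} [CommGroup S] [Finite S]
    (hS : Nat.card S = q) (hwr : ∀ (L : Type) [Group L] [Finite L], C L → C (Wr L S))
    (b : (ZMod p)ˣ) (n₀ : ℕ)
    (HH : ∀ (H : Type) [Group H] [Finite H], FamW r C H → n₀ ≤ Nat.card H → ∀ R : Sylow p H,
      (q : ℤ) ∣ (wt (cl p) H - wt (cl p) (NN R)).coeff (b ^ 2))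
    (G : Type) [Group G] [Finite G] (hG : FamW r C G) (P : Sylow p G) :
    wt (cl p) G = wt (cl p) (NN P) := by
  have hW : ∀ (G : Type) [Group G] [Finite G], FamW r C G → FamW r C (Wr G S) := by
    rintro G _ _ ⟨L, _, hL, hSG⟩
    haveI : Finite L := spl_fin hSG.spl
    exact ⟨Wr L S, inferInstance, hwr L hL, spn_wr hSG⟩
  have h1 : ∀ j : ℕ, ∀ (G : Type) [Group G] [Finite G], FamW r C G → ∀ P : Sylow p G,
      ((q ^ (j + 1) : ℕ) : RR p) ∣ wt (cl p) G - wt (cl p) (NN P) := by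
    intro j
    induction j with
    | zero =>
      intro G _ _ hG P
      exact base_step' hq hqp hqr hrp hC b n₀ hG P HH
    | succ j ih =>
      intro G _ _ hG P
      exact step_grp p hq hqp h2 (Nat.succ_le_succ (Nat.zero_le j)) hS P default (ih G hG P)
        (ih _ (hW G hG) _)
  rw [← sub_eq_zero]
  ext v
  change (wt (cl p) G - wt (cl p) (NN P)).coeff v = 0
  by_contra hne
  obtain ⟨j, hj⟩ : ∃ j : ℕ, ((wt (cl p) G - wt (cl p) (NN P)).coeff v).natAbs < q ^ j :=
    ⟨_, Nat.lt_pow_self hq.one_lt⟩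
  have h3 := coeff_of_dvd p (h1 j G hG P) v
  have h4 : q ^ (j + 1) ∣ ((wt (cl p) G - wt (cl p) (NN P)).coeff v).natAbs := by
    rw [← Int.natCast_dvd]
    exact h3
  have h5 := Nat.le_of_dvd (Int.natAbs_pos.mpr hne) h4
  have h6 : q ^ j ≤ q ^ (j + 1) := Nat.pow_le_pow_right hq.pos (Nat.le_succ j)
  omega

/-- the whole class -/
theorem all_of_cong {q : ℕ} (hq : q.Prime) (hqp : q ≠ p) (hqr : q ≠ r) (hrp : r ≠ p)
    (h2 : ¬ q ∣ (p - 1) / 2) (hC : ClsP p C) {S : Type} [CommGroup S] [Finite S]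
    (hS : Nat.card S = q) (hwr : ∀ (L : Type) [Group L] [Finite L], C L → C (Wr L S))
    (b : (ZMod p)ˣ) (n₀ : ℕ)
    (HH : ∀ (H : Type) [Group H] [Finite H], FamW r C H → n₀ ≤ Nat.card H → ∀ R : Sylow p H,
      (q : ℤ) ∣ (wt (cl p) H - wt (cl p) (NN R)).coeff (b ^ 2)) :
    ∀ (G : Type) [Group G] [Finite G], C G → Q1 p G := by
  refine main_red hrp hC fun G L _ _ _ _ hSG hL hR P => ?_
  refine main_cong hq hqp hqr hrp h2 hC hS hwr b n₀ HH G ?_ P
  haveI : Nontrivial G := by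
    by_contra hcon
    rw [not_nontrivial_iff_subsingleton] at hcon
    obtain ⟨V, K, h1, h2, h3, h4, ⟨f⟩⟩ := hSG
    haveI : Subsingleton L := f.symm.toEquiv.subsingleton
    exact (hR.syl default).1 inferInstance
  exact ⟨L, inferInstance, hL, hSG.spn⟩

end

end Pool.Agent.Run7.h45.IN
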