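import Pool.Agent.Run7.h45.Kp1

/-!
# The error term of a semidirect product and the fixed points of subgroups
-/

set_option autoImplicit false
set_option linter.unusedSectionVars false

open scoped BigOperators Classical

noncomputable section

namespace Run7.h45

open Pool.Agent.Y63.KR Pool.Agent.Q18.KRX

section moebius

variable {α : Type} [Fintype α] [PartialOrder α]

theorem exists_eM (F : α → ℤ) :
    ∃ e : α → ℤ, ∀ H, ∑ K ∈ Finset.univ.filter (· ≤ H), e K = F H := by
  have hwf : WellFounded ((· < ·) : α → α → Prop) := Finite.to_wellFoundedLT.wf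
  let e : α → ℤ := hwf.fix (fun H ih => F H - ∑ K : {K // K < H}, ih K.1 K.2)
  refine ⟨e, fun H => ?_⟩
  have h1 : e H = F H - ∑ K : {K // K < H}, e K.1 := hwf.fix_eq _ H
  have h2 : Finset.univ.filter (· ≤ H) = insert H (Finset.univ.filter (· < H)) := by
    ext K
    simp only [Finset.mem_filter, Finset.mem_univ, true_and, Finset.mem_insert]
    exact le_iff_eq_or_lt
  rw [h2, Finset.sum_insert (by simp), h1]
  have h3 : ∑ K ∈ Finset.univ.filter (· < H), e K = ∑ K : {K // K < H}, e K.1 :=
    Finset.sum_subtype (p := fun K => K < H) _ (by simp) e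
  rw [h3]
  ring

theorem eM_min {F e : α → ℤ} (he : ∀ H, ∑ K ∈ Finset.univ.filter (· ≤ H), e K = F H)
    (H : α) (h : ∀ K < H, F K = 0) : e H = F H := by
  have hwf : WellFounded ((· < ·) : α → α → Prop) := Finite.to_wellFoundedLT.wf
  have key : ∀ K, K < H → e K = 0 := by
    intro K
    induction K using hwf.induction with
    | _ K ih =>
      intro hK
      have h1 := he K
      rw [h K hK] at h1
      have h2 : Finset.univ.filter (· ≤ K) = insert K (Finset.univ.filter (· < K)) := by
        ext J
        simp only [Finset.mem_filter, Finset.mem_univ, true_and, Finset.mem_insert]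
        exact le_iff_eq_or_lt
      rw [h2, Finset.sum_insert (by simp), Finset.sum_eq_zero, add_zero] at h1
      · exact h1
      · intro J hJ
        have hJ' := (Finset.mem_filter.mp hJ).2
        exact ih J hJ' (hJ'.trans hK)
  have h1 := he H
  have h2 : Finset.univ.filter (· ≤ H) = insert H (Finset.univ.filter (· < H)) := by
    ext J
    simp only [Finset.mem_filter, Finset.mem_univ, true_and, Finset.mem_insert]
    exact le_iff_eq_or_lt
  rw [h2, Finset.sum_insert (by simp), Finset.sum_eq_zero, add_zero] at h1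
  · exact h1
  · intro J hJ
    exact key J (Finset.mem_filter.mp hJ).2

end moebius

section err

variable {V L : Type} [CommGroup V] [Group L] (φ : L →* MulAut V) [Finite V] [Finite L]
  {p : ℕ} [Fact p.Prime]

theorem errZ_semi (hV : ¬ p ∣ Nat.card V) :
    (Nat.card L : ℤ) * errZ p (V ⋊[φ] L) =
      ∑ᶠ θ : V →* ℂ, (Nat.card (stL φ θ) : ℤ) * errZ p (stL φ θ) := by
  have h := dK_semi (p := p) φ hV
  have h1 : ∀ (H : Type) [Group H], errZ p H = - dK p H := fun H _ => by
    unfold errZ dK
    ring
  have f4 : Finite (V →* ℂ) := finite_dual V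
  have f5 : Fintype (V →* ℂ) := Fintype.ofFinite _
  rw [finsum_eq_sum_of_fintype] at h ⊢
  rw [h1, mul_neg, h, ← Finset.sum_neg_distrib]
  exact Finset.sum_congr rfl fun θ _ => by rw [h1, mul_neg]

/-- the error term by the fixed points of subgroups -/
theorem errZ_nF [Fintype (Subgroup L)] (hV : ¬ p ∣ Nat.card V) {e : Subgroup L → ℤ}
    (he : ∀ H : Subgroup L, ∑ K ∈ Finset.univ.filter (· ≤ H), e K =
      (Nat.card H : ℤ) * errZ p H) :
    (Nat.card L : ℤ) * errZ p (V ⋊[φ] L) = ∑ K : Subgroup L, e K * nF φ K := by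
  have f4 : Finite (V →* ℂ) := finite_dual V
  have f5 : Fintype (V →* ℂ) := Fintype.ofFinite _
  rw [errZ_semi φ hV, finsum_eq_sum_of_fintype]
  have h1 : ∀ θ : V →* ℂ, (Nat.card (stL φ θ) : ℤ) * errZ p (stL φ θ) =
      ∑ K : Subgroup L, if K ≤ stL φ θ then e K else 0 := by
    intro θ
    rw [← he (stL φ θ), Finset.sum_filter]
  rw [Finset.sum_congr rfl fun θ _ => h1 θ, Finset.sum_comm]
  refine Finset.sum_congr rfl fun K _ => ?_
  rw [← Finset.sum_filter, Finset.sum_const, nsmul_eq_mul, mul_comm]
  congr 1
  unfold nF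
  rw [Nat.card_eq_fintype_card, Fintype.card_subtype]

end err

end Run7.h45
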