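import Pool.Agent.K3h3.MK.Syl
import Pool.Agent.Q99.AS.Chain
import Pool.Agent.Q18.KRX.Last
import Pool.Agent.Q90.WR.Krq
import Pool.Agent.Run7.h45.Kp2

/-!
# The Knörr–Robinson sum and the number of characters of defect zero of a power
-/

set_option autoImplicit false
set_option linter.unusedSectionVars false
set_option linter.style.haveILetI false

open scoped BigOperators Classical

noncomputable section

namespace Pool.Agent.Run7.h45.KW

open Pool.Agent.Y63.KR Pool.Agent.Q18.KRX
open Pool.Agent.Q99.AS (altSum altSum_prod IsCh card_mul_altSum ConjInv)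
open Pool.Agent.Y63.AWC (numDefectZero)
open Pool.Agent.Helper884

variable {p : ℕ} [hp : Fact p.Prime]

/-- the class number as a function of subgroups -/
def kf (G : Type) [Group G] (H : Subgroup G) : ℤ := (Nat.card (ConjClasses H) : ℤ)

theorem kf_iso (G : Type) [Group G] : IsoInv (kf G) := by
  rintro H K ⟨e⟩
  unfold kf
  have : Nat.card (ConjClasses H) = Nat.card (ConjClasses K) := by
    refine Nat.card_congr
      { toFun := ConjClasses.map e.toMonoidHom
        invFun := ConjClasses.map e.symm.toMonoidHom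
        left_inv := ?_
        right_inv := ?_ }
    · intro c
      obtain ⟨x, rfl⟩ := ConjClasses.exists_rep c
      change ConjClasses.mk (e.symm (e x)) = _
      rw [e.symm_apply_apply]
    · intro c
      obtain ⟨x, rfl⟩ := ConjClasses.exists_rep c
      change ConjClasses.mk (e (e.symm x)) = _
      rw [e.apply_symm_apply]
  rw [this]

theorem kf_conj (G : Type) [Group G] : ConjInv (kf G) := by
  intro g H
  exact kf_iso G _ _ ⟨((MulAut.conj g).subgroupMap H).symm⟩

theorem card_classes_prod (A B : Type) [Group A] [Group B] [Finite A] [Finite B] :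
    Nat.card (ConjClasses (A × B)) = Nat.card (ConjClasses A) * Nat.card (ConjClasses B) := by
  have h := commProb_prod (M := A) B
  rw [commProb_def', commProb_def', commProb_def', Nat.card_prod] at h
  have hA : (Nat.card A : ℚ) ≠ 0 := by exact_mod_cast Nat.card_pos.ne'
  have hB : (Nat.card B : ℚ) ≠ 0 := by exact_mod_cast Nat.card_pos.ne'
  push_cast at h
  field_simp at h
  exact_mod_cast h

theorem kf_prod {A B : Type} [Group A] [Group B] [Finite A] [Finite B] (H : Subgroup A)
    (K : Subgroup B) : kf (A × B) (H.prod K) = kf A H * kf B K := by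
  unfold kf
  have h : Nat.card (ConjClasses (H.prod K)) = Nat.card (ConjClasses (H × K)) := by
    let e := Subgroup.prodEquiv H K
    refine Nat.card_congr
      { toFun := ConjClasses.map e.toMonoidHom
        invFun := ConjClasses.map e.symm.toMonoidHom
        left_inv := ?_
        right_inv := ?_ }
    · intro c
      obtain ⟨x, rfl⟩ := ConjClasses.exists_rep c
      change ConjClasses.mk (e.symm (e x)) = _
      rw [e.symm_apply_apply]
    · intro c
      obtain ⟨x, rfl⟩ := ConjClasses.exists_rep c
      change ConjClasses.mk (e (e.symm x)) = _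
      rw [e.apply_symm_apply]
  rw [h, card_classes_prod]
  push_cast
  rfl

theorem krSum_altSum (G : Type) [Group G] [Finite G] :
    krSum p G = altSum p (⊥ : Subgroup G) (kf G) := by
  let _ : Fintype (Subgroup G) := Fintype.ofFinite _
  let _ : Fintype {σ : Set (Subgroup G) // IsPChain p σ} := Fintype.ofFinite _
  let _ : Fintype {σ : Set (Subgroup G) // IsCh p (⊥ : Subgroup G) σ} := Fintype.ofFinite _
  have h0 : (Nat.card G : ℤ) ≠ 0 := by exact_mod_cast Nat.card_pos.ne'
  apply mul_left_cancel₀ h0
  have h1 := card_mul_alternatingSum (p := p) (G := G) (kf G) (kf_iso G)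
  have h2 := card_mul_altSum (p := p) (G := G) (O := ⊥) inferInstance (kf G) (kf_conj G)
  have e : krSum p G = alternatingSum p G (kf G) := rfl
  rw [e, h1, h2]
  refine Fintype.sum_equiv (Equiv.subtypeEquivRight fun σ => ⟨fun h => ⟨h.chain, h.isPGroup,
    fun P hP => bot_lt_iff_ne_bot.mpr (h.ne_bot P hP)⟩, fun h => ⟨h.chain, h.isPGroup,
    fun P hP => bot_lt_iff_ne_bot.mp (h.lt P hP)⟩⟩) _ _ fun σ => rfl

theorem krSum_prod (A B : Type) [Group A] [Group B] [Finite A] [Finite B] :
    krSum p (A × B) = krSum p A * krSum p B := by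
  rw [krSum_altSum, krSum_altSum, krSum_altSum]
  have h := altSum_prod (p := p) (O₁ := (⊥ : Subgroup A)) (O₂ := (⊥ : Subgroup B))
    IsPGroup.of_bot IsPGroup.of_bot inferInstance inferInstance ({()} : Finset Unit) (kf (A × B))
    (fun _ => kf A) (fun _ => kf B) (kf_conj _) (fun _ => kf_conj _) (fun _ => kf_conj _)
    (fun H K => by rw [Finset.sum_singleton, kf_prod])
  rw [Finset.sum_singleton, Subgroup.bot_prod_bot] at h
  exact h

theorem krSum_unique (G : Type) [Group G] [Finite G] [Unique G] : krSum p G = 1 := by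
  unfold krSum
  rw [alternatingSum_single]
  · have h : Nat.card (ConjClasses (⊤ : Subgroup G)) = 1 := by
      rw [Nat.card_eq_one_iff_unique]
      refine ⟨⟨fun a b => ?_⟩, ⟨ConjClasses.mk 1⟩⟩
      obtain ⟨x, rfl⟩ := ConjClasses.exists_rep a
      obtain ⟨y, rfl⟩ := ConjClasses.exists_rep b
      rw [Subsingleton.elim x y]
    rw [h, Nat.cast_one]
  · rintro σ hσ ⟨P, hP⟩
    exact absurd (Subsingleton.elim P ⊥) (hσ.ne_bot P hP)

theorem krSum_iso' {A B : Type} [Group A] [Group B] [Finite A] [Finite B] (e : A ≃* B) :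
    krSum p A = krSum p B := krSum_iso (p := p) A B ⟨e⟩

theorem krSum_fin (G : Type) [Group G] [Finite G] : ∀ n : ℕ, krSum p (Fin n → G) = krSum p G ^ n
  | 0 => by rw [krSum_unique, pow_zero]
  | n + 1 => by
    rw [krSum_iso' (Pool.Agent.K3h3.KB.consE G n), krSum_prod, krSum_fin G n, pow_succ, mul_comm]

theorem krSum_pi (I G : Type) [Group G] [Finite G] [Finite I] :
    krSum p (I → G) = krSum p G ^ Nat.card I := by
  rw [krSum_iso' (Pool.Agent.K3h3.KB.reE G (Finite.equivFin I)), krSum_fin]

/-! ### characters of defect zero -/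

open Polynomial in
/-- the weight -/
def wp (p : ℕ) : ℕ →* ℤ[X] where
  toFun n := if n = 0 then 0 else X ^ n.factorization p
  map_one' := by simp
  map_mul' a b := by
    by_cases ha : a = 0
    · simp [ha]
    · by_cases hb : b = 0
      · simp [hb]
      · rw [if_neg ha, if_neg hb, if_neg (mul_ne_zero ha hb), Nat.factorization_mul ha hb,
          Finsupp.add_apply, pow_add]

open Pool.Agent.K3h3.MK (wt wt_eq wt_pi)
open IC (Irr)
open Pool.Agent.K3h3.KB (ndeg ndeg_cast)

theorem ndeg_pos' {G : Type} [Group G] [Finite G] {χ : G → ℂ} (h : Pool.Agent.H254R3.IN.IsIrr χ) :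
    ndeg χ ≠ 0 := by
  haveI := Fintype.ofFinite G
  obtain ⟨n, hn, h1⟩ := Pool.Agent.Q90.WR.deg_pos h
  have h2 := ndeg_cast h
  rw [h1] at h2
  have : ndeg χ = n := by exact_mod_cast h2
  rw [this]
  exact hn.ne'

theorem wt_natDegree (G : Type) [Group G] [Finite G] :
    (wt (wp p) G).natDegree ≤ (Nat.card G).factorization p := by
  haveI := Fintype.ofFinite G
  rw [wt_eq]
  refine Polynomial.natDegree_sum_le_of_forall_le _ _ fun χ hχ => ?_
  have h1 : Pool.Agent.H254R3.IN.IsIrr χ := IC.mem_Irr.mp hχ
  change (if ndeg χ = 0 then 0 else Polynomial.X ^ (ndeg χ).factorization p : Polynomial ℤ).natDegree ≤ _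
  rw [if_neg (ndeg_pos' h1), Polynomial.natDegree_X_pow]
  exact Pool.Agent.Q90.WR.fac_le h1 (ndeg_cast h1).symm

theorem wt_coeff (G : Type) [Group G] [Finite G] :
    (wt (wp p) G).coeff ((Nat.card G).factorization p) = numDefectZero p G := by
  haveI := Fintype.ofFinite G
  rw [wt_eq, Polynomial.finsetSum_coeff, Pool.Agent.Q90.WR.numDefectZero_card, Finset.card_filter]
  push_cast
  refine Finset.sum_congr rfl fun χ hχ => ?_
  have h1 : Pool.Agent.H254R3.IN.IsIrr χ := IC.mem_Irr.mp hχ
  change (if ndeg χ = 0 then 0 else Polynomial.X ^ (ndeg χ).factorization p : Polynomial ℤ).coeff _ = _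
  rw [if_neg (ndeg_pos' h1), Polynomial.coeff_X_pow]
  have h2 := Pool.Agent.Q90.WR.defZero_iff (p := p) (χ := χ) (ndeg_cast h1).symm
  by_cases h3 : Pool.Agent.Q90.WR.DefZero p χ
  · rw [if_pos h3, if_pos (h2.mp h3).symm]
  · rw [if_neg h3, if_neg fun h => h3 (h2.mpr h.symm)]

theorem dz_pi (I G : Type) [Group G] [Finite G] [Finite I] :
    numDefectZero p (I → G) = numDefectZero p G ^ Nat.card I := by
  haveI := Fintype.ofFinite I
  have h1 := wt_coeff (p := p) (I → G)
  have h2 : (Nat.card (I → G)).factorization p = Nat.card I * (Nat.card G).factorization p := by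
    rw [Nat.card_fun, Nat.factorization_pow, Finsupp.smul_apply, smul_eq_mul]
  rw [wt_pi, h2, ← Nat.card_eq_fintype_card, Polynomial.coeff_pow_of_natDegree_le (wt_natDegree G),
    wt_coeff] at h1
  exact_mod_cast h1.symm

theorem errZ_pi (I G : Type) [Group G] [Finite G] [Finite I] :
    errZ p (I → G) = (numDefectZero p G : ℤ) ^ Nat.card I - krSum p G ^ Nat.card I := by
  unfold errZ
  rw [dz_pi, krSum_pi]
  push_cast
  rfl

end Pool.Agent.Run7.h45.KW
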