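import Pool.Agent.Run7.h45.KW1
import Pool.Agent.Q18.KRX.Top
import Pool.Agent.Q19.KRX.Ind

/-!
# The error term of the Knörr–Robinson conjecture for wreath products with a group of order `p`
-/

set_option autoImplicit false
set_option linter.unusedSectionVars false
set_option linter.style.haveILetI false

open scoped BigOperators Classical

noncomputable section

namespace Pool.Agent.Run7.h45.KW

open Pool.Agent.Q18.KRX SemidirectProduct
open Pool.Agent.K3h3.MK (Wr rAct rAct_apply)

section wr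

variable {G S : Type} [Group G] [Group S]

/-- the conjugates of the complement -/
def Uh (h : S → G) : Subgroup (Wr G S) :=
  (inr : S →* Wr G S).range.map (MulAut.conj (inl h : Wr G S)).toMonoidHom

/-- the elements of the conjugates of the complement -/
def el (h : S → G) (s : S) : Wr G S := inl h * inr s * (inl h)⁻¹

theorem mem_Uh {h : S → G} {x : Wr G S} : x ∈ Uh h ↔ ∃ s, el h s = x := by
  unfold Uh el
  rw [Subgroup.mem_map]
  constructor
  · rintro ⟨_, ⟨s, rfl⟩, hx⟩
    exact ⟨s, hx⟩
  · rintro ⟨s, hx⟩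
    exact ⟨inr s, ⟨s, rfl⟩, hx⟩

theorem el_right (h : S → G) (s : S) : (el h s).right = s := by
  unfold el
  simp

theorem el_left (h : S → G) (s t : S) : (el h s).left t = h t * (h (s⁻¹ * t))⁻¹ := by
  unfold el
  rw [← map_inv, mul_left, mul_left, mul_right, left_inl, right_inl, one_mul, left_inr, right_inr,
    map_one, mul_one, left_inl, Pi.mul_apply, rAct_apply, Pi.inv_apply]

theorem el_ext {h : S → G} {x : Wr G S} (hx : ∀ t, x.left t = h t * (h (x.right⁻¹ * t))⁻¹) :
    x = el h x.right := by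
  ext t
  · rw [hx, el_left]
  · rw [el_right]

/-- the base group -/
abbrev Bs (G S : Type) [Group G] [Group S] : Subgroup (Wr G S) := (inl : (S → G) →* Wr G S).range

theorem mem_Bs {x : Wr G S} : x ∈ Bs G S ↔ x.right = 1 := by
  constructor
  · rintro ⟨b, rfl⟩
    exact right_inl b
  · intro h
    refine ⟨x.left, ?_⟩
    ext
    · rfl
    · exact h.symm

instance Bs_normal : (Bs G S).Normal := by
  unfold Bs
  rw [range_inl_eq_ker_rightHom]
  infer_instance

theorem Uh_inf (h : S → G) : Bs G S ⊓ Uh h = ⊥ := by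
  rw [eq_bot_iff]
  rintro x ⟨h1, h2⟩
  obtain ⟨s, rfl⟩ := mem_Uh.mp h2
  have h3 : s = 1 := by
    have := mem_Bs.mp h1
    rwa [el_right] at this
  subst h3
  rw [Subgroup.mem_bot]
  unfold el
  simp

theorem card_Uh (h : S → G) : Nat.card (Uh h) = Nat.card S := by
  refine (Nat.card_congr (Equiv.ofBijective (fun s => (⟨el h s, mem_Uh.mpr ⟨s, rfl⟩⟩ : Uh h)) ⟨?_, ?_⟩)).symm
  · intro s t hst
    have := congrArg (fun x : Uh h => (x : Wr G S).right) hst
    simpa [el_right] using this
  · rintro ⟨x, hx⟩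
    obtain ⟨s, rfl⟩ := mem_Uh.mp hx
    exact ⟨s, rfl⟩

/-- two elements with the same conjugate of the complement -/
theorem Uh_eq_iff {h h' : S → G} : Uh h = Uh h' ↔ ∃ k : G, h = fun t => h' t * k := by
  constructor
  · intro e
    have h1 : ∀ s, el h s = el h' s := by
      intro s
      have h2 : el h s ∈ Uh h' := e ▸ mem_Uh.mpr ⟨s, rfl⟩
      obtain ⟨t, ht⟩ := mem_Uh.mp h2
      have h3 : t = s := by
        have := congrArg SemidirectProduct.right ht
        rwa [el_right, el_right] at this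
      rw [← ht, h3]
    refine ⟨(h' 1)⁻¹ * h 1, ?_⟩
    funext t
    have h2 := congrFun (congrArg SemidirectProduct.left (h1 t)) t
    rw [el_left, el_left, inv_mul_cancel] at h2
    have h3 : h t = h' t * (h' 1)⁻¹ * h 1 := mul_inv_eq_iff_eq_mul.mp h2
    rw [h3, mul_assoc]
  · rintro ⟨k, rfl⟩
    ext x
    rw [mem_Uh, mem_Uh]
    have h1 : ∀ s, el (fun t => h' t * k) s = el h' s := by
      intro s
      ext t
      · rw [el_left, el_left]
        group
      · rw [el_right, el_right]
    simp_rw [h1]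

/-- every nontrivial subgroup meeting the base group trivially is a conjugate of the complement, for
groups `S` of prime order -/
theorem exists_Uh [Finite G] [Finite S] (hS : (Nat.card S).Prime) {U : Subgroup (Wr G S)}
    (h1 : Bs G S ⊓ U = ⊥) (h2 : U ≠ ⊥) : ∃ h : S → G, U = Uh h := by
  let f : U →* S := rightHom.comp U.subtype
  have hf : Function.Injective f := by
    rw [injective_iff_map_eq_one]
    rintro ⟨x, hx⟩ h3
    have h4 : x ∈ Bs G S ⊓ U := ⟨mem_Bs.mpr h3, hx⟩
    rw [h1, Subgroup.mem_bot] at h4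
    exact Subtype.ext h4
  have hr : f.range = ⊤ := by
    have hdvd : Nat.card f.range ∣ Nat.card S := Subgroup.card_subgroup_dvd_card _
    rcases (Nat.dvd_prime hS).mp hdvd with h3 | h3
    · exfalso
      apply h2
      have h4 := Subgroup.card_eq_one.mp h3
      rw [Subgroup.eq_bot_iff_forall]
      intro x hx
      have h5 : f ⟨x, hx⟩ = 1 := by
        have : f ⟨x, hx⟩ ∈ f.range := ⟨_, rfl⟩
        rwa [h4, Subgroup.mem_bot] at this
      exact congrArg Subtype.val (hf (h5.trans (map_one f).symm))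
    · exact Subgroup.eq_top_of_card_eq _ h3
  have hs : Function.Surjective f := MonoidHom.range_eq_top.mp hr
  choose σ hσ using hs
  have hσ' : ∀ s, (σ s : Wr G S).right = s := hσ
  have hmul : ∀ s t, (σ s : Wr G S) * σ t = σ (s * t) := by
    intro s t
    have : σ s * σ t = σ (s * t) := hf (by rw [map_mul, hσ, hσ, hσ])
    rw [← this, Subgroup.coe_mul]
  let h : S → G := fun t => (σ t : Wr G S).left t
  have key : ∀ s, (σ s : Wr G S) = el h s := by
    intro s
    have h3 : (σ s : Wr G S) = el h (σ s : Wr G S).right := by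
      refine el_ext fun t => ?_
      rw [hσ']
      have h4 := congrFun (congrArg SemidirectProduct.left (hmul s (s⁻¹ * t))) t
      rw [mul_left, Pi.mul_apply, rAct_apply, hσ', mul_inv_cancel_left] at h4
      exact eq_mul_inv_of_mul_eq h4
    rw [h3, hσ']
  refine ⟨h, ?_⟩
  ext x
  rw [mem_Uh]
  constructor
  · intro hx
    refine ⟨x.right, ?_⟩
    rw [← key]
    have : σ x.right = ⟨x, hx⟩ := hf (hσ _)
    rw [this]
  · rintro ⟨s, rfl⟩
    rw [← key]
    exact (σ s).2

/-- the centraliser of a conjugate of the complement in the base group -/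
def centG (h : S → G) : G →* (Bs G S ⊓ Subgroup.centralizer (Uh h : Set (Wr G S)) : Subgroup (Wr G S)) where
  toFun k := ⟨inl fun t => h t * k * (h t)⁻¹, ⟨⟨_, rfl⟩, by
    refine Subgroup.mem_centralizer_iff.mpr ?_
    intro x hx
    obtain ⟨s, rfl⟩ := mem_Uh.mp hx
    ext t
    · rw [mul_left, mul_left, Pi.mul_apply, Pi.mul_apply, left_inl, right_inl, rAct_apply, rAct_apply,
        el_left, el_left, el_right, inv_one, one_mul]
      group
    · rw [mul_right, mul_right, right_inl, mul_one, one_mul]⟩⟩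
  map_one' := by
    apply Subtype.ext
    ext t
    · simp
    · rfl
  map_mul' a b := by
    apply Subtype.ext
    change inl _ = inl _ * inl _
    rw [← map_mul]
    congr 1
    funext t
    rw [Pi.mul_apply]
    group

theorem centG_bij (h : S → G) : Function.Bijective (centG h) := by
  constructor
  · rw [injective_iff_map_eq_one]
    intro k hk
    have h1 := congrFun (congrArg (fun x : (Bs G S ⊓ Subgroup.centralizer (Uh h : Set (Wr G S)) :
      Subgroup (Wr G S)) => (x : Wr G S).left) hk) 1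
    change h 1 * k * (h 1)⁻¹ = 1 at h1
    rwa [conj_eq_one_iff] at h1
  · rintro ⟨x, hx1, hx2⟩
    have h0 := mem_Bs.mp hx1
    replace hx2 := Subgroup.mem_centralizer_iff.mp hx2
    refine ⟨(h 1)⁻¹ * x.left 1 * h 1, Subtype.ext ?_⟩
    change inl _ = x
    ext t
    · rw [left_inl]
      have h1 := congrFun (congrArg SemidirectProduct.left (hx2 (el h t) (mem_Uh.mpr ⟨t, rfl⟩))) t
      rw [mul_left, mul_left, Pi.mul_apply, Pi.mul_apply, rAct_apply, rAct_apply, el_left, el_right, h0,
        inv_one, one_mul, inv_mul_cancel, el_left, inv_mul_cancel] at h1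
      -- `h1 : h t * (h 1)⁻¹ * x.left 1 = x.left t * (h t * (h 1)⁻¹)`
      have h2 : x.left t = h t * (h 1)⁻¹ * x.left 1 * (h t * (h 1)⁻¹)⁻¹ :=
        eq_mul_inv_of_mul_eq h1.symm
      rw [h2]
      group
    · exact h0.symm

end wr

section count

variable {p : ℕ} [hp : Fact p.Prime] {G S : Type} [Group G] [Group S] [Finite G] [Finite S]

theorem finWr : Finite (Wr G S) := Finite.of_equiv _ SemidirectProduct.equivProd.symm

theorem mu_Uh (hS : Nat.card S = p) (h : S → G) : mu p (Uh h) = -1 := by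
  have hc : Nat.card (Uh h) = p := by rw [card_Uh, hS]
  have hcyc : IsCyclic (Uh h) := isCyclic_of_prime_card hc
  unfold mu
  rw [if_pos, hc, Nat.Prime.factorization_self hp.out]
  · norm_num
  · letI := hcyc.commGroup
    refine ⟨fun x hx => ?_, fun x hx y hy => ?_⟩
    · have h1 : (⟨x, hx⟩ : Uh h) ^ Nat.card (Uh h) = 1 := pow_card_eq_one'
      rw [hc] at h1
      exact congrArg Subtype.val h1
    · exact congrArg Subtype.val (hcyc.commGroup.mul_comm ⟨x, hx⟩ ⟨y, hy⟩)

theorem mu_bot (Γ : Type) [Group Γ] : mu p (⊥ : Subgroup Γ) = 1 := by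
  unfold mu
  rw [if_pos, Subgroup.card_bot]
  · simp
  · refine ⟨fun x hx => ?_, fun x hx y hy => ?_⟩
    · rw [Subgroup.mem_bot.mp hx, one_pow]
    · rw [Subgroup.mem_bot.mp hx, Subgroup.mem_bot.mp hy]

theorem card_image_Uh [Fintype (S → G)] :
    Nat.card G * ((Finset.univ : Finset (S → G)).image Uh).card = Nat.card (S → G) := by
  rw [Nat.card_eq_fintype_card (α := S → G), ← Finset.card_univ,
    Finset.card_eq_sum_card_image (Uh : (S → G) → Subgroup (Wr G S))]
  have h1 : ∀ U ∈ (Finset.univ : Finset (S → G)).image Uh,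
      (Finset.univ.filter fun h : S → G => Uh h = U).card = Nat.card G := by
    intro U hU
    obtain ⟨h', -, rfl⟩ := Finset.mem_image.mp hU
    rw [← Fintype.card_subtype, ← Nat.card_eq_fintype_card]
    refine (Nat.card_congr (Equiv.ofBijective
      (fun k : G => (⟨fun t => h' t * k, Uh_eq_iff.mpr ⟨k, rfl⟩⟩ : {h : S → G // Uh h = Uh h'}))
      ⟨?_, ?_⟩)).symm
    · intro k l hkl
      have := congrFun (congrArg Subtype.val hkl) 1
      exact mul_left_cancel this
    · rintro ⟨h, hh⟩
      obtain ⟨k, rfl⟩ := Uh_eq_iff.mp hh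
      exact ⟨k, rfl⟩
  rw [Finset.sum_congr rfl h1, Finset.sum_const, smul_eq_mul, mul_comm]

/-- **The error term of the wreath product.** -/
theorem errZ_wr (hS : Nat.card S = p) :
    (p : ℤ) * errZ p (Wr G S) = errZ p (S → G) - errZ p G := by
  haveI : Finite (Wr G S) := finWr
  haveI : Fintype (S → G) := Fintype.ofFinite _
  haveI : Fintype (Subgroup (Wr G S)) := Fintype.ofFinite _
  have hidx : Nat.card (Wr G S ⧸ Bs G S) = Nat.card S := by
    have h1 := (Bs G S).card_mul_index
    have h2 : Nat.card (Bs G S) = Nat.card (S → G) :=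
      Nat.card_congr (MonoidHom.ofInjective inl_injective).toEquiv.symm
    rw [h2, SemidirectProduct.card] at h1
    exact Nat.eq_of_mul_eq_mul_left Nat.card_pos h1
  have hpg : IsPGroup p (Wr G S ⧸ Bs G S) := IsPGroup.of_card (n := 1) (by rw [hidx, hS, pow_one])
  have h0 := Pool.Agent.Q18.KRX.main top Pool.Agent.Q19.KRX.ind p (Wr G S) (Bs G S) hpg
  rw [finsum_eq_sum_of_fintype] at h0
  -- the nonzero terms
  have hsub : ∑ U : Subgroup (Wr G S), (if IsPGroup p U ∧ Bs G S ⊓ U = ⊥ then
        mu p U * ((Nat.card ↥(Bs G S ⊓ Subgroup.centralizer (U : Set (Wr G S))) : ℤ) *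
          errZ p ↥(Bs G S ⊓ Subgroup.centralizer (U : Set (Wr G S)))) else 0) =
      ∑ U ∈ insert ⊥ ((Finset.univ : Finset (S → G)).image Uh),
        (if IsPGroup p U ∧ Bs G S ⊓ U = ⊥ then
        mu p U * ((Nat.card ↥(Bs G S ⊓ Subgroup.centralizer (U : Set (Wr G S))) : ℤ) *
          errZ p ↥(Bs G S ⊓ Subgroup.centralizer (U : Set (Wr G S)))) else 0) := by
    symm
    refine Finset.sum_subset (Finset.subset_univ _) fun U _ hU => ?_
    rw [Finset.mem_insert, not_or] at hU
    by_cases hc : IsPGroup p U ∧ Bs G S ⊓ U = ⊥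
    · exfalso
      obtain ⟨h, hh⟩ := exists_Uh (by rw [hS]; exact hp.out) hc.2 hU.1
      exact hU.2 (Finset.mem_image.mpr ⟨h, Finset.mem_univ _, hh.symm⟩)
    · rw [if_neg hc]
  have hne : (⊥ : Subgroup (Wr G S)) ∉ (Finset.univ : Finset (S → G)).image Uh := by
    intro hb
    obtain ⟨h, -, hh⟩ := Finset.mem_image.mp hb
    have h1 := card_Uh (G := G) (S := S) h
    rw [hh, Subgroup.card_bot, hS] at h1
    exact hp.out.one_lt.ne h1
  rw [hsub, Finset.sum_insert hne] at h0
  have hbot : (if IsPGroup p (⊥ : Subgroup (Wr G S)) ∧ Bs G S ⊓ ⊥ = ⊥ then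
        mu p (⊥ : Subgroup (Wr G S)) *
          ((Nat.card ↥(Bs G S ⊓ Subgroup.centralizer ((⊥ : Subgroup (Wr G S)) : Set (Wr G S))) : ℤ) *
          errZ p ↥(Bs G S ⊓ Subgroup.centralizer ((⊥ : Subgroup (Wr G S)) : Set (Wr G S)))) else 0) =
      (Nat.card (S → G) : ℤ) * errZ p (S → G) := by
    rw [if_pos ⟨IsPGroup.of_bot, inf_bot_eq _⟩, mu_bot, one_mul]
    have e1 : Bs G S ⊓ Subgroup.centralizer ((⊥ : Subgroup (Wr G S)) : Set (Wr G S)) = Bs G S := by
      rw [inf_eq_left]
      intro x _
      rw [Subgroup.mem_centralizer_iff]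
      intro y hy
      rw [Subgroup.coe_bot, Set.mem_singleton_iff] at hy
      rw [hy, one_mul, mul_one]
    rw [e1, errZ_iso (p := p) (Bs G S) (S → G) ⟨(MonoidHom.ofInjective inl_injective).symm⟩,
      Nat.card_congr (MonoidHom.ofInjective (inl_injective (φ := rAct G S))).toEquiv.symm]
  have hU : ∀ U ∈ (Finset.univ : Finset (S → G)).image Uh,
      (if IsPGroup p U ∧ Bs G S ⊓ U = ⊥ then
        mu p U * ((Nat.card ↥(Bs G S ⊓ Subgroup.centralizer (U : Set (Wr G S))) : ℤ) *
          errZ p ↥(Bs G S ⊓ Subgroup.centralizer (U : Set (Wr G S)))) else 0) =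
      -((Nat.card G : ℤ) * errZ p G) := by
    intro U hU
    obtain ⟨h, -, rfl⟩ := Finset.mem_image.mp hU
    have hpU : IsPGroup p (Uh h) := IsPGroup.of_card (n := 1) (by rw [card_Uh, hS, pow_one])
    let e : G ≃* ↥(Bs G S ⊓ Subgroup.centralizer (Uh h : Set (Wr G S))) :=
      MulEquiv.ofBijective (centG h) (centG_bij h)
    rw [if_pos ⟨hpU, Uh_inf h⟩, mu_Uh hS, ← errZ_iso (p := p) G _ ⟨e⟩, ← Nat.card_congr e.toEquiv]
    ring
  rw [hbot, Finset.sum_congr rfl hU, Finset.sum_const, nsmul_eq_mul, SemidirectProduct.card, hS] at h0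
  have h3 : (Nat.card G : ℤ) * (((Finset.univ : Finset (S → G)).image Uh).card : ℤ) =
      Nat.card (S → G) := by
    exact_mod_cast card_image_Uh (G := G) (S := S)
  have h4 : (Nat.card (S → G) : ℤ) ≠ 0 := by exact_mod_cast Nat.card_pos.ne'
  apply mul_left_cancel₀ h4
  push_cast at h0
  linear_combination h0 - errZ p G * h3

end count

end Pool.Agent.Run7.h45.KW
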