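import Pool.Agent.Run7.h45.KW2
import Pool.Agent.N85.WM.Van
import Pool.Agent.N85.WM.Dzt
import Pool.Agent.Y63.NV.Free

/-!
# The number of characters of defect zero modulo `p` and commutators which are `p`-elements
-/

set_option autoImplicit false
set_option linter.unusedSectionVars false
set_option linter.style.haveILetI false

open scoped BigOperators Classical

noncomputable section

namespace Pool.Agent.Run7.h45.KW

open Pool.Agent.Q18.KRX Pool.Agent.Y63.KR Pool.Agent.Y63.NV
open Pool.Agent.Y63.AWC (numDefectZero IsIrreducibleCharacter)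
open Pool.Agent.N85.WM.Dzt (Pel pel_conj pel_inv)
open Pool.Agent.Y657.NV (cc card_cc)

section

variable {p : ℕ} [hp : Fact p.Prime] {G : Type} [Group G] [Finite G]

/-- the number of the pairs whose commutator is a `p`-element -/
def prs (p : ℕ) (G : Type) [Group G] : ℕ :=
  Nat.card {q : G × G // Pel p (q.1 * q.2 * q.1⁻¹ * q.2⁻¹)}

/-- the trace -/
def trc (p : ℕ) (G : Type) [Group G] : ℕ :=
  ∑ᶠ C : ConjClasses G, Nat.card {u : G // Pel p u ∧ IsConj (u * C.out) C.out}

theorem dz_trc : (p : ℤ) ∣ (numDefectZero p G : ℤ) - trc p G := by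
  haveI := Fintype.ofFinite G
  haveI : Fintype (ConjClasses G) := Fintype.ofFinite _
  let F := AlgebraicClosure (ZMod p)
  haveI : CharP F p := inferInstance
  obtain ⟨red⟩ := exists_red p F
  have h := Pool.Agent.N85.WM.Dzt.main Pool.Agent.N85.WM.Van.main p F red G (Pi.single 1 1) (by
    intro g x
    by_cases hx : x = 1
    · subst hx
      simp
    · have h1 : g * x * g⁻¹ ≠ 1 := by
        rwa [Ne, conj_eq_one_iff]
      rw [Pi.single_eq_of_ne hx, Pi.single_eq_of_ne h1])
  have h1 : ∑ᶠ χ : {χ : G → ℂ // IsWt p (⊥ : Subgroup G) χ}, centralValue red χ.1 (Pi.single 1 1) =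
      (numDefectZero p G : F) := by
    have h3 : ∀ χ : {χ : G → ℂ // IsWt p (⊥ : Subgroup G) χ},
        centralValue red χ.1 (Pi.single 1 1) = (1 : F) := fun χ =>
      (Pool.Agent.Y930.NV.cvh F red G χ.1 χ.2.irr).one
    rw [finsum_congr h3]
    have e : {χ : G → ℂ // IsWt p (⊥ : Subgroup G) χ} ≃ {χ : G → ℂ // IsIrreducibleCharacter χ ∧
        ∃ n : ℕ, χ 1 = (n : ℂ) ∧ n.factorization p = (Nat.card G).factorization p} :=
      Equiv.subtypeEquivRight fun χ => Pool.Agent.N85.WM.Dzt.dz_iff p
    haveI : Finite {χ : G → ℂ // IsIrreducibleCharacter χ ∧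
        ∃ n : ℕ, χ 1 = (n : ℂ) ∧ n.factorization p = (Nat.card G).factorization p} := by
      haveI : Finite {χ : G → ℂ // χ ∈ Pool.Agent.Helper884.IC.Irr G} := inferInstance
      exact Finite.of_injective
        (fun χ => (⟨χ.1, Pool.Agent.Helper884.IC.mem_Irr.mpr χ.2.1⟩ :
          {χ : G → ℂ // χ ∈ Pool.Agent.Helper884.IC.Irr G}))
        (fun a b hab => Subtype.ext (congrArg (fun z : {χ : G → ℂ //
          χ ∈ Pool.Agent.Helper884.IC.Irr G} => z.1) hab))
    haveI : Finite {χ : G → ℂ // IsWt p (⊥ : Subgroup G) χ} := Finite.of_equiv _ e.symm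
    haveI : Fintype {χ : G → ℂ // IsWt p (⊥ : Subgroup G) χ} := Fintype.ofFinite _
    rw [finsum_eq_sum_of_fintype, Finset.sum_const, Finset.card_univ, nsmul_eq_mul, mul_one,
      ← Nat.card_eq_fintype_card, Nat.card_congr e]
    rfl
  have h2 : (∑ᶠ C : ConjClasses G, ∑ᶠ u : G, ∑ᶠ g : G,
        if (∃ k : ℕ, orderOf u = p ^ k) ∧ IsConj (u * g * C.out) C.out then
          (Pi.single 1 1 : G → F) g else 0) = (trc p G : F) := by
    unfold trc
    rw [finsum_eq_sum_of_fintype, finsum_eq_sum_of_fintype, Nat.cast_sum]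
    refine Finset.sum_congr rfl fun C _ => ?_
    rw [finsum_eq_sum_of_fintype, Nat.card_eq_fintype_card, Fintype.card_subtype, Finset.card_filter,
      Nat.cast_sum]
    refine Finset.sum_congr rfl fun u _ => ?_
    rw [finsum_eq_single _ (1 : G)]
    · rw [mul_one, Pi.single_eq_same]
      unfold Pel
      push_cast
      rfl
    · intro g hg
      rw [Pi.single_eq_of_ne hg, ite_self]
  rw [h1, h2] at h
  rw [← CharP.intCast_eq_zero_iff F p]
  push_cast
  rw [h, sub_self]

/-- the number of the `p`-elements `u` such that `ux` is conjugate to `x` -/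
def nn (p : ℕ) (x : G) : ℕ := Nat.card {u : G // Pel p u ∧ IsConj (u * x) x}

theorem card_sol (x z : G) : Nat.card {y : G // y * x * y⁻¹ = z} = if IsConj z x then cc x else 0 := by
  split_ifs with h
  · obtain ⟨g, hg⟩ := isConj_iff.mp h.symm
    unfold cc
    refine Nat.card_congr
      { toFun := fun y => ⟨g⁻¹ * y.1, ?_⟩
        invFun := fun c => ⟨g * c.1, ?_⟩
        left_inv := fun y => by
          apply Subtype.ext
          exact mul_inv_cancel_left _ _
        right_inv := fun c => by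
          apply Subtype.ext
          exact inv_mul_cancel_left _ _ }
    · rw [Subgroup.mem_centralizer_singleton_iff]
      have h1 : y.1 * x * y.1⁻¹ = g * x * g⁻¹ := y.2.trans hg.symm
      have h2 : x = g⁻¹ * (y.1 * x * y.1⁻¹) * g := by rw [h1]; group
      calc g⁻¹ * y.1 * x = (g⁻¹ * (y.1 * x * y.1⁻¹) * g) * (g⁻¹ * y.1) := by group
        _ = x * (g⁻¹ * y.1) := by rw [← h2]
    · have h1 := Subgroup.mem_centralizer_singleton_iff.mp c.2
      rw [← hg, mul_inv_rev]
      calc g * c.1 * x * (c.1⁻¹ * g⁻¹) = g * (c.1 * x) * c.1⁻¹ * g⁻¹ := by group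
        _ = g * x * g⁻¹ := by rw [h1]; group
  · rw [Nat.card_eq_zero]
    left
    refine ⟨fun y => h ?_⟩
    rw [← y.2]
    exact (isConj_iff.mpr ⟨y.1, rfl⟩).symm

theorem card_x (x : G) : Nat.card {y : G // Pel p (x * y * x⁻¹ * y⁻¹)} = cc x * nn p x := by
  haveI := Fintype.ofFinite G
  have h1 : Nat.card {y : G // Pel p (x * y * x⁻¹ * y⁻¹)} =
      ∑ u : G, if Pel p u then Nat.card {y : G // y * x * y⁻¹ = u * x} else 0 := by
    rw [Nat.card_eq_fintype_card, Fintype.card_subtype,
      Finset.card_eq_sum_card_fiberwise (f := fun y => y * x * y⁻¹ * x⁻¹) (t := Finset.univ)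
        (fun _ _ => Finset.mem_univ _)]
    refine Finset.sum_congr rfl fun u _ => ?_
    by_cases hu : Pel p u
    · rw [if_pos hu, Nat.card_eq_fintype_card, Fintype.card_subtype]
      congr 1
      ext y
      simp only [Finset.mem_filter, Finset.mem_univ, true_and]
      rw [mul_inv_eq_iff_eq_mul]
      constructor
      · exact fun h => h.2
      · intro h
        refine ⟨?_, h⟩
        have h2 : x * y * x⁻¹ * y⁻¹ = u⁻¹ := by
          have h3 : u = y * x * y⁻¹ * x⁻¹ := by rw [h]; group
          rw [h3]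
          group
        rw [h2]
        exact pel_inv p hu
    · rw [if_neg hu, Finset.card_eq_zero, Finset.filter_eq_empty_iff]
      intro y hy hyu
      apply hu
      rw [← hyu]
      have h2 := pel_inv p (Finset.mem_filter.mp hy).2
      have h3 : (x * y * x⁻¹ * y⁻¹)⁻¹ = y * x * y⁻¹ * x⁻¹ := by group
      rwa [h3] at h2
  rw [h1, nn, Nat.card_eq_fintype_card (α := {u : G // Pel p u ∧ IsConj (u * x) x}),
    Fintype.card_subtype, Finset.card_filter, Finset.mul_sum]
  refine Finset.sum_congr rfl fun u _ => ?_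
  rw [card_sol]
  by_cases hu : Pel p u
  · by_cases hc : IsConj (u * x) x
    · rw [if_pos hu, if_pos hc, if_pos ⟨hu, hc⟩, mul_one]
    · rw [if_pos hu, if_neg hc, if_neg fun h => hc h.2, mul_zero]
  · rw [if_neg hu, if_neg fun h => hu h.1, mul_zero]

theorem nn_conj (g x : G) : nn p (g * x * g⁻¹) = nn p x := by
  unfold nn
  refine Nat.card_congr
    { toFun := fun u => ⟨g⁻¹ * u.1 * g, ?_⟩
      invFun := fun u => ⟨g * u.1 * g⁻¹, ?_⟩
      left_inv := fun u => by
        apply Subtype.ext
        change g * (g⁻¹ * u.1 * g) * g⁻¹ = u.1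
        group
      right_inv := fun u => by
        apply Subtype.ext
        change g⁻¹ * (g * u.1 * g⁻¹) * g = u.1
        group }
  · have e1 : g⁻¹ * u.1 * g = g⁻¹ * u.1 * (g⁻¹)⁻¹ := by rw [inv_inv]
    refine ⟨by rw [e1, pel_conj]; exact u.2.1, ?_⟩
    have h1 : IsConj (u.1 * (g * x * g⁻¹)) (g⁻¹ * u.1 * g * x) := by
      rw [isConj_iff]
      exact ⟨g⁻¹, by group⟩
    have h2 : IsConj (g * x * g⁻¹) x := by
      rw [isConj_iff]
      exact ⟨g⁻¹, by group⟩
    exact (h1.symm.trans u.2.2).trans h2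
  · refine ⟨by rw [pel_conj]; exact u.2.1, ?_⟩
    have h1 : IsConj (g * u.1 * g⁻¹ * (g * x * g⁻¹)) (u.1 * x) := by
      rw [isConj_iff]
      exact ⟨g⁻¹, by group⟩
    have h2 : IsConj (g * x * g⁻¹) x := by
      rw [isConj_iff]
      exact ⟨g⁻¹, by group⟩
    exact (h1.trans u.2.2).trans h2.symm

theorem card_prs : prs p G = Nat.card G * trc p G := by
  haveI := Fintype.ofFinite G
  haveI : Fintype (ConjClasses G) := Fintype.ofFinite _
  have h1 : prs p G = ∑ x : G, cc x * nn p x := by
    unfold prs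
    rw [Nat.card_congr (Equiv.subtypeProdEquivSigmaSubtype
      (fun x y : G => Pel p (x * y * x⁻¹ * y⁻¹))), Nat.card_sigma]
    exact Finset.sum_congr rfl fun x _ => card_x x
  rw [h1, ← Finset.sum_fiberwise (s := Finset.univ) (g := ConjClasses.mk), trc,
    finsum_eq_sum_of_fintype, Finset.mul_sum]
  refine Finset.sum_congr rfl fun C _ => ?_
  have h2 : ∀ x ∈ Finset.univ.filter (fun x : G => ConjClasses.mk x = C),
      cc x * nn p x = cc C.out * nn p C.out := by
    intro x hx
    have hx' : ConjClasses.mk x = ConjClasses.mk C.out := by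
      rw [(Finset.mem_filter.mp hx).2]
      exact (Quotient.out_eq C).symm
    obtain ⟨g, hg⟩ := isConj_iff.mp (ConjClasses.mk_eq_mk_iff_isConj.mp hx'.symm)
    rw [← hg, Pool.Agent.Y657.NV.cc_conj, nn_conj]
  rw [Finset.sum_congr rfl h2, Finset.sum_const, smul_eq_mul, ← mul_assoc]
  congr 1
  rw [← card_cc C.out]
  congr 1
  rw [← Fintype.card_subtype, ← Nat.card_eq_fintype_card]
  refine Nat.card_congr (Equiv.subtypeEquivRight fun x => ?_)
  rw [ConjClasses.mem_carrier_iff_mk_eq]
  have h3 : ConjClasses.mk C.out = C := Quotient.out_eq C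
  rw [h3]

end

end Pool.Agent.Run7.h45.KW
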