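import Pool.Agent.Run7.h45.Kp5

/-!
# The Knörr–Robinson conjecture: all or nothing for perfect groups
-/

set_option autoImplicit false
set_option linter.unusedSectionVars false

open scoped BigOperators Classical

noncomputable section

namespace Run7.h45

open Pool.Agent.Y63.KR Pool.Agent.Q18.KRX Filter

theorem split_eq {m a b a' b' : ℕ} (ha : a < m) (ha' : a' < m) (h : a + m * b = a' + m * b') :
    a = a' ∧ b = b' := by
  have hm : 0 < m := by omega
  have h1 : (a + m * b) % m = a := by rw [Nat.add_mul_mod_self_left, Nat.mod_eq_of_lt ha]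
  have h2 : (a' + m * b') % m = a' := by rw [Nat.add_mul_mod_self_left, Nat.mod_eq_of_lt ha']
  have h3 : a = a' := by rw [← h1, h, h2]
  refine ⟨h3, ?_⟩
  rw [h3] at h
  exact Nat.eq_of_mul_eq_mul_left hm (Nat.add_left_cancel h)

section

variable {p : ℕ} [Fact p.Prime]

/-- the visible subgroup and the weights -/
theorem visible (G : Type) [Group G] [Finite G] :
    ∃ (L X Y : Type) (_ : Group L) (_ : Finite L) (_ : MulAction L X) (_ : Finite X)
      (_ : MulAction L Y) (_ : Finite Y) (m m' : ℕ) (M : Subgroup L), commutator L = ⊤ ∧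
      Nat.card M = Nat.card G ∧ tK L X Y m m' ⊤ < tK L X Y m m' M ∧
      ∀ K : Subgroup L, tK L X Y m m' K = tK L X Y m m' M → Nonempty (K ≃* G) := by
  have hg0 : 0 < Nat.card G := Nat.card_pos
  obtain ⟨N, hN⟩ : ∃ N, N = 5 * Nat.card G := ⟨_, rfl⟩
  have hN5 : 5 ≤ N := by omega
  have hN3 : 3 ≤ N := by omega
  have hdvd : Nat.card G ∣ N := ⟨5, by rw [hN, mul_comm]⟩
  let L := LA G N
  have fL : Finite L := inferInstance
  let M : Subgroup L := (dgn G N hN3 hdvd).range
  let m := Nat.card L + 1
  let m' := m * (Nat.card (X2 G N) + 1)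
  have hMG : Nat.card M = Nat.card G :=
    (Nat.card_congr (MonoidHom.ofInjective (dgn_inj G N hN3 hdvd)).toEquiv).symm
  have hL1 : ∀ K : Subgroup L, orbN L K < m := fun K => Nat.lt_succ_of_le (orbN_le L K)
  have hL2 : ∀ K : Subgroup L, orbN L K + m * orbN (X2 G N) K < m' := by
    intro K
    have h1 := hL1 K
    have h2 := Nat.mul_le_mul_left m (orbN_le (X2 G N) K)
    have h3 : m' = m * Nat.card (X2 G N) + m := by
      change m * (Nat.card (X2 G N) + 1) = _
      ring
    omega
  refine ⟨L, X2 G N, X3 N, inferInstance, inferInstance, inferInstance, inferInstance,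
    inferInstance, inferInstance, m, m', M, LA_perfect G N hN5, hMG, ?_, ?_⟩
  · unfold tK
    have h1 : orbN L (⊤ : Subgroup L) < orbN L M := by
      rw [orbN_self, orbN_self, Subgroup.index_top]
      have h2 : M.index ≠ 1 := by
        intro h3
        have h4 : M = ⊤ := Subgroup.index_eq_one.mp h3
        have hp : MulAction.IsPretransitive (alternatingGroup (Fin N)) (Fin N) :=
          alternatingGroup.isPretransitive_of_three_le_card (Fin N) (by simpa using hN3)
        obtain ⟨σ, hσ⟩ := MulAction.exists_smul_eq (alternatingGroup (Fin N))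
          (⟨0, by omega⟩ : Fin N) ⟨1, by omega⟩
        have h5 : (⟨SemidirectProduct.inr σ, inr_mem_LA G N σ⟩ : L) ∈ M := h4 ▸ Subgroup.mem_top _
        obtain ⟨g, hg⟩ := h5
        have h6 := congrArg (fun x : L => (x : WA G N).right) hg
        have h7 : (1 : alternatingGroup (Fin N)) = σ := h6
        rw [← h7, one_smul] at hσ
        have h8 := congrArg Fin.val hσ
        simp at h8
      have h3 : M.index ≠ 0 := Subgroup.index_ne_zero_of_finite
      omega
    have h2 := Nat.mul_le_mul_left m (orbN_top_le (X2 G N) M)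
    have h3 := Nat.mul_le_mul_left m' (orbN_top_le (X3 N) M)
    omega
  · intro K hK
    unfold tK at hK
    rw [← add_assoc, ← add_assoc] at hK
    obtain ⟨h1, h3⟩ := split_eq (hL2 K) (hL2 M) hK
    obtain ⟨h1, h2⟩ := split_eq (hL1 K) (hL1 M) h1
    rw [orbN_self, orbN_self] at h1
    have h4 : Nat.card K = Nat.card M := by
      have h5 := Subgroup.card_mul_index K
      have h6 := Subgroup.card_mul_index M
      have h7 : 0 < M.index := Nat.pos_of_ne_zero Subgroup.index_ne_zero_of_finite
      rw [h1] at h5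
      exact Nat.eq_of_mul_eq_mul_right h7 (h5.trans h6.symm)
    exact iso_of_orb G N (by omega) (h3.trans (orb3_dgn G N hN3 hdvd))
      (h2.trans (orb2_dgn G N hN3 hdvd)) (h4.trans hMG)

/-- a counterexample of minimal order -/
theorem exists_min_err (h : ∃ (G : Type) (_ : Group G) (_ : Finite G), errZ p G ≠ 0) :
    ∃ (G : Type) (_ : Group G) (_ : Finite G), errZ p G ≠ 0 ∧
      ∀ (H : Type) [Group H] [Finite H], Nat.card H < Nat.card G → errZ p H = 0 := by
  have h1 : ∃ n : ℕ, ∃ (G : Type) (_ : Group G) (_ : Finite G), errZ p G ≠ 0 ∧ Nat.card G = n := by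
    obtain ⟨G, i1, i2, h⟩ := h
    exact ⟨_, G, i1, i2, h, rfl⟩
  obtain ⟨G, i1, i2, h2, h3⟩ := Nat.find_spec h1
  refine ⟨G, i1, i2, h2, fun H i3 i4 hlt => ?_⟩
  by_contra hne
  rw [h3] at hlt
  exact Nat.find_min h1 hlt ⟨H, i3, i4, hne, rfl⟩

/-- **All or nothing for perfect groups.** -/
theorem krc_perfect : (∀ (G : Type) [Group G] [Finite G], KRC p G) ↔
    ∀ ε : ℝ, 0 < ε → ∃ C : ℝ, ∀ (H : Type) [Group H] [Finite H], PerfHall p H →
      |((err p H : ℚ) : ℝ)| ≤ C * (Nat.card H : ℝ) ^ ε := by
  constructor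
  · intro h ε _
    refine ⟨1, fun H _ _ _ => ?_⟩
    rw [(krc_iff_err p H).1 (h H), Rat.cast_zero, abs_zero]
    positivity
  · intro h
    by_contra hcon
    push Not at hcon
    obtain ⟨G', i1, i2, hG'⟩ := hcon
    obtain ⟨G, i1, i2, hG, hmin⟩ := exists_min_err (p := p) ⟨G', i1, i2, fun h0 => hG' (by
      rw [krc_iff_err, err_eq, h0, Int.cast_zero])⟩
    obtain ⟨L, X, Y, iL, fL, iX, fX, iY, fY, m, m', M, hL, hMG, htop, hvis⟩ := visible G
    have fS : Fintype (Subgroup L) := Fintype.ofFinite _
    obtain ⟨e, he⟩ := exists_eM (fun H : Subgroup L => (Nat.card H : ℤ) * errZ p H)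
    have heK : ∀ K : Subgroup L, tK L X Y m m' K = tK L X Y m m' M →
        e K = (Nat.card G : ℤ) * errZ p G := by
      intro K hK
      obtain ⟨ι⟩ := hvis K hK
      have hc : Nat.card K = Nat.card G := Nat.card_congr ι.toEquiv
      rw [eM_min he K, errZ_iso K G ⟨ι⟩, hc]
      intro J hJ
      have h1 : Nat.card J < Nat.card G := by
        rw [← hc]
        exact Set.Finite.card_lt_card (Set.toFinite _) hJ
      rw [hmin J h1, mul_zero]
    let s : Subgroup L → ℕ := fun K => tK L X Y m m' K - tK L X Y m m' ⊤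
    let Q : Polynomial ℝ := ∑ K : Subgroup L, Polynomial.C (e K : ℝ) * Polynomial.X ^ s K
    have hcoeff : Q.coeff (s M) ≠ 0 := by
      have h1 : Q.coeff (s M) = ∑ K : Subgroup L, if s M = s K then (e K : ℝ) else 0 := by
        rw [Polynomial.finset_sum_coeff]
        refine Finset.sum_congr rfl fun K _ => ?_
        rw [Polynomial.coeff_C_mul_X_pow]
      have h2 : ∀ K : Subgroup L, (if s M = s K then (e K : ℝ) else 0) =
          if s M = s K then ((Nat.card G : ℤ) * errZ p G : ℝ) else 0 := by
        intro K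
        split_ifs with h3
        · have h4 := tK_top_le L X Y m m' K
          have h5 : tK L X Y m m' K = tK L X Y m m' M := by
            change tK L X Y m m' M - tK L X Y m m' ⊤ = tK L X Y m m' K - tK L X Y m m' ⊤ at h3
            omega
          rw [heK K h5]
          push_cast
          ring
        · rfl
      rw [h1, Finset.sum_congr rfl fun K _ => h2 K, ← Finset.sum_filter, Finset.sum_const,
        nsmul_eq_mul]
      refine mul_ne_zero ?_ ?_
      · rw [Nat.cast_ne_zero]
        exact Finset.card_ne_zero_of_mem (Finset.mem_filter.mpr ⟨Finset.mem_univ M, rfl⟩)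
      · refine mul_ne_zero ?_ ?_
        · have := Nat.card_pos (α := G)
          exact_mod_cast this.ne'
        · exact_mod_cast hG
    have hdeg : (Polynomial.X : Polynomial ℝ).degree ≤ Q.degree := by
      rw [Polynomial.degree_X]
      refine le_trans ?_ (Polynomial.le_degree_of_ne_zero hcoeff)
      have h1 : 1 ≤ s M := by
        change 1 ≤ tK L X Y m m' M - tK L X Y m m' ⊤
        omega
      exact_mod_cast h1
    have hO := Polynomial.isBigO_of_degree_le _ _ hdeg
    obtain ⟨c, hc⟩ := hO.bound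
    -- the values of `Q`
    have hval : ∀ n : ℕ, (hn0 : NeZero n) → Nat.Coprime (Nat.card L) n → 2 ≤ n → ¬ p ∣ n →
        ∃ (H : Type) (_ : Group H) (_ : Finite H), PerfHall p H ∧
          Nat.card H = n ^ s ⊥ * Nat.card L ∧ Q.eval (n : ℝ) = Nat.card L * (errZ p H : ℝ) := by
      intro n hn0 hn hn2 hpn
      have fV : Finite (VV L X Y m m' n) := finV
      have hcard := card_nU_V (X := X) (Y := Y) (m := m) (m' := m') hn
      have hfin : Finite (HU L X Y m m' n) := inferInstance
      refine ⟨HU L X Y m m' n, inferInstance, hfin, HU_fam hL hn hn2 hpn, ?_, ?_⟩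
      · rw [SemidirectProduct.card, hcard]
      · have hV : ¬ p ∣ Nat.card (nU (phV L X Y m m' n)) := by
          rw [hcard]
          intro h
          exact hpn (Nat.Prime.dvd_of_dvd_pow Fact.out h)
        have h1 := errZ_nF (p := p) (phU (phV L X Y m m' n)) hV he
        have h2 : (Nat.card L : ℝ) * (errZ p (HU L X Y m m' n) : ℝ) =
            ((∑ K : Subgroup L, e K * (nF (phU (phV L X Y m m' n)) K : ℤ) : ℤ) : ℝ) := by
          rw [← h1]
          push_cast
          ring
        rw [h2, Int.cast_sum]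
        change Polynomial.eval (n : ℝ) (∑ K : Subgroup L, Polynomial.C (e K : ℝ) *
          Polynomial.X ^ s K) = _
        rw [Polynomial.eval_finset_sum]
        refine Finset.sum_congr rfl fun K _ => ?_
        rw [nF_HU hn K, Polynomial.eval_mul, Polynomial.eval_C, Polynomial.eval_pow,
          Polynomial.eval_X]
        push_cast
        rfl
    -- the exponent
    let d : ℝ := (s ⊥ : ℝ) + 1
    have hd : 0 < d := by positivity
    obtain ⟨C, hC⟩ := h (1 / (2 * d)) (by positivity)
    -- the sequence of moduli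
    have hP : 0 < Nat.card L * p := Nat.mul_pos Nat.card_pos (Nat.Prime.pos Fact.out)
    let nn : ℕ → ℕ := fun j => 1 + (j + 1) * (Nat.card L * p)
    have hbound : ∀ j : ℕ, |Q.eval (nn j : ℝ)| ≤
        |C| * (Nat.card L : ℝ) ^ 2 * (nn j : ℝ) ^ (1 / 2 : ℝ) := by
      intro j
      have h2 : 2 ≤ nn j := by
        have : 1 ≤ (j + 1) * (Nat.card L * p) := Nat.mul_pos (Nat.succ_pos j) hP
        change 2 ≤ 1 + (j + 1) * (Nat.card L * p)
        omega
      have hn0 : NeZero (nn j) := ⟨by omega⟩
      have hco : Nat.Coprime (Nat.card L) (nn j) := by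
        change Nat.Coprime (Nat.card L) (1 + (j + 1) * (Nat.card L * p))
        rw [show (j + 1) * (Nat.card L * p) = Nat.card L * ((j + 1) * p) by ring,
          Nat.coprime_add_mul_left_right]
        exact Nat.coprime_one_right _
      have hpn : ¬ p ∣ nn j := by
        intro hdiv
        have h3 : p ∣ (j + 1) * (Nat.card L * p) := ⟨(j + 1) * Nat.card L, by ring⟩
        have h4 : p ∣ 1 := (Nat.dvd_add_left h3).mp hdiv
        exact (Nat.Prime.one_lt (Fact.out : p.Prime)).ne' (Nat.dvd_one.mp h4)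
      obtain ⟨H, iH, fH, h3, h4, h5⟩ := hval (nn j) hn0 hco h2 hpn
      have h6 := hC H h3
      rw [err_eq, h4] at h6
      have hn1 : (1 : ℝ) ≤ (nn j : ℝ) := by exact_mod_cast (by omega : 1 ≤ nn j)
      have hL1 : (1 : ℝ) ≤ (Nat.card L : ℝ) := by exact_mod_cast (Nat.card_pos : 0 < Nat.card L)
      have h7 : (((nn j) ^ s ⊥ * Nat.card L : ℕ) : ℝ) ^ (1 / (2 * d)) ≤
          (nn j : ℝ) ^ (1 / 2 : ℝ) * Nat.card L := by
        push_cast
        rw [Real.mul_rpow (by positivity) (by positivity)]
        refine mul_le_mul ?_ ?_ (by positivity) (by positivity)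
        · rw [← Real.rpow_natCast, ← Real.rpow_mul (by positivity)]
          refine Real.rpow_le_rpow_of_exponent_le hn1 ?_
          rw [mul_one_div, div_le_div_iff₀ (by positivity) (by norm_num)]
          change (s ⊥ : ℝ) * 2 ≤ 1 * (2 * ((s ⊥ : ℝ) + 1))
          linarith
        · calc (Nat.card L : ℝ) ^ (1 / (2 * d)) ≤ (Nat.card L : ℝ) ^ (1 : ℝ) := by
                refine Real.rpow_le_rpow_of_exponent_le hL1 ?_
                rw [div_le_one (by positivity)]
                change (1 : ℝ) ≤ 2 * ((s ⊥ : ℝ) + 1)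
                have : (0 : ℝ) ≤ (s ⊥ : ℝ) := Nat.cast_nonneg _
                linarith
            _ = Nat.card L := Real.rpow_one _
      rw [h5, abs_mul, Nat.abs_cast]
      have h8 : |((errZ p H : ℤ) : ℝ)| ≤ |C| * ((nn j : ℝ) ^ (1 / 2 : ℝ) * Nat.card L) := by
        have h9 : |((errZ p H : ℤ) : ℝ)| = |(((errZ p H : ℤ) : ℚ) : ℝ)| := by push_cast; rfl
        rw [h9]
        refine h6.trans ?_
        refine (mul_le_mul_of_nonneg_right (le_abs_self C) (by positivity)).trans ?_
        exact mul_le_mul_of_nonneg_left h7 (abs_nonneg C)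
      calc (Nat.card L : ℝ) * |((errZ p H : ℤ) : ℝ)| ≤
          Nat.card L * (|C| * ((nn j : ℝ) ^ (1 / 2 : ℝ) * Nat.card L)) :=
            mul_le_mul_of_nonneg_left h8 (by positivity)
        _ = _ := by ring
    -- the contradiction
    have htend : Tendsto (fun j : ℕ => (nn j : ℝ)) atTop atTop := by
      refine tendsto_natCast_atTop_atTop.comp (tendsto_atTop_mono (fun j => ?_) tendsto_id)
      change j ≤ 1 + (j + 1) * (Nat.card L * p)
      have : (j + 1) * 1 ≤ (j + 1) * (Nat.card L * p) := Nat.mul_le_mul_left _ hP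
      omega
    have h1 := htend.eventually hc
    have h2 : Tendsto (fun j : ℕ => (nn j : ℝ) ^ (1 / 2 : ℝ)) atTop atTop :=
      (tendsto_rpow_atTop (by norm_num)).comp htend
    have h3 := h2.eventually_gt_atTop (|c| * (|C| * (Nat.card L : ℝ) ^ 2))
    obtain ⟨j, hj1, hj2⟩ := (h1.and h3).exists
    rw [Polynomial.eval_X, Real.norm_eq_abs, Real.norm_eq_abs, Nat.abs_cast] at hj1
    have hpos : (0 : ℝ) < (nn j : ℝ) := by
      have : 0 < nn j := by
        change 0 < 1 + (j + 1) * (Nat.card L * p)
        omega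
      exact_mod_cast this
    have h4 : (nn j : ℝ) ≤ |c| * (|C| * (Nat.card L : ℝ) ^ 2) * (nn j : ℝ) ^ (1 / 2 : ℝ) := by
      refine hj1.trans ((mul_le_mul_of_nonneg_right (le_abs_self c) (abs_nonneg _)).trans ?_)
      have := mul_le_mul_of_nonneg_left (hbound j) (abs_nonneg c)
      refine this.trans (le_of_eq ?_)
      ring
    have h5 : (nn j : ℝ) = (nn j : ℝ) ^ (1 / 2 : ℝ) * (nn j : ℝ) ^ (1 / 2 : ℝ) := by
      rw [← Real.rpow_add hpos]
      norm_num
    have h6 : (0 : ℝ) < (nn j : ℝ) ^ (1 / 2 : ℝ) := Real.rpow_pos_of_pos hpos _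
    have h7 := mul_lt_mul_of_pos_right hj2 h6
    rw [← h5] at h7
    exact absurd h4 (not_le.mpr h7)

end

end Run7.h45
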