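import Pool.Agent.Run7.h45.KW3
import Pool.Agent.Run7.h45.Kp6
import Pool.Agent.Run7.h45.IN6

/-!
# The Knörr–Robinson conjecture is a congruence modulo `p`
-/

set_option autoImplicit false
set_option linter.unusedSectionVars false
set_option linter.style.haveILetI false

open scoped BigOperators Classical

noncomputable section

namespace Pool.Agent.Run7.h45.KW

open Pool.Agent.Q18.KRX Pool.Agent.Y63.KR SemidirectProduct
open Pool.Agent.Y63.AWC (numDefectZero IsIrreducibleCharacter)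
open Pool.Agent.N85.WM.Dzt (Pel pel_conj pel_inv)
open Pool.Agent.K3h3.MK (Wr rAct)
open _root_.Run7.h45 (stL errZ_semi finite_dual)

/-- the sum of the Euler characteristics -/
def eulerSum (p : ℕ) (G : Type) [Group G] : ℤ :=
  ∑ᶠ q : {q : G × G // q.1 * q.2 = q.2 * q.1}, eulerChar (fixedPoset p ({q.1.1, q.1.2} : Set G))

/-- The number of the pairs whose commutator is a non-trivial `p`-element. -/
def numPairs (p : ℕ) (G : Type) [Group G] : ℕ :=
  Nat.card {q : G × G // ∃ k : ℕ, orderOf (q.1 * q.2 * q.1⁻¹ * q.2⁻¹) = p ^ (k + 1)}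

/-- the congruence -/
def Cong (p : ℕ) (G : Type) [Group G] : Prop :=
  ((p * Nat.card G : ℕ) : ℤ) ∣ eulerSum p G + numPairs p G

section cong

variable {p : ℕ} [hp : Fact p.Prime] {G : Type} [Group G] [Finite G]

theorem prs_eq : prs p G = Nat.card G * Nat.card (ConjClasses G) + numPairs p G := by
  haveI := Fintype.ofFinite G
  have h0 : Nat.card G * Nat.card (ConjClasses G) = Nat.card {q : G × G // Commute q.1 q.2} := by
    rw [card_comm_eq_card_conjClasses_mul_card, mul_comm]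
  rw [h0]
  unfold prs numPairs
  rw [Nat.card_eq_fintype_card, Nat.card_eq_fintype_card, Nat.card_eq_fintype_card,
    Fintype.card_subtype, Fintype.card_subtype, Fintype.card_subtype, ← Finset.card_union_of_disjoint]
  · congr 1
    ext q
    simp only [Finset.mem_filter, Finset.mem_univ, true_and, Finset.mem_union]
    constructor
    · rintro ⟨k, hk⟩
      rcases k with _ | k
      · left
        rw [pow_zero, orderOf_eq_one_iff, mul_inv_eq_one, mul_inv_eq_iff_eq_mul] at hk
        exact hk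
      · right
        exact ⟨k, hk⟩
    · rintro (h | ⟨k, hk⟩)
      · refine ⟨0, ?_⟩
        rw [pow_zero, orderOf_eq_one_iff, mul_inv_eq_one, mul_inv_eq_iff_eq_mul]
        exact h
      · exact ⟨k + 1, hk⟩
  · rw [Finset.disjoint_filter]
    rintro q - h ⟨k, hk⟩
    have h1 : q.1 * q.2 * q.1⁻¹ * q.2⁻¹ = 1 := by
      rw [mul_inv_eq_one, mul_inv_eq_iff_eq_mul]
      exact h
    rw [h1, orderOf_one] at hk
    exact absurd hk (Nat.one_lt_pow (Nat.succ_ne_zero k) hp.out.one_lt).ne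

theorem card_errZ : (Nat.card G : ℤ) * errZ p G =
    eulerSum p G - Nat.card G * Nat.card (ConjClasses G) + Nat.card G * numDefectZero p G := by
  haveI := Fintype.ofFinite G
  have h0 : (Nat.card G : ℚ) ≠ 0 := by exact_mod_cast Nat.card_pos.ne'
  have h1 := err_eq p G
  unfold err chi2 at h1
  have h2 : (∑ᶠ q : {q : G × G // q.1 * q.2 = q.2 * q.1},
      (eulerChar (fixedPoset p ({q.1.1, q.1.2} : Set G)) : ℚ)) = (eulerSum p G : ℚ) := by
    haveI : Fintype {q : G × G // q.1 * q.2 = q.2 * q.1} := Fintype.ofFinite _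
    unfold eulerSum
    rw [finsum_eq_sum_of_fintype, finsum_eq_sum_of_fintype, Int.cast_sum]
  rw [h2] at h1
  have h3 : (Nat.card G : ℚ) * (errZ p G : ℚ) =
      eulerSum p G - Nat.card G * Nat.card (ConjClasses G) + Nat.card G * numDefectZero p G := by
    rw [← h1]
    field_simp
    ring
  exact_mod_cast h3

theorem cong_iff : Cong p G ↔ (p : ℤ) ∣ errZ p G := by
  have h0 : (Nat.card G : ℤ) ≠ 0 := by exact_mod_cast Nat.card_pos.ne'
  have h1 := card_errZ (p := p) (G := G)
  have h2 := card_prs (p := p) (G := G)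
  have h3 := prs_eq (p := p) (G := G)
  have h4 := dz_trc (p := p) (G := G)
  have h5 : eulerSum p G + (numPairs p G : ℤ) =
      Nat.card G * (errZ p G - (numDefectZero p G - trc p G)) := by
    have h6 : ((Nat.card G * Nat.card (ConjClasses G) + numPairs p G : ℕ) : ℤ) =
        ((Nat.card G * trc p G : ℕ) : ℤ) := by
      rw [← h3, h2]
    push_cast at h6
    linear_combination -h1 + h6
  unfold Cong
  rw [h5]
  push_cast
  rw [mul_comm (p : ℤ), mul_dvd_mul_iff_left h0]
  exact dvd_sub_left h4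

/-- lifting the exponent -/
theorem pow_step {z f : ℤ} {m : ℕ} (h : (p : ℤ) ^ (m + 1) ∣ z - f) :
    (p : ℤ) ^ (m + 2) ∣ z ^ p - f ^ p := by
  obtain ⟨c, hc⟩ := h
  have h1 : z = f + (p : ℤ) ^ (m + 1) * c := by linarith
  obtain ⟨k, hk⟩ := Polynomial.powAddExpansion f ((p : ℤ) ^ (m + 1) * c) p
  rw [h1, hk]
  have h2 : f ^ p + (p : ℤ) * f ^ (p - 1) * ((p : ℤ) ^ (m + 1) * c) +
      k * ((p : ℤ) ^ (m + 1) * c) ^ 2 - f ^ p =
      (p : ℤ) ^ (m + 2) * (f ^ (p - 1) * c + k * (p : ℤ) ^ m * c ^ 2) := by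
    ring
  rw [h2]
  exact dvd_mul_right _ _

variable {S : Type} [Group S] [Finite S]

/-- the step -/
theorem errZ_step (hS : Nat.card S = p) {m : ℕ} (h1 : (p : ℤ) ^ (m + 1) ∣ errZ p G)
    (h2 : (p : ℤ) ^ (m + 1) ∣ errZ p (Wr G S)) : (p : ℤ) ^ (m + 2) ∣ errZ p G := by
  have h3 := errZ_wr (G := G) hS
  rw [errZ_pi, hS] at h3
  have h4 : (p : ℤ) ^ (m + 2) ∣ (numDefectZero p G : ℤ) ^ p - krSum p G ^ p := pow_step h1
  have h5 : (p : ℤ) ^ (m + 2) ∣ (p : ℤ) * errZ p (Wr G S) := by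
    rw [pow_succ' _ (m + 1)]
    exact mul_dvd_mul_left _ h2
  rw [h3] at h5
  exact (dvd_sub_right h4).mp h5

/-- iterated wreath products -/
def iter (S : Type) [Group S] : ℕ → GrpCat.{0} → GrpCat.{0}
  | 0, G => G
  | j + 1, G => iter S j (GrpCat.of (Wr G S))

theorem errZ_pow (hS : Nat.card S = p) : ∀ (m : ℕ) (G : Type) [Group G] [Finite G],
    (∀ j < m, (p : ℤ) ∣ errZ p (iter S j (GrpCat.of G))) → (p : ℤ) ^ m ∣ errZ p G
  | 0, G, _, _, _ => by
    rw [pow_zero]
    exact one_dvd _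
  | 1, G, _, _, h => by
    rw [pow_one]
    exact h 0 one_pos
  | m + 2, G, _, _, h => by
    haveI : Finite (Wr G S) := finWr
    exact errZ_step hS (errZ_pow hS (m + 1) G fun j hj => h j (by omega))
      (errZ_pow hS (m + 1) (Wr G S) fun j hj => h (j + 1) (by omega))

theorem errZ_zero_wr (hS : Nat.card S = p) (h : errZ p G = 0) : errZ p (Wr G S) = 0 := by
  have h3 := errZ_wr (G := G) hS
  have h4 : (numDefectZero p G : ℤ) = krSum p G := by
    have : (numDefectZero p G : ℤ) - krSum p G = 0 := h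
    linarith
  rw [errZ_pi, h, h4, sub_self, sub_zero] at h3
  have h5 : (p : ℤ) ≠ 0 := by exact_mod_cast hp.out.ne_zero
  exact (mul_eq_zero.mp h3).resolve_left h5

theorem finIter : ∀ (j : ℕ) (G : Type) [Group G] [Finite G], Finite (iter S j (GrpCat.of G))
  | 0, G, _, _ => inferInstanceAs (Finite G)
  | j + 1, G, _, _ => by
    haveI : Finite (Wr G S) := finWr
    exact finIter j (Wr G S)

theorem errZ_zero_iter (hS : Nat.card S = p) : ∀ (j : ℕ) (G : Type) [Group G] [Finite G],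
    errZ p G = 0 → errZ p (iter S j (GrpCat.of G)) = 0
  | 0, _, _, _, h => h
  | j + 1, G, _, _, h => by
    haveI : Finite (Wr G S) := finWr
    exact errZ_zero_iter hS j (Wr G S) (errZ_zero_wr hS h)

theorem eq_zero_of_pow {a : ℤ} (h : ∀ m, (p : ℤ) ^ m ∣ a) : a = 0 := by
  by_contra hne
  obtain ⟨j, hj⟩ : ∃ j : ℕ, a.natAbs < p ^ j := ⟨_, Nat.lt_pow_self hp.out.one_lt⟩
  have h4 : p ^ j ∣ a.natAbs := by
    rw [← Int.natCast_dvd]
    exact_mod_cast h j
  have h5 := Nat.le_of_dvd (Int.natAbs_pos.mpr hne) h4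
  omega

theorem krc_errZ : KRC p G ↔ errZ p G = 0 := by
  rw [krc_iff_err, err_eq, Int.cast_eq_zero]

/-- one group -/
theorem krc_iter (hS : Nat.card S = p) : KRC p G ↔ ∀ j, Cong p (iter S j (GrpCat.of G)) := by
  have hf := fun j => finIter (S := S) j G
  rw [krc_errZ]
  constructor
  · intro h j
    haveI := hf j
    rw [cong_iff, errZ_zero_iter hS j G h]
    exact dvd_zero _
  · intro h
    refine eq_zero_of_pow (p := p) fun m => errZ_pow hS m G fun j _ => ?_
    haveI := hf j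
    exact cong_iff.mp (h j)

end cong

/-! ### the family -/

section fam

variable {p r : ℕ} [hp : Fact p.Prime] [hr : Fact r.Prime] {C : ∀ (G : Type) [Group G], Prop}

/-- the class -/
structure Cls (S : Type) [Group S] (C : ∀ (G : Type) [Group G], Prop) : Prop where
  iso : ∀ (G H : Type) [Group G] [Group H], Nonempty (G ≃* H) → C G → C H
  sub : ∀ (G : Type) [Group G] (H : Subgroup G), C G → C H
  wr : ∀ (G : Type) [Group G] [Finite G], C G → C (Wr G S)

/-- the family -/
def Fam (r : ℕ) (C : ∀ (G : Type) [Group G], Prop) (H : Type) [Group H] : Prop :=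
  ∃ V K : Subgroup H, V ≠ ⊥ ∧ V.Normal ∧ (∀ v ∈ V, v ^ r = 1) ∧
    Subgroup.centralizer (V : Set H) = V ∧ V.IsComplement' K ∧ C K

theorem fam_of {H L : Type} [Group H] [Group L]
    (hiso : ∀ (G H : Type) [Group G] [Group H], Nonempty (G ≃* H) → C G → C H)
    (h : IN.Spn r H L) (hL : C L) : Fam r C H := by
  obtain ⟨V, K, h0, h1, h2, h3, h4, ⟨f⟩⟩ := h
  exact ⟨V, K, h0, h1, h2, h3, h4, hiso L K ⟨f.symm⟩ hL⟩

theorem fam_wr {H : Type} [Group H] [Finite H] {S : Type} [Group S] [Finite S] (hC : Cls S C)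
    (h : Fam r C H) : Fam r C (Wr H S) := by
  obtain ⟨V, K, h0, h1, h2, h3, h4, h5⟩ := h
  exact fam_of hC.iso (IN.spn_wr (L := K) ⟨V, K, h0, h1, h2, h3, h4, ⟨MulEquiv.refl K⟩⟩) (hC.wr K h5)

/-- the error terms vanish in the family -/
theorem fam_zero {S : Type} [Group S] [Finite S] (hS : Nat.card S = p) (hC : Cls S C)
    (HH : ∀ (H : Type) [Group H] [Finite H], Fam r C H → (p : ℤ) ∣ errZ p H)
    (H : Type) [Group H] [Finite H] (hH : Fam r C H) : errZ p H = 0 := by
  have h1 : ∀ m : ℕ, ∀ (H : Type) [Group H] [Finite H], Fam r C H → (p : ℤ) ^ (m + 1) ∣ errZ p H := by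
    intro m
    induction m with
    | zero =>
      intro H _ _ h
      rw [zero_add, pow_one]
      exact HH H h
    | succ m ih =>
      intro H _ _ h
      haveI : Finite (Wr H S) := finWr
      exact errZ_step hS (ih H h) (ih (Wr H S) (fam_wr hC h))
  refine eq_zero_of_pow (p := p) fun m => ?_
  exact (pow_dvd_pow _ (Nat.le_succ m)).trans (h1 m H hH)

theorem not_dvd_of_exp (hrp : r ≠ p) {V : Type} [Group V] [Finite V] (h : ∀ v : V, v ^ r = 1) :
    ¬ p ∣ Nat.card V := by
  have hV : IsPGroup r V := fun v => ⟨1, by rw [pow_one, h]⟩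
  obtain ⟨n, hn⟩ := IsPGroup.iff_card.mp hV
  rw [hn]
  intro h
  exact hrp ((Nat.prime_dvd_prime_iff_eq hp.out hr.out).mp (hp.out.dvd_of_dvd_pow h)).symm

/-- the conjecture for the class implies it for the family -/
theorem errZ_fam (hrp : r ≠ p)
    (hsub : ∀ (G : Type) [Group G] (H : Subgroup G), C G → C H)
    (hQ : ∀ (G : Type) [Group G] [Finite G], C G → errZ p G = 0)
    {H : Type} [Group H] [Finite H] (hH : Fam r C H) : errZ p H = 0 := by
  obtain ⟨V, K, h0, h1, h2, h3, h4, h5⟩ := hH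
  letI : CommGroup V :=
    { (inferInstance : Group V) with
      mul_comm := fun a b => Subtype.ext (by
        have ha : (a : H) ∈ Subgroup.centralizer (V : Set H) := by rw [h3]; exact a.2
        exact (Subgroup.mem_centralizer_iff.mp ha b b.2).symm) }
  have hpV : ¬ p ∣ Nat.card V := not_dvd_of_exp hrp fun v =>
    Subtype.ext (by rw [Subgroup.coe_pow]; exact h2 v v.2)
  let φ : K →* MulAut V := (V.normalizerMonoidHom).comp (Subgroup.inclusion (V.normalizer_eq_top ▸ le_top))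
  let e : V ⋊[φ] K ≃* H := SemidirectProduct.mulEquivSubgroup h4
  have h6 := errZ_semi (p := p) φ hpV
  have h7 : (∑ᶠ θ : V →* ℂ, (Nat.card (stL φ θ) : ℤ) * errZ p (stL φ θ)) = 0 := by
    rw [← finsum_zero (α := V →* ℂ)]
    refine finsum_congr fun θ => ?_
    rw [hQ (stL φ θ) (hsub K _ h5), mul_zero]
  rw [h7] at h6
  have h8 : (Nat.card K : ℤ) ≠ 0 := by exact_mod_cast Nat.card_pos.ne'
  haveI : Finite (V ⋊[φ] K) := Finite.of_equiv _ e.symm.toEquiv
  rw [← errZ_iso (p := p) (V ⋊[φ] K) H ⟨e⟩]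
  exact (mul_eq_zero.mp h6).resolve_left h8

/-- a minimal counterexample -/
theorem exists_min (h : ∃ (G : Type) (_ : Group G) (_ : Finite G), C G ∧ errZ p G ≠ 0) :
    ∃ (G : Type) (_ : Group G) (_ : Finite G), C G ∧ errZ p G ≠ 0 ∧
      ∀ (H : Type) [Group H] [Finite H], C H → Nat.card H < Nat.card G → errZ p H = 0 := by
  have h1 : ∃ n : ℕ, ∃ (G : Type) (_ : Group G) (_ : Finite G), (C G ∧ errZ p G ≠ 0) ∧
      Nat.card G = n := by
    obtain ⟨G, i1, i2, h⟩ := h
    exact ⟨_, G, i1, i2, h, rfl⟩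
  obtain ⟨G, i1, i2, h2, h3⟩ := Nat.find_spec h1
  refine ⟨G, i1, i2, h2.1, h2.2, fun H i3 i4 hc hlt => ?_⟩
  by_contra hne
  rw [h3] at hlt
  exact Nat.find_min h1 hlt ⟨H, i3, i4, ⟨hc, hne⟩, rfl⟩

/-- the number of the invariant characters -/
def nI {V L : Type} [CommGroup V] [Group L] (φ : L →* MulAut V) : ℕ :=
  Nat.card {θ : V →* ℂ // stL φ θ = ⊤}

theorem errZ_min {V L : Type} [CommGroup V] [Group L] [Finite V] [Finite L] (φ : L →* MulAut V)
    (hV : ¬ p ∣ Nat.card V) (h : ∀ K : Subgroup L, K ≠ ⊤ → errZ p K = 0) :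
    errZ p (V ⋊[φ] L) = nI φ * errZ p L := by
  have h6 := errZ_semi (p := p) φ hV
  haveI : Finite (V →* ℂ) := finite_dual V
  haveI : Fintype (V →* ℂ) := Fintype.ofFinite _
  rw [finsum_eq_sum_of_fintype] at h6
  have h7 : ∀ θ : V →* ℂ, (Nat.card (stL φ θ) : ℤ) * errZ p (stL φ θ) =
      if stL φ θ = ⊤ then (Nat.card L : ℤ) * errZ p L else 0 := by
    intro θ
    split_ifs with h8
    · rw [h8, Subgroup.card_top, errZ_iso (p := p) (⊤ : Subgroup L) L ⟨Subgroup.topEquiv⟩]
    · rw [h _ h8, mul_zero]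
  rw [Finset.sum_congr rfl fun θ _ => h7 θ, ← Finset.sum_filter, Finset.sum_const, nsmul_eq_mul] at h6
  have h8 : (Nat.card L : ℤ) ≠ 0 := by exact_mod_cast Nat.card_pos.ne'
  apply mul_left_cancel₀ h8
  rw [h6]
  have h9 : nI φ = (Finset.univ.filter fun θ : V →* ℂ => stL φ θ = ⊤).card := by
    unfold nI
    rw [Nat.card_eq_fintype_card, Fintype.card_subtype]
  rw [h9]
  ring

theorem nI_pos {V L : Type} [CommGroup V] [Group L] [Finite V] (φ : L →* MulAut V) : nI φ ≠ 0 := by
  haveI : Finite (V →* ℂ) := finite_dual V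
  haveI : Nonempty {θ : V →* ℂ // stL φ θ = ⊤} := ⟨⟨1, by
    rw [eq_top_iff]
    intro l _ v
    rfl⟩⟩
  exact Nat.card_pos.ne'

/-- **The reduction to the family.** -/
theorem all_of_fam (hrp : r ≠ p)
    (hiso : ∀ (G H : Type) [Group G] [Group H], Nonempty (G ≃* H) → C G → C H)
    (hsub : ∀ (G : Type) [Group G] (H : Subgroup G), C G → C H)
    (hyp : ∀ (H : Type) [Group H] [Finite H], Fam r C H → errZ p H = 0)
    (G : Type) [Group G] [Finite G] (hG : C G) : errZ p G = 0 := by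
  by_contra hne
  obtain ⟨L, i1, i2, hL, hL0, hmin⟩ := exists_min (C := C) (p := p) ⟨G, _, inferInstance, hG, hne⟩
  have hp1 : ∀ K : Subgroup L, K ≠ ⊤ → errZ p K = 0 := by
    intro K hK
    refine hmin K (hsub L K hL) ?_
    rw [← Subgroup.card_top (G := L)]
    have h1 : K < ⊤ := lt_top_iff_ne_top.mpr hK
    exact Set.Finite.card_lt_card (Set.toFinite _) h1
  let V := L → Multiplicative (ZMod r)
  have hVr : ∀ v : V, v ^ r = 1 := fun v => by
    funext g
    change Multiplicative.ofAdd (r • Multiplicative.toAdd (v g)) = 1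
    rw [nsmul_eq_mul, CharP.cast_eq_zero, zero_mul, ofAdd_zero]
  have hS : IN.Spl r (V ⋊[rAct (Multiplicative (ZMod r)) L] L) L :=
    IN.spl_sd _ IN.rAct_injective hVr
  have h1 := errZ_min (p := p) (rAct (Multiplicative (ZMod r)) L) (not_dvd_of_exp hrp hVr) hp1
  haveI : Nontrivial (V ⋊[rAct (Multiplicative (ZMod r)) L] L) := by
    have h2 : Function.Injective (inl : V →* V ⋊[rAct (Multiplicative (ZMod r)) L] L) := inl_injective
    haveI : Nontrivial V := inferInstance
    exact h2.nontrivial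
  haveI : Finite (V ⋊[rAct (Multiplicative (ZMod r)) L] L) :=
    Finite.of_equiv _ SemidirectProduct.equivProd.symm
  rw [hyp _ (fam_of hiso hS.spn hL)] at h1
  have h2 : (nI (rAct (Multiplicative (ZMod r)) L) : ℤ) ≠ 0 := by exact_mod_cast nI_pos _
  exact mul_ne_zero h2 hL0 h1.symm

/-- the class and the family -/
theorem krc_cls (hrp : r ≠ p) {S : Type} [Group S] [Finite S] (hS : Nat.card S = p) (hC : Cls S C) :
    (∀ (G : Type) [Group G] [Finite G], C G → KRC p G) ↔
      ∀ (H : Type) [Group H] [Finite H], Fam r C H → Cong p H := by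
  constructor
  · intro h H _ _ hH
    rw [cong_iff, errZ_fam hrp hC.sub (fun G _ _ hG => krc_errZ.mp (h G hG)) hH]
    exact dvd_zero _
  · intro h G _ _ hG
    rw [krc_errZ]
    refine all_of_fam hrp hC.iso hC.sub (fun H _ _ hH => ?_) G hG
    exact fam_zero hS hC (fun H _ _ hH => cong_iff.mp (h H hH)) H hH

end fam

end Pool.Agent.Run7.h45.KW
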