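import Pool.Agent.Run7.h45.KW4

/-!
# Large groups in the family
-/

set_option autoImplicit false
set_option linter.unusedSectionVars false
set_option linter.style.haveILetI false

open scoped BigOperators Classical

noncomputable section

namespace Pool.Agent.Run7.h45.KW

open Pool.Agent.Q18.KRX Pool.Agent.Y63.KR SemidirectProduct
open Pool.Agent.Y63.AWC (numDefectZero IsIrreducibleCharacter)
open Pool.Agent.K3h3.MK (Wr rAct)
open _root_.Run7.h45 (stL errZ_semi finite_dual card_dual)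

section ab

variable {p : ℕ} [hp : Fact p.Prime]

theorem errZ_ab {A H : Type} [CommGroup A] [Group H] [Finite A] [Finite H] (hA : ¬ p ∣ Nat.card A) :
    errZ p (A × H) = Nat.card A * errZ p H := by
  have h6 := errZ_semi (p := p) (1 : H →* MulAut A) hA
  haveI : Finite (A →* ℂ) := finite_dual A
  haveI : Fintype (A →* ℂ) := Fintype.ofFinite _
  rw [finsum_eq_sum_of_fintype] at h6
  have h7 : ∀ θ : A →* ℂ, (Nat.card (stL (1 : H →* MulAut A) θ) : ℤ) *
      errZ p (stL (1 : H →* MulAut A) θ) = (Nat.card H : ℤ) * errZ p H := by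
    intro θ
    have h8 : stL (1 : H →* MulAut A) θ = ⊤ := by
      rw [eq_top_iff]
      intro l _ v
      rfl
    rw [h8, Subgroup.card_top, errZ_iso (p := p) (⊤ : Subgroup H) H ⟨Subgroup.topEquiv⟩]
  rw [Finset.sum_congr rfl fun θ _ => h7 θ, Finset.sum_const, nsmul_eq_mul, Finset.card_univ,
    ← Nat.card_eq_fintype_card, card_dual A] at h6
  haveI : Finite (A ⋊[(1 : H →* MulAut A)] H) := Finite.of_equiv _ SemidirectProduct.equivProd.symm
  rw [errZ_iso (p := p) (A ⋊[(1 : H →* MulAut A)] H) (A × H) ⟨SemidirectProduct.mulEquivProd⟩] at h6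
  have h8 : (Nat.card H : ℤ) ≠ 0 := by exact_mod_cast Nat.card_pos.ne'
  apply mul_left_cancel₀ h8
  rw [h6]
  ring

/-- the elementary abelian group -/
abbrev El (r n : ℕ) : Type := Fin n → Multiplicative (ZMod r)

theorem el_pow {r n : ℕ} (v : El r n) : v ^ r = 1 := by
  funext g
  change Multiplicative.ofAdd (r • Multiplicative.toAdd (v g)) = 1
  rw [nsmul_eq_mul, CharP.cast_eq_zero, zero_mul, ofAdd_zero]

theorem card_el {r n : ℕ} : Nat.card (El r n) = r ^ n := by
  rw [Nat.card_fun, Nat.card_fin]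
  congr 1
  exact Nat.card_zmod r

theorem spl_el (r n : ℕ) : IN.Spl r (El r n) Unit := by
  refine ⟨⊤, ⊥, inferInstance, fun v _ => el_pow v, ?_, Subgroup.isComplement'_top_bot,
    ⟨(MulEquiv.ofUnique : (⊥ : Subgroup (El r n)) ≃* Unit)⟩⟩
  rw [eq_top_iff]
  intro x _
  rw [Subgroup.mem_centralizer_iff]
  intro y _
  exact mul_comm _ _

variable {r : ℕ} [hr : Fact r.Prime] {C : ∀ (G : Type) [Group G], Prop}

theorem fam_el (hiso : ∀ (G H : Type) [Group G] [Group H], Nonempty (G ≃* H) → C G → C H)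
    {H : Type} [Group H] [Finite H] (h : Fam r C H) (n : ℕ) : Fam r C (El r n × H) := by
  obtain ⟨V, K, h0, h1, h2, h3, h4, h5⟩ := h
  have hs : IN.Spn r H K := ⟨V, K, h0, h1, h2, h3, h4, ⟨MulEquiv.refl K⟩⟩
  haveI : Nontrivial H := by
    by_contra hcon
    rw [not_nontrivial_iff_subsingleton] at hcon
    exact h0 (Subsingleton.elim _ _)
  have h6 : IN.Spn r (El r n × H) (Unit × K) := (IN.spl_prod (spl_el r n) hs.spl).spn
  obtain ⟨V', K', g0, g1, g2, g3, g4, ⟨f⟩⟩ := h6
  refine ⟨V', K', g0, g1, g2, g3, g4, hiso K K' ⟨?_⟩ h5⟩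
  exact (MulEquiv.uniqueProd (M := K) (N := Unit)).symm.trans f.symm

/-- the class and the large groups in the family -/
theorem krc_cls_large (hrp : r ≠ p) {S : Type} [Group S] [Finite S] (hS : Nat.card S = p)
    (hC : Cls S C) (n₀ : ℕ) :
    (∀ (G : Type) [Group G] [Finite G], C G → KRC p G) ↔
      ∀ (H : Type) [Group H] [Finite H], Fam r C H → n₀ ≤ Nat.card H → Cong p H := by
  rw [krc_cls hrp hS hC]
  constructor
  · exact fun h H _ _ hH _ => h H hH
  · intro h H _ _ hH
    have hA : ¬ p ∣ Nat.card (El r n₀) := not_dvd_of_exp hrp el_pow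
    have h1 := h (El r n₀ × H) (fam_el hC.iso hH n₀) (by
      rw [Nat.card_prod, card_el]
      have h2 : n₀ < r ^ n₀ := Nat.lt_pow_self hr.out.one_lt
      have h3 : 0 < Nat.card H := Nat.card_pos
      nlinarith)
    rw [cong_iff] at h1 ⊢
    rw [errZ_ab hA] at h1
    have hpz : Prime (p : ℤ) := Nat.prime_iff_prime_int.mp hp.out
    rcases hpz.dvd_or_dvd h1 with h2 | h2
    · exact absurd (by exact_mod_cast h2) hA
    · exact h2

/-- **The error term is small.** -/
theorem krc_small (hrp : r ≠ p)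
    (hiso : ∀ (G H : Type) [Group G] [Group H], Nonempty (G ≃* H) → C G → C H)
    (hsub : ∀ (G : Type) [Group G] (H : Subgroup G), C G → C H) :
    (∀ (G : Type) [Group G] [Finite G], C G → KRC p G) ↔
      ∀ ε : ℝ, 0 < ε → ∃ n₀ : ℕ, ∀ (H : Type) [Group H] [Finite H], Fam r C H → n₀ ≤ Nat.card H →
        |((err p H : ℚ) : ℝ)| ≤ ε * Nat.card H := by
  constructor
  · intro h ε hε
    refine ⟨0, fun H _ _ hH _ => ?_⟩
    rw [err_eq, errZ_fam hrp hsub (fun G _ _ hG => krc_errZ.mp (h G hG)) hH, Int.cast_zero,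
      Rat.cast_zero, abs_zero]
    positivity
  · intro h G _ _ hG
    rw [krc_errZ]
    refine all_of_fam hrp hiso hsub (fun H _ _ hH => ?_) G hG
    by_contra hne
    have hH0 : (0 : ℝ) < Nat.card H := by exact_mod_cast Nat.card_pos
    obtain ⟨n₀, hn⟩ := h (1 / (2 * Nat.card H)) (by positivity)
    have hA : ¬ p ∣ Nat.card (El r n₀) := not_dvd_of_exp hrp el_pow
    have h1 := hn (El r n₀ × H) (fam_el hiso hH n₀) (by
      rw [Nat.card_prod, card_el]
      have h2 : n₀ < r ^ n₀ := Nat.lt_pow_self hr.out.one_lt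
      have h3 : 0 < Nat.card H := Nat.card_pos
      nlinarith)
    rw [err_eq, errZ_ab hA, Nat.card_prod] at h1
    have hE : (0 : ℝ) < Nat.card (El r n₀) := by exact_mod_cast Nat.card_pos
    have h2 : (1 : ℝ) ≤ |(errZ p H : ℝ)| := by
      have : (1 : ℤ) ≤ |errZ p H| := Int.one_le_abs hne
      exact_mod_cast this
    push_cast at h1
    rw [abs_mul, abs_of_pos hE] at h1
    have h3 : 1 / (2 * (Nat.card H : ℝ)) * (Nat.card (El r n₀) * Nat.card H) =
        Nat.card (El r n₀) / 2 := by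
      field_simp
    rw [h3] at h1
    nlinarith

end ab

end Pool.Agent.Run7.h45.KW
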