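import Pool.Agent.Run7.h45.Kr6
import Pool.Agent.Q18.KRX.Last

/-!
# Coprime modules, their fixed points and perfect semidirect products
-/

set_option autoImplicit false
set_option linter.unusedSectionVars false
set_option linter.deprecated false

open scoped BigOperators Classical

noncomputable section

namespace Run7.h45

open Pool.Agent.Y63.KR Pool.Agent.Q18.KRX

section fixed

variable {V L : Type} [CommGroup V] [Group L] (φ : L →* MulAut V) [Finite V] [Finite L]

/-- the number of characters of `V` fixed by `K` -/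
def nF (K : Subgroup L) : ℕ := Nat.card {θ : V →* ℂ // K ≤ stL φ θ}

theorem nF_eq {K : Subgroup L} (hco : Nat.Coprime (Nat.card K) (Nat.card V)) :
    nF φ K = Nat.card (CV φ K) := by
  have : Fintype K := Fintype.ofFinite K
  have : Fintype V := Fintype.ofFinite V
  rw [← card_dual (CV φ K)]
  rw [Nat.card_eq_fintype_card, Nat.card_eq_fintype_card (α := V)] at hco
  refine Nat.card_eq_of_bijective (fun θ => θ.1.comp (CV φ K).subtype) ⟨?_, ?_⟩
  · rintro ⟨θ, h1⟩ ⟨θ', h1'⟩ h
    apply Subtype.ext
    refine hom_ext_fx hco (φ.comp K.subtype) (fun u v => h1 u.2 v) (fun u v => h1' u.2 v)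
      fun v hv => ?_
    exact DFunLike.congr_fun h (⟨v, hv⟩ : CV φ K)
  · intro η
    obtain ⟨θ, hθ, he⟩ := hom_extend hco (φ.comp K.subtype) η
    refine ⟨⟨θ, fun g hg v => hθ ⟨g, hg⟩ v⟩, ?_⟩
    ext v
    exact he v v.2

end fixed

section norm

variable {V L : Type} [CommGroup V] [Group L] (φ : L →* MulAut V) [Finite V] [Finite L]

/-- the kernel of the norm -/
def nU : Subgroup V where
  carrier := {v | ∏ᶠ l : L, φ l v = 1}
  one_mem' := by simp
  mul_mem' := fun {a b} ha hb => by
    have : Fintype L := Fintype.ofFinite L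
    rw [Set.mem_setOf_eq, finprod_eq_prod_of_fintype] at ha hb ⊢
    simp_rw [map_mul]
    rw [Finset.prod_mul_distrib, ha, hb, one_mul]
  inv_mem' := fun {a} ha => by
    have : Fintype L := Fintype.ofFinite L
    rw [Set.mem_setOf_eq, finprod_eq_prod_of_fintype] at ha ⊢
    simp_rw [map_inv]
    rw [Finset.prod_inv_distrib, ha, inv_one]

theorem mem_nU [Fintype L] {v : V} : v ∈ nU φ ↔ ∏ l : L, φ l v = 1 := by
  change ∏ᶠ l : L, φ l v = 1 ↔ _
  rw [finprod_eq_prod_of_fintype]

theorem nU_act (l : L) {v : V} (hv : v ∈ nU φ) : φ l v ∈ nU φ := by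
  have : Fintype L := Fintype.ofFinite L
  rw [mem_nU] at hv ⊢
  rw [← hv]
  refine Fintype.prod_equiv (Equiv.mulRight l) _ _ fun k => ?_
  rw [Equiv.coe_mulRight, map_mul, MulAut.mul_apply]

/-- the action on the kernel of the norm -/
def phU : L →* MulAut (nU φ) where
  toFun l :=
    { toFun := fun v => ⟨φ l v, nU_act φ l v.2⟩
      invFun := fun v => ⟨φ l⁻¹ v, nU_act φ l⁻¹ v.2⟩
      left_inv := fun v => by
        apply Subtype.ext
        change φ l⁻¹ (φ l v) = v
        rw [← MulAut.mul_apply, ← map_mul, inv_mul_cancel, map_one, MulAut.one_apply]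
      right_inv := fun v => by
        apply Subtype.ext
        change φ l (φ l⁻¹ v) = v
        rw [← MulAut.mul_apply, ← map_mul, mul_inv_cancel, map_one, MulAut.one_apply]
      map_mul' := fun a b => by
        apply Subtype.ext
        exact map_mul (φ l) _ _ }
  map_one' := by
    ext v
    change φ 1 (v : V) = v
    rw [map_one, MulAut.one_apply]
  map_mul' a b := by
    ext v
    change φ (a * b) (v : V) = φ a (φ b v)
    rw [map_mul, MulAut.mul_apply]

theorem phU_coe (l : L) (v : nU φ) : (phU φ l v : V) = φ l v := rfl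

/-- the fixed points in `V` and in the kernel of the norm -/
theorem card_CV_nU (hco : Nat.Coprime (Nat.card L) (Nat.card V)) (K : Subgroup L) :
    Nat.card (CV φ K) = Nat.card (CV (phU φ) K) * Nat.card (CV φ ⊤) := by
  have fL : Fintype L := Fintype.ofFinite L
  have fV : Fintype V := Fintype.ofFinite V
  have hn : ∀ v, ∏ l : L, φ l v ∈ CV φ ⊤ := by
    intro v
    rw [mem_CV]
    intro g _
    rw [map_prod]
    refine Fintype.prod_equiv (Equiv.mulLeft g) _ _ fun k => ?_
    rw [Equiv.coe_mulLeft, map_mul, MulAut.mul_apply]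
  let f : CV φ K →* CV φ ⊤ :=
    { toFun := fun v => ⟨∏ l : L, φ l v, hn v⟩
      map_one' := by
        apply Subtype.ext
        change ∏ l : L, φ l 1 = 1
        simp
      map_mul' := fun a b => by
        apply Subtype.ext
        change ∏ l : L, φ l (a * b : V) = (∏ l : L, φ l (a : V)) * ∏ l : L, φ l (b : V)
        rw [← Finset.prod_mul_distrib]
        exact Finset.prod_congr rfl fun l _ => map_mul _ _ _ }
  have hf : ∀ v, (f v : V) = ∏ l : L, φ l (v : V) := fun v => rfl
  have hsurj : Function.Surjective f := by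
    rintro ⟨c, hc⟩
    obtain ⟨k, hk⟩ := exists_inv_mod hco Nat.card_pos
    rw [mem_CV] at hc
    refine ⟨⟨c ^ k, ?_⟩, ?_⟩
    · rw [mem_CV]
      intro g _
      rw [map_pow, hc g trivial]
    · apply Subtype.ext
      rw [hf]
      change ∏ l : L, φ l (c ^ k) = c
      have h1 : ∀ l : L, φ l (c ^ k) = c ^ k := fun l => by rw [map_pow, hc l trivial]
      rw [Finset.prod_congr rfl fun l _ => h1 l, Finset.prod_const, Finset.card_univ, ← pow_mul,
        ← Nat.card_eq_fintype_card]
      have h2 : c ^ (k * Nat.card L) = c ^ 1 := by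
        rw [pow_eq_pow_iff_modEq]
        rw [mul_comm]
        exact hk.of_dvd (orderOf_dvd_natCard c)
      rw [h2, pow_one]
  have hker : Nat.card f.ker = Nat.card (CV (phU φ) K) := by
    refine Nat.card_congr
      { toFun := fun v => ⟨⟨(v : CV φ K), (mem_nU φ).2 (by
          have h1 := v.2
          rw [MonoidHom.mem_ker] at h1
          have h2 := congrArg Subtype.val h1
          exact h2)⟩, by
          rw [mem_CV]
          intro g hg
          apply Subtype.ext
          rw [phU_coe]
          exact (mem_CV φ).1 v.1.2 g hg⟩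
        invFun := fun u => ⟨⟨((u : nU φ) : V), by
          rw [mem_CV]
          intro g hg
          have h1 := (mem_CV (phU φ)).1 u.2 g hg
          exact congrArg Subtype.val h1⟩, by
          rw [MonoidHom.mem_ker]
          apply Subtype.ext
          rw [hf]
          exact (mem_nU φ).1 u.1.2⟩
        left_inv := fun v => rfl
        right_inv := fun u => rfl }
  have h3 := Subgroup.card_eq_card_quotient_mul_card_subgroup f.ker
  rw [Nat.card_congr (QuotientGroup.quotientKerEquivOfSurjective f hsurj).toEquiv, hker] at h3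
  rw [h3, mul_comm]

/-- invariant characters of the kernel of the norm are trivial -/
theorem nU_inv (hco : Nat.Coprime (Nat.card L) (Nat.card V)) (θ : nU φ →* ℂ)
    (h : ∀ l v, θ (phU φ l v) = θ v) : θ = 1 := by
  have fL : Fintype L := Fintype.ofFinite L
  ext v
  have h1 : θ v ^ Nat.card L = 1 := by
    have h2 : ∏ l : L, θ (phU φ l v) = 1 := by
      rw [← map_prod]
      have h3 : ∏ l : L, phU φ l v = 1 := by
        apply Subtype.ext
        rw [Subgroup.val_finset_prod]
        exact (mem_nU φ).1 v.2
      rw [h3, map_one]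
    rw [Finset.prod_congr rfl fun l _ => h l v, Finset.prod_const, Finset.card_univ,
      ← Nat.card_eq_fintype_card] at h2
    exact h2
  have h4 : θ v ^ Nat.card (nU φ) = 1 := by
    rw [← map_pow, pow_card_eq_one', map_one]
  have h5 : Nat.Coprime (Nat.card L) (Nat.card (nU φ)) :=
    hco.coprime_dvd_right (Subgroup.card_subgroup_dvd_card _)
  have h6 := orderOf_dvd_of_pow_eq_one h1
  have h7 := orderOf_dvd_of_pow_eq_one h4
  exact orderOf_eq_one_iff.mp (Nat.eq_one_of_dvd_coprimes h5 h6 h7)

/-- the kernel of the norm is faithful -/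
theorem nU_faithful (hco : Nat.Coprime (Nat.card L) (Nat.card V))
    (hf : ∀ l : L, (∀ v, φ l v = v) → l = 1) (l : L) (h : ∀ u, phU φ l u = u) : l = 1 := by
  apply hf
  intro v
  have fL : Fintype L := Fintype.ofFinite L
  have h1 : v⁻¹ * φ l v ∈ nU φ := by
    rw [mem_nU]
    have h2 : ∏ k : L, φ k (φ l v) = ∏ k : L, φ k v := by
      refine Fintype.prod_equiv (Equiv.mulRight l) _ _ fun k => ?_
      rw [Equiv.coe_mulRight, map_mul, MulAut.mul_apply]
    simp_rw [map_mul, map_inv]
    rw [Finset.prod_mul_distrib, Finset.prod_inv_distrib, h2, inv_mul_cancel]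
  obtain ⟨w, hw⟩ : ∃ w, w = v⁻¹ * φ l v := ⟨_, rfl⟩
  rw [← hw] at h1
  have h3 : φ l w = w := congrArg Subtype.val (h ⟨w, h1⟩)
  have h4 : φ l v = v * w := by rw [hw]; group
  have h5 : ∀ j : ℕ, φ (l ^ j) v = v * w ^ j := by
    intro j
    induction j with
    | zero => rw [pow_zero, map_one, MulAut.one_apply, pow_zero, mul_one]
    | succ j ih =>
      rw [pow_succ', map_mul, MulAut.mul_apply, ih, map_mul, h4, map_pow, h3, pow_succ', mul_assoc]
  have h6 := h5 (Nat.card L)
  rw [pow_card_eq_one', map_one, MulAut.one_apply] at h6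
  have h7 : w ^ Nat.card L = 1 := by
    have : v * 1 = v * w ^ Nat.card L := by rw [mul_one]; exact h6
    exact (mul_left_cancel this).symm
  have h8 : w ^ Nat.card V = 1 := pow_card_eq_one'
  have h9 : w = 1 := orderOf_eq_one_iff.mp
    (Nat.eq_one_of_dvd_coprimes hco (orderOf_dvd_of_pow_eq_one h7) (orderOf_dvd_of_pow_eq_one h8))
  rw [h4, h9, mul_one]

end norm

section perfect

variable {U L : Type} [CommGroup U] [Group L] (φ : L →* MulAut U) [Finite U] [Finite L]

/-- a semidirect product with a perfect group and a module without invariant characters is perfect -/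
theorem semi_perfect (hL : commutator L = ⊤)
    (h : ∀ θ : U →* ℂ, (∀ l v, θ (φ l v) = θ v) → θ = 1) : commutator (U ⋊[φ] L) = ⊤ := by
  by_contra hcon
  have hnt : Nontrivial (Abelianization (U ⋊[φ] L)) := by
    obtain ⟨x, hx⟩ : ∃ x, x ∉ commutator (U ⋊[φ] L) := by
      by_contra h1
      push Not at h1
      exact hcon (eq_top_iff.mpr fun x _ => h1 x)
    refine ⟨Abelianization.of x, 1, fun h1 => hx ?_⟩
    rw [← Abelianization.ker_of, MonoidHom.mem_ker]
    exact h1
  obtain ⟨a, ha⟩ := exists_ne (1 : Abelianization (U ⋊[φ] L))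
  have : Finite (Abelianization (U ⋊[φ] L)) := by
    refine Finite.of_surjective (Abelianization.of : (U ⋊[φ] L) → _) ?_
    exact QuotientGroup.mk_surjective
  obtain ⟨ψ, hψ⟩ := CommGroup.exists_apply_ne_one_of_hasEnoughRootsOfUnity _ ℂ ha
  apply hψ
  obtain ⟨x, rfl⟩ := QuotientGroup.mk_surjective a
  let χ : (U ⋊[φ] L) →* ℂˣ := ψ.comp Abelianization.of
  have h1 : ∀ l : L, χ (SemidirectProduct.inr l) = 1 := by
    intro l
    have h2 : commutator L ≤ (χ.comp SemidirectProduct.inr).ker :=
      Abelianization.commutator_subset_ker _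
    rw [hL] at h2
    exact h2 (Subgroup.mem_top l)
  have h3 : ∀ u : U, χ (SemidirectProduct.inl u) = 1 := by
    have h4 := h ((Units.coeHom ℂ).comp (χ.comp SemidirectProduct.inl)) (by
      intro l v
      change ((χ (SemidirectProduct.inl (φ l v)) : ℂˣ) : ℂ) = (χ (SemidirectProduct.inl v) : ℂˣ)
      congr 1
      rw [SemidirectProduct.inl_aut, map_mul, map_mul, h1, map_inv, map_inv, h1, inv_one, mul_one,
        one_mul])
    intro u
    have h5 := DFunLike.congr_fun h4 u
    exact Units.ext h5
  change χ x = 1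
  rw [← SemidirectProduct.inl_left_mul_inr_right x, map_mul, h1, h3, one_mul]

end perfect

end Run7.h45
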