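import Pool.Agent.Run7.h45.Kp1

/-!
# Fixed points of function modules and of products
-/

set_option autoImplicit false
set_option linter.unusedSectionVars false

open scoped BigOperators Classical

noncomputable section

namespace Run7.h45

section fn

variable {L : Type} [Group L] [Finite L]

/-- the number of orbits of the subgroup `K` on `X` -/
def orbN (X : Type) [MulAction L X] (K : Subgroup L) : ℕ :=
  Nat.card (MulAction.orbitRel.Quotient K X)

variable (X : Type) [MulAction L X] (A : Type) [CommGroup A]

/-- functions on `X` with values in `A` -/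
abbrev fnA : L →* MulAut (X → A) := mulAutArrow

theorem fnA_apply (l : L) (f : X → A) (x : X) : fnA X A l f x = f (l⁻¹ • x) := rfl

theorem card_CV_fn [Finite X] (K : Subgroup L) :
    Nat.card (CV (fnA X A) K) = Nat.card A ^ orbN X K := by
  have h1 : Nat.card (MulAction.orbitRel.Quotient K X → A) = Nat.card A ^ orbN X K := by
    unfold orbN
    have : Finite (MulAction.orbitRel.Quotient K X) := inferInstance
    have : Fintype (MulAction.orbitRel.Quotient K X) := Fintype.ofFinite _
    rw [Nat.card_fun]
  rw [← h1]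
  refine Nat.card_congr
    { toFun := fun f => Quotient.lift (s := MulAction.orbitRel K X) f.1 (by
        rintro a b ⟨k, hk⟩
        have h2 := (mem_CV (fnA X A)).1 f.2 (k : L)⁻¹ (K.inv_mem k.2)
        have h3 := congrFun h2 b
        rw [fnA_apply, inv_inv] at h3
        have h4 : (k : L) • b = a := hk
        rw [h4] at h3
        exact h3)
      invFun := fun g => ⟨fun x => g (Quotient.mk (MulAction.orbitRel K X) x), by
        rw [mem_CV]
        intro k hk
        funext x
        rw [fnA_apply]
        congr 1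
        apply Quotient.sound
        exact ⟨(⟨k, hk⟩ : K)⁻¹, rfl⟩⟩
      left_inv := fun f => rfl
      right_inv := fun g => by
        funext z
        induction z using Quotient.inductionOn with
        | _ x => rfl }

end fn

section prod

variable {L V₁ V₂ : Type} [Group L] [CommGroup V₁] [CommGroup V₂]
  (φ₁ : L →* MulAut V₁) (φ₂ : L →* MulAut V₂)

/-- the product of two modules -/
def prA : L →* MulAut (V₁ × V₂) where
  toFun l := MulEquiv.prodCongr (φ₁ l) (φ₂ l)
  map_one' := by
    ext v
    · change φ₁ 1 v.1 = v.1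
      rw [map_one, MulAut.one_apply]
    · change φ₂ 1 v.2 = v.2
      rw [map_one, MulAut.one_apply]
  map_mul' a b := by
    ext v
    · change φ₁ (a * b) v.1 = φ₁ a (φ₁ b v.1)
      rw [map_mul, MulAut.mul_apply]
    · change φ₂ (a * b) v.2 = φ₂ a (φ₂ b v.2)
      rw [map_mul, MulAut.mul_apply]

theorem prA_apply (l : L) (v : V₁ × V₂) : prA φ₁ φ₂ l v = (φ₁ l v.1, φ₂ l v.2) := rfl

theorem card_CV_pr (K : Subgroup L) :
    Nat.card (CV (prA φ₁ φ₂) K) = Nat.card (CV φ₁ K) * Nat.card (CV φ₂ K) := by
  rw [← Nat.card_prod]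
  refine Nat.card_congr
    { toFun := fun v => (⟨v.1.1, (mem_CV φ₁).2 fun g hg =>
          congrArg Prod.fst ((mem_CV (prA φ₁ φ₂)).1 v.2 g hg)⟩,
        ⟨v.1.2, (mem_CV φ₂).2 fun g hg =>
          congrArg Prod.snd ((mem_CV (prA φ₁ φ₂)).1 v.2 g hg)⟩)
      invFun := fun w => ⟨(w.1.1, w.2.1), (mem_CV (prA φ₁ φ₂)).2 fun g hg =>
        Prod.ext ((mem_CV φ₁).1 w.1.2 g hg) ((mem_CV φ₂).1 w.2.2 g hg)⟩
      left_inv := fun v => rfl
      right_inv := fun w => rfl }

end prod

end Run7.h45
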