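import Pool.Agent.Run7.h45.Kp3

/-!
# A perfect group in which a given finite group is visible
-/

set_option autoImplicit false
set_option linter.unusedSectionVars false

open scoped BigOperators Classical

noncomputable section

namespace Run7.h45

section group

variable (G : Type) [Group G] (N : ℕ)

/-- the wreath product of `G` and `A_N` -/
abbrev WA : Type := (Fin N → G) ⋊[mulAutArrow] (alternatingGroup (Fin N))

theorem WA_act (σ : alternatingGroup (Fin N)) (f : Fin N → G) (i : Fin N) :
    (mulAutArrow (A := Fin N) (M := G) σ) f i = f (σ⁻¹ • i) := rfl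

/-- the normal closure of `A_N` -/
def LA : Subgroup (WA G N) :=
  Subgroup.normalClosure (Set.range (SemidirectProduct.inr : alternatingGroup (Fin N) →* WA G N))

instance LA_normal : (LA G N).Normal := Subgroup.normalClosure_normal

theorem inr_mem_LA (σ : alternatingGroup (Fin N)) :
    (SemidirectProduct.inr σ : WA G N) ∈ LA G N :=
  Subgroup.subset_normalClosure ⟨σ, rfl⟩

theorem LA_perfect (hN : 5 ≤ N) : commutator (LA G N) = ⊤ := by
  have hA : commutator (alternatingGroup (Fin N)) = ⊤ :=
    commutator_alternatingGroup_eq_top (by simpa using hN)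
  have h1 : LA G N ≤ ⁅LA G N, LA G N⁆ := by
    unfold LA
    have hn : (⁅LA G N, LA G N⁆).Normal := inferInstance
    refine Subgroup.normalClosure_le_normal ?_
    rintro _ ⟨σ, rfl⟩
    have h2 : σ ∈ commutator (alternatingGroup (Fin N)) := hA ▸ Subgroup.mem_top σ
    have h3 : (SemidirectProduct.inr σ : WA G N) ∈
        (commutator (alternatingGroup (Fin N))).map SemidirectProduct.inr := ⟨σ, h2, rfl⟩
    unfold commutator at h3
    rw [Subgroup.map_commutator] at h3
    refine Subgroup.commutator_mono ?_ ?_ h3
    · rintro _ ⟨τ, _, rfl⟩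
      exact inr_mem_LA G N τ
    · rintro _ ⟨τ, _, rfl⟩
      exact inr_mem_LA G N τ
  have h2 : (commutator (LA G N)).map (LA G N).subtype = ⁅LA G N, LA G N⁆ := by
    unfold commutator
    rw [Subgroup.map_commutator, ← MonoidHom.range_eq_map, Subgroup.range_subtype]
  rw [eq_top_iff]
  intro x _
  have h3 := h1 x.2
  rw [← h2] at h3
  obtain ⟨y, hy, h4⟩ := h3
  have : y = x := Subtype.ext h4
  rwa [← this]

theorem single_mem_LA (hN : 3 ≤ N) (g : G) {i j : Fin N} (hij : i ≠ j) :
    (SemidirectProduct.inl (Pi.mulSingle i g * (Pi.mulSingle j g)⁻¹) : WA G N) ∈ LA G N := by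
  have hp : MulAction.IsPretransitive (alternatingGroup (Fin N)) (Fin N) :=
    alternatingGroup.isPretransitive_of_three_le_card (Fin N) (by simpa using hN)
  obtain ⟨σ, hσ⟩ := MulAction.exists_smul_eq (alternatingGroup (Fin N)) i j
  have h1 : (mulAutArrow (A := Fin N) (M := G) σ) (Pi.mulSingle i g) = Pi.mulSingle j g := by
    funext k
    rw [WA_act]
    by_cases hk : k = j
    · subst hk
      rw [← hσ, inv_smul_smul, Pi.mulSingle_eq_same, Pi.mulSingle_eq_same]
    · rw [Pi.mulSingle_eq_of_ne hk, Pi.mulSingle_eq_of_ne]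
      intro h
      apply hk
      rw [← hσ, ← h, smul_inv_smul]
  have h2 : (SemidirectProduct.inl (Pi.mulSingle i g * (Pi.mulSingle j g)⁻¹) : WA G N) =
      (SemidirectProduct.inl (Pi.mulSingle i g) * SemidirectProduct.inr σ *
        (SemidirectProduct.inl (Pi.mulSingle i g))⁻¹) * (SemidirectProduct.inr σ)⁻¹ := by
    rw [map_mul, map_inv, ← h1, SemidirectProduct.inl_aut, map_inv]
    simp only [mul_inv_rev, inv_inv]
    group
  rw [h2]
  exact mul_mem ((LA_normal G N).conj_mem _ (inr_mem_LA G N σ) _) (inv_mem (inr_mem_LA G N σ))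

theorem diag_mem_LA [Finite G] (hN : 3 ≤ N) (hG : Nat.card G ∣ N) (g : G) :
    (SemidirectProduct.inl (fun _ => g) : WA G N) ∈ LA G N := by
  let c : Multiplicative (Fin N → ℤ) →* WA G N :=
    SemidirectProduct.inl.comp
      { toFun := fun a => fun i => g ^ (Multiplicative.toAdd a i)
        map_one' := by
          funext i
          exact zpow_zero g
        map_mul' := fun a b => by
          funext i
          exact zpow_add g _ _ }
  let S : AddSubgroup (Fin N → ℤ) := Subgroup.toAddSubgroup' ((LA G N).comap c)
  have hS : ∀ a : Fin N → ℤ, a ∈ S ↔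
      (SemidirectProduct.inl (fun i => g ^ a i) : WA G N) ∈ LA G N := fun a => Iff.rfl
  have h0 : (0 : ℕ) < N := by omega
  let z : Fin N := ⟨0, h0⟩
  have h1 : ∀ i : Fin N, Pi.single i (1 : ℤ) - Pi.single z 1 ∈ S := by
    intro i
    by_cases hi : i = z
    · rw [hi, sub_self]
      exact zero_mem _
    · rw [hS]
      have h2 : (fun k => g ^ ((Pi.single i (1 : ℤ) - Pi.single z 1 : Fin N → ℤ) k)) =
          Pi.mulSingle i g * (Pi.mulSingle z g)⁻¹ := by
        funext k
        rw [Pi.sub_apply, Pi.mul_apply, Pi.inv_apply, zpow_sub]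
        congr 1
        · by_cases hk : k = i
          · subst hk
            rw [Pi.single_eq_same, Pi.mulSingle_eq_same, zpow_one]
          · rw [Pi.single_eq_of_ne hk, Pi.mulSingle_eq_of_ne hk, zpow_zero]
        · by_cases hk : k = z
          · subst hk
            rw [Pi.single_eq_same, Pi.mulSingle_eq_same, zpow_one]
          · rw [Pi.single_eq_of_ne hk, Pi.mulSingle_eq_of_ne hk, zpow_zero]
      rw [h2]
      exact single_mem_LA G N hN g hi
  have h2 : (N : ℤ) • (Pi.single z (1 : ℤ)) ∈ S := by
    rw [hS]
    have h3 : (fun k => g ^ (((N : ℤ) • (Pi.single z (1 : ℤ)) : Fin N → ℤ) k)) = 1 := by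
      funext k
      rw [Pi.smul_apply, Pi.one_apply]
      by_cases hk : k = z
      · subst hk
        rw [Pi.single_eq_same, smul_eq_mul, mul_one, zpow_natCast]
        obtain ⟨m, hm⟩ := hG
        rw [hm, pow_mul, pow_card_eq_one', one_pow]
      · rw [Pi.single_eq_of_ne hk, smul_zero, zpow_zero]
    rw [h3, map_one]
    exact one_mem _
  have h3 : (fun _ => (1 : ℤ)) = ∑ i : Fin N, (Pi.single i (1 : ℤ) - Pi.single z 1) +
      (N : ℤ) • (Pi.single z (1 : ℤ)) := by
    rw [Finset.sum_sub_distrib, Finset.sum_const, Finset.card_univ, Fintype.card_fin]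
    have h4 : ∑ i : Fin N, Pi.single i (1 : ℤ) = fun _ => (1 : ℤ) := by
      funext k
      rw [Finset.sum_apply, Finset.sum_eq_single k]
      · rw [Pi.single_eq_same]
      · intro b _ hb
        rw [Pi.single_eq_of_ne hb.symm]
      · intro h
        exact absurd (Finset.mem_univ _) h
    rw [h4, natCast_zsmul, sub_add_cancel]
  have h4 : (fun _ => (1 : ℤ)) ∈ S := by
    rw [h3]
    exact add_mem (sum_mem fun i _ => h1 i) h2
  rw [hS] at h4
  simpa using h4

/-- the diagonal embedding -/
def dgn [Finite G] (hN : 3 ≤ N) (hG : Nat.card G ∣ N) : G →* LA G N where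
  toFun g := ⟨SemidirectProduct.inl (fun _ => g), diag_mem_LA G N hN hG g⟩
  map_one' := by
    apply Subtype.ext
    change (SemidirectProduct.inl (fun _ => (1 : G)) : WA G N) = 1
    exact map_one SemidirectProduct.inl
  map_mul' a b := by
    apply Subtype.ext
    change (SemidirectProduct.inl (fun _ => (a * b : G)) : WA G N) =
      SemidirectProduct.inl (fun _ => a) * SemidirectProduct.inl (fun _ => b)
    rw [← map_mul]
    rfl

/-- the points permuted by `A_N` -/
abbrev X3 (N : ℕ) : Type := Fin N

/-- the points of the imprimitive action -/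
def X2 (G : Type) (N : ℕ) : Type := Fin N × G

instance : MulAction (LA G N) (X3 N) where
  smul l i := (l : WA G N).right • (i : Fin N)
  one_smul i := by
    change (1 : alternatingGroup (Fin N)) • (i : Fin N) = i
    exact one_smul _ _
  mul_smul a b i := by
    change ((a : WA G N).right * (b : WA G N).right) • (i : Fin N) =
      (a : WA G N).right • ((b : WA G N).right • (i : Fin N))
    exact mul_smul _ _ _

instance : MulAction (LA G N) (X2 G N) where
  smul l x := ((l : WA G N).right • x.1, (l : WA G N).left ((l : WA G N).right • x.1) * x.2)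
  one_smul x := by
    refine Prod.ext ?_ ?_
    · change (1 : alternatingGroup (Fin N)) • x.1 = x.1
      exact one_smul _ _
    · change (1 : Fin N → G) _ * x.2 = x.2
      rw [Pi.one_apply, one_mul]
  mul_smul a b x := by
    refine Prod.ext ?_ ?_
    · change ((a : WA G N).right * (b : WA G N).right) • x.1 =
        (a : WA G N).right • ((b : WA G N).right • x.1)
      exact mul_smul _ _ _
    · change ((a : WA G N).left * (mulAutArrow (a : WA G N).right) (b : WA G N).left)
          (((a : WA G N).right * (b : WA G N).right) • x.1) * x.2 =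
        (a : WA G N).left ((a : WA G N).right • ((b : WA G N).right • x.1)) *
          ((b : WA G N).left ((b : WA G N).right • x.1) * x.2)
      rw [Pi.mul_apply, WA_act, mul_smul, inv_smul_smul, mul_assoc]

theorem smul_X3 (l : LA G N) (i : X3 N) :
    l • i = ((l : WA G N).right • (i : Fin N) : Fin N) := rfl

theorem smul_X2 (l : LA G N) (x : X2 G N) :
    l • x = ((l : WA G N).right • x.1, (l : WA G N).left ((l : WA G N).right • x.1) * x.2) := rfl

instance [Finite G] : Finite (X2 G N) := inferInstanceAs (Finite (Fin N × G))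

instance [Finite G] : Finite (WA G N) := Finite.of_equiv _ SemidirectProduct.equivProd.symm

/-- a surjection between finite types of the same size is injective -/
theorem inj_of_surj_card {A B : Type} [Finite A] [Finite B] (f : A → B)
    (hf : Function.Surjective f) (h : Nat.card A = Nat.card B) : Function.Injective f := by
  have : Fintype A := Fintype.ofFinite A
  have : Fintype B := Fintype.ofFinite B
  rw [Nat.card_eq_fintype_card, Nat.card_eq_fintype_card] at h
  exact ((Fintype.bijective_iff_surjective_and_card f).2 ⟨hf, h⟩).1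

/-- the number of orbits on the points detects the trivial action -/
theorem triv_of_orb {K : Subgroup (LA G N)} (h : orbN (X3 N) K = N) {k : LA G N} (hk : k ∈ K)
    (i : Fin N) : (k : WA G N).right • i = i := by
  let f : X3 N → MulAction.orbitRel.Quotient K (X3 N) := Quotient.mk _
  have hs : Function.Surjective f := Quotient.mk_surjective
  have hc : Nat.card (X3 N) = Nat.card (MulAction.orbitRel.Quotient K (X3 N)) := by
    change Nat.card (Fin N) = orbN (X3 N) K
    rw [h, Nat.card_eq_fintype_card, Fintype.card_fin]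
  exact inj_of_surj_card f hs hc (a₁ := k • i) (a₂ := i) (Quotient.sound ⟨⟨k, hk⟩, rfl⟩)

theorem orb_of_triv {K : Subgroup (LA G N)}
    (h : ∀ k ∈ K, ∀ i : Fin N, (k : WA G N).right • i = i) : orbN (X3 N) K = N := by
  have h1 : Nat.card (X3 N) = orbN (X3 N) K := by
    refine Nat.card_eq_of_bijective
      (Quotient.mk _ : X3 N → MulAction.orbitRel.Quotient K (X3 N)) ⟨?_, Quotient.mk_surjective⟩
    intro a b hab
    obtain ⟨k, hk⟩ := Quotient.exact hab
    have h2 : (k : LA G N) • b = a := hk
    rw [← h2]
    exact h k k.2 b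
  rw [← h1]
  change Nat.card (Fin N) = N
  rw [Nat.card_eq_fintype_card, Fintype.card_fin]

theorem dgn_coe [Finite G] (hN : 3 ≤ N) (hG : Nat.card G ∣ N) (g : G) :
    ((dgn G N hN hG g : LA G N) : WA G N) = SemidirectProduct.inl (fun _ => g) := rfl

theorem dgn_inj [Finite G] (hN : 3 ≤ N) (hG : Nat.card G ∣ N) :
    Function.Injective (dgn G N hN hG) := by
  intro a b h
  have h1 := congrArg (fun x : LA G N => (x : WA G N).left ⟨0, by omega⟩) h
  exact h1

theorem orb3_dgn [Finite G] (hN : 3 ≤ N) (hG : Nat.card G ∣ N) :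
    orbN (X3 N) (dgn G N hN hG).range = N := by
  refine orb_of_triv G N ?_
  rintro _ ⟨g, rfl⟩ i
  rw [dgn_coe, SemidirectProduct.right_inl, one_smul]

theorem orb2_dgn [Finite G] (hN : 3 ≤ N) (hG : Nat.card G ∣ N) :
    orbN (X2 G N) (dgn G N hN hG).range = N := by
  have h1 : orbN (X2 G N) (dgn G N hN hG).range = Nat.card (Fin N) := by
    refine Nat.card_eq_of_bijective
      (Quotient.lift (s := MulAction.orbitRel (dgn G N hN hG).range (X2 G N))
        (fun x : X2 G N => x.1) ?_) ⟨?_, ?_⟩
    · rintro a b ⟨⟨_, ⟨g, rfl⟩⟩, hk⟩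
      have h2 : (dgn G N hN hG g) • b = a := hk
      rw [← h2, smul_X2, dgn_coe, SemidirectProduct.right_inl, one_smul]
    · intro a b
      induction a using Quotient.inductionOn with
      | _ a =>
        induction b using Quotient.inductionOn with
        | _ b =>
          intro hab
          apply Quotient.sound
          refine ⟨⟨dgn G N hN hG (a.2 * b.2⁻¹), ⟨_, rfl⟩⟩, ?_⟩
          change (dgn G N hN hG (a.2 * b.2⁻¹)) • b = a
          rw [smul_X2, dgn_coe, SemidirectProduct.right_inl, one_smul,
            SemidirectProduct.left_inl]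
          refine Prod.ext ?_ ?_
          · exact hab.symm
          · change a.2 * b.2⁻¹ * b.2 = a.2
            rw [inv_mul_cancel_right]
    · intro i
      exact ⟨Quotient.mk _ ((i, 1) : Fin N × G), rfl⟩
  rw [h1, Nat.card_eq_fintype_card, Fintype.card_fin]

/-- **The diagonal subgroup is visible.** -/
theorem iso_of_orb [Finite G] (h0 : 0 < N) {K : Subgroup (LA G N)}
    (h3 : orbN (X3 N) K = N) (h2 : orbN (X2 G N) K = N) (hK : Nat.card K = Nat.card G) :
    Nonempty (K ≃* G) := by
  have ht : ∀ k ∈ K, ∀ i : Fin N, (k : WA G N).right • i = i := fun k hk i =>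
    triv_of_orb G N h3 hk i
  let z : Fin N := ⟨0, h0⟩
  let π : K →* G :=
    { toFun := fun k => ((k : LA G N) : WA G N).left z
      map_one' := rfl
      map_mul' := fun a b => by
        change (((a : LA G N) : WA G N).left *
          (mulAutArrow ((a : LA G N) : WA G N).right) ((b : LA G N) : WA G N).left) z = _
        have h8 : (((a : LA G N) : WA G N).right)⁻¹ • z = z := by
          rw [inv_smul_eq_iff]
          exact (ht a a.2 z).symm
        rw [Pi.mul_apply, WA_act, h8] }
  have hlift : ∀ a b : X2 G N, (MulAction.orbitRel K (X2 G N)) a b → a.1 = b.1 := by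
    rintro a b ⟨k, hk⟩
    have h4 : (k : LA G N) • b = a := hk
    rw [← h4, smul_X2]
    exact ht k k.2 b.1
  have hinj : Function.Injective (Quotient.lift (s := MulAction.orbitRel K (X2 G N))
      (fun x : X2 G N => x.1) hlift) := by
    refine inj_of_surj_card _ (fun i => ⟨Quotient.mk _ ((i, 1) : Fin N × G), rfl⟩) ?_
    change orbN (X2 G N) K = Nat.card (Fin N)
    rw [h2, Nat.card_eq_fintype_card, Fintype.card_fin]
  have hsurj : Function.Surjective π := by
    intro g
    have h4 : (Quotient.mk (MulAction.orbitRel K (X2 G N)) ((z, g) : Fin N × G)) =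
        Quotient.mk (MulAction.orbitRel K (X2 G N)) ((z, 1) : Fin N × G) := hinj rfl
    obtain ⟨k, hk⟩ := Quotient.exact h4
    have h5 : (k : LA G N) • (show X2 G N from ((z, 1) : Fin N × G)) = ((z, g) : Fin N × G) := hk
    rw [smul_X2] at h5
    refine ⟨k, ?_⟩
    have h6 := congrArg Prod.snd h5
    change ((k : LA G N) : WA G N).left (((k : LA G N) : WA G N).right • z) * 1 = g at h6
    rw [ht k k.2 z, mul_one] at h6
    exact h6
  have hbij : Function.Bijective π := ⟨inj_of_surj_card π hsurj hK, hsurj⟩
  exact ⟨MulEquiv.ofBijective π hbij⟩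

end group

end Run7.h45
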