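import Pool.Agent.Run7.h45.Kp2
import Pool.Agent.Run7.h45.Kp4

/-!
# The Knörr–Robinson conjecture and perfect groups
-/

set_option autoImplicit false
set_option linter.unusedSectionVars false

open scoped BigOperators Classical

noncomputable section

namespace Run7.h45

open Pool.Agent.Y63.KR Pool.Agent.Q18.KRX

/-- finite perfect groups with a self-centralising abelian normal Hall subgroup of order prime
to `p` -/
def PerfHall (p : ℕ) (H : Type) [Group H] : Prop :=
  commutator H = ⊤ ∧ ∃ U : Subgroup H, U.Normal ∧ (∀ x ∈ U, ∀ y ∈ U, x * y = y * x) ∧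
    ¬ p ∣ Nat.card U ∧ Nat.Coprime (Nat.card U) U.index ∧ Subgroup.centralizer (U : Set H) ≤ U

section orbits

variable {L : Type} [Group L] [Finite L]

theorem orbN_le (X : Type) [Finite X] [MulAction L X] (K : Subgroup L) : orbN X K ≤ Nat.card X :=
  Nat.card_le_card_of_surjective (Quotient.mk (MulAction.orbitRel K X)) Quotient.mk_surjective

theorem orbN_top_le (X : Type) [Finite X] [MulAction L X] (K : Subgroup L) :
    orbN X (⊤ : Subgroup L) ≤ orbN X K := by
  have : Finite (MulAction.orbitRel.Quotient K X) := inferInstance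
  refine Nat.card_le_card_of_surjective (Quotient.lift (s := MulAction.orbitRel K X)
    (Quotient.mk (MulAction.orbitRel (⊤ : Subgroup L) X)) ?_) ?_
  · rintro a b ⟨k, hk⟩
    exact Quotient.sound ⟨⟨k, trivial⟩, hk⟩
  · intro z
    induction z using Quotient.inductionOn with
    | _ x => exact ⟨Quotient.mk _ x, rfl⟩

theorem orbN_self (K : Subgroup L) : orbN L K = K.index := by
  change Nat.card (Quotient (QuotientGroup.rightRel K)) = K.index
  rw [Nat.card_congr (QuotientGroup.quotientRightRelEquivQuotientLeftRel K)]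
  rfl

end orbits

section modules

variable (L X Y : Type) [Group L] [Finite L] [MulAction L X] [Finite X] [MulAction L Y] [Finite Y]

/-- the module -/
abbrev VV (m m' n : ℕ) : Type :=
  (L → Multiplicative (ZMod n)) × ((X → Multiplicative (ZMod (n ^ m))) ×
    (Y → Multiplicative (ZMod (n ^ m'))))

/-- the action on the module -/
abbrev phV (m m' n : ℕ) : L →* MulAut (VV L X Y m m' n) :=
  prA (fnA L (Multiplicative (ZMod n))) (prA (fnA X (Multiplicative (ZMod (n ^ m))))
    (fnA Y (Multiplicative (ZMod (n ^ m')))))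

/-- the weight -/
def tK (m m' : ℕ) (K : Subgroup L) : ℕ := orbN L K + (m * orbN X K + m' * orbN Y K)

theorem card_CV_V (m m' n : ℕ) (K : Subgroup L) :
    Nat.card (CV (phV L X Y m m' n) K) = n ^ tK L X Y m m' K := by
  have hz : ∀ k : ℕ, Nat.card (Multiplicative (ZMod k)) = k := fun k => Nat.card_zmod k
  rw [card_CV_pr, card_CV_pr, card_CV_fn, card_CV_fn, card_CV_fn, hz, hz, hz, ← pow_mul,
    ← pow_mul, ← pow_add, ← pow_add]
  rfl

theorem tK_top_le (m m' : ℕ) (K : Subgroup L) : tK L X Y m m' ⊤ ≤ tK L X Y m m' K := by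
  unfold tK
  have h1 := orbN_top_le L K
  have h2 := Nat.mul_le_mul_left m (orbN_top_le X K)
  have h3 := Nat.mul_le_mul_left m' (orbN_top_le Y K)
  omega

variable {L X Y} {m m' n : ℕ} [NeZero n]

theorem finV : Finite (VV L X Y m m' n) := by
  have h1 : NeZero (n ^ m) := inferInstance
  have h2 : NeZero (n ^ m') := inferInstance
  have h3 : Finite (Multiplicative (ZMod n)) := inferInstanceAs (Finite (ZMod n))
  have h4 : Finite (Multiplicative (ZMod (n ^ m))) := inferInstanceAs (Finite (ZMod (n ^ m)))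
  have h5 : Finite (Multiplicative (ZMod (n ^ m'))) := inferInstanceAs (Finite (ZMod (n ^ m')))
  infer_instance

theorem card_VV : Nat.card (VV L X Y m m' n) = n ^ tK L X Y m m' ⊥ := by
  rw [← card_CV_V]
  refine Nat.card_congr
    { toFun := fun v => ⟨v, (mem_CV _).2 fun g hg => by
        rw [Subgroup.mem_bot.mp hg, map_one, MulAut.one_apply]⟩
      invFun := fun v => v.1
      left_inv := fun v => rfl
      right_inv := fun v => rfl }

theorem coprime_VV (hn : Nat.Coprime (Nat.card L) n) :
    Nat.Coprime (Nat.card L) (Nat.card (VV L X Y m m' n)) := by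
  rw [card_VV]
  exact Nat.Coprime.pow_right _ hn

theorem VV_faithful (hn : 2 ≤ n) (l : L) (h : ∀ v, phV L X Y m m' n l v = v) : l = 1 := by
  have hnt : Fact (1 < n) := ⟨by omega⟩
  obtain ⟨a, ha⟩ := exists_ne (1 : Multiplicative (ZMod n))
  have h1 := congrFun (congrArg Prod.fst (h (Pi.mulSingle 1 a, 1))) l
  change Pi.mulSingle (M := fun _ : L => Multiplicative (ZMod n)) 1 a (l⁻¹ • l) =
    Pi.mulSingle (M := fun _ : L => Multiplicative (ZMod n)) 1 a l at h1
  rw [smul_eq_mul, inv_mul_cancel, Pi.mulSingle_eq_same] at h1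
  by_contra hl
  rw [Pi.mulSingle_eq_of_ne hl] at h1
  exact ha h1

/-- the perfect group -/
abbrev HU (L X Y : Type) [Group L] [Finite L] [MulAction L X] [MulAction L Y]
    (m m' n : ℕ) [NeZero n] [Finite (VV L X Y m m' n)] : Type :=
  (nU (phV L X Y m m' n)) ⋊[phU (phV L X Y m m' n)] L

theorem nF_HU [Finite (VV L X Y m m' n)] (hn : Nat.Coprime (Nat.card L) n) (K : Subgroup L) :
    nF (phU (phV L X Y m m' n)) K = n ^ (tK L X Y m m' K - tK L X Y m m' ⊤) := by
  have hco := coprime_VV (X := X) (Y := Y) (m := m) (m' := m') hn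
  have h1 : Nat.Coprime (Nat.card K) (Nat.card (nU (phV L X Y m m' n))) :=
    (hco.coprime_dvd_right (Subgroup.card_subgroup_dvd_card _)).coprime_dvd_left
      (Subgroup.card_subgroup_dvd_card _)
  rw [nF_eq _ h1]
  have h2 := card_CV_nU (phV L X Y m m' n) hco K
  rw [card_CV_V, card_CV_V] at h2
  have hn0 : 0 < n := Nat.pos_of_ne_zero (NeZero.ne n)
  have h3 := tK_top_le L X Y m m' K
  have h4 : n ^ tK L X Y m m' K = n ^ (tK L X Y m m' K - tK L X Y m m' ⊤) * n ^ tK L X Y m m' ⊤ := by
    rw [← pow_add]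
    congr 1
    omega
  rw [h4] at h2
  exact (Nat.eq_of_mul_eq_mul_right (pow_pos hn0 _) h2).symm

theorem card_nU_V [Finite (VV L X Y m m' n)] (hn : Nat.Coprime (Nat.card L) n) :
    Nat.card (nU (phV L X Y m m' n)) = n ^ (tK L X Y m m' ⊥ - tK L X Y m m' ⊤) := by
  rw [← nF_HU hn, ← card_dual]
  unfold nF
  refine Nat.card_congr
    { toFun := fun v => ⟨v, bot_le⟩
      invFun := fun v => v.1
      left_inv := fun v => rfl
      right_inv := fun v => rfl }

theorem HU_fam [Finite (VV L X Y m m' n)] {p : ℕ} [Fact p.Prime] (hL : commutator L = ⊤)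
    (hn : Nat.Coprime (Nat.card L) n) (hn2 : 2 ≤ n) (hp : ¬ p ∣ n) :
    PerfHall p (HU L X Y m m' n) := by
  have hco := coprime_VV (X := X) (Y := Y) (m := m) (m' := m') hn
  have hcard := card_nU_V (X := X) (Y := Y) (m := m) (m' := m') hn
  refine ⟨semi_perfect _ hL (nU_inv _ hco),
    (SemidirectProduct.inl : nU (phV L X Y m m' n) →* HU L X Y m m' n).range, ?_, ?_, ?_, ?_, ?_⟩
  · rw [SemidirectProduct.range_inl_eq_ker_rightHom]
    infer_instance
  · rintro _ ⟨a, rfl⟩ _ ⟨b, rfl⟩
    rw [← map_mul, ← map_mul, mul_comm]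
  · rw [← Nat.card_congr (MonoidHom.ofInjective SemidirectProduct.inl_injective).toEquiv, hcard]
    intro h
    exact hp (Nat.Prime.dvd_of_dvd_pow Fact.out h)
  · rw [← Nat.card_congr (MonoidHom.ofInjective SemidirectProduct.inl_injective).toEquiv,
      SemidirectProduct.range_inl_eq_ker_rightHom, Subgroup.index_ker]
    have h1 : Nat.card (SemidirectProduct.rightHom : HU L X Y m m' n →* L).range = Nat.card L := by
      rw [MonoidHom.range_eq_top.mpr SemidirectProduct.rightHom_surjective, Subgroup.card_top]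
    rw [h1]
    exact (hco.coprime_dvd_right (Subgroup.card_subgroup_dvd_card _)).symm
  · intro y hy
    rw [Subgroup.mem_centralizer_iff] at hy
    have h1 : y.right = 1 := by
      refine nU_faithful _ hco (fun l h => VV_faithful hn2 l h) y.right fun u => ?_
      have h2 := hy (SemidirectProduct.inl u) ⟨u, rfl⟩
      have h3 := congrArg SemidirectProduct.left h2
      simp only [SemidirectProduct.mul_left, SemidirectProduct.left_inl,
        SemidirectProduct.right_inl, map_one, MulAut.one_apply] at h3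
      rw [mul_comm] at h3
      exact (mul_left_cancel h3).symm
    exact ⟨y.left, SemidirectProduct.ext rfl h1.symm⟩

end modules

end Run7.h45
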