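import Pool.Agent.Run7.h45.Coh
import Pool.Agent.Q18.KRX.Fin
import Pool.Agent.Q18.KRX.Top
import Pool.Agent.Q90.WR.Krp

/-!
# Commuting pairs of a semidirect product with an abelian normal `p'`-subgroup
-/

set_option autoImplicit false

open scoped BigOperators Classical

noncomputable section

namespace Run7.h45

open Pool.Agent.Y63.KR Pool.Agent.Q90.WR

section dual

variable {V : Type} [CommGroup V] [Finite V]

theorem finite_dual (V : Type) [CommGroup V] [Finite V] : Finite (V →* ℂ) := by
  have : Finite (V →* ℂˣ) := by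
    obtain ⟨e⟩ := CommGroup.monoidHom_mulEquiv_of_hasEnoughRootsOfUnity V ℂ
    exact Finite.of_equiv V e.symm.toEquiv
  exact Finite.of_injective (fun θ : V →* ℂ => θ.toHomUnits) fun a b h => by
    ext v
    have h1 := DFunLike.congr_fun h v
    exact congrArg Units.val h1

theorem card_dual (V : Type) [CommGroup V] [Finite V] : Nat.card (V →* ℂ) = Nat.card V := by
  obtain ⟨e⟩ := CommGroup.monoidHom_mulEquiv_of_hasEnoughRootsOfUnity V ℂ
  rw [← Nat.card_congr e.toEquiv]
  refine Nat.card_congr
    { toFun := fun θ => θ.toHomUnits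
      invFun := fun ψ => (Units.coeHom ℂ).comp ψ
      left_inv := fun θ => by ext v; rfl
      right_inv := fun ψ => by ext v; rfl }

/-- the characters which are trivial on a subgroup -/
theorem card_dual_trivial (R : Subgroup V) :
    Nat.card {θ : V →* ℂ // ∀ r ∈ R, θ r = 1} = R.index := by
  rw [Subgroup.index, ← card_dual (V ⧸ R)]
  refine Nat.card_congr
    { toFun := fun θ => QuotientGroup.lift R θ.1 θ.2
      invFun := fun ψ => ⟨ψ.comp (QuotientGroup.mk' R), fun r hr => by
        change ψ (QuotientGroup.mk' R r) = 1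
        rw [(QuotientGroup.eq_one_iff (N := R) r).mpr hr |> fun h => (show QuotientGroup.mk' R r = 1 from h),
          map_one]⟩
      left_inv := fun θ => by
        apply Subtype.ext
        ext v
        rfl
      right_inv := fun ψ => by
        ext v
        rfl }

/-- solutions of `w a(u) = u b(w)` in an abelian group -/
theorem pair_count (a b : V →* V) :
    Nat.card {q : V × V // q.1 * a q.2 = q.2 * b q.1} =
      Nat.card V * Nat.card {θ : V →* ℂ // (∀ v, θ (a v) = θ v) ∧ ∀ v, θ (b v) = θ v} := by
  let f : V × V →* V :=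
    { toFun := fun q => q.1 * (b q.1)⁻¹ * (a q.2 * q.2⁻¹)
      map_one' := by simp
      map_mul' := fun x y => by
        simp only [Prod.fst_mul, Prod.snd_mul, map_mul, mul_inv]
        rw [mul_mul_mul_comm (x.1 * (b x.1)⁻¹), mul_mul_mul_comm x.1, mul_mul_mul_comm (a x.2)] }
  have hf : ∀ q : V × V, f q = q.1 * (b q.1)⁻¹ * (a q.2 * q.2⁻¹) := fun _ => rfl
  have h1 : Nat.card {q : V × V // q.1 * a q.2 = q.2 * b q.1} = Nat.card f.ker := by
    refine Nat.card_congr (Equiv.subtypeEquivRight fun q => ?_)
    rw [MonoidHom.mem_ker, hf]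
    rw [show q.1 * (b q.1)⁻¹ * (a q.2 * q.2⁻¹) = (q.1 * a q.2) * (q.2 * b q.1)⁻¹ by
      rw [mul_inv, mul_mul_mul_comm, mul_comm (b q.1)⁻¹ q.2⁻¹], mul_inv_eq_one]
  have h2 : Nat.card {θ : V →* ℂ // (∀ v, θ (a v) = θ v) ∧ ∀ v, θ (b v) = θ v} =
      Nat.card {θ : V →* ℂ // ∀ r ∈ f.range, θ r = 1} := by
    refine Nat.card_congr (Equiv.subtypeEquivRight fun θ => ?_)
    have hne : ∀ v, θ v ≠ 0 := fun v => hom_ne θ v
    have hinvv : ∀ v, θ v⁻¹ = (θ v)⁻¹ := fun v => by
      exact eq_inv_of_mul_eq_one_left (by rw [← map_mul, inv_mul_cancel, map_one])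
    constructor
    · rintro ⟨ha, hb⟩ _ ⟨q, rfl⟩
      rw [hf, map_mul, map_mul, map_mul, hinvv, hinvv, ha, hb, mul_inv_cancel₀ (hne _),
        mul_inv_cancel₀ (hne _), one_mul]
    · intro h
      constructor
      · intro v
        have h3 := h _ ⟨(1, v), rfl⟩
        rw [hf] at h3
        simp only [map_one, inv_one, mul_one, one_mul] at h3
        rw [map_mul, hinvv, mul_inv_eq_one₀ (hne v)] at h3
        exact h3
      · intro v
        have h3 := h _ ⟨(v, 1), rfl⟩
        rw [hf] at h3
        simp only [map_one, inv_one, mul_one] at h3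
        rw [map_mul, hinvv, mul_inv_eq_one₀ (hne _)] at h3
        exact h3.symm
  rw [h1, h2, card_dual_trivial]
  have h3 : Nat.card f.ker * Nat.card f.range = Nat.card V * Nat.card V := by
    have e := Subgroup.card_eq_card_quotient_mul_card_subgroup f.ker
    rw [Nat.card_prod, Nat.card_congr (QuotientGroup.quotientKerEquivRange f).toEquiv] at e
    rw [e, mul_comm]
  have h4 : Nat.card f.range * f.range.index = Nat.card V := Subgroup.card_mul_index _
  have h5 : 0 < Nat.card f.range := Nat.card_pos
  have h6 : Nat.card f.ker * Nat.card f.range = (Nat.card V * f.range.index) * Nat.card f.range := by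
    rw [h3]
    calc Nat.card V * Nat.card V = Nat.card V * (Nat.card f.range * f.range.index) := by rw [h4]
      _ = _ := by ring
  exact Nat.eq_of_mul_eq_mul_right h5 h6

end dual

end Run7.h45
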