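import Pool.Agent.Run7.h45.Kr1

/-!
# Complements and invariant `p`-subgroups of a semidirect product
-/

set_option autoImplicit false
set_option linter.unusedSectionVars false

open scoped BigOperators Classical

noncomputable section

namespace Run7.h45

open Pool.Agent.Y63.KR Pool.Agent.Q90.WR

section lifts

variable {V L : Type} [CommGroup V] [Group L] (φ : L →* MulAut V)

/-- the conjugate by `v ∈ V` of the subgroup `P` of `L` -/
def Qv (P : Subgroup L) (v : V) : Subgroup (V ⋊[φ] L) :=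
  conjSub (SemidirectProduct.inl v) (P.map SemidirectProduct.inr)

theorem mem_Qv {P : Subgroup L} {v : V} {X : V ⋊[φ] L} :
    X ∈ Qv φ P v ↔ X.right ∈ P ∧ X.left = v * (φ X.right v)⁻¹ := by
  have key : ∀ g : L, (MulAut.conj (SemidirectProduct.inl v : V ⋊[φ] L))
      (SemidirectProduct.inr g) = ⟨v * (φ g v)⁻¹, g⟩ := by
    intro g
    rw [MulAut.conj_apply]
    ext
    · simp
    · simp
  unfold Qv conjSub
  rw [Subgroup.mem_map]
  constructor
  · rintro ⟨_, ⟨g, hg, rfl⟩, hX⟩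
    change (MulAut.conj (SemidirectProduct.inl v : V ⋊[φ] L)) (SemidirectProduct.inr g) = X at hX
    rw [key] at hX
    subst hX
    exact ⟨hg, rfl⟩
  · rintro ⟨h1, h2⟩
    refine ⟨SemidirectProduct.inr X.right, ⟨X.right, h1, rfl⟩, ?_⟩
    change (MulAut.conj (SemidirectProduct.inl v : V ⋊[φ] L)) (SemidirectProduct.inr X.right) = X
    rw [key]
    ext
    · exact h2.symm
    · rfl

theorem map_Qv (P : Subgroup L) (v : V) : (Qv φ P v).map SemidirectProduct.rightHom = P := by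
  ext g
  rw [Subgroup.mem_map]
  constructor
  · rintro ⟨X, hX, rfl⟩
    exact ((mem_Qv φ).1 hX).1
  · intro hg
    exact ⟨⟨v * (φ g v)⁻¹, g⟩, (mem_Qv φ).2 ⟨hg, rfl⟩, rfl⟩

/-- the elements of `V` centralised by `P` -/
def CV (P : Subgroup L) : Subgroup V := Fx (φ.comp P.subtype)

theorem mem_CV {P : Subgroup L} {v : V} : v ∈ CV φ P ↔ ∀ g ∈ P, φ g v = v :=
  ⟨fun h g hg => h ⟨g, hg⟩, fun h u => h u.1 u.2⟩

theorem Qv_eq_iff {P : Subgroup L} {v w : V} : Qv φ P v = Qv φ P w ↔ v⁻¹ * w ∈ CV φ P := by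
  rw [mem_CV]
  constructor
  · intro h g hg
    have h1 : (⟨v * (φ g v)⁻¹, g⟩ : V ⋊[φ] L) ∈ Qv φ P w := h ▸ (mem_Qv φ).2 ⟨hg, rfl⟩
    have h2 : v * (φ g v)⁻¹ = w * (φ g w)⁻¹ := ((mem_Qv φ).1 h1).2
    rw [map_mul, map_inv]
    have h3 : (φ g v)⁻¹ * φ g w = v⁻¹ * w := by
      have h4 : (φ g v)⁻¹ = v⁻¹ * (w * (φ g w)⁻¹) := by rw [← h2, inv_mul_cancel_left]
      rw [h4]
      group
    exact h3
  · intro h
    have key : ∀ g ∈ P, v * (φ g v)⁻¹ = w * (φ g w)⁻¹ := by
      intro g hg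
      have h1 := h g hg
      rw [map_mul, map_inv] at h1
      have h2 : (φ g v)⁻¹ = v⁻¹ * w * (φ g w)⁻¹ := by rw [← h1]; group
      rw [h2]; group
    ext X
    rw [mem_Qv, mem_Qv]
    exact and_congr_right fun hX => by rw [key _ hX]

theorem conj_Qv (P : Subgroup L) (v : V) (X : V ⋊[φ] L) :
    conjSub X (Qv φ P v) = Qv φ (conjSub X.right P) (X.left * φ X.right v) := by
  have h1 : conjSub (SemidirectProduct.inr X.right : V ⋊[φ] L) (P.map SemidirectProduct.inr) =
      (conjSub X.right P).map SemidirectProduct.inr := by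
    unfold conjSub
    rw [Subgroup.map_map, Subgroup.map_map]
    congr 1
    ext g
    · simp
    · simp
  unfold Qv
  rw [← h1, ← conjSub_mul, ← conjSub_mul]
  congr 1
  ext
  · simp
  · simp

theorem conj_Qv_iff {P : Subgroup L} {v : V} {X : V ⋊[φ] L} (hX : conjSub X.right P = P) :
    conjSub X (Qv φ P v) = Qv φ P v ↔ v⁻¹ * X.left * φ X.right v ∈ CV φ P := by
  rw [conj_Qv, hX, eq_comm, Qv_eq_iff, mul_assoc]

variable [Finite V] [Finite L] {p : ℕ} [Fact p.Prime]

theorem inl_eq_one (hV : ¬ p ∣ Nat.card V) {Q : Subgroup (V ⋊[φ] L)} (hQ : IsPGroup p Q)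
    {X : V ⋊[φ] L} (hX : X ∈ Q) (h : X.right = 1) : X = 1 := by
  obtain ⟨k, hk⟩ := hQ ⟨X, hX⟩
  have h1 : X ^ p ^ k = 1 := congrArg Subtype.val hk
  have h2 : X = SemidirectProduct.inl X.left := by
    ext
    · rfl
    · exact h
  have h3 : X.left ^ p ^ k = 1 := by
    rw [h2, ← map_pow] at h1
    have h9 := congrArg SemidirectProduct.left h1
    rwa [SemidirectProduct.left_inl, SemidirectProduct.one_left] at h9
  have h4 : X.left ^ Nat.card V = 1 := pow_card_eq_one'
  have h5 : X.left = 1 := by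
    have hco : Nat.Coprime (p ^ k) (Nat.card V) :=
      Nat.Coprime.pow_left _ ((Nat.Prime.coprime_iff_not_dvd Fact.out).mpr hV)
    have h6 := orderOf_dvd_of_pow_eq_one h3
    have h7 := orderOf_dvd_of_pow_eq_one h4
    exact orderOf_eq_one_iff.mp (Nat.eq_one_of_dvd_coprimes hco h6 h7)
  rw [h2, h5, map_one]

/-- **Schur–Zassenhaus**: the `p`-subgroups of the semidirect product -/
theorem exists_Qv (hV : ¬ p ∣ Nat.card V) {Q : Subgroup (V ⋊[φ] L)} (hQ : IsPGroup p Q) :
    ∃ v : V, Q = Qv φ (Q.map SemidirectProduct.rightHom) v := by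
  obtain ⟨P, hP⟩ : ∃ P, P = Q.map SemidirectProduct.rightHom := ⟨_, rfl⟩
  rw [← hP]
  have hPp : IsPGroup p P := by rw [hP]; exact hQ.map _
  have : Fintype P := Fintype.ofFinite P
  have : Fintype V := Fintype.ofFinite V
  have hco : Nat.Coprime (Fintype.card P) (Fintype.card V) := by
    obtain ⟨k, hk⟩ := IsPGroup.iff_card.mp hPp
    rw [← Nat.card_eq_fintype_card, ← Nat.card_eq_fintype_card, hk]
    exact Nat.Coprime.pow_left _ ((Nat.Prime.coprime_iff_not_dvd Fact.out).mpr hV)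
  have hex : ∀ u : P, ∃ X ∈ Q, X.right = u := by
    intro u
    have h1 : (u : L) ∈ Q.map SemidirectProduct.rightHom := hP ▸ u.2
    obtain ⟨X, hX, h2⟩ := h1
    exact ⟨X, hX, h2⟩
  choose f hf hfr using hex
  have huniq : ∀ X ∈ Q, ∀ Y ∈ Q, X.right = Y.right → X = Y := by
    intro X hX Y hY h
    have h1 := inl_eq_one φ hV hQ (Q.mul_mem hX (Q.inv_mem hY)) (by
      rw [SemidirectProduct.mul_right, SemidirectProduct.inv_right, h, mul_inv_cancel])
    exact mul_inv_eq_one.mp h1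
  obtain ⟨v, hv⟩ := cocycle hco (φ.comp P.subtype) (fun u => (f u).left) (by
    intro u w
    have h1 : f (u * w) = f u * f w := huniq _ (hf _) _ (Q.mul_mem (hf _) (hf _)) (by
      rw [hfr, SemidirectProduct.mul_right, hfr, hfr]; rfl)
    change (f (u * w)).left = (f u).left * φ u (f w).left
    rw [h1, SemidirectProduct.mul_left, hfr])
  refine ⟨v, ?_⟩
  ext X
  rw [mem_Qv]
  constructor
  · intro hX
    have h1 : X.right ∈ P := by rw [hP]; exact ⟨X, hX, rfl⟩
    refine ⟨h1, ?_⟩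
    have h2 : X = f ⟨X.right, h1⟩ := huniq _ hX _ (hf _) (by rw [hfr])
    have h3 := hv ⟨X.right, h1⟩
    change (f ⟨X.right, h1⟩).left = v * (φ X.right v)⁻¹ at h3
    rw [← h2] at h3
    exact h3
  · rintro ⟨h1, h2⟩
    have h3 := hv ⟨X.right, h1⟩
    change (f ⟨X.right, h1⟩).left = v * (φ X.right v)⁻¹ at h3
    have h4 : X = f ⟨X.right, h1⟩ := by
      ext
      · rw [h3, h2]
      · rw [hfr]
    rw [h4]
    exact hf _

omit [Finite V] [Finite L] [Fact p.Prime] in
theorem isPGroup_Qv {P : Subgroup L} (hP : IsPGroup p P) (v : V) : IsPGroup p (Qv φ P v) :=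
  (hP.map _).map _

end lifts

end Run7.h45
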