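import Pool.Agent.Run7.h45.Kr2

/-!
# Counting invariant `p`-subgroups above a given one
-/

set_option autoImplicit false
set_option linter.unusedSectionVars false

open scoped BigOperators Classical

noncomputable section

namespace Run7.h45

open Pool.Agent.Y63.KR Pool.Agent.Q90.WR

section count

variable {V L : Type} [CommGroup V] [Group L] (φ : L →* MulAut V)

theorem conj_mem_iff {x : L} {P : Subgroup L} (h : conjSub x P = P) {g : L} :
    x * g * x⁻¹ ∈ P ↔ g ∈ P := by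
  constructor
  · intro hg
    rw [← h] at hg
    obtain ⟨k, hk, h1⟩ := hg
    have h2 : x * k * x⁻¹ = x * g * x⁻¹ := h1
    have h3 : k = g := mul_left_cancel (mul_right_cancel h2)
    exact h3 ▸ hk
  · intro hg
    rw [← h]
    exact ⟨g, hg, rfl⟩

theorem CV_act {x : L} {P : Subgroup L} (h : conjSub x P = P) {v : V} (hv : v ∈ CV φ P) :
    φ x v ∈ CV φ P := by
  rw [mem_CV] at hv ⊢
  intro g hg
  have h1 : x⁻¹ * g * x ∈ P := by
    rw [← conj_mem_iff h]
    have : x * (x⁻¹ * g * x) * x⁻¹ = g := by group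
    rwa [this]
  have h2 := hv _ h1
  rw [← MulAut.mul_apply, ← map_mul]
  have h3 : g * x = x * (x⁻¹ * g * x) := by group
  rw [h3, map_mul, MulAut.mul_apply, h2]

/-- the action on the fixed points -/
def actC {x : L} {P : Subgroup L} (h : conjSub x P = P) : CV φ P →* CV φ P :=
  ((φ x).toMonoidHom.comp (CV φ P).subtype).codRestrict _ fun v => CV_act φ h v.2

theorem actC_coe {x : L} {P : Subgroup L} (h : conjSub x P = P) (v : CV φ P) :
    (actC φ h v : V) = φ x v := rfl

variable [Finite V] [Finite L] {p : ℕ} [Fact p.Prime]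

theorem card_dual_CV (hV : ¬ p ∣ Nat.card V) {x y : L} {P : Subgroup L} (hP : IsPGroup p P)
    (hx : conjSub x P = P) (hy : conjSub y P = P) :
    Nat.card {η : CV φ P →* ℂ // (∀ v, η (actC φ hx v) = η v) ∧ ∀ v, η (actC φ hy v) = η v} =
      Nat.card {θ : V →* ℂ // ((∀ v, θ (φ x v) = θ v) ∧ ∀ v, θ (φ y v) = θ v) ∧
        ∀ g ∈ P, ∀ v, θ (φ g v) = θ v} := by
  have : Fintype P := Fintype.ofFinite P
  have : Fintype V := Fintype.ofFinite V
  have hco : Nat.Coprime (Fintype.card P) (Fintype.card V) := by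
    obtain ⟨k, hk⟩ := IsPGroup.iff_card.mp hP
    rw [← Nat.card_eq_fintype_card, ← Nat.card_eq_fintype_card, hk]
    exact Nat.Coprime.pow_left _ ((Nat.Prime.coprime_iff_not_dvd Fact.out).mpr hV)
  symm
  refine Nat.card_eq_of_bijective
    (fun θ => ⟨θ.1.comp (CV φ P).subtype, fun v => θ.2.1.1 v, fun v => θ.2.1.2 v⟩) ⟨?_, ?_⟩
  · rintro ⟨θ, h1, h2⟩ ⟨θ', h1', h2'⟩ h
    apply Subtype.ext
    refine hom_ext_fx hco (φ.comp P.subtype) (fun u v => h2 u u.2 v) (fun u v => h2' u u.2 v)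
      fun v hv => ?_
    exact DFunLike.congr_fun (congrArg Subtype.val h) (⟨v, hv⟩ : CV φ P)
  · rintro ⟨η, h1, h2⟩
    obtain ⟨θ, hθ, he⟩ := hom_extend hco (φ.comp P.subtype) η
    have hθ' : ∀ g ∈ P, ∀ v, θ (φ g v) = θ v := fun g hg v => hθ ⟨g, hg⟩ v
    have key : ∀ z : L, (hz : conjSub z P = P) → (∀ v, η (actC φ hz v) = η v) →
        ∀ v, θ (φ z v) = θ v := by
      intro z hz h v
      have h3 : θ.comp (φ z).toMonoidHom = θ := by
        refine hom_ext_fx hco (φ.comp P.subtype) (fun u v => ?_) hθ fun v hv => ?_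
        · change θ (φ z (φ u v)) = θ (φ z v)
          have h4 : z * (u : L) * z⁻¹ ∈ P := (conj_mem_iff hz).2 u.2
          rw [← MulAut.mul_apply, ← map_mul]
          have h5 : z * (u : L) = (z * u * z⁻¹) * z := by group
          rw [h5, map_mul, MulAut.mul_apply, hθ' _ h4]
        · change θ (φ z v) = θ v
          have h6 := he (φ z v) (CV_act φ hz hv)
          rw [h6, he v hv]
          exact h ⟨v, hv⟩
      exact DFunLike.congr_fun h3 v
    refine ⟨⟨θ, ⟨key x hx h1, key y hy h2⟩, hθ'⟩, ?_⟩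
    apply Subtype.ext
    ext v
    exact he v v.2

/-- the pairs above a commuting pair -/
def cm (x y : L) (q : V × V) : Prop := q.1 * φ x q.2 = q.2 * φ y q.1

/-- invariant complements -/
def IC (p : ℕ) (x y : L) (P : Subgroup L) (t : (V × V) × Subgroup (V ⋊[φ] L)) : Prop :=
  cm φ x y t.1 ∧ (IsPGroup p t.2 ∧ conjSub (⟨t.1.1, x⟩ : V ⋊[φ] L) t.2 = t.2 ∧
    conjSub (⟨t.1.2, y⟩ : V ⋊[φ] L) t.2 = t.2) ∧ t.2.map SemidirectProduct.rightHom = P

theorem card_IC (hV : ¬ p ∣ Nat.card V) {x y : L} (hxy : x * y = y * x) {P : Subgroup L}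
    (hP : IsPGroup p P) (hx : conjSub x P = P) (hy : conjSub y P = P) :
    Nat.card {t : (V × V) × Subgroup (V ⋊[φ] L) // IC φ p x y P t} =
      Nat.card V * Nat.card {θ : V →* ℂ // ((∀ v, θ (φ x v) = θ v) ∧ ∀ v, θ (φ y v) = θ v) ∧
        ∀ g ∈ P, ∀ v, θ (φ g v) = θ v} := by

  -- the intermediate set
  let A := {s : (V × V) × V // cm φ x y s.1 ∧ s.2⁻¹ * s.1.1 * φ x s.2 ∈ CV φ P ∧
    s.2⁻¹ * s.1.2 * φ y s.2 ∈ CV φ P}
  let N := {t : (V × V) × Subgroup (V ⋊[φ] L) // IC φ p x y P t}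
  have hA1 : Nat.card A = Nat.card N * Nat.card (CV φ P) := by
    have hex : ∀ t : N, ∃ v, t.1.2 = Qv φ P v := by
      rintro ⟨t, h1, h2, h3⟩
      obtain ⟨v, hv⟩ := exists_Qv φ hV h2.1
      rw [h3] at hv
      exact ⟨v, hv⟩
    choose v0 hv0 using hex
    have hto : ∀ s : A, IC φ p x y P (s.1.1, Qv φ P s.1.2) := by
      rintro ⟨s, h1, h2, h3⟩
      refine ⟨h1, ⟨isPGroup_Qv φ hP _, ?_, ?_⟩, map_Qv φ P _⟩
      · exact (conj_Qv_iff φ (X := ⟨s.1.1, x⟩) hx).2 h2
      · exact (conj_Qv_iff φ (X := ⟨s.1.2, y⟩) hy).2 h3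
    rw [← Nat.card_prod]
    refine Nat.card_congr
      { toFun := fun s => (⟨_, hto s⟩, ⟨(v0 ⟨_, hto s⟩)⁻¹ * s.1.2, by
          rw [← Qv_eq_iff, ← hv0 ⟨_, hto s⟩]⟩)
        invFun := fun r => ⟨(r.1.1.1, v0 r.1 * r.2.1), by
          have h1 : Qv φ P (v0 r.1 * r.2.1) = r.1.1.2 := by
            rw [hv0 r.1, eq_comm, Qv_eq_iff, inv_mul_cancel_left]
            exact r.2.2
          obtain ⟨h2, h3, h4⟩ := r.1.2
          refine ⟨h2, ?_, ?_⟩
          · rw [← conj_Qv_iff φ (X := ⟨r.1.1.1.1, x⟩) hx]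
            rw [h1]
            exact h3.2.1
          · rw [← conj_Qv_iff φ (X := ⟨r.1.1.1.2, y⟩) hy]
            rw [h1]
            exact h3.2.2⟩
        left_inv := fun s => by
          apply Subtype.ext
          refine Prod.ext rfl ?_
          change v0 ⟨_, hto s⟩ * ((v0 ⟨_, hto s⟩)⁻¹ * s.1.2) = s.1.2
          rw [mul_inv_cancel_left]
        right_inv := fun r => by
          have h1 : Qv φ P (v0 r.1 * r.2.1) = r.1.1.2 := by
            rw [hv0 r.1, eq_comm, Qv_eq_iff, inv_mul_cancel_left]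
            exact r.2.2
          have h2 : ∀ h, (⟨(r.1.1.1, Qv φ P (v0 r.1 * r.2.1)), h⟩ : N) = r.1 := fun h => by
            apply Subtype.ext
            exact Prod.ext rfl h1
          refine Prod.ext ?_ ?_
          · exact h2 _
          · apply Subtype.ext
            change (v0 _)⁻¹ * (v0 r.1 * r.2.1) = r.2.1
            rw [h2, inv_mul_cancel_left] }
  have hA2 : Nat.card A = Nat.card V * Nat.card {q : CV φ P × CV φ P //
      q.1 * actC φ hx q.2 = q.2 * actC φ hy q.1} := by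
    rw [← Nat.card_prod]
    refine Nat.card_congr
      { toFun := fun s => (s.1.2, ⟨(⟨_, s.2.2.1⟩, ⟨_, s.2.2.2⟩), by
          apply Subtype.ext
          obtain ⟨⟨⟨w, u⟩, v⟩, h1, h2, h3⟩ := s
          change w * φ x u = u * φ y w at h1
          change v⁻¹ * w * φ x v * φ x (v⁻¹ * u * φ y v) = v⁻¹ * u * φ y v * φ y (v⁻¹ * w * φ x v)
          have h4 : φ x (φ y v) = φ y (φ x v) := by
            rw [← MulAut.mul_apply, ← MulAut.mul_apply, ← map_mul, ← map_mul, hxy]
          simp only [map_mul, map_inv, h4]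
          have h5 : v⁻¹ * w * φ x v * ((φ x v)⁻¹ * φ x u * φ y (φ x v)) =
              v⁻¹ * (w * φ x u) * φ y (φ x v) := by group
          have h6 : v⁻¹ * u * φ y v * ((φ y v)⁻¹ * φ y w * φ y (φ x v)) =
              v⁻¹ * (u * φ y w) * φ y (φ x v) := by group
          rw [h5, h6, h1]⟩)
        invFun := fun r => ⟨((r.1 * r.2.1.1 * (φ x r.1)⁻¹, r.1 * r.2.1.2 * (φ y r.1)⁻¹), r.1), by
          obtain ⟨v, ⟨⟨w, hw⟩, ⟨u, hu⟩⟩, h⟩ := r
          have h1 : w * φ x u = u * φ y w := congrArg Subtype.val h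
          have h4 : φ x (φ y v) = φ y (φ x v) := by
            rw [← MulAut.mul_apply, ← MulAut.mul_apply, ← map_mul, ← map_mul, hxy]
          refine ⟨?_, ?_, ?_⟩
          · change v * w * (φ x v)⁻¹ * φ x (v * u * (φ y v)⁻¹) =
              v * u * (φ y v)⁻¹ * φ y (v * w * (φ x v)⁻¹)
            simp only [map_mul, map_inv, h4]
            have h5 : v * w * (φ x v)⁻¹ * (φ x v * φ x u * (φ y (φ x v))⁻¹) =
                v * (w * φ x u) * (φ y (φ x v))⁻¹ := by group
            have h6 : v * u * (φ y v)⁻¹ * (φ y v * φ y w * (φ y (φ x v))⁻¹) =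
                v * (u * φ y w) * (φ y (φ x v))⁻¹ := by group
            rw [h5, h6, h1]
          · change v⁻¹ * (v * w * (φ x v)⁻¹) * φ x v ∈ CV φ P
            have : v⁻¹ * (v * w * (φ x v)⁻¹) * φ x v = w := by group
            rwa [this]
          · change v⁻¹ * (v * u * (φ y v)⁻¹) * φ y v ∈ CV φ P
            have : v⁻¹ * (v * u * (φ y v)⁻¹) * φ y v = u := by group
            rwa [this]⟩
        left_inv := fun s => by
          obtain ⟨⟨⟨w, u⟩, v⟩, h1, h2, h3⟩ := s
          apply Subtype.ext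
          refine Prod.ext (Prod.ext ?_ ?_) rfl
          · change v * (v⁻¹ * w * φ x v) * (φ x v)⁻¹ = w
            group
          · change v * (v⁻¹ * u * φ y v) * (φ y v)⁻¹ = u
            group
        right_inv := fun r => by
          obtain ⟨v, ⟨⟨w, hw⟩, ⟨u, hu⟩⟩, h⟩ := r
          refine Prod.ext rfl (Subtype.ext (Prod.ext (Subtype.ext ?_) (Subtype.ext ?_)))
          · change v⁻¹ * (v * w * (φ x v)⁻¹) * φ x v = w
            group
          · change v⁻¹ * (v * u * (φ y v)⁻¹) * φ y v = u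
            group }
  rw [pair_count, card_dual_CV φ hV hP hx hy, hA1] at hA2
  have h0 : 0 < Nat.card (CV φ P) := Nat.card_pos
  refine Nat.eq_of_mul_eq_mul_right h0 (hA2.trans ?_)
  ring

end count

end Run7.h45
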