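import Pool.Agent.Run7.h45.Cnt
import Pool.Agent.N85.WM.Fin

/-!
# Stabilizers of characters in semidirect products
-/

set_option autoImplicit false
set_option linter.unusedSectionVars false

open scoped Classical BigOperators

noncomputable section

namespace Run7.h45

open Pool.Agent.Y63.NV Pool.Agent.N85.WM

/-- the congruence between `l(B)` and `w(B)` modulo `p`, for all blocks `B` of `G` -/
def LWmod (p : ℕ) {F : Type} [Field F] (red : integralClosure ℤ ℂ →+* F) (G : Type) [Group G] :
    Prop :=
  ∀ B : (G → F) → F, IsBlock B → numIrrBlock B ≡ numWts p red B [MOD p]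

section semi

variable {V L G : Type} [CommGroup V] [Group L] [Group G] (φ : L →* MulAut V)

/-- the data for the semidirect product -/
def semiCD (j : G →* L) (hj : Function.Injective j) : CD (V ⋊[φ] L) V G where
  i := SemidirectProduct.inl
  j := SemidirectProduct.inr.comp j
  c := φ.comp SemidirectProduct.rightHom
  hc y v := by
    ext
    · change (SemidirectProduct.inl (φ y.right v) : V ⋊[φ] L).left = _
      simp only [SemidirectProduct.left_inl, SemidirectProduct.mul_left, SemidirectProduct.mul_right,
        SemidirectProduct.right_inl, mul_one, SemidirectProduct.inv_left, ← MulAut.mul_apply,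
        ← map_mul, mul_inv_cancel, map_one, MulAut.one_apply]
      rw [mul_comm y.left, mul_assoc, mul_inv_cancel, mul_one]
    · simp
  uniq v m h := by
    have h1 := congrArg SemidirectProduct.left h
    have h2 := congrArg SemidirectProduct.right h
    simp only [SemidirectProduct.left_inl, MonoidHom.comp_apply, SemidirectProduct.left_inr,
      SemidirectProduct.right_inl, SemidirectProduct.right_inr] at h1 h2
    exact ⟨h1, hj (by rw [← h2, map_one])⟩

theorem semi_stab {K : Type} [Field K] (j : G →* L) (hj : Function.Injective j) (θ : V →* K)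
    (hst : ∀ l : L, (∀ v, θ (φ l v) = θ v) ↔ ∃ g, j g = l) : (semiCD φ j hj).Stab θ := by
  intro y
  change (∀ v, θ (φ y.right v) = θ v) ↔ _
  rw [hst]
  constructor
  · rintro ⟨g, hg⟩
    refine ⟨y.left, g, ?_⟩
    ext
    · change y.left = (SemidirectProduct.inl y.left * SemidirectProduct.inr (j g) : V ⋊[φ] L).left
      simp
    · change y.right = (SemidirectProduct.inl y.left * SemidirectProduct.inr (j g) :
        V ⋊[φ] L).right
      simp [hg]
  · rintro ⟨v, g, rfl⟩
    refine ⟨g, ?_⟩
    change j g = (SemidirectProduct.inl v * SemidirectProduct.inr (j g) : V ⋊[φ] L).right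
    simp

instance fin_semi [Finite V] [Finite L] : Finite (V ⋊[φ] L) :=
  Finite.of_equiv _ SemidirectProduct.equivProd.symm

/-- **The blocks of a stabilizer are realised in the semidirect product.** -/
theorem real_semi {p : ℕ} [Fact p.Prime] {F : Type} [Field F] [IsAlgClosed F] [CharP F p]
    (red : integralClosure ℤ ℂ →+* F) [Finite V] [Finite L] [Finite G] (hV : ¬ p ∣ Nat.card V)
    (j : G →* L) (hj : Function.Injective j) (θ : V →* ℂ)
    (hst : ∀ l : L, (∀ v, θ (φ l v) = θ v) ↔ ∃ g, j g = l) (B : (G → F) → F) (hB : IsBlock B) :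
    ∃ B' : ((V ⋊[φ] L) → F) → F, IsBlock B' ∧ numIrrBlock B' = numIrrBlock B ∧
      numWts p red B' = numWts p red B := by
  have f1 : Fintype V := Fintype.ofFinite V
  have f2 : Fintype (V ⋊[φ] L) := Fintype.ofFinite _
  have f3 : Fintype G := Fintype.ofFinite G
  have hS := semi_stab φ j hj θ hst
  have hSF := stab_redH red hV hS
  have hVF : (Fintype.card V : F) ≠ 0 := by
    rw [← Nat.card_eq_fintype_card]
    intro h
    exact hV ((CharP.cast_eq_zero_iff F p _).mp h)
  exact ⟨(semiCD φ j hj).blk (redH red θ) B, CD.blk_block hSF hB, CD.numIrr_blk hVF hSF hB,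
    CD.numWts_blk red hV hS hB⟩

/-- **The congruence passes to the stabilizers.** -/
theorem lw_semi {p : ℕ} [Fact p.Prime] {F : Type} [Field F] [IsAlgClosed F] [CharP F p]
    (red : integralClosure ℤ ℂ →+* F) [Finite V] [Finite L] [Finite G] (hV : ¬ p ∣ Nat.card V)
    (j : G →* L) (hj : Function.Injective j) (θ : V →* ℂ)
    (hst : ∀ l : L, (∀ v, θ (φ l v) = θ v) ↔ ∃ g, j g = l)
    (h : LWmod p red (V ⋊[φ] L)) : LWmod p red G := by
  intro B hB
  have f1 : Fintype V := Fintype.ofFinite V
  have f2 : Fintype (V ⋊[φ] L) := Fintype.ofFinite _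
  have f3 : Fintype G := Fintype.ofFinite G
  have hS := semi_stab φ j hj θ hst
  have hSF := stab_redH red hV hS
  have hVF : (Fintype.card V : F) ≠ 0 := by
    rw [← Nat.card_eq_fintype_card]
    intro h
    exact hV ((CharP.cast_eq_zero_iff F p _).mp h)
  have h1 := h ((semiCD φ j hj).blk (redH red θ) B) (CD.blk_block hSF hB)
  rwa [CD.numIrr_blk hVF hSF hB, CD.numWts_blk red hV hS hB] at h1

/-- the weight conjecture passes to the stabilizers -/
theorem bawc_semi {p : ℕ} [Fact p.Prime] {F : Type} [Field F] [IsAlgClosed F] [CharP F p]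
    (red : integralClosure ℤ ℂ →+* F) [Finite V] [Finite L] [Finite G] (hV : ¬ p ∣ Nat.card V)
    (j : G →* L) (hj : Function.Injective j) (θ : V →* ℂ)
    (hst : ∀ l : L, (∀ v, θ (φ l v) = θ v) ↔ ∃ g, j g = l)
    (h : BAWC p red (V ⋊[φ] L)) : BAWC p red G := by
  intro B hB
  have f1 : Fintype V := Fintype.ofFinite V
  have f2 : Fintype (V ⋊[φ] L) := Fintype.ofFinite _
  have f3 : Fintype G := Fintype.ofFinite G
  have hS := semi_stab φ j hj θ hst
  have hSF := stab_redH red hV hS
  have hVF : (Fintype.card V : F) ≠ 0 := by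
    rw [← Nat.card_eq_fintype_card]
    intro h
    exact hV ((CharP.cast_eq_zero_iff F p _).mp h)
  have h1 := h ((semiCD φ j hj).blk (redH red θ) B) (CD.blk_block hSF hB)
  change numIrrBlock B = numWts p red B
  rw [← CD.numIrr_blk hVF hSF hB, ← CD.numWts_blk red hV hS hB]
  exact h1

end semi

end Run7.h45
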