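import Pool.Agent.Run7.h45.Kr3
import Pool.Agent.Run7.h45.Semi

/-!
# The Knörr–Robinson sum of a semidirect product
-/

set_option autoImplicit false
set_option linter.unusedSectionVars false

open scoped BigOperators Classical

noncomputable section

namespace Run7.h45

open Pool.Agent.Y63.KR Pool.Agent.Q90.WR

theorem mob_unique {α : Type} [PartialOrder α] {S : Finset α} {F G : α → ℤ}
    (h : ∀ P ∈ S, ∑ Q ∈ S.filter (P ≤ ·), F Q = ∑ Q ∈ S.filter (P ≤ ·), G Q) :
    ∀ P ∈ S, F P = G P := by
  have key : ∀ n : ℕ, ∀ P ∈ S, (S.filter (P < ·)).card = n → F P = G P := by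
    intro n
    induction n using Nat.strong_induction_on with
    | _ n ih =>
      intro P hP hn
      have h1 := h P hP
      have e : S.filter (P ≤ ·) = insert P (S.filter (P < ·)) := by
        ext Q
        simp only [Finset.mem_filter, Finset.mem_insert]
        constructor
        · rintro ⟨h2, h3⟩
          rcases h3.eq_or_lt with h4 | h4
          · exact Or.inl h4.symm
          · exact Or.inr ⟨h2, h4⟩
        · rintro (rfl | ⟨h2, h3⟩)
          · exact ⟨hP, le_rfl⟩
          · exact ⟨h2, h3.le⟩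
      rw [e, Finset.sum_insert (by simp), Finset.sum_insert (by simp)] at h1
      have h2 : ∑ Q ∈ S.filter (P < ·), F Q = ∑ Q ∈ S.filter (P < ·), G Q := by
        refine Finset.sum_congr rfl fun Q hQ => ?_
        obtain ⟨hQS, hPQ⟩ := Finset.mem_filter.mp hQ
        refine ih _ ?_ Q hQS rfl
        rw [← hn]
        apply Finset.card_lt_card
        rw [Finset.ssubset_iff_of_subset]
        · exact ⟨Q, hQ, by simp⟩
        · intro R hR
          rw [Finset.mem_filter] at hR ⊢
          exact ⟨hR.1, hPQ.trans hR.2⟩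
      rw [h2] at h1
      exact add_right_cancel h1
  exact fun P hP => key _ P hP rfl

section main

variable {V L : Type} [CommGroup V] [Group L] (φ : L →* MulAut V)

/-- the stabiliser of a character of `V` -/
def stL (θ : V →* ℂ) : Subgroup L where
  carrier := {l | ∀ v, θ (φ l v) = θ v}
  one_mem' := fun v => by rw [map_one, MulAut.one_apply]
  mul_mem' := fun {a b} ha hb v => by rw [map_mul, MulAut.mul_apply, ha, hb]
  inv_mem' := fun {a} ha v => by
    have h := ha (φ a⁻¹ v)
    rw [← MulAut.mul_apply, ← map_mul, mul_inv_cancel, map_one, MulAut.one_apply] at h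
    exact h.symm

theorem mem_stL {θ : V →* ℂ} {l : L} : l ∈ stL φ θ ↔ ∀ v, θ (φ l v) = θ v := Iff.rfl

variable [Finite V] [Finite L] {p : ℕ} [Fact p.Prime]

/-- the invariant `p`-subgroups above the pair -/
abbrev Iq (p : ℕ) (x y : L) (q : V × V) : Finset (Subgroup (V ⋊[φ] L)) :=
  inv p ({⟨q.1, x⟩, ⟨q.2, y⟩} : Set (V ⋊[φ] L))

omit [Fact p.Prime] in
theorem mem_Iq {x y : L} {q : V × V} {Q : Subgroup (V ⋊[φ] L)} :
    Q ∈ Iq φ p x y q ↔ IsPGroup p Q ∧ conjSub (⟨q.1, x⟩ : V ⋊[φ] L) Q = Q ∧
      conjSub (⟨q.2, y⟩ : V ⋊[φ] L) Q = Q := by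
  rw [mem_inv]
  simp only [Set.mem_insert_iff, Set.mem_singleton_iff, forall_eq_or_imp, forall_eq]

omit [Finite V] [Finite L] [Fact p.Prime] in
theorem map_conj_right (X : V ⋊[φ] L) (Q : Subgroup (V ⋊[φ] L)) :
    (conjSub X Q).map SemidirectProduct.rightHom =
      conjSub X.right (Q.map SemidirectProduct.rightHom) := by
  unfold conjSub
  rw [Subgroup.map_map, Subgroup.map_map]
  congr 1

omit [Fact p.Prime] in
theorem map_mem {x y : L} {q : V × V} {Q : Subgroup (V ⋊[φ] L)} (hQ : Q ∈ Iq φ p x y q) :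
    Q.map SemidirectProduct.rightHom ∈ inv p ({x, y} : Set L) := by
  rw [mem_Iq] at hQ
  rw [mem_inv]
  refine ⟨hQ.1.map _, ?_⟩
  simp only [Set.mem_insert_iff, Set.mem_singleton_iff, forall_eq_or_imp, forall_eq]
  constructor
  · have h := map_conj_right φ ⟨q.1, x⟩ Q
    rw [hQ.2.1] at h
    exact h.symm
  · have h := map_conj_right φ ⟨q.2, y⟩ Q
    rw [hQ.2.2] at h
    exact h.symm

omit [Finite V] [Finite L] [Fact p.Prime] in
theorem conj_comap {X : V ⋊[φ] L} {P : Subgroup L} (h : conjSub X.right P = P) :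
    conjSub X (P.comap (SemidirectProduct.rightHom : V ⋊[φ] L →* L)) =
      P.comap (SemidirectProduct.rightHom : V ⋊[φ] L →* L) := by
  ext Y
  constructor
  · rintro ⟨Z, hZ, h1⟩
    have h2 : X * Z * X⁻¹ = Y := h1
    have h3 : Z.right ∈ P := hZ
    change Y.right ∈ P
    rw [← h2]
    exact (conj_mem_iff h).2 h3
  · intro hY
    refine ⟨X⁻¹ * Y * X, ?_, ?_⟩
    · change (X⁻¹ * Y * X).right ∈ P
      rw [← conj_mem_iff h]
      have h4 : X.right * (X⁻¹ * Y * X).right * X.right⁻¹ = Y.right := by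
        simp only [SemidirectProduct.mul_right, SemidirectProduct.inv_right]
        group
      rw [h4]
      exact hY
    · change X * (X⁻¹ * Y * X) * X⁻¹ = Y
      group

/-- the unique subgroup below `Q` with image `P` -/
theorem below_unique (hV : ¬ p ∣ Nat.card V) {x y : L} {q : V × V} {P : Subgroup L}
    (hP : P ∈ inv p ({x, y} : Set L)) {Q : Subgroup (V ⋊[φ] L)} (hQ : Q ∈ Iq φ p x y q)
    (R : Subgroup (V ⋊[φ] L)) :
    (R ∈ Iq φ p x y q ∧ R.map SemidirectProduct.rightHom = P ∧ R ≤ Q) ↔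
      (P ≤ Q.map SemidirectProduct.rightHom ∧
        R = Q ⊓ P.comap (SemidirectProduct.rightHom : V ⋊[φ] L →* L)) := by
  rw [mem_inv] at hP
  simp only [Set.mem_insert_iff, Set.mem_singleton_iff, forall_eq_or_imp, forall_eq] at hP
  have hQ' := (mem_Iq φ).1 hQ
  constructor
  · rintro ⟨h1, h2, h3⟩
    refine ⟨by rw [← h2]; exact Subgroup.map_mono h3, le_antisymm ?_ ?_⟩
    · refine le_inf h3 ?_
      rw [← Subgroup.map_le_iff_le_comap, h2]
    · rintro X ⟨hX1, hX2⟩
      have h4 : X.right ∈ R.map (SemidirectProduct.rightHom : V ⋊[φ] L →* L) := by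
        rw [h2]; exact hX2
      obtain ⟨Y, hY, h5⟩ := h4
      have h6 := inl_eq_one φ hV hQ'.1 (Q.mul_mem hX1 (Q.inv_mem (h3 hY))) (by
        change X.right * (Y⁻¹).right = 1
        rw [SemidirectProduct.inv_right]
        have h7 : Y.right = X.right := h5
        rw [h7, mul_inv_cancel])
      rw [mul_inv_eq_one.mp h6]
      exact hY
  · rintro ⟨h1, rfl⟩
    refine ⟨?_, ?_, inf_le_left⟩
    · rw [mem_Iq]
      refine ⟨hQ'.1.to_le inf_le_left, ?_, ?_⟩
      · rw [Pool.Agent.Q18.KRX.conjSub_inf, hQ'.2.1, conj_comap φ (X := ⟨q.1, x⟩) hP.2.1]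
      · rw [Pool.Agent.Q18.KRX.conjSub_inf, hQ'.2.2, conj_comap φ (X := ⟨q.2, y⟩) hP.2.2]
    · ext g
      constructor
      · rintro ⟨X, hX, rfl⟩
        exact hX.2
      · intro hg
        obtain ⟨X, hX, rfl⟩ := h1 hg
        exact ⟨X, ⟨hX, hg⟩, rfl⟩

/-- the weights above `P` -/
def FW (p : ℕ) (x y : L) (P : Subgroup L) : ℤ :=
  ∑ᶠ q : V × V, if cm φ x y q then
    ∑ Q ∈ (Iq φ p x y q).filter (fun Q => Q.map SemidirectProduct.rightHom = P),
      cs ((Iq φ p x y q).filter (Q < ·)) else 0

theorem sum_FW (hV : ¬ p ∣ Nat.card V) {x y : L} {P : Subgroup L}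
    (hP : P ∈ inv p ({x, y} : Set L)) :
    ∑ P' ∈ (inv p ({x, y} : Set L)).filter (P ≤ ·), FW φ p x y P' =
      (Nat.card {t : (V × V) × Subgroup (V ⋊[φ] L) // IC φ p x y P t} : ℤ) := by
  have f1 : Fintype V := Fintype.ofFinite V
  have f3 : Fintype (Subgroup (V ⋊[φ] L)) := Fintype.ofFinite _
  unfold FW
  simp only [finsum_eq_sum_of_fintype]
  rw [Finset.sum_comm]
  have h1 : ∀ q : V × V, ∑ P' ∈ (inv p ({x, y} : Set L)).filter (P ≤ ·),
      (if cm φ x y q then ∑ Q ∈ (Iq φ p x y q).filter
        (fun Q => Q.map SemidirectProduct.rightHom = P'), cs ((Iq φ p x y q).filter (Q < ·)) else 0) =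
      ∑ R : Subgroup (V ⋊[φ] L), if IC φ p x y P (q, R) then 1 else 0 := by
    intro q
    by_cases hq : cm φ x y q
    · simp only [if_pos hq]
      have h2 : ∑ P' ∈ (inv p ({x, y} : Set L)).filter (P ≤ ·), ∑ Q ∈ (Iq φ p x y q).filter
          (fun Q => Q.map SemidirectProduct.rightHom = P'), cs ((Iq φ p x y q).filter (Q < ·)) =
          ∑ Q ∈ (Iq φ p x y q).filter (fun Q => P ≤ Q.map SemidirectProduct.rightHom),
            cs ((Iq φ p x y q).filter (Q < ·)) := by
        rw [← Finset.sum_fiberwise_of_maps_to (s := (Iq φ p x y q).filter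
          (fun Q => P ≤ Q.map SemidirectProduct.rightHom))
          (t := (inv p ({x, y} : Set L)).filter (P ≤ ·))
          (g := fun Q => Q.map SemidirectProduct.rightHom)]
        · refine Finset.sum_congr rfl fun P' hP' => Finset.sum_congr ?_ fun _ _ => rfl
          ext Q
          simp only [Finset.mem_filter]
          constructor
          · rintro ⟨a, b⟩
            exact ⟨⟨a, by rw [b]; exact (Finset.mem_filter.mp hP').2⟩, b⟩
          · rintro ⟨⟨a, _⟩, b⟩
            exact ⟨a, b⟩
        · intro Q hQ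
          rw [Finset.mem_filter] at hQ
          rw [Finset.mem_filter]
          exact ⟨map_mem φ hQ.1, hQ.2⟩
      have h3 : ∀ Q ∈ Iq φ p x y q, ∑ R ∈ (Iq φ p x y q).filter
          (fun R => R.map SemidirectProduct.rightHom = P),
          (if R ≤ Q then cs ((Iq φ p x y q).filter (Q < ·)) else 0) =
          if P ≤ Q.map SemidirectProduct.rightHom then cs ((Iq φ p x y q).filter (Q < ·)) else 0 := by
        intro Q hQ
        by_cases hPQ : P ≤ Q.map SemidirectProduct.rightHom
        · rw [if_pos hPQ]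
          obtain ⟨h5, h6, h7⟩ := (below_unique φ hV hP hQ _).2 ⟨hPQ, rfl⟩
          rw [Finset.sum_eq_single (Q ⊓ P.comap (SemidirectProduct.rightHom : V ⋊[φ] L →* L))]
          · rw [if_pos h7]
          · intro R hR hne
            rw [if_neg]
            intro hle
            rw [Finset.mem_filter] at hR
            exact hne ((below_unique φ hV hP hQ R).1 ⟨hR.1, hR.2, hle⟩).2
          · intro h8
            exact absurd (Finset.mem_filter.mpr ⟨h5, h6⟩) h8
        · rw [if_neg hPQ]
          refine Finset.sum_eq_zero fun R hR => ?_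
          rw [if_neg]
          intro hle
          rw [Finset.mem_filter] at hR
          exact hPQ ((below_unique φ hV hP hQ R).1 ⟨hR.1, hR.2, hle⟩).1
      rw [h2, Finset.sum_filter, ← Finset.sum_congr rfl h3, Finset.sum_comm]
      have h4 : ∀ R ∈ (Iq φ p x y q).filter (fun R => R.map SemidirectProduct.rightHom = P),
          ∑ Q ∈ Iq φ p x y q, (if R ≤ Q then cs ((Iq φ p x y q).filter (Q < ·)) else 0) = 1 := by
        intro R hR
        rw [← Finset.sum_filter]
        exact weight_exists _ R (Finset.mem_filter.mp hR).1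
      rw [Finset.sum_congr rfl h4, ← Finset.sum_filter, Finset.sum_const, Finset.sum_const]
      congr 2
      ext R
      rw [Finset.mem_filter, Finset.mem_filter]
      constructor
      · rintro ⟨a, b⟩
        exact ⟨Finset.mem_univ _, hq, (mem_Iq φ).1 a, b⟩
      · rintro ⟨-, _, a, b⟩
        exact ⟨(mem_Iq φ).2 a, b⟩
    · simp only [if_neg hq]
      rw [Finset.sum_const_zero]
      symm
      refine Finset.sum_eq_zero fun R _ => ?_
      rw [if_neg]
      exact fun h => hq h.1
  rw [Finset.sum_congr rfl fun q _ => h1 q, ← Fintype.sum_prod_type'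
    (fun (q : V × V) (R : Subgroup (V ⋊[φ] L)) => if IC φ p x y P (q, R) then (1 : ℤ) else 0)]
  rw [Nat.card_eq_fintype_card, Fintype.card_subtype, Finset.sum_boole]

end main

end Run7.h45
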