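import Pool.Agent.Run7.h45.Kr4

/-!
# The Knörr–Robinson sum of a semidirect product: the formula
-/

set_option autoImplicit false
set_option linter.unusedSectionVars false

open scoped BigOperators Classical

noncomputable section

namespace Run7.h45

open Pool.Agent.Y63.KR Pool.Agent.Q90.WR Pool.Agent.Q18.KRX

section main

variable {V L : Type} [CommGroup V] [Group L] (φ : L →* MulAut V)
variable [Finite V] [Finite L] {p : ℕ} [Fact p.Prime]

/-- the weights of the stabilisers -/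
def GW (p : ℕ) (x y : L) (P : Subgroup L) : ℤ :=
  Nat.card V * ∑ᶠ θ : V →* ℂ, if x ∈ stL φ θ ∧ y ∈ stL φ θ ∧ P ≤ stL φ θ then
    cs (((inv p ({x, y} : Set L)).filter (· ≤ stL φ θ)).filter (P < ·)) else 0

omit [Fact p.Prime] in
theorem sum_GW {x y : L} {P : Subgroup L} (hP : P ∈ inv p ({x, y} : Set L)) :
    ∑ P' ∈ (inv p ({x, y} : Set L)).filter (P ≤ ·), GW φ p x y P' =
      Nat.card V * (Nat.card {θ : V →* ℂ // ((∀ v, θ (φ x v) = θ v) ∧ ∀ v, θ (φ y v) = θ v) ∧
        ∀ g ∈ P, ∀ v, θ (φ g v) = θ v} : ℤ) := by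
  have f1 : Finite (V →* ℂ) := finite_dual V
  have f2 : Fintype (V →* ℂ) := Fintype.ofFinite _
  unfold GW
  simp only [finsum_eq_sum_of_fintype]
  rw [← Finset.mul_sum]
  congr 1
  rw [Finset.sum_comm]
  have h1 : ∀ θ : V →* ℂ, ∑ P' ∈ (inv p ({x, y} : Set L)).filter (P ≤ ·),
      (if x ∈ stL φ θ ∧ y ∈ stL φ θ ∧ P' ≤ stL φ θ then
        cs (((inv p ({x, y} : Set L)).filter (· ≤ stL φ θ)).filter (P' < ·)) else 0) =
      if ((∀ v, θ (φ x v) = θ v) ∧ ∀ v, θ (φ y v) = θ v) ∧ ∀ g ∈ P, ∀ v, θ (φ g v) = θ v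
        then 1 else 0 := by
    intro θ
    by_cases hx : x ∈ stL φ θ
    · by_cases hy : y ∈ stL φ θ
      · by_cases hPθ : P ≤ stL φ θ
        · rw [if_pos ⟨⟨hx, hy⟩, hPθ⟩]
          rw [← weight_exists ((inv p ({x, y} : Set L)).filter (· ≤ stL φ θ)) P
            (Finset.mem_filter.mpr ⟨hP, hPθ⟩)]
          rw [← Finset.sum_filter]
          refine Finset.sum_congr ?_ fun _ _ => rfl
          ext R
          simp only [Finset.mem_filter]
          constructor
          · rintro ⟨⟨a, b⟩, _, _, c⟩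
            exact ⟨⟨a, c⟩, b⟩
          · rintro ⟨⟨a, c⟩, b⟩
            exact ⟨⟨a, b⟩, hx, hy, c⟩
        · rw [if_neg (fun h => hPθ h.2)]
          refine Finset.sum_eq_zero fun P' hP' => ?_
          rw [if_neg]
          rintro ⟨_, _, h⟩
          exact hPθ ((Finset.mem_filter.mp hP').2.trans h)
      · rw [if_neg (fun h => hy h.1.2)]
        refine Finset.sum_eq_zero fun P' hP' => ?_
        rw [if_neg]
        rintro ⟨_, h, _⟩
        exact hy h
    · rw [if_neg (fun h => hx h.1.1)]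
      refine Finset.sum_eq_zero fun P' hP' => ?_
      rw [if_neg]
      rintro ⟨h, _⟩
      exact hx h
  rw [Finset.sum_congr rfl fun θ _ => h1 θ, Finset.sum_boole, Nat.card_eq_fintype_card,
    Fintype.card_subtype]

theorem FW_eq_GW (hV : ¬ p ∣ Nat.card V) {x y : L} (hxy : x * y = y * x) {P : Subgroup L}
    (hP : P ∈ inv p ({x, y} : Set L)) : FW φ p x y P = GW φ p x y P := by
  refine mob_unique (fun P hP => ?_) P hP
  rw [sum_FW φ hV hP, sum_GW φ hP]
  have h1 := mem_inv.1 hP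
  simp only [Set.mem_insert_iff, Set.mem_singleton_iff, forall_eq_or_imp, forall_eq] at h1
  have h2 := card_IC φ hV hxy h1.1 h1.2.1 h1.2.2
  rw [h2]
  push_cast
  ring

theorem FW_bot (hV : ¬ p ∣ Nat.card V) (x y : L) :
    FW φ p x y ⊥ = ∑ᶠ q : V × V, if cm φ x y q then
      W p ({⟨q.1, x⟩, ⟨q.2, y⟩} : Set (V ⋊[φ] L)) else 0 := by
  unfold FW
  refine finsum_congr fun q => ?_
  split_ifs with hq
  · have h1 : (Iq φ p x y q).filter (fun Q => Q.map SemidirectProduct.rightHom = ⊥) = {⊥} := by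
      ext Q
      rw [Finset.mem_filter, Finset.mem_singleton]
      constructor
      · rintro ⟨h2, h3⟩
        rw [Subgroup.eq_bot_iff_forall]
        intro X hX
        refine inl_eq_one φ hV ((mem_Iq φ).1 h2).1 hX ?_
        have h4 : X.right ∈ Q.map (SemidirectProduct.rightHom : V ⋊[φ] L →* L) := ⟨X, hX, rfl⟩
        rw [h3] at h4
        exact Subgroup.mem_bot.mp h4
      · rintro rfl
        exact ⟨bot_mem _, Subgroup.map_bot _⟩
    rw [h1, Finset.sum_singleton]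
    exact (W_cs _).symm
  · rfl

omit [Finite V] [Fact p.Prime] in
theorem GW_bot (x y : L) :
    GW φ p x y ⊥ = Nat.card V * ∑ᶠ θ : V →* ℂ, if x ∈ stL φ θ ∧ y ∈ stL φ θ then
      W p {z : stL φ θ | (z : L) ∈ ({x, y} : Set L)} else 0 := by
  unfold GW
  congr 1
  refine finsum_congr fun θ => ?_
  simp only [bot_le, and_true]
  split_ifs with h
  · rw [W_eq_E, ← part_G (by
      rintro z (hz | hz)
      · rw [hz]; exact h.1
      · rw [hz]; exact h.2)]
    change E _ = E _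
    congr 1
    ext Q
    rw [Finset.mem_filter, Finset.mem_filter, Finset.mem_filter, mem_inv, mem_FP]
    constructor
    · rintro ⟨⟨⟨a, b⟩, c⟩, d⟩
      exact ⟨⟨a, d.ne', b⟩, c⟩
    · rintro ⟨⟨a, d, b⟩, c⟩
      exact ⟨⟨⟨a, b⟩, c⟩, bot_lt_iff_ne_bot.mpr d⟩
  · rfl

/-- **The Knörr–Robinson sum of `V ⋊ L`**, `V` an abelian `p'`-group. -/
theorem krSum_semi (hV : ¬ p ∣ Nat.card V) :
    (Nat.card L : ℤ) * krSum p (V ⋊[φ] L) =
      ∑ᶠ θ : V →* ℂ, (Nat.card (stL φ θ) : ℤ) * krSum p (stL φ θ) := by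
  have f1 : Fintype V := Fintype.ofFinite V
  have f2 : Fintype L := Fintype.ofFinite L
  have f3 : Fintype (V ⋊[φ] L) := Fintype.ofFinite _
  have f4 : Finite (V →* ℂ) := finite_dual V
  have f5 : Fintype (V →* ℂ) := Fintype.ofFinite _
  have h1 := card_mul_krSum (p := p) (Γ := V ⋊[φ] L)
  have h2 : ∑ q : (V ⋊[φ] L) × (V ⋊[φ] L),
      (if q.1 * q.2 = q.2 * q.1 then W p ({q.1, q.2} : Set (V ⋊[φ] L)) else 0) =
      ∑ z : L × L, if z.1 * z.2 = z.2 * z.1 then FW φ p z.1 z.2 ⊥ else 0 := by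
    let e' : (L × L) × (V × V) ≃ (V ⋊[φ] L) × (V ⋊[φ] L) :=
      { toFun := fun r => (⟨r.2.1, r.1.1⟩, ⟨r.2.2, r.1.2⟩)
        invFun := fun q => ((q.1.right, q.2.right), (q.1.left, q.2.left))
        left_inv := fun r => rfl
        right_inv := fun q => rfl }
    rw [← Fintype.sum_equiv e' (fun r => if (e' r).1 * (e' r).2 = (e' r).2 * (e' r).1 then
      W p ({(e' r).1, (e' r).2} : Set (V ⋊[φ] L)) else 0) _ (fun r => rfl),
      Fintype.sum_prod_type]
    refine Finset.sum_congr rfl fun z _ => ?_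
    by_cases hz : z.1 * z.2 = z.2 * z.1
    · rw [if_pos hz, FW_bot φ hV, finsum_eq_sum_of_fintype]
      refine Finset.sum_congr rfl fun q _ => ?_
      have h3 : (e' (z, q)).1 * (e' (z, q)).2 = (e' (z, q)).2 * (e' (z, q)).1 ↔
          cm φ z.1 z.2 q := by
        unfold cm
        change (⟨q.1, z.1⟩ : V ⋊[φ] L) * ⟨q.2, z.2⟩ = ⟨q.2, z.2⟩ * ⟨q.1, z.1⟩ ↔ _
        rw [SemidirectProduct.ext_iff]
        simp only [SemidirectProduct.mul_left, SemidirectProduct.mul_right]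
        exact ⟨fun h => h.1, fun h => ⟨h, hz⟩⟩
      by_cases hq : cm φ z.1 z.2 q
      · rw [if_pos hq, if_pos (h3.2 hq)]
        rfl
      · rw [if_neg hq, if_neg (fun h => hq (h3.1 h))]
    · rw [if_neg hz]
      refine Finset.sum_eq_zero fun q _ => ?_
      rw [if_neg]
      intro h
      exact hz (congrArg SemidirectProduct.right h)
  have h3 : ∑ z : L × L, (if z.1 * z.2 = z.2 * z.1 then FW φ p z.1 z.2 ⊥ else 0) =
      (Nat.card V : ℤ) * ∑ θ : V →* ℂ, (Nat.card (stL φ θ) : ℤ) * krSum p (stL φ θ) := by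
    have h4 : ∀ z : L × L, (if z.1 * z.2 = z.2 * z.1 then FW φ p z.1 z.2 ⊥ else 0) =
        (Nat.card V : ℤ) * ∑ θ : V →* ℂ, gC p (stL φ θ) z := by
      intro z
      by_cases hz : z.1 * z.2 = z.2 * z.1
      · rw [if_pos hz, FW_eq_GW φ hV hz (bot_mem _), GW_bot, finsum_eq_sum_of_fintype]
        congr 1
        refine Finset.sum_congr rfl fun θ _ => ?_
        unfold gC
        by_cases h : z.1 ∈ stL φ θ ∧ z.2 ∈ stL φ θ
        · rw [if_pos h, if_pos ⟨hz, h.1, h.2⟩]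
        · rw [if_neg h, if_neg fun h' => h h'.2]
      · rw [if_neg hz]
        symm
        rw [Finset.sum_eq_zero, mul_zero]
        intro θ _
        unfold gC
        rw [if_neg fun h => hz h.1]
    rw [Finset.sum_congr rfl fun z _ => h4 z, ← Finset.mul_sum, Finset.sum_comm]
    congr 1
    exact Finset.sum_congr rfl fun θ _ => sum_gC _
  have h1' : (Nat.card (V ⋊[φ] L) : ℤ) * krSum p (V ⋊[φ] L) =
      ∑ q : (V ⋊[φ] L) × (V ⋊[φ] L),
      (if q.1 * q.2 = q.2 * q.1 then W p ({q.1, q.2} : Set (V ⋊[φ] L)) else 0) := by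
    rw [h1]
    refine Finset.sum_congr rfl fun q _ => ?_
    by_cases h : q.1 * q.2 = q.2 * q.1
    · rw [if_pos h, if_pos h]
    · rw [if_neg h, if_neg h]
  rw [h2, h3] at h1'
  have h5 : (Nat.card (V ⋊[φ] L) : ℤ) = (Nat.card V : ℤ) * Nat.card L := by
    rw [SemidirectProduct.card]
    push_cast
    ring
  have h6 : (Nat.card V : ℤ) ≠ 0 := by exact_mod_cast Nat.card_pos.ne'
  rw [h5, mul_assoc] at h1'
  rw [finsum_eq_sum_of_fintype]
  exact mul_left_cancel₀ h6 h1'

end main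

end Run7.h45
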