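import Pool.Agent.Run7.h45.Kr5
import Pool.Agent.Run7.h45.Cnt

/-!
# Characters of defect zero of a semidirect product and the error term
-/

set_option autoImplicit false
set_option linter.unusedSectionVars false

open scoped BigOperators Classical

noncomputable section

namespace Run7.h45

open Pool.Agent.Y63.KR Pool.Agent.Q18.KRX
open Pool.Agent.Y63.AWC (IsIrreducibleCharacter numDefectZero)
open Pool.Agent.Y930.NV (Cf om R Cf_out Cf_expand mk_out Cf_ind om_sum om_int ind_cast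
  redC_sum redC_mul redC_of irr_one_ne irr_Cf)

section main

variable {V L : Type} [CommGroup V] [Group L] (φ : L →* MulAut V)
variable [Fintype V] [Finite L]

/-- `θ` is a constituent of the restriction of `χ` to `V` -/
def Be (χ : (V ⋊[φ] L) → ℂ) (θ : V →* ℂ) : Prop :=
  ∑ v : V, θ v⁻¹ * χ (SemidirectProduct.inl v) ≠ 0

theorem Be_ex {χ : (V ⋊[φ] L) → ℂ} (h : IsIrreducibleCharacter χ) : ∃ θ, Be φ χ θ :=
  dual_complete (fun v => χ (SemidirectProduct.inl v)) (by
    change χ (SemidirectProduct.inl 1) ≠ 0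
    rw [map_one]
    exact irr1 h)

/-- the conjugate homomorphism -/
def tw (θ : V →* ℂ) (l : L) : V →* ℂ := θ.comp (φ l).toMonoidHom

omit [Fintype V] [Finite L] in
theorem tw_apply (θ : V →* ℂ) (l : L) (v : V) : tw φ θ l v = θ (φ l v) := rfl

theorem Be_tw {χ : (V ⋊[φ] L) → ℂ} (h : IsIrreducibleCharacter χ) {θ : V →* ℂ} (hθ : Be φ χ θ)
    (l : L) : Be φ χ (tw φ θ l) := by
  have hc : Cf χ := irrT_class (K := ℂ) h
  have h1 : ∑ v : V, tw φ θ l v⁻¹ * χ (SemidirectProduct.inl v) =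
      ∑ v : V, θ v⁻¹ * χ (SemidirectProduct.inl v) := by
    refine Fintype.sum_equiv (φ l).toEquiv _ _ fun v => ?_
    have h2 : ((φ l).toEquiv v)⁻¹ = φ l v⁻¹ := (map_inv (φ l) v).symm
    rw [h2, tw_apply]
    congr 1
    have h3 : (SemidirectProduct.inl ((φ l).toEquiv v) : V ⋊[φ] L) =
        SemidirectProduct.inr l * SemidirectProduct.inl v * (SemidirectProduct.inr l)⁻¹ := by
      rw [← map_inv]
      exact SemidirectProduct.inl_aut l v
    rw [h3, hc]
  intro h0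
  rw [h1] at h0
  exact hθ h0

/-- extension by zero -/
def xF (f : V → ℂ) (y : V ⋊[φ] L) : ℂ := if y.right = 1 then f y.left else 0

theorem xF_Cf {f : V → ℂ} (hf : ∀ l v, f (φ l v) = f v) : Cf (xF φ f) := by
  intro g x
  unfold xF
  have h1 : (g * x * g⁻¹).right = 1 ↔ x.right = 1 := by
    simp only [SemidirectProduct.mul_right, SemidirectProduct.inv_right]
    constructor
    · intro h
      have : x.right = g.right⁻¹ * (g.right * x.right * g.right⁻¹) * g.right := by group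
      rw [this, h]; group
    · intro h
      rw [h]; group
  by_cases hx : x.right = 1
  · rw [if_pos (h1.2 hx), if_pos hx]
    have h2 : (g * x * g⁻¹).left = φ g.right x.left := by
      simp only [SemidirectProduct.mul_left, SemidirectProduct.inv_left,
        SemidirectProduct.mul_right, hx, mul_one]
      rw [← MulAut.mul_apply, ← map_mul, mul_inv_cancel, map_one, MulAut.one_apply,
        mul_comm g.left, mul_assoc, mul_inv_cancel, mul_one]
    rw [h2, hf]
  · rw [if_neg fun h => hx (h1.1 h), if_neg hx]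

variable [Fintype (V ⋊[φ] L)]

theorem om_Be {χ : (V ⋊[φ] L) → ℂ} (h : IsIrreducibleCharacter χ) {θ : V →* ℂ}
    (hθ : Be φ χ θ) {f : V → ℂ} (hf : ∀ l v, f (φ l v) = f v) :
    om χ (xF φ f) = ∑ v, f v * θ v := by
  refine mul_right_cancel₀ hθ ?_
  have hs : ∀ w : V ⋊[φ] L, ∑ y, xF φ f y * χ (y * w) =
      ∑ u : V, f u * χ (SemidirectProduct.inl u * w) := by
    intro w
    symm
    refine Finset.sum_of_injOn (fun u : V => (SemidirectProduct.inl u : V ⋊[φ] L)) ?_ ?_ ?_ ?_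
    · intro a _ b _ hab
      exact SemidirectProduct.inl_injective hab
    · intro a _
      simp
    · intro y _ hy
      unfold xF
      rw [if_neg, zero_mul]
      intro h1
      apply hy
      refine ⟨y.left, by simp, ?_⟩
      ext
      · rfl
      · exact h1.symm
    · intro u _
      unfold xF
      rw [if_pos (by simp)]
      simp
  have h1 : om χ (xF φ f) * ∑ v : V, θ v⁻¹ * χ (SemidirectProduct.inl v) =
      ∑ w, θ w⁻¹ * ∑ u, f u * χ (SemidirectProduct.inl u * SemidirectProduct.inl w) := by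
    rw [Finset.mul_sum]
    refine Finset.sum_congr rfl fun w _ => ?_
    rw [mul_left_comm, ← irr_act h (xF_Cf φ hf), hs]
  rw [h1, Finset.sum_congr rfl fun w _ => Finset.mul_sum _ _ _, Finset.sum_comm, Finset.sum_mul]
  refine Finset.sum_congr rfl fun u _ => ?_
  rw [Finset.mul_sum]
  refine Fintype.sum_equiv (Equiv.mulLeft u) _ _ fun w => ?_
  rw [Equiv.coe_mulLeft, mul_inv_rev, map_mul θ, ← map_mul]
  have h2 : θ u * θ u⁻¹ = 1 := by rw [← map_mul, mul_inv_cancel, map_one]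
  linear_combination (-(θ w⁻¹ * f u * χ (SemidirectProduct.inl (u * w)))) * h2

theorem Be_conj {χ : (V ⋊[φ] L) → ℂ} (h : IsIrreducibleCharacter χ) {θ η : V →* ℂ}
    (hθ : Be φ χ θ) (hη : Be φ χ η) : ∃ l : L, η = tw φ θ l := by
  obtain ⟨l, hl⟩ := sep (by exact_mod_cast Fintype.card_ne_zero) φ θ η fun f hf => by
    rw [← om_Be φ h hη hf, ← om_Be φ h hθ hf]
  exact ⟨l, MonoidHom.ext hl⟩

omit [Fintype V] [Fintype (V ⋊[φ] L)] in
theorem card_tw_fiber (θ : V →* ℂ) (l₀ : L) :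
    Nat.card {l : L // tw φ θ l = tw φ θ l₀} = Nat.card (stL φ (tw φ θ l₀)) := by
  refine Nat.card_congr
    { toFun := fun l => ⟨l₀⁻¹ * l.1, fun v => by
        rw [tw_apply, tw_apply, ← MulAut.mul_apply, ← map_mul, mul_inv_cancel_left]
        exact DFunLike.congr_fun l.2 v⟩
      invFun := fun m => ⟨l₀ * m.1, by
        ext v
        have h1 := m.2 v
        rw [tw_apply, tw_apply] at h1
        rw [tw_apply, tw_apply, map_mul, MulAut.mul_apply]
        exact h1⟩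
      left_inv := fun l => Subtype.ext (mul_inv_cancel_left _ _)
      right_inv := fun m => Subtype.ext (inv_mul_cancel_left _ _) }

/-- the orbit of the constituents -/
theorem sum_Be {χ : (V ⋊[φ] L) → ℂ} (h : IsIrreducibleCharacter χ) [Fintype (V →* ℂ)] :
    ∑ θ : V →* ℂ, (if Be φ χ θ then (Nat.card (stL φ θ) : ℤ) else 0) = Nat.card L := by
  have : Fintype L := Fintype.ofFinite L
  obtain ⟨θ₀, h0⟩ := Be_ex φ h
  have h1 : ∀ θ : V →* ℂ, (if Be φ χ θ then (Nat.card (stL φ θ) : ℤ) else 0) =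
      ∑ l : L, if tw φ θ₀ l = θ then 1 else 0 := by
    intro θ
    by_cases hθ : Be φ χ θ
    · obtain ⟨l₀, rfl⟩ := Be_conj φ h h0 hθ
      rw [if_pos hθ, ← card_tw_fiber, Finset.sum_boole, Nat.card_eq_fintype_card,
        Fintype.card_subtype]
    · rw [if_neg hθ]
      symm
      refine Finset.sum_eq_zero fun l _ => ?_
      rw [if_neg]
      rintro rfl
      exact hθ (Be_tw φ h h0 l)
  rw [Finset.sum_congr rfl fun θ _ => h1 θ, Finset.sum_comm]
  have h2 : ∀ l : L, ∑ θ : V →* ℂ, (if tw φ θ₀ l = θ then (1 : ℤ) else 0) = 1 := by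
    intro l
    rw [Finset.sum_ite_eq, if_pos (Finset.mem_univ _)]
  rw [Finset.sum_congr rfl fun l _ => h2 l, Finset.sum_const, Finset.card_univ,
    Nat.card_eq_fintype_card, nsmul_eq_mul, mul_one]

end main

section dz

variable {V L : Type} [CommGroup V] [Group L] (φ : L →* MulAut V)
variable [Finite V] [Finite L] {p : ℕ} [hp : Fact p.Prime]

/-- a character of defect zero -/
def Dz (p : ℕ) {G : Type} [Group G] (χ : G → ℂ) : Prop :=
  IsIrreducibleCharacter χ ∧
    ∃ n : ℕ, χ 1 = (n : ℂ) ∧ n.factorization p = (Nat.card G).factorization p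

/-- the data at `θ` -/
def dT (θ : V →* ℂ) : CD (V ⋊[φ] L) V (stL φ θ) :=
  semiCD φ (stL φ θ).subtype (stL φ θ).subtype_injective

omit [Finite V] [Finite L] in
theorem dT_stab (θ : V →* ℂ) : (dT φ θ).Stab θ :=
  semi_stab φ _ _ θ fun l => ⟨fun h => ⟨⟨l, h⟩, rfl⟩, fun ⟨g, hg⟩ => hg ▸ g.2⟩

theorem card_Dz_Be [Fintype V] [Fintype (V ⋊[φ] L)] (hV : ¬ p ∣ Nat.card V) (θ : V →* ℂ) :
    Nat.card {χ : (V ⋊[φ] L) → ℂ // Dz p χ ∧ Be φ χ θ} = numDefectZero p (stL φ θ) := by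
  have : Fintype (stL φ θ) := Fintype.ofFinite _
  have hS := dT_stab φ θ
  have hN : Nrm (dT φ θ) ⊥ ⊥ :=
    { nor := inferInstance
      mem := fun x => by
        rw [Subgroup.mem_bot]
        constructor
        · intro h
          exact ⟨1, Subgroup.mem_bot.mpr rfl, by rw [h, map_one]⟩
        · rintro ⟨q, hq, h⟩
          rw [h, Subgroup.mem_bot.mp hq, map_one]
      cen := fun q hq v => by rw [Subgroup.mem_bot.mp hq, map_one, one_mul, mul_one] }
  have hT1 : ∀ χ : (V ⋊[φ] L) → ℂ, (dT φ θ).T θ χ 1 =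
      (Fintype.card V : ℂ)⁻¹ * ∑ v : V, θ v⁻¹ * χ (SemidirectProduct.inl v) := by
    intro χ
    unfold CD.T CD.tf
    congr 1
    refine Finset.sum_congr rfl fun v _ => ?_
    rw [map_one, mul_one]
    rfl
  have hBe : ∀ χ : (V ⋊[φ] L) → ℂ, IsIrreducibleCharacter χ →
      (Be φ χ θ ↔ (dT φ θ).T θ χ ≠ 0) := by
    intro χ hχ
    have hV0 : (Fintype.card V : ℂ)⁻¹ ≠ 0 := inv_ne_zero (by exact_mod_cast Fintype.card_ne_zero)
    constructor
    · intro h h0
      apply h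
      have h1 := hT1 χ
      rw [h0, Pi.zero_apply] at h1
      rcases mul_eq_zero.mp h1.symm with h2 | h2
      · exact absurd h2 hV0
      · exact h2
    · intro h h0
      have h1 : IsIrreducibleCharacter ((dT φ θ).T θ χ) := CD.T_irr cardC_ne hS hχ h
      apply irr1 h1
      rw [hT1, h0, mul_zero]
  have hdz : ∀ χ : (V ⋊[φ] L) → ℂ, IsIrreducibleCharacter χ → (dT φ θ).T θ χ ≠ 0 →
      ((∃ n : ℕ, χ 1 = (n : ℂ) ∧ n.factorization p = (Nat.card (V ⋊[φ] L)).factorization p) ↔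
      ∃ n : ℕ, (dT φ θ).T θ χ 1 = (n : ℂ) ∧
        n.factorization p = (Nat.card (stL φ θ)).factorization p) := by
    intro χ hχ hne
    have h := dz_iff (p := p) hV hS hN hχ hne
    simp only [Subgroup.card_bot, Nat.factorization_one, Finsupp.coe_zero, Pi.zero_apply,
      add_zero] at h
    exact h
  unfold numDefectZero
  refine Nat.card_eq_of_bijective
    (fun χ => ⟨(dT φ θ).T θ χ.1, CD.T_irr cardC_ne hS χ.2.1.1 ((hBe χ.1 χ.2.1.1).1 χ.2.2),
      (hdz χ.1 χ.2.1.1 ((hBe χ.1 χ.2.1.1).1 χ.2.2)).1 χ.2.1.2⟩) ⟨?_, ?_⟩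
  · rintro ⟨χ, hχ⟩ ⟨χ', hχ'⟩ h
    apply Subtype.ext
    exact CD.T_inj hS hχ.1.1 hχ'.1.1 (congrArg Subtype.val h) ((hBe χ hχ.1.1).1 hχ.2)
  · rintro ⟨ψ, hψ, h2⟩
    obtain ⟨χ, h3, h4⟩ := CD.T_surj (D := dT φ θ) cardC_ne hS hψ
    have hne : (dT φ θ).T θ χ ≠ 0 := by
      rw [h4]
      intro h5
      exact irr1 hψ (congrFun h5 1)
    refine ⟨⟨χ, ⟨h3, (hdz χ h3 hne).2 (by rw [h4]; exact h2)⟩, (hBe χ h3).2 hne⟩, ?_⟩
    exact Subtype.ext h4

/-- **Characters of defect zero of `V ⋊ L`**, `V` an abelian `p'`-group. -/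
theorem dz_semi (hV : ¬ p ∣ Nat.card V) :
    (Nat.card L : ℤ) * numDefectZero p (V ⋊[φ] L) =
      ∑ᶠ θ : V →* ℂ, (Nat.card (stL φ θ) : ℤ) * numDefectZero p (stL φ θ) := by
  have f1 : Fintype V := Fintype.ofFinite V
  have f3 : Fintype (V ⋊[φ] L) := Fintype.ofFinite _
  have f4 : Finite (V →* ℂ) := finite_dual V
  have f5 : Fintype (V →* ℂ) := Fintype.ofFinite _
  have f6 : Finite {χ : (V ⋊[φ] L) → ℂ // Dz p χ} := by
    have : Finite {χ : (V ⋊[φ] L) → ℂ // χ ∈ Pool.Agent.Helper884.IC.Irr (V ⋊[φ] L)} := inferInstance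
    exact Finite.of_injective
      (fun χ : {χ : (V ⋊[φ] L) → ℂ // Dz p χ} =>
        (⟨χ.1, Pool.Agent.Helper884.IC.mem_Irr.mpr χ.2.1⟩ :
          {χ : (V ⋊[φ] L) → ℂ // χ ∈ Pool.Agent.Helper884.IC.Irr (V ⋊[φ] L)}))
      (fun a b hab => Subtype.ext (congrArg (fun z :
        {χ : (V ⋊[φ] L) → ℂ // χ ∈ Pool.Agent.Helper884.IC.Irr (V ⋊[φ] L)} => z.1) hab))
  have f7 : Fintype {χ : (V ⋊[φ] L) → ℂ // Dz p χ} := Fintype.ofFinite _
  have h1 : (numDefectZero p (V ⋊[φ] L) : ℤ) = ∑ χ : {χ : (V ⋊[φ] L) → ℂ // Dz p χ}, 1 := by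
    rw [Finset.sum_const, Finset.card_univ, ← Nat.card_eq_fintype_card, nsmul_eq_mul, mul_one]
    rfl
  rw [h1, Finset.mul_sum, finsum_eq_sum_of_fintype]
  have h2 : ∀ χ : {χ : (V ⋊[φ] L) → ℂ // Dz p χ}, (Nat.card L : ℤ) * 1 =
      ∑ θ : V →* ℂ, (if Be φ χ.1 θ then (Nat.card (stL φ θ) : ℤ) else 0) := fun χ => by
    rw [sum_Be φ χ.2.1, mul_one]
  rw [Finset.sum_congr rfl fun χ _ => h2 χ, Finset.sum_comm]
  refine Finset.sum_congr rfl fun θ _ => ?_
  rw [← Finset.sum_filter, Finset.sum_const, ← card_Dz_Be φ hV θ, nsmul_eq_mul, mul_comm]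
  congr 1
  rw [← Fintype.card_subtype, ← Nat.card_eq_fintype_card]
  norm_cast
  exact Nat.card_congr (Equiv.subtypeSubtypeEquivSubtypeInter (Dz p) (fun χ => Be φ χ θ))

/-- the error term of the Knörr–Robinson conjecture -/
def dK (p : ℕ) (H : Type) [Group H] : ℤ := krSum p H - numDefectZero p H

/-- **The error term of `V ⋊ L`.** -/
theorem dK_semi (hV : ¬ p ∣ Nat.card V) :
    (Nat.card L : ℤ) * dK p (V ⋊[φ] L) =
      ∑ᶠ θ : V →* ℂ, (Nat.card (stL φ θ) : ℤ) * dK p (stL φ θ) := by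
  have f4 : Finite (V →* ℂ) := finite_dual V
  have f5 : Fintype (V →* ℂ) := Fintype.ofFinite _
  unfold dK
  rw [mul_sub, krSum_semi φ hV, dz_semi φ hV, finsum_eq_sum_of_fintype, finsum_eq_sum_of_fintype,
    finsum_eq_sum_of_fintype, ← Finset.sum_sub_distrib]
  exact Finset.sum_congr rfl fun θ _ => by rw [mul_sub]

end dz

end Run7.h45
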