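import Pool.Agent.Run7.h45.AmnG
import Pool.Agent.Run7.h45.IN3
import Pool.Agent.Run7.h45.Kr6
import Pool.Agent.N84.MG.Main

/-!
# Numbers of characters of degree prime to `p` fixed by automorphisms, for split extensions of abelian groups
-/

set_option autoImplicit false
set_option linter.unusedSectionVars false
set_option linter.style.haveILetI false

open scoped BigOperators Classical

noncomputable section

namespace Pool.Agent.Run7.h45.MC

open Pool.Agent.K3h83.IN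
open Pool.Agent.Helper884 Pool.Agent.K3h3.KB Pool.Agent.K3h3.MK SemidirectProduct
open Pool.Agent.H254R3.IN (IsIrr mem_Irr)
open Pool.Agent.Q90.WR (FixedBy PrimeDeg)
open Pool.Agent.Q259.BW (Fx pull fx_pull card_pull finite_of_irr)
open Pool.Agent.N84.MG (XP pull_XP)
open IC (Irr)
open _root_.Run7.h45 (CD stL semiCD semi_stab finite_dual irr1 deg_T cardC_ne)

/-- the number of the characters fixed by `Δ` of degree prime to `p` -/
def nf (p : ℕ) (Δ : Set (ℂ ≃+* ℂ)) (G : Type) [Group G] : ℕ := Nat.card (Fx Δ (XP p G))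

theorem nf_congr {p : ℕ} [Fact p.Prime] {Δ : Set (ℂ ≃+* ℂ)} {G H : Type} [Group G] [Group H] (e : G ≃* H) :
    nf p Δ G = nf p Δ H := by
  unfold nf
  rw [← pull_XP (p := p) e, fx_pull, card_pull]

theorem fx_irr {p : ℕ} {Δ : Set (ℂ ≃+* ℂ)} {G : Type} [Group G] {χ : G → ℂ}
    (h : χ ∈ Fx Δ (XP p G)) : IsIrr χ := h.1.1

theorem deg_ne {p : ℕ} [Fact p.Prime] {G : Type} [Group G] {χ : G → ℂ} (h : PrimeDeg p χ) :
    (ndeg χ : ZMod p) ≠ 0 := by
  obtain ⟨n, hn, h1⟩ := h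
  rw [ndeg_eq hn]
  exact fun h => h1 ((ZMod.natCast_eq_zero_iff _ _).mp h)

/-- **Counting the characters by the invariant characters of a normal subgroup.** -/
theorem count_set {p : ℕ} [Fact p.Prime] {V G : Type} [Group V] [Fintype V] [Group G] [Finite G]
    (j : V →* G) (hj : Function.Injective j) (hn : j.range.Normal) (R : Sylow p G) (A : Set (G → ℂ))
    (hA : ∀ χ ∈ A, IsIrr χ ∧ PrimeDeg p χ) :
    Nat.card (NN R) * Nat.card A = ∑ θ ∈ (Irr V).filter (fun θ => ∀ x ∈ R, fixes j θ x),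
      Nat.card {x : G // x ∈ NN R ∧ fixes j θ x} * Nat.card {χ : G → ℂ // χ ∈ A ∧ ov j θ χ} := by
  haveI := Fintype.ofFinite G
  have h1 : Nat.card A = ((Irr G).filter (· ∈ A)).card := by
    rw [← Fintype.card_coe, ← Nat.card_eq_fintype_card]
    refine Nat.card_congr (Equiv.subtypeEquivRight fun χ => ?_)
    rw [Finset.mem_filter]
    exact ⟨fun h => ⟨mem_Irr.mpr (hA χ h).1, h⟩, fun h => h.2⟩
  have h2 : ∀ θ : V → ℂ, Nat.card {χ : G → ℂ // χ ∈ A ∧ ov j θ χ} =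
      (((Irr G).filter (· ∈ A)).filter fun χ => ov j θ χ).card := by
    intro θ
    rw [← Fintype.card_coe, ← Nat.card_eq_fintype_card]
    refine Nat.card_congr (Equiv.subtypeEquivRight fun χ => ?_)
    rw [Finset.mem_filter, Finset.mem_filter]
    exact ⟨fun h => ⟨⟨mem_Irr.mpr (hA χ h.1).1, h.1⟩, h.2⟩, fun h => ⟨h.1.2, h.2⟩⟩
  have h3 : ∀ χ ∈ (Irr G).filter (· ∈ A), Nat.card (NN R) =
      ∑ θ ∈ (Irr V).filter (fun θ => ∀ x ∈ R, fixes j θ x),
        if ov j θ χ then Nat.card {x : G // x ∈ NN R ∧ fixes j θ x} else 0 := by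
    intro χ hχ
    have h4 := hA χ (Finset.mem_filter.mp hχ).2
    rw [← Pool.Agent.K3h51.IN.t_S2a p V G j hj hn R χ h4.1 (deg_ne h4.2), ← Finset.sum_filter,
      Finset.filter_filter]
    exact Finset.sum_congr (by ext θ; simp only [Finset.mem_filter]) fun _ _ => rfl
  rw [h1, mul_comm, ← smul_eq_mul, ← Finset.sum_const, Finset.sum_congr rfl h3, Finset.sum_comm]
  refine Finset.sum_congr (by ext θ; simp only [Finset.mem_filter]) fun θ _ => ?_
  rw [← Finset.sum_filter, Finset.sum_const, smul_eq_mul, h2, mul_comm]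

section clif

variable {V L : Type} [CommGroup V] [Group L] [Finite V] [Finite L] {φ : L →* MulAut V}
  {p : ℕ} [hp : Fact p.Prime]

theorem fixes_iff' (η : V →* ℂ) (x : V ⋊[φ] L) :
    fixes (inl : V →* V ⋊[φ] L) η x ↔ x.right ∈ stL φ η := by
  constructor
  · intro h v
    exact h v (φ x.right v) (IN.conj_inl x v)
  · intro h v v' hv
    rw [IN.conj_inl] at hv
    rw [← inl_injective hv]
    exact h v

/-- the data at `η` -/
def dd (φ : L →* MulAut V) (η : V →* ℂ) : CD (V ⋊[φ] L) V (stL φ η) :=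
  semiCD φ (stL φ η).subtype (stL φ η).subtype_injective

theorem dd_stab (η : V →* ℂ) : (dd φ η).Stab η :=
  semi_stab φ _ _ η fun l => ⟨fun h => ⟨⟨l, h⟩, rfl⟩, fun ⟨g, hg⟩ => hg ▸ g.2⟩

theorem ov_T [Fintype V] (η : V →* ℂ) (χ : V ⋊[φ] L → ℂ) :
    ov (inl : V →* V ⋊[φ] L) η χ ↔ (dd φ η).T η χ 1 ≠ 0 := by
  rw [ov_iff]
  have e : IC.B (fun l => χ (inl l)) η = (dd φ η).T η χ 1 := by
    unfold IC.B CD.T CD.tf
    rw [Nat.card_eq_fintype_card]
    congr 1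
    refine Finset.sum_congr rfl fun v _ => ?_
    rw [map_one, mul_one]
    change χ (inl v) * η v⁻¹ = η v⁻¹ * χ (inl v)
    rw [mul_comm]
  rw [e]

theorem ov_T' [Fintype V] [Fintype (V ⋊[φ] L)] (η : V →* ℂ) [Fintype (stL φ η)]
    {χ : V ⋊[φ] L → ℂ} (h : IsIrr χ) :
    ov (inl : V →* V ⋊[φ] L) η χ ↔ (dd φ η).T η χ ≠ 0 := by
  rw [ov_T]
  constructor
  · intro h1 h2
    exact h1 (congrFun h2 1)
  · intro h1
    exact irr1 (CD.T_irr cardC_ne (dd_stab η) h h1)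

theorem deg_eq [Fintype V] [Fintype (V ⋊[φ] L)] (η : V →* ℂ) [Fintype (stL φ η)]
    {χ : V ⋊[φ] L → ℂ} (h : IsIrr χ) (hne : (dd φ η).T η χ ≠ 0) :
    χ 1 = (stL φ η).index * (dd φ η).T η χ 1 := by
  have h1 := deg_T (dd_stab η) h hne
  have h2 : (Nat.card (V ⋊[φ] L) : ℂ) = Nat.card V * Nat.card (stL φ η) * (stL φ η).index := by
    rw [SemidirectProduct.card, ← (stL φ η).card_mul_index]
    push_cast
    ring
  rw [h2] at h1
  have h3 : (Nat.card V * Nat.card (stL φ η) : ℂ) ≠ 0 := by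
    have h4 : (Nat.card V : ℂ) ≠ 0 := by exact_mod_cast Nat.card_pos.ne'
    have h5 : (Nat.card (stL φ η) : ℂ) ≠ 0 := by exact_mod_cast Nat.card_pos.ne'
    exact mul_ne_zero h4 h5
  apply mul_right_cancel₀ h3
  rw [h1]
  ring

theorem prime_iff [Fintype V] [Fintype (V ⋊[φ] L)] (η : V →* ℂ) [Fintype (stL φ η)]
    (hi : ¬ p ∣ (stL φ η).index)
    {χ : V ⋊[φ] L → ℂ} (h : IsIrr χ) (hne : (dd φ η).T η χ ≠ 0) :
    PrimeDeg p χ ↔ PrimeDeg p ((dd φ η).T η χ) := by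
  have h1 := deg_eq η h hne
  have h2 : IsIrr ((dd φ η).T η χ) := CD.T_irr cardC_ne (dd_stab η) h hne
  obtain ⟨m, -, hm⟩ := h2.deg
  constructor
  · rintro ⟨n, hn, h3⟩
    refine ⟨m, hm, fun h4 => h3 ?_⟩
    have h5 : n = (stL φ η).index * m := by
      rw [← hm, ← hn] at h1
      exact_mod_cast h1
    rw [h5]
    exact h4.mul_left _
  · rintro ⟨n, hn, h3⟩
    refine ⟨(stL φ η).index * n, ?_, fun h4 => ?_⟩
    · rw [h1, ← hn]
      push_cast
      rfl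
    · rcases (hp.out.dvd_mul).mp h4 with h5 | h5
      · exact hi h5
      · exact h3 h5

/-- **The characters over `η`.** -/
theorem card_over {Δ : Set (ℂ ≃+* ℂ)} (η : V →* ℂ) (hΔ : ∀ σ ∈ Δ, ∀ v, σ (η v) = η v)
    (hi : ¬ p ∣ (stL φ η).index) :
    Nat.card {χ : V ⋊[φ] L → ℂ // χ ∈ Fx Δ (XP p (V ⋊[φ] L)) ∧ ov (inl : V →* V ⋊[φ] L) η χ} =
      nf p Δ (stL φ η) := by
  haveI : Fintype V := Fintype.ofFinite V
  haveI : Fintype (V ⋊[φ] L) := Fintype.ofFinite _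
  haveI : Fintype (stL φ η) := Fintype.ofFinite _
  have hS := dd_stab (φ := φ) η
  have key : ∀ χ : V ⋊[φ] L → ℂ, χ ∈ Fx Δ (XP p (V ⋊[φ] L)) ∧ ov (inl : V →* V ⋊[φ] L) η χ →
      (dd φ η).T η χ ≠ 0 := fun χ h => (ov_T' η h.1.1.1).mp h.2
  refine Nat.card_eq_of_bijective (fun χ => (⟨(dd φ η).T η χ.1, ?_⟩ :
    Fx Δ (XP p (stL φ η)))) ⟨?_, ?_⟩
  · have h1 := key χ.1 χ.2
    have h2 := χ.2.1.1.1
    exact ⟨⟨CD.T_irr cardC_ne hS h2 h1, (prime_iff η hi h2 h1).mp χ.2.1.1.2⟩, fun σ hσ =>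
      (CD.fix_iff hS σ (hΔ σ hσ) h2 h1).mp (χ.2.1.2 σ hσ)⟩
  · rintro ⟨χ, h⟩ ⟨χ', h'⟩ he
    exact Subtype.ext (CD.T_inj hS h.1.1.1 h'.1.1.1 (congrArg Subtype.val he) (key χ h))
  · rintro ⟨ψ, ⟨h1, h2⟩, h3⟩
    obtain ⟨χ, h4, h5⟩ := CD.T_surj (D := dd φ η) cardC_ne hS h1
    have hne : (dd φ η).T η χ ≠ 0 := by
      rw [h5]
      intro h6
      exact irr1 h1 (congrFun h6 1)
    refine ⟨⟨χ, ⟨⟨h4, (prime_iff η hi h4 hne).mpr (by rw [h5]; exact h2)⟩, fun σ hσ =>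
      (CD.fix_iff hS σ (hΔ σ hσ) h4 hne).mpr (by rw [h5]; exact h3 σ hσ)⟩, (ov_T' η h4).mpr hne⟩, ?_⟩
    exact Subtype.ext h5

end clif

end Pool.Agent.Run7.h45.MC
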