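import Pool.Agent.Run7.h45.MC1

/-!
# The Sylow normalizer of a split extension of an abelian group of order prime to `p`
-/

set_option autoImplicit false
set_option linter.unusedSectionVars false
set_option linter.style.haveILetI false

open scoped BigOperators Classical

noncomputable section

namespace Pool.Agent.Run7.h45.MC

open Pool.Agent.K3h83.IN
open Pool.Agent.Helper884 Pool.Agent.K3h3.KB Pool.Agent.K3h3.MK SemidirectProduct
open Pool.Agent.H254R3.IN (IsIrr mem_Irr)
open Pool.Agent.Q90.WR (FixedBy PrimeDeg)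
open Pool.Agent.Q259.BW (pull fx_pull card_pull finite_of_irr)
open Pool.Agent.N84.MG (XP pull_XP)
open IC (Irr)
open _root_.Run7.h45 (CD stL semiCD semi_stab finite_dual irr1 deg_T cardC_ne hom_ext_fx hom_extend)

section

variable {V L : Type} [CommGroup V] [Group L] [Finite V] [Finite L] {φ : L →* MulAut V}
  {p : ℕ} [hp : Fact p.Prime]

/-- the fixed points of `P` -/
def WW (φ : L →* MulAut V) (P : Sylow p L) : Subgroup V :=
  _root_.Run7.h45.Fx (φ.comp (P : Subgroup L).subtype)

theorem mem_WW {P : Sylow p L} {v : V} : v ∈ WW φ P ↔ ∀ u ∈ P, φ u v = v :=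
  ⟨fun h u hu => h ⟨u, hu⟩, fun h u => h u u.2⟩

theorem inr_index (hV : ¬ p ∣ Nat.card V) (P : Sylow p L) :
    ¬ p ∣ ((P : Subgroup L).map (inr : L →* V ⋊[φ] L)).index := by
  have h1 := ((P : Subgroup L).map (inr : L →* V ⋊[φ] L)).card_mul_index
  have h2 : Nat.card ((P : Subgroup L).map (inr : L →* V ⋊[φ] L)) = Nat.card P :=
    (Nat.card_congr ((P : Subgroup L).equivMapOfInjective inr inr_injective).toEquiv).symm
  rw [h2, SemidirectProduct.card, ← (P : Subgroup L).card_mul_index] at h1
  have h3 : ((P : Subgroup L).map (inr : L →* V ⋊[φ] L)).index = Nat.card V * (P : Subgroup L).index := by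
    have h4 : 0 < Nat.card P := Nat.card_pos
    apply Nat.eq_of_mul_eq_mul_left h4
    rw [h1]
    ring
  rw [h3]
  intro h
  rcases (hp.out.dvd_mul).mp h with h5 | h5
  · exact hV h5
  · exact P.not_dvd_index h5

/-- the Sylow subgroup -/
def sylR (φ : L →* MulAut V) (hV : ¬ p ∣ Nat.card V) (P : Sylow p L) : Sylow p (V ⋊[φ] L) :=
  (P.isPGroup'.map (inr : L →* V ⋊[φ] L)).toSylow (inr_index hV P)

theorem mem_sylR {hV : ¬ p ∣ Nat.card V} {P : Sylow p L} {x : V ⋊[φ] L} :
    x ∈ sylR φ hV P ↔ x.left = 1 ∧ x.right ∈ P := by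
  have h1 : x ∈ sylR φ hV P ↔ x ∈ (P : Subgroup L).map (inr : L →* V ⋊[φ] L) := Iff.rfl
  rw [h1, Subgroup.mem_map]
  constructor
  · rintro ⟨u, hu, rfl⟩
    exact ⟨left_inr u, by rw [right_inr]; exact hu⟩
  · rintro ⟨h2, h3⟩
    refine ⟨x.right, h3, ?_⟩
    ext
    · rw [left_inr, h2]
    · rw [right_inr]

theorem conj_left' (x : V ⋊[φ] L) (h : L) :
    (x * inr h * x⁻¹).left = x.left * (φ (x.right * h * x.right⁻¹) x.left)⁻¹ := by
  rw [mul_left, mul_left, mul_right, left_inr, right_inr, map_one, mul_one, inv_left,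
    ← MulAut.mul_apply, ← map_mul, map_inv]

theorem conj_right' (x : V ⋊[φ] L) (h : L) :
    (x * inr h * x⁻¹).right = x.right * h * x.right⁻¹ := by
  rw [mul_right, mul_right, right_inr, inv_right]

theorem mem_NNR {hV : ¬ p ∣ Nat.card V} {P : Sylow p L} {x : V ⋊[φ] L} :
    x ∈ NN (sylR φ hV P) ↔ x.left ∈ WW φ P ∧ x.right ∈ NN P := by
  have key : ∀ x : V ⋊[φ] L, x ∈ NN (sylR φ hV P) → ∀ h ∈ P, x.right * h * x.right⁻¹ ∈ P ∧
      φ (x.right * h * x.right⁻¹) x.left = x.left := by
    intro x hx h hh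
    have h1 : (inr h : V ⋊[φ] L) ∈ (sylR φ hV P : Subgroup (V ⋊[φ] L)) :=
      mem_sylR.mpr ⟨left_inr h, by rw [right_inr]; exact hh⟩
    have h2 : x * inr h * x⁻¹ ∈ (sylR φ hV P : Subgroup (V ⋊[φ] L)) :=
      (Subgroup.mem_normalizer_iff.mp hx (inr h)).mp h1
    obtain ⟨h3, h4⟩ := mem_sylR.mp h2
    rw [conj_left', mul_inv_eq_one] at h3
    rw [conj_right'] at h4
    exact ⟨h4, h3.symm⟩
  constructor
  · intro hx
    have hx' : x⁻¹ ∈ NN (sylR φ hV P) := Subgroup.inv_mem _ hx
    have hn : ∀ h ∈ P, x.right⁻¹ * h * x.right ∈ P := by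
      intro h hh
      have h1 := (key x⁻¹ hx' h hh).1
      rwa [inv_right, inv_inv] at h1
    constructor
    · rw [mem_WW]
      intro u hu
      have h1 := (key x hx _ (hn u hu)).2
      have h2 : x.right * (x.right⁻¹ * u * x.right) * x.right⁻¹ = u := by group
      rwa [h2] at h1
    · rw [Subgroup.mem_normalizer_iff]
      intro h
      constructor
      · exact fun hh => (key x hx h hh).1
      · intro hh
        have h1 := hn _ hh
        have h2 : x.right⁻¹ * (x.right * h * x.right⁻¹) * x.right = h := by group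
        rwa [h2] at h1
  · rintro ⟨h1, h2⟩
    rw [Subgroup.mem_normalizer_iff] at h2 ⊢
    intro y
    constructor
    · intro hy
      obtain ⟨h3, h4⟩ := mem_sylR.mp hy
      have h5 : y = inr y.right := by
        ext
        · rw [h3, left_inr]
        · rw [right_inr]
      have h6 := (h2 y.right).mp h4
      refine mem_sylR.mpr ?_
      rw [h5, conj_left', conj_right', mem_WW.mp h1 _ h6, mul_inv_cancel]
      exact ⟨rfl, h6⟩
    · intro hy
      obtain ⟨h3, h4⟩ := mem_sylR.mp hy
      have h5 : (x * y * x⁻¹).right = x.right * y.right * x.right⁻¹ := by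
        rw [mul_right, mul_right, inv_right]
      rw [h5] at h4
      have h6 : y.right ∈ P := (h2 y.right).mpr h4
      refine mem_sylR.mpr ⟨?_, h6⟩
      have h7 : (x * y * x⁻¹).left = x.left * φ x.right y.left *
          (φ (x.right * y.right * x.right⁻¹) x.left)⁻¹ := by
        rw [mul_left, mul_left, mul_right, inv_left, ← MulAut.mul_apply, ← map_mul, map_inv]
      rw [h7, mem_WW.mp h1 _ h4, mul_comm x.left, mul_inv_cancel_right] at h3
      exact (MulEquiv.map_eq_one_iff (φ x.right)).mp h3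

/-- the action of the normalizer on the fixed points -/
def phiW (φ : L →* MulAut V) (P : Sylow p L) : NN P →* MulAut (WW φ P) where
  toFun g :=
    { toFun := fun w => ⟨φ g w, mem_WW.mpr fun u hu => by
        have h1 : (g : L)⁻¹ * u * g ∈ P := by
          have h2 := (Subgroup.mem_normalizer_iff.mp (Subgroup.inv_mem _ g.2) u).mp hu
          rwa [inv_inv] at h2
        have h2 := mem_WW.mp w.2 _ h1
        rw [← MulAut.mul_apply, ← map_mul]
        have h3 : u * (g : L) = g * ((g : L)⁻¹ * u * g) := by group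
        rw [h3, map_mul, MulAut.mul_apply, h2]⟩
      invFun := fun w => ⟨φ (g : L)⁻¹ w, mem_WW.mpr fun u hu => by
        have h1 : (g : L) * u * (g : L)⁻¹ ∈ P := (Subgroup.mem_normalizer_iff.mp g.2 u).mp hu
        have h2 := mem_WW.mp w.2 _ h1
        rw [← MulAut.mul_apply, ← map_mul]
        have h3 : u * (g : L)⁻¹ = (g : L)⁻¹ * ((g : L) * u * (g : L)⁻¹) := by group
        rw [h3, map_mul, MulAut.mul_apply, h2]⟩
      left_inv := fun w => by
        apply Subtype.ext
        change φ (g : L)⁻¹ (φ g w) = w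
        rw [← MulAut.mul_apply, ← map_mul, inv_mul_cancel, map_one, MulAut.one_apply]
      right_inv := fun w => by
        apply Subtype.ext
        change φ (g : L) (φ (g : L)⁻¹ w) = w
        rw [← MulAut.mul_apply, ← map_mul, mul_inv_cancel, map_one, MulAut.one_apply]
      map_mul' := fun a b => Subtype.ext (map_mul (φ g) (a : V) b) }
  map_one' := by
    ext w
    change φ (1 : L) w = w
    rw [map_one, MulAut.one_apply]
  map_mul' a b := by
    ext w
    change φ ((a : L) * b) w = φ a (φ b w)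
    rw [map_mul, MulAut.mul_apply]

theorem phiW_coe (P : Sylow p L) (g : NN P) (w : WW φ P) : ((phiW φ P g w : WW φ P) : V) = φ g w :=
  rfl

/-- the Sylow normalizer as a semidirect product -/
def eN (hV : ¬ p ∣ Nat.card V) (P : Sylow p L) :
    WW φ P ⋊[phiW φ P] NN P ≃* NN (sylR φ hV P) where
  toFun x := ⟨⟨x.left, x.right⟩, mem_NNR.mpr ⟨x.left.2, x.right.2⟩⟩
  invFun y := ⟨⟨y.1.left, (mem_NNR.mp y.2).1⟩, ⟨y.1.right, (mem_NNR.mp y.2).2⟩⟩
  left_inv x := rfl
  right_inv y := rfl
  map_mul' x y := rfl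

end

end Pool.Agent.Run7.h45.MC
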