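import Pool.Agent.Run7.h45.MC2

/-!
# The formula for the numbers of fixed characters of split extensions
-/

set_option autoImplicit false
set_option linter.unusedSectionVars false
set_option linter.style.haveILetI false

open scoped BigOperators Classical

noncomputable section

namespace Pool.Agent.Run7.h45.MC

open Pool.Agent.K3h83.IN
open Pool.Agent.Helper884 Pool.Agent.K3h3.KB Pool.Agent.K3h3.MK SemidirectProduct
open Pool.Agent.H254R3.IN (IsIrr mem_Irr)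
open Pool.Agent.Q90.WR (FixedBy PrimeDeg)
open Pool.Agent.Q259.BW (Fx pull fx_pull card_pull finite_of_irr)
open Pool.Agent.N84.MG (XP pull_XP)
open IC (Irr)
open _root_.Run7.h45 (CD stL semiCD semi_stab finite_dual irr1 deg_T cardC_ne hom_ext_fx hom_extend)

section

variable {V L : Type} [CommGroup V] [Group L] [Finite V] [Finite L] {φ : L →* MulAut V}
  {p : ℕ} [hp : Fact p.Prime]

theorem hom_irr [Fintype V] (η : V →* ℂ) : IsIrr (η : V → ℂ) := by
  have h := lin_irr η.toHomUnits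
  exact h

/-- the automorphisms fixing the values of the characters of `V` -/
theorem fix_val {m : ℕ} (hm : ∀ v : V, v ^ m = 1) {σ : ℂ ≃+* ℂ} (h : ∀ ξ : ℂ, ξ ^ m = 1 → σ ξ = ξ)
    (η : V →* ℂ) (v : V) : σ (η v) = η v := by
  apply h
  rw [← map_pow, hm, map_one]

theorem sum_hom [Fintype V] [Fintype (V →* ℂ)] {hV : ¬ p ∣ Nat.card V} (P : Sylow p L)
    (F : (V → ℂ) → ℕ) :
    ∑ θ ∈ (Irr V).filter (fun θ => ∀ x ∈ sylR φ hV P, fixes (inl : V →* V ⋊[φ] L) θ x), F θ =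
      ∑ η ∈ (Finset.univ : Finset (V →* ℂ)).filter (fun η => (P : Subgroup L) ≤ stL φ η), F η := by
  have e : (Irr V).filter (fun θ => ∀ x ∈ sylR φ hV P, fixes (inl : V →* V ⋊[φ] L) θ x) =
      ((Finset.univ : Finset (V →* ℂ)).filter (fun η => (P : Subgroup L) ≤ stL φ η)).image
        fun η v => η v := by
    ext θ
    rw [Finset.mem_filter, Finset.mem_image]
    constructor
    · rintro ⟨h1, h2⟩
      obtain ⟨l, rfl⟩ := lin_of_comm (mem_Irr.mp h1)
      refine ⟨(Units.coeHom ℂ).comp l, Finset.mem_filter.mpr ⟨Finset.mem_univ _, ?_⟩, rfl⟩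
      intro u hu
      have h3 := (fixes_iff' ((Units.coeHom ℂ).comp l) (inr u : V ⋊[φ] L)).mp
        (h2 (inr u) (mem_sylR.mpr ⟨left_inr u, by rw [right_inr]; exact hu⟩))
      rwa [right_inr] at h3
    · rintro ⟨η, hη, rfl⟩
      refine ⟨mem_Irr.mpr (hom_irr η), fun x hx => (fixes_iff' η x).mpr ?_⟩
      exact (Finset.mem_filter.mp hη).2 (mem_sylR.mp hx).2
  rw [e, Finset.sum_image fun a _ b _ h => DFunLike.coe_injective h]

theorem card_fix {hV : ¬ p ∣ Nat.card V} (P : Sylow p L) (η : V →* ℂ) :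
    Nat.card {x : V ⋊[φ] L // x ∈ NN (sylR φ hV P) ∧ fixes (inl : V →* V ⋊[φ] L) η x} =
      Nat.card (WW φ P) * Nat.card (stL φ η ⊓ NN P : Subgroup L) := by
  rw [← Nat.card_prod]
  refine Nat.card_congr
    { toFun := fun x => (⟨x.1.left, (mem_NNR.mp x.2.1).1⟩,
        ⟨x.1.right, (fixes_iff' η x.1).mp x.2.2, (mem_NNR.mp x.2.1).2⟩)
      invFun := fun y => ⟨⟨y.1, y.2⟩, mem_NNR.mpr ⟨y.1.2, y.2.2.2⟩, (fixes_iff' η _).mpr y.2.2.1⟩
      left_inv := fun _ => rfl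
      right_inv := fun _ => rfl }

theorem not_dvd_stL {P : Sylow p L} {S : Subgroup L} (h : (P : Subgroup L) ≤ S) : ¬ p ∣ S.index :=
  fun h1 => P.not_dvd_index (h1.trans (Subgroup.index_dvd_of_le h))

/-- **The sum over the characters of `V`.** -/
theorem glob (hV : ¬ p ∣ Nat.card V) {m : ℕ} (hm : ∀ v : V, v ^ m = 1) (P : Sylow p L)
    {Δ : Set (ℂ ≃+* ℂ)} (hΔ : ∀ σ ∈ Δ, ∀ ξ : ℂ, ξ ^ m = 1 → σ ξ = ξ) [Fintype (V →* ℂ)] :
    Nat.card (NN P) * nf p Δ (V ⋊[φ] L) =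
      ∑ η ∈ (Finset.univ : Finset (V →* ℂ)).filter (fun η => (P : Subgroup L) ≤ stL φ η),
        Nat.card (stL φ η ⊓ NN P : Subgroup L) * nf p Δ (stL φ η) := by
  haveI : Fintype V := Fintype.ofFinite V
  have h1 := count_set (inl : V →* V ⋊[φ] L) inl_injective IN.inl_normal (sylR φ hV P)
    (Fx Δ (XP p (V ⋊[φ] L))) fun χ h => h.1
  rw [sum_hom] at h1
  have h2 : Nat.card (NN (sylR φ hV P)) = Nat.card (WW φ P) * Nat.card (NN P) := by
    rw [← Nat.card_congr (eN hV P).toEquiv, SemidirectProduct.card]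
  have h3 : ∀ η ∈ (Finset.univ : Finset (V →* ℂ)).filter (fun η => (P : Subgroup L) ≤ stL φ η),
      Nat.card {x : V ⋊[φ] L // x ∈ NN (sylR φ hV P) ∧ fixes (inl : V →* V ⋊[φ] L) (η : V → ℂ) x} *
        Nat.card {χ : V ⋊[φ] L → ℂ // χ ∈ Fx Δ (XP p (V ⋊[φ] L)) ∧
          ov (inl : V →* V ⋊[φ] L) (η : V → ℂ) χ} =
      Nat.card (WW φ P) * (Nat.card (stL φ η ⊓ NN P : Subgroup L) * nf p Δ (stL φ η)) := by
    intro η hη
    rw [card_fix, card_over η (fun σ hσ v => fix_val hm (hΔ σ hσ) η v)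
      (not_dvd_stL (Finset.mem_filter.mp hη).2), mul_assoc]
  rw [Finset.sum_congr rfl h3, ← Finset.mul_sum, h2, mul_assoc] at h1
  exact Nat.eq_of_mul_eq_mul_left Nat.card_pos h1

/-! ### the local formula -/

theorem cop (hV : ¬ p ∣ Nat.card V) (P : Sylow p L) [Fintype V] [Fintype P] :
    Nat.Coprime (Fintype.card P) (Fintype.card V) := by
  rw [← Nat.card_eq_fintype_card, ← Nat.card_eq_fintype_card]
  obtain ⟨n, hn⟩ := IsPGroup.iff_card.mp P.isPGroup'
  have h1 : Nat.card P = Nat.card (P : Subgroup L) := rfl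
  rw [h1, hn]
  exact Nat.Coprime.pow_left _ ((Nat.Prime.coprime_iff_not_dvd hp.out).mpr hV)

theorem stW (hV : ¬ p ∣ Nat.card V) (P : Sylow p L) {η : V →* ℂ}
    (hη : (P : Subgroup L) ≤ stL φ η) :
    stL (phiW φ P) (η.comp (WW φ P).subtype) = (stL φ η).subgroupOf (NN P) := by
  haveI : Fintype V := Fintype.ofFinite V
  haveI : Fintype P := Fintype.ofFinite P
  ext g
  rw [Subgroup.mem_subgroupOf]
  constructor
  · intro h v
    have h1 : η.comp (φ (g : L)).toMonoidHom = η := by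
      refine hom_ext_fx (cop hV P) (φ.comp (P : Subgroup L).subtype) (fun u v => ?_)
        (fun u v => hη u.2 v) fun v hv => ?_
      · change η (φ (g : L) (φ (u : L) v)) = η (φ (g : L) v)
        rw [← MulAut.mul_apply, ← map_mul]
        have h3 : (g : L) * u = (g * u * (g : L)⁻¹) * g := by group
        rw [h3, map_mul, MulAut.mul_apply]
        exact hη ((Subgroup.mem_normalizer_iff.mp g.2 u).mp u.2) _
      · exact h ⟨v, hv⟩
    exact DFunLike.congr_fun h1 v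
  · intro h w
    exact h w

theorem sum_W (hV : ¬ p ∣ Nat.card V) (P : Sylow p L) [Fintype (V →* ℂ)]
    [Fintype (WW φ P →* ℂ)] (F : (WW φ P →* ℂ) → ℕ) :
    ∑ η ∈ (Finset.univ : Finset (V →* ℂ)).filter (fun η => (P : Subgroup L) ≤ stL φ η),
        F (η.comp (WW φ P).subtype) = ∑ η' : WW φ P →* ℂ, F η' := by
  haveI : Fintype V := Fintype.ofFinite V
  haveI : Fintype P := Fintype.ofFinite P
  refine Finset.sum_bij (fun η _ => η.comp (WW φ P).subtype) (fun _ _ => Finset.mem_univ _) ?_ ?_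
    fun _ _ => rfl
  · intro η hη η' hη' h
    refine hom_ext_fx (cop hV P) (φ.comp (P : Subgroup L).subtype)
      (fun u v => (Finset.mem_filter.mp hη).2 u.2 v)
      (fun u v => (Finset.mem_filter.mp hη').2 u.2 v) fun v hv => ?_
    exact DFunLike.congr_fun h ⟨v, hv⟩
  · intro η' _
    obtain ⟨η, h1, h2⟩ := hom_extend (cop hV P) (φ.comp (P : Subgroup L).subtype) η'
    refine ⟨η, Finset.mem_filter.mpr ⟨Finset.mem_univ _, fun u hu v => h1 ⟨u, hu⟩ v⟩, ?_⟩
    ext w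
    exact h2 w w.2

/-- **The local formula.** -/
theorem locf (hV : ¬ p ∣ Nat.card V) {m : ℕ} (hm : ∀ v : V, v ^ m = 1) (P : Sylow p L)
    {Δ : Set (ℂ ≃+* ℂ)} (hΔ : ∀ σ ∈ Δ, ∀ ξ : ℂ, ξ ^ m = 1 → σ ξ = ξ) [Fintype (V →* ℂ)] :
    Nat.card (NN P) * nf p Δ (NN (sylR φ hV P)) =
      ∑ η ∈ (Finset.univ : Finset (V →* ℂ)).filter (fun η => (P : Subgroup L) ≤ stL φ η),
        Nat.card (stL φ η ⊓ NN P : Subgroup L) * nf p Δ (stL φ η ⊓ NN P : Subgroup L) := by
  haveI : Finite (WW φ P →* ℂ) := finite_dual _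
  haveI : Fintype (WW φ P →* ℂ) := Fintype.ofFinite _
  have hW : Nat.card (WW φ P) ∣ Nat.card V := Subgroup.card_subgroup_dvd_card _
  set P' : Sylow p (NN P) := P.subtype Subgroup.le_normalizer with hP'
  have hnP : NN P' = ⊤ := by
    rw [eq_top_iff]
    intro g _
    rw [mem_NN_subtype]
    exact g.2
  have h1 := glob (φ := phiW φ P) (p := p) (fun h => hV (h.trans hW)) (m := m)
    (fun w => Subtype.ext (hm w)) P' (Δ := Δ) hΔ
  have h2 : (Finset.univ : Finset (WW φ P →* ℂ)).filter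
      (fun η => (P' : Subgroup (NN P)) ≤ stL (phiW φ P) η) = Finset.univ := by
    rw [Finset.filter_true_of_mem]
    intro η' _ u hu w
    have h3 : phiW φ P u w = w := by
      apply Subtype.ext
      rw [phiW_coe]
      exact mem_WW.mp w.2 u (by exact hu)
    rw [h3]
  rw [h2, ← sum_W hV P, hnP, Subgroup.card_top, nf_congr (p := p) (eN hV P)] at h1
  rw [h1]
  refine Finset.sum_congr rfl fun η hη => ?_
  rw [stW hV P (Finset.mem_filter.mp hη).2, inf_top_eq]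
  have e : (stL φ η).subgroupOf (NN P) ≃* (stL φ η ⊓ NN P : Subgroup L) :=
    { toFun := fun x => ⟨x.1.1, x.2, x.1.2⟩
      invFun := fun y => ⟨⟨y.1, y.2.2⟩, y.2.1⟩
      left_inv := fun _ => rfl
      right_inv := fun _ => rfl
      map_mul' := fun _ _ => rfl }
  rw [Nat.card_congr e.toEquiv, nf_congr (p := p) e]

/-- **The difference.** -/
theorem diff (hV : ¬ p ∣ Nat.card V) {m : ℕ} (hm : ∀ v : V, v ^ m = 1) (P : Sylow p L)
    {Δ : Set (ℂ ≃+* ℂ)} (hΔ : ∀ σ ∈ Δ, ∀ ξ : ℂ, ξ ^ m = 1 → σ ξ = ξ) [Fintype (V →* ℂ)] :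
    (Nat.card (NN P) : ℤ) * ((nf p Δ (V ⋊[φ] L) : ℤ) - nf p Δ (NN (sylR φ hV P))) =
      ∑ η ∈ (Finset.univ : Finset (V →* ℂ)).filter (fun η => (P : Subgroup L) ≤ stL φ η),
        (Nat.card (stL φ η ⊓ NN P : Subgroup L) : ℤ) *
          ((nf p Δ (stL φ η) : ℤ) - nf p Δ (stL φ η ⊓ NN P : Subgroup L)) := by
  have h1 := glob (φ := φ) hV hm P hΔ
  have h2 := locf (φ := φ) hV hm P hΔ
  rw [mul_sub]
  have h3 : (Nat.card (NN P) : ℤ) * (nf p Δ (V ⋊[φ] L) : ℤ) =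
      ((Nat.card (NN P) * nf p Δ (V ⋊[φ] L) : ℕ) : ℤ) := by push_cast; rfl
  have h4 : (Nat.card (NN P) : ℤ) * (nf p Δ (NN (sylR φ hV P)) : ℤ) =
      ((Nat.card (NN P) * nf p Δ (NN (sylR φ hV P)) : ℕ) : ℤ) := by push_cast; rfl
  rw [h3, h4, h1, h2, Nat.cast_sum, Nat.cast_sum, ← Finset.sum_sub_distrib]
  refine Finset.sum_congr rfl fun η _ => ?_
  push_cast
  ring

/-- **The difference in the minimal case.** -/
theorem diff_min (hV : ¬ p ∣ Nat.card V) {m : ℕ} (hm : ∀ v : V, v ^ m = 1) (P : Sylow p L)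
    {Δ : Set (ℂ ≃+* ℂ)} (hΔ : ∀ σ ∈ Δ, ∀ ξ : ℂ, ξ ^ m = 1 → σ ξ = ξ)
    (hmin : ∀ S : Subgroup L, (P : Subgroup L) ≤ S → S ≠ ⊤ →
      nf p Δ S = nf p Δ (S ⊓ NN P : Subgroup L)) :
    (nf p Δ (V ⋊[φ] L) : ℤ) - nf p Δ (NN (sylR φ hV P)) =
      Nat.card {η : V →* ℂ // stL φ η = ⊤} * ((nf p Δ L : ℤ) - nf p Δ (NN P)) := by
  haveI : Finite (V →* ℂ) := finite_dual V
  haveI : Fintype (V →* ℂ) := Fintype.ofFinite _
  have h1 := diff (φ := φ) hV hm P hΔ
  have h2 : ∀ η ∈ (Finset.univ : Finset (V →* ℂ)).filter (fun η => (P : Subgroup L) ≤ stL φ η),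
      (Nat.card (stL φ η ⊓ NN P : Subgroup L) : ℤ) *
          ((nf p Δ (stL φ η) : ℤ) - nf p Δ (stL φ η ⊓ NN P : Subgroup L)) =
        if stL φ η = ⊤ then (Nat.card (NN P) : ℤ) * ((nf p Δ L : ℤ) - nf p Δ (NN P)) else 0 := by
    intro η hη
    split_ifs with h3
    · rw [h3, top_inf_eq, nf_congr (p := p) (Subgroup.topEquiv : (⊤ : Subgroup L) ≃* L)]
    · rw [hmin _ (Finset.mem_filter.mp hη).2 h3, sub_self, mul_zero]
  rw [Finset.sum_congr rfl h2, ← Finset.sum_filter, Finset.sum_const, nsmul_eq_mul] at h1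
  have h3 : (((Finset.univ : Finset (V →* ℂ)).filter
      (fun η => (P : Subgroup L) ≤ stL φ η)).filter fun η => stL φ η = ⊤).card =
      Nat.card {η : V →* ℂ // stL φ η = ⊤} := by
    rw [Nat.card_eq_fintype_card, Fintype.card_subtype]
    congr 1
    ext η
    simp only [Finset.mem_filter, Finset.mem_univ, true_and]
    constructor
    · exact fun h => h.2
    · intro h
      exact ⟨by rw [h]; exact le_top, h⟩
  rw [h3] at h1
  have h4 : (Nat.card (NN P) : ℤ) ≠ 0 := by exact_mod_cast Nat.card_pos.ne'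
  apply mul_left_cancel₀ h4
  rw [h1]
  ring

end

end Pool.Agent.Run7.h45.MC
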