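import Pool.Agent.Run7.h45.Star

/-!
# The orbit of homomorphisms under a weight
-/

set_option autoImplicit false
set_option linter.unusedSectionVars false

open scoped Classical BigOperators

noncomputable section

namespace Run7.h45

open Pool.Agent.Y63.NV Pool.Agent.N85.WM
open Pool.Agent.Y63.AWC (IsIrreducibleCharacter)
open Pool.Agent.Y930.NV (Cf om R Cf_out Cf_expand mk_out Cf_ind om_sum om_int ind_cast
  redC_sum redC_mul redC_of irr_one_ne irr_Cf)

variable {Γ V G : Type} [Group Γ] [CommGroup V] [Group G] {D : CD Γ V G}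

/-- the elements of `V` centralised by `P` -/
def CD.cP (D : CD Γ V G) (P : Subgroup Γ) : Subgroup V where
  carrier := {v | ∀ u ∈ P, D.c u v = v}
  one_mem' := fun q _ => map_one _
  mul_mem' := fun {x y} hx hy q hq => by rw [map_mul, hx q hq, hy q hq]
  inv_mem' := fun {x} hx q hq => by rw [map_inv, hx q hq]

theorem CD.mem_cP {P : Subgroup Γ} {v : V} : v ∈ D.cP P ↔ ∀ u ∈ P, D.c u v = v := Iff.rfl

theorem CD.iP_norm {P : Subgroup Γ} {v : V} (hv : v ∈ D.cP P) :
    D.i v ∈ Subgroup.normalizer (P : Set Γ) := by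
  have h1 : ∀ u ∈ P, D.i v * u * (D.i v)⁻¹ = u := by
    intro u hu
    rw [← D.c_eq_iff.1 (hv u hu), mul_inv_cancel_right]
  rw [Subgroup.mem_normalizer_iff]
  intro u
  constructor
  · intro hu
    rw [h1 u hu]
    exact hu
  · intro hu
    have h2 := h1 _ hu
    have h3 : D.i v * u * (D.i v)⁻¹ = u := mul_left_cancel (mul_right_cancel h2)
    rwa [h3] at hu

/-- the embedding of `C_V(P)` in the normalizer -/
def CD.iP (D : CD Γ V G) (P : Subgroup Γ) : D.cP P →* Subgroup.normalizer (P : Set Γ) :=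
  (D.i.comp (D.cP P).subtype).codRestrict _ fun v => D.iP_norm v.2

theorem CD.iP_coe {P : Subgroup Γ} (v : D.cP P) : ((D.iP P v : Subgroup.normalizer (P : Set Γ)) : Γ) = D.i v :=
  rfl

theorem CD.cP_c {P : Subgroup Γ} {y : Γ} (hy : y ∈ Subgroup.normalizer (P : Set Γ)) {v : V}
    (hv : v ∈ D.cP P) : D.c y v ∈ D.cP P := by
  intro u hu
  have h1 := hv _ (norm_conj_mem hy hu)
  rw [← MulAut.mul_apply, ← map_mul]
  have h2 : u * y = y * (y⁻¹ * u * y) := by group
  rw [h2, map_mul, MulAut.mul_apply, h1]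

variable [Finite Γ] [Fintype V] {P : Subgroup Γ}

/-- the Fourier coefficient of `χ` -/
def CD.S (D : CD Γ V G) (P : Subgroup Γ) (χ : Subgroup.normalizer (P : Set Γ) → ℂ)
    (η : D.cP P →* ℂ) : ℂ := ∑ u, η u⁻¹ * χ (D.iP P u)

theorem CD.sum_supp [Fintype (Subgroup.normalizer (P : Set Γ))] {K : Type} [Field K]
    (h : Subgroup.normalizer (P : Set Γ) → K) (h0 : ∀ y, (¬ ∃ u, y = D.iP P u) → h y = 0) :
    ∑ y, h y = ∑ u, h (D.iP P u) := by
  have he : Function.Injective (D.iP P) := by
    intro a b hab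
    exact Subtype.ext (D.i_inj (congrArg Subtype.val hab))
  rw [← Finset.sum_image (s := Finset.univ) (g := D.iP P) (f := h) (fun a _ b _ hab => he hab)]
  symm
  refine Finset.sum_subset (Finset.subset_univ _) fun y _ hy => h0 y ?_
  rintro ⟨u, rfl⟩
  exact hy (Finset.mem_image.mpr ⟨u, Finset.mem_univ _, rfl⟩)

theorem CD.om_S [Fintype (Subgroup.normalizer (P : Set Γ))]
    {χ : Subgroup.normalizer (P : Set Γ) → ℂ} (hχ : IsIrreducibleCharacter χ) {η : D.cP P →* ℂ}
    (hne : D.S P χ η ≠ 0) {f : Subgroup.normalizer (P : Set Γ) → ℂ} (hf : Cf f)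
    (h0 : ∀ y, (¬ ∃ u, y = D.iP P u) → f y = 0) : om χ f = ∑ u, f (D.iP P u) * η u := by
  refine mul_right_cancel₀ hne ?_
  have h1 : om χ f * D.S P χ η = ∑ w, η w⁻¹ * ∑ u, f (D.iP P u) * χ (D.iP P u * D.iP P w) := by
    unfold CD.S
    rw [Finset.mul_sum]
    refine Finset.sum_congr rfl fun w _ => ?_
    rw [mul_left_comm, ← irr_act hχ hf, D.sum_supp]
    intro y hy
    rw [h0 y hy, zero_mul]
  rw [h1]
  simp_rw [Finset.mul_sum]
  rw [Finset.sum_comm, Finset.sum_mul]
  refine Finset.sum_congr rfl fun u _ => ?_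
  unfold CD.S
  rw [Finset.mul_sum]
  refine Fintype.sum_equiv (Equiv.mulLeft u) _ _ fun w => ?_
  rw [Equiv.coe_mulLeft, mul_inv_rev, map_mul η, ← map_mul]
  have h2 : η u * η u⁻¹ = 1 := by rw [← map_mul, mul_inv_cancel, map_one]
  linear_combination (-(η w⁻¹ * f (D.iP P u) * χ (D.iP P (u * w)))) * h2

/-- the central character of a weight at the functions supported on `C_V(P)` -/
theorem CD.cv_S {F : Type} [Field F] (red : integralClosure ℤ ℂ →+* F)
    {χ : Subgroup.normalizer (P : Set Γ) → ℂ} (hχ : IsIrreducibleCharacter χ) {η : D.cP P →* ℂ}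
    (hne : D.S P χ η ≠ 0) {f : Subgroup.normalizer (P : Set Γ) → F} (hf : IsClassFun f)
    (h0 : ∀ y, (¬ ∃ u, y = D.iP P u) → f y = 0) :
    centralValue red χ f = ∑ u, f (D.iP P u) * redH red η u := by
  have : Fintype (Subgroup.normalizer (P : Set Γ)) := Fintype.ofFinite _
  rw [cv_eq' red hχ]
  have h1 : ∀ C : ConjClasses (Subgroup.normalizer (P : Set Γ)),
      f C.out * R red χ (Pool.Agent.Y930.NV.ind ℤ C) = f C.out * ∑ u, Pool.Agent.Y930.NV.ind F C (D.iP P u) * redH red η u := by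
    intro C
    by_cases hC : f C.out = 0
    · rw [hC, zero_mul, zero_mul]
    · congr 1
      unfold R
      have h2 : ∀ y, (¬ ∃ u, y = D.iP P u) → Pool.Agent.Y930.NV.ind ℂ C y = 0 := by
        intro y hy
        unfold Pool.Agent.Y930.NV.ind
        rw [if_neg]
        intro h3
        apply hC
        rw [Cf_out (f := f) hf h3]
        exact h0 y hy
      rw [ind_cast, D.om_S hχ hne (Cf_ind ℂ C) h2]
      have h3 : ∀ u, IsIntegral ℤ (Pool.Agent.Y930.NV.ind ℂ C (D.iP P u)) := by
        intro u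
        unfold Pool.Agent.Y930.NV.ind
        split_ifs
        · exact isIntegral_one
        · exact isIntegral_zero
      rw [redC_sum red _ _ fun u _ => (h3 u).mul (hom_int η u)]
      refine Finset.sum_congr rfl fun u _ => ?_
      rw [redC_mul red (h3 u) (hom_int η u)]
      congr 1
      unfold Pool.Agent.Y930.NV.ind
      split_ifs
      · exact Pool.Agent.Y930.NV.redC_one red
      · exact Pool.Agent.Y930.NV.redC_zero red
  rw [Finset.sum_congr rfl fun C _ => h1 C]
  simp_rw [Finset.mul_sum]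
  rw [Finset.sum_comm]
  refine Finset.sum_congr rfl fun u _ => ?_
  rw [Cf_expand (f := f) hf (D.iP P u), Finset.sum_mul]
  exact Finset.sum_congr (by ext; simp) fun C _ => by ring

end Run7.h45
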