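import Pool.Agent.Run7.h45.QP3

/-!
# Growth for primitive groups
-/

set_option autoImplicit false
set_option linter.unusedSectionVars false

open scoped Classical BigOperators

noncomputable section

namespace Run7.h45.QP

open Run7.h45.PV (Prim semi_prim)

section ge

variable {p n : ℕ} (F : Fnl p n) (s : ℤ)

theorem D_ge {V L : Type} [CommGroup V] [Group L] [Finite V] [Finite L] (φ : L →* MulAut V)
    (hV : ∀ v : V, v ^ n = 1) (h : ∀ θ : V →* ℂ, Gd F s (stL φ θ)) (N : Subgroup L)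
    (hN : N.Normal) (hp : ¬ p ∣ N.index)
    (h1 : ∀ θ : V →* ℂ, N ≤ stL φ θ → 1 ≤ s * F.D (stL φ θ)) :
    (Nat.card {θ : V →* ℂ // N ≤ stL φ θ} : ℤ) ≤ Nat.card L * (s * F.D (V ⋊[φ] L)) := by
  obtain ⟨w, g1, g2, -, g3⟩ := F.semi φ hV
  have : Finite (V →* ℂ) := finite_dual V
  have : Fintype (V →* ℂ) := Fintype.ofFinite _
  rw [finsum_eq_sum_of_fintype] at g3
  have hL : (0 : ℚ) < Nat.card L := by exact_mod_cast (Nat.card_pos (α := L))
  have key : ((Nat.card {θ : V →* ℂ // N ≤ stL φ θ} : ℕ) : ℚ) ≤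
      Nat.card L * (s * F.D (V ⋊[φ] L)) := by
    rw [g3, Finset.mul_sum, Finset.mul_sum, Nat.card_eq_fintype_card, Fintype.card_subtype,
      Finset.card_eq_sum_ones, Nat.cast_sum, Finset.sum_filter]
    refine Finset.sum_le_sum fun θ _ => ?_
    have h4 : (0 : ℚ) ≤ ((s * F.D (stL φ θ) : ℤ) : ℚ) := by exact_mod_cast h θ
    push_cast at h4
    split_ifs with h5
    · have h6 : (1 : ℚ) ≤ ((s * F.D (stL φ θ) : ℤ) : ℚ) := by exact_mod_cast h1 θ h5
      push_cast at h6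
      have h7 := g2 θ N hN hp h5
      calc ((1 : ℕ) : ℚ) = Nat.card L * (1 / (Nat.card L : ℚ) * 1) := by
            rw [mul_one, mul_one_div_cancel hL.ne', Nat.cast_one]
        _ ≤ Nat.card L * (w θ * (s * F.D (stL φ θ))) :=
            mul_le_mul_of_nonneg_left (mul_le_mul h7 h6 zero_le_one (g1 θ)) hL.le
        _ = _ := by ring
    · calc (0 : ℚ) ≤ Nat.card L * (w θ * (s * F.D (stL φ θ))) :=
            mul_nonneg hL.le (mul_nonneg (g1 θ) h4)
        _ = _ := by ring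
  exact_mod_cast key

end ge

section main

variable {p n e : ℕ} [hp : Fact p.Prime] [he : Fact e.Prime] (F : Fnl p n) {W : Type} [CommGroup W]
  [Finite W] (S : Seed W (Cy e)) (hen : e ∣ n) (hW : ∀ w : W, w ^ n = 1) {L : Type} [Group L]
  [Finite L]

/-- the group `L × T` -/
abbrev XX (e k : ℕ) (L : Type) : Type := L × TT e k

/-- the point stabilizers -/
abbrev Mk (e k : ℕ) (L : Type) [Group L] : Type := MM (Cy e) (XX e k L) (XX e k L)

/-- the groups -/
abbrev Hk {W : Type} [CommGroup W] {e : ℕ} (S : Seed W (Cy e)) (k : ℕ) (L : Type) [Group L] :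
    Type := (XX e k L → W) ⋊[mo S (X := XX e k L)] Mk e k L

include hen in
theorem cy_pow (a : Cy e) : a ^ n = 1 := by
  obtain ⟨m, rfl⟩ := hen
  rw [pow_mul]
  have h1 : a ^ e = 1 := by
    change e • (a.toAdd : ZMod e) = 0
    rw [nsmul_eq_mul, CharP.cast_eq_zero, zero_mul]
  rw [h1, one_pow]

include hen in
theorem gd_stab (s : ℤ) (h1 : Gd F s L) (h0 : ∀ K : Subgroup L, K ≠ ⊤ → F.D K = 0) (k : ℕ)
    (θ : (XX e k L → W) →* ℂ) : Gd F s (stL (mo S (X := XX e k L)) θ) := by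
  obtain ⟨A, Y, ψ, hA⟩ := stab_struct S (X := XX e k L) θ
  obtain ⟨e1⟩ := hA
  refine gd_iso F s ⟨e1.symm⟩ (gd_semi F s ψ (fun a => ?_) fun Z =>
    gd_sub F s (gd_prod F s hen h1 h0) Y Z)
  apply Subtype.ext
  rw [Subgroup.coe_pow]
  funext x
  rw [Pi.pow_apply]
  exact cy_pow hen _

/-- the characters which are constant on the cosets of `L` -/
def lam (k : ℕ) (c : TT e k → (Cy e →* ℂ)) : (XX e k L → Cy e) →* ℂ where
  toFun f := ∏ᶠ x : XX e k L, c x.2 (f x)
  map_one' := by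
    simp
  map_mul' v w := by
    rw [← finprod_mul_distrib (Set.toFinite _) (Set.toFinite _)]
    exact finprod_congr fun ω => map_mul _ _ _

theorem lam_inj (k : ℕ) : Function.Injective (lam (e := e) (L := L) k) := by
  intro c c' h
  funext t
  refine MonoidHom.ext fun a => ?_
  have h1 : ∀ c : TT e k → (Cy e →* ℂ), lam (L := L) k c (Pi.mulSingle (1, t) a) = c t a := by
    intro c
    have : Fintype (XX e k L) := Fintype.ofFinite _
    change ∏ᶠ x : XX e k L, c x.2 ((Pi.mulSingle (1, t) a : XX e k L → Cy e) x) = _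
    rw [finprod_eq_prod_of_fintype, Finset.prod_eq_single ((1 : L), t)]
    · rw [Pi.mulSingle_eq_same]
    · intro x _ hx
      rw [Pi.mulSingle_eq_of_ne hx, map_one]
    · intro h2
      exact absurd (Finset.mem_univ _) h2
  rw [← h1 c, ← h1 c', h]

/-- the subgroup `L` of `L × T` -/
def NL (e k : ℕ) (L : Type) [Group L] : Subgroup (XX e k L) := (MonoidHom.snd L (TT e k)).ker

instance (k : ℕ) : (NL e k L).Normal := MonoidHom.normal_ker _

theorem lam_mem (k : ℕ) (c : TT e k → (Cy e →* ℂ)) :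
    NL e k L ≤ stL (arr (XX e k L) (XX e k L) (Cy e)) (lam k c) := by
  rintro ⟨l, t⟩ ht f
  have ht' : t = 1 := ht
  subst ht'
  have : Fintype (XX e k L) := Fintype.ofFinite _
  change ∏ᶠ x : XX e k L, c x.2 (f ((l, (1 : TT e k))⁻¹ • x)) = ∏ᶠ x : XX e k L, c x.2 (f x)
  rw [finprod_eq_prod_of_fintype, finprod_eq_prod_of_fintype,
    ← Equiv.prod_comp (Equiv.mulLeft ((l, (1 : TT e k)) : XX e k L))]
  refine Finset.prod_congr rfl fun x _ => ?_
  rw [Equiv.coe_mulLeft, smul_eq_mul, inv_mul_cancel_left]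
  change c (1 * x.2) (f x) = _
  rw [one_mul]

theorem index_NL (k : ℕ) : (NL e k L).index = e ^ k := by
  unfold NL
  rw [Subgroup.index_ker, MonoidHom.range_eq_top.mpr Prod.snd_surjective, Subgroup.card_top,
    card_TT]

include hen in
/-- **The lower bound.** -/
theorem Hk_ge (hpe : ¬ p ∣ e) (s : ℤ) (h1 : 0 < s * F.D L)
    (h0 : ∀ K : Subgroup L, K ≠ ⊤ → F.D K = 0) (hW : ∀ w : W, w ^ n = 1) (k : ℕ) :
    (2 : ℤ) ^ (e ^ k) ≤ (Nat.card L * e ^ k : ℕ) * (s * F.D (Hk S k L)) := by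
  have hgl : Gd F s L := h1.le
  have g1 : s * F.D (Mk e k L) ≤ s * F.D (Hk S k L) := by
    refine D_le F s (mo S (X := XX e k L)) (fun v => ?_) fun θ => gd_stab F S hen s hgl h0 k θ
    funext x
    rw [Pi.pow_apply]
    exact hW _
  have hY : ∀ Y : Subgroup (XX e k L), NL e k L ≤ Y → 1 ≤ s * F.D Y := fun Y hY =>
    one_le_prod F s hen h1 hp.out.ne_one Y fun l => hY (by
      change (1 : TT e k) = 1
      rfl)
  have g2 := D_ge F s (arr (XX e k L) (XX e k L) (Cy e)) (fun f => by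
      funext x
      rw [Pi.pow_apply]
      exact cy_pow hen _) (fun θ => gd_prod F s hen hgl h0 _) (NL e k L) inferInstance
    (by
      rw [index_NL]
      exact fun h => hpe (hp.out.dvd_of_dvd_pow h)) fun θ hθ => hY _ hθ
  have g3 : e ^ e ^ k ≤ Nat.card {θ : (XX e k L → Cy e) →* ℂ //
      NL e k L ≤ stL (arr (XX e k L) (XX e k L) (Cy e)) θ} := by
    have hf : Finite ((XX e k L → Cy e) →* ℂ) := finite_dual _
    have hf' : Finite (Cy e →* ℂ) := finite_dual _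
    have h2 : Nat.card (TT e k → (Cy e →* ℂ)) = e ^ e ^ k := by
      rw [Nat.card_fun, card_dual, card_cy, card_TT]
    rw [← h2]
    exact Nat.card_le_card_of_injective (fun c => ⟨lam k c, lam_mem k c⟩) fun c c' h =>
      lam_inj k (congrArg Subtype.val h)
  have g4 : Nat.card (XX e k L) = Nat.card L * e ^ k := by
    rw [Nat.card_prod, card_TT]
  rw [g4] at g2
  have g5 : (2 : ℕ) ^ e ^ k ≤ e ^ e ^ k := Nat.pow_le_pow_left he.out.two_le _
  calc (2 : ℤ) ^ (e ^ k) ≤ ((Nat.card {θ : (XX e k L → Cy e) →* ℂ //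
      NL e k L ≤ stL (arr (XX e k L) (XX e k L) (Cy e)) θ} : ℕ) : ℤ) := by
        exact_mod_cast g5.trans g3
    _ ≤ (Nat.card L * e ^ k : ℕ) * (s * F.D (Mk e k L)) := g2
    _ ≤ _ := mul_le_mul_of_nonneg_left g1 (by positivity)

/-- `H` has a maximal subgroup `M` in `C` with trivial core and an abelian normal subgroup `V` of
exponent dividing `r` which is a complement of `M`. -/
def PrimC (r : ℕ) (C : ∀ (G : Type) [Group G], Prop) (H : Type) [Group H] : Prop :=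
  ∃ V M : Subgroup H, IsCoatom M ∧ M.normalCore = ⊥ ∧ V.Normal ∧ (∀ x ∈ V, ∀ y ∈ V, x * y = y * x) ∧
    (∀ x ∈ V, x ^ r = 1) ∧ V.IsComplement' M ∧ C M

/-- the class `C` is closed under isomorphisms, subgroups and split extensions of elementary abelian
`e`-groups -/
structure Cls (e : ℕ) (C : ∀ (G : Type) [Group G], Prop) : Prop where
  iso : ∀ (G H : Type) [Group G] [Group H], Nonempty (G ≃* H) → C G → C H
  sub : ∀ (G : Type) [Group G] (H : Subgroup G), C G → C H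
  ext : ∀ (V L : Type) [CommGroup V] [Group L] [Finite V] [Finite L] (φ : L →* MulAut V),
    (∀ v : V, v ^ e = 1) → C L → C (V ⋊[φ] L)

theorem Hk_prim {r : ℕ} (hr : ∀ w : W, w ^ r = 1) {C : ∀ (G : Type) [Group G], Prop}
    (hC : Cls e C) (hL : C L) (k : ℕ) : PrimC r C (Hk S k L) := by
  obtain ⟨w, hw⟩ := S.nt
  have : Nontrivial W := ⟨w, 1, hw⟩
  have hX : C (XX e k L) := by
    refine hC.iso (TT e k ⋊[(1 : L →* MulAut (TT e k))] L) _
      ⟨(prodSemi _ _).symm.trans MulEquiv.prodComm⟩ (hC.ext _ _ _ (TT_pow k) hL)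
  have hM : C (Mk e k L) := hC.ext _ _ _ (fun f => by
    funext x
    rw [Pi.pow_apply]
    exact cy_pow (dvd_refl e) _) hX
  have hinr : C (SemidirectProduct.inr : Mk e k L →* Hk S k L).range :=
    hC.iso _ _ ⟨MonoidHom.ofInjective SemidirectProduct.inr_injective⟩ hM
  refine ⟨(SemidirectProduct.inl : (XX e k L → W) →* Hk S k L).range, _,
    Run7.h45.PV.semi_coatom _ (mo_irr S), Run7.h45.PV.semi_core _ (mo_inj S), ?_, ?_, ?_, ?_, hinr⟩
  · rw [SemidirectProduct.range_inl_eq_ker_rightHom]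
    infer_instance
  · rintro _ ⟨v, rfl⟩ _ ⟨w, rfl⟩
    rw [← map_mul, ← map_mul, mul_comm]
  · rintro _ ⟨v, rfl⟩
    rw [← map_pow]
    have h1 : v ^ r = 1 := by
      funext x
      rw [Pi.pow_apply]
      exact hr _
    rw [h1, map_one]
  · refine Subgroup.isComplement'_of_disjoint_and_mul_eq_univ ?_ ?_
    · rw [disjoint_iff, eq_bot_iff]
      rintro y ⟨⟨v, hv⟩, ⟨l, hl⟩⟩
      have h1 := congrArg SemidirectProduct.right hv
      have h2 := congrArg SemidirectProduct.right hl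
      rw [SemidirectProduct.right_inl] at h1
      rw [SemidirectProduct.right_inr, ← h1] at h2
      rw [Subgroup.mem_bot, ← hl, h2, map_one]
    · rw [Set.eq_univ_iff_forall]
      intro y
      exact ⟨_, ⟨y.left, rfl⟩, _, ⟨y.right, rfl⟩, SemidirectProduct.inl_left_mul_inr_right y⟩

theorem Hk_card (k : ℕ) : Nat.card (Hk S k L) ≤
    (Nat.card W ^ Nat.card L * e ^ Nat.card L * Nat.card L * 2) ^ (e ^ k) := by
  have h1 : Nat.card (Hk S k L) = Nat.card W ^ (Nat.card L * e ^ k) *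
      (e ^ (Nat.card L * e ^ k) * (Nat.card L * e ^ k)) := by
    rw [SemidirectProduct.card, SemidirectProduct.card, Nat.card_fun, Nat.card_fun, card_cy,
      Nat.card_prod, card_TT]
  have h2 : Nat.card L ≤ Nat.card L ^ (e ^ k) :=
    Nat.le_self_pow (pow_pos he.out.pos _).ne' _
  have h3 : e ^ k ≤ 2 ^ (e ^ k) := Nat.lt_two_pow_self.le
  rw [h1, mul_pow, mul_pow, mul_pow, ← pow_mul, ← pow_mul]
  calc _ ≤ Nat.card W ^ (Nat.card L * e ^ k) * (e ^ (Nat.card L * e ^ k) *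
        (Nat.card L ^ (e ^ k) * 2 ^ (e ^ k))) := by gcongr
    _ = _ := by ring

/-- the arithmetic -/
theorem grow_false {e N : ℕ} (he : 2 ≤ e) {C : ℝ} (hC : 1 ≤ C)
    (h : ∀ ε : ℝ, 0 < ε → ∃ C' : ℝ, ∀ k : ℕ, (2 : ℝ) ^ (e ^ k) ≤
      (N : ℝ) * e ^ k * (C' * (C ^ (e ^ k)) ^ ε)) : False := by
  have hlC : 0 ≤ Real.log C := Real.log_nonneg hC
  have h32 : 0 < Real.log (3 / 2) := Real.log_pos (by norm_num)
  set ε : ℝ := Real.log (3 / 2) / (Real.log C + 1) with hε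
  have hε0 : 0 < ε := by positivity
  have hCe : C ^ ε ≤ 3 / 2 := by
    rw [Real.rpow_def_of_pos (by linarith)]
    calc Real.exp (Real.log C * ε) ≤ Real.exp (Real.log (3 / 2)) := by
          apply Real.exp_le_exp.mpr
          rw [hε, mul_div_assoc', div_le_iff₀ (by linarith)]
          nlinarith
      _ = 3 / 2 := Real.exp_log (by norm_num)
  obtain ⟨C', hC'⟩ := h ε hε0
  have hCpos : (0 : ℝ) < C := by linarith
  have key : ∀ k : ℕ, (1 : ℝ) ≤ (N * |C'|) * (((e ^ k : ℕ) : ℝ) * (3 / 4) ^ (e ^ k)) := by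
    intro k
    have h1 := hC' k
    have h2 : (C ^ (e ^ k)) ^ ε = (C ^ ε) ^ (e ^ k) := by
      rw [← Real.rpow_natCast, ← Real.rpow_mul hCpos.le, mul_comm, Real.rpow_mul hCpos.le,
        Real.rpow_natCast]
    rw [h2] at h1
    have h3 : (C ^ ε) ^ (e ^ k) ≤ (3 / 2 : ℝ) ^ (e ^ k) :=
      pow_le_pow_left₀ (Real.rpow_nonneg hCpos.le _) hCe _
    have h4 : (2 : ℝ) ^ (e ^ k) ≤ N * e ^ k * (|C'| * (3 / 2) ^ (e ^ k)) := by
      refine h1.trans ?_
      gcongr
      exact le_abs_self C'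
    have h5 : (0 : ℝ) < 2 ^ (e ^ k) := by positivity
    have h6 : (3 / 4 : ℝ) ^ (e ^ k) = (3 / 2) ^ (e ^ k) / 2 ^ (e ^ k) := by
      rw [← div_pow]
      norm_num
    rw [h6, Nat.cast_pow, mul_div_assoc', mul_div_assoc', le_div_iff₀ h5, one_mul]
    calc (2 : ℝ) ^ (e ^ k) ≤ N * e ^ k * (|C'| * (3 / 2) ^ (e ^ k)) := h4
      _ = _ := by ring
  have h1 : Filter.Tendsto (fun m : ℕ => (N * |C'|) * ((m : ℝ) * (3 / 4) ^ m)) Filter.atTop
      (nhds ((N * |C'|) * 0)) :=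
    (tendsto_self_mul_const_pow_of_lt_one (by norm_num) (by norm_num)).const_mul _
  rw [mul_zero] at h1
  have h2 : Filter.Tendsto (fun k : ℕ => e ^ k) Filter.atTop Filter.atTop :=
    tendsto_pow_atTop_atTop_of_one_lt (by omega)
  have h3 := (h1.comp h2).eventually (gt_mem_nhds (zero_lt_one' ℝ))
  obtain ⟨k, hk⟩ := h3.exists
  have h4 := key k
  simp only [Function.comp_apply] at hk
  linarith

include S hen in
/-- **All or nothing in primitive groups.** -/
theorem no_growth (hpe : ¬ p ∣ e) (hW : ∀ w : W, w ^ n = 1)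
    (h : ∀ ε : ℝ, 0 < ε → ∃ C : ℝ, ∀ k : ℕ,
      |(F.D (Hk S k L) : ℝ)| ≤ C * (Nat.card (Hk S k L) : ℝ) ^ ε)
    (h0 : ∀ K : Subgroup L, K ≠ ⊤ → F.D K = 0) : F.D L = 0 := by
  by_contra hne
  obtain ⟨s, hs, hs1⟩ : ∃ s : ℤ, |s| = 1 ∧ 0 < s * F.D L := by
    rcases lt_or_gt_of_ne hne with h1 | h1
    · exact ⟨-1, by norm_num, by linarith⟩
    · exact ⟨1, by norm_num, by linarith⟩
  set B : ℕ := Nat.card W ^ Nat.card L * e ^ Nat.card L * Nat.card L * 2 with hB
  have hBpos : 0 < B := by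
    have h1 : 0 < Nat.card W := Nat.card_pos
    have h2 : 0 < Nat.card L := Nat.card_pos
    have h3 : 0 < e := he.out.pos
    positivity
  refine grow_false (N := Nat.card L) he.out.two_le (C := B) (by exact_mod_cast hBpos)
    fun ε hε => ?_
  obtain ⟨C, hC⟩ := h ε hε
  refine ⟨|C|, fun k => ?_⟩
  have h1 := Hk_ge F S hen hpe s hs1 h0 hW k
  have h2 := hC k
  have h3 := Hk_card S (L := L) k
  rw [← hB] at h3
  have h4 : ((s * F.D (Hk S k L) : ℤ) : ℝ) ≤ |(F.D (Hk S k L) : ℝ)| := by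
    push_cast
    calc (s : ℝ) * F.D (Hk S k L) ≤ |(s : ℝ) * F.D (Hk S k L)| := le_abs_self _
      _ = |(F.D (Hk S k L) : ℝ)| := by
        rw [abs_mul]
        have h5 : |(s : ℝ)| = 1 := by exact_mod_cast hs
        rw [h5, one_mul]
  have h5 : ((Nat.card (Hk S k L) : ℕ) : ℝ) ^ ε ≤ ((B : ℝ) ^ (e ^ k)) ^ ε := by
    apply Real.rpow_le_rpow (Nat.cast_nonneg _) _ hε.le
    exact_mod_cast h3
  have h6 : (2 : ℝ) ^ (e ^ k) ≤ ((Nat.card L * e ^ k : ℕ) : ℝ) *
      ((s * F.D (Hk S k L) : ℤ) : ℝ) := by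
    exact_mod_cast h1
  calc (2 : ℝ) ^ (e ^ k) ≤ ((Nat.card L * e ^ k : ℕ) : ℝ) *
      ((s * F.D (Hk S k L) : ℤ) : ℝ) := h6
    _ ≤ ((Nat.card L * e ^ k : ℕ) : ℝ) * (|C| * ((B : ℝ) ^ (e ^ k)) ^ ε) := by
      refine mul_le_mul_of_nonneg_left ?_ (Nat.cast_nonneg _)
      refine h4.trans (h2.trans ?_)
      calc C * (Nat.card (Hk S k L) : ℝ) ^ ε ≤ |C| * (Nat.card (Hk S k L) : ℝ) ^ ε :=
            mul_le_mul_of_nonneg_right (le_abs_self C) (by positivity)
        _ ≤ _ := mul_le_mul_of_nonneg_left h5 (abs_nonneg C)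
    _ = _ := by push_cast; ring

end main

end Run7.h45.QP
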