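import Pool.Agent.Run7.h45.Perf

/-!
# Irreducible monomial-type modules: perfect and primitive affine groups
-/

set_option autoImplicit false
set_option linter.unusedSectionVars false

open scoped Classical BigOperators

noncomputable section

namespace Run7.h45.PV

/-- `H` has a maximal subgroup `M` with trivial core and an abelian normal subgroup `V` of order a power
of `q` which is a complement of `M`. -/
def Prim (q : ℕ) (H : Type) [Group H] : Prop :=
  ∃ V M : Subgroup H, IsCoatom M ∧ M.normalCore = ⊥ ∧ V.Normal ∧ (∀ x ∈ V, ∀ y ∈ V, x * y = y * x) ∧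
    V.IsComplement' M ∧ ∃ k : ℕ, Nat.card V = q ^ k

section prim

variable {V L : Type} [CommGroup V] [Group L] (φ : L →* MulAut V)

theorem semi_conj (l : L) (v : V) : (SemidirectProduct.inl (φ l v) : V ⋊[φ] L) =
    SemidirectProduct.inr l * SemidirectProduct.inl v * (SemidirectProduct.inr l)⁻¹ := by
  rw [SemidirectProduct.inl_aut, map_inv]

theorem semi_coatom [Nontrivial V]
    (hirr : ∀ U : Subgroup V, (∀ l, ∀ v ∈ U, φ l v ∈ U) → U ≠ ⊥ → U = ⊤) :
    IsCoatom ((SemidirectProduct.inr : L →* V ⋊[φ] L).range) := by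
  constructor
  · intro h
    obtain ⟨v, hv⟩ := exists_ne (1 : V)
    have h1 : (SemidirectProduct.inl v : V ⋊[φ] L) ∈
        (SemidirectProduct.inr : L →* V ⋊[φ] L).range := by rw [h]; trivial
    obtain ⟨l, hl⟩ := h1
    have h2 := congrArg SemidirectProduct.left hl
    rw [SemidirectProduct.left_inr, SemidirectProduct.left_inl] at h2
    exact hv h2.symm
  · intro K hK
    have hr : ∀ l : L, (SemidirectProduct.inr l : V ⋊[φ] L) ∈ K := fun l => hK.le ⟨l, rfl⟩
    have hU : K.comap (SemidirectProduct.inl : V →* V ⋊[φ] L) = ⊤ := by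
      refine hirr _ (fun l v hv => ?_) ?_
      · change (SemidirectProduct.inl (φ l v) : V ⋊[φ] L) ∈ K
        rw [semi_conj]
        exact K.mul_mem (K.mul_mem (hr l) hv) (K.inv_mem (hr l))
      · intro h
        obtain ⟨k, hk, hk'⟩ := SetLike.exists_of_lt hK
        apply hk'
        have h1 : (SemidirectProduct.inl k.left : V ⋊[φ] L) ∈ K := by
          have h2 := K.mul_mem hk (K.inv_mem (hr k.right))
          have h3 : k * (SemidirectProduct.inr k.right)⁻¹ = (SemidirectProduct.inl k.left :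
              V ⋊[φ] L) := by
            rw [mul_inv_eq_iff_eq_mul, SemidirectProduct.inl_left_mul_inr_right]
          rwa [h3] at h2
        have h2 : k.left ∈ K.comap (SemidirectProduct.inl : V →* V ⋊[φ] L) := h1
        rw [h, Subgroup.mem_bot] at h2
        refine ⟨k.right, ?_⟩
        have h3 := SemidirectProduct.inl_left_mul_inr_right k
        rw [h2, map_one, one_mul] at h3
        exact h3
    rw [eq_top_iff]
    intro y _
    rw [← SemidirectProduct.inl_left_mul_inr_right y]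
    refine K.mul_mem ?_ (hr _)
    have h1 : y.left ∈ K.comap (SemidirectProduct.inl : V →* V ⋊[φ] L) := by rw [hU]; trivial
    exact h1

theorem semi_core (hφ : Function.Injective φ) :
    ((SemidirectProduct.inr : L →* V ⋊[φ] L).range).normalCore = ⊥ := by
  rw [eq_bot_iff]
  intro y hy
  obtain ⟨l, rfl⟩ := Subgroup.normalCore_le _ hy
  have h1 : ∀ v : V, φ l v = v := by
    intro v
    have h2 := Subgroup.normalCore_le _ ((Subgroup.normalCore_normal _).conj_mem _ hy
      (SemidirectProduct.inl v))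
    obtain ⟨m, hm⟩ := h2
    have h3 := congrArg SemidirectProduct.left hm
    rw [← map_inv] at h3
    simp only [SemidirectProduct.left_inr, SemidirectProduct.mul_left, SemidirectProduct.left_inl,
      SemidirectProduct.mul_right, SemidirectProduct.right_inl, SemidirectProduct.right_inr,
      one_mul, map_one, mul_one] at h3
    rw [map_inv] at h3
    exact (mul_inv_eq_one.mp h3.symm).symm
  have h2 : φ l = φ 1 := by
    rw [map_one]
    exact MulEquiv.ext h1
  rw [hφ h2, map_one]
  exact Subgroup.mem_bot.mpr rfl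

theorem semi_prim [Finite V] [Finite L] [Nontrivial V] (hφ : Function.Injective φ)
    (hirr : ∀ U : Subgroup V, (∀ l, ∀ v ∈ U, φ l v ∈ U) → U ≠ ⊥ → U = ⊤) {q k : ℕ}
    (hk : Nat.card V = q ^ k) : Prim q (V ⋊[φ] L) := by
  refine ⟨(SemidirectProduct.inl : V →* V ⋊[φ] L).range, _, semi_coatom φ hirr, semi_core φ hφ,
    ?_, ?_, ?_, k, ?_⟩
  · rw [SemidirectProduct.range_inl_eq_ker_rightHom]
    infer_instance
  · rintro _ ⟨v, rfl⟩ _ ⟨w, rfl⟩
    rw [← map_mul, ← map_mul, mul_comm]
  · refine Subgroup.isComplement'_of_disjoint_and_mul_eq_univ ?_ ?_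
    · rw [disjoint_iff, eq_bot_iff]
      rintro y ⟨⟨v, hv⟩, ⟨l, hl⟩⟩
      have h1 := congrArg SemidirectProduct.right hv
      have h2 := congrArg SemidirectProduct.right hl
      rw [SemidirectProduct.right_inl] at h1
      rw [SemidirectProduct.right_inr, ← h1] at h2
      rw [Subgroup.mem_bot, ← hl, h2, map_one]
    · rw [Set.eq_univ_iff_forall]
      intro y
      exact ⟨_, ⟨y.left, rfl⟩, _, ⟨y.right, rfl⟩, SemidirectProduct.inl_left_mul_inr_right y⟩
  · rw [← hk]
    exact Nat.card_congr (MonoidHom.ofInjective (f := (SemidirectProduct.inl : V →* V ⋊[φ] L))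
      SemidirectProduct.inl_injective).toEquiv.symm

theorem semi_perfect (hL : commutator L = ⊤)
    (hirr : ∀ U : Subgroup V, (∀ l, ∀ v ∈ U, φ l v ∈ U) → U ≠ ⊥ → U = ⊤)
    (hne : ∃ l v, φ l v ≠ v) : commutator (V ⋊[φ] L) = ⊤ := by
  let π : V ⋊[φ] L →* Abelianization (V ⋊[φ] L) := Abelianization.of
  have hker : ∀ {A : Type} [CommGroup A] (β : L →* A) (l : L), β l = 1 := by
    intro A _ β l
    have h1 : l ∈ commutator L := by rw [hL]; trivial
    exact Abelianization.commutator_subset_ker β h1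
  have hinr : ∀ l : L, π (SemidirectProduct.inr l) = 1 := fun l =>
    hker (π.comp SemidirectProduct.inr) l
  have hact : ∀ (l : L) (v : V),
      π (SemidirectProduct.inl (φ l v)) = π (SemidirectProduct.inl v) := by
    intro l v
    rw [semi_conj, map_mul, map_mul, map_inv, hinr, one_mul, inv_one, mul_one]
  have hU : (π.comp SemidirectProduct.inl).ker = (⊤ : Subgroup V) := by
    refine hirr _ (fun l v hv => ?_) ?_
    · change π (SemidirectProduct.inl (φ l v)) = 1
      rw [hact]
      exact hv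
    · obtain ⟨l, v, h⟩ := hne
      intro h0
      have h1 : φ l v * v⁻¹ ∈ (π.comp SemidirectProduct.inl).ker := by
        change π (SemidirectProduct.inl (φ l v * v⁻¹)) = 1
        rw [map_mul, map_mul, hact, map_inv, map_inv, mul_inv_cancel]
      rw [h0, Subgroup.mem_bot] at h1
      exact h (mul_inv_eq_one.mp h1)
  rw [eq_top_iff]
  intro y _
  have h1 : π y = 1 := by
    rw [← SemidirectProduct.inl_left_mul_inr_right y, map_mul, hinr, mul_one]
    have h2 : y.left ∈ (π.comp SemidirectProduct.inl).ker := by rw [hU]; trivial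
    exact h2
  exact (QuotientGroup.eq_one_iff y).mp h1

end prim

/-! ## seeds -/

/-- A finite abelian group `W` with an automorphism of order `e`, without invariant subgroups and
fixed points, and with three regular orbits on the characters of `W`. -/
structure Seed (W : Type) [CommGroup W] (e : ℕ) where
  /-- the action of `ℤ/e` on `W` -/
  act : Multiplicative (ZMod e) →* MulAut W
  /-- the three characters -/
  th : Fin 3 → (W →* ℂ)
  th_inj : ∀ i j a, (∀ w, th i (act a w) = th j w) → i = j ∧ a = 1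
  irr : ∀ U : Subgroup W, (∀ w ∈ U, act (Multiplicative.ofAdd 1) w ∈ U) → U ≠ ⊥ → U = ⊤
  fpf : ∀ w, act (Multiplicative.ofAdd 1) w = w → w = 1

section mod

variable {W : Type} [CommGroup W] {e : ℕ} (S : Seed W e) {Ω X : Type} [Finite Ω] [Group X]
  [MulAction X Ω]

/-- the map given by an element of `ZS e Ω ⋊ X` -/
def monF (l : ZS e Ω ⋊[zsAct e X Ω] X) (v : Ω → W) : Ω → W := fun ω =>
  S.act (Multiplicative.ofAdd (l.left.val ω)) (v (l.right⁻¹ • ω))

theorem monF_one (v : Ω → W) : monF S (1 : ZS e Ω ⋊[zsAct e X Ω] X) v = v := by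
  funext ω
  change S.act (Multiplicative.ofAdd 0) (v ((1 : X)⁻¹ • ω)) = v ω
  rw [inv_one, one_smul, ofAdd_zero, map_one, MulAut.one_apply]

theorem monF_mul (l m : ZS e Ω ⋊[zsAct e X Ω] X) (v : Ω → W) :
    monF S (l * m) v = monF S l (monF S m v) := by
  funext ω
  change S.act (Multiplicative.ofAdd (l.left.val ω + m.left.val (l.right⁻¹ • ω)))
      (v ((l.right * m.right)⁻¹ • ω)) =
    S.act (Multiplicative.ofAdd (l.left.val ω))
      (S.act (Multiplicative.ofAdd (m.left.val (l.right⁻¹ • ω)))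
        (v (m.right⁻¹ • l.right⁻¹ • ω)))
  rw [ofAdd_add, map_mul, MulAut.mul_apply, mul_inv_rev, mul_smul]

theorem monF_map (l : ZS e Ω ⋊[zsAct e X Ω] X) (v w : Ω → W) :
    monF S l (v * w) = monF S l v * monF S l w := by
  funext ω
  change S.act _ (v (l.right⁻¹ • ω) * w (l.right⁻¹ • ω)) = _
  rw [map_mul]
  rfl

/-- the action on `Ω → W` -/
def mon : ZS e Ω ⋊[zsAct e X Ω] X →* MulAut (Ω → W) where
  toFun l :=
    { toFun := monF S l
      invFun := monF S l⁻¹
      left_inv := fun v => by rw [← monF_mul, inv_mul_cancel, monF_one]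
      right_inv := fun v => by rw [← monF_mul, mul_inv_cancel, monF_one]
      map_mul' := monF_map S l }
  map_one' := MulEquiv.ext (monF_one S)
  map_mul' l m := MulEquiv.ext (monF_mul S l m)

theorem mon_apply (l : ZS e Ω ⋊[zsAct e X Ω] X) (v : Ω → W) (ω : Ω) :
    mon S l v ω = S.act (Multiplicative.ofAdd (l.left.val ω)) (v (l.right⁻¹ • ω)) := rfl

include S in
theorem act_inj {a : Multiplicative (ZMod e)} (h : ∀ w, S.act a w = w) : a = 1 :=
  (S.th_inj 0 0 a fun w => by rw [h]).2

include S in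
theorem w_nontriv : ∃ w : W, w ≠ 1 := by
  by_contra h
  push Not at h
  have h1 := (S.th_inj 0 1 1 fun w => by rw [h w, map_one, map_one, map_one]).1
  exact absurd h1 (by decide)

theorem mon_inj [FaithfulSMul X Ω] : Function.Injective (mon S (Ω := Ω) (X := X)) := by
  rw [injective_iff_map_eq_one]
  intro l hl
  have h1 : ∀ (v : Ω → W) (ω : Ω),
      S.act (Multiplicative.ofAdd (l.left.val ω)) (v (l.right⁻¹ • ω)) = v ω := by
    intro v ω
    rw [← mon_apply, hl, MulAut.one_apply]
  obtain ⟨w, hw⟩ := w_nontriv S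
  have h2 : ∀ ω : Ω, l.right⁻¹ • ω = ω := by
    intro ω
    by_contra h3
    have h4 := h1 (Pi.mulSingle (l.right⁻¹ • ω) w) ω
    rw [Pi.mulSingle_eq_same, Pi.mulSingle_eq_of_ne (fun h => h3 h.symm)] at h4
    exact hw ((map_eq_one_iff (S.act _) (S.act _).injective).mp h4)
  have h3 : l.right = 1 := by
    have h4 : l.right⁻¹ = 1 := eq_of_smul_eq_smul (α := Ω) fun ω => by rw [h2, one_smul]
    exact inv_eq_one.mp h4
  have h4 : l.left = 1 := by
    apply ZS.ext
    funext ω
    have h5 : Multiplicative.ofAdd (l.left.val ω) = 1 := act_inj S fun w => by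
      have h6 := h1 (fun _ => w) ω
      exact h6
    exact h5
  ext1
  · exact h4
  · exact h3

/-- the action is irreducible -/
theorem mon_irr [MulAction.IsPretransitive X Ω] (h3 : 3 ≤ Nat.card Ω) (U : Subgroup (Ω → W))
    (hU : ∀ l, ∀ v ∈ U, mon S (X := X) l v ∈ U) (hne : U ≠ ⊥) : U = ⊤ := by
  have f1 : Fintype Ω := Fintype.ofFinite Ω
  rw [Nat.card_eq_fintype_card] at h3
  obtain ⟨⟨u, hu⟩, hu1'⟩ := Subgroup.ne_bot_iff_exists_ne_one.mp hne
  have hu1 : u ≠ 1 := fun h => hu1' (Subtype.ext h)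
  obtain ⟨ω₀, hω₀⟩ : ∃ ω, u ω ≠ 1 := by
    by_contra h
    push Not at h
    exact hu1 (funext h)
  -- two further points
  obtain ⟨ω₁, h1⟩ : ∃ ω₁, ω₁ ∉ ({ω₀} : Finset Ω) := by
    by_contra h
    push Not at h
    have h2 := Finset.card_le_card (fun z _ => h z : (Finset.univ : Finset Ω) ⊆ {ω₀})
    rw [Finset.card_univ, Finset.card_singleton] at h2
    omega
  obtain ⟨ω₂, h2⟩ : ∃ ω₂, ω₂ ∉ ({ω₀, ω₁} : Finset Ω) := by
    by_contra h
    push Not at h
    have h2 := Finset.card_le_card (fun z _ => h z : (Finset.univ : Finset Ω) ⊆ {ω₀, ω₁})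
    have h4 : ({ω₀, ω₁} : Finset Ω).card ≤ 2 := Finset.card_le_two
    rw [Finset.card_univ] at h2
    omega
  have n10 : ω₁ ≠ ω₀ := fun h => h1 (by rw [h]; exact Finset.mem_singleton_self _)
  have n20 : ω₂ ≠ ω₀ := fun h => h2 (by rw [h]; exact Finset.mem_insert_self _ _)
  have n21 : ω₂ ≠ ω₁ := fun h => h2 (by
    rw [h]; exact Finset.mem_insert_of_mem (Finset.mem_singleton_self _))
  -- the effect of `v ↦ v⁻¹ (s v)`
  have key : ∀ (x y : Ω) (v : Ω → W), x ≠ y → v ∈ U →
      (fun ω => (v ω)⁻¹ * mon S (X := X) (SemidirectProduct.inl (dd e x y)) v ω) ∈ U :=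
    fun x y v _ hv => U.mul_mem (U.inv_mem hv) (hU _ v hv)
  have val : ∀ (x y : Ω) (v : Ω → W) (ω : Ω),
      mon S (X := X) (SemidirectProduct.inl (dd e x y)) v ω =
        S.act (Multiplicative.ofAdd ((Pi.single x 1 - Pi.single y 1 : Ω → ZMod e) ω)) (v ω) := by
    intro x y v ω
    rw [mon_apply]
    change S.act _ (v ((1 : X)⁻¹ • ω)) = _
    rw [inv_one, one_smul]
    rfl
  have v1 : ∀ (x y : Ω) (v : Ω → W), x ≠ y →
      mon S (X := X) (SemidirectProduct.inl (dd e x y)) v x =
        S.act (Multiplicative.ofAdd 1) (v x) := by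
    intro x y v hxy
    rw [val, Pi.sub_apply, Pi.single_eq_same, Pi.single_eq_of_ne hxy, sub_zero]
  have v2 : ∀ (x y : Ω) (v : Ω → W) (ω : Ω), ω ≠ x → ω ≠ y →
      mon S (X := X) (SemidirectProduct.inl (dd e x y)) v ω = v ω := by
    intro x y v ω hx hy
    rw [val, Pi.sub_apply, Pi.single_eq_of_ne hx, Pi.single_eq_of_ne hy, sub_zero, ofAdd_zero,
      map_one, MulAut.one_apply]
  have nf : ∀ w : W, w ≠ 1 → w⁻¹ * S.act (Multiplicative.ofAdd 1) w ≠ 1 := by
    intro w hw h
    exact hw (S.fpf w (inv_mul_eq_one.mp h).symm)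
  -- the first element
  obtain ⟨u₁, hu₁, a1, a2⟩ : ∃ u₁ ∈ U, u₁ ω₀ ≠ 1 ∧ ∀ ω, ω ≠ ω₀ → ω ≠ ω₁ → u₁ ω = 1 := by
    refine ⟨_, key ω₀ ω₁ u n10.symm hu, ?_, fun ω hx hy => ?_⟩
    · change (u ω₀)⁻¹ * _ ≠ 1
      rw [v1 _ _ _ n10.symm]
      exact nf _ hω₀
    · change (u ω)⁻¹ * _ = 1
      rw [v2 _ _ _ _ hx hy, inv_mul_cancel]
  obtain ⟨u₂, hu₂, b1, b2⟩ : ∃ u₂ ∈ U, u₂ ω₀ ≠ 1 ∧ ∀ ω, ω ≠ ω₀ → u₂ ω = 1 := by
    refine ⟨_, key ω₀ ω₂ u₁ n20.symm hu₁, ?_, fun ω hx => ?_⟩
    · change (u₁ ω₀)⁻¹ * _ ≠ 1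
      rw [v1 _ _ _ n20.symm]
      exact nf _ a1
    · change (u₁ ω)⁻¹ * _ = 1
      by_cases hy : ω = ω₂
      · subst hy
        have h5 : u₁ ω = 1 := a2 ω hx n21
        rw [val, h5, map_one, inv_one, one_mul]
      · rw [v2 _ _ _ _ hx hy, inv_mul_cancel]
  -- the subgroup of the functions supported at `ω₀`
  have hU0 : U.comap (MonoidHom.mulSingle (fun _ : Ω => W) ω₀) = ⊤ := by
    refine S.irr _ (fun w hw => ?_) ?_
    · change Pi.mulSingle ω₀ (S.act (Multiplicative.ofAdd 1) w) ∈ U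
      have h5 := hU (SemidirectProduct.inl (dd e ω₀ ω₁)) _
        (show Pi.mulSingle ω₀ w ∈ U from hw)
      convert h5 using 1
      funext ω
      by_cases hx : ω = ω₀
      · subst hx
        rw [v1 _ _ _ n10.symm, Pi.mulSingle_eq_same, Pi.mulSingle_eq_same]
      · rw [val, Pi.mulSingle_eq_of_ne hx, Pi.mulSingle_eq_of_ne hx, map_one]
    · intro h
      have h5 : u₂ ω₀ ∈ U.comap (MonoidHom.mulSingle (fun _ : Ω => W) ω₀) := by
        change Pi.mulSingle ω₀ (u₂ ω₀) ∈ U
        have h6 : Pi.mulSingle ω₀ (u₂ ω₀) = u₂ := by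
          funext ω
          by_cases hx : ω = ω₀
          · subst hx
            rw [Pi.mulSingle_eq_same]
          · rw [Pi.mulSingle_eq_of_ne hx, b2 ω hx]
        rw [h6]
        exact hu₂
      rw [h, Subgroup.mem_bot] at h5
      exact b1 h5
  have hs : ∀ (ω : Ω) (w : W), Pi.mulSingle ω w ∈ U := by
    intro ω w
    obtain ⟨x, rfl⟩ := MulAction.exists_smul_eq X ω₀ ω
    have h5 : w ∈ U.comap (MonoidHom.mulSingle (fun _ : Ω => W) ω₀) := by rw [hU0]; trivial
    have h6 := hU (SemidirectProduct.inr x) _ (show Pi.mulSingle ω₀ w ∈ U from h5)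
    convert h6 using 1
    funext ω
    rw [mon_apply]
    change _ = S.act (Multiplicative.ofAdd 0) ((Pi.mulSingle ω₀ w : Ω → W) (x⁻¹ • ω))
    rw [ofAdd_zero, map_one, MulAut.one_apply]
    by_cases hx : ω = x • ω₀
    · subst hx
      rw [inv_smul_smul, Pi.mulSingle_eq_same, Pi.mulSingle_eq_same]
    · rw [Pi.mulSingle_eq_of_ne hx, Pi.mulSingle_eq_of_ne (fun h => hx (by
        rw [← h, smul_inv_smul]))]
  rw [eq_top_iff]
  intro v _
  rw [← Finset.univ_prod_mulSingle v]
  exact U.prod_mem fun ω _ => hs ω (v ω)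

/-- the character attached to a colouring -/
def colChar (c : Ω → Fin 3) : (Ω → W) →* ℂ where
  toFun v := ∏ᶠ ω, S.th (c ω) (v ω)
  map_one' := by
    simp
  map_mul' v w := by
    rw [← finprod_mul_distrib (Set.toFinite _) (Set.toFinite _)]
    exact finprod_congr fun ω => map_mul _ _ _

theorem colChar_stab (c : Ω → Fin 3) (l : ZS e Ω ⋊[zsAct e X Ω] X) :
    (∀ v, colChar S c (mon S l v) = colChar S c v) ↔
      ∃ x : X, (∀ ω, c (x • ω) = c ω) ∧ SemidirectProduct.inr x = l := by
  have f1 : Fintype Ω := Fintype.ofFinite Ω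
  have e1 : ∀ v, colChar S c (mon S l v) = ∏ ω, S.th (c (l.right • ω))
      (S.act (Multiplicative.ofAdd (l.left.val (l.right • ω))) (v ω)) := by
    intro v
    change ∏ᶠ ω, S.th (c ω) (mon S l v ω) = _
    rw [finprod_eq_prod_of_fintype, ← Equiv.prod_comp (MulAction.toPerm l.right)]
    refine Finset.prod_congr rfl fun ω _ => ?_
    rw [MulAction.toPerm_apply, mon_apply, inv_smul_smul]
  have e2 : ∀ v : Ω → W, colChar S c v = ∏ ω, S.th (c ω) (v ω) := by
    intro v
    change ∏ᶠ ω, S.th (c ω) (v ω) = _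
    rw [finprod_eq_prod_of_fintype]
  constructor
  · intro h
    have h1 : ∀ ω, c (l.right • ω) = c ω ∧
        (Multiplicative.ofAdd (l.left.val (l.right • ω)) : Multiplicative (ZMod e)) = 1 := by
      intro ω
      refine S.th_inj _ _ _ fun w => ?_
      have h2 := h (Pi.mulSingle ω w)
      rw [e1, e2] at h2
      rw [Finset.prod_eq_single ω, Finset.prod_eq_single ω] at h2
      · rwa [Pi.mulSingle_eq_same] at h2
      · intro y _ hy
        rw [Pi.mulSingle_eq_of_ne hy, map_one]
      · intro h3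
        exact absurd (Finset.mem_univ _) h3
      · intro y _ hy
        rw [Pi.mulSingle_eq_of_ne hy, map_one, map_one]
      · intro h3
        exact absurd (Finset.mem_univ _) h3
    refine ⟨l.right, fun ω => (h1 ω).1, ?_⟩
    have h2 : l.left = 1 := by
      apply ZS.ext
      funext ω
      have h3 := (h1 (l.right⁻¹ • ω)).2
      rw [smul_inv_smul] at h3
      exact h3
    ext1
    · exact h2.symm
    · rfl
  · rintro ⟨x, hx, rfl⟩ v
    rw [e1, e2]
    refine Finset.prod_congr rfl fun ω _ => ?_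
    change S.th (c (x • ω)) (S.act (Multiplicative.ofAdd 0) (v ω)) = _
    rw [ofAdd_zero, map_one, MulAut.one_apply, hx]

end mod

end Run7.h45.PV
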