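import Pool.Agent.Run7.h45.PV1
import Mathlib.GroupTheory.RegularWreathProduct

/-!
# Perfect primitive groups: the family
-/

set_option autoImplicit false
set_option linter.unusedSectionVars false

open scoped Classical BigOperators

noncomputable section

namespace Run7.h45.PV

/-! ## the transitive groups -/

section wr

variable {K P : Type} [Group K] [Group P]

theorem wr_trans : MulAction.IsPretransitive (K ≀ᵣ P) (K × P) := by
  constructor
  rintro ⟨a, s⟩ ⟨b, u⟩
  refine ⟨⟨fun _ => b * a⁻¹, u * s⁻¹⟩, ?_⟩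
  rw [RegularWreathProduct.smul_def]
  simp

theorem wr_perfect [Finite P] (hK : commutator K = ⊤) (hP : commutator P = ⊤) :
    commutator (K ≀ᵣ P) = ⊤ := by
  have f1 : Fintype P := Fintype.ofFinite P
  let π : K ≀ᵣ P →* Abelianization (K ≀ᵣ P) := Abelianization.of
  have hker : ∀ {L : Type} [Group L], commutator L = ⊤ → ∀ {A : Type} [CommGroup A] (β : L →* A)
      (l : L), β l = 1 := by
    intro L _ hL A _ β l
    have h1 : l ∈ commutator L := by rw [hL]; trivial
    exact Abelianization.commutator_subset_ker β h1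
  let b : (P → K) →* K ≀ᵣ P :=
    { toFun := fun f => ⟨f, 1⟩
      map_one' := rfl
      map_mul' := fun f g => by
        ext x
        · simp
        · simp }
  have h1 : ∀ f : P → K, π (b f) = 1 := by
    intro f
    change (π.comp b) f = 1
    have h2 : ∀ s : P, ∀ k : K, (π.comp b) (Pi.mulSingle s k) = 1 := by
      intro s k
      exact hker hK ((π.comp b).comp (MonoidHom.mulSingle (fun _ : P => K) s)) k
    have h3 : (π.comp b).ker = ⊤ := by
      rw [eq_top_iff]
      intro g _
      have h4 := Finset.noncommProd_mulSingle g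
      rw [← h4]
      exact Subgroup.noncommProd_mem _ _ fun s _ => h2 s (g s)
    have h4 : f ∈ (π.comp b).ker := by rw [h3]; trivial
    exact h4
  rw [eq_top_iff]
  intro y _
  have h2 : π y = 1 := by
    have h3 : y = b y.left * RegularWreathProduct.inl y.right := by
      ext x
      · simp [b]
      · simp [b]
    rw [h3, map_mul, h1, one_mul]
    exact hker hP (π.comp RegularWreathProduct.inl) y.right
  exact (QuotientGroup.eq_one_iff y).mp h2

/-- the colouring given by a subgroup `H` of `K` -/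
def wrCol (H : Subgroup K) (x : K × P) : Fin 3 := if x.1 ∈ H then (if x.2 = 1 then 2 else 1) else 0

theorem wrCol_stab (H : Subgroup K) (y : K ≀ᵣ P) :
    (∀ x : K × P, wrCol H (y • x) = wrCol H x) ↔ y.right = 1 ∧ ∀ s, y.left s ∈ H := by
  constructor
  · intro h
    have h1 := h (1, 1)
    have h2 : wrCol H ((1, 1) : K × P) = 2 := by
      unfold wrCol
      rw [if_pos H.one_mem, if_pos rfl]
    rw [h2, RegularWreathProduct.smul_def] at h1
    have h3 : y.right = 1 := by
      by_contra h3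
      unfold wrCol at h1
      rw [mul_one, if_neg h3] at h1
      split_ifs at h1
      · exact absurd h1 (by decide)
      · exact absurd h1 (by decide)
    refine ⟨h3, fun s => ?_⟩
    have h4 := h (1, s)
    rw [RegularWreathProduct.smul_def, h3, one_mul] at h4
    by_contra h5
    have h6 : wrCol H ((y.left s • (1 : K), s) : K × P) = 0 := by
      unfold wrCol
      rw [if_neg]
      change y.left s * 1 ∉ H
      rwa [mul_one]
    rw [h6] at h4
    unfold wrCol at h4
    rw [if_pos H.one_mem] at h4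
    split_ifs at h4
    · exact absurd h4 (by decide)
    · exact absurd h4 (by decide)
  · rintro ⟨h1, h2⟩ ⟨a, s⟩
    rw [RegularWreathProduct.smul_def, h1]
    change wrCol H (y.left (1 * s) * a, 1 * s) = _
    rw [one_mul]
    unfold wrCol
    have h3 : y.left s * a ∈ H ↔ a ∈ H := Subgroup.mul_mem_cancel_left H (h2 s)
    simp only [h3]

end wr

section fam

variable {W : Type} [CommGroup W] {e : ℕ} (S : Seed W e) {K P : Type} [Group K] [Group P]
  [Finite K] [Finite P]

/-- the group `L` -/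
abbrev LL (e : ℕ) (K P : Type) [Group K] [Group P] [Finite K] [Finite P] : Type :=
  ZS e (K × P) ⋊[zsAct e (K ≀ᵣ P) (K × P)] (K ≀ᵣ P)

instance [NeZero e] : Finite (LL e K P) := inferInstance

theorem card_ge (h3 : 3 ≤ Nat.card K) : 3 ≤ Nat.card (K × P) := by
  rw [Nat.card_prod]
  have h1 : 1 ≤ Nat.card P := Nat.card_pos
  nlinarith

theorem LL_perfect [NeZero e] (hK : commutator K = ⊤) (hP : commutator P = ⊤) :
    commutator (LL e K P) = ⊤ := by
  have := wr_trans (K := K) (P := P)
  exact perfect_zs' ((1, 1) : K × P) (wr_perfect hK hP)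

theorem H_perfect [NeZero e] (hK : commutator K = ⊤) (hP : commutator P = ⊤)
    (h3 : 3 ≤ Nat.card K) : commutator ((K × P → W) ⋊[mon S (X := K ≀ᵣ P)] LL e K P) = ⊤ := by
  have := wr_trans (K := K) (P := P)
  refine semi_perfect _ (LL_perfect hK hP) (mon_irr S (card_ge h3)) ?_
  obtain ⟨w, hw⟩ := w_nontriv S
  have h2 : 2 ≤ Nat.card K := by omega
  obtain ⟨a, ha⟩ : ∃ a : K, a ≠ 1 := by
    have := (Finite.one_lt_card_iff_nontrivial (α := K)).mp (by omega)
    exact exists_ne 1
  refine ⟨SemidirectProduct.inr ⟨fun _ => a, 1⟩, Pi.mulSingle (1, 1) w, fun h => hw ?_⟩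
  have h4 := congrFun h (1, 1)
  rw [mon_apply, Pi.mulSingle_eq_same, Pi.mulSingle_eq_of_ne, map_one] at h4
  · exact h4.symm
  · change (⟨fun _ => a, 1⟩ : K ≀ᵣ P)⁻¹ • ((1 : K), (1 : P)) ≠ (1, 1)
    rw [Ne, inv_smul_eq_iff, RegularWreathProduct.smul_def]
    intro h5
    have h6 : (1 : K) = a * 1 := congrArg Prod.fst h5
    rw [mul_one] at h6
    exact ha h6.symm

theorem H_prim [Finite W] [NeZero e] {q d : ℕ} (hW : Nat.card W = q ^ d) (h3 : 3 ≤ Nat.card K) :
    Prim q ((K × P → W) ⋊[mon S (X := K ≀ᵣ P)] LL e K P) := by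
  have := wr_trans (K := K) (P := P)
  obtain ⟨w, hw⟩ := w_nontriv S
  have : Nontrivial W := ⟨w, 1, hw⟩
  refine semi_prim _ (mon_inj S) (mon_irr S (card_ge h3)) (k := d * Nat.card (K × P)) ?_
  rw [Nat.card_fun, hW, ← pow_mul]

theorem H_card [Finite W] [NeZero e] :
    Nat.card ((K × P → W) ⋊[mon S (X := K ≀ᵣ P)] LL e K P) ≤
      (Nat.card W ^ Nat.card K * e ^ Nat.card K * Nat.card K * 2) ^ Nat.card P := by
  have h1 : Nat.card ((K × P → W) ⋊[mon S (X := K ≀ᵣ P)] LL e K P) =
      Nat.card W ^ (Nat.card K * Nat.card P) * (Nat.card (ZS e (K × P)) *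
        (Nat.card K ^ Nat.card P * Nat.card P)) := by
    rw [SemidirectProduct.card, SemidirectProduct.card, RegularWreathProduct.card, Nat.card_fun,
      Nat.card_prod]
  have h2 : Nat.card (ZS e (K × P)) ≤ e ^ (Nat.card K * Nat.card P) := by
    have h3 := Nat.le_of_dvd (pow_pos (NeZero.pos e) _) (card_zs (q := e) (X := K × P))
    rwa [Nat.card_prod] at h3
  have h3 : Nat.card P ≤ 2 ^ Nat.card P := Nat.lt_two_pow_self.le
  rw [h1, mul_pow, mul_pow, mul_pow, ← pow_mul, ← pow_mul]
  calc _ ≤ Nat.card W ^ (Nat.card K * Nat.card P) * (e ^ (Nat.card K * Nat.card P) *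
        (Nat.card K ^ Nat.card P * 2 ^ Nat.card P)) := by gcongr
    _ = _ := by ring

theorem H_card_ge [Finite W] [NeZero e] :
    Nat.card P ≤ Nat.card ((K × P → W) ⋊[mon S (X := K ≀ᵣ P)] LL e K P) := by
  rw [SemidirectProduct.card, SemidirectProduct.card, RegularWreathProduct.card]
  have h1 : 0 < Nat.card (K × P → W) := Nat.card_pos
  have h2 : 0 < Nat.card (ZS e (K × P)) := Nat.card_pos
  have h3 : 0 < Nat.card K ^ Nat.card P := pow_pos Nat.card_pos _
  calc Nat.card P = 1 * (1 * (1 * Nat.card P)) := by ring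
    _ ≤ _ := Nat.mul_le_mul h1 (Nat.mul_le_mul h2 (Nat.mul_le_mul h3 le_rfl))

variable {G G' : Type} [Group G] [Group G']

/-- the embedding of the power of `G` -/
def powEmb (e : ℕ) (i : G →* K) : (P → G) →* LL e K P :=
  (SemidirectProduct.inr).comp
    { toFun := fun g => (⟨fun s => i (g s), 1⟩ : K ≀ᵣ P)
      map_one' := by
        ext x
        · simp
        · simp
      map_mul' := fun g h => by
        ext x
        · simp
        · simp }

theorem powEmb_inj (e : ℕ) {i : G →* K} (hi : Function.Injective i) :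
    Function.Injective (powEmb (P := P) e i) := by
  intro g h hgh
  have h1 := congrArg (fun l : LL e K P => l.right.left) hgh
  funext s
  exact hi (congrFun h1 s)

theorem pow_stab (i : G →* K) (ψ : G' →* (P → G)) (hψ : Function.Surjective ψ) (l : LL e K P) :
    (∀ v, colChar S (wrCol i.range) (mon S l v) = colChar S (wrCol i.range) v) ↔
      ∃ g, (powEmb e i).comp ψ g = l := by
  rw [colChar_stab]
  constructor
  · rintro ⟨x, hx, rfl⟩
    obtain ⟨h1, h2⟩ := (wrCol_stab _ x).mp hx
    choose g hg using h2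
    obtain ⟨g', hg'⟩ := hψ g
    refine ⟨g', ?_⟩
    change SemidirectProduct.inr (⟨fun s => i (ψ g' s), 1⟩ : K ≀ᵣ P) = _
    congr 1
    ext s
    · change i (ψ g' s) = x.left s
      rw [hg', hg]
    · exact h1.symm
  · rintro ⟨g, rfl⟩
    refine ⟨⟨fun s => i (ψ g s), 1⟩, (wrCol_stab _ _).mpr ⟨rfl, fun s => ⟨_, rfl⟩⟩, rfl⟩

/-- **The family of perfect primitive groups.** -/
theorem fam_core [Finite W] [NeZero e] {q d : ℕ} (hW : Nat.card W = q ^ d)
    (hK : commutator K = ⊤) (hP : commutator P = ⊤) (h3 : 3 ≤ Nat.card K) (i : G →* K)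
    (hi : Function.Injective i) (ψ : G' →* (P → G)) (hψ : Function.Bijective ψ) :
    ∃ (V L : Type) (_ : CommGroup V) (_ : Group L) (_ : Finite V) (_ : Finite L)
      (φ : L →* MulAut V) (j : G' →* L) (θ : V →* ℂ), Function.Injective j ∧
      (∀ l : L, (∀ v, θ (φ l v) = θ v) ↔ ∃ g, j g = l) ∧
      commutator (V ⋊[φ] L) = ⊤ ∧ Prim q (V ⋊[φ] L) ∧
      Nat.card (V ⋊[φ] L) ≤
        (Nat.card W ^ Nat.card K * e ^ Nat.card K * Nat.card K * 2) ^ Nat.card P ∧
      Nat.card P ≤ Nat.card (V ⋊[φ] L) ∧ (∃ k, Nat.card V = q ^ k) ∧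
      ∀ σ : ℂ ≃+* ℂ, (∀ i w, σ (S.th i w) = S.th i w) → ∀ v, σ (θ v) = θ v := by
  refine ⟨K × P → W, LL e K P, inferInstance, inferInstance, inferInstance, inferInstance,
    mon S, (powEmb e i).comp ψ, colChar S (wrCol i.range), (powEmb_inj e hi).comp hψ.1,
    pow_stab S i ψ hψ.2, H_perfect S hK hP h3, H_prim S hW h3, H_card S, H_card_ge S,
    ⟨d * Nat.card (K × P), ?_⟩, fun σ hσ v => ?_⟩
  · rw [Nat.card_fun, hW, ← pow_mul]
  · have f1 : Fintype (K × P) := Fintype.ofFinite _
    change σ (∏ᶠ ω, S.th (wrCol i.range ω) (v ω)) = ∏ᶠ ω, S.th (wrCol i.range ω) (v ω)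
    rw [finprod_eq_prod_of_fintype, map_prod]
    exact Finset.prod_congr rfl fun ω _ => hσ _ _

end fam

end Run7.h45.PV
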