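import Pool.Agent.Run7.h45.PV2
import Pool.Agent.Run7.h45.UpG

/-!
# Perfect primitive groups: the seeds and the final form
-/

set_option autoImplicit false
set_option linter.unusedSectionVars false

open scoped Classical BigOperators

noncomputable section

namespace Run7.h45.PV

/-! ## the seed for the primes `q ≥ 7` -/

section seedq

variable (q : ℕ) [hq : Fact q.Prime] (h7 : 7 ≤ q)

theorem two_cases (a : Multiplicative (ZMod 2)) : a = 1 ∨ a = Multiplicative.ofAdd 1 := by
  have h : ∀ x : ZMod 2, x = 0 ∨ x = 1 := by decide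
  exact h a.toAdd

theorem one_ne : (Multiplicative.ofAdd 1 : Multiplicative (ZMod 2)) ≠ 1 := by
  intro h
  have h1 : (1 : ZMod 2) = 0 := h
  exact absurd h1 (by decide)

/-- the signs -/
def sgn : Multiplicative (ZMod 2) →* MulAut (Multiplicative (ZMod q)) where
  toFun a := if a = 1 then 1 else MulEquiv.inv (Multiplicative (ZMod q))
  map_one' := if_pos rfl
  map_mul' a b := by
    have h1 : (Multiplicative.ofAdd 1 : Multiplicative (ZMod 2)) * Multiplicative.ofAdd 1 = 1 := by
      change Multiplicative.ofAdd ((1 : ZMod 2) + 1) = 1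
      rfl
    rcases two_cases a with rfl | rfl <;> rcases two_cases b with rfl | rfl
    · rw [one_mul, if_pos rfl, one_mul]
    · rw [one_mul, if_pos rfl, one_mul]
    · rw [mul_one, if_pos rfl, mul_one]
    · rw [h1, if_pos rfl, if_neg one_ne]
      apply MulEquiv.ext
      intro w
      rw [MulAut.mul_apply]
      change w = (w⁻¹)⁻¹
      rw [inv_inv]

theorem sgn_gen (w : Multiplicative (ZMod q)) : sgn q (Multiplicative.ofAdd 1) w = w⁻¹ := by
  change (if (Multiplicative.ofAdd 1 : Multiplicative (ZMod 2)) = 1 then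
    (1 : MulAut (Multiplicative (ZMod q))) else MulEquiv.inv (Multiplicative (ZMod q))) w = _
  rw [if_neg one_ne]
  rfl

/-- the characters -/
def thq (i : Fin 3) : Multiplicative (ZMod q) →* ℂ where
  toFun w := ZMod.stdAddChar (((i : ℕ) + 1 : ℕ) * w.toAdd : ZMod q)
  map_one' := by
    change ZMod.stdAddChar (((i : ℕ) + 1 : ℕ) * 0 : ZMod q) = 1
    rw [mul_zero, AddChar.map_zero_eq_one]
  map_mul' v w := by
    rw [← AddChar.map_add_eq_mul, ← mul_add]
    rfl

include h7 in
/-- the seed for a prime `q ≥ 7` -/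
def seedQ : Seed (Multiplicative (ZMod q)) 2 where
  act := sgn q
  th := thq q
  th_inj i j a h := by
    have h0 := h (Multiplicative.ofAdd 1)
    rcases two_cases a with rfl | rfl
    · refine ⟨?_, rfl⟩
      rw [map_one, MulAut.one_apply] at h0
      have h1 := ZMod.injective_stdAddChar h0
      change ((((i : ℕ) + 1 : ℕ) : ZMod q) * 1) = (((j : ℕ) + 1 : ℕ) : ZMod q) * 1 at h1
      rw [mul_one, mul_one, ZMod.natCast_eq_natCast_iff] at h1
      have h2 := Nat.ModEq.eq_of_lt_of_lt h1 (by omega) (by omega)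
      exact Fin.ext (by omega)
    · exfalso
      rw [sgn_gen] at h0
      have h1 := ZMod.injective_stdAddChar h0
      change ((((i : ℕ) + 1 : ℕ) : ZMod q) * (-1)) = (((j : ℕ) + 1 : ℕ) : ZMod q) * 1 at h1
      have h2 : (((i : ℕ) + 1 + ((j : ℕ) + 1) : ℕ) : ZMod q) = 0 := by
        rw [Nat.cast_add]
        linear_combination (-1 : ZMod q) * h1
      rw [ZMod.natCast_eq_zero_iff] at h2
      have h3 := Nat.le_of_dvd (by omega) h2
      omega
  irr U _ hne := by
    have h1 : Nat.card (Multiplicative (ZMod q)) = q := by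
      change Nat.card (ZMod q) = q
      simp
    have : Fact (Nat.card (Multiplicative (ZMod q))).Prime := ⟨by rw [h1]; exact hq.out⟩
    exact (Subgroup.eq_bot_or_eq_top_of_prime_card U).resolve_left hne
  fpf w h := by
    rw [sgn_gen] at h
    have h1 : (2 : ZMod q) * w.toAdd = 0 := by
      have h2 : - w.toAdd = w.toAdd := h
      linear_combination (-1 : ZMod q) * h2
    have h2 : (2 : ZMod q) ≠ 0 := by
      intro h3
      have h4 : ((2 : ℕ) : ZMod q) = 0 := by exact_mod_cast h3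
      rw [ZMod.natCast_eq_zero_iff] at h4
      have := Nat.le_of_dvd (by omega) h4
      omega
    exact (mul_eq_zero.mp h1).resolve_left h2

end seedq

/-! ## the seed for `q = 2` -/

section seed2

/-- the additive group of the field with `16` elements -/
abbrev W4 : Type := ZMod 2 × ZMod 2 × ZMod 2 × ZMod 2

/-- the multiplication by a primitive fifth root of unity -/
def A4 (v : W4) : W4 := (v.2.2.2, v.1 + v.2.2.2, v.2.1 + v.2.2.2, v.2.2.1 + v.2.2.2)

theorem A4_add (v w : W4) : A4 (v + w) = A4 v + A4 w := by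
  unfold A4
  ext
  · rfl
  · change (v.1 + w.1) + (v.2.2.2 + w.2.2.2) = (v.1 + v.2.2.2) + (w.1 + w.2.2.2)
    ring
  · change (v.2.1 + w.2.1) + (v.2.2.2 + w.2.2.2) = (v.2.1 + v.2.2.2) + (w.2.1 + w.2.2.2)
    ring
  · change (v.2.2.1 + w.2.2.1) + (v.2.2.2 + w.2.2.2) = (v.2.2.1 + v.2.2.2) + (w.2.2.1 + w.2.2.2)
    ring

theorem A4_iter_add (n : ℕ) (v w : W4) : A4^[n] (v + w) = A4^[n] v + A4^[n] w := by
  induction n generalizing v w with
  | zero => rfl
  | succ n ih => rw [Function.iterate_succ_apply, Function.iterate_succ_apply,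
      Function.iterate_succ_apply, A4_add, ih]

theorem A4_five (v : W4) : A4^[5] v = v := by
  revert v
  decide

theorem A4_comp (a b : ZMod 5) (v : W4) : A4^[(a + b).val] v = A4^[a.val] (A4^[b.val] v) := by
  rw [← Function.iterate_add_apply, ZMod.val_add]
  have h1 : ∀ k (v : W4), A4^[5 * k] v = v := by
    intro k
    induction k with
    | zero => intro v; rfl
    | succ k ih => intro v; rw [Nat.mul_succ, Function.iterate_add_apply, A4_five, ih]
  conv_rhs => rw [← Nat.mod_add_div (a.val + b.val) 5, Function.iterate_add_apply, h1]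

/-- the action of `ℤ/5` -/
def act4 : Multiplicative (ZMod 5) →* MulAut (Multiplicative W4) where
  toFun a :=
    { toFun := fun w => Multiplicative.ofAdd (A4^[a.toAdd.val] w.toAdd)
      invFun := fun w => Multiplicative.ofAdd (A4^[(-a.toAdd).val] w.toAdd)
      left_inv := fun w => by
        change A4^[(-a.toAdd).val] (A4^[a.toAdd.val] w.toAdd) = w.toAdd
        rw [← A4_comp, neg_add_cancel]
        rfl
      right_inv := fun w => by
        change A4^[a.toAdd.val] (A4^[(-a.toAdd).val] w.toAdd) = w.toAdd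
        rw [← A4_comp, add_neg_cancel]
        rfl
      map_mul' := fun v w => A4_iter_add _ _ _ }
  map_one' := MulEquiv.ext fun w => rfl
  map_mul' a b := MulEquiv.ext fun w => A4_comp _ _ _

/-- the scalar product -/
def dot4 (u v : W4) : ZMod 2 := u.1 * v.1 + u.2.1 * v.2.1 + u.2.2.1 * v.2.2.1 + u.2.2.2 * v.2.2.2

theorem dot4_add (u v w : W4) : dot4 u (v + w) = dot4 u v + dot4 u w := by
  change u.1 * (v.1 + w.1) + u.2.1 * (v.2.1 + w.2.1) + u.2.2.1 * (v.2.2.1 + w.2.2.1) +
    u.2.2.2 * (v.2.2.2 + w.2.2.2) = _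
  unfold dot4
  ring

/-- three vectors -/
def u4 (i : Fin 3) : W4 := if i = 0 then (0, 0, 0, 1) else if i = 1 then (0, 0, 1, 0) else (0, 1, 1, 1)

theorem u4_inj : ∀ (i j : Fin 3) (a : ZMod 5),
    (∀ w : W4, dot4 (u4 i) (A4^[a.val] w) = dot4 (u4 j) w) → i = j ∧ a = 0 := by
  decide

theorem A4_span : ∀ w : W4, w ≠ 0 → ∀ z : W4, ∃ a : Fin 2, ∃ b : Fin 2, ∃ c : Fin 2, ∃ d : Fin 2,
    z = a.val • w + b.val • A4 w + c.val • A4 (A4 w) + d.val • A4 (A4 (A4 w)) := by
  decide

theorem A4_fix : ∀ w : W4, A4 w = w → w = 0 := by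
  decide

/-- the seed for `2` -/
def seed2 : Seed (Multiplicative W4) 5 where
  act := act4
  th i :=
    { toFun := fun w => ZMod.stdAddChar (dot4 (u4 i) w.toAdd)
      map_one' := by
        change ZMod.stdAddChar (dot4 (u4 i) 0) = 1
        have h1 : dot4 (u4 i) 0 = 0 := by
          unfold dot4
          simp
        rw [h1, AddChar.map_zero_eq_one]
      map_mul' := fun v w => by
        rw [← AddChar.map_add_eq_mul, ← dot4_add]
        rfl }
  th_inj i j a h := by
    have h1 := u4_inj i j a.toAdd fun w => ZMod.injective_stdAddChar (h (Multiplicative.ofAdd w))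
    exact ⟨h1.1, h1.2⟩
  irr U hU hne := by
    obtain ⟨⟨u, hu⟩, hu1'⟩ := Subgroup.ne_bot_iff_exists_ne_one.mp hne
    have hu1 : u.toAdd ≠ 0 := fun h => hu1' (Subtype.ext h)
    have hA : ∀ w : W4, Multiplicative.ofAdd w ∈ U → Multiplicative.ofAdd (A4 w) ∈ U :=
      fun w hw => hU _ hw
    rw [eq_top_iff]
    intro z _
    obtain ⟨a, b, c, d, hc⟩ := A4_span u.toAdd hu1 z.toAdd
    have h1 : Multiplicative.ofAdd u.toAdd ∈ U := hu
    have h2 := hA _ h1
    have h3 := hA _ h2
    have h4 := hA _ h3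
    have h5 := U.mul_mem (U.mul_mem (U.mul_mem (U.pow_mem h1 a.val) (U.pow_mem h2 b.val))
      (U.pow_mem h3 c.val)) (U.pow_mem h4 d.val)
    have h6 : z = Multiplicative.ofAdd u.toAdd ^ a.val *
        Multiplicative.ofAdd (A4 u.toAdd) ^ b.val *
        Multiplicative.ofAdd (A4 (A4 u.toAdd)) ^ c.val *
        Multiplicative.ofAdd (A4 (A4 (A4 u.toAdd))) ^ d.val := hc
    rw [h6]
    exact h5
  fpf w h := A4_fix w.toAdd h

theorem seed2_gal (σ : ℂ ≃+* ℂ) (i : Fin 3) (w : Multiplicative W4) :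
    σ (seed2.th i w) = seed2.th i w := std_two σ _

theorem card_W4 : Nat.card (Multiplicative W4) = 2 ^ 4 := by
  change Nat.card W4 = 2 ^ 4
  simp [W4]

end seed2

/-! ## the final form -/

section final

theorem pi_perfect {P K : Type} [Group K] [Finite P] (hK : commutator K = ⊤) :
    commutator (P → K) = ⊤ := by
  have f1 : Fintype P := Fintype.ofFinite P
  let π : (P → K) →* Abelianization (P → K) := Abelianization.of
  have h2 : ∀ s : P, ∀ k : K, π (Pi.mulSingle s k) = 1 := by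
    intro s k
    have h1 : k ∈ commutator K := by rw [hK]; trivial
    exact Abelianization.commutator_subset_ker
      (π.comp (MonoidHom.mulSingle (fun _ : P => K) s)) h1
  rw [eq_top_iff]
  intro g _
  have h3 : g ∈ π.ker := by
    have h4 := Finset.noncommProd_mulSingle g
    rw [← h4]
    exact Subgroup.noncommProd_mem _ _ fun s _ => h2 s (g s)
  exact (QuotientGroup.eq_one_iff g).mp h3

/-- `H` is perfect and has a maximal subgroup with trivial core which has a complement that is an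
abelian normal subgroup of order a power of `q`. -/
def PP (q : ℕ) (H : Type) [Group H] : Prop := commutator H = ⊤ ∧ Prim q H

variable {W : Type} [CommGroup W] {e : ℕ} (S : Seed W e) [Finite W] [NeZero e] {q d : ℕ}
  (hW : Nat.card W = q ^ d)

include hW in
/-- the groups for `G` itself -/
theorem one_fam (G : Type) [Group G] [Finite G] :
    ∃ (V L : Type) (_ : CommGroup V) (_ : Group L) (_ : Finite V) (_ : Finite L)
      (φ : L →* MulAut V) (j : G →* L) (θ : V →* ℂ), Function.Injective j ∧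
      (∀ l : L, (∀ v, θ (φ l v) = θ v) ↔ ∃ g, j g = l) ∧
      PP q (V ⋊[φ] L) ∧ (∃ k, Nat.card V = q ^ k) ∧
      ∀ σ : ℂ ≃+* ℂ, (∀ i w, σ (S.th i w) = S.th i w) → ∀ v, σ (θ v) = θ v := by
  obtain ⟨n₀, hn₀⟩ := emb_alt G
  obtain ⟨i, hi⟩ := hn₀ (max n₀ 5) (le_max_left _ _)
  have h5 : 5 ≤ max n₀ 5 := le_max_right _ _
  have hK := commutator_alternatingGroup_eq_top (α := Fin (max n₀ 5)) (by simp)
  have h3 : 3 ≤ Nat.card (alternatingGroup (Fin (max n₀ 5))) := by
    have : Nontrivial (Fin (max n₀ 5)) := Fin.nontrivial_iff_two_le.mpr (by omega)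
    have h1 := nat_card_alternatingGroup (α := Fin (max n₀ 5))
    have h2 : Nat.factorial 5 ≤ Nat.factorial (max n₀ 5) := Nat.factorial_le h5
    rw [Nat.card_eq_fintype_card (α := Fin _), Fintype.card_fin] at h1
    rw [h1]
    have h4 : Nat.factorial 5 = 120 := rfl
    omega
  let ψ : G →* (PUnit → G) :=
    { toFun := fun g _ => g
      map_one' := rfl
      map_mul' := fun _ _ => rfl }
  have hψ : Function.Bijective ψ := ⟨fun a b h => congrFun h PUnit.unit, fun g => ⟨g PUnit.unit, by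
    funext x
    rfl⟩⟩
  have hP : commutator PUnit = ⊤ := Subsingleton.elim _ _
  obtain ⟨V, L, i1, i2, i3, i4, φ, j, θ, h1, h2, h4, h6, -, -, h7, h8⟩ :=
    fam_core S (K := alternatingGroup (Fin (max n₀ 5))) (P := PUnit) hW hK hP h3 i hi ψ hψ
  exact ⟨V, L, i1, i2, i3, i4, φ, j, θ, h1, h2, ⟨h4, h6⟩, h7, h8⟩

include hW in
theorem pow_fam_aux {K A G : Type} [Group K] [Finite K] [Group A] [Finite A] [Group G]
    (hK : commutator K = ⊤) (hA : commutator A = ⊤) (h3 : 3 ≤ Nat.card K) (h3A : 3 ≤ Nat.card A)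
    (i : G →* K) (hi : Function.Injective i) :
    ∃ C : ℕ, 0 < C ∧ ∀ m₀ : ℕ, ∃ m : ℕ, m₀ ≤ m ∧
      ∃ (V L : Type) (_ : CommGroup V) (_ : Group L) (_ : Finite V) (_ : Finite L)
      (φ : L →* MulAut V) (j : (Fin m → G) →* L) (θ : V →* ℂ), Function.Injective j ∧
      (∀ l : L, (∀ v, θ (φ l v) = θ v) ↔ ∃ g, j g = l) ∧
      PP q (V ⋊[φ] L) ∧ Nat.card (V ⋊[φ] L) ≤ C ^ m ∧ m ≤ Nat.card (V ⋊[φ] L) ∧
      (∃ k, Nat.card V = q ^ k) ∧
      ∀ σ : ℂ ≃+* ℂ, (∀ i w, σ (S.th i w) = S.th i w) → ∀ v, σ (θ v) = θ v := by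
  have hw : 0 < Nat.card W := Nat.card_pos
  have hk : 0 < Nat.card K := Nat.card_pos
  have he : 0 < e := NeZero.pos e
  refine ⟨Nat.card W ^ Nat.card K * e ^ Nat.card K * Nat.card K * 2, by positivity,
    fun m₀ => ?_⟩
  have hcard : Nat.card (Fin m₀ → A) = Nat.card A ^ m₀ := by
    rw [Nat.card_fun, Nat.card_eq_fintype_card (α := Fin m₀), Fintype.card_fin]
  refine ⟨Nat.card A ^ m₀, (Nat.lt_pow_self (by omega)).le, ?_⟩
  let ε : (Fin m₀ → A) ≃ Fin (Nat.card A ^ m₀) := (Finite.equivFin _).trans (finCongr hcard)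
  let ψ : (Fin (Nat.card A ^ m₀) → G) →* ((Fin m₀ → A) → G) :=
    { toFun := fun g s => g (ε s)
      map_one' := rfl
      map_mul' := fun _ _ => rfl }
  have hψ : Function.Bijective ψ := by
    constructor
    · intro a b h
      funext x
      have h1 := congrFun h (ε.symm x)
      change a (ε (ε.symm x)) = b (ε (ε.symm x)) at h1
      rwa [ε.apply_symm_apply] at h1
    · intro g
      refine ⟨fun x => g (ε.symm x), ?_⟩
      funext s
      change g (ε.symm (ε s)) = g s
      rw [ε.symm_apply_apply]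
  obtain ⟨V, L, i1, i2, i3, i4, φ, j, θ, h1, h2, h4, h6, c1, c2, h7, h8⟩ :=
    fam_core S (K := K) (P := Fin m₀ → A) hW hK (pi_perfect hA) h3 i hi ψ hψ
  rw [hcard] at c1 c2
  exact ⟨V, L, i1, i2, i3, i4, φ, j, θ, h1, h2, ⟨h4, h6⟩, c1, c2, h7, h8⟩

theorem alt_card {n : ℕ} (hn : 5 ≤ n) : 3 ≤ Nat.card (alternatingGroup (Fin n)) := by
  have : Nontrivial (Fin n) := Fin.nontrivial_iff_two_le.mpr (by omega)
  have h1 := nat_card_alternatingGroup (α := Fin n)
  have h2 : Nat.factorial 5 ≤ Nat.factorial n := Nat.factorial_le hn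
  rw [Nat.card_eq_fintype_card (α := Fin _), Fintype.card_fin] at h1
  rw [h1]
  have h4 : Nat.factorial 5 = 120 := rfl
  omega

include hW in
/-- the groups for the powers of `G` -/
theorem pow_fam (G : Type) [Group G] [Finite G] :
    ∃ C : ℕ, 0 < C ∧ ∀ m₀ : ℕ, ∃ m : ℕ, m₀ ≤ m ∧
      ∃ (V L : Type) (_ : CommGroup V) (_ : Group L) (_ : Finite V) (_ : Finite L)
      (φ : L →* MulAut V) (j : (Fin m → G) →* L) (θ : V →* ℂ), Function.Injective j ∧
      (∀ l : L, (∀ v, θ (φ l v) = θ v) ↔ ∃ g, j g = l) ∧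
      PP q (V ⋊[φ] L) ∧ Nat.card (V ⋊[φ] L) ≤ C ^ m ∧ m ≤ Nat.card (V ⋊[φ] L) ∧
      (∃ k, Nat.card V = q ^ k) ∧
      ∀ σ : ℂ ≃+* ℂ, (∀ i w, σ (S.th i w) = S.th i w) → ∀ v, σ (θ v) = θ v := by
  obtain ⟨n₀, hn₀⟩ := emb_alt G
  obtain ⟨i, hi⟩ := hn₀ (max n₀ 5) (le_max_left _ _)
  exact pow_fam_aux S hW (commutator_alternatingGroup_eq_top (α := Fin (max n₀ 5)) (by simp))
    (commutator_alternatingGroup_eq_top (α := Fin 5) (by simp)) (alt_card (le_max_right _ _))
    (alt_card le_rfl) i hi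

end final

end Run7.h45.PV
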