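import Pool.Agent.N85.WM.Fin

/-!
# Blocks of direct powers
-/

set_option autoImplicit false
set_option linter.unusedSectionVars false

open scoped Classical BigOperators

noncomputable section

namespace Run7.h45

open Pool.Agent.Y63.NV Pool.Agent.N85.WM
open Pool.Agent.Y63.NV.B48B (CF rs card_fib)

section cnt

variable {F : Type} [Field F] {G : Type} [Group G] [Finite G]

/-- counting in blocks and counting with one class function, an inequality -/
theorem cnt_le {X Y : Type} [Finite X] [Finite Y] (a : X → (G → F) → F) (b : Y → (G → F) → F)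
    (ha : ∀ x, IsBlock (a x)) (hb : ∀ y, IsBlock (b y)) (C : ℝ)
    (h : ∀ B : (G → F) → F, IsBlock B →
      (Nat.card {x // BEq (a x) B} : ℝ) ≤ C * (Nat.card {y // BEq (b y) B} : ℝ))
    {z : G → F} (hz : IsClassFun z) (c : F) :
    (Nat.card {x // a x z = c} : ℝ) ≤ C * (Nat.card {y // b y z = c} : ℝ) := by
  have : Fintype X := Fintype.ofFinite X
  have : Fintype Y := Fintype.ofFinite Y
  let rX : X → (CF G F → F) := fun x => rs (a x)
  let rY : Y → (CF G F → F) := fun y => rs (b y)
  let S : Finset (CF G F → F) := Finset.univ.image rX ∪ Finset.univ.image rY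
  have hS : ∀ β ∈ S, ∃ B : (G → F) → F, IsBlock B ∧ rs B = β := by
    intro β hβ
    rcases Finset.mem_union.1 hβ with h | h
    · obtain ⟨x, -, rfl⟩ := Finset.mem_image.1 h
      exact ⟨a x, ha x, rfl⟩
    · obtain ⟨y, -, rfl⟩ := Finset.mem_image.1 h
      exact ⟨b y, hb y, rfl⟩
  have e1 : Nat.card {x // a x z = c} =
      ∑ β ∈ S, if β ⟨z, hz⟩ = c then Nat.card {x // rX x = β} else 0 :=
    card_fib rX S (fun x => Finset.mem_union_left _
      (Finset.mem_image_of_mem _ (Finset.mem_univ x))) (fun β => β ⟨z, hz⟩ = c)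
  have e2 : Nat.card {y // b y z = c} =
      ∑ β ∈ S, if β ⟨z, hz⟩ = c then Nat.card {y // rY y = β} else 0 :=
    card_fib rY S (fun y => Finset.mem_union_right _
      (Finset.mem_image_of_mem _ (Finset.mem_univ y))) (fun β => β ⟨z, hz⟩ = c)
  have e : ∀ {W : Type} (d : W → (G → F) → F) (B : (G → F) → F),
      Nat.card {w // rs (d w) = (rs B : CF G F → F)} = Nat.card {w // BEq (d w) B} := by
    intro W d B
    refine Nat.card_congr (Equiv.subtypeEquivRight fun w => ?_)
    constructor
    · intro h f hf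
      exact congrFun h ⟨f, hf⟩
    · intro h
      funext f
      exact h f.1 f.2
  rw [e1, e2, Nat.cast_sum, Nat.cast_sum, Finset.mul_sum]
  refine Finset.sum_le_sum fun β hβ => ?_
  obtain ⟨B, hB, rfl⟩ := hS β hβ
  by_cases hc : (rs B : CF G F → F) ⟨z, hz⟩ = c
  · rw [if_pos hc, if_pos hc]
    have h3 := h B hB
    rw [← e a, ← e b] at h3
    exact h3
  · rw [if_neg hc, if_neg hc]
    simp

end cnt

section pow

variable {p : ℕ} [Fact p.Prime] {F : Type} [Field F] [IsAlgClosed F] [CharP F p]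
  (red : integralClosure ℤ ℂ →+* F) {ι G : Type} [Fintype ι] [Group G] [Finite G]

theorem tens_cl {e : G → F} (he : IsClassFun e) : IsClassFun (tensF fun _ : ι => e) := by
  intro g x
  unfold tensF
  exact Finset.prod_congr rfl fun i _ => he (g i) (x i)

omit [Finite G] in
theorem card_A' (e : G → F) [Finite G] :
    Lnum (⊤ : Subgroup G) ⊤ e 1 = Nat.card (Lw.A e) := Lw.card_A e

variable (p) in
include p in
/-- the number of traces of the direct power -/
theorem lnum_pow {e : G → F} (he : IsIdem e) :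
    Nat.card {φ : {φ : (ι → G) → F // IsIrrTrace φ} // blkOf φ (tensF fun _ : ι => e) = 1} =
      Nat.card {φ : {φ : G → F // IsIrrTrace φ} // blkOf φ e = 1} ^ Fintype.card ι := by
  rw [← lnum_top (tens_cl he.cl), ← lnum_top he.cl, card_A', card_A']
  obtain ⟨h1, h2⟩ := Pir.main p F ι G
  let T : (ι → Lw.A e) → Lw.A (tensF fun _ : ι => e) := fun θ =>
    ⟨tensF (fun i => (θ i).1), (h1 _).2 ⟨_, fun i => (θ i).2.1, rfl⟩, fun x => by
      have h3 := (Lw.key (fun i => (θ i).1) (fun i => (θ i).2.1) e he).2 (fun i => (θ i).2.2) x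
      rw [one_mul] at h3
      exact h3⟩
  have hT : Function.Bijective T := by
    constructor
    · intro θ θ' hh
      have h3 := congrArg Subtype.val hh
      have h4 := h2 _ _ (fun i => (θ i).2.1) (fun i => (θ' i).2.1) h3
      funext i
      exact Subtype.ext (congrFun h4 i)
    · rintro ⟨φ, hφ, hc⟩
      obtain ⟨θ, hθ, rfl⟩ := (h1 φ).1 hφ
      refine ⟨fun i => ⟨θ i, hθ i, (Lw.key θ hθ e he).1 (fun x => ?_) i⟩, rfl⟩
      rw [one_mul]
      exact hc x
  rw [← Nat.card_congr (Equiv.ofBijective T hT), Nat.card_pi, Finset.prod_const, Finset.card_univ]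

/-- the number of weights of the direct power -/
theorem wnum_pow {e : G → F} (he : IsIdem e) :
    Nat.card {y : YS p (ι → G) // cvS red y (tensF fun _ : ι => e) = 1} =
      Nat.card {y : YS p G // cvS red y e = 1} ^ Fintype.card ι := by
  have h1 := wsum_top (p := p) red (tens_cl (ι := ι) he.cl) 1
  have h2 := wsum_top (p := p) red he.cl 1
  have h3 := Ww.wsum_tot (p := p) red (tensF fun _ : ι => e) 1
  have h4 := Ww.wsum_tot (p := p) red e 1
  have h5 := Ww.tot_pi (ι := ι) (p := p) (red := red) Wpi.main Wpi.wpc he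
  rw [h1] at h3
  rw [h2] at h4
  have h6 : (Nat.card (ι → G) : ℤ) * (Nat.card {y : YS p (ι → G) //
      cvS red y (tensF fun _ : ι => e) = 1} : ℤ) =
      ((Nat.card G : ℤ) * (Nat.card {y : YS p G // cvS red y e = 1} : ℤ)) ^ Fintype.card ι := by
    rw [h3, h4]
    exact h5
  have h7 : (Nat.card (ι → G) : ℤ) = (Nat.card G : ℤ) ^ Fintype.card ι := by
    rw [Nat.card_pi, Finset.prod_const, Finset.card_univ]
    push_cast
    rfl
  rw [h7, mul_pow] at h6
  have h8 : ((Nat.card G : ℤ) ^ Fintype.card ι) ≠ 0 :=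
    pow_ne_zero _ (by exact_mod_cast (Nat.card_pos (α := G)).ne')
  exact_mod_cast mul_left_cancel₀ h8 h6

/-- bounds for the quotient of `l` and `w` for the blocks of a direct power -/
theorem pow_le (C : ℝ) (h1 : ∀ B : ((ι → G) → F) → F, IsBlock B →
      (numIrrBlock B : ℝ) ≤ C * numWts p red B)
    (h2 : ∀ B : ((ι → G) → F) → F, IsBlock B →
      (numWts p red B : ℝ) ≤ C * numIrrBlock B) {B : (G → F) → F} (hB : IsBlock B) :
    (numIrrBlock B : ℝ) ^ Fintype.card ι ≤ C * (numWts p red B : ℝ) ^ Fintype.card ι ∧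
    (numWts p red B : ℝ) ^ Fintype.card ι ≤ C * (numIrrBlock B : ℝ) ^ Fintype.card ι := by
  obtain ⟨e, he, e1, e2⟩ := idem_num red hB
  rw [lnum_top he.cl] at e1
  have a1 := lnum_pow p (ι := ι) he
  have a2 := wnum_pow (p := p) red (ι := ι) he
  rw [← e1] at a1
  rw [← e2] at a2
  have b1 := cnt_le (fun φ : {φ : (ι → G) → F // IsIrrTrace φ} => blkOf φ)
    (fun y : YS p (ι → G) => cvS red y) blkOf_block (cvS_block red) C (fun B hB => by
      have h3 := h1 B hB
      rwa [numIrrBlock_eq, numWts_eq] at h3) (tens_cl (ι := ι) he.cl) 1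
  have b2 := cnt_le (fun y : YS p (ι → G) => cvS red y)
    (fun φ : {φ : (ι → G) → F // IsIrrTrace φ} => blkOf φ) (cvS_block red) blkOf_block C
    (fun B hB => by
      have h3 := h2 B hB
      rwa [numIrrBlock_eq, numWts_eq] at h3) (tens_cl (ι := ι) he.cl) 1
  rw [a1, a2] at b1
  rw [a1, a2] at b2
  push_cast at b1 b2
  exact ⟨b1, b2⟩

end pow

end Run7.h45
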