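import Pool.Agent.Run7.h45.PV1
import Pool.Agent.Run7.h45.Kp2

/-!
# Irreducible cyclic modules and monomial modules
-/

set_option autoImplicit false
set_option linter.unusedSectionVars false

open scoped Classical BigOperators

noncomputable section

namespace Run7.h45.QP

open Run7.h45.PV (Prim semi_prim)

/-- A finite abelian group `W` with an irreducible action of a commutative group `E`, without common
fixed points of some element, such that `E` acts regularly on the orbits of nontrivial characters. -/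
structure Seed (W E : Type) [CommGroup W] [CommGroup E] where
  /-- the action -/
  act : E →* MulAut W
  nt : ∃ w : W, w ≠ 1
  irr : ∀ U : Subgroup W, (∀ a, ∀ w ∈ U, act a w ∈ U) → U ≠ ⊥ → U = ⊤
  fpf : ∃ a, ∀ w, act a w = w → w = 1
  reg : ∀ (χ : W →* ℂ) (a : E), (∀ w, χ (act a w) = χ w) → a = 1 ∨ χ = 1

/-! ## existence of seeds -/

section exist

variable (r e : ℕ) [hr : Fact r.Prime] [he : Fact e.Prime]

/-- the cyclic group of order `e` -/
abbrev Cy (e : ℕ) : Type := Multiplicative (ZMod e)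

instance neZ (e : ℕ) [he : Fact e.Prime] : NeZero e := ⟨he.out.ne_zero⟩

instance finCy : Finite (Cy e) := inferInstanceAs (Finite (ZMod e))

theorem card_cy : Nat.card (Cy e) = e := by
  change Nat.card (ZMod e) = e
  simp

theorem cy_gen {a : Cy e} (ha : a ≠ 1) (b : Cy e) : ∃ k : ℕ, a ^ k = b := by
  have h1 : Subgroup.zpowers a = ⊤ := by
    have : Fact (Nat.card (Cy e)).Prime := ⟨by rw [card_cy]; exact he.out⟩
    refine (Subgroup.eq_bot_or_eq_top_of_prime_card _).resolve_left fun h => ha ?_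
    rwa [Subgroup.zpowers_eq_bot] at h
  have h2 : b ∈ Subgroup.zpowers a := by rw [h1]; trivial
  rw [← mem_powers_iff_mem_zpowers] at h2
  obtain ⟨k, hk⟩ := h2
  exact ⟨k, hk⟩

theorem dd_val_self {X : Type} [Finite X] {q : ℕ} {x y : X} (h : x ≠ y) : (dd q x y).val x = 1 := by
  change (Pi.single x 1 - Pi.single y 1 : X → ZMod q) x = 1
  rw [Pi.sub_apply, Pi.single_eq_same, Pi.single_eq_of_ne h, sub_zero]

/-- invariant subgroups of the zero-sum functions -/
def Inv (U : Subgroup (ZS r (Cy e))) : Prop :=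
  ∀ a, ∀ w ∈ U, zsAct r (Cy e) (Cy e) a w ∈ U

theorem exists_min : ∃ U : Subgroup (ZS r (Cy e)), Inv r e U ∧ U ≠ ⊥ ∧
    ∀ U' : Subgroup (ZS r (Cy e)), Inv r e U' → U' ≠ ⊥ → U' ≤ U → U' = U := by
  have hex : ∃ n, ∃ U : Subgroup (ZS r (Cy e)), Inv r e U ∧ U ≠ ⊥ ∧ Nat.card U = n := by
    refine ⟨_, ⊤, fun _ _ _ => trivial, ?_, rfl⟩
    intro h
    have h1 : dd r (1 : Cy e) (Multiplicative.ofAdd 1) ∈ (⊤ : Subgroup (ZS r (Cy e))) := trivial
    rw [h, Subgroup.mem_bot] at h1
    have h2 : (dd r (1 : Cy e) (Multiplicative.ofAdd 1)).val 1 = 0 := by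
      rw [h1]
      rfl
    have h3 : (1 : Cy e) ≠ Multiplicative.ofAdd 1 := by
      intro h4
      have h5 : (0 : ZMod e) = 1 := h4
      have : Fact (1 < e) := ⟨he.out.one_lt⟩
      exact zero_ne_one h5
    rw [dd_val_self h3] at h2
    have : Fact (1 < r) := ⟨hr.out.one_lt⟩
    exact one_ne_zero h2
  obtain ⟨U, h1, h2, h3⟩ := Nat.find_spec hex
  refine ⟨U, h1, h2, fun U' h4 h5 h6 => ?_⟩
  have h7 : Nat.card U ≤ Nat.card U' := by
    rw [h3]
    exact Nat.find_min' hex ⟨U', h4, h5, rfl⟩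
  exact Subgroup.eq_of_le_of_card_ge h6 h7

/-- a minimal invariant subgroup -/
def minU : Subgroup (ZS r (Cy e)) := (exists_min r e).choose

theorem minU_inv (a : Cy e) (w : ZS r (Cy e)) (hw : w ∈ minU r e) :
    zsAct r (Cy e) (Cy e) a w ∈ minU r e := (exists_min r e).choose_spec.1 a w hw

/-- the action on the minimal invariant subgroup -/
def minAct : Cy e →* MulAut (minU r e) where
  toFun a :=
    { toFun := fun w => ⟨zsAct r (Cy e) (Cy e) a w, minU_inv r e a w w.2⟩
      invFun := fun w => ⟨zsAct r (Cy e) (Cy e) a⁻¹ w, minU_inv r e a⁻¹ w w.2⟩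
      left_inv := fun w => Subtype.ext (by
        change zsAct r (Cy e) (Cy e) a⁻¹ (zsAct r (Cy e) (Cy e) a w) = w
        rw [← MulAut.mul_apply, ← map_mul, inv_mul_cancel, map_one, MulAut.one_apply])
      right_inv := fun w => Subtype.ext (by
        change zsAct r (Cy e) (Cy e) a (zsAct r (Cy e) (Cy e) a⁻¹ w) = w
        rw [← MulAut.mul_apply, ← map_mul, mul_inv_cancel, map_one, MulAut.one_apply])
      map_mul' := fun v w => Subtype.ext (map_mul _ _ _) }
  map_one' := MulEquiv.ext fun w => Subtype.ext (by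
    change zsAct r (Cy e) (Cy e) 1 w = w
    rw [map_one, MulAut.one_apply])
  map_mul' a b := MulEquiv.ext fun w => Subtype.ext (by
    change zsAct r (Cy e) (Cy e) (a * b) w = _
    rw [map_mul, MulAut.mul_apply]
    rfl)

theorem min_exp (w : minU r e) : w ^ r = 1 := by
  apply Subtype.ext
  have h1 : ∀ f : ZS r (Cy e), f ^ r = 1 := by
    intro f
    have hp : ∀ k : ℕ, (f ^ k).val = k • f.val := by
      intro k
      induction k with
      | zero => rw [pow_zero, zero_smul]; rfl
      | succ k ih => rw [pow_succ, ZS.val_mul, ih, succ_nsmul]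
    apply ZS.ext
    rw [hp]
    funext x
    change r • f.val x = 0
    rw [nsmul_eq_mul, CharP.cast_eq_zero, zero_mul]
  exact h1 w

theorem min_fix (her : e ≠ r) (w : minU r e) (h : minAct r e (Multiplicative.ofAdd 1) w = w) :
    w = 1 := by
  have h1 : zsAct r (Cy e) (Cy e) (Multiplicative.ofAdd 1) w = w := congrArg Subtype.val h
  -- constancy
  have h2 : ∀ k : ℕ, ∀ x : Cy e, (w : ZS r (Cy e)).val ((Multiplicative.ofAdd 1 : Cy e)⁻¹ ^ k * x) =
      (w : ZS r (Cy e)).val x := by
    intro k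
    induction k with
    | zero => intro x; rw [pow_zero, one_mul]
    | succ k ih =>
      intro x
      rw [pow_succ', mul_assoc]
      have h3 := congrArg (fun f : ZS r (Cy e) => f.val
        ((Multiplicative.ofAdd 1 : Cy e)⁻¹ ^ k * x)) h1
      change (w : ZS r (Cy e)).val ((Multiplicative.ofAdd 1 : Cy e)⁻¹ •
        ((Multiplicative.ofAdd 1 : Cy e)⁻¹ ^ k * x)) = _ at h3
      rw [smul_eq_mul] at h3
      rw [h3]
      exact ih x
  have hne : (Multiplicative.ofAdd 1 : Cy e)⁻¹ ≠ 1 := by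
    intro h4
    rw [inv_eq_one] at h4
    have h5 : (1 : ZMod e) = 0 := h4
    have : Fact (1 < e) := ⟨he.out.one_lt⟩
    exact one_ne_zero h5
  have h3 : ∀ x : Cy e, (w : ZS r (Cy e)).val x = (w : ZS r (Cy e)).val 1 := by
    intro x
    obtain ⟨k, hk⟩ := cy_gen e hne x
    have h4 := h2 k 1
    rw [mul_one, hk] at h4
    exact h4
  have f1 : Fintype (Cy e) := Fintype.ofFinite _
  have h4 := (mem_zs _).mp (w : ZS r (Cy e)).sum
  rw [Finset.sum_congr rfl fun x _ => h3 x, Finset.sum_const, Finset.card_univ,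
    ← Nat.card_eq_fintype_card, card_cy, nsmul_eq_mul] at h4
  have h5 : ((e : ℕ) : ZMod r) ≠ 0 := by
    intro h6
    rw [ZMod.natCast_eq_zero_iff] at h6
    exact her ((Nat.prime_dvd_prime_iff_eq hr.out he.out).mp h6).symm
  have h6 := (mul_eq_zero.mp h4).resolve_left h5
  apply Subtype.ext
  apply ZS.ext
  funext x
  rw [h3 x, h6]
  rfl

/-- **The seeds.** -/
def seed (her : e ≠ r) : Seed (minU r e) (Cy e) where
  act := minAct r e
  nt := by
    obtain ⟨x, hx⟩ := Subgroup.ne_bot_iff_exists_ne_one.mp (exists_min r e).choose_spec.2.1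
    exact ⟨x, hx⟩
  irr U hU hne := by
    have h1 : (U.map (minU r e).subtype) = minU r e := by
      refine (exists_min r e).choose_spec.2.2 _ ?_ ?_ ?_
      · rintro a _ ⟨w, hw, rfl⟩
        exact ⟨minAct r e a w, hU a w hw, rfl⟩
      · intro h
        apply hne
        rw [Subgroup.map_eq_bot_iff] at h
        rw [eq_bot_iff]
        intro x hx
        have h2 := h hx
        rwa [Subgroup.ker_subtype] at h2
      · rintro _ ⟨w, hw, rfl⟩
        exact w.2
    rw [eq_top_iff]
    intro x _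
    have h2 : (x : ZS r (Cy e)) ∈ U.map (minU r e).subtype := by rw [h1]; exact x.2
    obtain ⟨y, hy, hxy⟩ := h2
    rwa [← Subtype.ext (show (y : ZS r (Cy e)) = x from hxy)]
  fpf := ⟨Multiplicative.ofAdd 1, min_fix r e her⟩
  reg χ a h := by
    by_cases ha : a = 1
    · exact Or.inl ha
    · right
      have hfix : ∀ w, minAct r e a w = w → w = 1 := by
        intro w hw
        obtain ⟨k, hk⟩ := cy_gen e ha (Multiplicative.ofAdd 1)
        apply min_fix r e her
        rw [← hk, map_pow]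
        clear hk
        induction k with
        | zero => rw [pow_zero, MulAut.one_apply]
        | succ k ih => rw [pow_succ, MulAut.mul_apply, hw, ih]
      let g : minU r e →* minU r e :=
        { toFun := fun w => minAct r e a w * w⁻¹
          map_one' := by rw [map_one, inv_one, mul_one]
          map_mul' := fun v w => by
            rw [map_mul, mul_inv]
            exact mul_mul_mul_comm _ _ _ _ }
      have hg : Function.Injective g := by
        rw [injective_iff_map_eq_one]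
        intro w hw
        exact hfix w (mul_inv_eq_one.mp hw)
      have hs := Finite.injective_iff_surjective.mp hg
      ext w
      obtain ⟨v, rfl⟩ := hs w
      change χ (minAct r e a v * v⁻¹) = 1
      rw [map_mul, h v, ← map_mul, mul_inv_cancel, map_one]

theorem card_minU : ∃ d : ℕ, Nat.card (minU r e) = r ^ d := by
  have h1 : IsPGroup r (minU r e) := fun w => ⟨1, by rw [pow_one]; exact min_exp r e w⟩
  exact IsPGroup.iff_card.mp h1

end exist

/-! ## monomial modules -/

section mono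

variable {W E : Type} [CommGroup W] [CommGroup E] (S : Seed W E) {Ω X : Type} [Group X]
  [MulAction X Ω]

/-- `X` acts on the functions `Ω → E` -/
def arr (X Ω E : Type) [CommGroup E] [Group X] [MulAction X Ω] : X →* MulAut (Ω → E) where
  toFun x :=
    { toFun := fun f ω => f (x⁻¹ • ω)
      invFun := fun f ω => f (x • ω)
      left_inv := fun f => by
        funext ω
        exact congrArg f (inv_smul_smul x ω)
      right_inv := fun f => by
        funext ω
        exact congrArg f (smul_inv_smul x ω)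
      map_mul' := fun f g => rfl }
  map_one' := MulEquiv.ext fun f => by
    funext ω
    change f ((1 : X)⁻¹ • ω) = f ω
    rw [inv_one, one_smul]
  map_mul' x y := MulEquiv.ext fun f => by
    funext ω
    change f ((x * y)⁻¹ • ω) = f (y⁻¹ • x⁻¹ • ω)
    rw [mul_inv_rev, mul_smul]

/-- the group `E ≀ X` -/
abbrev MM (E Ω X : Type) [CommGroup E] [Group X] [MulAction X Ω] : Type := (Ω → E) ⋊[arr X Ω E] X

/-- the action of an element -/
def mF (l : MM E Ω X) (v : Ω → W) : Ω → W := fun ω => S.act (l.left ω) (v (l.right⁻¹ • ω))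

theorem mF_one (v : Ω → W) : mF S (1 : MM E Ω X) v = v := by
  funext ω
  change S.act 1 (v ((1 : X)⁻¹ • ω)) = v ω
  rw [inv_one, one_smul, map_one, MulAut.one_apply]

theorem mF_mul (l m : MM E Ω X) (v : Ω → W) : mF S (l * m) v = mF S l (mF S m v) := by
  funext ω
  change S.act (l.left ω * m.left (l.right⁻¹ • ω)) (v ((l.right * m.right)⁻¹ • ω)) =
    S.act (l.left ω) (S.act (m.left (l.right⁻¹ • ω)) (v (m.right⁻¹ • l.right⁻¹ • ω)))
  rw [map_mul, MulAut.mul_apply, mul_inv_rev, mul_smul]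

/-- the action on `Ω → W` -/
def mo : MM E Ω X →* MulAut (Ω → W) where
  toFun l :=
    { toFun := mF S l
      invFun := mF S l⁻¹
      left_inv := fun v => by rw [← mF_mul, inv_mul_cancel, mF_one]
      right_inv := fun v => by rw [← mF_mul, mul_inv_cancel, mF_one]
      map_mul' := fun v w => by
        funext ω
        change S.act _ (v (l.right⁻¹ • ω) * w (l.right⁻¹ • ω)) = _
        rw [map_mul]
        rfl }
  map_one' := MulEquiv.ext (mF_one S)
  map_mul' l m := MulEquiv.ext (mF_mul S l m)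

theorem mo_apply (l : MM E Ω X) (v : Ω → W) (ω : Ω) :
    mo S l v ω = S.act (l.left ω) (v (l.right⁻¹ • ω)) := rfl

include S in
theorem exists_chi [Finite W] : ∃ χ : W →* ℂ, χ ≠ 1 := by
  obtain ⟨w, hw⟩ := S.nt
  by_contra h
  push Not at h
  have h1 : Nat.card (W →* ℂ) = 1 := by
    have : Unique (W →* ℂ) := ⟨⟨1⟩, h⟩
    exact Nat.card_unique
  rw [card_dual] at h1
  have : Subsingleton W := (Nat.card_eq_one_iff_unique.mp h1).1
  exact hw (Subsingleton.elim _ _)

theorem act_inj [Finite W] {a : E} (h : ∀ w, S.act a w = w) : a = 1 := by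
  obtain ⟨χ, hχ⟩ := exists_chi S
  exact (S.reg χ a fun w => by rw [h]).resolve_right hχ

theorem mo_inj [Finite W] [FaithfulSMul X Ω] : Function.Injective (mo S (Ω := Ω) (X := X)) := by
  rw [injective_iff_map_eq_one]
  intro l hl
  have h1 : ∀ (v : Ω → W) (ω : Ω), S.act (l.left ω) (v (l.right⁻¹ • ω)) = v ω := by
    intro v ω
    rw [← mo_apply, hl, MulAut.one_apply]
  obtain ⟨w, hw⟩ := S.nt
  have h2 : ∀ ω : Ω, l.right⁻¹ • ω = ω := by
    intro ω
    by_contra h3
    have h4 := h1 (Pi.mulSingle (l.right⁻¹ • ω) w) ω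
    rw [Pi.mulSingle_eq_same, Pi.mulSingle_eq_of_ne (fun h => h3 h.symm)] at h4
    exact hw ((map_eq_one_iff (S.act _) (S.act _).injective).mp h4)
  have h3 : l.right = 1 := by
    have h4 : l.right⁻¹ = 1 := eq_of_smul_eq_smul (α := Ω) fun ω => by rw [h2, one_smul]
    exact inv_eq_one.mp h4
  ext1
  · funext ω
    exact act_inj S fun w => h1 (fun _ => w) ω
  · exact h3

/-- the action is irreducible -/
theorem mo_irr [Finite Ω] [MulAction.IsPretransitive X Ω] (U : Subgroup (Ω → W))
    (hU : ∀ l, ∀ v ∈ U, mo S (X := X) l v ∈ U) (hne : U ≠ ⊥) : U = ⊤ := by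
  have f1 : Fintype Ω := Fintype.ofFinite Ω
  obtain ⟨⟨u, hu⟩, hu1'⟩ := Subgroup.ne_bot_iff_exists_ne_one.mp hne
  have hu1 : u ≠ 1 := fun h => hu1' (Subtype.ext h)
  obtain ⟨ω₀, hω₀⟩ : ∃ ω, u ω ≠ 1 := by
    by_contra h
    push Not at h
    exact hu1 (funext h)
  obtain ⟨a, ha⟩ := S.fpf
  have val : ∀ (b : E) (v : Ω → W) (ω : Ω),
      mo S (X := X) (SemidirectProduct.inl (Pi.mulSingle ω₀ b)) v ω =
        S.act ((Pi.mulSingle ω₀ b : Ω → E) ω) (v ω) := by
    intro b v ω
    rw [mo_apply]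
    change S.act _ (v ((1 : X)⁻¹ • ω)) = _
    rw [inv_one, one_smul]
    rfl
  obtain ⟨u₂, hu₂, b1, b2⟩ : ∃ u₂ ∈ U, u₂ ω₀ ≠ 1 ∧ ∀ ω, ω ≠ ω₀ → u₂ ω = 1 := by
    refine ⟨u⁻¹ * mo S (X := X) (SemidirectProduct.inl (Pi.mulSingle ω₀ a)) u,
      U.mul_mem (U.inv_mem hu) (hU _ u hu), ?_, fun ω hx => ?_⟩
    · rw [Pi.mul_apply, Pi.inv_apply, val, Pi.mulSingle_eq_same]
      intro h
      exact hω₀ (ha _ (inv_mul_eq_one.mp h).symm)
    · rw [Pi.mul_apply, Pi.inv_apply, val, Pi.mulSingle_eq_of_ne hx, map_one, MulAut.one_apply,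
        inv_mul_cancel]
  have hU0 : U.comap (MonoidHom.mulSingle (fun _ : Ω => W) ω₀) = ⊤ := by
    refine S.irr _ (fun b w hw => ?_) ?_
    · change Pi.mulSingle ω₀ (S.act b w) ∈ U
      have h5 := hU (SemidirectProduct.inl (Pi.mulSingle ω₀ b)) _
        (show Pi.mulSingle ω₀ w ∈ U from hw)
      convert h5 using 1
      funext ω
      rw [val]
      by_cases hx : ω = ω₀
      · subst hx
        rw [Pi.mulSingle_eq_same, Pi.mulSingle_eq_same, Pi.mulSingle_eq_same]
      · rw [Pi.mulSingle_eq_of_ne hx, Pi.mulSingle_eq_of_ne hx, Pi.mulSingle_eq_of_ne hx, map_one]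
    · intro h
      have h5 : u₂ ω₀ ∈ U.comap (MonoidHom.mulSingle (fun _ : Ω => W) ω₀) := by
        change Pi.mulSingle ω₀ (u₂ ω₀) ∈ U
        have h6 : Pi.mulSingle ω₀ (u₂ ω₀) = u₂ := by
          funext ω
          by_cases hx : ω = ω₀
          · subst hx
            rw [Pi.mulSingle_eq_same]
          · rw [Pi.mulSingle_eq_of_ne hx, b2 ω hx]
        rw [h6]
        exact hu₂
      rw [h, Subgroup.mem_bot] at h5
      exact b1 h5
  have hs : ∀ (ω : Ω) (w : W), Pi.mulSingle ω w ∈ U := by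
    intro ω w
    obtain ⟨x, rfl⟩ := MulAction.exists_smul_eq X ω₀ ω
    have h5 : w ∈ U.comap (MonoidHom.mulSingle (fun _ : Ω => W) ω₀) := by rw [hU0]; trivial
    have h6 := hU (SemidirectProduct.inr x) _ (show Pi.mulSingle ω₀ w ∈ U from h5)
    convert h6 using 1
    funext ω
    rw [mo_apply]
    change _ = S.act 1 ((Pi.mulSingle ω₀ w : Ω → W) (x⁻¹ • ω))
    rw [map_one, MulAut.one_apply]
    by_cases hx : ω = x • ω₀
    · subst hx
      rw [inv_smul_smul, Pi.mulSingle_eq_same, Pi.mulSingle_eq_same]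
    · rw [Pi.mulSingle_eq_of_ne hx, Pi.mulSingle_eq_of_ne (fun h => hx (by
        rw [← h, smul_inv_smul]))]
  rw [eq_top_iff]
  intro v _
  rw [← Finset.univ_prod_mulSingle v]
  exact U.prod_mem fun ω _ => hs ω (v ω)

end mono

end Run7.h45.QP
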