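import Pool.Agent.Run7.h45.QP9

/-!
# Growth for the numbers of characters with degree in a class modulo `p`
-/

set_option autoImplicit false
set_option linter.unusedSectionVars false

open scoped Classical BigOperators

noncomputable section

namespace Run7.h45.QP

open Pool.Agent.Helper884 Pool.Agent.K3h3.KB Pool.Agent.K3h3.MK SemidirectProduct

variable {p : ℕ} [hp : Fact p.Prime] {e : ℕ} [he : Fact e.Prime] {W : Type} [CommGroup W]
  [Finite W] (S : Seed W (Cy e)) {s : ℤ} {b : (ZMod p)ˣ}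

theorem gd_stabI (hpe : ¬ p ∣ e) (hce : ic p e = 1) {X : Type} [Group X] [Finite X]
    (h : HP s b X) (θ : (X → W) →* ℂ) (hi : ¬ p ∣ (stL (mo S (X := X)) θ).index) :
    0 ≤ s * dI p (b * (ic p (stL (mo S (X := X)) θ).index)⁻¹) (stL (mo S (X := X)) θ) := by
  obtain ⟨A, Y, ψ, ⟨e1⟩⟩ := stab_struct S (X := X) θ
  have hc : Nat.card (X → Cy e) = e ^ Nat.card X := by rw [Nat.card_fun, card_cy]
  obtain ⟨i, -, hA⟩ := (Nat.dvd_prime_pow he.out).mp (hc ▸ Subgroup.card_subgroup_dvd_card A)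
  obtain ⟨j, -, hj⟩ := (Nat.dvd_prime_pow he.out).mp (hc ▸ Subgroup.index_dvd_card A)
  have h1 : (stL (mo S (X := X)) θ).index = A.index * Y.index := by
    have h2 := (stL (mo S (X := X)) θ).card_mul_index
    have h3 := A.card_mul_index
    have h4 := Y.card_mul_index
    have h5 : Nat.card (stL (mo S (X := X)) θ) = Nat.card A * Nat.card Y := by
      rw [Nat.card_congr e1.toEquiv, SemidirectProduct.card]
    have h6 : 0 < Nat.card (stL (mo S (X := X)) θ) := Nat.card_pos
    apply Nat.eq_of_mul_eq_mul_left h6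
    rw [h2, h5, SemidirectProduct.card, ← h3, ← h4]
    ring
  have h2 : ¬ p ∣ Y.index := fun h => hi (h1 ▸ h.mul_left _)
  have h3 : ¬ p ∣ e ^ j := fun h => hpe (hp.out.dvd_of_dvd_pow h)
  have h4 : ic p (stL (mo S (X := X)) θ).index = ic p Y.index := by
    rw [h1, hj, ic_mul h3 h2, ic_pow hpe hce, one_mul]
  rw [h4, dI_iso e1]
  exact gdI_semi ψ (by rw [hA]; exact fun h => hpe (hp.out.dvd_of_dvd_pow h))
    fun θ hθ => (h.sub Y h2).stab _ θ hθ

/-- **The lower bound.** -/
theorem Hk_geI (hpe : ¬ p ∣ e) (hce : ic p e = 1) (hpW : ¬ p ∣ Nat.card W) {L : Type} [Group L]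
    [Finite L] (h : HP s b L) (h1 : 0 < s * dI p b L) (k : ℕ) :
    (2 : ℤ) ^ (e ^ k) ≤ (Nat.card L * e ^ k : ℕ) * (s * dI p b (Hk S k L)) := by
  have hX : HP s b (XX e k L) := h.prod hpe hce k
  have hV : ¬ p ∣ Nat.card (XX e k L → W) := by
    rw [Nat.card_fun]
    exact fun h => hpW (hp.out.dvd_of_dvd_pow h)
  have hE : ¬ p ∣ Nat.card (XX e k L → Cy e) := by
    rw [Nat.card_fun, card_cy]
    exact fun h => hpe (hp.out.dvd_of_dvd_pow h)
  have g1 : s * dI p b (Mk e k L) ≤ s * dI p b (Hk S k L) :=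
    dI_le (mo S (X := XX e k L)) hV fun θ hθ => gd_stabI S hpe hce hX θ hθ
  have g2 := dI_ge (s := s) (b := b) (arr (XX e k L) (XX e k L) (Cy e)) hE
    (fun θ hθ => hX.stab _ θ hθ) (NL e k L) inferInstance
    (by
      rw [index_NL]
      exact fun h => hpe (hp.out.dvd_of_dvd_pow h)) fun θ hθ => by
        refine one_le_prodI hpe hce h h1 _ fun l => hθ ?_
        change (1 : TT e k) = 1
        rfl
  have g3 : e ^ e ^ k ≤ Nat.card {θ : (XX e k L → Cy e) →* ℂ //
      NL e k L ≤ stL (arr (XX e k L) (XX e k L) (Cy e)) θ} := by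
    have hf : Finite ((XX e k L → Cy e) →* ℂ) := finite_dual _
    have hf' : Finite (Cy e →* ℂ) := finite_dual _
    have h2 : Nat.card (TT e k → (Cy e →* ℂ)) = e ^ e ^ k := by
      rw [Nat.card_fun, card_dual, card_cy, card_TT]
    rw [← h2]
    exact Nat.card_le_card_of_injective (fun c => ⟨lam k c, lam_mem k c⟩) fun c c' h =>
      lam_inj k (congrArg Subtype.val h)
  have g4 : Nat.card (XX e k L) = Nat.card L * e ^ k := by
    rw [Nat.card_prod, card_TT]
  rw [g4] at g2
  have g5 : (2 : ℕ) ^ e ^ k ≤ e ^ e ^ k := Nat.pow_le_pow_left he.out.two_le _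
  calc (2 : ℤ) ^ (e ^ k) ≤ ((Nat.card {θ : (XX e k L → Cy e) →* ℂ //
      NL e k L ≤ stL (arr (XX e k L) (XX e k L) (Cy e)) θ} : ℕ) : ℤ) := by
        exact_mod_cast g5.trans g3
    _ ≤ (Nat.card L * e ^ k : ℕ) * (s * dI p b (Mk e k L)) := g2
    _ ≤ _ := mul_le_mul_of_nonneg_left g1 (by positivity)

include S in
/-- **All or nothing.** -/
theorem no_growthI (hpe : ¬ p ∣ e) (hce : ic p e = 1) (hpW : ¬ p ∣ Nat.card W) {L : Type}
    [Group L] [Finite L] (h : HP s b L) (h1 : 0 < s * dI p b L) (hs : |s| = 1)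
    (hyp : ∀ ε : ℝ, 0 < ε → ∃ C : ℝ, ∀ k : ℕ,
      |(dI p b (Hk S k L) : ℝ)| ≤ C * (Nat.card (Hk S k L) : ℝ) ^ ε) : False := by
  set B : ℕ := Nat.card W ^ Nat.card L * e ^ Nat.card L * Nat.card L * 2 with hB
  have hBpos : 0 < B := by
    have h1 : 0 < Nat.card W := Nat.card_pos
    have h2 : 0 < Nat.card L := Nat.card_pos
    have h3 : 0 < e := he.out.pos
    positivity
  refine grow_false (N := Nat.card L) he.out.two_le (C := B) (by exact_mod_cast hBpos)
    fun ε hε => ?_
  obtain ⟨C, hC⟩ := hyp ε hε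
  refine ⟨|C|, fun k => ?_⟩
  have h1 := Hk_geI S hpe hce hpW h h1 k
  have h2 := hC k
  have h3 := Hk_card S (L := L) k
  rw [← hB] at h3
  have h4 : ((s * dI p b (Hk S k L) : ℤ) : ℝ) ≤ |(dI p b (Hk S k L) : ℝ)| := by
    push_cast
    calc (s : ℝ) * dI p b (Hk S k L) ≤ |(s : ℝ) * dI p b (Hk S k L)| := le_abs_self _
      _ = |(dI p b (Hk S k L) : ℝ)| := by
        rw [abs_mul]
        have h5 : |(s : ℝ)| = 1 := by exact_mod_cast hs
        rw [h5, one_mul]
  have h5 : ((Nat.card (Hk S k L) : ℕ) : ℝ) ^ ε ≤ ((B : ℝ) ^ (e ^ k)) ^ ε := by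
    apply Real.rpow_le_rpow (Nat.cast_nonneg _) _ hε.le
    exact_mod_cast h3
  have h6 : (2 : ℝ) ^ (e ^ k) ≤ ((Nat.card L * e ^ k : ℕ) : ℝ) *
      ((s * dI p b (Hk S k L) : ℤ) : ℝ) := by
    exact_mod_cast h1
  calc (2 : ℝ) ^ (e ^ k) ≤ ((Nat.card L * e ^ k : ℕ) : ℝ) *
      ((s * dI p b (Hk S k L) : ℤ) : ℝ) := h6
    _ ≤ ((Nat.card L * e ^ k : ℕ) : ℝ) * (|C| * ((B : ℝ) ^ (e ^ k)) ^ ε) := by
      refine mul_le_mul_of_nonneg_left ?_ (Nat.cast_nonneg _)
      refine h4.trans (h2.trans ?_)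
      calc C * (Nat.card (Hk S k L) : ℝ) ^ ε ≤ |C| * (Nat.card (Hk S k L) : ℝ) ^ ε :=
            mul_le_mul_of_nonneg_right (le_abs_self C) (by positivity)
        _ ≤ _ := mul_le_mul_of_nonneg_left h5 (abs_nonneg C)
    _ = _ := by push_cast; ring

/-! ## the shift of the class -/

section shift

/-- `C_t × G` -/
abbrev TG (t : ℕ) (G : Type) : Type := Cy t × G

theorem dI_zero_semi {V L : Type} [CommGroup V] [Group L] [Finite V] [Finite L]
    (φ : L →* MulAut V) (hV : ¬ p ∣ Nat.card V) {b : (ZMod p)ˣ} (h : ∀ θ : V →* ℂ,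
      dI p (b * (ic p (stL φ θ).index)⁻¹) (stL φ θ) = 0) : dI p b (V ⋊[φ] L) = 0 := by
  obtain ⟨w, -, -, -, -, h3⟩ := semiI (p := p) φ hV
  have h4 := h3 b
  have h5 : (∑ᶠ θ : V →* ℂ, w θ * (dI p (b * (ic p (stL φ θ).index)⁻¹) (stL φ θ) : ℚ)) = 0 := by
    rw [← finsum_zero (α := V →* ℂ)]
    refine finsum_congr fun θ => ?_
    rw [h θ, Int.cast_zero, mul_zero]
  rw [h5] at h4
  exact_mod_cast h4

variable {t : ℕ} [ht : Fact t.Prime] {G : Type} [Group G] [Finite G]

/-- the subgroups of `C_t × G` -/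
theorem tg_cases (K : Subgroup (TG t G)) :
    (Nonempty (K ≃* Cy t × (K.map (MonoidHom.snd (Cy t) G))) ∧
      K.index = (K.map (MonoidHom.snd (Cy t) G)).index) ∨
    (Nonempty (K ≃* K.map (MonoidHom.snd (Cy t) G)) ∧
      K.index = t * (K.map (MonoidHom.snd (Cy t) G)).index) := by
  set G' := K.map (MonoidHom.snd (Cy t) G) with hG'
  set T' : Subgroup (Cy t) := K.comap (MonoidHom.inl (Cy t) G) with hT'
  have hpr : Fact (Nat.card (Cy t)).Prime := ⟨by rw [card_cy]; exact ht.out⟩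
  have hcard : Nat.card (TG t G) = t * Nat.card G := by rw [Nat.card_prod, card_cy]
  have hcG := G'.card_mul_index
  have hcK := K.card_mul_index
  have hKpos : 0 < Nat.card K := Nat.card_pos
  rcases Subgroup.eq_bot_or_eq_top_of_prime_card T' with h | h
  · right
    have hinj : Function.Injective ((MonoidHom.snd (Cy t) G).comp K.subtype) := by
      rw [injective_iff_map_eq_one]
      rintro ⟨⟨x, g⟩, hx⟩ h1
      have h2 : g = 1 := h1
      subst h2
      have h3 : x ∈ T' := hx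
      rw [h, Subgroup.mem_bot] at h3
      subst h3
      rfl
    have hr : ((MonoidHom.snd (Cy t) G).comp K.subtype).range = G' := by
      rw [MonoidHom.range_comp, Subgroup.range_subtype]
    have e1 : K ≃* G' := (MonoidHom.ofInjective hinj).trans (MulEquiv.subgroupCongr hr)
    refine ⟨⟨e1⟩, ?_⟩
    have h1 : Nat.card K = Nat.card G' := Nat.card_congr e1.toEquiv
    apply Nat.eq_of_mul_eq_mul_left hKpos
    rw [hcK, hcard, h1, ← hcG]
    ring
  · left
    have hm : ∀ (x : Cy t) (g : G), (x, g) ∈ K ↔ g ∈ G' := by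
      intro x g
      constructor
      · exact fun h1 => ⟨_, h1, rfl⟩
      · rintro ⟨⟨y, g'⟩, hy, h1⟩
        have h2 : g' = g := h1
        subst h2
        have h3 : (x * y⁻¹, (1 : G)) ∈ K := by
          have h4 : x * y⁻¹ ∈ T' := by rw [h]; trivial
          exact h4
        have h4 := K.mul_mem h3 hy
        rwa [Prod.mk_mul_mk, inv_mul_cancel_right, one_mul] at h4
    have e1 : K ≃* Cy t × G' :=
      { toFun := fun x => (x.1.1, ⟨x.1.2, (hm x.1.1 x.1.2).mp x.2⟩)
        invFun := fun y => ⟨(y.1, y.2.1), (hm y.1 y.2.1).mpr y.2.2⟩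
        left_inv := fun _ => rfl
        right_inv := fun _ => rfl
        map_mul' := fun _ _ => rfl }
    refine ⟨⟨e1⟩, ?_⟩
    have h1 : Nat.card K = t * Nat.card G' := by
      rw [Nat.card_congr e1.toEquiv, Nat.card_prod, card_cy]
    apply Nat.eq_of_mul_eq_mul_left hKpos
    rw [hcK, hcard, h1, ← hcG]
    ring

/-- **`C_t × G` is good for the shifted class.** -/
theorem HP_tg (hpt : ¬ p ∣ t) (hmin : ∀ (y : (ZMod p)ˣ) (K : Subgroup G), K ≠ ⊤ → dI p y K = 0)
    (hb : dI p b G = 0) (h1 : 0 < s * dI p (b * (ic p t)⁻¹) G) :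
    HP s b (TG t G) ∧ dI p b (TG t G) = 0 := by
  have hct : ¬ p ∣ Nat.card (Cy t) := by rw [card_cy]; exact hpt
  have key : ∀ G' : Subgroup G, ∀ y : (ZMod p)ˣ, (G' = ⊤ → y = b) → dI p y (Cy t × G') = 0 := by
    intro G' y hy
    rw [dI_iso (prodSemi (Cy t) G')]
    refine dI_zero_semi _ hct fun θ => ?_
    have h5 : stL (1 : G' →* MulAut (Cy t)) θ = ⊤ := by
      rw [eq_top_iff]
      intro l _ v
      rfl
    have e1 : stL (1 : G' →* MulAut (Cy t)) θ ≃* G' := by
      rw [h5]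
      exact Subgroup.topEquiv
    rw [dI_iso e1, h5, Subgroup.index_top, ic_one, inv_one, mul_one]
    by_cases hG : G' = ⊤
    · rw [hy hG]
      subst hG
      rw [dI_iso Subgroup.topEquiv, hb]
    · exact hmin y G' hG
  constructor
  · intro K hK
    rcases tg_cases K with ⟨⟨e1⟩, h2⟩ | ⟨⟨e1⟩, h2⟩
    · rw [dI_iso e1, key _ _ fun h3 => ?_, mul_zero]
      rw [h2, h3, Subgroup.index_top, ic_one, inv_one, mul_one]
    · rw [dI_iso e1]
      by_cases hG : K.map (MonoidHom.snd (Cy t) G) = ⊤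
      · have e2 : K.map (MonoidHom.snd (Cy t) G) ≃* G := by
          rw [hG]
          exact Subgroup.topEquiv
        rw [dI_iso e2, h2, hG, Subgroup.index_top, mul_one]
        exact h1.le
      · rw [hmin _ _ hG, mul_zero]
  · have e2 : TG t G ≃* Cy t × (⊤ : Subgroup G) :=
      MulEquiv.prodCongr (MulEquiv.refl _) Subgroup.topEquiv.symm
    rw [dI_iso e2]
    exact key ⊤ b fun _ => rfl

/-- **Extensions by groups of prime order.** -/
theorem HP_ext {q : ℕ} [hq : Fact q.Prime] (hpq : ¬ p ∣ q) (hcq : ic p q = 1) {L : Type} [Group L]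
    [Finite L] (h : HP s b L) (φ : L →* MulAut (Cy q)) : HP s b (Cy q ⋊[φ] L) := by
  intro K hK
  set L' : Subgroup L := K.map (rightHom : Cy q ⋊[φ] L →* L) with hL'
  set T' : Subgroup (Cy q) := K.comap (inl : Cy q →* Cy q ⋊[φ] L) with hT'
  have hpr : Fact (Nat.card (Cy q)).Prime := ⟨by rw [card_cy]; exact hq.out⟩
  have hcard : Nat.card (Cy q ⋊[φ] L) = q * Nat.card L := by rw [SemidirectProduct.card, card_cy]
  have hcL := L'.card_mul_index
  have hcK := K.card_mul_index
  have hKpos : 0 < Nat.card K := Nat.card_pos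
  rcases Subgroup.eq_bot_or_eq_top_of_prime_card T' with h0 | h0
  · have hinj : Function.Injective ((rightHom : Cy q ⋊[φ] L →* L).comp K.subtype) := by
      rw [injective_iff_map_eq_one]
      rintro ⟨x, hx⟩ h1
      have h2 : x.right = 1 := h1
      have h3 : x = inl x.left := by
        ext
        · rfl
        · exact h2
      have h4 : x.left ∈ T' := by
        change inl x.left ∈ K
        rw [← h3]
        exact hx
      rw [h0, Subgroup.mem_bot] at h4
      apply Subtype.ext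
      change x = 1
      rw [h3, h4, map_one]
    have hr : ((rightHom : Cy q ⋊[φ] L →* L).comp K.subtype).range = L' := by
      rw [MonoidHom.range_comp, Subgroup.range_subtype]
    have e1 : K ≃* L' := (MonoidHom.ofInjective hinj).trans (MulEquiv.subgroupCongr hr)
    have h1 : Nat.card K = Nat.card L' := Nat.card_congr e1.toEquiv
    have h2 : K.index = q * L'.index := by
      apply Nat.eq_of_mul_eq_mul_left hKpos
      rw [hcK, hcard, h1, ← hcL]
      ring
    have h3 : ¬ p ∣ L'.index := fun h => hK (h2 ▸ h.mul_left _)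
    rw [dI_iso e1, h2, ic_mul hpq h3, hcq, one_mul]
    exact h L' h3
  · have hm : ∀ x : Cy q ⋊[φ] L, x ∈ K ↔ x.left ∈ (⊤ : Subgroup (Cy q)) ∧ x.right ∈ L' := by
      intro x
      constructor
      · exact fun h1 => ⟨trivial, ⟨x, h1, rfl⟩⟩
      · rintro ⟨-, ⟨y, hy, h1⟩⟩
        have h2 : y.right = x.right := h1
        have h3 : (inl (x.left * y.left⁻¹) : Cy q ⋊[φ] L) ∈ K := by
          have h4 : x.left * y.left⁻¹ ∈ T' := by rw [h0]; trivial
          exact h4
        have h4 := K.mul_mem h3 hy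
        have h5 : (inl (x.left * y.left⁻¹) : Cy q ⋊[φ] L) * y = x := by
          ext
          · rw [mul_left, left_inl, right_inl, map_one, MulAut.one_apply, inv_mul_cancel_right]
          · rw [mul_right, right_inl, one_mul, h2]
        rwa [h5] at h4
    have e1 := subEquiv hm
    have h1 : Nat.card K = q * Nat.card L' := by
      rw [Nat.card_congr e1.toEquiv, SemidirectProduct.card, Subgroup.card_top, card_cy]
    have h2 : K.index = L'.index := by
      apply Nat.eq_of_mul_eq_mul_left hKpos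
      rw [hcK, hcard, h1, ← hcL]
      ring
    have h3 : ¬ p ∣ L'.index := h2 ▸ hK
    rw [dI_iso e1, h2]
    exact gdI_semi _ (by rw [Subgroup.card_top, card_cy]; exact hpq)
      fun θ hθ => (h.sub L' h3).stab _ θ hθ

end shift

end Run7.h45.QP
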