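import Pool.Agent.Run7.h45.QP10

/-!
# One class of degrees in primitive groups
-/

set_option autoImplicit false
set_option linter.unusedSectionVars false

open scoped Classical BigOperators

noncomputable section

namespace Run7.h45.QP

open Pool.Agent.Helper884 Pool.Agent.K3h3.KB Pool.Agent.K3h3.MK SemidirectProduct
open Pool.Agent.K3h83.IN (Q1)

variable {p : ℕ} [hp : Fact p.Prime] {s : ℤ} {b : (ZMod p)ˣ}

/-! ## the groups `C_q ⋊ (C_t × G)` -/

section fro

variable {t q : ℕ} [ht : Fact t.Prime] [hq : Fact q.Prime]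

/-- a faithful action of `C_t` on `C_q` -/
theorem exists_alpha (h : t ∣ q - 1) : ∃ α : Cy t →* MulAut (Cy q), ∀ (a : Cy t), a ≠ 1 →
    ∀ θ : Cy q →* ℂ, (∀ v, θ (α a v) = θ v) → θ = 1 := by
  have hc : Nat.card (ZMod q)ˣ = q - 1 := by
    rw [Nat.card_eq_fintype_card, ZMod.card_units]
  obtain ⟨u, hu⟩ := exists_prime_orderOf_dvd_card' t (hc ▸ h)
  have hz : Nat.card (Subgroup.zpowers u) = t := by rw [Nat.card_zpowers, hu]
  let ι : Cy t ≃* Subgroup.zpowers u := mulEquivOfPrimeCardEq (p := t) (card_cy (e := t)) hz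
  refine ⟨(uAct (ZMod q) (Subgroup.zpowers u)).comp ι.toMonoidHom, fun a ha θ hθ => ?_⟩
  have h1 : ι a ≠ 1 := fun h => ha ((MulEquiv.map_eq_one_iff ι).mp h)
  set x : ZMod q := ((ι a : (ZMod q)ˣ) : ZMod q) with hx
  have h2 : x - 1 ≠ 0 := by
    intro h3
    apply h1
    apply Subtype.ext
    apply Units.ext
    exact sub_eq_zero.mp h3
  have h4 : ∀ y : ZMod q, θ (Multiplicative.ofAdd (x * y)) = θ (Multiplicative.ofAdd y) :=
    fun y => hθ (Multiplicative.ofAdd y)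
  have h5 : ∀ y : ZMod q, θ (Multiplicative.ofAdd ((x - 1) * y)) = 1 := by
    intro y
    have h6 : Multiplicative.ofAdd ((x - 1) * y) * Multiplicative.ofAdd y =
        Multiplicative.ofAdd (x * y) := by
      rw [← ofAdd_add]
      congr 1
      ring
    have h7 : θ (Multiplicative.ofAdd ((x - 1) * y)) * θ (Multiplicative.ofAdd y) =
        1 * θ (Multiplicative.ofAdd y) := by
      rw [← map_mul, h6, h4, one_mul]
    have h8 : θ (Multiplicative.ofAdd y) ≠ 0 := by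
      intro h9
      have h10 : θ (Multiplicative.ofAdd y * (Multiplicative.ofAdd y)⁻¹) = 0 := by
        rw [map_mul, h9, zero_mul]
      rw [mul_inv_cancel, map_one] at h10
      exact one_ne_zero h10
    exact mul_right_cancel₀ h8 h7
  refine MonoidHom.ext fun v => ?_
  have h9 := h5 ((x - 1)⁻¹ * Multiplicative.toAdd v)
  rw [mul_inv_cancel_left₀ h2] at h9
  exact h9

variable {G : Type} [Group G] [Finite G]

/-- **The shift.** -/
theorem exists_shift (htq : t ∣ q - 1) (hpt : ¬ p ∣ t) (hpq : ¬ p ∣ q) (hcq : ic p q = 1)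
    (hmin : ∀ (y : (ZMod p)ˣ) (K : Subgroup G), K ≠ ⊤ → dI p y K = 0)
    (hb : dI p b G = 0) (h1 : 0 < s * dI p (b * (ic p t)⁻¹) G) :
    ∃ φ : TG t G →* MulAut (Cy q), HP s b (Cy q ⋊[φ] TG t G) ∧
      0 < s * dI p b (Cy q ⋊[φ] TG t G) := by
  obtain ⟨α, hα⟩ := exists_alpha (t := t) (q := q) htq
  obtain ⟨g1, g2⟩ := HP_tg hpt hmin hb h1
  let φ : TG t G →* MulAut (Cy q) := α.comp (MonoidHom.fst (Cy t) G)
  have hV : ¬ p ∣ Nat.card (Cy q) := by rw [card_cy]; exact hpq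
  refine ⟨φ, HP_ext hpq hcq g1 φ, ?_⟩
  set N : Subgroup (TG t G) := (MonoidHom.fst (Cy t) G).ker with hN
  have hNi : N.index = t := by
    rw [hN, Subgroup.index_ker, MonoidHom.range_eq_top.mpr Prod.fst_surjective,
      Subgroup.card_top, card_cy]
  have hst : ∀ θ : Cy q →* ℂ, θ ≠ 1 → stL φ θ = N := by
    intro θ hθ
    ext ⟨a, g⟩
    constructor
    · intro h
      by_contra hcon
      exact hθ (hα a hcon θ h)
    · intro h v
      have h2 : a = 1 := h
      change θ (α a v) = θ v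
      rw [h2, map_one, MulAut.one_apply]
  have e1 : N ≃* G :=
    { toFun := fun x => x.1.2
      invFun := fun g => ⟨(1, g), rfl⟩
      left_inv := fun x => Subtype.ext (Prod.ext x.2.symm rfl)
      right_inv := fun _ => rfl
      map_mul' := fun _ _ => rfl }
  have hfd : Finite (Cy q →* ℂ) := finite_dual _
  have hfd' : Fintype (Cy q →* ℂ) := Fintype.ofFinite _
  obtain ⟨θ, hθ⟩ : ∃ θ : Cy q →* ℂ, θ ≠ 1 := by
    by_contra h
    push Not at h
    have h2 : Nat.card (Cy q →* ℂ) = 1 := by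
      have : Unique (Cy q →* ℂ) := ⟨⟨1⟩, h⟩
      exact Nat.card_unique
    rw [card_dual, card_cy] at h2
    exact hq.out.ne_one h2
  obtain ⟨w, w1, w2, w3, -, w5⟩ := semiI (p := p) φ hV
  have h4 := w5 b
  rw [finsum_eq_sum_of_fintype] at h4
  have h5 : (0 : ℚ) < (s : ℚ) * dI p b (Cy q ⋊[φ] TG t G) := by
    rw [h4, Finset.mul_sum]
    refine Finset.sum_pos' (fun θ _ => ?_) ⟨θ, Finset.mem_univ _, ?_⟩
    · by_cases hw : w θ = 0
      · rw [hw, zero_mul, mul_zero]
      · have h6 : (0 : ℚ) ≤ ((s * dI p (b * (ic p (stL φ θ).index)⁻¹) (stL φ θ) : ℤ) : ℚ) := by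
          exact_mod_cast g1.stab φ θ (w2 θ hw)
        push_cast at h6
        calc (0 : ℚ) ≤ w θ * (s * dI p (b * (ic p (stL φ θ).index)⁻¹) (stL φ θ)) :=
              mul_nonneg (w1 θ) h6
          _ = _ := by ring
    · have h6 : (0 : ℚ) < w θ := by
        refine lt_of_lt_of_le ?_ (w3 θ N inferInstance (by rw [hNi]; exact hpt) (hst θ hθ).ge)
        have : 0 < Nat.card (TG t G) := Nat.card_pos
        positivity
      have h7 : dI p (b * (ic p (stL φ θ).index)⁻¹) (stL φ θ) = dI p (b * (ic p t)⁻¹) G := by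
        have e2 : stL φ θ ≃* G := by
          rw [hst θ hθ]
          exact e1
        rw [dI_iso e2, hst θ hθ, hNi]
      rw [h7]
      have h8 : (0 : ℚ) < ((s * dI p (b * (ic p t)⁻¹) G : ℤ) : ℚ) := by exact_mod_cast h1
      push_cast at h8
      calc (0 : ℚ) < w θ * (s * dI p (b * (ic p t)⁻¹) G) := mul_pos h6 h8
        _ = _ := by ring
  exact_mod_cast h5

end fro

/-! ## the theorem -/

/-- the class `C` is closed under isomorphisms, subgroups and split extensions of abelian groups of order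
prime to `p` -/
structure ClsA (p : ℕ) (C : ∀ (G : Type) [Group G], Prop) : Prop where
  iso : ∀ (G H : Type) [Group G] [Group H], Nonempty (G ≃* H) → C G → C H
  sub : ∀ (G : Type) [Group G] (H : Subgroup G), C G → C H
  ext : ∀ (V L : Type) [CommGroup V] [Group L] [Finite V] [Finite L] (φ : L →* MulAut V),
    ¬ p ∣ Nat.card V → C L → C (V ⋊[φ] L)

theorem ClsA.cls {C : ∀ (G : Type) [Group G], Prop} (hC : ClsA p C) {e : ℕ} (hpe : ¬ p ∣ e) :
    Cls e C :=
  ⟨hC.iso, hC.sub, fun V L _ _ _ _ φ hV hL => hC.ext V L φ (card_not_dvd hpe hV) hL⟩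

theorem dI_of_Q1 {G : Type} [Group G] [Finite G] (h : Q1 p G) (y : (ZMod p)ˣ) : dI p y G = 0 := by
  unfold dI
  rw [h default, sub_self]
  rfl

theorem Q1_of_dI {G : Type} [Group G] [Finite G] (h : ∀ y : (ZMod p)ˣ, dI p y G = 0) :
    Q1 p G := by
  intro P
  rw [← sub_eq_zero]
  ext y
  rw [← dI_eq P, h y]
  rfl

theorem dI_nonsq {G : Type} [Group G] [Finite G] {v : (ZMod p)ˣ} (hv : ∀ u, u ^ 2 ≠ v) :
    dI p v G = 0 := by
  unfold dI
  have h3 : (wt (cl p) G - wt (cl p) (NN (default : Sylow p G))).coeff v =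
    (wt (cl p) G).coeff v - (wt (cl p) (NN (default : Sylow p G))).coeff v := rfl
  rw [h3, coeff_nonsq p G hv, coeff_nonsq p _ hv, sub_zero]

/-- the primes -/
theorem exists_one (N m : ℕ) (hm : m ≠ 0) (hpm : p ∣ m) : ∃ q : ℕ, q.Prime ∧ N < q ∧
    m ∣ q - 1 ∧ ¬ p ∣ q ∧ ic p q = 1 := by
  obtain ⟨q, hq, hN, h1⟩ := Nat.exists_prime_gt_modEq_one N hm
  have h2 : m ∣ q - 1 := (Nat.modEq_iff_dvd' hq.one_lt.le).mp h1.symm
  have h3 : ¬ p ∣ q := by
    intro h
    have h4 : p ∣ q - 1 := hpm.trans h2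
    have h5 := (Nat.dvd_sub h h4)
    have h6 : q - (q - 1) = 1 := by have := hq.one_lt; omega
    rw [h6] at h5
    exact hp.out.ne_one (Nat.dvd_one.mp h5)
  refine ⟨q, hq, hN, h2, h3, ?_⟩
  rw [ic_eq h3]
  have h4 : Units.mk0 ((q : ℕ) : ZMod p) (ne_of_not_dvd h3) = 1 := by
    ext
    rw [Units.val_mk0, Units.val_one]
    have h5 : q ≡ 1 [MOD p] := h1.of_dvd hpm
    have h6 := (ZMod.natCast_eq_natCast_iff _ _ _).mpr h5
    rwa [Nat.cast_one] at h6
  rw [h4, one_pow]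

theorem exists_cls (u : (ZMod p)ˣ) : ∃ t : ℕ, t.Prime ∧ ¬ p ∣ t ∧ ic p t = u ^ 2 := by
  have hne : NeZero p := ⟨hp.out.ne_zero⟩
  obtain ⟨t, ht1, ht2, ht3⟩ := Nat.forall_exists_prime_gt_and_eq_mod (q := p) u.isUnit p
  have h1 : ¬ p ∣ t := by
    intro h
    have := (Nat.prime_dvd_prime_iff_eq hp.out ht2).mp h
    omega
  refine ⟨t, ht2, h1, ?_⟩
  rw [ic_eq h1]
  congr 1
  ext
  rw [Units.val_mk0]
  exact ht3

variable {r : ℕ} [hr : Fact r.Prime] {C : ∀ (G : Type) [Group G], Prop}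

/-- **One class of degrees in primitive groups decides.** -/
theorem in_prim (hrp : r ≠ p) (b : (ZMod p)ˣ) (hC : ClsA p C) :
    (∀ (G : Type) [Group G] [Finite G], C G → Q1 p G) ↔
    ∀ ε : ℝ, 0 < ε → ∃ c : ℝ, ∀ (H : Type) [Group H] [Finite H], PrimC r C H → ∀ R : Sylow p H,
      |((wt (cl p) H - wt (cl p) (NN R)).coeff (b ^ 2) : ℝ)| ≤ c * (Nat.card H : ℝ) ^ ε := by
  have hpr : ¬ p ∣ r := fun h1 => hrp ((Nat.prime_dvd_prime_iff_eq hp.out hr.out).mp h1).symm
  constructor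
  · intro h ε _
    refine ⟨1, fun H _ _ hH R => ?_⟩
    have h0 : dI p (b ^ 2) H = 0 := by
      obtain ⟨V, L, i1, i2, i3, i4, φ, hV, hL, ⟨ι⟩⟩ := prim_semi hH
      have hfin : Finite (V ⋊[φ] L) := inferInstance
      rw [← dI_iso ι]
      exact dI_zero_semi φ (card_not_dvd hpr hV) fun θ => dI_of_Q1 (h _ (hC.sub L _ hL)) _
    rw [dI_eq R] at h0
    rw [h0, Int.cast_zero, abs_zero]
    positivity
  · intro h
    by_contra hcon
    push Not at hcon
    obtain ⟨G', i1, i2, hG0, hG'⟩ := hcon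
    obtain ⟨G, i1, i2, hG0, hG, hmin⟩ := exists_min_cls (D := fun G _ => ∀ _ : Finite G, Q1 p G)
      (C := C) ⟨G', i1, i2, hG0, fun h0 => hG' (h0 i2)⟩
    have hG1 : ¬ Q1 p G := fun h0 => hG fun _ => h0
    have hmin' : ∀ (y : (ZMod p)ˣ) (K : Subgroup G), K ≠ ⊤ → dI p y K = 0 := fun y K hK =>
      dI_of_Q1 (hmin K (hC.sub G K hG0) (card_lt_of_ne_top hK) inferInstance) y
    obtain ⟨u, hu⟩ : ∃ u : (ZMod p)ˣ, dI p (u ^ 2) G ≠ 0 := by
      by_contra hcon
      push Not at hcon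
      refine hG1 (Q1_of_dI fun y => ?_)
      by_cases hy : ∃ u, u ^ 2 = y
      · obtain ⟨u, rfl⟩ := hy
        exact hcon u
      · push Not at hy
        exact dI_nonsq hy
    obtain ⟨e, he, her, -, hpe, hce⟩ := exists_one (p := p) r p hp.out.ne_zero dvd_rfl
    have fe : Fact e.Prime := ⟨he⟩
    have her' : e ≠ r := her.ne'
    set S := seed r e her' with hS
    have hpW : ¬ p ∣ Nat.card (minU r e) := card_not_dvd hpr (min_exp r e)
    have key : ∀ (L : Type) [Group L] [Finite L] (s : ℤ), |s| = 1 → C L → HP s (b ^ 2) L →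
        0 < s * dI p (b ^ 2) L → False := by
      intro L _ _ s hs hL h1 h2
      refine no_growthI S hpe hce hpW h1 h2 hs fun ε hε => ?_
      obtain ⟨c, hc⟩ := h ε hε
      refine ⟨c, fun k => ?_⟩
      exact hc (Hk S k L) (Hk_prim S (min_exp r e) (hC.cls hpe) hL k) default
    have sgn : ∀ z : ℤ, z ≠ 0 → ∃ s : ℤ, |s| = 1 ∧ 0 < s * z := by
      intro z hz
      rcases lt_or_gt_of_ne hz with h1 | h1
      · exact ⟨-1, by norm_num, by linarith⟩
      · exact ⟨1, by norm_num, by linarith⟩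
    by_cases hb : dI p (b ^ 2) G = 0
    · obtain ⟨s, hs, hs1⟩ := sgn _ hu
      obtain ⟨t, ht, hpt, hct⟩ := exists_cls (p := p) (b * u⁻¹)
      have ft : Fact t.Prime := ⟨ht⟩
      obtain ⟨q, hq, -, hq1, hpq, hcq⟩ := exists_one (p := p) 0 (p * t)
        (mul_ne_zero hp.out.ne_zero ht.ne_zero) (dvd_mul_right p t)
      have fq : Fact q.Prime := ⟨hq⟩
      have e1 : b ^ 2 * (ic p t)⁻¹ = u ^ 2 := by
        rw [hct, mul_pow, inv_pow, mul_inv, inv_inv, mul_inv_cancel_left]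
      obtain ⟨φ, g1, g2⟩ := exists_shift (s := s) (b := b ^ 2) (t := t) (q := q)
        ((dvd_mul_left t p).trans hq1) hpt hpq hcq hmin' hb (by rw [e1]; exact hs1)
      have hTG : C (TG t G) := by
        refine hC.iso (Cy t ⋊[(1 : G →* MulAut (Cy t))] G) _ ⟨(prodSemi _ _).symm⟩ ?_
        exact hC.ext _ _ _ (by rw [card_cy]; exact hpt) hG0
      exact key _ s hs (hC.ext _ _ φ (by rw [card_cy]; exact hpq) hTG) g1 g2
    · obtain ⟨s, hs, hs1⟩ := sgn _ hb
      refine key G s hs hG0 (fun K hK => ?_) hs1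
      by_cases hK' : K = ⊤
      · subst hK'
        rw [Subgroup.index_top, ic_one, inv_one, mul_one, dI_iso Subgroup.topEquiv]
        exact hs1.le
      · rw [hmin' _ K hK', mul_zero]

end Run7.h45.QP
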