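import Pool.Agent.Run7.h45.QP1

/-!
# The stabilizers of the characters of monomial modules
-/

set_option autoImplicit false
set_option linter.unusedSectionVars false

open scoped Classical BigOperators

noncomputable section

namespace Run7.h45.QP

/-! ## subgroups of semidirect products -/

section sub

variable {N G : Type} [CommGroup N] [Group G] {φ : G →* MulAut N} {K : Subgroup (N ⋊[φ] G)}
  {A : Subgroup N} {Y : Subgroup G}

/-- the restricted action -/
def rAct (hA : ∀ y ∈ Y, ∀ a ∈ A, φ y a ∈ A) : Y →* MulAut A where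
  toFun y :=
    { toFun := fun a => ⟨φ y a, hA y y.2 a a.2⟩
      invFun := fun a => ⟨φ (y⁻¹ : Y) a, hA _ (y⁻¹ : Y).2 a a.2⟩
      left_inv := fun a => Subtype.ext (by
        change φ (y⁻¹ : Y) (φ y a) = a
        rw [← MulAut.mul_apply, ← map_mul, Subgroup.coe_inv, inv_mul_cancel, map_one,
          MulAut.one_apply])
      right_inv := fun a => Subtype.ext (by
        change φ y (φ (y⁻¹ : Y) a) = a
        rw [← MulAut.mul_apply, ← map_mul, Subgroup.coe_inv, mul_inv_cancel, map_one,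
          MulAut.one_apply])
      map_mul' := fun a b => Subtype.ext (map_mul _ _ _) }
  map_one' := MulEquiv.ext fun a => Subtype.ext (by
    change φ ((1 : Y) : G) a = a
    rw [Subgroup.coe_one, map_one, MulAut.one_apply])
  map_mul' x y := MulEquiv.ext fun a => Subtype.ext (by
    change φ ((x * y : Y) : G) a = φ x (φ y a)
    rw [Subgroup.coe_mul, map_mul, MulAut.mul_apply])

theorem sub_inv (hK : ∀ m, m ∈ K ↔ m.left ∈ A ∧ m.right ∈ Y) : ∀ y ∈ Y, ∀ a ∈ A, φ y a ∈ A := by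
  intro y hy a ha
  have h1 : (SemidirectProduct.inr y : N ⋊[φ] G) ∈ K := (hK _).mpr ⟨A.one_mem, hy⟩
  have h2 : (SemidirectProduct.inl a : N ⋊[φ] G) ∈ K := (hK _).mpr ⟨ha, Y.one_mem⟩
  have h3 := K.mul_mem (K.mul_mem h1 h2) (K.inv_mem h1)
  have h4 := ((hK _).mp h3).1
  rwa [← map_inv, ← SemidirectProduct.inl_aut, SemidirectProduct.left_inl] at h4

/-- the subgroup is a semidirect product -/
def subEquiv (hK : ∀ m, m ∈ K ↔ m.left ∈ A ∧ m.right ∈ Y) : K ≃* A ⋊[rAct (sub_inv hK)] Y where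
  toFun m := ⟨⟨m.1.left, ((hK _).mp m.2).1⟩, ⟨m.1.right, ((hK _).mp m.2).2⟩⟩
  invFun z := ⟨⟨z.left, z.right⟩, (hK _).mpr ⟨z.left.2, z.right.2⟩⟩
  left_inv m := rfl
  right_inv z := rfl
  map_mul' m m' := rfl

end sub

section stab

variable {W E : Type} [CommGroup W] [CommGroup E] (S : Seed W E) {Ω X : Type} [Group X]
  [MulAction X Ω] [Finite Ω]

/-- the components of a character -/
def cmp (θ : (Ω → W) →* ℂ) (ω : Ω) : W →* ℂ := θ.comp (MonoidHom.mulSingle (fun _ => W) ω)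

theorem cmp_apply (θ : (Ω → W) →* ℂ) (ω : Ω) (w : W) : cmp θ ω w = θ (Pi.mulSingle ω w) := rfl

theorem cmp_ext {θ θ' : (Ω → W) →* ℂ} (h : ∀ ω w, cmp θ ω w = cmp θ' ω w) (v : Ω → W) :
    θ v = θ' v := by
  have f1 : Fintype Ω := Fintype.ofFinite Ω
  rw [← Finset.univ_prod_mulSingle v, map_prod, map_prod]
  exact Finset.prod_congr rfl fun ω _ => h ω (v ω)

theorem mo_single (f : Ω → E) (x : X) (ω : Ω) (w : W) :
    mo S (⟨f, x⟩ : MM E Ω X) (Pi.mulSingle (x⁻¹ • ω) w) = Pi.mulSingle ω (S.act (f ω) w) := by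
  funext ω'
  rw [mo_apply]
  change S.act (f ω') ((Pi.mulSingle (x⁻¹ • ω) w : Ω → W) (x⁻¹ • ω')) = _
  by_cases h : ω' = ω
  · subst h
    rw [Pi.mulSingle_eq_same, Pi.mulSingle_eq_same]
  · rw [Pi.mulSingle_eq_of_ne h, Pi.mulSingle_eq_of_ne (fun h1 => h (by
      have h2 := congrArg (x • ·) h1
      rwa [smul_inv_smul, smul_inv_smul] at h2)), map_one]

theorem mem_stL_iff (θ : (Ω → W) →* ℂ) (m : MM E Ω X) : m ∈ stL (mo S) θ ↔
    ∀ ω w, cmp θ ω (S.act (m.left ω) w) = cmp θ (m.right⁻¹ • ω) w := by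
  have h1 : ∀ ω w, θ (mo S m (Pi.mulSingle (m.right⁻¹ • ω) w)) = cmp θ ω (S.act (m.left ω) w) := by
    intro ω w
    rw [mo_single S m.left m.right ω w]
    rfl
  constructor
  · intro h ω w
    rw [← h1, h]
    rfl
  · intro h
    have h2 : ∀ v, (θ.comp (mo S m).toMonoidHom) v = θ v := by
      refine cmp_ext fun ω w => ?_
      have h3 := h1 (m.right • ω) w
      rw [inv_smul_smul] at h3
      have h4 := h (m.right • ω) w
      rw [inv_smul_smul] at h4
      exact h3.trans h4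
    exact h2

/-! ### canonical representatives -/

/-- the orbits of `E` on the characters of `W` -/
def orb : Setoid (W →* ℂ) where
  r χ χ' := ∃ a : E, ∀ w, χ' w = χ (S.act a w)
  iseqv := by
    refine ⟨fun χ => ⟨1, fun w => by rw [map_one, MulAut.one_apply]⟩, ?_, ?_⟩
    · rintro χ χ' ⟨a, ha⟩
      refine ⟨a⁻¹, fun w => ?_⟩
      rw [ha, ← MulAut.mul_apply, ← map_mul, mul_inv_cancel, map_one, MulAut.one_apply]
    · rintro χ χ' χ'' ⟨a, ha⟩ ⟨b, hb⟩
      refine ⟨a * b, fun w => ?_⟩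
      rw [hb, ha, map_mul, MulAut.mul_apply]

/-- the canonical representative -/
def rep (χ : W →* ℂ) : W →* ℂ := (Quotient.mk (orb S) χ).out

theorem rep_eq {χ χ' : W →* ℂ} (h : (orb S).r χ χ') : rep S χ = rep S χ' := by
  unfold rep
  rw [Quotient.sound (s := orb S) h]

theorem rep_rel (χ : W →* ℂ) : (orb S).r (rep S χ) χ := Quotient.mk_out (s := orb S) χ

theorem rep_rep {χ χ' : W →* ℂ} (h : (orb S).r (rep S χ) (rep S χ')) : rep S χ = rep S χ' := by
  have h1 : (orb S).r χ χ' :=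
    (orb S).iseqv.trans ((orb S).iseqv.symm (rep_rel S χ)) ((orb S).iseqv.trans h (rep_rel S χ'))
  exact rep_eq S h1

theorem exists_g (χ : W →* ℂ) : ∃ a : E, ∀ w, rep S χ w = χ (S.act a w) :=
  (orb S).iseqv.symm (rep_rel S χ)

/-- the element that moves a character to the representative -/
def gg (χ : W →* ℂ) : E := (exists_g S χ).choose

theorem gg_spec (χ : W →* ℂ) (w : W) : rep S χ w = χ (S.act (gg S χ) w) :=
  (exists_g S χ).choose_spec w

/-- the element of `E ^ Ω` -/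
def f0 (θ : (Ω → W) →* ℂ) : MM E Ω X := SemidirectProduct.inl fun ω => gg S (cmp θ ω)

/-- the canonical character in the orbit -/
def can (X : Type) [Group X] [MulAction X Ω] (θ : (Ω → W) →* ℂ) : (Ω → W) →* ℂ :=
  θ.comp (mo S (f0 (X := X) S θ)).toMonoidHom

theorem cmp_can (θ : (Ω → W) →* ℂ) (ω : Ω) (w : W) : cmp (can S X θ) ω w = rep S (cmp θ ω) w := by
  rw [gg_spec]
  change θ (mo S (f0 (X := X) S θ) (Pi.mulSingle ω w)) = θ (Pi.mulSingle ω _)
  have h1 := mo_single S (X := X) (fun ω => gg S (cmp θ ω)) 1 ω w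
  rw [inv_one, one_smul] at h1
  exact congrArg θ h1

theorem mem_can (θ : (Ω → W) →* ℂ) (m : MM E Ω X) :
    m ∈ stL (mo S) (can S X θ) ↔ f0 S θ * m * (f0 S θ)⁻¹ ∈ stL (mo S) θ := by
  constructor
  · intro h v
    have h1 := h (mo S (f0 (X := X) S θ)⁻¹ v)
    change θ (mo S (f0 S θ) (mo S m (mo S (f0 (X := X) S θ)⁻¹ v))) =
      θ (mo S (f0 S θ) (mo S (f0 (X := X) S θ)⁻¹ v)) at h1
    rw [← MulAut.mul_apply, ← MulAut.mul_apply, ← map_mul, ← map_mul, ← MulAut.mul_apply,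
      ← map_mul, mul_inv_cancel, map_one, MulAut.one_apply] at h1
    exact h1
  · intro h v
    have h1 := h (mo S (f0 (X := X) S θ) v)
    rw [← MulAut.mul_apply, ← map_mul, inv_mul_cancel_right, map_mul, MulAut.mul_apply] at h1
    exact h1

/-- the stabilizers are conjugate -/
theorem can_equiv (θ : (Ω → W) →* ℂ) :
    Nonempty (stL (mo S (X := X)) θ ≃* stL (mo S (X := X)) (can S X θ)) := by
  refine ⟨⟨⟨fun m => ⟨(f0 S θ)⁻¹ * m.1 * f0 S θ, ?_⟩, fun m => ⟨f0 S θ * m.1 * (f0 S θ)⁻¹, ?_⟩,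
    fun m => ?_, fun m => ?_⟩, fun m m' => ?_⟩⟩
  · rw [mem_can]
    have h1 : f0 S θ * ((f0 S θ)⁻¹ * m.1 * f0 S θ) * (f0 S θ)⁻¹ = m.1 := by group
    rw [h1]
    exact m.2
  · exact (mem_can S θ m.1).mp m.2
  · apply Subtype.ext
    change f0 S θ * ((f0 S θ)⁻¹ * m.1 * f0 S θ) * (f0 S θ)⁻¹ = m.1
    group
  · apply Subtype.ext
    change (f0 S θ)⁻¹ * (f0 S θ * m.1 * (f0 S θ)⁻¹) * f0 S θ = m.1
    group
  · apply Subtype.ext
    change (f0 S θ)⁻¹ * (m.1 * m'.1) * f0 S θ =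
      (f0 S θ)⁻¹ * m.1 * f0 S θ * ((f0 S θ)⁻¹ * m'.1 * f0 S θ)
    group

/-- the part in `E ^ Ω` -/
def partA (X : Type) [Group X] [MulAction X Ω] (θ : (Ω → W) →* ℂ) : Subgroup (Ω → E) where
  carrier := {f | ∀ ω, cmp (can S X θ) ω = 1 ∨ f ω = 1}
  one_mem' := fun _ => Or.inr rfl
  mul_mem' := fun {f g} hf hg ω => by
    rcases hf ω with h | h
    · exact Or.inl h
    · rcases hg ω with h' | h'
      · exact Or.inl h'
      · exact Or.inr (by rw [Pi.mul_apply, h, h', one_mul])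
  inv_mem' := fun {f} hf ω => by
    rcases hf ω with h | h
    · exact Or.inl h
    · exact Or.inr (by rw [Pi.inv_apply, h, inv_one])

/-- the part in `X` -/
def partY (X : Type) [Group X] [MulAction X Ω] (θ : (Ω → W) →* ℂ) : Subgroup X where
  carrier := {x | ∀ ω, cmp (can S X θ) (x⁻¹ • ω) = cmp (can S X θ) ω}
  one_mem' := fun ω => by rw [inv_one, one_smul]
  mul_mem' := fun {x y} hx hy ω => by rw [mul_inv_rev, mul_smul, hy, hx]
  inv_mem' := fun {x} hx ω => by
    rw [inv_inv]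
    have h := hx (x • ω)
    rw [inv_smul_smul] at h
    exact h.symm

theorem mem_can_iff (θ : (Ω → W) →* ℂ) (m : MM E Ω X) :
    m ∈ stL (mo S) (can S X θ) ↔ m.left ∈ partA S X θ ∧ m.right ∈ partY S X θ := by
  rw [mem_stL_iff]
  constructor
  · intro h
    have h1 : ∀ ω, cmp (can S X θ) (m.right⁻¹ • ω) = cmp (can S X θ) ω := by
      intro ω
      have e1 : cmp (can S X θ) ω = rep S (cmp θ ω) := MonoidHom.ext fun w => cmp_can S θ ω w
      have e2 : cmp (can S X θ) (m.right⁻¹ • ω) = rep S (cmp θ (m.right⁻¹ • ω)) :=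
        MonoidHom.ext fun w => cmp_can S θ _ w
      rw [e1, e2]
      refine (rep_rep S ⟨m.left ω, fun w => ?_⟩).symm
      rw [← e1, ← e2]
      exact (h ω w).symm
    refine ⟨fun ω => ?_, h1⟩
    rcases S.reg (cmp (can S X θ) ω) (m.left ω) (fun w => by rw [h ω w, h1]) with h2 | h2
    · exact Or.inr h2
    · exact Or.inl h2
  · rintro ⟨h1, h2⟩ ω w
    rw [h2 ω]
    rcases h1 ω with h3 | h3
    · rw [h3]
      rfl
    · rw [h3, map_one, MulAut.one_apply]

/-- **The stabilizers of the characters of the monomial module.** -/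
theorem stab_struct (θ : (Ω → W) →* ℂ) : ∃ (A : Subgroup (Ω → E)) (Y : Subgroup X)
    (ψ : Y →* MulAut A), Nonempty (stL (mo S (X := X)) θ ≃* A ⋊[ψ] Y) := by
  obtain ⟨e1⟩ := can_equiv S (X := X) θ
  exact ⟨partA S X θ, partY S X θ, _, ⟨e1.trans (subEquiv (mem_can_iff S θ))⟩⟩

end stab

end Run7.h45.QP
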