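import Pool.Agent.Run7.h45.QP2

/-!
# Positivity for primitive groups
-/

set_option autoImplicit false
set_option linter.unusedSectionVars false

open scoped Classical BigOperators

noncomputable section

namespace Run7.h45.QP

open Run7.h45.PV (Prim semi_prim)

/-- A function on finite groups which is additive over the characters of abelian normal subgroups of
exponent dividing `n` with a complement, with nonnegative weights. -/
structure Fnl (p n : ℕ) where
  /-- the function -/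
  D : (G : Type) → [Group G] → ℤ
  iso : ∀ (G H : Type) [Group G] [Group H] [Finite G] [Finite H], Nonempty (G ≃* H) → D G = D H
  semi : ∀ {V L : Type} [CommGroup V] [Group L] [Finite V] [Finite L] (φ : L →* MulAut V),
    (∀ v : V, v ^ n = 1) → ∃ w : (V →* ℂ) → ℚ, (∀ θ, 0 ≤ w θ) ∧
      (∀ θ (N : Subgroup L), N.Normal → ¬ p ∣ N.index → N ≤ stL φ θ → 1 / (Nat.card L : ℚ) ≤ w θ) ∧
      (∀ θ, stL φ θ = ⊤ → 1 ≤ w θ) ∧
      (D (V ⋊[φ] L) : ℚ) = ∑ᶠ θ, w θ * D (stL φ θ)

section pos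

variable {p n : ℕ} (F : Fnl p n) (s : ℤ)

/-- nonnegative -/
def Gd (G : Type) [Group G] : Prop := 0 ≤ s * F.D G

theorem gd_iso {G H : Type} [Group G] [Group H] [Finite G] [Finite H] (e : Nonempty (G ≃* H))
    (h : Gd F s G) : Gd F s H := by
  unfold Gd
  rwa [← F.iso G H e]

theorem gd_semi {V L : Type} [CommGroup V] [Group L] [Finite V] [Finite L] (φ : L →* MulAut V)
    (hV : ∀ v : V, v ^ n = 1) (h : ∀ Y : Subgroup L, Gd F s Y) : Gd F s (V ⋊[φ] L) := by
  obtain ⟨w, h1, -, -, h2⟩ := F.semi φ hV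
  have : Finite (V →* ℂ) := finite_dual V
  have : Fintype (V →* ℂ) := Fintype.ofFinite _
  rw [finsum_eq_sum_of_fintype] at h2
  have h3 : (0 : ℚ) ≤ (s : ℚ) * F.D (V ⋊[φ] L) := by
    rw [h2, Finset.mul_sum]
    refine Finset.sum_nonneg fun θ _ => ?_
    have h4 : (0 : ℚ) ≤ ((s * F.D (stL φ θ) : ℤ) : ℚ) := by exact_mod_cast h (stL φ θ)
    push_cast at h4
    calc (0 : ℚ) ≤ w θ * (s * F.D (stL φ θ)) := mul_nonneg (h1 θ) h4
      _ = _ := by ring
  unfold Gd
  exact_mod_cast h3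

theorem sub_iso {X : Type} [Group X] (Y : Subgroup X) (Z : Subgroup Y) :
    Nonempty (Z.map Y.subtype ≃* Z) :=
  ⟨(Z.equivMapOfInjective Y.subtype Y.subtype_injective).symm⟩

theorem gd_sub {X : Type} [Group X] [Finite X] (h : ∀ Y : Subgroup X, Gd F s Y) (Y : Subgroup X)
    (Z : Subgroup Y) : Gd F s Z :=
  gd_iso F s (sub_iso Y Z) (h _)

theorem D_le {V L : Type} [CommGroup V] [Group L] [Finite V] [Finite L] (φ : L →* MulAut V)
    (hV : ∀ v : V, v ^ n = 1) (h : ∀ θ : V →* ℂ, Gd F s (stL φ θ)) :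
    s * F.D L ≤ s * F.D (V ⋊[φ] L) := by
  obtain ⟨w, h1, -, h0, h2⟩ := F.semi φ hV
  have : Finite (V →* ℂ) := finite_dual V
  have : Fintype (V →* ℂ) := Fintype.ofFinite _
  rw [finsum_eq_sum_of_fintype] at h2
  have h5 : stL φ (1 : V →* ℂ) = ⊤ := by
    rw [eq_top_iff]
    intro l _ v
    rfl
  have h6 : F.D (stL φ (1 : V →* ℂ)) = F.D L := by
    refine F.iso _ _ ?_
    rw [h5]
    exact ⟨Subgroup.topEquiv⟩
  have h3 : ((s * F.D L : ℤ) : ℚ) ≤ (s : ℚ) * F.D (V ⋊[φ] L) := by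
    rw [h2, Finset.mul_sum]
    have h7 : ∀ θ ∈ (Finset.univ : Finset (V →* ℂ)),
        0 ≤ (s : ℚ) * (w θ * F.D (stL φ θ)) := by
      intro θ _
      have h4 : (0 : ℚ) ≤ ((s * F.D (stL φ θ) : ℤ) : ℚ) := by exact_mod_cast h θ
      push_cast at h4
      calc (0 : ℚ) ≤ w θ * (s * F.D (stL φ θ)) := mul_nonneg (h1 θ) h4
        _ = _ := by ring
    refine le_trans ?_ (Finset.single_le_sum h7 (Finset.mem_univ (1 : V →* ℂ)))
    rw [h6]
    have h8 : (0 : ℚ) ≤ ((s * F.D L : ℤ) : ℚ) := by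
      have h9 := h 1
      unfold Gd at h9
      rw [h6] at h9
      exact_mod_cast h9
    push_cast at h8 ⊢
    calc (s : ℚ) * F.D L ≤ w 1 * (s * F.D L) := le_mul_of_one_le_left h8 (h0 1 h5)
      _ = _ := by ring
  exact_mod_cast h3

end pos

/-! ## subgroups of `L × T` -/

section prod

variable {e : ℕ} [he : Fact e.Prime]

/-- the elementary abelian group -/
abbrev TT (e k : ℕ) : Type := Multiplicative (Fin k → ZMod e)

instance finTT (k : ℕ) : Finite (TT e k) := inferInstanceAs (Finite (Fin k → ZMod e))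

theorem card_TT (k : ℕ) : Nat.card (TT e k) = e ^ k := by
  change Nat.card (Fin k → ZMod e) = e ^ k
  rw [Nat.card_fun, Nat.card_eq_fintype_card (α := Fin k), Fintype.card_fin]
  congr 1
  simp

theorem TT_pow (k : ℕ) (x : TT e k) : x ^ e = 1 := by
  change e • (x.toAdd : Fin k → ZMod e) = 0
  funext i
  change e • x.toAdd i = 0
  rw [nsmul_eq_mul, CharP.cast_eq_zero, zero_mul]

/-- retractions onto subgroups -/
theorem exists_retr (k : ℕ) (T₁ : Subgroup (TT e k)) :
    ∃ π : TT e k →* T₁, ∀ x : T₁, π x = x := by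
  let T' : AddSubgroup (Fin k → ZMod e) := T₁.toAddSubgroup'
  let M : Submodule (ZMod e) (Fin k → ZMod e) := AddSubgroup.toZModSubmodule e T'
  obtain ⟨f, hf⟩ := M.subtype.exists_leftInverse_of_injective (by
    rw [LinearMap.ker_eq_bot]
    exact M.injective_subtype)
  have hM : ∀ x, x ∈ M ↔ Multiplicative.ofAdd x ∈ T₁ := fun x => Iff.rfl
  refine ⟨
    { toFun := fun x => ⟨Multiplicative.ofAdd ((f x.toAdd : M) : Fin k → ZMod e),
        (hM _).mp (f x.toAdd).2⟩
      map_one' := Subtype.ext (by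
        change Multiplicative.ofAdd ((f 0 : M) : Fin k → ZMod e) = 1
        rw [map_zero]
        rfl)
      map_mul' := fun x y => Subtype.ext (by
        change Multiplicative.ofAdd ((f (x.toAdd + y.toAdd) : M) : Fin k → ZMod e) = _
        rw [map_add]
        rfl) }, fun x => Subtype.ext ?_⟩
  change Multiplicative.ofAdd ((f (x : TT e k).toAdd : M) : Fin k → ZMod e) = x
  have h1 : f (M.subtype ⟨(x : TT e k).toAdd, (hM _).mpr x.2⟩) =
      ⟨(x : TT e k).toAdd, (hM _).mpr x.2⟩ := DFunLike.congr_fun hf _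
  change f (x : TT e k).toAdd = _ at h1
  rw [h1]
  rfl

variable {L : Type} [Group L]

/-- the intersection with `T` -/
def intT {k : ℕ} (Y : Subgroup (L × TT e k)) : Subgroup (TT e k) :=
  Y.comap (MonoidHom.inr L (TT e k))

/-- the projection to `L` -/
def prL {k : ℕ} (Y : Subgroup (L × TT e k)) : Subgroup L := Y.map (MonoidHom.fst L (TT e k))

theorem prod_struct {k : ℕ} (Y : Subgroup (L × TT e k)) : Nonempty (Y ≃* intT Y × prL Y) := by
  obtain ⟨π, hπ⟩ := exists_retr k (intT Y)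
  let g : Y →* intT Y × prL Y :=
    { toFun := fun y => (π y.1.2, ⟨y.1.1, ⟨y.1, y.2, rfl⟩⟩)
      map_one' := by
        ext1
        · exact map_one π
        · rfl
      map_mul' := fun y z => by
        ext1
        · exact map_mul π _ _
        · rfl }
  have hi : Function.Injective g := by
    rw [injective_iff_map_eq_one]
    rintro ⟨⟨l, t⟩, hy⟩ h
    have h1 : π t = 1 := congrArg Prod.fst h
    have h2 : l = 1 := congrArg Subtype.val (congrArg Prod.snd h)
    subst h2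
    have h3 := hπ ⟨t, hy⟩
    change π t = _ at h3
    rw [h1] at h3
    have h4 : t = 1 := (congrArg Subtype.val h3).symm
    subst h4
    rfl
  have hs : Function.Surjective g := by
    rintro ⟨x, ⟨l, ⟨⟨l', t⟩, hy, hl⟩⟩⟩
    change l' = l at hl
    subst hl
    have h1 : ((1 : L), ((π t)⁻¹ * x : intT Y).1) ∈ Y := ((π t)⁻¹ * x : intT Y).2
    refine ⟨⟨(l', t) * (1, ((π t)⁻¹ * x : intT Y).1), Y.mul_mem hy h1⟩, ?_⟩
    ext1
    · change π (t * ((π t)⁻¹ * x : intT Y).1) = x
      rw [map_mul, hπ, mul_inv_cancel_left]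
    · exact Subtype.ext (mul_one l')
  exact ⟨MulEquiv.ofBijective g ⟨hi, hs⟩⟩

/-- the direct product as a semidirect product -/
def prodSemi (A B : Type) [CommGroup A] [Group B] : A × B ≃* A ⋊[(1 : B →* MulAut A)] B where
  toFun x := ⟨x.1, x.2⟩
  invFun z := (z.left, z.right)
  left_inv _ := rfl
  right_inv _ := rfl
  map_mul' _ _ := rfl

variable [Finite L] {p n : ℕ} (F : Fnl p n) (s : ℤ) (hen : e ∣ n)

include hen in
theorem sub_pow {k : ℕ} (T₁ : Subgroup (TT e k)) (x : T₁) : x ^ n = 1 := by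
  obtain ⟨m, rfl⟩ := hen
  apply Subtype.ext
  rw [Subgroup.coe_pow, pow_mul, TT_pow, one_pow]
  rfl

include hen in
/-- the subgroups of `L × T` are good -/
theorem gd_prod (h1 : Gd F s L) (h0 : ∀ K : Subgroup L, K ≠ ⊤ → F.D K = 0) {k : ℕ}
    (Y : Subgroup (L × TT e k)) : Gd F s Y := by
  have hK : ∀ K : Subgroup L, Gd F s K := by
    intro K
    by_cases hK : K = ⊤
    · rw [hK]
      exact gd_iso F s ⟨Subgroup.topEquiv.symm⟩ h1
    · unfold Gd
      rw [h0 K hK, mul_zero]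
  obtain ⟨e1⟩ := prod_struct Y
  refine gd_iso F s ⟨((e1.trans (prodSemi _ _))).symm⟩ ?_
  exact gd_semi F s _ (sub_pow hen _) fun Z => gd_sub F s hK (prL Y) Z

include hen in
/-- the subgroups containing `L` -/
theorem one_le_prod (h1 : 0 < s * F.D L) (hp : p ≠ 1) {k : ℕ} (Y : Subgroup (L × TT e k))
    (hY : ∀ l : L, (l, (1 : TT e k)) ∈ Y) : 1 ≤ s * F.D Y := by
  have h2 : prL Y = ⊤ := by
    rw [eq_top_iff]
    intro l _
    exact ⟨(l, 1), hY l, rfl⟩
  obtain ⟨e1⟩ := prod_struct Y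
  have h3 := F.iso Y _ ⟨e1.trans (prodSemi _ _)⟩
  obtain ⟨w, g1, g2, -, g3⟩ := F.semi (1 : prL Y →* MulAut (intT Y)) (sub_pow hen _)
  have : Finite (intT Y →* ℂ) := finite_dual _
  have : Fintype (intT Y →* ℂ) := Fintype.ofFinite _
  rw [finsum_eq_sum_of_fintype, ← h3] at g3
  have h4 : ∀ θ : intT Y →* ℂ, F.D (stL (1 : prL Y →* MulAut (intT Y)) θ) = F.D L := by
    intro θ
    have h5 : stL (1 : prL Y →* MulAut (intT Y)) θ = ⊤ := by
      rw [eq_top_iff]
      intro l _ v
      rfl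
    refine F.iso _ _ ?_
    rw [h5]
    refine ⟨Subgroup.topEquiv.trans ?_⟩
    rw [h2]
    exact Subgroup.topEquiv
  have h5 : (0 : ℚ) < ((s * F.D Y : ℤ) : ℚ) := by
    push_cast
    rw [g3, Finset.mul_sum]
    have h6 : (0 : ℚ) < ((s * F.D L : ℤ) : ℚ) := by exact_mod_cast h1
    push_cast at h6
    refine Finset.sum_pos' (fun θ _ => ?_) ⟨1, Finset.mem_univ _, ?_⟩
    · rw [h4]
      calc (0 : ℚ) ≤ w θ * (s * F.D L) := mul_nonneg (g1 θ) h6.le
        _ = _ := by ring
    · rw [h4]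
      have h7 : (0 : ℚ) < w 1 := by
        refine lt_of_lt_of_le ?_ (g2 1 ⊤ inferInstance ?_ ?_)
        · have : 0 < Nat.card (prL Y) := Nat.card_pos
          positivity
        · rw [Subgroup.index_top]
          exact fun h => hp (Nat.dvd_one.mp h)
        · intro l _ v
          rfl
      calc (0 : ℚ) < w 1 * (s * F.D L) := mul_pos h7 h6
        _ = _ := by ring
  have h6 : 0 < s * F.D Y := by exact_mod_cast h5
  omega

end prod

end Run7.h45.QP
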