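import Pool.Agent.Run7.h45.QP4
import Pool.Agent.Run7.h45.Kp6

/-!
# The Knörr–Robinson conjecture and primitive groups
-/

set_option autoImplicit false
set_option linter.unusedSectionVars false

open scoped Classical BigOperators

noncomputable section

namespace Run7.h45.QP

open Run7.h45.PV (Prim semi_prim)
open Pool.Agent.Y63.KR Pool.Agent.Q18.KRX

theorem card_not_dvd {V : Type} [Group V] [Finite V] {p n : ℕ} [Fact p.Prime] (hn : ¬ p ∣ n)
    (hV : ∀ v : V, v ^ n = 1) : ¬ p ∣ Nat.card V := by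
  intro h
  obtain ⟨v, hv⟩ := exists_prime_orderOf_dvd_card' p h
  exact hn (hv ▸ orderOf_dvd_of_pow_eq_one (hV v))

/-- the error term of the Knörr–Robinson conjecture -/
def krF (p n : ℕ) [Fact p.Prime] (hn : ¬ p ∣ n) : Fnl p n where
  D G _ := errZ p G
  iso G H _ _ _ _ h := errZ_iso G H h
  semi {V L} _ _ _ _ φ hV := by
    have hL : (0 : ℚ) < Nat.card L := by exact_mod_cast (Nat.card_pos (α := L))
    refine ⟨fun θ => (Nat.card (stL φ θ) : ℚ) / Nat.card L, fun θ => by positivity,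
      fun θ N _ _ _ => ?_, fun θ hθ => ?_, ?_⟩
    · have h1 : (1 : ℚ) ≤ Nat.card (stL φ θ) := by
        exact_mod_cast (Nat.card_pos (α := stL φ θ))
      exact div_le_div_of_nonneg_right h1 hL.le
    · have h1 : Nat.card (stL φ θ) = Nat.card L := by rw [hθ, Subgroup.card_top]
      change (1 : ℚ) ≤ (Nat.card (stL φ θ) : ℚ) / Nat.card L
      rw [h1, div_self hL.ne']
    · have h1 := errZ_semi (p := p) φ (card_not_dvd hn hV)
      have f4 : Finite (V →* ℂ) := finite_dual V
      have f5 : Fintype (V →* ℂ) := Fintype.ofFinite _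
      rw [finsum_eq_sum_of_fintype] at h1 ⊢
      have h2 : (Nat.card L : ℚ) * (errZ p (V ⋊[φ] L) : ℤ) =
          ∑ θ : V →* ℂ, (Nat.card (stL φ θ) : ℚ) * (errZ p (stL φ θ) : ℤ) := by
        exact_mod_cast h1
      have h3 : ∀ θ : V →* ℂ, (Nat.card (stL φ θ) : ℚ) / Nat.card L * (errZ p (stL φ θ) : ℤ) =
          ((Nat.card (stL φ θ) : ℚ) * (errZ p (stL φ θ) : ℤ)) / Nat.card L := fun θ => by ring
      rw [Finset.sum_congr rfl fun θ _ => h3 θ, ← Finset.sum_div, ← h2,
        mul_div_cancel_left₀ _ hL.ne']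

/-- a counterexample of minimal order in a class -/
theorem exists_min_cls {D : ∀ (G : Type) [Group G], Prop} {C : ∀ (G : Type) [Group G], Prop}
    (h : ∃ (G : Type) (_ : Group G) (_ : Finite G), C G ∧ ¬ D G) :
    ∃ (G : Type) (_ : Group G) (_ : Finite G), C G ∧ ¬ D G ∧
      ∀ (H : Type) [Group H] [Finite H], C H → Nat.card H < Nat.card G → D H := by
  have h1 : ∃ n : ℕ, ∃ (G : Type) (_ : Group G) (_ : Finite G), C G ∧ ¬ D G ∧
      Nat.card G = n := by
    obtain ⟨G, i1, i2, h, h'⟩ := h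
    exact ⟨_, G, i1, i2, h, h', rfl⟩
  obtain ⟨G, i1, i2, h0, h2, h3⟩ := Nat.find_spec h1
  refine ⟨G, i1, i2, h0, h2, fun H i3 i4 hCH hlt => ?_⟩
  by_contra hne
  rw [h3] at hlt
  exact Nat.find_min h1 hlt ⟨H, i3, i4, hCH, hne, rfl⟩

theorem card_lt_of_ne_top {G : Type} [Group G] [Finite G] {K : Subgroup G} (hK : K ≠ ⊤) :
    Nat.card K < Nat.card G := by
  have h1 : (K : Set G) ⊂ Set.univ := by
    rw [Set.ssubset_univ_iff]
    intro h2
    exact hK (SetLike.coe_injective (h2.trans Subgroup.coe_top.symm))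
  calc Nat.card K < Nat.card (Set.univ : Set G) :=
        Set.Finite.card_lt_card (Set.toFinite _) h1
    _ = Nat.card G := Nat.card_univ

/-- the groups in the family are semidirect products -/
theorem prim_semi {r : ℕ} {C : ∀ (G : Type) [Group G], Prop} {H : Type} [Group H] [Finite H]
    (hH : PrimC r C H) : ∃ (V L : Type) (_ : CommGroup V) (_ : Group L) (_ : Finite V)
      (_ : Finite L) (φ : L →* MulAut V), (∀ v : V, v ^ r = 1) ∧ C L ∧
      Nonempty (V ⋊[φ] L ≃* H) := by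
  obtain ⟨V, K, h0, h1, h2, h3, h4, h5, h6⟩ := hH
  let iV : CommGroup V :=
    { (inferInstance : Group V) with
      mul_comm := fun a b => Subtype.ext (h3 a a.2 b b.2) }
  let φ : K →* MulAut V :=
    (V.normalizerMonoidHom).comp (Subgroup.inclusion (V.normalizer_eq_top ▸ le_top))
  exact ⟨V, K, iV, inferInstance, inferInstance, inferInstance, φ,
    fun v => Subtype.ext (by rw [Subgroup.coe_pow]; exact h4 v v.2), h6,
    ⟨SemidirectProduct.mulEquivSubgroup h5⟩⟩

/-- **All or nothing for primitive groups.** -/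
theorem krc_prim {p r e : ℕ} [hp : Fact p.Prime] [hr : Fact r.Prime] [he : Fact e.Prime]
    (hrp : r ≠ p) (hep : e ≠ p) (her : e ≠ r) {C : ∀ (G : Type) [Group G], Prop} (hC : Cls e C) :
    (∀ (G : Type) [Group G] [Finite G], C G → KRC p G) ↔
    ∀ ε : ℝ, 0 < ε → ∃ c : ℝ, ∀ (H : Type) [Group H] [Finite H], PrimC r C H →
      |((err p H : ℚ) : ℝ)| ≤ c * (Nat.card H : ℝ) ^ ε := by
  have hpe : ¬ p ∣ e := fun h1 => hep ((Nat.prime_dvd_prime_iff_eq hp.out he.out).mp h1).symm
  have hpr : ¬ p ∣ r := fun h1 => hrp ((Nat.prime_dvd_prime_iff_eq hp.out hr.out).mp h1).symm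
  have hn : ¬ p ∣ e * r := fun h1 => (hp.out.dvd_mul.mp h1).elim hpe hpr
  constructor
  · intro h ε _
    refine ⟨1, fun H _ _ hH => ?_⟩
    have h0 : errZ p H = 0 := by
      obtain ⟨V, L, i1, i2, i3, i4, φ, hV, hL, ⟨ι⟩⟩ := prim_semi hH
      have h6 := errZ_semi (p := p) φ (card_not_dvd hpr hV)
      have h7 : (∑ᶠ θ : V →* ℂ, (Nat.card (stL φ θ) : ℤ) * errZ p (stL φ θ)) = 0 := by
        rw [← finsum_zero (α := V →* ℂ)]
        refine finsum_congr fun θ => ?_
        have h8 := (krc_iff_err p _).1 (h (stL φ θ) (hC.sub L _ hL))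
        rw [err_eq] at h8
        have h9 : errZ p (stL φ θ) = 0 := by exact_mod_cast h8
        rw [h9, mul_zero]
      rw [h7] at h6
      have h8 : (Nat.card L : ℤ) ≠ 0 := by exact_mod_cast Nat.card_pos.ne'
      rw [← errZ_iso (p := p) (V ⋊[φ] L) H ⟨ι⟩]
      exact (mul_eq_zero.mp h6).resolve_left h8
    rw [err_eq, h0, Int.cast_zero, Rat.cast_zero, abs_zero]
    positivity
  · intro h
    by_contra hcon
    push Not at hcon
    obtain ⟨G', i1, i2, hG0, hG'⟩ := hcon
    obtain ⟨G, i1, i2, hG0, hG, hmin⟩ := exists_min_cls (D := fun G _ => errZ p G = 0) (C := C)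
      ⟨G', i1, i2, hG0, fun h0 => hG' (by rw [krc_iff_err, err_eq, h0, Int.cast_zero])⟩
    have hfin : Finite (minU r e) := inferInstance
    refine hG (no_growth (krF p (e * r) hn) (seed r e her) (dvd_mul_right e r)
      hpe (fun w => ?_) (fun ε hε => ?_) fun K hK => ?_)
    · rw [mul_comm, pow_mul, min_exp, one_pow]
    · obtain ⟨c, hc⟩ := h ε hε
      refine ⟨c, fun k => ?_⟩
      have h1 := hc _ (Hk_prim (seed r e her) (min_exp r e) hC hG0 k)
      rw [err_eq] at h1
      have h2 : ∀ z : ℤ, |(z : ℝ)| = |((z : ℚ) : ℝ)| := fun z => by push_cast; rfl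
      rw [h2]
      exact h1
    · exact hmin K (hC.sub G K hG0) (card_lt_of_ne_top hK)

end Run7.h45.QP
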