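import Pool.Agent.Run7.h45.QP5
import Pool.Agent.Run7.h45.MC3
import Pool.Agent.Run7.h45.IN4

/-!
# The formula for the numbers of characters with degree in a class modulo `p`
-/

set_option autoImplicit false
set_option linter.unusedSectionVars false

open scoped Classical BigOperators

noncomputable section

namespace Run7.h45.QP

open Pool.Agent.K3h83.IN
open Pool.Agent.Helper884 Pool.Agent.K3h3.KB Pool.Agent.K3h3.MK SemidirectProduct
open Pool.Agent.H254R3.IN (IsIrr mem_Irr)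
open Pool.Agent.Run7.h45.IN (sum_lin wt_inf sd_local wo_H wo_K fixes_inl St jK jK_inj jK_normal
  inl_normal)
open Pool.Agent.Run7.h45.MC (WW sylR mem_sylR mem_NNR card_fix)
open IC (Irr)

section

variable {p : ℕ} [hp : Fact p.Prime]

/-- the class of an integer -/
def ic (p : ℕ) [Fact p.Prime] (n : ℕ) : (ZMod p)ˣ :=
  if h : (n : ZMod p) = 0 then 1 else (Units.mk0 (n : ZMod p) h) ^ 2

theorem ne_of_not_dvd {n : ℕ} (h : ¬ p ∣ n) : (n : ZMod p) ≠ 0 :=
  fun h1 => h ((ZMod.natCast_eq_zero_iff _ _).mp h1)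

theorem ic_eq {n : ℕ} (h : ¬ p ∣ n) : ic p n = (Units.mk0 (n : ZMod p) (ne_of_not_dvd h)) ^ 2 := by
  unfold ic
  rw [dif_neg (ne_of_not_dvd h)]

theorem cl_ic {n : ℕ} (h : ¬ p ∣ n) : cl p n = MonoidAlgebra.single (ic p n) 1 := by
  rw [cl_apply p (ne_of_not_dvd h), ic_eq h]

theorem ic_mul {m n : ℕ} (hm : ¬ p ∣ m) (hn : ¬ p ∣ n) : ic p (m * n) = ic p m * ic p n := by
  have h : ¬ p ∣ m * n := fun h => (hp.out.dvd_mul.mp h).elim hm hn
  rw [ic_eq h, ic_eq hm, ic_eq hn, ← mul_pow]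
  congr 1
  ext
  rw [Units.val_mk0, Units.val_mul, Units.val_mk0, Units.val_mk0, Nat.cast_mul]

theorem ic_one : ic p 1 = 1 := by
  have h : ¬ p ∣ 1 := fun h => hp.out.ne_one (Nat.dvd_one.mp h)
  rw [ic_eq h]
  have : Units.mk0 ((1 : ℕ) : ZMod p) (ne_of_not_dvd h) = 1 := by
    ext
    rw [Units.val_mk0, Nat.cast_one, Units.val_one]
  rw [this, one_pow]

theorem ic_pow {m : ℕ} (hm : ¬ p ∣ m) (h1 : ic p m = 1) (k : ℕ) : ic p (m ^ k) = 1 := by
  induction k with
  | zero => rw [pow_zero, ic_one]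
  | succ k ih =>
    rw [pow_succ, ic_mul (fun h => hm (hp.out.dvd_of_dvd_pow h)) hm, ih, h1, mul_one]

/-- the difference -/
def dI (p : ℕ) [Fact p.Prime] (y : (ZMod p)ˣ) (G : Type) [Group G] [Finite G] : ℤ :=
  (wt (cl p) G - wt (cl p) (NN (default : Sylow p G))).coeff y

theorem dI_eq {y : (ZMod p)ˣ} {G : Type} [Group G] [Finite G] (P : Sylow p G) :
    dI p y G = (wt (cl p) G - wt (cl p) (NN P)).coeff y := by
  unfold dI
  rw [wt_NN (cl p) (default : Sylow p G) P]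

theorem dI_iso {y : (ZMod p)ˣ} {G H : Type} [Group G] [Group H] [Finite G] [Finite H]
    (e : G ≃* H) : dI p y G = dI p y H := by
  unfold dI
  rw [Pool.Agent.Run7.h45.IN.del_congr e (default : Sylow p G) (default : Sylow p H)]

end

section sd

variable {V L : Type} [CommGroup V] [Group L] [Finite V] [Finite L] {φ : L →* MulAut V}
  {p : ℕ} [hp : Fact p.Prime]

theorem sylR_map (hV : ¬ p ∣ Nat.card V) (P : Sylow p L) :
    (P : Subgroup L) = (sylR φ hV P : Subgroup (V ⋊[φ] L)).map rightHom := by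
  ext x
  constructor
  · intro hx
    exact ⟨inr x, mem_sylR.mpr ⟨left_inr x, by rw [right_inr]; exact hx⟩, rightHom_inr x⟩
  · rintro ⟨y, hy, rfl⟩
    exact (mem_sylR.mp hy).2

theorem card_fix' {hV : ¬ p ∣ Nat.card V} (P : Sylow p L) (l : V →* ℂˣ) :
    Nat.card {x : V ⋊[φ] L // x ∈ NN (sylR φ hV P) ∧
      fixes (inl : V →* V ⋊[φ] L) (fun v => ((l v : ℂˣ) : ℂ)) x} =
      Nat.card (WW φ P) * Nat.card (St φ l ⊓ NN P : Subgroup L) := by
  rw [← Nat.card_prod]
  refine Nat.card_congr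
    { toFun := fun x => (⟨x.1.left, (mem_NNR.mp x.2.1).1⟩,
        ⟨x.1.right, (fixes_inl l x.1).mp x.2.2, (mem_NNR.mp x.2.1).2⟩)
      invFun := fun y => ⟨⟨y.1, y.2⟩, mem_NNR.mpr ⟨y.1.2, y.2.2.2⟩, (fixes_inl l _).mpr y.2.2.1⟩
      left_inv := fun _ => rfl
      right_inv := fun _ => rfl }

theorem card_NNR (hV : ¬ p ∣ Nat.card V) (P : Sylow p L) :
    Nat.card (NN (sylR φ hV P)) = Nat.card (WW φ P) * Nat.card (NN P) := by
  rw [← Nat.card_congr (Pool.Agent.Run7.h45.MC.eN hV P).toEquiv, SemidirectProduct.card]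

/-- **The formula.** -/
theorem in_formula (hV : ¬ p ∣ Nat.card V) (P : Sylow p L) :
    (Nat.card (NN P) : Pool.Agent.K3h3.MK.RR p) * (wt (cl p) (V ⋊[φ] L) - wt (cl p) (NN (sylR φ hV P))) =
      ∑ l ∈ Finset.univ.filter (fun l : V →* ℂˣ => (P : Subgroup L) ≤ St φ l),
        (Nat.card (St φ l ⊓ NN P : Subgroup L) : Pool.Agent.K3h3.MK.RR p) * (cl p (St φ l).index *
          (wt (cl p) (St φ l) - wt (cl p) (St φ l ⊓ NN P : Subgroup L))) := by
  have := Fintype.ofFinite V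
  set R : Sylow p (V ⋊[φ] L) := sylR φ hV P with hR
  have hP := sylR_map (φ := φ) hV P
  set P' : Sylow p L := R.mapSurjective (rightHom_surjective (φ := φ)) with hP'
  have hPP : P' = P := Sylow.ext (by
    rw [hP]
    rfl)
  have h5 := a_S5 p (V ⋊[φ] L) L rightHom rightHom_surjective R
  have hX' : (NN P').comap (rightHom : V ⋊[φ] L →* L) =
      (rightHom : V ⋊[φ] L →* L).ker ⊔ NN R := h5
  rw [hPP] at hX'
  have hNX : NN R ≤ (NN P).comap (rightHom : V ⋊[φ] L →* L) := by rw [hX']; exact le_sup_right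
  set X : Subgroup (V ⋊[φ] L) := (NN P).comap rightHom with hX
  have hloc := sd_local hV R X hX'
  rw [← hloc]
  have hRX : (R : Subgroup (V ⋊[φ] L)) ≤ X := Subgroup.le_normalizer.trans hNX
  have e1 := a_S2 p V (V ⋊[φ] L) inl inl_injective inl_normal R
  have e2 := a_S2 p V X (jK (NN P)) (jK_inj _) (jK_normal _) (R.subtype hRX)
  have hfix : ∀ (θ : V → ℂ) (x : X), fixes (jK (φ := φ) (NN P)) θ x ↔
      fixes (inl : V →* V ⋊[φ] L) θ x.1 := by
    intro θ x
    constructor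
    · intro h v v' hv
      exact h v v' (Subtype.ext hv)
    · intro h v v' hv
      exact h v v' (congrArg Subtype.val hv)
  have c0 : ∀ θ : V → ℂ, Nat.card {x : X // x ∈ NN (R.subtype hRX) ∧ fixes (jK (φ := φ) (NN P)) θ x} =
      Nat.card {x : V ⋊[φ] L // x ∈ NN R ∧ fixes (inl : V →* V ⋊[φ] L) θ x} := by
    intro θ
    refine Nat.card_congr
      { toFun := fun x => ⟨x.1.1, (mem_NN_subtype R hRX x.1).mp x.2.1, (hfix θ x.1).mp x.2.2⟩
        invFun := fun x => ⟨⟨x.1, hNX x.2.1⟩, (mem_NN_subtype R hRX ⟨x.1, hNX x.2.1⟩).mpr x.2.1,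
          (hfix θ ⟨x.1, hNX x.2.1⟩).mpr x.2.2⟩
        left_inv := fun _ => rfl
        right_inv := fun _ => rfl }
  have c1 : Nat.card (NN (R.subtype hRX)) = Nat.card (NN R) := by
    refine Nat.card_congr
      { toFun := fun x => ⟨x.1.1, (mem_NN_subtype R hRX x.1).mp x.2⟩
        invFun := fun x => ⟨⟨x.1, hNX x.2⟩, (mem_NN_subtype R hRX ⟨x.1, hNX x.2⟩).mpr x.2⟩
        left_inv := fun _ => rfl
        right_inv := fun _ => rfl }
  have c2 : (Irr V).filter (fun θ => ∀ x ∈ R.subtype hRX, fixes (jK (φ := φ) (NN P)) θ x) =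
      (Irr V).filter (fun θ => ∀ x ∈ R, fixes (inl : V →* V ⋊[φ] L) θ x) := by
    refine Finset.filter_congr fun θ _ => ?_
    constructor
    · intro H x hx
      exact (hfix θ ⟨x, hRX hx⟩).mp (H ⟨x, hRX hx⟩ hx)
    · intro H x hx
      exact (hfix θ x).mpr (H x hx)
  rw [c1, c2] at e2
  rw [sum_lin _ R P hP] at e1 e2
  have hW : Nat.card (WW φ P) ≠ 0 := Nat.card_pos.ne'
  refine natCast_mul_inj p hW ?_
  have e0 : (Nat.card (WW φ P) : Pool.Agent.K3h3.MK.RR p) * ((Nat.card (NN P) : Pool.Agent.K3h3.MK.RR p) *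
      (wt (cl p) (V ⋊[φ] L) - wt (cl p) X)) =
      (Nat.card (NN R) : Pool.Agent.K3h3.MK.RR p) * (wt (cl p) (V ⋊[φ] L) - wt (cl p) X) := by
    rw [card_NNR, Nat.cast_mul, mul_assoc]
  rw [e0, mul_sub, e1, e2, ← Finset.sum_sub_distrib, Finset.mul_sum]
  refine Finset.sum_congr rfl fun l hl => ?_
  have hPS : (P : Subgroup L) ≤ St φ l := (Finset.mem_filter.mp hl).2
  have hRT : (R : Subgroup (V ⋊[φ] L)) ≤ (St φ l).comap rightHom := by
    rw [← Subgroup.map_le_iff_le_comap, ← hP]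
    exact hPS
  have h6 : ((St φ l).comap (rightHom : V ⋊[φ] L →* L)).index = (St φ l).index :=
    Subgroup.index_comap_of_surjective _ rightHom_surjective
  rw [c0, ← mul_sub, wo_H, wo_K, ← cl_congr p (a_S6 p (V ⋊[φ] L) R _ X hRT hNX), ← mul_sub, h6,
    card_fix', Nat.cast_mul, mul_assoc]

/-- the formula for the coefficients -/
theorem dI_semi (hV : ¬ p ∣ Nat.card V) (P : Sylow p L) (y : (ZMod p)ˣ) :
    (Nat.card (NN P) : ℤ) * dI p y (V ⋊[φ] L) =
      ∑ l ∈ Finset.univ.filter (fun l : V →* ℂˣ => (P : Subgroup L) ≤ St φ l),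
        (Nat.card (St φ l ⊓ NN P : Subgroup L) : ℤ) *
          dI p (y * (ic p (St φ l).index)⁻¹) (St φ l) := by
  rw [dI_eq (sylR φ hV P), ← coeff_natCast_mul, in_formula hV P, MonoidAlgebra.coeff_sum,
    Finsupp.finsetSum_apply]
  refine Finset.sum_congr rfl fun l hl => ?_
  have hPS : (P : Subgroup L) ≤ St φ l := (Finset.mem_filter.mp hl).2
  have hi : ¬ p ∣ (St φ l).index := Pool.Agent.Run7.h45.MC.not_dvd_stL hPS
  rw [coeff_natCast_mul, cl_ic hi, mul_comm (MonoidAlgebra.single _ _), coeff_mul_single',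
    dI_eq (P.subtype hPS), wt_inf P hPS]

end sd

end Run7.h45.QP
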