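import Pool.Agent.Run7.h45.QP8

/-!
# Positivity for the numbers of characters with degree in a class modulo `p`
-/

set_option autoImplicit false
set_option linter.unusedSectionVars false

open scoped Classical BigOperators

noncomputable section

namespace Run7.h45.QP

open Pool.Agent.Helper884 Pool.Agent.K3h3.KB Pool.Agent.K3h3.MK SemidirectProduct
open Pool.Agent.Run7.h45.IN (St)

variable {p : ℕ} [hp : Fact p.Prime]

section wts

variable {V L : Type} [CommGroup V] [Group L] [Finite V] [Finite L] (φ : L →* MulAut V)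

/-- the characters with values in the units -/
def homU (V : Type) [CommGroup V] : (V →* ℂˣ) ≃ (V →* ℂ) where
  toFun l := (Units.coeHom ℂ).comp l
  invFun η := η.toHomUnits
  left_inv l := by
    ext v
    rfl
  right_inv η := by
    ext v
    rfl

theorem stL_homU (l : V →* ℂˣ) : stL φ (homU V l) = St φ l := by
  ext x
  constructor
  · intro h v
    exact Units.ext (h v)
  · intro h v
    exact congrArg (fun u : ℂˣ => (u : ℂ)) (h v)

/-- **The weights.** -/
theorem semiI (hV : ¬ p ∣ Nat.card V) : ∃ w : (V →* ℂ) → ℚ, (∀ θ, 0 ≤ w θ) ∧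
    (∀ θ, w θ ≠ 0 → ¬ p ∣ (stL φ θ).index) ∧
    (∀ θ (N : Subgroup L), N.Normal → ¬ p ∣ N.index → N ≤ stL φ θ → 1 / (Nat.card L : ℚ) ≤ w θ) ∧
    (∀ θ, stL φ θ = ⊤ → 1 ≤ w θ) ∧
    ∀ b : (ZMod p)ˣ, (dI p b (V ⋊[φ] L) : ℚ) =
      ∑ᶠ θ, w θ * dI p (b * (ic p (stL φ θ).index)⁻¹) (stL φ θ) := by
  set P : Sylow p L := default with hP
  have hNN : (0 : ℚ) < Nat.card (NN P) := by exact_mod_cast (Nat.card_pos (α := NN P))
  refine ⟨fun θ => if (P : Subgroup L) ≤ stL φ θ then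
      (Nat.card (stL φ θ ⊓ NN P : Subgroup L) : ℚ) / Nat.card (NN P) else 0, fun θ => ?_,
    fun θ hθ => ?_, fun θ N hN hi hNs => ?_, fun θ hθ => ?_, fun b => ?_⟩
  · change (0 : ℚ) ≤ if (P : Subgroup L) ≤ stL φ θ then
      (Nat.card (stL φ θ ⊓ NN P : Subgroup L) : ℚ) / Nat.card (NN P) else 0
    split_ifs
    · positivity
    · exact le_rfl
  · have h1 : (P : Subgroup L) ≤ stL φ θ := by
      by_contra h
      exact hθ (if_neg h)
    exact Pool.Agent.Run7.h45.MC.not_dvd_stL h1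
  · change 1 / (Nat.card L : ℚ) ≤ if (P : Subgroup L) ≤ stL φ θ then
      (Nat.card (stL φ θ ⊓ NN P : Subgroup L) : ℚ) / Nat.card (NN P) else 0
    have hPN : (P : Subgroup L) ≤ N := by
      have h1 : IsPGroup p ((P : Subgroup L).map (QuotientGroup.mk' N)) := P.isPGroup'.map _
      have h2 : (P : Subgroup L).map (QuotientGroup.mk' N) = ⊥ := by
        obtain ⟨k, hk⟩ := IsPGroup.iff_card.mp h1
        have h3 : Nat.card ((P : Subgroup L).map (QuotientGroup.mk' N)) ∣ N.index :=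
          Subgroup.card_subgroup_dvd_card _
        rw [hk] at h3
        rcases Nat.eq_zero_or_pos k with h4 | h4
        · subst h4
          rw [pow_zero] at hk
          exact Subgroup.card_eq_one.mp hk
        · exact absurd ((dvd_pow_self p h4.ne').trans h3) hi
      rw [Subgroup.map_eq_bot_iff, QuotientGroup.ker_mk'] at h2
      exact h2
    rw [if_pos (hPN.trans hNs)]
    have h1 : (1 : ℚ) ≤ Nat.card (stL φ θ ⊓ NN P : Subgroup L) := by
      exact_mod_cast (Nat.card_pos (α := (stL φ θ ⊓ NN P : Subgroup L)))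
    have h2 : (Nat.card (NN P) : ℚ) ≤ Nat.card L := by
      exact_mod_cast Nat.le_of_dvd Nat.card_pos (Subgroup.card_subgroup_dvd_card (NN P))
    exact div_le_div₀ (by positivity) h1 hNN h2
  · change (1 : ℚ) ≤ if (P : Subgroup L) ≤ stL φ θ then
      (Nat.card (stL φ θ ⊓ NN P : Subgroup L) : ℚ) / Nat.card (NN P) else 0
    rw [hθ, if_pos le_top, top_inf_eq, div_self hNN.ne']
  · have f4 : Finite (V →* ℂ) := finite_dual V
    have f5 : Fintype (V →* ℂ) := Fintype.ofFinite _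
    have h1 := dI_semi (φ := φ) hV P b
    rw [finsum_eq_sum_of_fintype]
    have h2 : (Nat.card (NN P) : ℚ) * (dI p b (V ⋊[φ] L) : ℤ) =
        ∑ l ∈ (Finset.univ : Finset (V →* ℂˣ)).filter (fun l => (P : Subgroup L) ≤ St φ l),
          (Nat.card (St φ l ⊓ NN P : Subgroup L) : ℚ) *
            (dI p (b * (ic p (St φ l).index)⁻¹) (St φ l) : ℤ) := by
      exact_mod_cast h1
    let g : Subgroup L → ℚ := fun K => if (P : Subgroup L) ≤ K then
      (Nat.card (K ⊓ NN P : Subgroup L) : ℚ) * (dI p (b * (ic p K.index)⁻¹) K : ℤ) else 0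
    have h3 : ∀ θ : V →* ℂ, (if (P : Subgroup L) ≤ stL φ θ then
        (Nat.card (stL φ θ ⊓ NN P : Subgroup L) : ℚ) / Nat.card (NN P) else 0) *
          (dI p (b * (ic p (stL φ θ).index)⁻¹) (stL φ θ) : ℤ) =
        g (stL φ θ) / Nat.card (NN P) := by
      intro θ
      change _ = (if (P : Subgroup L) ≤ stL φ θ then (Nat.card (stL φ θ ⊓ NN P : Subgroup L) : ℚ) *
        (dI p (b * (ic p (stL φ θ).index)⁻¹) (stL φ θ) : ℤ) else 0) / Nat.card (NN P)
      split_ifs with h4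
      · ring
      · rw [zero_mul, zero_div]
    have h4 : ∑ θ : V →* ℂ, g (stL φ θ) = ∑ l : V →* ℂˣ, g (St φ l) := by
      rw [← Equiv.sum_comp (homU V)]
      exact Finset.sum_congr rfl fun l _ => by rw [stL_homU]
    have h5 : ∑ l : V →* ℂˣ, g (St φ l) = (Nat.card (NN P) : ℚ) * (dI p b (V ⋊[φ] L) : ℤ) := by
      rw [h2, Finset.sum_filter]
    rw [Finset.sum_congr rfl fun θ _ => h3 θ, ← Finset.sum_div, h4, h5,
      mul_div_cancel_left₀ _ hNN.ne']

end wts

/-! ## positivity -/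

section pos

variable (s : ℤ) (b : (ZMod p)ˣ)

/-- nonnegative on the subgroups of index prime to `p` -/
def HP (L : Type) [Group L] [Finite L] : Prop :=
  ∀ K : Subgroup L, ¬ p ∣ K.index → 0 ≤ s * dI p (b * (ic p K.index)⁻¹) K

variable {s b}

theorem HP.iso {L L' : Type} [Group L] [Group L'] [Finite L] [Finite L'] (e : L ≃* L')
    (h : HP s b L) : HP s b L' := by
  intro K hK
  have h1 : (K.comap e.toMonoidHom).index = K.index :=
    Subgroup.index_comap_of_surjective _ e.surjective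
  have h2 := h (K.comap e.toMonoidHom) (by rwa [h1])
  rw [h1] at h2
  have h3 : (K.comap e.toMonoidHom).map e.toMonoidHom = K :=
    Subgroup.map_comap_eq_self_of_surjective e.surjective K
  have e1 : K.comap e.toMonoidHom ≃* (K.comap e.toMonoidHom).map e.toMonoidHom :=
    (K.comap e.toMonoidHom).equivMapOfInjective _ e.injective
  rw [h3] at e1
  rwa [dI_iso e1] at h2

theorem HP.sub {L : Type} [Group L] [Finite L] (h : HP s b L) (K : Subgroup L)
    (hK : ¬ p ∣ K.index) : HP s (b * (ic p K.index)⁻¹) K := by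
  intro Z hZ
  have h1 : (Z.map K.subtype).index = Z.index * K.index := Subgroup.index_map_subtype Z
  have h2 := h (Z.map K.subtype) (by
    rw [h1]
    exact fun h3 => (hp.out.dvd_mul.mp h3).elim hZ hK)
  rw [h1, ic_mul hZ hK, mul_inv, mul_comm (ic p Z.index)⁻¹, ← mul_assoc,
    dI_iso (Z.equivMapOfInjective K.subtype K.subtype_injective).symm] at h2
  exact h2

theorem HP.top {L : Type} [Group L] [Finite L] (h : HP s b L) : 0 ≤ s * dI p b L := by
  have h1 := h ⊤ (by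
    rw [Subgroup.index_top]
    exact fun h => hp.out.ne_one (Nat.dvd_one.mp h))
  rwa [Subgroup.index_top, ic_one, inv_one, mul_one, dI_iso Subgroup.topEquiv] at h1

theorem gdI_semi {V L : Type} [CommGroup V] [Group L] [Finite V] [Finite L] (φ : L →* MulAut V)
    (hV : ¬ p ∣ Nat.card V) (h : ∀ θ : V →* ℂ, ¬ p ∣ (stL φ θ).index →
      0 ≤ s * dI p (b * (ic p (stL φ θ).index)⁻¹) (stL φ θ)) : 0 ≤ s * dI p b (V ⋊[φ] L) := by
  obtain ⟨w, h1, h2, -, -, h3⟩ := semiI (p := p) φ hV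
  have : Finite (V →* ℂ) := finite_dual V
  have : Fintype (V →* ℂ) := Fintype.ofFinite _
  have h4 := h3 b
  rw [finsum_eq_sum_of_fintype] at h4
  have h5 : (0 : ℚ) ≤ (s : ℚ) * dI p b (V ⋊[φ] L) := by
    rw [h4, Finset.mul_sum]
    refine Finset.sum_nonneg fun θ _ => ?_
    by_cases hw : w θ = 0
    · rw [hw, zero_mul, mul_zero]
    · have h6 : (0 : ℚ) ≤ ((s * dI p (b * (ic p (stL φ θ).index)⁻¹) (stL φ θ) : ℤ) : ℚ) := by
        exact_mod_cast h θ (h2 θ hw)
      push_cast at h6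
      calc (0 : ℚ) ≤ w θ * (s * dI p (b * (ic p (stL φ θ).index)⁻¹) (stL φ θ)) :=
            mul_nonneg (h1 θ) h6
        _ = _ := by ring
  exact_mod_cast h5

theorem dI_le {V L : Type} [CommGroup V] [Group L] [Finite V] [Finite L] (φ : L →* MulAut V)
    (hV : ¬ p ∣ Nat.card V) (h : ∀ θ : V →* ℂ, ¬ p ∣ (stL φ θ).index →
      0 ≤ s * dI p (b * (ic p (stL φ θ).index)⁻¹) (stL φ θ)) :
    s * dI p b L ≤ s * dI p b (V ⋊[φ] L) := by
  obtain ⟨w, h1, h2, -, h0, h3⟩ := semiI (p := p) φ hV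
  have : Finite (V →* ℂ) := finite_dual V
  have : Fintype (V →* ℂ) := Fintype.ofFinite _
  have h4 := h3 b
  rw [finsum_eq_sum_of_fintype] at h4
  have h5 : stL φ (1 : V →* ℂ) = ⊤ := by
    rw [eq_top_iff]
    intro l _ v
    rfl
  have h6 : dI p (b * (ic p (stL φ (1 : V →* ℂ)).index)⁻¹) (stL φ (1 : V →* ℂ)) = dI p b L := by
    have e1 : stL φ (1 : V →* ℂ) ≃* L := by
      rw [h5]
      exact Subgroup.topEquiv
    rw [dI_iso e1, h5, Subgroup.index_top, ic_one, inv_one, mul_one]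
  have h7 : ((s * dI p b L : ℤ) : ℚ) ≤ (s : ℚ) * dI p b (V ⋊[φ] L) := by
    rw [h4, Finset.mul_sum]
    have h8 : ∀ θ ∈ (Finset.univ : Finset (V →* ℂ)),
        0 ≤ (s : ℚ) * (w θ * dI p (b * (ic p (stL φ θ).index)⁻¹) (stL φ θ)) := by
      intro θ _
      by_cases hw : w θ = 0
      · rw [hw, zero_mul, mul_zero]
      · have h6 : (0 : ℚ) ≤ ((s * dI p (b * (ic p (stL φ θ).index)⁻¹) (stL φ θ) : ℤ) : ℚ) := by
          exact_mod_cast h θ (h2 θ hw)
        push_cast at h6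
        calc (0 : ℚ) ≤ w θ * (s * dI p (b * (ic p (stL φ θ).index)⁻¹) (stL φ θ)) :=
              mul_nonneg (h1 θ) h6
          _ = _ := by ring
    refine le_trans ?_ (Finset.single_le_sum h8 (Finset.mem_univ (1 : V →* ℂ)))
    rw [h6]
    have h9 : (0 : ℚ) ≤ ((s * dI p b L : ℤ) : ℚ) := by
      have h10 := h 1 (by
        rw [h5, Subgroup.index_top]
        exact fun h => hp.out.ne_one (Nat.dvd_one.mp h))
      rw [h6] at h10
      exact_mod_cast h10
    push_cast at h9 ⊢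
    calc (s : ℚ) * dI p b L ≤ w 1 * (s * dI p b L) := le_mul_of_one_le_left h9 (h0 1 h5)
      _ = _ := by ring
  exact_mod_cast h7

theorem dI_ge {V L : Type} [CommGroup V] [Group L] [Finite V] [Finite L] (φ : L →* MulAut V)
    (hV : ¬ p ∣ Nat.card V) (h : ∀ θ : V →* ℂ, ¬ p ∣ (stL φ θ).index →
      0 ≤ s * dI p (b * (ic p (stL φ θ).index)⁻¹) (stL φ θ)) (N : Subgroup L)
    (hN : N.Normal) (hi : ¬ p ∣ N.index)
    (h1 : ∀ θ : V →* ℂ, N ≤ stL φ θ →
      1 ≤ s * dI p (b * (ic p (stL φ θ).index)⁻¹) (stL φ θ)) :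
    (Nat.card {θ : V →* ℂ // N ≤ stL φ θ} : ℤ) ≤ Nat.card L * (s * dI p b (V ⋊[φ] L)) := by
  obtain ⟨w, g1, g0, g2, -, g3⟩ := semiI (p := p) φ hV
  have : Finite (V →* ℂ) := finite_dual V
  have : Fintype (V →* ℂ) := Fintype.ofFinite _
  have g4 := g3 b
  rw [finsum_eq_sum_of_fintype] at g4
  have hL : (0 : ℚ) < Nat.card L := by exact_mod_cast (Nat.card_pos (α := L))
  have key : ((Nat.card {θ : V →* ℂ // N ≤ stL φ θ} : ℕ) : ℚ) ≤
      Nat.card L * (s * dI p b (V ⋊[φ] L)) := by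
    rw [g4, Finset.mul_sum, Finset.mul_sum, Nat.card_eq_fintype_card, Fintype.card_subtype,
      Finset.card_eq_sum_ones, Nat.cast_sum, Finset.sum_filter]
    refine Finset.sum_le_sum fun θ _ => ?_
    split_ifs with h5
    · have h6 : (1 : ℚ) ≤ ((s * dI p (b * (ic p (stL φ θ).index)⁻¹) (stL φ θ) : ℤ) : ℚ) := by
        exact_mod_cast h1 θ h5
      push_cast at h6
      have h7 := g2 θ N hN hi h5
      calc ((1 : ℕ) : ℚ) = Nat.card L * (1 / (Nat.card L : ℚ) * 1) := by
            rw [mul_one, mul_one_div_cancel hL.ne', Nat.cast_one]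
        _ ≤ Nat.card L * (w θ * (s * dI p (b * (ic p (stL φ θ).index)⁻¹) (stL φ θ))) :=
            mul_le_mul_of_nonneg_left (mul_le_mul h7 h6 zero_le_one (g1 θ)) hL.le
        _ = _ := by ring
    · by_cases hw : w θ = 0
      · rw [hw, zero_mul, mul_zero, mul_zero]
      · have h4 : (0 : ℚ) ≤ ((s * dI p (b * (ic p (stL φ θ).index)⁻¹) (stL φ θ) : ℤ) : ℚ) := by
          exact_mod_cast h θ (g0 θ hw)
        push_cast at h4
        calc (0 : ℚ) ≤ Nat.card L * (w θ * (s * dI p (b * (ic p (stL φ θ).index)⁻¹)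
              (stL φ θ))) := mul_nonneg hL.le (mul_nonneg (g1 θ) h4)
          _ = _ := by ring
  exact_mod_cast key

/-- the index of the stabilizer in a subgroup -/
theorem HP.stab {V L : Type} [CommGroup V] [Group L] [Finite V] [Finite L] (h : HP s b L)
    (φ : L →* MulAut V) (θ : V →* ℂ) (hi : ¬ p ∣ (stL φ θ).index) :
    0 ≤ s * dI p (b * (ic p (stL φ θ).index)⁻¹) (stL φ θ) := h _ hi

/-! ### products with elementary abelian groups -/

variable {e : ℕ} [he : Fact e.Prime]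

theorem card_TT_sub {k : ℕ} (T₁ : Subgroup (TT e k)) :
    (∃ j, Nat.card T₁ = e ^ j) ∧ ∃ j, T₁.index = e ^ j := by
  have h1 : Nat.card T₁ ∣ e ^ k := card_TT (e := e) k ▸ Subgroup.card_subgroup_dvd_card T₁
  have h2 : T₁.index ∣ e ^ k := card_TT (e := e) k ▸ Subgroup.index_dvd_card T₁
  obtain ⟨i, -, hi⟩ := (Nat.dvd_prime_pow he.out).mp h1
  obtain ⟨j, -, hj⟩ := (Nat.dvd_prime_pow he.out).mp h2
  exact ⟨⟨i, hi⟩, ⟨j, hj⟩⟩

theorem prod_index {L : Type} [Group L] [Finite L] {k : ℕ} (Y : Subgroup (L × TT e k)) :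
    Y.index = (intT Y).index * (prL Y).index := by
  obtain ⟨e1⟩ := prod_struct Y
  have h1 : Nat.card Y = Nat.card (intT Y) * Nat.card (prL Y) := by
    rw [Nat.card_congr e1.toEquiv, Nat.card_prod]
  have h2 := Y.card_mul_index
  have h3 := (intT Y).card_mul_index
  have h4 := (prL Y).card_mul_index
  have h5 : 0 < Nat.card Y := Nat.card_pos
  apply Nat.eq_of_mul_eq_mul_left h5
  rw [h2, h1, Nat.card_prod, ← h3, ← h4]
  ring

/-- the product with an elementary abelian group -/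
theorem HP.prod (hpe : ¬ p ∣ e) (hce : ic p e = 1) {L : Type} [Group L] [Finite L]
    (h : HP s b L) (k : ℕ) : HP s b (L × TT e k) := by
  intro Y hY
  obtain ⟨e1⟩ := prod_struct Y
  obtain ⟨⟨i, hi⟩, ⟨j, hj⟩⟩ := card_TT_sub (intT Y)
  have hY1 := prod_index Y
  have h1 : ¬ p ∣ e ^ j := fun h => hpe (hp.out.dvd_of_dvd_pow h)
  have h2 : ¬ p ∣ (prL Y).index := fun h => hY (hY1 ▸ h.mul_left _)
  have h3 : ic p Y.index = ic p (prL Y).index := by
    rw [hY1, hj, ic_mul h1 h2, ic_pow hpe hce, one_mul]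
  rw [h3, dI_iso (e1.trans (prodSemi _ _))]
  exact gdI_semi _ (by rw [hi]; exact fun h => hpe (hp.out.dvd_of_dvd_pow h))
    fun θ hθ => (h.sub (prL Y) h2).stab _ θ hθ

theorem one_le_prodI (hpe : ¬ p ∣ e) (hce : ic p e = 1) {L : Type} [Group L] [Finite L]
    (h : HP s b L) (h0 : 0 < s * dI p b L) {k : ℕ} (Y : Subgroup (L × TT e k))
    (hY : ∀ l : L, (l, (1 : TT e k)) ∈ Y) : 1 ≤ s * dI p (b * (ic p Y.index)⁻¹) Y := by
  have h2 : prL Y = ⊤ := by
    rw [eq_top_iff]
    intro l _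
    exact ⟨(l, 1), hY l, rfl⟩
  obtain ⟨e1⟩ := prod_struct Y
  obtain ⟨⟨i, hi⟩, ⟨j, hj⟩⟩ := card_TT_sub (intT Y)
  have hY1 := prod_index Y
  have h3 : ic p Y.index = 1 := by
    rw [hY1, hj, h2, Subgroup.index_top, mul_one, ic_pow hpe hce]
  rw [h3, inv_one, mul_one, dI_iso (e1.trans (prodSemi _ _))]
  have h4 : HP s b (prL Y) := by
    have h5 := h.sub (prL Y) (by
      rw [h2, Subgroup.index_top]
      exact fun h => hp.out.ne_one (Nat.dvd_one.mp h))
    rwa [h2, Subgroup.index_top, ic_one, inv_one, mul_one, ← h2] at h5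
  have e2 : prL Y ≃* L := by
    rw [h2]
    exact Subgroup.topEquiv
  have h5 := dI_le (s := s) (b := b) (1 : prL Y →* MulAut (intT Y))
    (by rw [hi]; exact fun h => hpe (hp.out.dvd_of_dvd_pow h)) fun θ hθ => h4.stab _ θ hθ
  rw [dI_iso e2] at h5
  omega

end pos

end Run7.h45.QP
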