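import Pool.Agent.Run7.h45.Cl
import Pool.Agent.Y914.NV.Irr

/-!
# Clifford theory over an abelian normal subgroup: irreducible representations
-/

set_option autoImplicit false

open scoped Classical BigOperators

noncomputable section

namespace Run7.h45

open Pool.Agent.Y63.NV

section irr

variable {K G W : Type} [Field K] [Group G] [AddCommGroup W] [Module K W]

theorem irr_of (ρ : Representation K G W) (h0 : ∃ w : W, w ≠ 0)
    (h : ∀ U : Submodule K W, (∀ g, ∀ u ∈ U, ρ g u ∈ U) → (∃ u ∈ U, u ≠ 0) → ∀ w, w ∈ U) :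
    ρ.IsIrreducible := by
  have hne : Nontrivial (Subrepresentation ρ) := by
    obtain ⟨w, hw⟩ := h0
    refine ⟨⟨⊥, ⊤, fun hh => hw ?_⟩⟩
    have h1 : w ∈ (⊤ : Subrepresentation ρ) := Submodule.mem_top (R := K) (x := w)
    rw [← hh] at h1
    exact (Submodule.mem_bot K).mp h1
  refine { eq_bot_or_eq_top := fun s => ?_ }
  by_cases hs : ∃ u ∈ s.toSubmodule, u ≠ 0
  · right
    apply Subrepresentation.toSubmodule_injective
    exact (Submodule.eq_top_iff'.mpr (h s.toSubmodule (fun g u hu => s.apply_mem_toSubmodule g hu) hs))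
  · left
    apply Subrepresentation.toSubmodule_injective
    refine (Submodule.eq_bot_iff _).mpr fun u hu => ?_
    by_contra hne
    exact hs ⟨u, hu, hne⟩

theorem irr_use {ρ : Representation K G W} (hρ : ρ.IsIrreducible) (U : Submodule K W)
    (hU : ∀ g, ∀ u ∈ U, ρ g u ∈ U) (hne : ∃ u ∈ U, u ≠ 0) (w : W) : w ∈ U := by
  let s : Subrepresentation ρ := ⟨U, fun g u hu => hU g u hu⟩
  rcases hρ.eq_bot_or_eq_top s with h1 | h1
  · exfalso
    obtain ⟨u, hu, hu0⟩ := hne
    have h2 : u ∈ s := hu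
    rw [h1] at h2
    exact hu0 ((Submodule.mem_bot K).mp h2)
  · have h2 : w ∈ s := by rw [h1]; exact Submodule.mem_top (R := K) (x := w)
    exact h2

theorem irr_ne {ρ : Representation K G W} (hρ : ρ.IsIrreducible) : ∃ w : W, w ≠ 0 := by
  by_contra hcon
  push Not at hcon
  have h1 : (⊥ : Subrepresentation ρ) = ⊤ := by
    apply Subrepresentation.toSubmodule_injective
    have h2 : (⊥ : Submodule K W) = ⊤ :=
      ((Submodule.eq_bot_iff (⊤ : Submodule K W)).mpr fun u _ => hcon u).symm
    exact h2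
  have h2 := hρ.toNontrivial
  exact bot_ne_top h1

end irr

section iso

variable {J C M : Type} [Group J] [CommGroup C] [Group M] {D : CD J C M} {K : Type} [Field K]
  [Fintype C] {W : Type} [AddCommGroup W] [Module K W]

/-- the projection to the isotypic part -/
def CD.prj (D : CD J C M) (η : C →* K) (ρ : Representation K J W) : Module.End K W :=
  (Fintype.card C : K)⁻¹ • ∑ v, η v⁻¹ • ρ (D.i v)

theorem CD.i_prj (η : C →* K) (ρ : Representation K J W) (v : C) :
    ρ (D.i v) * D.prj η ρ = η v • D.prj η ρ := by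
  unfold CD.prj
  rw [mul_smul_comm, smul_comm (η v)]
  congr 1
  rw [Finset.mul_sum, Finset.smul_sum]
  refine Fintype.sum_equiv (Equiv.mulLeft v) _ _ fun w => ?_
  rw [Equiv.coe_mulLeft, mul_smul_comm, ← map_mul, ← map_mul, mul_inv_rev, map_mul η, smul_smul]
  congr 1
  have h1 : η v * η v⁻¹ = 1 := by rw [← map_mul, mul_inv_cancel, map_one]
  calc η w⁻¹ = η w⁻¹ * (η v * η v⁻¹) := by rw [h1, mul_one]
    _ = η v * (η w⁻¹ * η v⁻¹) := by ring

theorem CD.prj_i (η : C →* K) (ρ : Representation K J W) (v : C) :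
    D.prj η ρ * ρ (D.i v) = η v • D.prj η ρ := by
  rw [← D.i_prj]
  unfold CD.prj
  rw [mul_smul_comm, smul_mul_assoc]
  congr 1
  rw [Finset.mul_sum, Finset.sum_mul]
  refine Finset.sum_congr rfl fun w _ => ?_
  rw [mul_smul_comm, smul_mul_assoc, ← map_mul, ← map_mul, ← map_mul, ← map_mul, mul_comm]

/-- the projection is the identity on the isotypic part -/
theorem CD.prj_fix (hC : (Fintype.card C : K) ≠ 0) (η : C →* K) (ρ : Representation K J W) {w : W}
    (hw : ∀ v, ρ (D.i v) w = η v • w) : D.prj η ρ w = w := by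
  unfold CD.prj
  rw [LinearMap.smul_apply, LinearMap.sum_apply]
  have h1 : ∀ v, (η v⁻¹ • ρ (D.i v)) w = w := by
    intro v
    rw [LinearMap.smul_apply, hw, smul_smul, ← map_mul, inv_mul_cancel, map_one, one_smul]
  rw [Finset.sum_congr rfl fun v _ => h1 v, Finset.sum_const, Finset.card_univ,
    ← Nat.cast_smul_eq_nsmul K, smul_smul, inv_mul_cancel₀ hC, one_smul]

theorem CD.prj_sq (hC : (Fintype.card C : K) ≠ 0) (η : C →* K) (ρ : Representation K J W) (w : W) :
    D.prj η ρ (D.prj η ρ w) = D.prj η ρ w :=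
  D.prj_fix hC η ρ fun v => LinearMap.congr_fun (D.i_prj η ρ v) w

theorem CD.prj_comm {η : C →* K} {y : J} (hy : ∀ v, η (D.c y v) = η v)
    (ρ : Representation K J W) : ρ y * D.prj η ρ = D.prj η ρ * ρ y := by
  unfold CD.prj
  rw [mul_smul_comm, smul_mul_assoc]
  congr 1
  rw [Finset.mul_sum, Finset.sum_mul]
  refine Fintype.sum_equiv (D.c y).toEquiv _ _ fun v => ?_
  have h1 : (D.c y).toEquiv v = D.c y v := rfl
  have h2 : (D.c y v)⁻¹ = D.c y v⁻¹ := (map_inv _ _).symm
  rw [h1, h2, hy, mul_smul_comm, smul_mul_assoc, ← map_mul, ← map_mul, D.mul_i]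

theorem CD.prj_zero {η : C →* K} {y : J} (hy : ¬ ∀ v, η (D.c y v) = η v)
    (ρ : Representation K J W) : D.prj η ρ * ρ y * D.prj η ρ = 0 := by
  push Not at hy
  obtain ⟨u, hu⟩ := hy
  have h1 : D.prj η ρ * ρ y * ρ (D.i u) * D.prj η ρ =
      η u • (D.prj η ρ * ρ y * D.prj η ρ) := by
    rw [mul_assoc _ (ρ (D.i u)), D.i_prj, mul_smul_comm]
  have h2 : D.prj η ρ * ρ y * ρ (D.i u) * D.prj η ρ =
      η (D.c y u) • (D.prj η ρ * ρ y * D.prj η ρ) := by
    rw [mul_assoc (D.prj η ρ), ← map_mul, D.mul_i, map_mul, ← mul_assoc (D.prj η ρ), D.prj_i,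
      smul_mul_assoc, smul_mul_assoc]
  have h3 : (η (D.c y u) - η u) • (D.prj η ρ * ρ y * D.prj η ρ) = 0 := by
    rw [sub_smul, ← h2, h1, sub_self]
  rcases smul_eq_zero.mp h3 with h4 | h4
  · exact absurd (sub_eq_zero.mp h4) hu
  · exact h4

/-- the isotypic part -/
def CD.isoS (D : CD J C M) (η : C →* K) (ρ : Representation K J W) : Submodule K W where
  carrier := {w | ∀ v, ρ (D.i v) w = η v • w}
  zero_mem' := fun v => by rw [map_zero, smul_zero]
  add_mem' := fun {a b} ha hb v => by rw [map_add, ha v, hb v, smul_add]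
  smul_mem' := fun c a ha v => by rw [map_smul, ha v, smul_comm]

theorem CD.prj_mem (η : C →* K) (ρ : Representation K J W) (w : W) :
    D.prj η ρ w ∈ D.isoS η ρ := fun v => LinearMap.congr_fun (D.i_prj η ρ v) w

/-- the action of the stabilizer on the isotypic part -/
def CD.isoR {η : C →* K} (hS : D.Stab η) (ρ : Representation K J W) :
    Representation K M (D.isoS η ρ) where
  toFun m := (ρ (D.j m)).restrict (p := D.isoS η ρ) (q := D.isoS η ρ) (fun w hw v => by
    rw [← Module.End.mul_apply, ← map_mul]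
    have h1 : D.i v * D.j m = D.j m * D.i (D.c (D.j m⁻¹) v) := by
      rw [D.hc, map_inv]; group
    rw [h1, map_mul, Module.End.mul_apply, hw, D.st_j hS, map_smul])
  map_one' := by
    ext w
    simp
  map_mul' a b := by
    ext w
    simp

omit [Fintype C] in
theorem CD.isoR_coe {η : C →* K} (hS : D.Stab η) (ρ : Representation K J W) (m : M)
    (w : D.isoS η ρ) : ((D.isoR hS ρ m w : D.isoS η ρ) : W) = ρ (D.j m) w := rfl

/-- the character of the isotypic part -/
theorem CD.isoR_char (hC : (Fintype.card C : K) ≠ 0) [FiniteDimensional K W] {η : C →* K}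
    (hS : D.Stab η) (ρ : Representation K J W) (m : M) :
    (D.isoR hS ρ).character m = (Fintype.card C : K)⁻¹ * D.tf (hinv η) ρ.character m := by
  let ι : D.isoS η ρ →ₗ[K] W := (D.isoS η ρ).subtype
  let π : W →ₗ[K] D.isoS η ρ := (D.prj η ρ).codRestrict (D.isoS η ρ) (D.prj_mem η ρ)
  have h1 : D.isoR hS ρ m = π ∘ₗ (ρ (D.j m) ∘ₗ ι) := by
    ext w
    change ρ (D.j m) w = D.prj η ρ (ρ (D.j m) w)
    rw [D.prj_fix hC η ρ]
    exact (D.isoR hS ρ m w).2
  have h2 : ι ∘ₗ π = D.prj η ρ := by
    ext w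
    rfl
  have h3 : (D.isoR hS ρ).character m = LinearMap.trace K W (ρ (D.j m) * D.prj η ρ) := by
    unfold Representation.character
    rw [h1, LinearMap.trace_comp_comm', LinearMap.comp_assoc, h2]
    rfl
  rw [h3]
  unfold CD.prj CD.tf
  rw [mul_smul_comm, map_smul, smul_eq_mul]
  congr 1
  rw [Finset.mul_sum, map_sum]
  refine Finset.sum_congr rfl fun v _ => ?_
  rw [mul_smul_comm, map_smul, smul_eq_mul, hinv_apply, ← LinearMap.trace_mul_comm, ← map_mul]
  rfl

theorem CD.isoR_irr (hC : (Fintype.card C : K) ≠ 0) {η : C →* K}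
    (hS : D.Stab η) {ρ : Representation K J W} (hρ : ρ.IsIrreducible)
    (hne : ∃ w ∈ D.isoS η ρ, w ≠ 0) : (D.isoR hS ρ).IsIrreducible := by
  refine irr_of _ ?_ ?_
  · obtain ⟨w, hw, hw0⟩ := hne
    exact ⟨⟨w, hw⟩, fun h => hw0 (congrArg Subtype.val h)⟩
  · intro U hU hU0 w
    -- the vectors whose projections of translates lie in `U`
    let X : Submodule K W :=
      { carrier := {x | ∀ y : J, D.prj η ρ (ρ y x) ∈ U.map (D.isoS η ρ).subtype}
        zero_mem' := fun y => by rw [map_zero, map_zero]; exact Submodule.zero_mem _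
        add_mem' := fun {a b} ha hb y => by
          rw [map_add, map_add]; exact Submodule.add_mem _ (ha y) (hb y)
        smul_mem' := fun c a ha y => by
          rw [map_smul, map_smul]; exact Submodule.smul_mem _ c (ha y) }
    have hX : ∀ x, x ∈ X := by
      refine irr_use hρ X (fun g x hx y => ?_) ?_
      · have h1 := hx (y * g)
        rw [map_mul, Module.End.mul_apply] at h1
        exact h1
      · obtain ⟨u, hu, hu0⟩ := hU0
        refine ⟨u, fun y => ?_, fun h => hu0 (Subtype.ext h)⟩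
        by_cases hy : ∀ v, η (D.c y v) = η v
        · obtain ⟨v, m, rfl⟩ := (hS y).1 hy
          rw [map_mul, Module.End.mul_apply]
          have h1 : D.prj η ρ (ρ (D.i v) (ρ (D.j m) u)) = η v • ρ (D.j m) u := by
            have h2 := LinearMap.congr_fun (D.prj_i η ρ v) (ρ (D.j m) u)
            rw [Module.End.mul_apply, LinearMap.smul_apply] at h2
            rw [h2, D.prj_fix hC η ρ]
            exact (D.isoR hS ρ m u).2
          rw [h1]
          exact Submodule.smul_mem _ _ ⟨D.isoR hS ρ m u, hU m u hu, rfl⟩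
        · have h1 := LinearMap.congr_fun (D.prj_zero hy ρ) (u : W)
          rw [Module.End.mul_apply, Module.End.mul_apply, D.prj_fix hC η ρ u.2] at h1
          rw [h1]
          exact Submodule.zero_mem _
    have h2 := hX (w : W) 1
    rw [map_one, Module.End.one_apply, D.prj_fix hC η ρ w.2] at h2
    obtain ⟨u, hu, huw⟩ := h2
    have : u = w := Subtype.ext huw
    rw [← this]
    exact hu

end iso

section corr

variable {J C M : Type} [Group J] [CommGroup C] [Group M] {D : CD J C M} {K : Type} [Field K]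
  [Fintype C]

/-- the character of the isotypic part -/
def CD.T (D : CD J C M) (η : C →* K) (φ : J → K) (m : M) : K :=
  (Fintype.card C : K)⁻¹ * D.tf (hinv η) φ m

/-- the isotypic part of an irreducible trace is zero or an irreducible trace -/
theorem CD.T_irr (hC : (Fintype.card C : K) ≠ 0) {η : C →* K} (hS : D.Stab η) {φ : J → K}
    (hφ : IsIrrTrace φ) (hne : D.T η φ ≠ 0) : IsIrrTrace (D.T η φ) := by
  obtain ⟨W, _, _, _, ρ, hρ, rfl⟩ := hφ
  have h1 : (D.isoR hS ρ).character = D.T η ρ.character := funext fun m => D.isoR_char hC hS ρ m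
  refine ⟨D.isoS η ρ, inferInstance, inferInstance, inferInstance, D.isoR hS ρ,
    D.isoR_irr hC hS hρ ?_, h1.symm⟩
  by_contra hcon
  push Not at hcon
  apply hne
  rw [← h1]
  funext m
  unfold Representation.character
  have h2 : D.isoR hS ρ m = 0 := by
    ext w
    exact (hcon _ (D.isoR hS ρ m w).2)
  rw [h2, map_zero]
  rfl

end corr

end Run7.h45
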