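import Pool.Agent.Run7.h45.Sub
import Pool.Agent.Y63.NV.Final

/-!
# The block of a weight and the Clifford correspondence
-/

set_option autoImplicit false
set_option linter.unusedSectionVars false

open scoped Classical BigOperators

noncomputable section

namespace Run7.h45

open Pool.Agent.Y63.NV Pool.Agent.N85.WM
open Pool.Agent.Y63.AWC (IsIrreducibleCharacter)

section cj

variable {Γ V G : Type} [Group Γ] [CommGroup V] [Group G] {D : CD Γ V G}

/-- the conjugate data -/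
def CD.cj (D : CD Γ V G) (x : Γ) : CD Γ V G where
  i := (MulAut.conj x).toMonoidHom.comp D.i
  j := (MulAut.conj x).toMonoidHom.comp D.j
  c := D.c.comp (MulAut.conj x⁻¹).toMonoidHom
  hc y v := by
    change x * D.i (D.c (x⁻¹ * y * x⁻¹⁻¹) v) * x⁻¹ = y * (x * D.i v * x⁻¹) * y⁻¹
    rw [D.hc]
    group
  uniq v m h := by
    have h1 : x * D.i v * x⁻¹ = x * D.j m * x⁻¹ := h
    exact D.uniq v m (mul_left_cancel (mul_right_cancel h1))

theorem CD.cj_i (x : Γ) (v : V) : (D.cj x).i v = x * D.i v * x⁻¹ := rfl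

theorem CD.cj_j (x : Γ) (m : G) : (D.cj x).j m = x * D.j m * x⁻¹ := rfl

theorem CD.cj_c (x y : Γ) : (D.cj x).c y = D.c (x⁻¹ * y * x) := by
  change D.c (x⁻¹ * y * x⁻¹⁻¹) = _
  rw [inv_inv]

theorem CD.cj_stab {K : Type} [Field K] {θ : V →* K} (hS : D.Stab θ) (x : Γ) :
    (D.cj x).Stab θ := by
  intro y
  simp_rw [D.cj_c]
  rw [hS (x⁻¹ * y * x)]
  constructor
  · rintro ⟨v, m, h⟩
    refine ⟨v, m, ?_⟩
    rw [D.cj_i, D.cj_j]
    have h1 : y = x * (x⁻¹ * y * x) * x⁻¹ := by group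
    rw [h1, h]
    group
  · rintro ⟨v, m, h⟩
    refine ⟨v, m, ?_⟩
    rw [D.cj_i, D.cj_j] at h
    rw [h]
    group

theorem CD.cj_fix (Q : Subgroup G) (x : Γ) : (D.cj x).fix Q = D.fix Q := by
  ext v
  have h1 : ∀ q, (D.cj x).c ((D.cj x).j q) = D.c (D.j q) := by
    intro q
    rw [D.cj_c, D.cj_j]
    congr 1
    group
  constructor
  · intro h q hq
    rw [← h1]
    exact h q hq
  · intro h q hq
    rw [h1]
    exact h q hq

theorem CD.cj_tf [Fintype V] {K : Type} [Field K] (θ : V →* K) {z : Γ → K} (hz : IsClassFun z)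
    (x : Γ) : (D.cj x).tf θ z = D.tf θ z := by
  funext m
  unfold CD.tf
  refine Finset.sum_congr rfl fun v _ => ?_
  rw [D.cj_i, D.cj_j]
  congr 1
  rw [← hz x (D.i v * D.j m)]
  congr 1
  group

end cj

section star

variable {Γ V G : Type} [Group Γ] [CommGroup V] [Group G] {D : CD Γ V G}
  {p : ℕ} [Fact p.Prime] {F : Type} [Field F] [CharP F p] (red : integralClosure ℤ ℂ →+* F)
  {Q : Subgroup G} {P : Subgroup Γ}

theorem redH_rh [Finite V] (θ : V →* ℂ) : redH red (D.rh Q θ) = D.rh Q (redH red θ) := rfl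

/-- sums over `V` and over `C_V(Q)` -/
theorem CD.sum_fix [Fintype V] (hQ : IsPGroup p Q) {θ : V →* F} (hS : D.Stab θ) {z : Γ → F}
    (hz : IsClassFun z) {m : G} (hm : ∀ q ∈ Q, q * m = m * q) :
    ∑ v, θ v * z (D.i v * D.j m) = ∑ v : D.fix Q, θ v * z (D.i v * D.j m) := by
  let _ : MulAction Q V := MulAction.compHom V (D.aQ Q)
  have hact : ∀ (q : Q) (v : V), q • v = D.c (D.j q) v := fun q v => rfl
  rw [B930.sum_fixed (p := p) (Q := Q) (Y := V) hQ (fun v => θ v * z (D.i v * D.j m)) (by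
    intro q v
    rw [hact, D.st_j hS]
    congr 1
    rw [← hz (D.j q) (D.i v * D.j m), D.hc]
    congr 1
    have h1 : D.j q * D.j m = D.j m * D.j q := by rw [← map_mul, ← map_mul, hm q q.2]
    have h2 : (D.j q)⁻¹ * D.j m = D.j m * (D.j q)⁻¹ := by
      rw [inv_mul_eq_iff_eq_mul, ← mul_assoc, h1, mul_inv_cancel_right]
    rw [mul_assoc _ (D.j q)⁻¹, h2]
    group)]
  refine (Finset.sum_subtype _ (fun v => ?_) _)
  rw [B930.mem_fx]
  constructor
  · intro h q hq
    exact h ⟨q, hq⟩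
  · intro h q
    exact h q.1 q.2

theorem CD.cv_star [Finite Γ] [Fintype V] [Finite G] (hV : ¬ p ∣ Nat.card V)
    (hP : P = Q.map D.j) (hPp : IsPGroup p P) {θ : V →* ℂ} (hS : D.Stab θ)
    {χ : Subgroup.normalizer (P : Set Γ) → ℂ}
    (hχ : IsWt p (P.subgroupOf (Subgroup.normalizer (P : Set Γ))) χ)
    (hne : (D.sub Q P hP).T (D.rh Q θ) χ ≠ 0) {z : Γ → F} (hz : IsClassFun z) :
    centralValue red χ (fun y => z y) =
      centralValue red ((D.sub Q P hP).T (D.rh Q θ) χ) (fun m => D.tf (redH red θ) z m) := by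
  have : Fintype Γ := Fintype.ofFinite Γ
  have : Fintype G := Fintype.ofFinite G
  have hQ : IsPGroup p Q := by
    have h1 : IsPGroup p (Q.map D.j) := hP ▸ hPp
    exact IsPGroup.of_equiv h1 (Q.equivMapOfInjective D.j fun a b h => D.j_inj h).symm
  have hS' := D.sub_stab hV hP hPp hS
  have hfc : ¬ p ∣ Nat.card (D.fix Q) := fun h => hV (h.trans (Subgroup.card_subgroup_dvd_card _))
  have hw : IsWt p (Q.subgroupOf (Subgroup.normalizer (Q : Set G)))
      ((D.sub Q P hP).T (D.rh Q θ) χ) := wt_T hfc hS' (D.sub_nrm hP) hχ hne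
  have hzc : IsClassFun (fun y : Subgroup.normalizer (P : Set Γ) => z y) := fun g x => hz g x
  rw [cv_T red hS' hχ.irr hne hzc, redH_rh]
  have hn : (Q.subgroupOf (Subgroup.normalizer (Q : Set G))).Normal := Subgroup.normal_in_normalizer
  have hpg : IsPGroup p (Q.subgroupOf (Subgroup.normalizer (Q : Set G))) := hQ.comap_subtype
  have hSF : D.Stab (redH red θ) := stab_redH red hV hS
  have hSF' := D.sub_stab hV hP hPp hSF
  rw [← cutw' p F red _ _ _ _ hn hpg (CD.tf_class hSF' hzc) hw,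
    ← cutw' p F red _ _ (fun m : Subgroup.normalizer (Q : Set G) => D.tf (redH red θ) z m) _ hn hpg
      (fun g x => D.tf_class hSF hz g x) hw]
  congr 1
  funext m
  unfold cut
  by_cases hm : m ∈ Subgroup.centralizer ((Q.subgroupOf (Subgroup.normalizer (Q : Set G)) :
      Subgroup (Subgroup.normalizer (Q : Set G))) : Set (Subgroup.normalizer (Q : Set G)))
  · rw [if_pos hm, if_pos hm]
    symm
    refine D.sum_fix hQ hSF hz (m := (m : G)) ?_
    intro q hq
    exact congrArg Subtype.val (Subgroup.mem_centralizer_iff.1 hm ⟨q, Subgroup.le_normalizer hq⟩ hq)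
  · rw [if_neg hm, if_neg hm]

end star

end Run7.h45
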