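import Pool.Agent.Run7.h45.Coh

/-!
# Normalizers of `p`-subgroups of the stabilizer
-/

set_option autoImplicit false
set_option linter.unusedSectionVars false

open scoped Classical BigOperators

noncomputable section

namespace Run7.h45

open Pool.Agent.Y63.NV Pool.Agent.N85.WM
open Pool.Agent.Y63.AWC (IsIrreducibleCharacter)

variable {Γ V G : Type} [Group Γ] [CommGroup V] [Group G]

/-- the elements of `V` centralised by `Q` -/
def CD.fix (D : CD Γ V G) (Q : Subgroup G) : Subgroup V where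
  carrier := {v | ∀ q ∈ Q, D.c (D.j q) v = v}
  one_mem' := fun q _ => map_one _
  mul_mem' := fun {x y} hx hy q hq => by rw [map_mul, hx q hq, hy q hq]
  inv_mem' := fun {x} hx q hq => by rw [map_inv, hx q hq]

variable {D : CD Γ V G} {Q : Subgroup G} {P : Subgroup Γ}

theorem CD.mem_fix {v : V} : v ∈ D.fix Q ↔ ∀ q ∈ Q, D.c (D.j q) v = v := Iff.rfl

theorem CD.mem_fix_iff (hP : P = Q.map D.j) {v : V} : v ∈ D.fix Q ↔ ∀ u ∈ P, D.c u v = v := by
  subst hP
  constructor
  · rintro h _ ⟨q, hq, rfl⟩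
    exact h q hq
  · intro h q hq
    exact h _ ⟨q, hq, rfl⟩

theorem CD.c_eq_iff {y : Γ} {v : V} : D.c y v = v ↔ y * D.i v = D.i v * y := by
  constructor
  · intro h
    rw [D.mul_i, h]
  · intro h
    apply D.i_inj
    rw [D.hc, h, mul_inv_cancel_right]

theorem CD.i_norm (hP : P = Q.map D.j) {v : V} (hv : v ∈ D.fix Q) :
    D.i v ∈ Subgroup.normalizer (P : Set Γ) := by
  rw [D.mem_fix_iff hP] at hv
  have h1 : ∀ u ∈ P, D.i v * u * (D.i v)⁻¹ = u := by
    intro u hu
    rw [← D.c_eq_iff.1 (hv u hu), mul_inv_cancel_right]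
  rw [Subgroup.mem_normalizer_iff]
  intro u
  constructor
  · intro hu
    rw [h1 u hu]
    exact hu
  · intro hu
    have h2 := h1 _ hu
    have h3 : D.i v * u * (D.i v)⁻¹ = u := by
      have h4 := mul_left_cancel (mul_right_cancel h2)
      exact h4
    rwa [h3] at hu

theorem CD.j_norm (hP : P = Q.map D.j) {m : G} (hm : m ∈ Subgroup.normalizer (Q : Set G)) :
    D.j m ∈ Subgroup.normalizer (P : Set Γ) := by
  subst hP
  rw [Subgroup.mem_normalizer_iff] at hm ⊢
  intro u
  constructor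
  · rintro ⟨q, hq, rfl⟩
    exact ⟨m * q * m⁻¹, (hm q).1 hq, by rw [map_mul, map_mul, map_inv]⟩
  · rintro ⟨q, hq, h⟩
    refine ⟨m⁻¹ * q * m, (hm _).2 ?_, ?_⟩
    · have : m * (m⁻¹ * q * m) * m⁻¹ = q := by group
      rwa [this]
    · rw [map_mul, map_mul, map_inv, h]
      group

theorem norm_conj_mem {y : Γ} (hy : y ∈ Subgroup.normalizer (P : Set Γ)) {u : Γ} (hu : u ∈ P) :
    y⁻¹ * u * y ∈ P := by
  rw [Subgroup.mem_normalizer_iff] at hy
  refine (hy _).2 ?_
  have : y * (y⁻¹ * u * y) * y⁻¹ = u := by group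
  rwa [this]

theorem CD.c_fix (hP : P = Q.map D.j) {y : Γ} (hy : y ∈ Subgroup.normalizer (P : Set Γ)) {v : V}
    (hv : v ∈ D.fix Q) : D.c y v ∈ D.fix Q := by
  rw [D.mem_fix_iff hP] at hv ⊢
  intro u hu
  have h1 := hv _ (norm_conj_mem hy hu)
  rw [← MulAut.mul_apply, ← map_mul]
  have h2 : u * y = y * (y⁻¹ * u * y) := by group
  rw [h2, map_mul, MulAut.mul_apply, h1]

/-- the data for the normalizer -/
def CD.sub (D : CD Γ V G) (Q : Subgroup G) (P : Subgroup Γ) (hP : P = Q.map D.j) :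
    CD ↥(Subgroup.normalizer (P : Set Γ)) ↥(D.fix Q) ↥(Subgroup.normalizer (Q : Set G)) where
  i := (D.i.comp (D.fix Q).subtype).codRestrict _ fun v => D.i_norm hP v.2
  j := (D.j.comp (Subgroup.normalizer (Q : Set G)).subtype).codRestrict _ fun m => D.j_norm hP m.2
  c :=
    { toFun := fun y =>
        { toFun := fun v => ⟨D.c y v, D.c_fix hP y.2 v.2⟩
          invFun := fun v => ⟨D.c ((y : Γ)⁻¹) (v : V), D.c_fix hP (y⁻¹).2 v.2⟩
          left_inv := fun v => by
            apply Subtype.ext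
            change D.c ((y : Γ)⁻¹) (D.c y v) = v
            rw [← MulAut.mul_apply, ← map_mul, inv_mul_cancel, map_one, MulAut.one_apply]
          right_inv := fun v => by
            apply Subtype.ext
            change D.c y (D.c ((y : Γ)⁻¹) v) = v
            rw [← MulAut.mul_apply, ← map_mul, mul_inv_cancel, map_one, MulAut.one_apply]
          map_mul' := fun v w => Subtype.ext (map_mul (D.c (y : Γ)) (v : V) (w : V)) }
      map_one' := by
        apply MulEquiv.ext
        intro v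
        apply Subtype.ext
        change D.c 1 (v : V) = (v : V)
        rw [map_one, MulAut.one_apply]
      map_mul' := fun y z => by
        apply MulEquiv.ext
        intro v
        apply Subtype.ext
        change D.c ((y : Γ) * z) (v : V) = D.c (y : Γ) (D.c (z : Γ) (v : V))
        rw [map_mul, MulAut.mul_apply] }
  hc y v := Subtype.ext (D.hc y v)
  uniq v m h := by
    obtain ⟨h1, h2⟩ := D.uniq v m (congrArg Subtype.val h)
    exact ⟨Subtype.ext h1, Subtype.ext h2⟩

theorem CD.sub_i (hP : P = Q.map D.j) (v : D.fix Q) :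
    (((D.sub Q P hP).i v : Subgroup.normalizer (P : Set Γ)) : Γ) = D.i v := rfl

theorem CD.sub_j (hP : P = Q.map D.j) (m : Subgroup.normalizer (Q : Set G)) :
    (((D.sub Q P hP).j m : Subgroup.normalizer (P : Set Γ)) : Γ) = D.j m := rfl

theorem CD.sub_c (hP : P = Q.map D.j) (y : Subgroup.normalizer (P : Set Γ)) (v : D.fix Q) :
    ((D.sub Q P hP).c y v : V) = D.c (y : Γ) (v : V) := rfl

/-- the restriction of a homomorphism -/
def CD.rh (D : CD Γ V G) (Q : Subgroup G) {K : Type} [Field K] (θ : V →* K) : D.fix Q →* K :=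
  θ.comp (D.fix Q).subtype

/-- the action of `Q` on `V` -/
def CD.aQ (D : CD Γ V G) (Q : Subgroup G) : Q →* MulAut V := D.c.comp (D.j.comp Q.subtype)

theorem CD.fx_aQ : Fx (D.aQ Q) = D.fix Q := by
  ext v
  constructor
  · intro h q hq
    exact h ⟨q, hq⟩
  · intro h q
    exact h q.1 q.2

theorem coprime_pg [Finite Γ] [Finite V] {p : ℕ} [Fact p.Prime] (hV : ¬ p ∣ Nat.card V)
    {P : Subgroup Γ} (hP : IsPGroup p P) [Fintype P] [Fintype V] :
    Nat.Coprime (Fintype.card P) (Fintype.card V) := by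
  obtain ⟨k, hk⟩ := IsPGroup.iff_card.mp hP
  rw [← Nat.card_eq_fintype_card, ← Nat.card_eq_fintype_card, hk]
  exact Nat.Coprime.pow_left _ ((Nat.Prime.coprime_iff_not_dvd Fact.out).mpr hV)

/-- two invariant homomorphisms which agree on `C_V(P)` are equal -/
theorem CD.inv_ext [Finite Γ] [Finite V] {p : ℕ} [Fact p.Prime] (hV : ¬ p ∣ Nat.card V)
    (hPp : IsPGroup p P) {K : Type} [Field K] {θ θ' : V →* K} (h : ∀ u ∈ P, ∀ v, θ (D.c u v) = θ v)
    (h' : ∀ u ∈ P, ∀ v, θ' (D.c u v) = θ' v)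
    (he : ∀ v, (∀ u ∈ P, D.c u v = v) → θ v = θ' v) : θ = θ' := by
  have : Fintype P := Fintype.ofFinite P
  have : Fintype V := Fintype.ofFinite V
  refine hom_ext_fx (coprime_pg hV hPp) (D.c.comp P.subtype) (fun u v => h u u.2 v)
    (fun u v => h' u u.2 v) fun v hv => he v fun u hu => hv ⟨u, hu⟩

/-- conjugates of subgroups of `G` inside `G` -/
theorem CD.conj_sub {Q' : Subgroup G} {v : V}
    (h : ∀ q ∈ Q', ∃ r ∈ Q, D.i v * D.j q * (D.i v)⁻¹ = D.j r) :
    (∀ q ∈ Q', q ∈ Q) ∧ v ∈ D.fix Q' := by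
  have key : ∀ q ∈ Q', q ∈ Q ∧ D.c (D.j q) v = v := by
    intro q hq
    obtain ⟨r, hr, h1⟩ := h q hq
    have h2 : D.i v * D.j q * (D.i v)⁻¹ = D.i (v * (D.c (D.j q) v)⁻¹) * D.j q := by
      rw [map_mul, map_inv, D.hc]
      group
    have h3 : D.i (v * (D.c (D.j q) v)⁻¹) * D.j q = D.i 1 * D.j r := by
      rw [← h2, h1, map_one, one_mul]
    obtain ⟨h4, h5⟩ := D.ij_inj h3
    refine ⟨h5 ▸ hr, ?_⟩
    exact (mul_inv_eq_one.mp h4).symm
  exact ⟨fun q hq => (key q hq).1, fun q hq => (key q hq).2⟩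

theorem CD.inv_of_stab {K : Type} [Field K] {θ : V →* K} (hS : D.Stab θ) (hP : P = Q.map D.j) :
    ∀ u ∈ P, ∀ v, θ (D.c u v) = θ v := by
  subst hP
  rintro _ ⟨q, _, rfl⟩ v
  exact D.st_j hS q v

theorem CD.sub_stab [Finite Γ] [Finite V] {p : ℕ} [Fact p.Prime] (hV : ¬ p ∣ Nat.card V)
    (hP : P = Q.map D.j) (hPp : IsPGroup p P) {K : Type} [Field K] {θ : V →* K} (hS : D.Stab θ) :
    (D.sub Q P hP).Stab (D.rh Q θ) := by
  intro y
  constructor
  · intro h
    have h1 : θ.comp (D.c (y : Γ)).toMonoidHom = θ := by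
      refine D.inv_ext hV hPp (P := P) ?_ (D.inv_of_stab hS hP) ?_
      · intro u hu v
        change θ (D.c y (D.c u v)) = θ (D.c y v)
        have h2 : (y : Γ) * u = (y * u * (y : Γ)⁻¹) * y := by group
        rw [← MulAut.mul_apply, ← map_mul, h2, map_mul, MulAut.mul_apply]
        exact D.inv_of_stab hS hP _ ((Subgroup.mem_normalizer_iff.mp y.2 u).1 hu) _
      · intro v hv
        exact h ⟨v, (D.mem_fix_iff hP).2 hv⟩
    obtain ⟨v, m, h2⟩ := (hS (y : Γ)).1 (fun v => DFunLike.congr_fun h1 v)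
    -- the conjugate of `Q` by `m`
    have h3 := D.conj_sub (Q := Q) (Q' := Q.map (MulAut.conj m).toMonoidHom) (v := v) (by
      rintro _ ⟨q, hq, rfl⟩
      have hq' : D.j q ∈ P := by rw [hP]; exact ⟨q, hq, rfl⟩
      have h4 : (y : Γ) * D.j q * (y : Γ)⁻¹ ∈ P :=
        (Subgroup.mem_normalizer_iff.mp y.2 _).1 hq'
      obtain ⟨r, hr, h5⟩ : (y : Γ) * D.j q * (y : Γ)⁻¹ ∈ Q.map D.j := by
        rw [← hP]; exact h4
      refine ⟨r, hr, ?_⟩
      rw [h5, h2]
      change D.i v * D.j (m * q * m⁻¹) * (D.i v)⁻¹ = _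
      rw [map_mul, map_mul, map_inv]
      group)
    have h6 : Finite G := Finite.of_injective D.j fun a b h => D.j_inj h
    have h4 : Q.map (MulAut.conj m).toMonoidHom = Q := by
      refine Subgroup.eq_of_le_of_card_ge (fun q hq => h3.1 q hq) ?_
      rw [Subgroup.card_map_of_injective (MulAut.conj m).injective]
    have h5 : m ∈ Subgroup.normalizer (Q : Set G) := by
      rw [Subgroup.mem_normalizer_iff]
      intro q
      constructor
      · intro hq
        rw [← h4]
        exact ⟨q, hq, rfl⟩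
      · intro hq
        rw [← h4] at hq
        obtain ⟨r, hr, h7⟩ := hq
        have h8 : m * r * m⁻¹ = m * q * m⁻¹ := h7
        rw [← mul_left_cancel (mul_right_cancel h8)]
        exact hr
    have h7 : v ∈ D.fix Q := by
      have h8 := h3.2
      rwa [h4] at h8
    exact ⟨⟨v, h7⟩, ⟨m, h5⟩, Subtype.ext h2⟩
  · rintro ⟨v, m, rfl⟩ w
    exact (hS _).2 ⟨v, m, rfl⟩ w

theorem CD.sub_nrm (hP : P = Q.map D.j) :
    Nrm (D.sub Q P hP) (P.subgroupOf (Subgroup.normalizer (P : Set Γ)))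
      (Q.subgroupOf (Subgroup.normalizer (Q : Set G))) where
  nor := Subgroup.normal_in_normalizer
  mem x := by
    rw [Subgroup.mem_subgroupOf]
    constructor
    · intro hx
      have h1 : (x : Γ) ∈ Q.map D.j := by rw [← hP]; exact hx
      obtain ⟨q, hq, h2⟩ := h1
      exact ⟨⟨q, Subgroup.le_normalizer hq⟩, hq, Subtype.ext h2.symm⟩
    · rintro ⟨q, hq, rfl⟩
      have h1 : D.j q ∈ P := by rw [hP]; exact ⟨q, hq, rfl⟩
      exact h1
  cen q hq v := by
    apply Subtype.ext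
    change D.j q * D.i v = D.i v * D.j q
    exact D.c_eq_iff.1 (v.2 q hq)

end Run7.h45
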