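import Pool.Agent.Run7.h45.Dg
import Pool.Agent.Q288.MB.MinMax
import Pool.Agent.N20.Blk2

/-!
# The Clifford correspondence for blocks as sets of complex characters
-/

set_option autoImplicit false
set_option linter.unusedSectionVars false

open scoped Classical BigOperators

noncomputable section

namespace Run7.h45

open Pool.Agent.H254R3.IN (IsIrr IsBlock IsDefectGroup IsBrauerCorrespondent omega blockCoeff Om IsCl
  RF red rep Om_blockCoeff blockCoeff_cl blockCoeff_mem eq_of_Om Om_ind ind_cl ind_mem red_Om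
  red_one red_zero red_mul red_eq_zero red_eq_zero_iff red_eq_iff nonunits_mem)

theorem irr_iff {G : Type} [Group G] {χ : G → ℂ} :
    IsIrr χ ↔ Pool.Agent.Y63.AWC.IsIrreducibleCharacter χ := Iff.rfl

section up

variable {J C M : Type} [Group J] [CommGroup C] [Group M] {D : CD J C M}

/-- the characters of `J` above the characters in `A` -/
def CD.up [Fintype C] (D : CD J C M) (η : C →* ℂ) (A : Set (M → ℂ)) : Set (J → ℂ) :=
  {χ | IsIrr χ ∧ D.T η χ ∈ A}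

variable [Fintype J] [Fintype C] [Fintype M] {η : C →* ℂ}

theorem irr_ne0 {G : Type} [Group G] {χ : G → ℂ} (h : IsIrr χ) : χ ≠ 0 := by
  intro h0
  exact irr1 h (congrFun h0 1)

theorem CD.up_irr (A : Set (M → ℂ)) : ∀ χ ∈ D.up η A, IsIrr χ := fun _ h => h.1

theorem CD.up_ne {A : Set (M → ℂ)} (hA : ∀ ψ ∈ A, IsIrr ψ) {χ : J → ℂ} (h : χ ∈ D.up η A) :
    D.T η χ ≠ 0 := irr_ne0 (hA _ h.2)

/-- the bijection with `A` -/
theorem CD.up_bij (hS : D.Stab η) {A : Set (M → ℂ)} (hA : ∀ ψ ∈ A, IsIrr ψ) :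
    Function.Bijective (fun χ : D.up η A => (⟨D.T η χ.1, χ.2.2⟩ : A)) := by
  constructor
  · rintro ⟨χ, h⟩ ⟨χ', h'⟩ he
    have h1 : D.T η χ = D.T η χ' := congrArg Subtype.val he
    exact Subtype.ext (D.T_inj hS h.1 h'.1 h1 (D.up_ne hA h))
  · rintro ⟨ψ, hψ⟩
    obtain ⟨χ, h1, h2⟩ := D.T_surj cardC_ne hS (hA ψ hψ)
    exact ⟨⟨χ, h1, by rw [h2]; exact hψ⟩, Subtype.ext h2⟩

theorem CD.up_card (hS : D.Stab η) {A : Set (M → ℂ)} (hA : ∀ ψ ∈ A, IsIrr ψ) :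
    Nat.card (D.up η A) = Nat.card A :=
  Nat.card_eq_of_bijective _ (D.up_bij hS hA)

theorem CD.up_surj (hS : D.Stab η) {A : Set (M → ℂ)} (hA : ∀ ψ ∈ A, IsIrr ψ) {ψ : M → ℂ}
    (hψ : ψ ∈ A) : ∃ χ ∈ D.up η A, D.T η χ = ψ := by
  obtain ⟨χ, h1, h2⟩ := D.T_surj cardC_ne hS (hA ψ hψ)
  exact ⟨χ, ⟨h1, by rw [h2]; exact hψ⟩, h2⟩

/-- central characters at class functions -/
theorem CD.Om_tf (hS : D.Stab η) {χ : J → ℂ} (h : IsIrr χ) (hne : D.T η χ ≠ 0)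
    {f : J → ℂ} (hf : IsCl f) : Om f χ = Om (D.tf η f) (D.T η χ) :=
  om_tf hS h hne (fun g x => hf x g)

theorem CD.tf_cl (hS : D.Stab η) {f : J → ℂ} (hf : IsCl f) : IsCl (D.tf η f) := fun g y =>
  D.tf_class hS (fun g x => hf x g) y g

theorem CD.ind_cl' (hS : D.Stab η) {z : M → ℂ} (hz : IsCl z) : IsCl (D.ind η z) := fun g y =>
  D.ind_class hS (fun g x => hz x g) y g

theorem CD.Om_ind' (hS : D.Stab η) {z : M → ℂ} (hz : IsCl z) {χ : J → ℂ} (h : IsIrr χ) :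
    Om (D.ind η z) χ = if D.T η χ = 0 then 0 else Om z (D.T η χ) := by
  have hz' : Pool.Agent.Y63.NV.IsClassFun z := fun g x => hz x g
  split_ifs with h0
  · have h1 := D.ind_zero cardC_ne hS z (irrT_class (K := ℂ) h) h0 1
    unfold Om
    simp_rw [mul_one] at h1
    rw [h1, zero_div]
  · rw [D.Om_tf hS h h0 (D.ind_cl' hS hz), D.tf_ind cardC_ne hS hz']

/-- the block idempotent -/
theorem CD.coeff_up (hS : D.Stab η) {A : Set (M → ℂ)} (hA : ∀ ψ ∈ A, IsIrr ψ) :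
    blockCoeff (D.up η A) = D.ind η (blockCoeff A) := by
  apply eq_of_Om (blockCoeff_cl (D.up_irr A)) (D.ind_cl' hS (blockCoeff_cl hA))
  intro χ hχ
  rw [Om_blockCoeff (D.up_irr A) hχ, D.Om_ind' hS (blockCoeff_cl hA) hχ]
  by_cases h0 : D.T η χ = 0
  · rw [if_pos h0, if_neg]
    exact fun h => D.up_ne hA h h0
  · rw [if_neg h0, Om_blockCoeff hA (D.T_irr cardC_ne hS hχ h0)]
    congr 1
    exact propext ⟨fun h => h.2, fun h => ⟨hχ, h⟩⟩

variable {O : ValuationSubring ℂ} {p : ℕ} [hp : Fact p.Prime]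

omit [Fintype J] [Fintype M] in
theorem hom_mem (η : C →* ℂ) (v : C) : η v ∈ O :=
  Pool.Agent.H254R3.IN.mem_of_isIntegral (hom_int η v)

theorem CD.tf_mem (f : J → ℂ) (hf : ∀ g, f g ∈ O) (m : M) : D.tf η f m ∈ O :=
  sum_mem fun v _ => O.mul_mem _ _ (hom_mem η v) (hf _)

theorem CD.ind_mem' (hpO : (p : ℂ) ∈ O.nonunits) (hC : ¬ p ∣ Nat.card C) (z : M → ℂ)
    (hz : ∀ g, z g ∈ O) (y : J) : D.ind η z y ∈ O := by
  unfold CD.ind
  refine O.mul_mem _ _ ?_ (sum_mem fun q _ => ?_)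
  · rw [← Nat.card_eq_fintype_card]
    exact Pool.Agent.H254R3.IN.nat_inv_mem hpO hC
  · unfold CD.ext
    split_ifs
    · exact O.mul_mem _ _ (hom_mem η _) (hz _)
    · exact O.zero_mem

/-- reduced values of central characters in a block -/
theorem block_red {G : Type} [Group G] [Fintype G] {B : Set (G → ℂ)} (hB : IsBlock O B)
    {χ ψ : G → ℂ} (hχ : χ ∈ B) (hψ : ψ ∈ B) {f : G → ℂ} (hf : IsCl f) (hfO : ∀ g, f g ∈ O) :
    red O (Om f χ) = red O (Om f ψ) := by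
  rw [(red_Om (hB.irr _ hχ) hf hfO).2, (red_Om (hB.irr _ hψ) hf hfO).2]
  exact Finset.sum_congr rfl fun K _ => by rw [hB.red_eq hχ hψ]

/-- **blocks correspond to blocks** -/
theorem CD.up_block (hpO : (p : ℂ) ∈ O.nonunits) (hC : ¬ p ∣ Nat.card C) (hS : D.Stab η)
    {A : Set (M → ℂ)} (hA : IsBlock O A) : IsBlock O (D.up η A) := by
  obtain ⟨ψ₀, hψ₀⟩ := hA.nonempty
  obtain ⟨χ₀, hχ₀, hT⟩ := D.up_surj hS hA.irr hψ₀
  refine ⟨χ₀, hχ₀.1, Set.Subset.antisymm ?_ ?_⟩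
  · intro χ hχ
    refine ⟨hχ.1, fun x => ?_⟩
    rw [← red_eq_iff (hχ.1.omega_mem O x) (hχ₀.1.omega_mem O x), ← Om_ind hχ.1, ← Om_ind hχ₀.1,
      D.Om_tf hS hχ.1 (D.up_ne hA.irr hχ) (ind_cl x),
      D.Om_tf hS hχ₀.1 (D.up_ne hA.irr hχ₀) (ind_cl x)]
    exact block_red hA hχ.2 hχ₀.2 (D.tf_cl hS (ind_cl x)) (D.tf_mem _ (ind_mem O x))
  · rintro χ ⟨hχ, hx⟩
    have hcl := D.ind_cl' hS (blockCoeff_cl hA.irr)
    have hO := D.ind_mem' (η := η) hpO hC _ (blockCoeff_mem hA)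
    have e1 := (red_Om hχ hcl hO).2
    have e2 := (red_Om hχ₀.1 hcl hO).2
    have e3 : red O (Om (D.ind η (blockCoeff A)) χ) = 1 := by
      rw [e1, Finset.sum_congr rfl fun K _ => by
        rw [(red_eq_iff (hχ.omega_mem O _) (hχ₀.1.omega_mem O _)).mpr (hx (rep K))], ← e2,
        D.Om_ind' hS (blockCoeff_cl hA.irr) hχ₀.1, if_neg (D.up_ne hA.irr hχ₀),
        Om_blockCoeff hA.irr (hA.irr _ hχ₀.2), if_pos hχ₀.2, red_one]
    rw [D.Om_ind' hS (blockCoeff_cl hA.irr) hχ] at e3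
    split_ifs at e3 with h0
    · rw [red_zero] at e3
      exact absurd e3 zero_ne_one
    · have h1 := D.T_irr cardC_ne hS hχ h0
      rw [Om_blockCoeff hA.irr h1] at e3
      split_ifs at e3 with h2
      · exact ⟨hχ, h2⟩
      · rw [red_zero] at e3
        exact absurd e3 zero_ne_one

end up

end Run7.h45
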