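import Pool.Agent.Run7.h45.Up

/-!
# Defect groups and heights under the Clifford correspondence
-/

set_option autoImplicit false
set_option linter.unusedSectionVars false

open scoped Classical BigOperators

noncomputable section

namespace Run7.h45

open Pool.Agent.H254R3.IN (IsIrr IsBlock IsDefectGroup IsBrauerCorrespondent omega blockCoeff Om IsCl
  RF red rep Om_blockCoeff blockCoeff_cl blockCoeff_mem eq_of_Om Om_ind ind_cl ind_mem red_Om
  red_one red_zero red_mul red_eq_zero red_eq_zero_iff red_eq_iff nonunits_mem charP_RF red_sum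
  red_natCast red_nat_eq_zero_iff red_inv mem_of_isIntegral nat_inv_mem)
open Pool.Agent.Q259.BW (isDefectGroup_iff Irr0 card_mul_relIndex)

/-- the reduction of the algebraic integers -/
def redO (O : ValuationSubring ℂ) : integralClosure ℤ ℂ →+* RF O :=
  (IsLocalRing.residue O).comp
    ((algebraMap (integralClosure ℤ ℂ) ℂ).codRestrict O fun x => mem_of_isIntegral x.2)

theorem redO_eq {O : ValuationSubring ℂ} {z : ℂ} (hz : IsIntegral ℤ z) :
    Pool.Agent.Y63.NV.redC (redO O) z = red O z := by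
  unfold Pool.Agent.Y63.NV.redC
  rw [dif_pos hz, Pool.Agent.H254R3.IN.red_of_mem (mem_of_isIntegral hz)]
  rfl

section up

variable {J C M : Type} [Group J] [CommGroup C] [Group M] {D : CD J C M}
  [Fintype J] [Fintype C] [Fintype M] {η : C →* ℂ} {O : ValuationSubring ℂ} {p : ℕ}
  [hp : Fact p.Prime]

omit [Fintype J] [Fintype M] in
theorem redH_O (η : C →* ℂ) (v : C) : redH (redO O) η v = red O (η v) := redO_eq (hom_int η v)

theorem red_tf (f : J → ℂ) (hf : ∀ g, f g ∈ O) (m : M) :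
    red O (D.tf η f m) = D.tf (redH (redO O) η) (fun g => red O (f g)) m := by
  unfold CD.tf
  rw [red_sum _ _ fun v _ => O.mul_mem _ _ (hom_mem η v) (hf _)]
  exact Finset.sum_congr rfl fun v _ => by rw [red_mul (hom_mem η v) (hf _), redH_O]

theorem red_ind (hpO : (p : ℂ) ∈ O.nonunits) (hC : ¬ p ∣ Nat.card C) (z : M → ℂ)
    (hz : ∀ g, z g ∈ O) (y : J) (hst : D.stS (redH (redO O) η) = D.stS η) :
    red O (D.ind η z y) = D.ind (redH (redO O) η) (fun g => red O (z g)) y := by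
  unfold CD.ind
  have he : ∀ x, D.ext η z x ∈ O := by
    intro x
    unfold CD.ext
    split_ifs
    · exact O.mul_mem _ _ (hom_mem η _) (hz _)
    · exact O.zero_mem
  have hc : red O (Fintype.card C : ℂ) ≠ 0 := by
    rw [← Nat.card_eq_fintype_card]
    intro h
    exact hC ((red_nat_eq_zero_iff hpO _).mp h)
  rw [red_mul (by rw [← Nat.card_eq_fintype_card]; exact nat_inv_mem hpO hC)
    (sum_mem fun q _ => he _), red_inv hc, red_natCast]
  congr 1
  rw [red_sum _ _ fun q _ => he _, hst]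
  refine Finset.sum_congr rfl fun q _ => ?_
  by_cases h : ∃ v m, q.out⁻¹ * y * q.out = D.i v * D.j m
  · obtain ⟨v, m, h⟩ := h
    rw [h, D.ext_st, D.ext_st, red_mul (hom_mem η _) (hz _), redH_O]
  · rw [D.ext_out _ _ h, D.ext_out _ _ h, red_zero]

theorem up_stS (hpO : (p : ℂ) ∈ O.nonunits) (hC : ¬ p ∣ Nat.card C) (hS : D.Stab η) :
    D.stS (redH (redO O) η) = D.stS η := by
  have := charP_RF hpO
  have hSF : D.Stab (redH (redO O) η) := stab_redH (redO O) hC hS
  ext y
  exact (hSF y).trans (hS y).symm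

/-- one direction of the comparison -/
theorem CD.cent_up (hpO : (p : ℂ) ∈ O.nonunits) (hC : ¬ p ∣ Nat.card C) (hS : D.Stab η)
    {Q : Subgroup M} (hQ : IsPGroup p Q) {y : J} {k : M}
    (hk : ∀ q ∈ Q, q * k = k * q) (hne : red O (D.tf η (Pool.Agent.H254R3.IN.ind y) k) ≠ 0) :
    ∃ y' : J, IsConj y y' ∧ Q.map D.j ≤ Subgroup.centralizer ({y'} : Set J) := by
  have := charP_RF hpO
  have hSF : D.Stab (redH (redO O) η) := stab_redH (redO O) hC hS
  have hcl : Pool.Agent.Y63.NV.IsClassFun (fun g : J => red O (Pool.Agent.H254R3.IN.ind y g)) :=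
    fun g x => by
      change red O (Pool.Agent.H254R3.IN.ind y (g * x * g⁻¹)) = red O (Pool.Agent.H254R3.IN.ind y x)
      rw [ind_cl y x g]
  rw [red_tf _ (ind_mem O y)] at hne
  unfold CD.tf at hne
  rw [D.sum_fix hQ hSF hcl hk] at hne
  obtain ⟨v, -, hv⟩ := Finset.exists_ne_zero_of_sum_ne_zero hne
  have h1 : IsConj y (D.i v * D.j k) := by
    by_contra hcon
    apply hv
    unfold Pool.Agent.H254R3.IN.ind
    rw [if_neg hcon, red_zero, mul_zero]
  refine ⟨_, h1, ?_⟩
  rintro _ ⟨q, hq, rfl⟩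
  rw [Subgroup.mem_centralizer_singleton_iff]
  have h2 : D.j q * D.i v = D.i v * D.j q := D.c_eq_iff.1 (v.2 q hq)
  have h3 : D.j q * D.j k = D.j k * D.j q := by rw [← map_mul, ← map_mul, hk q hq]
  rw [← mul_assoc, h2, mul_assoc, h3, mul_assoc]

/-- the other direction of the comparison -/
theorem CD.cent_down (hpO : (p : ℂ) ∈ O.nonunits) (hC : ¬ p ∣ Nat.card C) (hS : D.Stab η)
    {P : Subgroup J} (hP : IsPGroup p P) {y : J} (hy : ∀ u ∈ P, u * y = y * u)
    {z : M → ℂ} (hz : IsCl z) (hzO : ∀ g, z g ∈ O) (hne : red O (D.ind η z y) ≠ 0) :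
    ∃ (Q : Subgroup M) (x : J), P = Q.map (D.cj x).j ∧ IsPGroup p Q ∧
      ∃ m ∈ Subgroup.centralizer (Q : Set M), red O (z m) ≠ 0 := by
  have := charP_RF hpO
  by_contra hcon
  push Not at hcon
  apply hne
  rw [red_ind hpO hC z hzO y (up_stS hpO hC hS)]
  refine D.ind_van (redO O) hC hS hP (z := fun g => red O (z g)) (fun g x => ?_) (fun Q x hQ m hm => ?_) y ?_
  · change red O (z (g * x * g⁻¹)) = red O (z x)
    rw [hz x g]
  · refine hcon Q x hQ ?_ m hm
    have h1 : IsPGroup p (Q.map (D.cj x).j) := hQ ▸ hP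
    exact IsPGroup.of_equiv h1 (Q.equivMapOfInjective (D.cj x).j fun a b h => CD.j_inj h).symm
  · rw [Subgroup.mem_centralizer_iff]
    exact hy

theorem exists_defect_class {G : Type} [Group G] [Fintype G] {B : Set (G → ℂ)}
    (hB : IsBlock O B) : ∃ y : G, (∀ χ ∈ B, omega χ y ∉ O.nonunits) ∧ blockCoeff B y ∉ O.nonunits := by
  obtain ⟨χ, hχ⟩ := hB.nonempty
  have h1 := (red_Om (hB.irr _ hχ) (blockCoeff_cl hB.irr) (blockCoeff_mem hB)).2
  rw [Om_blockCoeff hB.irr (hB.irr _ hχ), if_pos hχ, red_one] at h1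
  obtain ⟨K, -, hK⟩ := Finset.exists_ne_zero_of_sum_ne_zero (h1 ▸ one_ne_zero :
    ∑ K : ConjClasses G, red O (blockCoeff B (rep K)) * red O (omega χ (rep K)) ≠ 0)
  refine ⟨rep K, fun ψ hψ hcon => ?_, fun hcon => ?_⟩
  · apply hK
    rw [hB.red_eq hχ hψ, red_eq_zero hcon, mul_zero]
  · apply hK
    rw [red_eq_zero hcon, zero_mul]

/-- **defect groups correspond** -/
theorem CD.up_defect (hpO : (p : ℂ) ∈ O.nonunits) (hC : ¬ p ∣ Nat.card C) (hS : D.Stab η)
    {A : Set (M → ℂ)} (hA : IsBlock O A) {Q : Subgroup M} (hQ : IsDefectGroup p O A Q) :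
    IsDefectGroup p O (D.up η A) (Q.map D.j) := by
  have hU := D.up_block hpO hC hS hA
  rw [isDefectGroup_iff] at hQ
  obtain ⟨x, q1, q2, q3, q4, q5⟩ := hQ
  obtain ⟨y, y1, y2⟩ := exists_defect_class hU
  obtain ⟨χ, hχ⟩ := hU.nonempty
  -- a class of `M`
  have hm1 : red O (Om (D.tf η (Pool.Agent.H254R3.IN.ind y)) (D.T η χ)) ≠ 0 := by
    rw [← D.Om_tf hS hχ.1 (D.up_ne hA.irr hχ) (ind_cl y), Om_ind hχ.1]
    intro h
    exact y1 χ hχ ((red_eq_zero_iff (hχ.1.omega_mem O y)).mp h)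
  rw [(red_Om (hA.irr _ hχ.2) (D.tf_cl hS (ind_cl y)) (D.tf_mem _ (ind_mem O y))).2] at hm1
  obtain ⟨K, -, hK⟩ := Finset.exists_ne_zero_of_sum_ne_zero hm1
  obtain ⟨k, hk1, hk2⟩ := Pool.Agent.Q288.MB.minmax hpO hA (y := rep K) (a := x)
    (fun ψ hψ hcon => hK (by
      rw [hA.red_eq hχ.2 hψ, red_eq_zero hcon, mul_zero])) q5 q2 q1
  have hk3 : ∀ q ∈ Q, q * k = k * q := fun q hq =>
    Subgroup.mem_centralizer_singleton_iff.mp (hk2 hq)
  obtain ⟨y', c1, c2⟩ := D.cent_up hpO hC hS q2 hk3 (y := y) (by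
    rw [← (D.tf_cl hS (ind_cl y)).isConj hk1]
    intro h
    exact hK (by rw [h, zero_mul]))
  have y1' : ∀ χ ∈ D.up η A, omega χ y' ∉ O.nonunits := fun χ hχ => by
    rw [← hχ.1.omega_congr c1]
    exact y1 χ hχ
  have y2' : blockCoeff (D.up η A) y' ∉ O.nonunits := by
    rw [← (blockCoeff_cl hU.irr).isConj c1]
    exact y2
  rw [isDefectGroup_iff]
  refine ⟨y', c2, q2.map _, ?_, y1', y2'⟩
  -- a Sylow subgroup of the centralizer
  intro hdvd
  obtain ⟨P', hP'⟩ := (q2.map D.j).comap_subtype (K := Subgroup.centralizer ({y'} : Set J)) |>.exists_le_sylow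
  set P : Subgroup J := (P' : Subgroup (Subgroup.centralizer ({y'} : Set J))).map
    (Subgroup.centralizer ({y'} : Set J)).subtype with hPdef
  have hPp : IsPGroup p P := P'.isPGroup'.map _
  have hPc : P ≤ Subgroup.centralizer ({y'} : Set J) := Subgroup.map_subtype_le _
  obtain ⟨R, w, hR1, hR2, m, hm, hm'⟩ := D.cent_down hpO hC hS hPp (y := y')
    (fun u hu => Subgroup.mem_centralizer_singleton_iff.mp (hPc hu)) (blockCoeff_cl hA.irr)
    (blockCoeff_mem hA) (by
      rw [← D.coeff_up hS hA.irr]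
      intro h
      exact y2' ((red_eq_zero_iff (blockCoeff_mem hU y')).mp h))
  obtain ⟨l, l1, l2⟩ := Pool.Agent.Q288.MB.minmax hpO hA (y := x) (a := m) q4
    (fun h => hm' (red_eq_zero h)) hR2 (by
      intro r hr
      rw [Subgroup.mem_centralizer_singleton_iff]
      exact Subgroup.mem_centralizer_iff.mp hm r hr)
  -- compare the orders
  have e1 : Nat.card P = Nat.card R := by rw [hR1]; exact CD.card_map rfl
  have e2 : Nat.card R ≤ Nat.card Q := by
    have f1 := card_mul_relIndex q1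
    have f2 : Nat.card (Subgroup.centralizer ({l} : Set M)) =
        Nat.card (Subgroup.centralizer ({x} : Set M)) :=
      (Pool.Agent.H254R3.IN.card_centralizer_congr l1).symm
    have f3 : Nat.card R ∣ Nat.card Q * Q.relIndex (Subgroup.centralizer ({x} : Set M)) := by
      rw [f1, ← f2]
      exact Subgroup.card_dvd_of_le l2
    obtain ⟨n, hn⟩ := IsPGroup.iff_card.mp hR2
    rw [hn] at f3 ⊢
    have f4 : (p ^ n).Coprime (Q.relIndex (Subgroup.centralizer ({x} : Set M))) :=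
      Nat.Coprime.pow_left _ ((Nat.Prime.coprime_iff_not_dvd hp.out).mpr q3)
    exact Nat.le_of_dvd Nat.card_pos (f4.dvd_of_dvd_mul_right f3)
  have e3 : Q.map D.j ≤ P := by
    intro u hu
    exact ⟨⟨u, c2 hu⟩, hP' hu, rfl⟩
  have e4 : Q.map D.j = P := by
    refine Subgroup.eq_of_le_of_card_ge e3 ?_
    rw [Subgroup.card_map_of_injective (fun a b h => D.j_inj h), e1]
    exact e2
  have e5 : ¬ p ∣ P.relIndex (Subgroup.centralizer ({y'} : Set J)) :=
    ((Pool.Agent.Q259.BW.sylow_iff _ P).mp ⟨P', rfl⟩).2.2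
  rw [← e4] at e5
  exact e5 hdvd

/-- **heights correspond** -/
theorem CD.up_irr0 (hC : ¬ p ∣ Nat.card C) (hS : D.Stab η) {A : Set (M → ℂ)}
    (hA : ∀ ψ ∈ A, IsIrr ψ) (Q : Subgroup M) :
    Irr0 p (Q.map D.j) (D.up η A) = D.up η (Irr0 p Q A) := by
  have key : ∀ χ ∈ D.up η A, (∃ n : ℕ, (n : ℂ) = χ 1 ∧ n.factorization p =
      (Q.map D.j).index.factorization p) ↔ ∃ n : ℕ, (n : ℂ) = D.T η χ 1 ∧ n.factorization p =
      Q.index.factorization p := by
    intro χ hχ
    have hi := hA _ hχ.2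
    obtain ⟨a, ha⟩ := deg_nat (irr_iff.mp hχ.1)
    obtain ⟨b, hb⟩ := deg_nat (irr_iff.mp hi)
    have ha0 : a ≠ 0 := by
      rintro rfl
      exact irr1 hχ.1 (by rw [ha, Nat.cast_zero])
    have hb0 : b ≠ 0 := by
      rintro rfl
      exact irr1 hi (by rw [hb, Nat.cast_zero])
    have h2 := deg_T hS hχ.1 (D.up_ne hA hχ)
    rw [ha, hb] at h2
    have h3 : a * (Nat.card C * Nat.card M) = Nat.card J * b := by exact_mod_cast h2
    have hJ : Nat.card J ≠ 0 := Nat.card_pos.ne'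
    have hCc : Nat.card C ≠ 0 := Nat.card_pos.ne'
    have hM : Nat.card M ≠ 0 := Nat.card_pos.ne'
    have hQ0 : Nat.card Q ≠ 0 := Nat.card_pos.ne'
    have hQJ : Nat.card (Q.map D.j) = Nat.card Q :=
      Subgroup.card_map_of_injective (fun a b h => D.j_inj h)
    have h4 := congrArg (fun n => n.factorization p) h3
    have i1 := Q.card_mul_index
    have i2 := (Q.map D.j).card_mul_index
    rw [hQJ] at i2
    have i3 : Q.index ≠ 0 := Subgroup.index_ne_zero_of_finite
    have i4 : (Q.map D.j).index ≠ 0 := Subgroup.index_ne_zero_of_finite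
    have i5 := congrArg (fun n => n.factorization p) i1
    have i6 := congrArg (fun n => n.factorization p) i2
    simp only [Nat.factorization_mul ha0 (mul_ne_zero hCc hM), Nat.factorization_mul hCc hM,
      Nat.factorization_mul hJ hb0, Nat.factorization_mul hQ0 i3, Nat.factorization_mul hQ0 i4,
      Finsupp.add_apply, Nat.factorization_eq_zero_of_not_dvd hC, zero_add] at h4 i5 i6
    rw [ha, hb]
    constructor
    · rintro ⟨n, h5, h6⟩
      have h7 : n = a := by exact_mod_cast h5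
      subst h7
      exact ⟨b, rfl, by omega⟩
    · rintro ⟨n, h5, h6⟩
      have h7 : n = b := by exact_mod_cast h5
      subst h7
      exact ⟨a, rfl, by omega⟩
  ext χ
  constructor
  · rintro ⟨h1, h2⟩
    exact ⟨h1.1, h1.2, (key χ h1).1 h2⟩
  · rintro ⟨h1, h2, h3⟩
    exact ⟨⟨h1, h2⟩, (key χ ⟨h1, h2⟩).2 h3⟩

end up

end Run7.h45
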